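import Pool.Agent.MP_5d5bd1_pr.Core

-- part MP_5d5bd1_pr.Switch
section

section FileFSwitch

/-!
Switchings. With `i = α.1, i' = β.1, j = hd π α, j' = hd π β`, the switched matrix is
`A + (e_i - e_i') (e_j' - e_j)ᵀ`.
`app_sw`: write `∑ a, y (hd π' (k,a))` as a sum over all stubs with row `k`; or treat
`y (hd π' s) = y (hd π s) + [s = α] (y j' - y j) + [s = β] (y j - y j')`.
`app_sw_inv` follows from `app_sw` and `app_pair` tested on `Pi.single`, or directly.
`sw_left`: `∑ k, w k * app π' z v k = ∑ j, app π⁻¹ z w j * v j + (v j' - v j) (w i - w i')`, `pair_le`.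
`small_sw_left`: take the unit `u` from `Small.inv`; `nrm (app π'⁻¹ z u) ≤ τ + √2 ‖u i - u i'‖ ≤ T + √2 * 2T/ϑ`;
then `Small.inv` again.
`near_count`: if `β` is not a loop, `¬ Conf π j j'` and `¬ Conf π⁻¹ i i'`, then the switch is far (case analysis:
a row touches a column in `π'` through the diagonal, through a stub other than `α, β`, or through `α` / `β`;
use `Simple`). The exceptional `β` are counted by `card_conf`, `card_hd_fiber`.
-/

open Finset

namespace Pool.Agent.OKM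

variable {n r : ℕ}

def sw (π : Cfg n r) (α β : St n r) : Cfg n r := π * Equiv.swap α β

def Far (π : Cfg n r) (α β : St n r) : Prop :=
  ¬ Conf π (hd π α) (hd π β) ∧ ¬ Conf π⁻¹ α.1 β.1

theorem hd_sw_left (π : Cfg n r) (α β : St n r) : hd (sw π α β) α = hd π β := by
  simp only [hd, sw, Equiv.Perm.mul_apply, Equiv.swap_apply_left]
theorem hd_sw_right (π : Cfg n r) (α β : St n r) : hd (sw π α β) β = hd π α := by
  simp only [hd, sw, Equiv.Perm.mul_apply, Equiv.swap_apply_right]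
theorem hd_sw_other (π : Cfg n r) {α β s : St n r} (h1 : s ≠ α) (h2 : s ≠ β) :
    hd (sw π α β) s = hd π s := by
  simp only [hd, sw, Equiv.Perm.mul_apply, Equiv.swap_apply_of_ne_of_ne h1 h2]

theorem fswitch_inv (π : Cfg n r) (α β : St n r) :
    (sw π α β)⁻¹ = sw π⁻¹ (π α) (π β) := by
  unfold sw
  rw [Equiv.swap_apply_apply, mul_inv_rev, Equiv.swap_inv, ← mul_assoc, ← mul_assoc,
    inv_mul_cancel, one_mul]

theorem fswitch_hd_inv (π : Cfg n r) (α : St n r) : hd π⁻¹ (π α) = α.1 := by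
  simp only [hd, Equiv.Perm.coe_inv, Equiv.symm_apply_apply]

theorem fswitch_val (π : Cfg n r) (α β s : St n r) (y : Fin n → ℂ) :
    y (hd (sw π α β) s) = y (hd π s) + ((if s = α then y (hd π β) - y (hd π α) else 0)
      - if s = β then y (hd π β) - y (hd π α) else 0) := by
  by_cases h1 : s = α
  · subst h1
    rw [hd_sw_left, if_pos rfl]
    by_cases h2 : s = β
    · subst h2
      rw [if_pos rfl]; ring
    · rw [if_neg h2]; ring
  · rw [if_neg h1]
    by_cases h2 : s = β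
    · subst h2
      rw [hd_sw_right, if_pos rfl]; ring
    · rw [hd_sw_other π h1 h2, if_neg h2]; ring

theorem fswitch_sum (α : St n r) (k : Fin n) (d : ℂ) :
    (∑ a : Fin r, if (k, a) = α then d else 0) = d * (Pi.single α.1 1 : Fin n → ℂ) k := by
  obtain ⟨i, b⟩ := α
  by_cases h : k = i
  · subst h
    simp
  · simp [h]

theorem fswitch_nrm (a b : Fin n) :
    nrm (Pi.single a 1 - Pi.single b 1 : Fin n → ℂ) ≤ 3 / 2 := by
  refine nrm_le_of_sq (by norm_num) ?_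
  have h : ∀ k, ‖(Pi.single a 1 - Pi.single b 1 : Fin n → ℂ) k‖ ^ 2 ≤
      (if k = a then 1 else 0) + (if k = b then 1 else 0) := by
    intro k
    rw [Pi.sub_apply, Pi.single_apply, Pi.single_apply]
    split_ifs <;> simp
  refine (sum_le_sum fun k _ => h k).trans ?_
  rw [sum_add_distrib, sum_ite_eq', sum_ite_eq', if_pos (mem_univ _), if_pos (mem_univ _)]
  norm_num

theorem app_sw (π : Cfg n r) (α β : St n r) (z : ℂ) (y : Fin n → ℂ) :
    app (sw π α β) z y = app π z y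
      + (y (hd π β) - y (hd π α)) • (Pi.single α.1 1 - Pi.single β.1 1 : Fin n → ℂ) := by
  funext k
  simp only [app, fswitch_val π α β _ y, sum_add_distrib, sum_sub_distrib, fswitch_sum,
    Pi.add_apply, Pi.smul_apply, Pi.sub_apply, smul_eq_mul]
  ring

theorem app_sw_inv (π : Cfg n r) (α β : St n r) (z : ℂ) (u : Fin n → ℂ) :
    app (sw π α β)⁻¹ z u = app π⁻¹ z u
      + (u α.1 - u β.1) • (Pi.single (hd π β) 1 - Pi.single (hd π α) 1 : Fin n → ℂ) := by
  rw [fswitch_inv, app_sw, fswitch_hd_inv, fswitch_hd_inv, ← neg_sub (u α.1), neg_smul,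
    ← smul_neg, neg_sub]
  rfl

theorem sw_left (π : Cfg n r) (α β : St n r) (z : ℂ) {v : Fin n → ℂ} {T ϑ : ℝ} (hv : nrm v = 1)
    (hT : nrm (app (sw π α β) z v) ≤ T) (hϑ : ϑ ≤ ‖v (hd π β) - v (hd π α)‖) (w : Fin n → ℂ) :
    ϑ * ‖w α.1 - w β.1‖ ≤ nrm (app π⁻¹ z w) + T * nrm w := by
  have h1 : (v (hd π β) - v (hd π α)) * (w α.1 - w β.1) =
      ∑ k, w k * app (sw π α β) z v k - ∑ j, app π⁻¹ z w j * v j := by
    rw [← app_pair, app_sw, ← sum_sub_distrib]
    simp only [Pi.add_apply, Pi.smul_apply, Pi.sub_apply, smul_eq_mul, Pi.single_apply]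
    have : ∀ k, w k * (app π z v k + (v (hd π β) - v (hd π α)) *
        ((if k = α.1 then 1 else 0) - if k = β.1 then 1 else 0)) - w k * app π z v k =
        (v (hd π β) - v (hd π α)) *
          ((if k = α.1 then w k else 0) - if k = β.1 then w k else 0) := by
      intro k
      split_ifs <;> ring
    simp only [this]
    rw [← mul_sum, sum_sub_distrib, sum_ite_eq', sum_ite_eq', if_pos (mem_univ _),
      if_pos (mem_univ _)]
  have h2 := pair_le w (app (sw π α β) z v)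
  have h3 := pair_le (app π⁻¹ z w) v
  rw [hv, mul_one] at h3
  have h4 := mul_le_mul_of_nonneg_left hT (nrm_nonneg w)
  have h5 := mul_le_mul_of_nonneg_right hϑ (norm_nonneg (w α.1 - w β.1))
  rw [← norm_mul, h1] at h5
  have h6 := norm_sub_le (∑ k, w k * app (sw π α β) z v k) (∑ j, app π⁻¹ z w j * v j)
  linarith

theorem sw_right (π : Cfg n r) (α β : St n r) (z : ℂ) {u : Fin n → ℂ} {T ϑ : ℝ} (hu : nrm u = 1)
    (hT : nrm (app (sw π α β)⁻¹ z u) ≤ T) (hϑ : ϑ ≤ ‖u α.1 - u β.1‖) (w : Fin n → ℂ) :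
    ϑ * ‖w (hd π α) - w (hd π β)‖ ≤ nrm (app π z w) + T * nrm w := by
  rw [fswitch_inv] at hT
  have h := sw_left π⁻¹ (π α) (π β) z hu hT (ϑ := ϑ)
    (by rw [fswitch_hd_inv, fswitch_hd_inv, norm_sub_rev]; exact hϑ) w
  rw [inv_inv] at h
  exact h

theorem fswitch_small (π : Cfg n r) (α β : St n r) (z : ℂ) {τ T ϑ : ℝ} (hs : Small π z τ)
    (hτ : τ ≤ T) (hϑ : 0 < ϑ) (hϑ1 : ϑ ≤ 1)
    (h : ∀ w : Fin n → ℂ, ϑ * ‖w (hd π α) - w (hd π β)‖ ≤ nrm (app π z w) + T * nrm w) :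
    Small (sw π α β) z (T * (4 / ϑ)) := by
  obtain ⟨v, hv, hτv⟩ := hs
  refine ⟨v, hv, ?_⟩
  have h1 := h v
  rw [hv, mul_one, norm_sub_rev] at h1
  have hT : 0 ≤ T := ((nrm_nonneg _).trans hτv).trans hτ
  rw [app_sw]
  refine (nrm_add_le _ _).trans ?_
  rw [nrm_smul, ← mul_div_assoc, le_div_iff₀ hϑ]
  have h2 := mul_le_mul_of_nonneg_left (fswitch_nrm α.1 β.1)
    (mul_nonneg hϑ.le (norm_nonneg (v (hd π β) - v (hd π α))))
  have h3 := mul_le_mul (hτv.trans hτ) hϑ1 hϑ.le hT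
  linarith

theorem small_sw_left (π : Cfg n r) (α β : St n r) (z : ℂ) {τ T ϑ : ℝ} (hs : Small π z τ)
    (hτ : τ ≤ T) (hϑ : 0 < ϑ) (hϑ1 : ϑ ≤ 1)
    (h : ∀ w : Fin n → ℂ, ϑ * ‖w α.1 - w β.1‖ ≤ nrm (app π⁻¹ z w) + T * nrm w) :
    Small (sw π α β) z (T * (4 / ϑ)) := by
  have h1 := fswitch_small π⁻¹ (π α) (π β) z hs.inv hτ hϑ hϑ1
    (by rw [fswitch_hd_inv, fswitch_hd_inv]; exact h)
  rw [← fswitch_inv] at h1
  have h2 := h1.inv
  rwa [inv_inv] at h2

theorem small_sw_right (π : Cfg n r) (α β : St n r) (z : ℂ) {τ T ϑ : ℝ} (hs : Small π z τ)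
    (hτ : τ ≤ T) (hϑ : 0 < ϑ) (hϑ1 : ϑ ≤ 1)
    (h : ∀ w : Fin n → ℂ, ϑ * ‖w (hd π α) - w (hd π β)‖ ≤ nrm (app π z w) + T * nrm w) :
    Small (sw π α β) z (T * (4 / ϑ)) := fswitch_small π α β z hs hτ hϑ hϑ1 h

/-- touching through the diagonal or through a stub other than `α, β` -/
def fswitch_T (π : Cfg n r) (α β : St n r) (k c : Fin n) : Prop :=
  k = c ∨ ∃ a, (k, a) ≠ α ∧ (k, a) ≠ β ∧ hd π (k, a) = c

theorem fswitch_T_touch {π : Cfg n r} {α β : St n r} {k c : Fin n} (h : fswitch_T π α β k c) :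
    Touch π k c := h.imp id fun ⟨a, _, _, ha⟩ => ⟨a, ha⟩

theorem fswitch_touch {π : Cfg n r} {α β : St n r} {k c : Fin n} (h : Touch (sw π α β) k c) :
    fswitch_T π α β k c ∨ (k = α.1 ∧ c = hd π β) ∨ (k = β.1 ∧ c = hd π α) := by
  rcases h with h | ⟨a, ha⟩
  · exact Or.inl (Or.inl h)
  by_cases h1 : (k, a) = α
  · rw [h1, hd_sw_left] at ha
    exact Or.inr (Or.inl ⟨by rw [← h1], ha.symm⟩)
  by_cases h2 : (k, a) = β
  · rw [h2, hd_sw_right] at ha
    exact Or.inr (Or.inr ⟨by rw [← h2], ha.symm⟩)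
  rw [hd_sw_other π h1 h2] at ha
  exact Or.inl (Or.inr ⟨a, h1, h2, ha⟩)

theorem fswitch_far {π : Cfg n r} (hS : Simple π) {α β : St n r} (hα : hd π α ≠ α.1)
    (hβ : hd π β ≠ β.1) (h1 : ¬ Conf π (hd π α) (hd π β)) (h2 : ¬ Conf π⁻¹ α.1 β.1) :
    Far (sw π α β) α β := by
  have hj : hd π α ≠ hd π β := fun h => h1 (h ▸ conf_refl π _)
  have hi : α.1 ≠ β.1 := fun h => h2 (h ▸ conf_refl π⁻¹ _)
  have hA : ¬ fswitch_T π α β α.1 (hd π α) := by
    rintro (h | ⟨a, ha, -, h⟩)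
    · exact hα h.symm
    · exact ha (Prod.ext rfl (hS α.1 a α.2 h))
  have hB : ¬ fswitch_T π α β β.1 (hd π β) := by
    rintro (h | ⟨a, -, ha, h⟩)
    · exact hβ h.symm
    · exact ha (Prod.ext rfl (hS β.1 a β.2 h))
  constructor
  · rw [hd_sw_left, hd_sw_right]
    rintro ⟨k, hk, hk'⟩
    rcases fswitch_touch hk with a | ⟨a, -⟩ | ⟨-, a⟩
    · rcases fswitch_touch hk' with b | ⟨-, b⟩ | ⟨b, -⟩
      · exact h1 ⟨k, fswitch_T_touch b, fswitch_T_touch a⟩
      · exact hj b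
      · exact hB (b ▸ a)
    · rcases fswitch_touch hk' with b | ⟨-, b⟩ | ⟨b, -⟩
      · exact hA (a ▸ b)
      · exact hj b
      · exact hi (a.symm.trans b)
    · exact hj a.symm
  · rintro ⟨c, hc, hc'⟩
    rw [touch_inv] at hc hc'
    rcases fswitch_touch hc with a | ⟨-, a⟩ | ⟨a, -⟩
    · rcases fswitch_touch hc' with b | ⟨b, -⟩ | ⟨-, b⟩
      · exact h2 ⟨c, (touch_inv π _ _).2 (fswitch_T_touch a), (touch_inv π _ _).2 (fswitch_T_touch b)⟩
      · exact hi b.symm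
      · exact hA (b ▸ a)
    · rcases fswitch_touch hc' with b | ⟨b, -⟩ | ⟨-, b⟩
      · exact hB (a ▸ b)
      · exact hi b.symm
      · exact hj (b.symm.trans a)
    · exact hi a

open Classical in
theorem fswitch_card (π : Cfg n r) (σ : Cfg n r) (j : Fin n) :
    (univ.filter fun β : St n r => Conf π j (hd σ β)).card ≤ r * (r + 1) ^ 2 := by
  refine (card_le_mul_card_image_of_maps_to (f := hd σ)
    (t := univ.filter fun j' => Conf π j j') (fun a ha => ?_) r fun b _ => ?_).trans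
    (Nat.mul_le_mul_left _ (card_conf π j))
  · exact mem_filter.2 ⟨mem_univ _, (mem_filter.1 ha).2⟩
  · exact (card_le_card (filter_subset_filter _ (subset_univ _))).trans (card_hd_fiber σ b).le

open Classical in
theorem near_count {π : Cfg n r} (hS : Simple π) {α : St n r} (hα : hd π α ≠ α.1) :
    (univ.filter fun β => ¬ Far (sw π α β) α β).card
      ≤ (univ.filter fun β : St n r => hd π β = β.1).card + 2 * r * (r + 1) ^ 2 := by
  have h1 := fswitch_card π π (hd π α)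
  have h2 := fswitch_card π⁻¹ 1 α.1
  have h3 : (univ.filter fun β => ¬ Far (sw π α β) α β) ⊆
      (univ.filter fun β : St n r => hd π β = β.1) ∪
        ((univ.filter fun β : St n r => Conf π (hd π α) (hd π β)) ∪
          univ.filter fun β : St n r => Conf π⁻¹ α.1 (hd 1 β)) := by
    intro β hβ
    simp only [mem_union, mem_filter, mem_univ, true_and] at hβ ⊢
    by_contra hc
    simp only [not_or] at hc
    exact hβ (fswitch_far hS hα hc.1 hc.2.1 hc.2.2)
  have h4 := (card_le_card h3).trans ((card_union_le _ _).trans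
    (Nat.add_le_add_left ((card_union_le _ _).trans (Nat.add_le_add h1 h2)) _))
  rw [mul_assoc, two_mul]
  exact h4

end Pool.Agent.OKM

end FileFSwitch

section FileFCore

/-!
The combinatorial core of the final argument.
`cut_ge`: if `80 |R'| ≥ 81 |R|`, the stubs with head in `R'` and row outside `R` number at least
`r |R'| - r |R|` (`card_hd_fiber`); otherwise `outN π R \ R'` has at least `|R|/80` elements, each giving a stub.
`coarea`: strong induction on `|supp f| + |supp g|`: subtract the least positive value `μ` of `f` and `g`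
on their supports: `|f - g| = |f' - g'| + μ |1_{f>0} - 1_{g>0}|`.
`fcore`: `η = 1/(2000 r)`. For `β ∈ Gd` the number of `l < L` with `|CS (l+1) β| > (1+η) |CS l β|` is at most
`log |𝒬| / log (1+η) ≤ 4000 r log |𝒬|`, so for some `l < L` at most `n/2500` stubs of `Gd` are unstable. Let `bad` be
`Gdᶜ` together with them. `f Q i = [Q ∈ CX l i]/|CX l i|`, `g Q j = [Q ∈ CY l j]/|CY l j|`. For good `β`:
`∑_Q |f Q β.1 - g Q (hd π β)| ≤ 12 η` (both sets have size in `[(1-η) a, (1+η) a]` and differ by at most `2 η a`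
elements, `a = |CS l β| > 0`); for bad `β` it is at most `2`. Summing `coarea` over `Q ∈ 𝒬`:
`n - |bad| ≤ card {i | CX l i ≠ ∅} ≤ 80 (12 η n r + 2 |bad|)`, so `|bad| ≥ 0.52 n / 161`.
-/

open Finset

namespace Pool.Agent.OKM

variable {n r : ℕ}

theorem cut_ge (hr : 1 ≤ r) (π : Cfg n r) (R R' : Finset (Fin n))
    (hR : 41 * R.card ≤ 40 * (outN π R).card) :
    R.card ≤ 80 * (univ.filter fun β : St n r => ¬ (β.1 ∈ R ↔ hd π β ∈ R')).card := by
  set cut := univ.filter fun β : St n r => ¬ (β.1 ∈ R ↔ hd π β ∈ R') with hcut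
  by_cases h : 81 * R.card ≤ 80 * R'.card
  · have h1 : (univ.filter fun β : St n r => hd π β ∈ R').card = r * R'.card := by
      rw [card_eq_sum_card_fiberwise (f := hd π) (s := univ.filter fun β : St n r => hd π β ∈ R')
        (t := R') (fun β hβ => (mem_filter.mp hβ).2)]
      rw [mul_comm, ← smul_eq_mul, ← sum_const]
      refine sum_congr rfl fun j hj => ?_
      refine Eq.trans ?_ (card_hd_fiber π j)
      congr 1
      ext β
      simp only [mem_filter, mem_univ, true_and]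
      exact ⟨fun h => h.2, fun h => ⟨h ▸ hj, h⟩⟩
    have h2 : (R ×ˢ (univ : Finset (Fin r))).card = r * R.card := by
      rw [card_product, card_univ, Fintype.card_fin, mul_comm]
    have h3 : (univ.filter fun β : St n r => hd π β ∈ R') ⊆ cut ∪ R ×ˢ (univ : Finset (Fin r)) := by
      intro β hβ
      have hβ' := (mem_filter.mp hβ).2
      by_cases hb : β.1 ∈ R
      · exact mem_union_right _ (mem_product.mpr ⟨hb, mem_univ _⟩)
      · exact mem_union_left _ (mem_filter.mpr ⟨mem_univ _, fun h => hb (h.mpr hβ')⟩)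
    have h4 := (card_le_card h3).trans (card_union_le _ _)
    rw [h1, h2] at h4
    have h5 : r * (81 * R.card) ≤ r * (80 * R'.card) := Nat.mul_le_mul_left r h
    have h6 : 1 * R.card ≤ r * R.card := Nat.mul_le_mul_right _ hr
    have h7 : r * (81 * R.card) = 81 * (r * R.card) := by ring
    have h8 : r * (80 * R'.card) = 80 * (r * R'.card) := by ring
    omega
  · have h3 : outN π R ⊆ cut.image (hd π) ∪ R' := by
      intro j hj
      obtain ⟨i, hi, a, rfl⟩ := (mem_outN π R j).mp hj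
      by_cases hb : hd π (i, a) ∈ R'
      · exact mem_union_right _ hb
      · exact mem_union_left _ (mem_image_of_mem _
          (mem_filter.mpr ⟨mem_univ _, fun h => hb (h.mp hi)⟩))
    have h4 := (card_le_card h3).trans (card_union_le _ _)
    have h5 : (cut.image (hd π)).card ≤ cut.card := card_image_le
    omega

theorem fcore_coarea (hr : 1 ≤ r) (π : Cfg n r) {φ : ℝ}
    (hc : ∀ R : Finset (Fin n), (R.card : ℝ) ≤ φ * n → 41 * R.card ≤ 40 * (outN π R).card)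
    (m : ℕ) : ∀ h : Fin n ⊕ Fin n → ℝ, (univ.filter fun x => h x ≠ 0).card < m → (∀ x, 0 ≤ h x) →
    ((univ.filter fun i => h (Sum.inl i) ≠ 0).card : ℝ) ≤ φ * n →
    ∑ i, h (Sum.inl i) ≤ 80 * ∑ β : St n r, |h (Sum.inl β.1) - h (Sum.inr (hd π β))| := by
  induction m with
  | zero => intro h hm; omega
  | succ m ih =>
    intro h hm h0 hsupp
    rcases (univ.filter fun x => h x ≠ 0).eq_empty_or_nonempty with he | hne
    · have hz : ∀ x, h x = 0 := by
        intro x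
        by_contra hx
        have : x ∈ univ.filter fun x => h x ≠ 0 := mem_filter.mpr ⟨mem_univ _, hx⟩
        rw [he] at this
        exact notMem_empty _ this
      simp [hz]
    obtain ⟨x₀, hx₀, hmin⟩ := exists_min_image _ h hne
    set μ := h x₀ with hμ
    have hμ0 : 0 ≤ μ := h0 x₀
    have hle : ∀ x, h x ≠ 0 → μ ≤ h x := fun x hx => hmin x (mem_filter.mpr ⟨mem_univ _, hx⟩)
    let h' : Fin n ⊕ Fin n → ℝ := fun x => if h x ≠ 0 then h x - μ else 0
    have h'0 : ∀ x, 0 ≤ h' x := by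
      intro x
      by_cases hx : h x ≠ 0
      · simp only [h', if_pos hx]; linarith [hle x hx]
      · simp only [h', if_neg hx]; exact le_rfl
    have hs : ∀ x, h' x ≠ 0 → h x ≠ 0 := by
      intro x hx hx0
      apply hx
      simp only [h']
      rw [if_neg (not_not.mpr hx0)]
    have hcard : (univ.filter fun x => h' x ≠ 0).card < m := by
      have : (univ.filter fun x => h' x ≠ 0) ⊂ (univ.filter fun x => h x ≠ 0) := by
        refine ⟨fun x hx => mem_filter.mpr ⟨mem_univ _, hs x (mem_filter.mp hx).2⟩, fun hsub => ?_⟩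
        have h1 := (mem_filter.mp (hsub hx₀)).2
        apply h1
        simp only [h']
        rw [if_pos (mem_filter.mp hx₀).2, sub_self]
      have := card_lt_card this
      omega
    have hsupp' : ((univ.filter fun i => h' (Sum.inl i) ≠ 0).card : ℝ) ≤ φ * n := by
      refine le_trans ?_ hsupp
      exact_mod_cast card_le_card fun i hi =>
        mem_filter.mpr ⟨mem_univ _, hs _ (mem_filter.mp hi).2⟩
    have hI := ih h' hcard h'0 hsupp'
    set R := univ.filter fun i => h (Sum.inl i) ≠ 0 with hR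
    set R' := univ.filter fun i => h (Sum.inr i) ≠ 0 with hR'
    have hcut := cut_ge hr π R R' (hc R hsupp)
    have e1 : ∑ i, h (Sum.inl i) = ∑ i, h' (Sum.inl i) + μ * R.card := by
      rw [hR, card_filter, Nat.cast_sum, mul_sum, ← sum_add_distrib]
      refine sum_congr rfl fun i _ => ?_
      by_cases hx : h (Sum.inl i) ≠ 0
      · simp only [h', if_pos hx]; push_cast; ring
      · simp only [h', if_neg hx]; rw [not_not.mp hx]; simp
    have e2 : ∑ β : St n r, |h (Sum.inl β.1) - h (Sum.inr (hd π β))| =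
        ∑ β : St n r, |h' (Sum.inl β.1) - h' (Sum.inr (hd π β))| +
          μ * (univ.filter fun β : St n r => ¬ (β.1 ∈ R ↔ hd π β ∈ R')).card := by
      rw [card_filter, Nat.cast_sum, mul_sum, ← sum_add_distrib]
      refine sum_congr rfl fun β _ => ?_
      have m1 : β.1 ∈ R ↔ h (Sum.inl β.1) ≠ 0 := by simp [hR]
      have m2 : hd π β ∈ R' ↔ h (Sum.inr (hd π β)) ≠ 0 := by simp [hR']
      by_cases hx : h (Sum.inl β.1) ≠ 0 <;> by_cases hy : h (Sum.inr (hd π β)) ≠ 0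
      · rw [if_neg (not_not.mpr (iff_of_true (m1.mpr hx) (m2.mpr hy)))]
        simp only [h', if_pos hx, if_pos hy]
        rw [Nat.cast_zero, mul_zero, add_zero, sub_sub_sub_cancel_right]
      · rw [if_pos (fun h => hy (m2.mp (h.mp (m1.mpr hx))))]
        simp only [h', if_pos hx, if_neg hy]
        rw [not_not.mp hy, sub_zero, sub_zero, abs_of_nonneg (h0 _),
          abs_of_nonneg (sub_nonneg.mpr (hle _ hx))]
        push_cast; ring
      · rw [if_pos (fun h => hx (m1.mp (h.mpr (m2.mpr hy))))]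
        simp only [h', if_neg hx, if_pos hy]
        rw [not_not.mp hx, zero_sub, zero_sub, abs_neg, abs_neg, abs_of_nonneg (h0 _),
          abs_of_nonneg (sub_nonneg.mpr (hle _ hy))]
        push_cast; ring
      · rw [if_neg (not_not.mpr (iff_of_false (fun h => hx (m1.mp h)) (fun h => hy (m2.mp h))))]
        simp only [h', if_neg hx, if_neg hy]
        rw [not_not.mp hx, not_not.mp hy]
        simp
    rw [e1, e2]
    have hcut' : (R.card : ℝ) ≤
        80 * (univ.filter fun β : St n r => ¬ (β.1 ∈ R ↔ hd π β ∈ R')).card := by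
      exact_mod_cast hcut
    have := mul_le_mul_of_nonneg_left hcut' hμ0
    linarith

theorem coarea (hr : 1 ≤ r) (π : Cfg n r) {φ : ℝ}
    (hc : ∀ R : Finset (Fin n), (R.card : ℝ) ≤ φ * n → 41 * R.card ≤ 40 * (outN π R).card)
    (f g : Fin n → ℝ) (hf : ∀ i, 0 ≤ f i) (hg : ∀ j, 0 ≤ g j)
    (hsupp : ((univ.filter fun i => f i ≠ 0).card : ℝ) ≤ φ * n) :
    ∑ i, f i ≤ 80 * ∑ β : St n r, |f β.1 - g (hd π β)| :=
  fcore_coarea hr π hc _ (Sum.elim f g) (Nat.lt_succ_self _)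
    (fun x => by cases x with
      | inl i => exact hf i
      | inr j => exact hg j) hsupp

/-- number of unstable steps of an increasing chain -/
theorem fcore_chain {η : ℝ} (hη : 0 ≤ η) (c : ℕ → ℕ) (h0 : 1 ≤ c 0) (hm : ∀ l, c l ≤ c (l + 1))
    (L : ℕ) :
    (1 + η) ^ ((range L).filter fun l => (1 + η) * c l < c (l + 1)).card ≤ c L := by
  induction L with
  | zero => simpa using h0
  | succ L ih =>
    rw [range_add_one, filter_insert]
    by_cases h : (1 + η) * c L < c (L + 1)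
    · rw [if_pos h, card_insert_of_notMem (by simp), pow_succ]
      have := mul_le_mul_of_nonneg_right ih (by linarith : 0 ≤ 1 + η)
      linarith
    · rw [if_neg h]
      exact ih.trans (by exact_mod_cast hm L)

theorem fcore_count {η : ℝ} (hη : 0 < η) (hη1 : η ≤ 1) {k : ℕ} {x : ℝ} (h : (1 + η) ^ k ≤ x) :
    η * k ≤ 2 * Real.log x := by
  have h1 : (k : ℝ) * Real.log (1 + η) ≤ Real.log x := by
    rw [← Real.log_pow]
    exact Real.log_le_log (by positivity) h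
  have h2 : η / 2 ≤ Real.log (1 + η) := by
    have h3 := Real.one_sub_inv_le_log_of_pos (show 0 < 1 + η by linarith)
    refine le_trans ?_ h3
    have h4 : 1 - (1 + η)⁻¹ = η / (1 + η) := by field_simp; ring
    rw [h4]
    exact div_le_div_of_nonneg_left hη.le (by linarith) (by linarith)
  have h5 := mul_le_mul_of_nonneg_left h2 (Nat.cast_nonneg (α := ℝ) k)
  linarith

/-- uniform distribution on a finite set -/
noncomputable def fcoreU (A : Finset (ℤ × ℤ)) (Q : ℤ × ℤ) : ℝ :=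
  if Q ∈ A then (A.card : ℝ)⁻¹ else 0

theorem fcore_nonneg (A : Finset (ℤ × ℤ)) (Q : ℤ × ℤ) : 0 ≤ fcoreU A Q := by
  unfold fcoreU
  split_ifs
  · positivity
  · exact le_rfl

theorem fcore_sum {A 𝒬 : Finset (ℤ × ℤ)} (h : A ⊆ 𝒬) :
    ∑ Q ∈ 𝒬, fcoreU A Q = A.card * (A.card : ℝ)⁻¹ := by
  unfold fcoreU
  rw [← sum_filter, filter_mem_eq_inter, inter_eq_right.mpr h, sum_const, nsmul_eq_mul]

theorem fcore_sum_le {A 𝒬 : Finset (ℤ × ℤ)} (h : A ⊆ 𝒬) : ∑ Q ∈ 𝒬, fcoreU A Q ≤ 1 := by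
  rw [fcore_sum h]
  exact mul_inv_le_one

theorem fcore_bad {A B 𝒬 : Finset (ℤ × ℤ)} (hA : A ⊆ 𝒬) (hB : B ⊆ 𝒬) :
    ∑ Q ∈ 𝒬, |fcoreU A Q - fcoreU B Q| ≤ 2 := by
  have h1 : ∑ Q ∈ 𝒬, |fcoreU A Q - fcoreU B Q| ≤ ∑ Q ∈ 𝒬, (fcoreU A Q + fcoreU B Q) :=
    sum_le_sum fun Q _ => abs_le.mpr
      ⟨by linarith [fcore_nonneg A Q], by linarith [fcore_nonneg B Q]⟩
  rw [sum_add_distrib] at h1
  linarith [fcore_sum_le hA, fcore_sum_le hB]

theorem fcore_inter {A B S : Finset (ℤ × ℤ)} {η : ℝ}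
    (h : ((S \ (A ∩ B)).card : ℝ) ≤ η * S.card) : (1 - η) * S.card ≤ (A ∩ B).card := by
  have h1 : S.card ≤ (S \ (A ∩ B)).card + (A ∩ B).card := card_le_card_sdiff_add_card
  have h2 : (S.card : ℝ) ≤ (S \ (A ∩ B)).card + (A ∩ B).card := by exact_mod_cast h1
  linarith

theorem fcore_good {A B S' 𝒬 : Finset (ℤ × ℤ)} {η a : ℝ} (hη : 0 ≤ η) (hη1 : η < 1) (ha : 0 < a)
    (hA : A ⊆ S') (hB : B ⊆ S') (hS : S' ⊆ 𝒬) (h1 : (S'.card : ℝ) ≤ (1 + η) * a)
    (h2 : (1 - η) * a ≤ (A ∩ B).card) :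
    ∑ Q ∈ 𝒬, |fcoreU A Q - fcoreU B Q| ≤ 4 * η := by
  have hc : (0 : ℝ) < (A ∩ B).card := lt_of_lt_of_le (mul_pos (by linarith) ha) h2
  have hA0 : (0 : ℝ) < A.card :=
    hc.trans_le (by exact_mod_cast card_le_card inter_subset_left)
  have hB0 : (0 : ℝ) < B.card :=
    hc.trans_le (by exact_mod_cast card_le_card inter_subset_right)
  have hA1 : ((1 + η) * a)⁻¹ ≤ (A.card : ℝ)⁻¹ :=
    inv_anti₀ hA0 (le_trans (by exact_mod_cast card_le_card hA) h1)
  have hB1 : ((1 + η) * a)⁻¹ ≤ (B.card : ℝ)⁻¹ :=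
    inv_anti₀ hB0 (le_trans (by exact_mod_cast card_le_card hB) h1)
  have h3 : ∑ Q ∈ 𝒬, |fcoreU A Q - fcoreU B Q| ≤ ∑ Q ∈ 𝒬, (fcoreU A Q + fcoreU B Q -
      2 * if Q ∈ A ∩ B then ((1 + η) * a)⁻¹ else 0) := by
    refine sum_le_sum fun Q _ => ?_
    by_cases hQ : Q ∈ A ∩ B
    · rw [if_pos hQ]
      unfold fcoreU
      rw [if_pos (mem_inter.mp hQ).1, if_pos (mem_inter.mp hQ).2]
      exact abs_le.mpr ⟨by linarith, by linarith⟩
    · rw [if_neg hQ]
      exact abs_le.mpr ⟨by linarith [fcore_nonneg A Q], by linarith [fcore_nonneg B Q]⟩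
  rw [sum_sub_distrib, sum_add_distrib, ← mul_sum, ← sum_filter, filter_mem_eq_inter,
    inter_eq_right.mpr (inter_subset_left.trans (hA.trans hS)), sum_const, nsmul_eq_mul] at h3
  have h4 : 1 - 2 * η ≤ (A ∩ B).card * ((1 + η) * a)⁻¹ := by
    rw [← div_eq_mul_inv, le_div_iff₀ (by positivity)]
    have : (1 - 2 * η) * ((1 + η) * a) = (1 - η) * a - 2 * (η * η * a) := by ring
    have h5 : 0 ≤ η * η * a := by positivity
    linarith
  linarith [fcore_sum_le (hA.trans hS), fcore_sum_le (hB.trans hS)]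

/-- a level with few unstable stubs -/
theorem fcore_level (hr : 1 ≤ r) (𝒬 : Finset (ℤ × ℤ)) (CS : ℕ → St n r → Finset (ℤ × ℤ)) (L : ℕ)
    (Gd : Finset (St n r)) (hsub : ∀ l β, CS l β ⊆ 𝒬) (hne : ∀ β ∈ Gd, (CS 0 β).Nonempty)
    (hmono : ∀ l β, CS l β ⊆ CS (l + 1) β) (hL0 : 0 < L)
    (hL : 10 ^ 7 * (r : ℝ) ^ 2 * Real.log 𝒬.card ≤ L) :
    ∃ l < L, ((Gd.filter fun β => (1 + (2000 * r : ℝ)⁻¹) * (CS l β).card <
      (CS (l + 1) β).card).card : ℝ) ≤ n / 2500 := by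
  have hr' : (1 : ℝ) ≤ r := by exact_mod_cast hr
  set η : ℝ := (2000 * r : ℝ)⁻¹ with hη
  have hη0 : 0 < η := by positivity
  have hη1 : η ≤ 1 := inv_le_one_of_one_le₀ (by linarith)
  have hηr : η * (2000 * r) = 1 := inv_mul_cancel₀ (by positivity)
  have hlog : 0 ≤ Real.log 𝒬.card := Real.log_natCast_nonneg _
  have h1 : ∀ β ∈ Gd, (((range L).filter fun l => (1 + η) * (CS l β).card <
      (CS (l + 1) β).card).card : ℝ) ≤ 4000 * r * Real.log 𝒬.card := by
    intro β hβ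
    have h2 := fcore_chain hη0.le (fun l => (CS l β).card) (hne β hβ).card_pos
      (fun l => card_le_card (hmono l β)) L
    have h3 := fcore_count hη0 hη1 (h2.trans (by exact_mod_cast card_le_card (hsub L β) :
      ((CS L β).card : ℝ) ≤ 𝒬.card))
    have h4 := mul_le_mul_of_nonneg_left h3 (show (0 : ℝ) ≤ 2000 * r by positivity)
    rw [← mul_assoc, mul_comm _ η, hηr, one_mul] at h4
    linarith
  have h5 : ∑ l ∈ range L, ((Gd.filter fun β => (1 + η) * (CS l β).card <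
      (CS (l + 1) β).card).card : ℝ) = ∑ β ∈ Gd, (((range L).filter fun l =>
        (1 + η) * (CS l β).card < (CS (l + 1) β).card).card : ℝ) := by
    simp only [card_filter, Nat.cast_sum]
    exact sum_comm
  have h6 : (Gd.card : ℝ) ≤ n * r := by
    have := card_le_univ Gd
    rw [Fintype.card_prod, Fintype.card_fin, Fintype.card_fin] at this
    exact_mod_cast this
  have h7 := sum_le_sum h1
  rw [← h5, sum_const, nsmul_eq_mul] at h7
  have h8 : (Gd.card : ℝ) * (4000 * r * Real.log 𝒬.card) ≤ ∑ _l ∈ range L, (n : ℝ) / 2500 := by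
    rw [sum_const, card_range, nsmul_eq_mul]
    have h9 := mul_le_mul_of_nonneg_right h6 (show 0 ≤ 4000 * r * Real.log 𝒬.card by positivity)
    have h10 := mul_le_mul_of_nonneg_right hL (show (0 : ℝ) ≤ n / 2500 by positivity)
    have h11 : (n : ℝ) * r * (4000 * r * Real.log 𝒬.card) =
        10 ^ 7 * (r : ℝ) ^ 2 * Real.log 𝒬.card * (n / 2500) := by ring
    linarith
  obtain ⟨l, hl, hl'⟩ := exists_le_of_sum_le ⟨0, mem_range.mpr hL0⟩ (h7.trans h8)
  exact ⟨l, mem_range.mp hl, hl'⟩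

theorem fcore (hr : 1 ≤ r) (π : Cfg n r) {φ : ℝ}
    (hc : ∀ R : Finset (Fin n), (R.card : ℝ) ≤ φ * n → 41 * R.card ≤ 40 * (outN π R).card)
    (𝒬 : Finset (ℤ × ℤ)) (CX CY : ℕ → Fin n → Finset (ℤ × ℤ))
    (CS : ℕ → St n r → Finset (ℤ × ℤ)) (L : ℕ) (Gd : Finset (St n r))
    (hsub : ∀ l β, CS l β ⊆ 𝒬) (hne : ∀ β ∈ Gd, (CS 0 β).Nonempty)
    (hmono : ∀ l β, CS l β ⊆ CS (l + 1) β)
    (hX : ∀ l (β : St n r), CX l β.1 ⊆ CS (l + 1) β)
    (hY : ∀ l (β : St n r), CY l (hd π β) ⊆ CS (l + 1) β)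
    (hin : ∀ β ∈ Gd, ∀ l < L,
      2000 * r * (CS l β \ (CX l β.1 ∩ CY l (hd π β))).card ≤ (CS l β).card)
    (hsupp : ∀ l < L, ∀ Q, ((univ.filter fun i => Q ∈ CX l i).card : ℝ) ≤ φ * n)
    (hL0 : 0 < L) (hL : 10 ^ 7 * (r : ℝ) ^ 2 * Real.log 𝒬.card ≤ L) :
    n ≤ 500 * Gdᶜ.card := by
  obtain ⟨l, hl, hU⟩ := fcore_level hr 𝒬 CS L Gd hsub hne hmono hL0 hL
  have hr' : (1 : ℝ) ≤ r := by exact_mod_cast hr
  set η : ℝ := (2000 * r : ℝ)⁻¹ with hη
  have hη0 : 0 < η := by positivity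
  have hη1 : η < 1 := inv_lt_one_of_one_lt₀ (by linarith)
  have hηr : η * (2000 * r) = 1 := inv_mul_cancel₀ (by positivity)
  set U := Gd.filter fun β => (1 + η) * (CS l β).card < (CS (l + 1) β).card with hUdef
  set bad := Gdᶜ ∪ U with hbad
  have hbadc : (bad.card : ℝ) ≤ Gdᶜ.card + n / 2500 := by
    have h1 : (bad.card : ℝ) ≤ Gdᶜ.card + U.card := by exact_mod_cast card_union_le _ _
    linarith
  have hpos : ∀ β ∈ Gd, ∀ k, (CS k β).Nonempty := by
    intro β hβ k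
    induction k with
    | zero => exact hne β hβ
    | succ k ih => exact ih.mono (hmono k β)
  have hgood : ∀ β, β ∉ bad → (0 : ℝ) < (CS l β).card ∧
      ((CS (l + 1) β).card : ℝ) ≤ (1 + η) * (CS l β).card ∧
      (1 - η) * (CS l β).card ≤ (CX l β.1 ∩ CY l (hd π β)).card := by
    intro β hβ
    rw [hbad, notMem_union, notMem_compl] at hβ
    refine ⟨by exact_mod_cast (hpos β hβ.1 l).card_pos, ?_, fcore_inter ?_⟩
    · by_contra hcon
      exact hβ.2 (mem_filter.mpr ⟨hβ.1, not_le.mp hcon⟩)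
    · have h1 : (2000 * r : ℝ) * (CS l β \ (CX l β.1 ∩ CY l (hd π β))).card ≤ (CS l β).card := by
        exact_mod_cast hin β hβ.1 l hl
      have h2 := mul_le_mul_of_nonneg_left h1 hη0.le
      rwa [← mul_assoc, hηr, one_mul] at h2
  have hco : ∀ Q ∈ 𝒬, ∑ i, fcoreU (CX l i) Q ≤
      80 * ∑ β : St n r, |fcoreU (CX l β.1) Q - fcoreU (CY l (hd π β)) Q| := by
    intro Q _
    refine coarea hr π hc (fun i => fcoreU (CX l i) Q) (fun j => fcoreU (CY l j) Q)
      (fun i => fcore_nonneg _ _) (fun j => fcore_nonneg _ _) (le_trans ?_ (hsupp l hl Q))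
    refine Nat.cast_le.mpr (card_le_card fun i hi => mem_filter.mpr ⟨mem_univ _, ?_⟩)
    by_contra hQ
    exact (mem_filter.mp hi).2 (if_neg hQ)
  have hsum := sum_le_sum hco
  rw [← mul_sum, sum_comm, sum_comm (s := 𝒬)] at hsum
  have hup : ∑ β : St n r, ∑ Q ∈ 𝒬, |fcoreU (CX l β.1) Q - fcoreU (CY l (hd π β)) Q| ≤
      ∑ β : St n r, (4 * η + if β ∈ bad then 2 else 0) := by
    refine sum_le_sum fun β _ => ?_
    by_cases hβ : β ∈ bad
    · rw [if_pos hβ]
      linarith [fcore_bad ((hX l β).trans (hsub _ β)) ((hY l β).trans (hsub _ β))]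
    · rw [if_neg hβ, add_zero]
      obtain ⟨g1, g2, g3⟩ := hgood β hβ
      exact fcore_good hη0.le hη1 g1 (hX l β) (hY l β) (hsub _ β) g2 g3
  rw [sum_add_distrib, sum_const, ← sum_filter, filter_mem_eq_inter, univ_inter, sum_const,
    card_univ, Fintype.card_prod, Fintype.card_fin, Fintype.card_fin, nsmul_eq_mul,
    nsmul_eq_mul] at hup
  let a₀ : Fin r := ⟨0, hr⟩
  have hlow : ∑ i : Fin n, (1 - if (i, a₀) ∈ bad then (1 : ℝ) else 0) ≤
      ∑ i, ∑ Q ∈ 𝒬, fcoreU (CX l i) Q := by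
    refine sum_le_sum fun i _ => ?_
    by_cases hβ : (i, a₀) ∈ bad
    · rw [if_pos hβ, sub_self]
      exact sum_nonneg fun Q _ => fcore_nonneg _ _
    · rw [if_neg hβ, sub_zero, fcore_sum ((hX l (i, a₀)).trans (hsub _ _))]
      obtain ⟨g1, -, g3⟩ := hgood _ hβ
      have hc0 : (0 : ℝ) < (CX l i ∩ CY l (hd π (i, a₀))).card :=
        lt_of_lt_of_le (mul_pos (by linarith) g1) g3
      have hA0 : (0 : ℝ) < (CX l i).card :=
        hc0.trans_le (by exact_mod_cast card_le_card inter_subset_left)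
      exact (mul_inv_cancel₀ hA0.ne').ge
  rw [sum_sub_distrib, sum_const, card_univ, Fintype.card_fin, nsmul_eq_mul, mul_one,
    ← sum_filter, sum_const, nsmul_eq_mul, mul_one] at hlow
  have hinj : ((univ.filter fun i : Fin n => (i, a₀) ∈ bad).card : ℝ) ≤ bad.card := by
    refine Nat.cast_le.mpr (card_le_card_of_injOn (fun i => (i, a₀))
      (fun i hi => (mem_filter.mp hi).2) fun i _ j _ hij => (Prod.ext_iff.mp hij).1)
  have he : ((n * r : ℕ) : ℝ) * (4 * η) = n / 500 := by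
    push_cast
    linear_combination (n : ℝ) / 500 * hηr
  rw [he] at hup
  have hn : (0 : ℝ) ≤ n := Nat.cast_nonneg n
  have hfin : (n : ℝ) ≤ 500 * Gdᶜ.card := by linarith
  exact_mod_cast hfin

end Pool.Agent.OKM

end FileFCore

section FileT0a

/-!
Simple configurations project uniformly onto regular 0-1 matrices.
A simple configuration with a given matrix corresponds to a pair of families of bijections, one
for the rows and one for the columns.
-/

open Finset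

namespace Pool.Agent.OKM

variable {n r : ℕ}

theorem toC_injective : Function.Injective (toC : Matrix (Fin n) (Fin n) (Fin 2) → _) := by
  intro M M' h
  ext i j
  have h1 : (((M i j : Fin 2) : ℕ) : ℂ) = (((M' i j : Fin 2) : ℕ) : ℂ) :=
    congrFun (congrFun h i) j
  exact_mod_cast h1

theorem t0a_val (x : Fin 2) : (x : ℕ) = if x = 1 then 1 else 0 := by
  revert x; decide

theorem t0a_adj (π : Cfg n r) (i j : Fin n) :
    adj π i j = ((univ.filter fun a : Fin r => hd π (i, a) = j).card : ℂ) := by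
  simp only [adj, sadj, Matrix.of_apply, card_filter]
  push_cast
  rfl

/-- the 0-1 matrix of a configuration -/
def t0a_mx (π : Cfg n r) : Matrix (Fin n) (Fin n) (Fin 2) :=
  Matrix.of fun i j => if ∃ a, hd π (i, a) = j then 1 else 0

theorem t0a_mx_val {π : Cfg n r} (h : Simple π) (i j : Fin n) :
    (t0a_mx π i j : ℕ) = (univ.filter fun a : Fin r => hd π (i, a) = j).card := by
  simp only [t0a_mx, Matrix.of_apply]
  split_ifs with h1
  · obtain ⟨a, ha⟩ := h1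
    refine (card_eq_one.2 ⟨a, ?_⟩).symm
    ext b
    simp only [mem_filter, mem_univ, true_and, mem_singleton]
    exact ⟨fun hb => h i b a (hb.trans ha.symm), fun hb => hb ▸ ha⟩
  · refine (card_eq_zero.2 (filter_eq_empty_iff.2 fun a _ ha => h1 ⟨a, ha⟩)).symm

theorem t0a_mx_toC {π : Cfg n r} (h : Simple π) : toC (t0a_mx π) = adj π := by
  ext i j
  rw [t0a_adj, ← t0a_mx_val h]
  rfl

theorem t0a_mx_mem {π : Cfg n r} (h : Simple π) : t0a_mx π ∈ regs n r := by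
  refine mem_filter.2 ⟨mem_univ _, fun i => ?_, fun j => ?_⟩
  · simp only [t0a_mx_val h]
    rw [← card_eq_sum_card_fiberwise (s := univ) (f := fun a : Fin r => hd π (i, a))
      fun _ _ => mem_coe.2 (mem_univ _), card_univ, Fintype.card_fin]
  · simp only [t0a_mx_val h]
    have h1 := card_hd_fiber π j
    rw [card_filter, Fintype.sum_prod_type] at h1
    simp only [card_filter]
    exact h1

theorem adj_simple {π : Cfg n r} (h : Simple π) : ∃ M ∈ regs n r, toC M = adj π :=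
  ⟨t0a_mx π, t0a_mx_mem h, t0a_mx_toC h⟩

section Fib

variable (R : Fin n → Fin n → Prop)

/-- edges listed row by row -/
def t0a_oE (o : ∀ i, Fin r ≃ {j // R i j}) : St n r ≃ {p : Fin n × Fin n // R p.1 p.2} where
  toFun s := ⟨(s.1, (o s.1 s.2).1), (o s.1 s.2).2⟩
  invFun p := (p.1.1, (o p.1.1).symm ⟨p.1.2, p.2⟩)
  left_inv s := Prod.ext rfl ((o s.1).symm_apply_apply s.2)
  right_inv p := Subtype.ext
    (Prod.ext rfl (congrArg Subtype.val ((o p.1.1).apply_symm_apply ⟨p.1.2, p.2⟩)))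

/-- edges listed column by column -/
def t0a_eE (e : ∀ j, Fin r ≃ {i // R i j}) : St n r ≃ {p : Fin n × Fin n // R p.1 p.2} where
  toFun s := ⟨((e s.1 s.2).1, s.1), (e s.1 s.2).2⟩
  invFun p := (p.1.2, (e p.1.2).symm ⟨p.1.1, p.2⟩)
  left_inv s := Prod.ext rfl ((e s.1).symm_apply_apply s.2)
  right_inv p := Subtype.ext
    (Prod.ext (congrArg Subtype.val ((e p.1.2).apply_symm_apply ⟨p.1.1, p.2⟩)) rfl)

/-- the configuration of two listings -/
def t0a_cfg (x : (∀ i, Fin r ≃ {j // R i j}) × ∀ j, Fin r ≃ {i // R i j}) : Cfg n r :=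
  (t0a_oE R x.1).trans (t0a_eE R x.2).symm

theorem t0a_hd (x : (∀ i, Fin r ≃ {j // R i j}) × ∀ j, Fin r ≃ {i // R i j})
    (i : Fin n) (a : Fin r) : hd (t0a_cfg R x) (i, a) = (x.1 i a).1 := rfl

theorem t0a_cfg_inj : Function.Injective (t0a_cfg (r := r) R) := by
  rintro ⟨o, e⟩ ⟨o', e'⟩ h
  have h1 : o = o' := by
    funext i
    refine Equiv.ext fun a => Subtype.ext ?_
    exact (t0a_hd R (o, e) i a).symm.trans (h ▸ t0a_hd R (o', e') i a)
  subst h1
  have h2 : e = e' := by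
    funext j
    refine Equiv.ext fun b => Subtype.ext ?_
    have h3 : (t0a_oE R o).symm (t0a_eE R e (j, b)) = (t0a_oE R o).symm (t0a_eE R e' (j, b)) :=
      congrArg (fun π : Cfg n r => π.symm (j, b)) h
    exact congrArg (fun p => p.1.1) ((t0a_oE R o).symm.injective h3)
  rw [h2]

theorem t0a_cfg_simple (x : (∀ i, Fin r ≃ {j // R i j}) × ∀ j, Fin r ≃ {i // R i j}) :
    Simple (t0a_cfg R x) := fun i _ _ h => (x.1 i).injective (Subtype.ext h)

theorem t0a_cfg_rel (x : (∀ i, Fin r ≃ {j // R i j}) × ∀ j, Fin r ≃ {i // R i j}) (i j : Fin n) :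
    (∃ a, hd (t0a_cfg R x) (i, a) = j) ↔ R i j := by
  constructor
  · rintro ⟨a, rfl⟩
    exact (x.1 i a).2
  · exact fun h => ⟨(x.1 i).symm ⟨j, h⟩, by rw [t0a_hd, Equiv.apply_symm_apply]⟩

variable {R} [DecidableRel R]

theorem t0a_cfg_surj (hr : ∀ i, Fintype.card {j // R i j} = r)
    (hc : ∀ j, Fintype.card {i // R i j} = r) {π : Cfg n r} (h : Simple π)
    (h1 : ∀ s : St n r, R s.1 (hd π s)) : ∃ x, t0a_cfg R x = π := by
  have h2 : ∀ (j : Fin n) (b : Fin r), hd π (π.symm (j, b)) = j := fun j b =>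
    congrArg Prod.fst (π.apply_symm_apply (j, b))
  let fo : ∀ i, Fin r → {j // R i j} := fun i a => ⟨hd π (i, a), h1 (i, a)⟩
  let fe : ∀ j, Fin r → {i // R i j} := fun j b =>
    ⟨(π.symm (j, b)).1, by have := h1 (π.symm (j, b)); rwa [h2] at this⟩
  have bo : ∀ i, Function.Bijective (fo i) := fun i =>
    (Fintype.bijective_iff_injective_and_card _).2
      ⟨fun a b hab => h i a b (congrArg Subtype.val hab), by rw [hr, Fintype.card_fin]⟩
  have be : ∀ j, Function.Bijective (fe j) := fun j => by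
    refine (Fintype.bijective_iff_injective_and_card _).2
      ⟨fun a b hab => ?_, by rw [hc, Fintype.card_fin]⟩
    have h3 : (π.symm (j, a)).1 = (π.symm (j, b)).1 := congrArg Subtype.val hab
    have h4 : (π.symm (j, a)).2 = (π.symm (j, b)).2 := by
      refine h (π.symm (j, b)).1 _ _ ?_
      conv_lhs => rw [← h3]
      exact (h2 j a).trans (h2 j b).symm
    exact congrArg Prod.snd (π.symm.injective (Prod.ext h3 h4))
  refine ⟨(fun i => Equiv.ofBijective _ (bo i), fun j => Equiv.ofBijective _ (be j)), ?_⟩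
  refine Equiv.ext fun s => ?_
  refine (Equiv.symm_apply_eq (t0a_eE R fun j => Equiv.ofBijective _ (be j))
    (x := t0a_oE R (fun i => Equiv.ofBijective _ (bo i)) s) (y := π s)).2
    (Subtype.ext (Prod.ext ?_ rfl))
  exact (congrArg Prod.fst (π.symm_apply_apply s)).symm

theorem t0a_count (hr : ∀ i, Fintype.card {j // R i j} = r)
    (hc : ∀ j, Fintype.card {i // R i j} = r) :
    cnt (fun π : Cfg n r => Simple π ∧ ∀ i j, (∃ a, hd π (i, a) = j) ↔ R i j) =
      r.factorial ^ (2 * n) := by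
  classical
  have h1 : cnt (fun π : Cfg n r => Simple π ∧ ∀ i j, (∃ a, hd π (i, a) = j) ↔ R i j) =
      (univ.image (t0a_cfg (r := r) R)).card := by
    unfold cnt
    refine congrArg card ?_
    ext π
    simp only [mem_filter, mem_univ, true_and, mem_image]
    constructor
    · exact fun h => t0a_cfg_surj hr hc h.1 fun s => (h.2 s.1 _).1 ⟨s.2, rfl⟩
    · rintro ⟨x, rfl⟩
      exact ⟨t0a_cfg_simple R x, t0a_cfg_rel R x⟩
  have h2 : ∀ i, Fintype.card (Fin r ≃ {j // R i j}) = r.factorial := fun i => by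
    rw [Fintype.card_equiv (Fintype.equivOfCardEq (by rw [hr, Fintype.card_fin])),
      Fintype.card_fin]
  have h3 : ∀ j, Fintype.card (Fin r ≃ {i // R i j}) = r.factorial := fun j => by
    rw [Fintype.card_equiv (Fintype.equivOfCardEq (by rw [hc, Fintype.card_fin])),
      Fintype.card_fin]
  rw [h1, card_image_of_injective _ (t0a_cfg_inj R), card_univ, Fintype.card_prod,
    Fintype.card_pi, Fintype.card_pi]
  simp only [h2, h3]
  rw [prod_const, card_univ, Fintype.card_fin, two_mul, pow_add]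

end Fib

theorem t0a_fiber {M : Matrix (Fin n) (Fin n) (Fin 2)} (hM : M ∈ regs n r) :
    cnt (fun π : Cfg n r => Simple π ∧ t0a_mx π = M) = r.factorial ^ (2 * n) := by
  have : DecidableRel fun i j : Fin n => M i j = 1 := fun i j => instDecidableEqFin 2 _ _
  rw [← t0a_count (R := fun i j : Fin n => M i j = 1)]
  · refine congrArg cnt (funext fun π => propext (and_congr_right fun _ => ?_))
    constructor
    · rintro rfl i j
      simp only [t0a_mx, Matrix.of_apply]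
      split_ifs with h
      · exact iff_of_true h rfl
      · exact iff_of_false h (by decide)
    · intro h
      ext i j
      rw [t0a_val (M i j)]
      simp only [t0a_mx, Matrix.of_apply, h i j]
      split_ifs <;> rfl
  · intro i
    rw [Fintype.card_subtype, card_filter, ← ((mem_filter.1 hM).2.1 i)]
    refine sum_congr rfl fun j _ => ?_
    rw [t0a_val (M i j)]
    congr
  · intro j
    rw [Fintype.card_subtype, card_filter, ← ((mem_filter.1 hM).2.2 j)]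
    refine sum_congr rfl fun i _ => ?_
    rw [t0a_val (M i j)]
    congr

theorem fiber {M : Matrix (Fin n) (Fin n) (Fin 2)} (hM : M ∈ regs n r) :
    cnt (fun π : Cfg n r => Simple π ∧ adj π = toC M) = r.factorial ^ (2 * n) := by
  rw [← t0a_fiber hM]
  refine congrArg cnt (funext fun π => propext (and_congr_right fun h => ?_))
  rw [← t0a_mx_toC h, toC_injective.eq_iff]

open Classical in
theorem t0a_cnt (E : Matrix (Fin n) (Fin n) ℂ → Prop) :
    cnt (fun π : Cfg n r => Simple π ∧ E (adj π)) =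
      ((regs n r).filter fun M => E (toC M)).card * r.factorial ^ (2 * n) := by
  unfold cnt
  rw [card_eq_sum_card_fiberwise (f := t0a_mx) (t := (regs n r).filter fun M => E (toC M)),
    ← smul_eq_mul, ← sum_const]
  · refine sum_congr rfl fun M hM => ?_
    obtain ⟨hM1, hM2⟩ := mem_filter.1 hM
    rw [← t0a_fiber hM1]
    unfold cnt
    refine congrArg card ?_
    ext π
    simp only [mem_filter, mem_univ, true_and]
    constructor
    · exact fun h => ⟨h.1.1, h.2⟩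
    · refine fun h => ⟨⟨h.1, ?_⟩, h.2⟩
      rw [← t0a_mx_toC h.1, h.2]
      exact hM2
  · intro π hπ
    simp only [coe_filter, mem_univ, true_and, Set.mem_ofPred_eq] at hπ ⊢
    exact ⟨t0a_mx_mem hπ.1, by rw [t0a_mx_toC hπ.1]; exact hπ.2⟩

open Classical in
theorem transfer (E : Matrix (Fin n) (Fin n) ℂ → Prop) :
    (((regs n r).filter fun M => E (toC M)).card : ℝ) * pr (fun π : Cfg n r => Simple π)
      = (regs n r).card * pr (fun π : Cfg n r => Simple π ∧ E (adj π)) := by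
  have h1 := t0a_cnt (n := n) (r := r) fun _ => True
  simp only [and_true, filter_true] at h1
  rw [pr, pr, h1, t0a_cnt E]
  push_cast
  ring

end Pool.Agent.OKM

end FileT0a

section FileT0b

/-!
The configuration is simple with probability bounded below.
`dbl π` counts ordered pairs of distinct stubs of the same row with the same head; `Simple π ↔ dbl π = 0`.
`ex_dbl`: for a fixed pair `s ≠ s'`, union over `j` of `pr_mapTo` with `A = {s, s'}`, `B = {j} ×ˢ univ`: at most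
`n (2/n)^2`; there are at most `n r^2` pairs. So `pr (dbl ≥ 8 r^2 + 1) ≤ 1/2` by `markov`.
`dbl_switch`: if `dbl π = k ≥ 1` fix a stub `α` in a double pair; for every `β` whose row does not touch `hd π α` through a
stub (at most `r^2` exceptions) and whose head is not a head of the row of `α` (at most `r^2` exceptions),
`dbl (sw π α β) < k`. Conversely for `π'` there are at most `(n r) r^2` pairs `(α, β)` such that `α` is in a double
pair of `sw π' α β` with such a `β` (then `hd π' β` is a head of the row of `α` in `π'`). Map `(π, β) ↦ (sw π α β, α, β)`.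
`simple_prob`: `cnt (dbl ≤ k) ≤ (1 + 2 r^2)^k cnt (dbl = 0)` when `n r ≥ 4 r^2`.
-/

open Finset Filter

namespace Pool.Agent.OKM

variable {n r : ℕ}

def dbl (π : Cfg n r) : ℕ :=
  (univ.filter fun p : St n r × St n r =>
    p.1 ≠ p.2 ∧ p.1.1 = p.2.1 ∧ hd π p.1 = hd π p.2).card

theorem simple_iff_dbl (π : Cfg n r) : Simple π ↔ dbl π = 0 := by
  rw [dbl, card_eq_zero, filter_eq_empty_iff]
  constructor
  · rintro h ⟨⟨i, a⟩, ⟨j, b⟩⟩ - ⟨h1, h2, h3⟩
    obtain rfl : i = j := h2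
    exact h1 (by rw [h i a b h3])
  · intro h i a b hab
    by_contra hne
    exact h (mem_univ ((i, a), (i, b))) ⟨fun e => hne (congrArg Prod.snd e), rfl, hab⟩

theorem t0b_pair (hn : 4 ≤ n * r) {s s' : St n r} (h : s ≠ s') :
    pr (fun π : Cfg n r => hd π s = hd π s') ≤ 4 / n := by
  have hn0 : n ≠ 0 := by rintro rfl; simp at hn
  have hr0 : r ≠ 0 := by rintro rfl; simp at hn
  have h0 : ∀ j ∈ (univ : Finset (Fin n)), pr (fun π : Cfg n r => ∀ t ∈ ({s, s'} : Finset (St n r)),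
      π t ∈ (({j} : Finset (Fin n)) ×ˢ (univ : Finset (Fin r)))) ≤ (2 / n) ^ 2 := by
    intro j _
    have hc : ({s, s'} : Finset (St n r)).card = 2 := card_pair h
    have := pr_mapTo (n := n) (r := r) {s, s'}
      (fun _ => ({j} : Finset (Fin n)) ×ˢ (univ : Finset (Fin r))) (by rw [hc]; exact hn)
    rw [prod_const, hc, card_product, card_singleton, card_univ, Fintype.card_fin] at this
    refine this.trans_eq ?_
    congr 1
    push_cast
    field_simp
  have h1 := pr_exists_le_card _ _ h0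
  refine (pr_mono fun π hπ => ?_).trans (h1.trans_eq ?_)
  · refine ⟨hd π s, mem_univ _, fun t ht => mem_product.2 ⟨mem_singleton.2 ?_, mem_univ _⟩⟩
    rcases mem_insert.1 ht with rfl | ht
    · rfl
    · rw [mem_singleton.1 ht]; exact hπ.symm
  · rw [card_univ, Fintype.card_fin]
    field_simp
    norm_num

theorem ex_dbl (hn : 4 ≤ n * r) : ex (fun π : Cfg n r => (dbl π : ℝ)) ≤ 4 * (r : ℝ) ^ 2 := by
  classical
  have hn0 : n ≠ 0 := by rintro rfl; simp at hn
  set P : Finset (St n r × St n r) := univ.filter fun p => p.1 ≠ p.2 ∧ p.1.1 = p.2.1 with hP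
  have h1 : (fun π : Cfg n r => (dbl π : ℝ)) =
      fun π => ∑ p ∈ P, if hd π p.1 = hd π p.2 then (1 : ℝ) else 0 := by
    funext π
    rw [sum_boole, hP, filter_filter, dbl]
    simp only [and_assoc]
  have h2 : P.card ≤ n * r * r := by
    have : P.card ≤ (univ : Finset (St n r × Fin r)).card := by
      refine card_le_card_of_injOn (fun p => (p.1, p.2.2)) (fun _ _ => mem_univ _) ?_
      rintro ⟨s, t⟩ hs ⟨s', t'⟩ hs' e
      have e1 : s = s' := (Prod.ext_iff.1 e).1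
      have e2 : t.2 = t'.2 := (Prod.ext_iff.1 e).2
      have e3 : s.1 = t.1 := (mem_filter.1 hs).2.2
      have e4 : s'.1 = t'.1 := (mem_filter.1 hs').2.2
      subst e1
      rw [Prod.ext (e3.symm.trans e4) e2]
    simpa using this
  rw [h1, ex_sum]
  have h3 : ∀ p ∈ P, ex (fun π : Cfg n r => if hd π p.1 = hd π p.2 then (1 : ℝ) else 0) ≤ 4 / n := by
    intro p hp
    have := ex_ite (fun π : Cfg n r => hd π p.1 = hd π p.2) 1
    rw [one_mul] at this
    refine le_trans (le_of_eq ?_) (this.trans_le (t0b_pair hn (mem_filter.1 hp).2.1))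
    congr 1
    funext π
    by_cases h : hd π p.1 = hd π p.2 <;> simp only [h, if_true, if_false]
  refine (sum_le_card_nsmul _ _ _ h3).trans ?_
  rw [nsmul_eq_mul]
  have h4 : (P.card : ℝ) ≤ n * r * r := by exact_mod_cast h2
  refine (mul_le_mul_of_nonneg_right h4 (by positivity)).trans_eq ?_
  field_simp

def t0b_Good (π : Cfg n r) (α β : St n r) : Prop :=
  (∀ a, hd π (β.1, a) ≠ hd π α) ∧ ∀ a, hd π (α.1, a) ≠ hd π β

instance (π : Cfg n r) (α β : St n r) : Decidable (t0b_Good π α β) := by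
  unfold t0b_Good; infer_instance

theorem t0b_heads (π : Cfg n r) (i : Fin n) :
    (univ.filter fun β : St n r => ∃ a, hd π (i, a) = hd π β).card ≤ r ^ 2 := by
  have h : (univ.filter fun β : St n r => ∃ a, hd π (i, a) = hd π β) ⊆
      univ.biUnion fun a : Fin r => univ.filter fun β : St n r => hd π β = hd π (i, a) := by
    intro β hβ
    obtain ⟨a, ha⟩ := (mem_filter.1 hβ).2
    exact mem_biUnion.2 ⟨a, mem_univ _, mem_filter.2 ⟨mem_univ _, ha.symm⟩⟩
  refine (card_le_card h).trans (card_biUnion_le.trans_eq ?_)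
  simp only [card_hd_fiber, sum_const, card_univ, Fintype.card_fin, smul_eq_mul, sq]

theorem t0b_rows (π : Cfg n r) (j : Fin n) :
    (univ.filter fun β : St n r => ∃ a, hd π (β.1, a) = j).card ≤ r ^ 2 := by
  have h : (univ.filter fun β : St n r => ∃ a, hd π (β.1, a) = j) ⊆
      ((univ.filter fun s : St n r => hd π s = j).image Prod.fst) ×ˢ (univ : Finset (Fin r)) := by
    intro β hβ
    obtain ⟨a, ha⟩ := (mem_filter.1 hβ).2
    exact mem_product.2 ⟨mem_image.2 ⟨(β.1, a), mem_filter.2 ⟨mem_univ _, ha⟩, rfl⟩, mem_univ _⟩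
  refine (card_le_card h).trans ?_
  rw [card_product, card_univ, Fintype.card_fin, sq]
  exact Nat.mul_le_mul_right _ (card_image_le.trans_eq (card_hd_fiber π j))

theorem t0b_good_card (π : Cfg n r) (α : St n r) :
    n * r - 2 * r ^ 2 ≤ (univ.filter fun β => t0b_Good π α β).card := by
  have h1 := card_filter_add_card_filter_not (s := (univ : Finset (St n r)))
    (fun β => t0b_Good π α β)
  have h2 : (univ.filter fun β => ¬ t0b_Good π α β) ⊆
      (univ.filter fun β : St n r => ∃ a, hd π (β.1, a) = hd π α) ∪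
        univ.filter fun β : St n r => ∃ a, hd π (α.1, a) = hd π β := by
    intro β hβ
    have h := (mem_filter.1 hβ).2
    simp only [t0b_Good, not_and_or, not_forall, not_not] at h
    simpa using h
  have h3 := (card_le_card h2).trans (card_union_le _ _)
  have h4 := t0b_heads π α.1
  have h5 := t0b_rows π (hd π α)
  rw [card_univ, Fintype.card_prod, Fintype.card_fin, Fintype.card_fin] at h1
  omega

theorem t0b_ne {π : Cfg n r} {α β : St n r} (h : t0b_Good π α β) : α.1 ≠ β.1 :=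
  fun e => h.1 α.2 (by rw [← e])

theorem t0b_away {π : Cfg n r} {α β s s' : St n r} (h : t0b_Good π α β) (h1 : s ≠ s')
    (h2 : s.1 = s'.1) (h3 : hd (sw π α β) s = hd (sw π α β) s') : s ≠ α ∧ s ≠ β := by
  constructor
  · rintro rfl
    rw [hd_sw_left, hd_sw_other π h1.symm fun e => t0b_ne h (by rw [h2, e])] at h3
    exact h.2 s'.2 (by rw [h2]; exact h3.symm)
  · rintro rfl
    rw [hd_sw_right, hd_sw_other π (fun e => t0b_ne h (by rw [h2, e])) h1.symm] at h3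
    exact h.1 s'.2 (by rw [h2]; exact h3.symm)

theorem t0b_lt {π : Cfg n r} {α β γ : St n r} (h : t0b_Good π α β) (h1 : α ≠ γ) (h2 : α.1 = γ.1)
    (h3 : hd π α = hd π γ) : dbl (sw π α β) < dbl π := by
  refine card_lt_card ⟨fun p hp => ?_, fun hs => ?_⟩
  · obtain ⟨-, a1, a2, a3⟩ := mem_filter.1 hp
    obtain ⟨b1, b2⟩ := t0b_away h a1 a2 a3
    obtain ⟨c1, c2⟩ := t0b_away h a1.symm a2.symm a3.symm
    rw [hd_sw_other π b1 b2, hd_sw_other π c1 c2] at a3
    exact mem_filter.2 ⟨mem_univ _, a1, a2, a3⟩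
  · obtain ⟨-, a1, a2, a3⟩ := mem_filter.1 (hs (mem_filter.2 ⟨mem_univ (α, γ), h1, h2, h3⟩))
    exact (t0b_away h a1 a2 a3).1 rfl

theorem t0b_cnt (E : Cfg n r → Prop) [DecidablePred E] : cnt E = (univ.filter E).card := by
  unfold cnt
  exact congrArg card (filter_congr_decidable _ _ _)

theorem dbl_switch {k : ℕ} (hk : 1 ≤ k) :
    cnt (fun π : Cfg n r => dbl π = k) * (n * r - 2 * r ^ 2)
      ≤ n * r * r ^ 2 * cnt (fun π : Cfg n r => dbl π < k) := by
  set S : Finset (Σ _ : Cfg n r, St n r × St n r) :=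
    (univ.filter fun π : Cfg n r => dbl π = k).sigma fun π => univ.filter fun p =>
      (∃ γ, p.1 ≠ γ ∧ p.1.1 = γ.1 ∧ hd π p.1 = hd π γ) ∧ t0b_Good π p.1 p.2 with hS
  set T : Finset (Σ _ : Cfg n r, Σ _ : St n r, St n r) :=
    (univ.filter fun π : Cfg n r => dbl π < k).sigma fun π => univ.sigma fun α =>
      univ.filter fun β : St n r => ∃ a, hd π (α.1, a) = hd π β with hT
  have h1 : cnt (fun π : Cfg n r => dbl π = k) * (n * r - 2 * r ^ 2) ≤ S.card := by
    rw [hS, card_sigma, t0b_cnt, ← smul_eq_mul]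
    refine card_nsmul_le_sum _ _ _ fun π hπ => ?_
    have h0 : 0 < dbl π := by rw [(mem_filter.1 hπ).2]; exact hk
    obtain ⟨p, hp⟩ := card_pos.1 h0
    refine (t0b_good_card π p.1).trans ?_
    refine card_le_card_of_injOn (fun β => (p.1, β)) (fun β hβ => ?_)
      fun _ _ _ _ e => congrArg Prod.snd e
    exact mem_filter.2 ⟨mem_univ _, ⟨p.2, (mem_filter.1 hp).2⟩, (mem_filter.1 hβ).2⟩
  have h2 : T.card ≤ n * r * r ^ 2 * cnt (fun π : Cfg n r => dbl π < k) := by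
    rw [hT, card_sigma, t0b_cnt, mul_comm, ← smul_eq_mul]
    refine sum_le_card_nsmul _ _ _ fun π _ => ?_
    rw [card_sigma]
    refine (sum_le_card_nsmul _ _ _ fun α _ => t0b_heads π α.1).trans_eq ?_
    rw [card_univ, Fintype.card_prod, Fintype.card_fin, Fintype.card_fin, smul_eq_mul]
  refine h1.trans (le_trans ?_ h2)
  refine card_le_card_of_injOn (fun x => ⟨sw x.1 x.2.1 x.2.2, x.2.1, x.2.2⟩) ?_ ?_
  · rintro ⟨π, α, β⟩ hx
    obtain ⟨a1, a2⟩ := mem_sigma.1 hx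
    obtain ⟨-, ⟨γ, b1, b2, b3⟩, b4⟩ := mem_filter.1 a2
    refine mem_sigma.2 ⟨mem_filter.2 ⟨mem_univ _, ?_⟩, mem_sigma.2 ⟨mem_univ _,
      mem_filter.2 ⟨mem_univ _, γ.2, ?_⟩⟩⟩
    · exact (t0b_lt b4 b1 b2 b3).trans_eq (mem_filter.1 a1).2
    · show hd (sw π α β) (α.1, γ.2) = hd (sw π α β) β
      have e : (α.1, γ.2) = γ := Prod.ext b2 rfl
      rw [e, hd_sw_right, hd_sw_other π b1.symm fun e => t0b_ne b4 (by rw [← e]; exact b2)]
      exact b3.symm
  · rintro ⟨π, α, β⟩ - ⟨π', α', β'⟩ - e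
    simp only [Sigma.mk.injEq, heq_eq_eq] at e
    obtain ⟨e1, rfl, rfl⟩ := e
    rw [mul_right_cancel e1]

theorem t0b_iter (hr : 1 ≤ r) (hn : 4 * r ≤ n) (k : ℕ) :
    cnt (fun π : Cfg n r => dbl π < k + 1) ≤
      (1 + 2 * r ^ 2) ^ k * cnt (fun π : Cfg n r => dbl π < 1) := by
  induction k with
  | zero => simp
  | succ k ih =>
    have h1 := dbl_switch (n := n) (r := r) (k := k + 1) (by omega)
    have h2 : 4 * r ^ 2 ≤ n * r := by rw [sq, ← mul_assoc]; exact Nat.mul_le_mul_right _ hn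
    have h3 : cnt (fun π : Cfg n r => dbl π = k + 1) ≤
        2 * r ^ 2 * cnt (fun π : Cfg n r => dbl π < k + 1) := by
      have h4 : n * r ≤ 2 * (n * r - 2 * r ^ 2) := by omega
      have h5 : 0 < n * r := Nat.mul_pos (by omega) hr
      refine Nat.le_of_mul_le_mul_right ?_ h5
      refine (Nat.mul_le_mul_left _ h4).trans ?_
      rw [mul_left_comm]
      exact (Nat.mul_le_mul_left 2 h1).trans_eq (by ring)
    have h6 : cnt (fun π : Cfg n r => dbl π < k + 1 + 1) ≤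
        cnt (fun π : Cfg n r => dbl π < k + 1) + cnt (fun π : Cfg n r => dbl π = k + 1) := by
      rw [t0b_cnt, t0b_cnt, t0b_cnt]
      refine le_trans (card_le_card fun π hπ => ?_) (card_union_le _ _)
      have := (mem_filter.1 hπ).2
      simp only [mem_union, mem_filter, mem_univ, true_and]
      omega
    calc _ ≤ (1 + 2 * r ^ 2) * cnt (fun π : Cfg n r => dbl π < k + 1) := by
          rw [add_mul, one_mul]; omega
      _ ≤ _ := by rw [pow_succ' (1 + 2 * r ^ 2), mul_assoc]; exact Nat.mul_le_mul_left _ ih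

theorem simple_prob (hr : 1 ≤ r) :
    ∃ c : ℝ, 0 < c ∧ ∀ᶠ n : ℕ in atTop, c ≤ pr (fun π : Cfg n r => Simple π) := by
  refine ⟨1 / 2 / (1 + 2 * (r : ℝ) ^ 2) ^ (8 * r ^ 2), by positivity, ?_⟩
  filter_upwards [eventually_ge_atTop (4 * r)] with n hn
  have h4 : 4 ≤ n * r := by nlinarith
  have h1 := markov (f := fun π : Cfg n r => (dbl π : ℝ)) (fun _ => Nat.cast_nonneg _)
    (a := 8 * (r : ℝ) ^ 2 + 1) (by positivity)
  have h2 : ex (fun π : Cfg n r => (dbl π : ℝ)) / (8 * (r : ℝ) ^ 2 + 1) ≤ 1 / 2 := by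
    rw [div_le_iff₀ (by positivity)]
    linarith [ex_dbl h4]
  have h3 := pr_not fun π : Cfg n r => 8 * (r : ℝ) ^ 2 + 1 ≤ dbl π
  have h5 : pr (fun π : Cfg n r => ¬ 8 * (r : ℝ) ^ 2 + 1 ≤ dbl π) ≤
      pr fun π : Cfg n r => dbl π < 8 * r ^ 2 + 1 :=
    pr_mono fun π h => by exact_mod_cast not_le.1 h
  have h6 : pr (fun π : Cfg n r => dbl π < 8 * r ^ 2 + 1) ≤
      (1 + 2 * (r : ℝ) ^ 2) ^ (8 * r ^ 2) * pr fun π : Cfg n r => dbl π < 1 := by
    rw [pr, pr, ← mul_div_assoc]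
    refine div_le_div_of_nonneg_right ?_ (Nat.cast_nonneg _)
    exact_mod_cast t0b_iter hr hn (8 * r ^ 2)
  have h7 : pr (fun π : Cfg n r => dbl π < 1) ≤ pr fun π : Cfg n r => Simple π :=
    pr_mono fun π h => (simple_iff_dbl π).2 (by omega)
  rw [div_le_iff₀' (by positivity)]
  have h8 := mul_le_mul_of_nonneg_left h7
    (show 0 ≤ (1 + 2 * (r : ℝ) ^ 2) ^ (8 * r ^ 2) by positivity)
  linarith

end Pool.Agent.OKM

end FileT0b

section FileBC

/-!
Borel-Cantelli for the uniform model.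
`bc`: `P {ω | E n (toC (A n ω))} ≤ ∑_{M, E n (toC M)} P {A n = M} = card (regs.filter ..) / card regs` for `n ≥ r`
(`measure_biUnion_finset_le`), which is `pr (Simple ∧ E) / pr Simple ≤ pr (Simple ∧ E)/c` (`transfer`, `simple_prob`; `regs` is
nonempty by `adj_simple`); then `MeasureTheory.ae_eventually_notMem` after shifting the index past the threshold (or
`Summable` of the real-valued probabilities via `summable_of_isBigO_nat`/`Summable.of_norm_bounded_eventually_nat`, and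
`ENNReal.tsum_coe_ne_top_iff_summable_coe` / `ENNReal.ofReal_tsum_of_nonneg`).
-/

open Finset Filter MeasureTheory Topology
open scoped ENNReal

namespace Pool.Agent.OKM

variable {r : ℕ}

open Classical in
theorem bc_one {n : ℕ} {Ω : Type} [MeasurableSpace Ω] (P : Measure Ω)
    (A : Ω → Matrix (Fin n) (Fin n) (Fin 2))
    (hA : ∀ M : Matrix (Fin n) (Fin n) (Fin 2),
      P {ω | A ω = M} = if M ∈ regs n r then ((regs n r).card : ℝ≥0∞)⁻¹ else 0)
    (E : Matrix (Fin n) (Fin n) ℂ → Prop) :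
    P.real {ω | E (toC (A ω))}
      ≤ (((regs n r).filter fun M => E (toC M)).card : ℝ) / (regs n r).card := by
  have h1 : {ω | E (toC (A ω))} ⊆
      ⋃ M ∈ (univ.filter fun M => E (toC M)), {ω | A ω = M} := fun ω hω =>
    Set.mem_biUnion (x := A ω) (mem_coe.2 (mem_filter.2 ⟨mem_univ _, hω⟩)) rfl
  have h2 : P {ω | E (toC (A ω))} ≤
      (((regs n r).filter fun M => E (toC M)).card : ℝ≥0∞) * ((regs n r).card : ℝ≥0∞)⁻¹ := by
    refine (measure_mono h1).trans ((measure_biUnion_finset_le _ _).trans (le_of_eq ?_))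
    simp only [hA]
    rw [← sum_filter, sum_const, nsmul_eq_mul, filter_comm, filter_mem_eq_inter, univ_inter]
  rcases (regs n r).eq_empty_or_nonempty with h | h
  · rw [h, filter_empty, card_empty, Nat.cast_zero, zero_mul, nonpos_iff_eq_zero] at h2
    simp [Measure.real, h2, h]
  · have h3 : ((regs n r).card : ℝ≥0∞) ≠ 0 := Nat.cast_ne_zero.2 h.card_pos.ne'
    refine (ENNReal.toReal_mono (ENNReal.mul_ne_top (ENNReal.natCast_ne_top _)
      (ENNReal.inv_ne_top.2 h3)) h2).trans (le_of_eq ?_)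
    rw [ENNReal.toReal_mul, ENNReal.toReal_inv, ENNReal.toReal_natCast, ENNReal.toReal_natCast,
      div_eq_mul_inv]

open Classical in
theorem bc_two {n : ℕ} (E : Matrix (Fin n) (Fin n) ℂ → Prop) {c : ℝ} (hc : 0 < c)
    (h : c ≤ pr fun π : Cfg n r => Simple π) :
    (((regs n r).filter fun M => E (toC M)).card : ℝ) / (regs n r).card
      ≤ c⁻¹ * pr fun π : Cfg n r => Simple π ∧ E (adj π) := by
  rcases (Nat.cast_nonneg (α := ℝ) (regs n r).card).eq_or_lt with h0 | h0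
  · rw [← h0, div_zero]
    exact mul_nonneg (inv_pos.2 hc).le (pr_nonneg _)
  · rw [div_le_iff₀ h0, mul_assoc, le_inv_mul_iff₀ hc, mul_comm (pr _), ← transfer E, mul_comm]
    exact mul_le_mul_of_nonneg_left h (Nat.cast_nonneg _)

theorem bc (hr : 3 ≤ r) {Ω : Type} [MeasurableSpace Ω] (P : Measure Ω) [IsProbabilityMeasure P]
    (A : (n : ℕ) → Ω → Matrix (Fin n) (Fin n) (Fin 2))
    (hA : ∀ n, r ≤ n → ∀ M : Matrix (Fin n) (Fin n) (Fin 2),
      P {ω | A n ω = M} = if M ∈ regs n r then ((regs n r).card : ℝ≥0∞)⁻¹ else 0)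
    (E : ∀ n, Matrix (Fin n) (Fin n) ℂ → Prop)
    (hE : Rare r fun n π => Simple π ∧ E n (adj π)) :
    ∀ᵐ ω ∂P, ∀ᶠ n : ℕ in atTop, ¬ E n (toC (A n ω)) := by
  obtain ⟨c, hc, hs⟩ := simple_prob (r := r) (by omega)
  have h1 : Summable fun n => P.real {ω | E n (toC (A n ω))} := by
    refine Summable.of_norm_bounded_eventually_nat (Summable.mul_left c⁻¹ hE) ?_
    filter_upwards [hs, eventually_ge_atTop r] with n h2 h3
    rw [Real.norm_of_nonneg measureReal_nonneg]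
    exact (bc_one P (A n) (hA n h3) (E n)).trans (bc_two (E n) hc h2)
  refine ae_eventually_notMem (s := fun n => {ω | E n (toC (A n ω))}) ?_
  have h2 : ∀ n, P {ω | E n (toC (A n ω))} = ENNReal.ofReal (P.real {ω | E n (toC (A n ω))}) :=
    fun n => (ofReal_measureReal (measure_ne_top _ _)).symm
  rw [tsum_congr h2, ← ENNReal.ofReal_tsum_of_nonneg (fun _ => measureReal_nonneg) h1]
  exact ENNReal.ofReal_ne_top

end Pool.Agent.OKM

end FileBC

end

-- part MP_5d5bd1_pr.CaseC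
section

section FileCSeed

/-!
Seeds: a product sample approximates the law of `v (f 0) + ... + v (f (r-1))`.
`var_bound`: expand the square of `∑_{k,k'} f (x k) (y k')`; for index pairs `(k,k'), (l,l')` the average over
`x, y` of `f (x k) (y k') * f (x l) (y l')` is `p^2` if `k ≠ l, k' ≠ l'`; at most `p b` if exactly one of
`k = l`, `k' = l'` holds (at most `2 m^3` such quadruples); at most `p` if both hold (`m^2` quadruples).
(Use `avg_one`, `avg_two` for evaluation of a uniform function at one or two distinct points.)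
`seeds`: write `r = r' + 1` with `r' ≥ 1`, `α = Fin n`, `β = Fin r' → Fin n`, tuples split by `Fin.consEquiv`
(`Fin.sum_univ_succ`). For `i ∈ W`, `f_i j y = 1` if `‖v j + ∑ v (y a) - z v i‖ ≤ s`, `b = M/n` (fix all but one
coordinate of `y`, use `Clus`). Chebyshev: the fraction of samples where `i` fails is at most
`w = (2M/(n m) + 1/m^2)/(δ^2 p0)`, so by Markov fewer than half of the samples have more than `2 n w` failures;
for `g` use `b = 1`: the failure fraction is at most `3/(m δ^2) < 1/2`. Put `A k = v (x k)`, `B k = ∑ v (y k a)`.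
-/

open Finset

namespace Pool.Agent.OKM

variable {n r : ℕ}

theorem cseed_card {ι : Type} [Fintype ι] [DecidableEq ι] (k : ι) :
    Fintype.card {j // j ≠ k} + 1 = Fintype.card ι := by
  have h : 0 < Fintype.card ι := Fintype.card_pos_iff.mpr ⟨k⟩
  rw [Fintype.card_subtype_compl, Fintype.card_subtype_eq]
  omega

theorem cseed_splitAt {ι α : Type} [Fintype ι] [DecidableEq ι] [Fintype α] [DecidableEq α] (k : ι)
    (F : α → ({j // j ≠ k} → α) → ℝ) :
    ∑ x : ι → α, F (x k) (fun j => x j) = ∑ a, ∑ y, F a y := by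
  rw [← Fintype.sum_prod_type']
  exact Fintype.sum_equiv (Equiv.funSplitAt k α) _ _ fun x => rfl

theorem cseed_one {ι α : Type} [Fintype ι] [DecidableEq ι] [Fintype α] [DecidableEq α] (k : ι)
    (f : α → ℝ) :
    (∑ x : ι → α, f (x k)) * Fintype.card α =
      (Fintype.card α : ℝ) ^ Fintype.card ι * ∑ a, f a := by
  rw [cseed_splitAt k fun a _ => f a, ← cseed_card k]
  simp only [Finset.sum_const, card_univ, nsmul_eq_mul, Fintype.card_fun, Nat.cast_pow,
    ← Finset.mul_sum]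
  ring

theorem avg_one {α : Type} [Fintype α] [DecidableEq α] {m : ℕ} (k : Fin m) (f : α → ℝ) :
    (∑ x : Fin m → α, f (x k)) * Fintype.card α = (Fintype.card α : ℝ) ^ m * ∑ a, f a := by
  rw [cseed_one, Fintype.card_fin]

theorem avg_two {α : Type} [Fintype α] [DecidableEq α] {m : ℕ} {k l : Fin m} (hkl : k ≠ l)
    (f : α → α → ℝ) :
    (∑ x : Fin m → α, f (x k) (x l)) * (Fintype.card α : ℝ) ^ 2
      = (Fintype.card α : ℝ) ^ m * ∑ a, ∑ a', f a a' := by
  have h := cseed_splitAt k fun (a : α) (y : {j // j ≠ k} → α) => f a (y ⟨l, hkl.symm⟩)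
  have h1 := cseed_card k
  rw [Fintype.card_fin] at h1
  have h2 : (∑ x : Fin m → α, f (x k) (x l)) * Fintype.card α =
      (Fintype.card α : ℝ) ^ Fintype.card {j // j ≠ k} * ∑ a, ∑ a', f a a' := by
    rw [h, Finset.sum_mul, Finset.mul_sum]
    exact Finset.sum_congr rfl fun a _ => cseed_one (⟨l, hkl.symm⟩ : {j // j ≠ k}) (f a)
  have h3 : (Fintype.card α : ℝ) ^ m =
      (Fintype.card α : ℝ) ^ Fintype.card {j // j ≠ k} * Fintype.card α := by
    rw [← pow_succ, h1]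
  rw [sq, ← mul_assoc, h2, h3]
  ring

theorem cseed_a1 {α : Type} [Fintype α] [DecidableEq α] [Nonempty α] {m : ℕ} (k : Fin m)
    (f : α → ℝ) :
    ∑ x : Fin m → α, f (x k) = (Fintype.card α : ℝ) ^ m / Fintype.card α * ∑ a, f a := by
  have hN : (Fintype.card α : ℝ) ≠ 0 := by exact_mod_cast Fintype.card_ne_zero
  rw [div_mul_eq_mul_div, eq_div_iff hN, avg_one]

theorem cseed_a2 {α : Type} [Fintype α] [DecidableEq α] [Nonempty α] {m : ℕ} {k l : Fin m}
    (hkl : k ≠ l) (f : α → α → ℝ) :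
    ∑ x : Fin m → α, f (x k) (x l) =
      (Fintype.card α : ℝ) ^ m / (Fintype.card α : ℝ) ^ 2 * ∑ a, ∑ a', f a a' := by
  have hN : (Fintype.card α : ℝ) ≠ 0 := by exact_mod_cast Fintype.card_ne_zero
  rw [div_mul_eq_mul_div, eq_div_iff (pow_ne_zero 2 hN), avg_two hkl]

theorem cseed_mean {α β : Type} [Fintype α] [DecidableEq α] [Nonempty α] [Fintype β]
    [DecidableEq β] [Nonempty β] (f : α → β → ℝ) {m : ℕ} (k k' : Fin m) :
    ∑ x : Fin m → α, ∑ y : Fin m → β, f (x k) (y k') =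
      (Fintype.card α : ℝ) ^ m * (Fintype.card β : ℝ) ^ m *
        ((∑ a, ∑ y, f a y) / (Fintype.card α * Fintype.card β)) := by
  rw [cseed_a1 k fun a => ∑ y : Fin m → β, f a (y k')]
  rw [Finset.sum_congr rfl fun a _ => cseed_a1 k' (f a), ← Finset.mul_sum]
  ring

theorem cseed_half {α β : Type} [Fintype α] [DecidableEq α] [Nonempty α] [Fintype β]
    [DecidableEq β] [Nonempty β] (f : α → β → ℝ) (h0 : ∀ a y, 0 ≤ f a y) {b : ℝ}
    (hα : ∀ a, ∑ y, f a y ≤ b * Fintype.card β) {m : ℕ} (k : Fin m) {k' l' : Fin m}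
    (h : k' ≠ l') :
    ∑ x : Fin m → α, ∑ y : Fin m → β, f (x k) (y k') * f (x k) (y l') ≤
      (Fintype.card α : ℝ) ^ m * (Fintype.card β : ℝ) ^ m *
        ((∑ a, ∑ y, f a y) / (Fintype.card α * Fintype.card β) * b) := by
  have hN : (0 : ℝ) < Fintype.card α := by exact_mod_cast Fintype.card_pos
  have hP : (0 : ℝ) < Fintype.card β := by exact_mod_cast Fintype.card_pos
  rw [cseed_a1 k fun a => ∑ y : Fin m → β, f a (y k') * f a (y l')]
  rw [Finset.sum_congr rfl fun a _ => cseed_a2 h fun u u' => f a u * f a u', ← Finset.mul_sum]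
  have h1 : ∑ a, ∑ u, ∑ u', f a u * f a u' ≤ (∑ a, ∑ y, f a y) * (b * Fintype.card β) := by
    rw [Finset.sum_mul]
    refine Finset.sum_le_sum fun a _ => ?_
    rw [← Finset.sum_mul_sum]
    exact mul_le_mul_of_nonneg_left (hα a) (Finset.sum_nonneg fun y _ => h0 a y)
  refine (mul_le_mul_of_nonneg_left (mul_le_mul_of_nonneg_left h1 (by positivity))
    (by positivity)).trans (le_of_eq ?_)
  field_simp

theorem cseed_full {α β : Type} [Fintype α] [DecidableEq α] [Nonempty α] [Fintype β]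
    [DecidableEq β] [Nonempty β] (f : α → β → ℝ) {m : ℕ} {k l k' l' : Fin m} (h : k ≠ l)
    (h' : k' ≠ l') :
    ∑ x : Fin m → α, ∑ y : Fin m → β, f (x k) (y k') * f (x l) (y l') =
      (Fintype.card α : ℝ) ^ m * (Fintype.card β : ℝ) ^ m *
        ((∑ a, ∑ y, f a y) / (Fintype.card α * Fintype.card β)) ^ 2 := by
  rw [cseed_a2 h fun a a' => ∑ y : Fin m → β, f a (y k') * f a' (y l')]
  have h1 : ∀ a a', ∑ y : Fin m → β, f a (y k') * f a' (y l') =
      (Fintype.card β : ℝ) ^ m / (Fintype.card β : ℝ) ^ 2 * ((∑ u, f a u) * ∑ u, f a' u) := by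
    intro a a'
    rw [cseed_a2 h' fun u u' => f a u * f a' u', Finset.sum_mul_sum]
  simp only [h1, ← Finset.mul_sum]
  rw [← Finset.sum_mul]
  ring

theorem cseed_term {α β : Type} [Fintype α] [DecidableEq α] [Nonempty α] [Fintype β]
    [DecidableEq β] [Nonempty β] (f : α → β → ℝ) (h0 : ∀ a y, 0 ≤ f a y) (h1 : ∀ a y, f a y ≤ 1)
    {b p : ℝ} (hα : ∀ a, ∑ y, f a y ≤ b * Fintype.card β)
    (hβ : ∀ y, ∑ a, f a y ≤ b * Fintype.card α)
    (hp : p = (∑ a, ∑ y, f a y) / (Fintype.card α * Fintype.card β)) {m : ℕ}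
    (k k' l l' : Fin m) :
    ∑ x : Fin m → α, ∑ y : Fin m → β, f (x k) (y k') * f (x l) (y l') ≤
      (Fintype.card α : ℝ) ^ m * (Fintype.card β : ℝ) ^ m *
        (p ^ 2 + (if k = l then p * b else 0) + (if k' = l' then p * b else 0) +
          (if k = l then (if k' = l' then p else 0) else 0)) := by
  have hN : (0 : ℝ) < Fintype.card α := by exact_mod_cast Fintype.card_pos
  have hP : (0 : ℝ) < Fintype.card β := by exact_mod_cast Fintype.card_pos
  have hQ : (0 : ℝ) ≤ (Fintype.card α : ℝ) ^ m * (Fintype.card β : ℝ) ^ m := by positivity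
  have hp0 : 0 ≤ p := by
    rw [hp]
    exact div_nonneg (Finset.sum_nonneg fun a _ => Finset.sum_nonneg fun y _ => h0 a y)
      (by positivity)
  have hb : 0 ≤ b := by
    have a0 : α := Classical.arbitrary α
    exact nonneg_of_mul_nonneg_left ((Finset.sum_nonneg fun y _ => h0 a0 y).trans (hα a0)) hP
  have hpb := mul_nonneg hp0 hb
  have hpp := sq_nonneg p
  by_cases h : k = l
  · subst h
    by_cases h' : k' = l'
    · subst h'
      have h2 := cseed_mean f k k'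
      rw [← hp] at h2
      rw [if_pos rfl, if_pos rfl, if_pos rfl, if_pos rfl]
      calc _ ≤ ∑ x : Fin m → α, ∑ y : Fin m → β, f (x k) (y k') :=
            Finset.sum_le_sum fun x _ => Finset.sum_le_sum fun y _ =>
              mul_le_of_le_one_left (h0 _ _) (h1 _ _)
        _ ≤ _ := by rw [h2]; exact mul_le_mul_of_nonneg_left (by linarith) hQ
    · have h2 := cseed_half f h0 hα k h'
      rw [← hp] at h2
      rw [if_pos rfl, if_neg h', if_pos rfl, if_neg h']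
      exact h2.trans (mul_le_mul_of_nonneg_left (by linarith) hQ)
  · by_cases h' : k' = l'
    · subst h'
      have h2 := cseed_half (fun y a => f a y) (fun y a => h0 a y) hβ k' h
      have hp' : (∑ y, ∑ a, f a y) / (Fintype.card β * Fintype.card α) = p := by
        rw [hp, Finset.sum_comm, mul_comm]
      rw [Finset.sum_comm, hp', mul_comm ((Fintype.card β : ℝ) ^ m)] at h2
      rw [if_neg h, if_pos rfl, if_neg h]
      exact h2.trans (mul_le_mul_of_nonneg_left (by linarith) hQ)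
    · rw [cseed_full f h h', ← hp, if_neg h, if_neg h', if_neg h]
      exact le_of_eq (by ring)

theorem cseed_four {m : ℕ} (F : Fin m → Fin m → Fin m → Fin m → ℝ) :
    ∑ q : (Fin m × Fin m) × (Fin m × Fin m), F q.1.1 q.1.2 q.2.1 q.2.2 =
      ∑ k, ∑ k', ∑ l, ∑ l', F k k' l l' := by
  simp only [Fintype.sum_prod_type]

theorem var_bound {α β : Type} [Fintype α] [DecidableEq α] [Nonempty α] [Fintype β]
    [DecidableEq β] [Nonempty β] (f : α → β → ℝ) (h0 : ∀ a y, 0 ≤ f a y) (h1 : ∀ a y, f a y ≤ 1)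
    {b p : ℝ} (hα : ∀ a, ∑ y, f a y ≤ b * Fintype.card β)
    (hβ : ∀ y, ∑ a, f a y ≤ b * Fintype.card α)
    (hp : p = (∑ a, ∑ y, f a y) / (Fintype.card α * Fintype.card β)) {m : ℕ} (hm : 1 ≤ m) :
    ∑ x : Fin m → α, ∑ y : Fin m → β, ((∑ k, ∑ k', f (x k) (y k')) / (m : ℝ) ^ 2 - p) ^ 2
      ≤ (Fintype.card α : ℝ) ^ m * (Fintype.card β : ℝ) ^ m * (p * (2 * b / m + 1 / (m : ℝ) ^ 2)) := by
  have hm0 : (0 : ℝ) < m := by exact_mod_cast hm
  set Q : ℝ := (Fintype.card α : ℝ) ^ m * (Fintype.card β : ℝ) ^ m with hQ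
  have e1 : ∑ x : Fin m → α, ∑ y : Fin m → β, ∑ k, ∑ k', f (x k) (y k') = (m : ℝ) ^ 2 * (Q * p) := by
    have h : ∀ x : Fin m → α, ∑ y : Fin m → β, ∑ k, ∑ k', f (x k) (y k') =
        ∑ k, ∑ k', ∑ y : Fin m → β, f (x k) (y k') := by
      intro x
      rw [Finset.sum_comm]
      exact Finset.sum_congr rfl fun k _ => Finset.sum_comm
    rw [Finset.sum_congr rfl fun x _ => h x, Finset.sum_comm]
    have h2 : ∀ k : Fin m, ∑ x : Fin m → α, ∑ k', ∑ y : Fin m → β, f (x k) (y k') =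
        ∑ _k' : Fin m, Q * p := by
      intro k
      rw [Finset.sum_comm]
      refine Finset.sum_congr rfl fun k' _ => ?_
      rw [cseed_mean, ← hp]
    rw [Finset.sum_congr rfl fun k _ => h2 k]
    simp only [Finset.sum_const, card_univ, Fintype.card_fin, nsmul_eq_mul]
    ring
  have e2 : ∑ x : Fin m → α, ∑ y : Fin m → β, (∑ k, ∑ k', f (x k) (y k')) ^ 2 ≤
      Q * ((m : ℝ) ^ 4 * p ^ 2 + 2 * (m : ℝ) ^ 3 * (p * b) + (m : ℝ) ^ 2 * p) := by
    have h : ∀ (x : Fin m → α) (y : Fin m → β), (∑ k, ∑ k', f (x k) (y k')) ^ 2 =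
        ∑ q : (Fin m × Fin m) × (Fin m × Fin m),
          f (x q.1.1) (y q.1.2) * f (x q.2.1) (y q.2.2) := by
      intro x y
      rw [← Fintype.sum_prod_type', sq, Finset.sum_mul_sum]
      exact (Fintype.sum_prod_type' fun q q' : Fin m × Fin m =>
        f (x q.1) (y q.2) * f (x q'.1) (y q'.2)).symm
    have h2 : ∑ x : Fin m → α, ∑ y : Fin m → β, (∑ k, ∑ k', f (x k) (y k')) ^ 2 =
        ∑ q : (Fin m × Fin m) × (Fin m × Fin m), ∑ x : Fin m → α, ∑ y : Fin m → β,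
          f (x q.1.1) (y q.1.2) * f (x q.2.1) (y q.2.2) := by
      rw [Finset.sum_comm (s := (univ : Finset ((Fin m × Fin m) × (Fin m × Fin m))))]
      refine Finset.sum_congr rfl fun x _ => ?_
      rw [Finset.sum_comm (s := (univ : Finset ((Fin m × Fin m) × (Fin m × Fin m))))]
      exact Finset.sum_congr rfl fun y _ => h x y
    rw [h2]
    refine (Finset.sum_le_sum fun q _ =>
      cseed_term f h0 h1 hα hβ hp q.1.1 q.1.2 q.2.1 q.2.2).trans (le_of_eq ?_)
    rw [← Finset.mul_sum]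
    congr 1
    rw [cseed_four fun k k' l l' : Fin m => p ^ 2 + (if k = l then p * b else 0) +
      (if k' = l' then p * b else 0) + (if k = l then (if k' = l' then p else 0) else 0)]
    simp only [Finset.sum_add_distrib, Finset.sum_const, card_univ,
      Fintype.card_fin, nsmul_eq_mul, Finset.sum_ite_eq, mem_univ, if_true, Finset.sum_ite_irrel,
      mul_zero, ← Finset.mul_sum]
    ring
  have e3 : ∀ (x : Fin m → α) (y : Fin m → β),
      ((∑ k, ∑ k', f (x k) (y k')) / (m : ℝ) ^ 2 - p) ^ 2 =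
        1 / (m : ℝ) ^ 4 * (∑ k, ∑ k', f (x k) (y k')) ^ 2 -
          2 * p / (m : ℝ) ^ 2 * (∑ k, ∑ k', f (x k) (y k')) + p ^ 2 := by
    intro x y
    field_simp
    ring
  simp only [e3, Finset.sum_add_distrib, Finset.sum_sub_distrib, ← Finset.mul_sum,
    Finset.sum_const, card_univ, nsmul_eq_mul, Fintype.card_fun, Fintype.card_fin, Nat.cast_pow]
  rw [e1, mul_left_comm ((Fintype.card β : ℝ) ^ m), ← mul_assoc ((Fintype.card α : ℝ) ^ m), ← hQ]
  have e4 := mul_le_mul_of_nonneg_left e2 (show (0 : ℝ) ≤ 1 / (m : ℝ) ^ 4 by positivity)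
  have e5 : 1 / (m : ℝ) ^ 4 * (Q * ((m : ℝ) ^ 4 * p ^ 2 + 2 * (m : ℝ) ^ 3 * (p * b) +
      (m : ℝ) ^ 2 * p)) - 2 * p / (m : ℝ) ^ 2 * ((m : ℝ) ^ 2 * (Q * p)) + Q * p ^ 2 =
      Q * (p * (2 * b / m + 1 / (m : ℝ) ^ 2)) := by
    field_simp
    ring
  linarith

theorem cseed_cons (v : Fin n → ℂ) (G : ℂ → ℝ) (t : ℕ) :
    ∑ f : Fin (t + 1) → Fin n, G (∑ a, v (f a)) =
      ∑ j, ∑ y : Fin t → Fin n, G (v j + ∑ a, v (y a)) := by
  rw [← Fintype.sum_prod_type']
  refine (Fintype.sum_equiv (Fin.consEquiv fun _ => Fin n) _ _ fun q => ?_).symm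
  simp [Fin.sum_univ_succ, Fin.consEquiv]

theorem cseed_var (hn : 0 < n) (v : Fin n → ℂ) (G : ℂ → ℝ) (hG0 : ∀ w, 0 ≤ G w)
    (hG1 : ∀ w, G w ≤ 1) {b : ℝ} (hb : ∀ ζ, ∑ j, G (v j + ζ) ≤ b * n) (t : ℕ) {m : ℕ}
    (hm : 1 ≤ m) :
    ∑ ω : (Fin m → Fin n) × (Fin m → Fin (t + 1) → Fin n),
      ((∑ q : Fin m × Fin m, G (v (ω.1 q.1) + ∑ a, v (ω.2 q.2 a))) / (m : ℝ) ^ 2 -
        (∑ f : Fin (t + 2) → Fin n, G (∑ a, v (f a))) / (n : ℝ) ^ (t + 2)) ^ 2 ≤
      (Fintype.card ((Fin m → Fin n) × (Fin m → Fin (t + 1) → Fin n)) : ℝ) *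
        ((∑ f : Fin (t + 2) → Fin n, G (∑ a, v (f a))) / (n : ℝ) ^ (t + 2) *
          (2 * b / m + 1 / (m : ℝ) ^ 2)) := by
  have : Nonempty (Fin n) := ⟨⟨0, hn⟩⟩
  have h := var_bound (α := Fin n) (β := Fin (t + 1) → Fin n)
    (fun j y => G (v j + ∑ a, v (y a))) (fun _ _ => hG0 _) (fun _ _ => hG1 _) (b := b)
    (p := (∑ f : Fin (t + 2) → Fin n, G (∑ a, v (f a))) / (n : ℝ) ^ (t + 2)) ?_ ?_ ?_ hm
  · rw [Fintype.sum_prod_type]
    simp only [Fintype.sum_prod_type]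
    refine h.trans (le_of_eq ?_)
    rw [Fintype.card_prod, Fintype.card_fun (α := Fin m), Fintype.card_fun (α := Fin m),
      Fintype.card_fin m]
    push_cast
    ring
  · intro j
    rw [cseed_cons v (fun w => G (v j + w)) t, Finset.sum_comm]
    have h1 : ∀ y : Fin t → Fin n, ∑ j', G (v j + (v j' + ∑ a, v (y a))) ≤ b * n := by
      intro y
      refine le_of_eq_of_le ?_ (hb (v j + ∑ a, v (y a)))
      exact Finset.sum_congr rfl fun j' _ => by rw [add_left_comm]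
    refine (Finset.sum_le_sum fun y _ => h1 y).trans (le_of_eq ?_)
    simp only [Finset.sum_const, card_univ, nsmul_eq_mul, Fintype.card_fun, Fintype.card_fin,
      Nat.cast_pow]
    ring
  · intro y
    rw [Fintype.card_fin]
    exact hb _
  · rw [cseed_cons v G (t + 1)]
    simp only [Fintype.card_fun, Fintype.card_fin, Nat.cast_pow]
    rw [pow_succ' (n : ℝ) (t + 1)]

theorem cseed_fail {S p δ m2 : ℝ} (hp : 0 < p) (hδ : 0 < δ) (hm : 0 < m2)
    (h : S < (1 - δ) * m2 * p) : 1 ≤ (S / m2 - p) ^ 2 / (δ ^ 2 * p ^ 2) := by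
  rw [le_div_iff₀ (by positivity), one_mul, ← mul_pow, ← neg_sq (S / m2 - p)]
  refine pow_le_pow_left₀ (by positivity) ?_ 2
  have h1 : S / m2 < (1 - δ) * p := by
    rw [div_lt_iff₀ hm]
    linarith
  linarith

open Classical in
theorem seeds (hr : 2 ≤ r) (hn : 0 < n) (v : Fin n → ℂ) (hv : ∀ j, ‖v j‖ ≤ 1) (z : ℂ)
    {s M p0 δ : ℝ} (hp0 : 0 < p0) (hδ : 0 < δ) (hM : Clus v s M) (W : Finset (Fin n))
    (hW : ∀ i ∈ W, p0 * (n : ℝ) ^ r ≤ Dn r z v i s) (g : ℂ → ℝ) (hg0 : ∀ w, 0 ≤ g w)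
    (hg1 : ∀ w, g w ≤ 1) (m : ℕ) (hm : 6 < m * δ ^ 2) :
    ∃ A B : Fin m → ℂ, (∀ k, ‖A k‖ ≤ 1) ∧ (∀ k, ‖B k‖ ≤ r) ∧
      ((W.filter fun i => ((univ.filter fun p : Fin m × Fin m =>
          ‖A p.1 + B p.2 - z * v i‖ ≤ s).card : ℝ)
            < (1 - δ) * (m : ℝ) ^ 2 * (Dn r z v i s / (n : ℝ) ^ r)).card : ℝ)
        ≤ 2 * n * (2 * M / (n * m) + 1 / (m : ℝ) ^ 2) / (δ ^ 2 * p0) ∧
      ∑ p : Fin m × Fin m, g (A p.1 + B p.2)
        ≤ (m : ℝ) ^ 2 * ((∑ f : Fin r → Fin n, g (∑ a, v (f a))) / (n : ℝ) ^ r + δ) := by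
  obtain ⟨t, rfl⟩ : ∃ t, r = t + 2 := ⟨r - 2, by omega⟩
  have : Nonempty (Fin n) := ⟨⟨0, hn⟩⟩
  have hn0 : (0 : ℝ) < n := by exact_mod_cast hn
  have hm1 : 1 ≤ m := by
    rcases Nat.eq_zero_or_pos m with h | h
    · rw [h, Nat.cast_zero, zero_mul] at hm
      linarith
    · exact h
  have hm0 : (0 : ℝ) < m := by exact_mod_cast hm1
  have hm1' : (1 : ℝ) ≤ m := by exact_mod_cast hm1
  have hM0 : 0 ≤ M := (Nat.cast_nonneg _).trans (hM 0)
  set w0 : ℝ := 2 * M / (n * m) + 1 / (m : ℝ) ^ 2 with hw0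
  have hw0' : 0 < w0 := by positivity
  set N : ℝ := (Fintype.card ((Fin m → Fin n) × (Fin m → Fin (t + 1) → Fin n)) : ℝ) with hN
  have hN0 : 0 < N := by
    rw [hN]
    exact_mod_cast Fintype.card_pos
  set F : (Fin m → Fin n) × (Fin m → Fin (t + 1) → Fin n) → Fin n → Prop := fun ω i =>
    ((univ.filter fun p : Fin m × Fin m =>
          ‖v (ω.1 p.1) + ∑ a, v (ω.2 p.2 a) - z * v i‖ ≤ s).card : ℝ)
            < (1 - δ) * (m : ℝ) ^ 2 * (Dn (t + 2) z v i s / (n : ℝ) ^ (t + 2)) with hF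
  have k1 : ∀ i ∈ W, ∑ ω, (if F ω i then (1 : ℝ) else 0) ≤ N * (w0 / (δ ^ 2 * p0)) := by
    intro i hi
    have hb : ∀ ζ, ∑ j, (if ‖v j + ζ - z * v i‖ ≤ s then (1 : ℝ) else 0) ≤ M / n * n := by
      intro ζ
      rw [div_mul_cancel₀ _ hn0.ne']
      refine le_of_eq_of_le ?_ (hM (z * v i - ζ))
      rw [Finset.card_filter]
      push_cast
      refine Finset.sum_congr rfl fun j _ => ?_
      rw [show v j - (z * v i - ζ) = v j + ζ - z * v i by ring]
    have h := cseed_var hn v (fun w => if ‖w - z * v i‖ ≤ s then (1 : ℝ) else 0)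
      (fun w => by split_ifs <;> norm_num) (fun w => by split_ifs <;> norm_num) hb t hm1
    have hD : ∑ f : Fin (t + 2) → Fin n,
        (if ‖∑ a, v (f a) - z * v i‖ ≤ s then (1 : ℝ) else 0) = Dn (t + 2) z v i s := by
      rw [Dn, Finset.card_filter]
      push_cast
      rfl
    rw [hD, ← hN] at h
    have hw : 2 * (M / n) / m + 1 / (m : ℝ) ^ 2 = w0 := by
      rw [hw0]
      field_simp
    rw [hw] at h
    set p : ℝ := Dn (t + 2) z v i s / (n : ℝ) ^ (t + 2) with hp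
    have hpp : p0 ≤ p := by
      rw [hp, le_div_iff₀ (by positivity)]
      exact hW i hi
    have hp' : 0 < p := hp0.trans_le hpp
    have h2 : ∀ ω : (Fin m → Fin n) × (Fin m → Fin (t + 1) → Fin n),
        (if F ω i then (1 : ℝ) else 0) ≤ ((∑ q : Fin m × Fin m,
          if ‖v (ω.1 q.1) + ∑ a, v (ω.2 q.2 a) - z * v i‖ ≤ s then (1 : ℝ) else 0) / (m : ℝ) ^ 2 -
            p) ^ 2 / (δ ^ 2 * p ^ 2) := by
      intro ω
      split_ifs with hω
      · refine cseed_fail hp' hδ (by positivity) (lt_of_eq_of_lt ?_ hω)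
        rw [Finset.card_filter]
        push_cast
        rfl
      · positivity
    refine (Finset.sum_le_sum fun ω _ => h2 ω).trans ?_
    rw [← Finset.sum_div]
    refine (div_le_div_of_nonneg_right h (by positivity)).trans ?_
    have h3 : N * (p * w0) / (δ ^ 2 * p ^ 2) = N * (w0 / (δ ^ 2 * p)) := by field_simp
    rw [h3]
    refine mul_le_mul_of_nonneg_left ?_ hN0.le
    exact div_le_div_of_nonneg_left hw0'.le (by positivity)
      (mul_le_mul_of_nonneg_left hpp (by positivity))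
  have k2 : ∑ ω, ((W.filter (F ω)).card : ℝ) ≤ n * (N * (w0 / (δ ^ 2 * p0))) := by
    have h1 : ∀ ω, ((W.filter (F ω)).card : ℝ) = ∑ i ∈ W, if F ω i then (1 : ℝ) else 0 := by
      intro ω
      rw [Finset.card_filter]
      push_cast
      rfl
    rw [Finset.sum_congr rfl fun ω _ => h1 ω, Finset.sum_comm]
    refine (Finset.sum_le_sum k1).trans ?_
    rw [Finset.sum_const, nsmul_eq_mul]
    refine mul_le_mul_of_nonneg_right ?_ (by positivity)
    have h2 := card_le_univ W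
    rw [Fintype.card_fin] at h2
    exact_mod_cast h2
  set p : ℝ := (∑ f : Fin (t + 2) → Fin n, g (∑ a, v (f a))) / (n : ℝ) ^ (t + 2) with hp
  have hp1 : p ≤ 1 := by
    rw [hp, div_le_one (by positivity)]
    refine (Finset.sum_le_sum fun f _ => hg1 _).trans (le_of_eq ?_)
    simp only [Finset.sum_const, card_univ, nsmul_eq_mul, Fintype.card_fun, Fintype.card_fin,
      Nat.cast_pow, mul_one]
  have k3 : ∑ ω : (Fin m → Fin n) × (Fin m → Fin (t + 1) → Fin n),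
      ((∑ q : Fin m × Fin m, g (v (ω.1 q.1) + ∑ a, v (ω.2 q.2 a))) / (m : ℝ) ^ 2 - p) ^ 2 ≤
      N * (3 / m) := by
    have hb : ∀ ζ, ∑ j, g (v j + ζ) ≤ 1 * n := by
      intro ζ
      refine (Finset.sum_le_sum fun j _ => hg1 _).trans (le_of_eq ?_)
      simp
    have h := cseed_var hn v g hg0 hg1 hb t hm1
    rw [← hN, ← hp] at h
    refine h.trans (mul_le_mul_of_nonneg_left ?_ hN0.le)
    have h1 : 1 / (m : ℝ) ^ 2 ≤ 1 / m :=
      one_div_le_one_div_of_le hm0 (le_self_pow₀ hm1' two_ne_zero)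
    have h2 : 2 * 1 / (m : ℝ) + 1 / m = 3 / m := by ring
    exact (mul_le_of_le_one_left (by positivity) hp1).trans (by linarith)
  set B : ℝ := 2 * n * w0 / (δ ^ 2 * p0) with hB
  have hB0 : 0 < B := by positivity
  have k4 : ∑ ω : (Fin m → Fin n) × (Fin m → Fin (t + 1) → Fin n),
      (((W.filter (F ω)).card : ℝ) / B +
        ((∑ q : Fin m × Fin m, g (v (ω.1 q.1) + ∑ a, v (ω.2 q.2 a))) / (m : ℝ) ^ 2 - p) ^ 2 /
          δ ^ 2) < ∑ _ω : (Fin m → Fin n) × (Fin m → Fin (t + 1) → Fin n), (1 : ℝ) := by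
    rw [Finset.sum_add_distrib, ← Finset.sum_div, ← Finset.sum_div, Finset.sum_const, card_univ,
      nsmul_eq_mul, ← hN, mul_one]
    have a1 := div_le_div_of_nonneg_right k2 hB0.le
    have a2 := div_le_div_of_nonneg_right k3 (sq_nonneg δ)
    have a3 : n * (N * (w0 / (δ ^ 2 * p0))) / B = N / 2 := by
      rw [hB]
      field_simp
    have a4 : N * (3 / m) / δ ^ 2 < N / 2 := by
      have a5 : N * (3 / m) / δ ^ 2 = N * (3 / (m * δ ^ 2)) := by field_simp
      have a6 : 3 / (m * δ ^ 2) < 1 / 2 := by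
        rw [div_lt_iff₀ (by positivity)]
        linarith
      have a7 := mul_lt_mul_of_pos_left a6 hN0
      linarith
    linarith
  obtain ⟨ω, -, hω⟩ := Finset.exists_lt_of_sum_lt k4
  have b1 : (0 : ℝ) ≤ ((W.filter (F ω)).card : ℝ) / B := by positivity
  have b2 : (0 : ℝ) ≤ ((∑ q : Fin m × Fin m, g (v (ω.1 q.1) + ∑ a, v (ω.2 q.2 a))) /
      (m : ℝ) ^ 2 - p) ^ 2 / δ ^ 2 := by positivity
  refine ⟨fun k => v (ω.1 k), fun k => ∑ a, v (ω.2 k a), fun k => hv _, fun k => ?_, ?_, ?_⟩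
  · refine (norm_sum_le _ _).trans ((Finset.sum_le_sum fun a _ => hv _).trans ?_)
    simp
  · have c1 : ((W.filter (F ω)).card : ℝ) / B ≤ 1 := by linarith
    rw [div_le_one hB0] at c1
    exact c1
  · have c1 : ((∑ q : Fin m × Fin m, g (v (ω.1 q.1) + ∑ a, v (ω.2 q.2 a))) /
        (m : ℝ) ^ 2 - p) ^ 2 / δ ^ 2 ≤ 1 := by linarith
    rw [div_le_one (by positivity)] at c1
    have c2 := (abs_le_of_sq_le_sq' c1 hδ.le).2
    rw [sub_le_iff_le_add', div_le_iff₀' (by positivity)] at c2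
    exact c2

end Pool.Agent.OKM

end FileCSeed

section FileCTilt

/-!
The law of `z X` differs macroscopically from the law of `X₁ + ... + X_r` when `|z|^2 < r`.
Let `g a y = 1 - ker1 a y = a|y|^2/(1 + a|y|^2)`, `F a = avg_{j,j'} g a (v j - v j')`.
`two_point`: with `A = a|w|^2`, `B = a|y|^2`, `|c| ≤ 2√(AB)`, `σ = 1 + A + B`, `P = A B`, the average of the two
kernels is `σ/(σ^2 - c^2) ≤ σ/(σ^2 - 4P) ≤ (1 + 5P)/(σ + P)` because `σ + 4 ≤ 5 (σ^2 - 4P)`
(`σ^2 - 4P = 1 + 2(A+B) + (A-B)^2`).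
`sym_sum`: induction on `k` with `Fin.cons`, swapping `j ↔ j'` in the new coordinate:
`F_{k+1} ≥ F_k (1 - 6F) + F`, `F_k ≥ k F - 3 k^2 F^2` when `6 F ≤ 1`.
`tilt`: `δ₁ = min δ₀ 1`, `F0 = min (φ'/4) (δ₁/(6 r^2))`. `F 1 ≤ avg |v j - v j'|^2 ≤ 4/n ≤ F0` eventually; if
`a ≥ n^(2C)` then `F a ≥ φ'/2 > F0` (`Clus` with `ζ = v j'`, `g ≥ 1/2` when `a|y|^2 ≥ 1`); `F (4a) ≤ 4 F a`. Take the
least `k` with `F (4^(k+1)) > F0` (`Nat.find`), so `4^k ≤ n^(2C)` and `F := F (4^k) ∈ (F0/4, F0]`.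
With `P` the law of `z v i`, `Q` the law of `∑ v (f a)` and `⟨P,Q⟩ = avg ker1 a (x - y)`:
`⟨P,P⟩ - ⟨Q,Q⟩ ≥ r F - 3 r^2 F^2 - max 1 |z|^2 F ≥ δ₁ F/2` (`g a (z y) ≤ max 1 |z|^2 g a y`), and it equals
`(⟨P,P⟩ - ⟨Q,P⟩) + (⟨P,Q⟩ - ⟨Q,Q⟩)` (`ker1` is even), so one bracket is `≥ κ = δ₁ F0/16`; it is an average over
`ζ ∼ P` (resp. `ζ ∼ Q`) of `avg_P ker1 (· - ζ) - avg_Q ker1 (· - ζ)`; pick a `ζ` at least as good as the average.
-/

open Finset Filter

namespace Pool.Agent.OKM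

variable {n r : ℕ}

theorem ker1_pos {a : ℝ} (ha : 0 ≤ a) (y : ℂ) : 0 < ker1 a y := by
  unfold ker1
  positivity

theorem ker1_le_one {a : ℝ} (ha : 0 ≤ a) (y : ℂ) : ker1 a y ≤ 1 := by
  unfold ker1
  have : 0 ≤ a * ‖y‖ ^ 2 := by positivity
  rw [div_le_one (by linarith)]
  linarith

theorem ctilt_lip {s t : ℝ} (hs : 0 ≤ s) (ht : 0 ≤ t) :
    |1 / (1 + s ^ 2) - 1 / (1 + t ^ 2)| ≤ |s - t| := by
  have h1 : 0 < 1 + s ^ 2 := by positivity
  have h2 : 0 < 1 + t ^ 2 := by positivity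
  have e : 1 / (1 + s ^ 2) - 1 / (1 + t ^ 2) = (t - s) * ((s + t) / ((1 + s ^ 2) * (1 + t ^ 2))) := by
    field_simp
    ring
  have h3 : (s + t) / ((1 + s ^ 2) * (1 + t ^ 2)) ≤ 1 := by
    rw [div_le_one (mul_pos h1 h2)]
    have a1 := sq_nonneg (s - 1)
    have a2 := sq_nonneg (t - 1)
    have a3 := sq_nonneg s
    have a4 := sq_nonneg t
    have a5 := sq_nonneg (s * t)
    linarith
  rw [e, abs_mul, abs_sub_comm t s, abs_of_nonneg (by positivity : 0 ≤ (s + t) / _)]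
  exact mul_le_of_le_one_right (abs_nonneg _) h3

theorem ker1_lip {a : ℝ} (ha : 0 ≤ a) (y y' : ℂ) : |ker1 a y - ker1 a y'| ≤ √a * ‖y - y'‖ := by
  have h := ctilt_lip (s := √a * ‖y‖) (t := √a * ‖y'‖) (by positivity) (by positivity)
  rw [mul_pow, mul_pow, Real.sq_sqrt ha, ← mul_sub, abs_mul, abs_of_nonneg (Real.sqrt_nonneg a)] at h
  exact h.trans (mul_le_mul_of_nonneg_left (abs_norm_sub_norm_le y y') (Real.sqrt_nonneg a))

theorem ctilt_real {A B c : ℝ} (hA : 0 ≤ A) (hB : 0 ≤ B) (hc : c ^ 2 ≤ 4 * (A * B)) :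
    (1 - 1 / (1 + A)) + (1 - 1 / (1 + B)) - 6 * (1 - 1 / (1 + A)) * (1 - 1 / (1 + B))
      ≤ ((1 - 1 / (1 + (A + B + c))) + (1 - 1 / (1 + (A + B - c)))) / 2 := by
  have hP : 0 ≤ A * B := mul_nonneg hA hB
  have hs := sq_nonneg (A - B)
  have h0 : c ^ 2 < (1 + A + B) ^ 2 := by linarith
  have h1 := abs_lt.1 (abs_lt_of_sq_lt_sq h0 (by linarith))
  have h2 : 0 < 1 + (A + B + c) := by linarith [h1.1]
  have h3 : 0 < 1 + (A + B - c) := by linarith [h1.2]
  have h4 : 0 < 1 + A := by linarith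
  have h5 : 0 < 1 + B := by linarith
  have e1 : (1 - 1 / (1 + A)) + (1 - 1 / (1 + B)) - 6 * (1 - 1 / (1 + A)) * (1 - 1 / (1 + B))
      = 1 - (1 + 5 * (A * B)) / ((1 + A) * (1 + B)) := by
    field_simp
    ring
  have e2 : ((1 - 1 / (1 + (A + B + c))) + (1 - 1 / (1 + (A + B - c)))) / 2
      = 1 - (1 + A + B) / ((1 + (A + B + c)) * (1 + (A + B - c))) := by
    field_simp
    ring
  rw [e1, e2, sub_le_sub_iff_left, div_le_div_iff₀ (mul_pos h2 h3) (mul_pos h4 h5)]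
  have a1 : (1 + 5 * (A * B)) * (1 + 2 * (A + B) + (A - B) ^ 2) ≤
      (1 + 5 * (A * B)) * ((1 + (A + B + c)) * (1 + (A + B - c))) :=
    mul_le_mul_of_nonneg_left (by linarith) (by linarith)
  have a2 : A * B * (5 + A + B) ≤ A * B * (5 * (1 + 2 * (A + B) + (A - B) ^ 2)) :=
    mul_le_mul_of_nonneg_left (by linarith) hP
  linarith

theorem two_point {a : ℝ} (ha : 0 ≤ a) (w y : ℂ) :
    (1 - ker1 a w) + (1 - ker1 a y) - 6 * (1 - ker1 a w) * (1 - ker1 a y)
      ≤ ((1 - ker1 a (w + y)) + (1 - ker1 a (w - y))) / 2 := by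
  have h1 : |(w * (starRingEnd ℂ) y).re| ≤ ‖w‖ * ‖y‖ := by
    refine (Complex.abs_re_le_norm _).trans ?_
    rw [norm_mul, Complex.norm_conj]
  have h2 : (w * (starRingEnd ℂ) y).re ^ 2 ≤ (‖w‖ * ‖y‖) ^ 2 := by
    rw [← sq_abs]
    exact pow_le_pow_left₀ (abs_nonneg _) h1 2
  have e1 : a * ‖w + y‖ ^ 2 =
      a * ‖w‖ ^ 2 + a * ‖y‖ ^ 2 + 2 * a * (w * (starRingEnd ℂ) y).re := by
    simp only [← Complex.normSq_eq_norm_sq, Complex.normSq_add]
    ring
  have e2 : a * ‖w - y‖ ^ 2 =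
      a * ‖w‖ ^ 2 + a * ‖y‖ ^ 2 - 2 * a * (w * (starRingEnd ℂ) y).re := by
    simp only [← Complex.normSq_eq_norm_sq, Complex.normSq_sub]
    ring
  unfold ker1
  rw [e1, e2]
  refine ctilt_real (by positivity) (by positivity) ?_
  have := mul_le_mul_of_nonneg_left h2 (sq_nonneg a)
  linarith

theorem ctilt_one (v : Fin n → ℂ) {a S : ℝ} (ha : 0 ≤ a)
    (hS : S = ∑ j, ∑ j', (1 - ker1 a (v j - v j'))) (w : ℂ) :
    ((n : ℝ) ^ 2 - 6 * S) * (1 - ker1 a w) + S ≤
      ∑ j, ∑ j', (1 - ker1 a (w + (v j - v j'))) := by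
  have e1 : ∑ j, ∑ j', (1 - ker1 a (w - (v j - v j'))) =
      ∑ j, ∑ j', (1 - ker1 a (w + (v j - v j'))) := by
    rw [sum_comm]
    refine sum_congr rfl fun j _ => sum_congr rfl fun j' _ => ?_
    rw [sub_eq_add_neg w, neg_sub]
  have h : ∑ j, ∑ j', ((1 - ker1 a w) + (1 - 6 * (1 - ker1 a w)) * (1 - ker1 a (v j - v j'))) ≤
      ∑ j, ∑ j', ((1 - ker1 a (w + (v j - v j'))) + (1 - ker1 a (w - (v j - v j')))) / 2 := by
    refine sum_le_sum fun j _ => sum_le_sum fun j' _ => ?_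
    have := two_point ha w (v j - v j')
    linarith
  simp only [← sum_div, sum_add_distrib, ← mul_sum, sum_const, card_univ, Fintype.card_fin,
    nsmul_eq_mul] at h
  rw [e1, ← hS] at h
  linarith

theorem ctilt_cons {k : ℕ} (G : (Fin (k + 1) → Fin n) → ℝ) :
    ∑ f, G f = ∑ f : Fin k → Fin n, ∑ j, G (Fin.cons j f) := by
  rw [← (Fin.consEquiv fun _ : Fin (k + 1) => Fin n).sum_comp, Fintype.sum_prod_type, sum_comm]
  rfl

theorem ctilt_succ (v : Fin n → ℂ) {a S : ℝ} (ha : 0 ≤ a)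
    (hS : S = ∑ j, ∑ j', (1 - ker1 a (v j - v j'))) (k : ℕ) :
    ((n : ℝ) ^ 2 - 6 * S) * (∑ f : Fin k → Fin n, ∑ f' : Fin k → Fin n,
      (1 - ker1 a (∑ i, v (f i) - ∑ i, v (f' i)))) + (n : ℝ) ^ k * ((n : ℝ) ^ k * S) ≤
    ∑ f : Fin (k + 1) → Fin n, ∑ f' : Fin (k + 1) → Fin n,
      (1 - ker1 a (∑ i, v (f i) - ∑ i, v (f' i))) := by
  have e : ∑ f : Fin (k + 1) → Fin n, ∑ f' : Fin (k + 1) → Fin n,
      (1 - ker1 a (∑ i, v (f i) - ∑ i, v (f' i))) =
      ∑ f : Fin k → Fin n, ∑ f' : Fin k → Fin n, ∑ j, ∑ j',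
        (1 - ker1 a ((∑ i, v (f i) - ∑ i, v (f' i)) + (v j - v j'))) := by
    rw [ctilt_cons]
    refine sum_congr rfl fun f _ => ?_
    rw [sum_comm (s := (univ : Finset (Fin k → Fin n)))]
    refine sum_congr rfl fun j _ => ?_
    rw [ctilt_cons]
    refine sum_congr rfl fun f' _ => sum_congr rfl fun j' _ => ?_
    simp only [Fin.sum_univ_succ, Fin.cons_zero, Fin.cons_succ]
    rw [add_sub_add_comm, add_comm (v j - v j')]
  have h : ∑ f : Fin k → Fin n, ∑ f' : Fin k → Fin n,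
      (((n : ℝ) ^ 2 - 6 * S) * (1 - ker1 a (∑ i, v (f i) - ∑ i, v (f' i))) + S) ≤
      ∑ f : Fin k → Fin n, ∑ f' : Fin k → Fin n, ∑ j, ∑ j',
        (1 - ker1 a ((∑ i, v (f i) - ∑ i, v (f' i)) + (v j - v j'))) :=
    sum_le_sum fun f _ => sum_le_sum fun f' _ => ctilt_one v ha hS _
  simp only [sum_add_distrib, ← mul_sum, sum_const, card_univ, Fintype.card_fun, Fintype.card_fin,
    nsmul_eq_mul, Nat.cast_pow] at h
  rw [e]
  exact h

theorem ctilt_sum_nonneg {α β : Type} [Fintype α] [Fintype β] {a : ℝ} (ha : 0 ≤ a)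
    (x : α → β → ℂ) : 0 ≤ ∑ j, ∑ j', (1 - ker1 a (x j j')) :=
  sum_nonneg fun _ _ => sum_nonneg fun _ _ => sub_nonneg.2 (ker1_le_one ha _)

theorem sym_sum (hn : 0 < n) (v : Fin n → ℂ) {a F : ℝ} (ha : 0 ≤ a)
    (hF : F = (∑ j, ∑ j', (1 - ker1 a (v j - v j'))) / (n : ℝ) ^ 2) (hF6 : 6 * F ≤ 1) (k : ℕ) :
    k * F - 3 * k ^ 2 * F ^ 2 ≤ (∑ f : Fin k → Fin n, ∑ f' : Fin k → Fin n,
      (1 - ker1 a (∑ i, v (f i) - ∑ i, v (f' i)))) / ((n : ℝ) ^ k * (n : ℝ) ^ k) := by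
  have hN : (0 : ℝ) < n := Nat.cast_pos.2 hn
  have hF0 : 0 ≤ F := hF ▸ div_nonneg (ctilt_sum_nonneg ha _) (by positivity)
  have hS : F * (n : ℝ) ^ 2 = ∑ j, ∑ j', (1 - ker1 a (v j - v j')) := by
    rw [hF, div_mul_cancel₀ _ (by positivity)]
  induction k with
  | zero =>
    refine le_trans ?_ (div_nonneg (ctilt_sum_nonneg ha _) (by positivity))
    simp
  | succ k ih =>
    have h := ctilt_succ v ha hS k
    rw [le_div_iff₀ (by positivity)] at ih ⊢
    refine le_trans ?_ h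
    generalize ∑ f : Fin k → Fin n, ∑ f' : Fin k → Fin n,
      (1 - ker1 a (∑ i, v (f i) - ∑ i, v (f' i))) = T at ih ⊢
    have hk : (0 : ℝ) ≤ k := Nat.cast_nonneg k
    have hM : (0 : ℝ) < (n : ℝ) ^ k := by positivity
    rw [pow_succ (n : ℝ) k]
    push_cast
    generalize (n : ℝ) ^ k = M at ih hM ⊢
    generalize (k : ℝ) = x at ih hk ⊢
    generalize (n : ℝ) = N at hN ⊢
    have a1 : (N ^ 2 * (1 - 6 * F)) * ((x * F - 3 * x ^ 2 * F ^ 2) * (M * M)) ≤
        (N ^ 2 * (1 - 6 * F)) * T :=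
      mul_le_mul_of_nonneg_left ih (mul_nonneg (sq_nonneg N) (by linarith))
    have a2 : 0 ≤ N ^ 2 * (M * M) * (18 * x ^ 2 * F ^ 3 + 3 * F ^ 2) := by positivity
    linarith

theorem ctilt_scale {A l m : ℝ} (hA : 0 ≤ A) (hl : 0 ≤ l) (hm : 1 ≤ m) (hlm : l ≤ m) :
    1 - 1 / (1 + l * A) ≤ m * (1 - 1 / (1 + A)) := by
  have h0 : 0 ≤ l * A := mul_nonneg hl hA
  have h1 : 0 < 1 + l * A := by linarith
  have h2 : 0 < 1 + A := by linarith
  have e1 : 1 - 1 / (1 + l * A) = l * A / (1 + l * A) := by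
    field_simp
    ring
  have e2 : m * (1 - 1 / (1 + A)) = m * A / (1 + A) := by
    field_simp
    ring
  rw [e1, e2, div_le_div_iff₀ h1 h2]
  have a1 : l * A ≤ m * A := mul_le_mul_of_nonneg_right hlm hA
  have a2 : 1 * (l * A * A) ≤ m * (l * A * A) :=
    mul_le_mul_of_nonneg_right hm (mul_nonneg h0 hA)
  linarith

theorem ctilt_four {a : ℝ} (ha : 0 ≤ a) (y : ℂ) : 1 - ker1 (a * 4) y ≤ 4 * (1 - ker1 a y) := by
  unfold ker1
  rw [mul_comm a 4, mul_assoc]
  exact ctilt_scale (by positivity) (by norm_num) (by norm_num) le_rfl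

theorem ctilt_mul {a m : ℝ} (ha : 0 ≤ a) {z : ℂ} (hm : 1 ≤ m) (hz : ‖z‖ ^ 2 ≤ m) (y : ℂ) :
    1 - ker1 a (z * y) ≤ m * (1 - ker1 a y) := by
  unfold ker1
  rw [norm_mul, mul_pow, mul_left_comm]
  exact ctilt_scale (by positivity) (sq_nonneg _) hm hz

theorem ctilt_small {v : Fin n → ℂ} (hv : nrm v = 1) :
    ∑ j, ∑ j', (1 - ker1 1 (v j - v j')) ≤ 4 * n := by
  have h1 : ∑ j, ‖v j‖ ^ 2 = 1 := by rw [← nrm_sq, hv, one_pow]
  have h : ∑ j, ∑ j', (1 - ker1 1 (v j - v j')) ≤ ∑ j, ∑ j', (2 * ‖v j‖ ^ 2 + 2 * ‖v j'‖ ^ 2) := by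
    refine sum_le_sum fun j _ => sum_le_sum fun j' _ => ?_
    have a1 : ‖v j - v j'‖ ^ 2 ≤ (‖v j‖ + ‖v j'‖) ^ 2 :=
      pow_le_pow_left₀ (norm_nonneg _) (norm_sub_le _ _) 2
    have a2 := sq_nonneg (‖v j‖ - ‖v j'‖)
    have a3 : 1 - ‖v j - v j'‖ ^ 2 ≤ ker1 1 (v j - v j') := by
      unfold ker1
      rw [one_mul, le_div_iff₀ (by positivity)]
      have := sq_nonneg (‖v j - v j'‖ ^ 2)
      linarith
    linarith
  simp only [sum_add_distrib, ← mul_sum, sum_const, card_univ, Fintype.card_fin,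
    nsmul_eq_mul, h1] at h
  linarith

theorem ctilt_large {v : Fin n → ℂ} {t φ a : ℝ} (ht : 0 ≤ t) (ha : 0 ≤ a) (hat : 1 ≤ a * t ^ 2)
    (h : Clus v t ((1 - φ) * n)) :
    φ / 2 * (n : ℝ) ^ 2 ≤ ∑ j, ∑ j', (1 - ker1 a (v j - v j')) := by
  classical
  rw [sum_comm]
  have h1 : ∀ j', φ / 2 * n ≤ ∑ j, (1 - ker1 a (v j - v j')) := by
    intro j'
    have a1 := h (v j')
    have a2 : ∑ j, (1 / 2 - 1 / 2 * (if ‖v j - v j'‖ ≤ t then (1 : ℝ) else 0)) ≤
        ∑ j, (1 - ker1 a (v j - v j')) := by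
      refine sum_le_sum fun j _ => ?_
      split_ifs with hj
      · have := ker1_le_one ha (v j - v j')
        linarith
      · have b1 : t ^ 2 ≤ ‖v j - v j'‖ ^ 2 := pow_le_pow_left₀ ht (not_le.1 hj).le 2
        have b2 := mul_le_mul_of_nonneg_left b1 ha
        have b3 : ker1 a (v j - v j') ≤ 1 / 2 :=
          one_div_le_one_div_of_le (by norm_num) (by linarith)
        linarith
    simp only [sum_sub_distrib, ← mul_sum, sum_const, card_univ, Fintype.card_fin,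
      nsmul_eq_mul, sum_boole] at a2 ⊢
    linarith
  have h2 := sum_le_sum fun j' (_ : j' ∈ (univ : Finset (Fin n))) => h1 j'
  rw [sum_const, card_univ, Fintype.card_fin, nsmul_eq_mul] at h2
  linarith

theorem ctilt_pick {α β : Type} [Fintype α] [Fintype β] {M N κ : ℝ} (hM : 0 < M) (hN : 0 < N)
    (hα : (Fintype.card α : ℝ) = M) (hβ : (Fintype.card β : ℝ) = N) (x : α → ℂ) (y : β → ℂ)
    (a : ℝ) (h : (∑ i, ∑ i', (1 - ker1 a (x i - x i'))) / (M * M) + 2 * κ <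
      (∑ f, ∑ f', (1 - ker1 a (y f - y f'))) / (N * N)) :
    ∃ ζ : ℂ, ((∃ i, ζ = x i) ∨ ∃ f, ζ = y f) ∧
      (∑ f, ker1 a (y f - ζ)) / N + κ ≤ (∑ i, ker1 a (x i - ζ)) / M := by
  by_contra hc
  push Not at hc
  have h1 := sum_le_sum fun i (_ : i ∈ (univ : Finset α)) => (hc (x i) (Or.inl ⟨i, rfl⟩)).le
  have h2 := sum_le_sum fun f (_ : f ∈ (univ : Finset β)) => (hc (y f) (Or.inr ⟨f, rfl⟩)).le
  have e : ∑ i, ∑ f, ker1 a (y f - x i) = ∑ f, ∑ i, ker1 a (x i - y f) := by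
    rw [sum_comm]
    refine sum_congr rfl fun f _ => sum_congr rfl fun i _ => ?_
    unfold ker1
    rw [norm_sub_rev]
  simp only [sum_add_distrib, sum_sub_distrib, ← sum_div, sum_const, card_univ, nsmul_eq_mul,
    hα, hβ, mul_one] at h h1 h2
  rw [e, sum_comm] at h1
  rw [sum_comm (f := fun f' f => ker1 a (y f - y f'))] at h2
  generalize ∑ i, ∑ i', ker1 a (x i - x i') = P at h h1
  generalize ∑ f, ∑ f', ker1 a (y f - y f') = Q at h h2
  generalize ∑ f, ∑ i, ker1 a (x i - y f) = T at h1 h2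
  have b1 := div_le_div_of_nonneg_right h1 hM.le
  have b2 := div_le_div_of_nonneg_right h2 hN.le
  have e1 : (M * M - P) / (M * M) = 1 - P / M / M := by field_simp
  have e2 : (N * N - Q) / (N * N) = 1 - Q / N / N := by field_simp
  have e3 : (T / N + M * κ) / M = T / M / N + κ := by field_simp
  have e4 : (Q / N + N * κ) / N = Q / N / N + κ := by field_simp
  rw [e1, e2] at h
  rw [e3] at b1
  rw [e4] at b2
  linarith

theorem tilt (hr : 3 ≤ r) {δ₀ φ' C : ℝ} (hδ : 0 < δ₀) (hφ : 0 < φ') (hC : 0 < C) :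
    ∃ κ : ℝ, 0 < κ ∧ κ ≤ 1 ∧ ∀ᶠ n : ℕ in atTop, ∀ (v : Fin n → ℂ) (z : ℂ), nrm v = 1 →
      ‖z‖ ^ 2 ≤ r - δ₀ → Clus v ((n : ℝ) ^ (-C)) ((1 - φ') * n) →
      ∃ (k : ℕ) (ζ : ℂ), (4 : ℝ) ^ k ≤ (n : ℝ) ^ (2 * C) ∧ ‖ζ‖ ≤ r ∧
        (∑ f : Fin r → Fin n, ker1 (4 ^ k) (∑ a, v (f a) - ζ)) / (n : ℝ) ^ r + κ
          ≤ (∑ i, ker1 (4 ^ k) (z * v i - ζ)) / n := by
  classical
  have hr' : (3 : ℝ) ≤ r := by exact_mod_cast hr
  obtain ⟨δ, hδ0, hδ1, hδ2⟩ : ∃ δ : ℝ, 0 < δ ∧ δ ≤ 1 ∧ δ ≤ δ₀ :=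
    ⟨min 1 δ₀, lt_min one_pos hδ, min_le_left _ _, min_le_right _ _⟩
  obtain ⟨F0, hF0, hF1, hF2⟩ : ∃ F0 : ℝ, 0 < F0 ∧ F0 ≤ φ' / 4 ∧ F0 ≤ δ / (6 * r ^ 2) :=
    ⟨min _ _, lt_min (by positivity) (by positivity), min_le_left _ _, min_le_right _ _⟩
  rw [le_div_iff₀ (by positivity)] at hF2
  have hr2 : (1 : ℝ) ≤ r ^ 2 := one_le_pow₀ (by linarith)
  have hF3 : 6 * F0 ≤ 1 := by
    have := mul_le_mul_of_nonneg_left hr2 hF0.le
    linarith
  refine ⟨δ * F0 / 16, by positivity, ?_, ?_⟩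
  · have := mul_le_mul_of_nonneg_right hδ1 hF0.le
    linarith
  filter_upwards [eventually_gt_atTop 0,
    (tendsto_natCast_atTop_atTop (R := ℝ)).eventually_ge_atTop (4 / F0)] with n hn hn2 v z hv hz hcl
  have hN : (0 : ℝ) < n := Nat.cast_pos.2 hn
  obtain ⟨G, hG⟩ : ∃ G : ℕ → ℝ,
      ∀ k, G k = (∑ j, ∑ j', (1 - ker1 (4 ^ k) (v j - v j'))) / (n : ℝ) ^ 2 := ⟨_, fun _ => rfl⟩
  have hG0 : G 0 ≤ F0 := by
    rw [hG, pow_zero, div_le_iff₀ (by positivity)]
    refine (ctilt_small hv).trans ?_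
    rw [div_le_iff₀ hF0] at hn2
    have := mul_le_mul_of_nonneg_right hn2 hN.le
    linarith
  have hG1 : ∀ k, (n : ℝ) ^ (2 * C) ≤ 4 ^ k → F0 < G k := by
    intro k hk
    have ht : (0 : ℝ) < (n : ℝ) ^ (-C) := Real.rpow_pos_of_pos hN _
    have e : (n : ℝ) ^ (2 * C) * ((n : ℝ) ^ (-C)) ^ 2 = 1 := by
      rw [sq, ← Real.rpow_add hN, ← Real.rpow_add hN, show 2 * C + (-C + -C) = 0 by ring,
        Real.rpow_zero]
    have h1 := ctilt_large (a := 4 ^ k) ht.le (by positivity)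
      (e.ge.trans (mul_le_mul_of_nonneg_right hk (sq_nonneg _))) hcl
    rw [← le_div_iff₀ (by positivity), ← hG] at h1
    linarith
  have hG2 : ∀ k, G (k + 1) ≤ 4 * G k := by
    intro k
    rw [hG, hG, ← mul_div_assoc, mul_sum, pow_succ (4 : ℝ) k]
    refine div_le_div_of_nonneg_right (sum_le_sum fun j _ => ?_) (by positivity)
    rw [mul_sum]
    exact sum_le_sum fun j' _ => ctilt_four (by positivity) _
  have hex : ∃ k, F0 < G (k + 1) := by
    obtain ⟨k, hk⟩ := pow_unbounded_of_one_lt ((n : ℝ) ^ (2 * C)) (by norm_num : (1 : ℝ) < 4)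
    exact ⟨k, hG1 _ (hk.le.trans (pow_le_pow_right₀ (by norm_num) (Nat.le_succ k)))⟩
  obtain ⟨k, hk1, hk2⟩ : ∃ k, F0 < G (k + 1) ∧ G k ≤ F0 := by
    refine ⟨Nat.find hex, Nat.find_spec hex, ?_⟩
    rcases h : Nat.find hex with _ | m
    · exact hG0
    · exact not_lt.1 (Nat.find_min hex (m := m) (by omega))
  have hk3 := hG2 k
  have ha : (0 : ℝ) ≤ 4 ^ k := by positivity
  have hQ := sym_sum hn v ha (hG k) (by linarith) r
  have hP : (∑ i, ∑ i', (1 - ker1 (4 ^ k) (z * v i - z * v i'))) / ((n : ℝ) * n) ≤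
      (r - δ) * G k := by
    rw [hG, ← mul_div_assoc, mul_sum, sq]
    refine div_le_div_of_nonneg_right (sum_le_sum fun j _ => ?_) (by positivity)
    rw [mul_sum]
    refine sum_le_sum fun j' _ => ?_
    rw [← mul_sub]
    exact ctilt_mul ha (by linarith) (by linarith) _
  have hlt : (∑ i, ∑ i', (1 - ker1 (4 ^ k) (z * v i - z * v i'))) / ((n : ℝ) * n)
      + 2 * (δ * F0 / 16) < r * G k - 3 * r ^ 2 * G k ^ 2 := by
    have hp : 0 < G k := by linarith
    have a1 : G k * (6 * r ^ 2) ≤ F0 * (6 * r ^ 2) :=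
      mul_le_mul_of_nonneg_right hk2 (by positivity)
    have a2 : G k * (G k * (6 * r ^ 2)) ≤ G k * δ :=
      mul_le_mul_of_nonneg_left (a1.trans hF2) hp.le
    have a3 : δ * F0 < δ * (4 * G k) := mul_lt_mul_of_pos_left (by linarith) hδ0
    linarith
  obtain ⟨ζ, h1, h2⟩ := ctilt_pick (M := n) (N := (n : ℝ) ^ r) hN (by positivity)
    (by rw [Fintype.card_fin]) (by simp only [Fintype.card_fun, Fintype.card_fin, Nat.cast_pow])
    (fun i => z * v i) (fun f : Fin r → Fin n => ∑ a, v (f a)) (4 ^ k) (hlt.trans_le hQ)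
  have hv1 : ∀ i, ‖v i‖ ≤ 1 := fun i => (norm_le_nrm v i).trans hv.le
  refine ⟨k, ζ, ?_, ?_, h2⟩
  · by_contra hc
    have := hG1 k (not_le.1 hc).le
    linarith
  · rcases h1 with ⟨i, rfl⟩ | ⟨f, rfl⟩
    · have b1 : ‖z‖ ≤ r := by
        refine (pow_le_pow_iff_left₀ (norm_nonneg _) (by linarith) two_ne_zero).1 ?_
        have := mul_le_mul_of_nonneg_left hr' (by linarith : (0 : ℝ) ≤ r)
        linarith
      rw [norm_mul]
      exact (mul_le_of_le_one_right (norm_nonneg _) (hv1 i)).trans b1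
    · refine (norm_sum_le _ _).trans ((sum_le_sum fun a _ => hv1 (f a)).trans ?_)
      rw [sum_const, card_univ, Fintype.card_fin, nsmul_eq_mul, mul_one]

end Pool.Agent.OKM

end FileCTilt

section FileC2Grid

/-!
Grids and weights for Case 2 of Theorem C. `fi s w` is the fine cell of `w`, `co B o` the coarse cell
(side `B`, offset `o`) of a fine cell, `ctr` a corner of a coarse cell.
`co_eq_of_inner`: `Int.ediv`/`Int.emod` arithmetic: if `(e - o) % B ∈ [2, B-3]` and `|e' - e| ≤ 2` then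
`(e' - o)/B = (e - o)/B`. `fi_add_close`: `⌊x⌋ + ⌊y⌋ ∈ (x + y - 2, x + y]`.
`offset`: for each integer `e` at most 4 values `o < B` have `(e - o) % B ∉ [2, B-3]`; double count.
`c2_logs`: take logarithms; `log (1+x) ≥ x - x^2` for `x ≥ 0`, `log (1 - δ) ≥ -2δ` for `δ ≤ 1/2`,
`log Z ≤ Z - 1`.
-/

open Finset

namespace Pool.Agent.OKM

variable {n r : ℕ}

noncomputable def fi (s : ℝ) (w : ℂ) : ℤ × ℤ := (⌊w.re / s⌋, ⌊w.im / s⌋)

def co (B o : ℕ) (e : ℤ × ℤ) : ℤ × ℤ := ((e.1 - o) / B, (e.2 - o) / B)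

noncomputable def ctr (s : ℝ) (B o : ℕ) (c : ℤ × ℤ) : ℂ :=
  ⟨s * (c.1 * B + o), s * (c.2 * B + o)⟩

noncomputable def box (R : ℕ) : Finset (ℤ × ℤ) := Icc (-(R : ℤ)) R ×ˢ Icc (-(R : ℤ)) R

def Inner (B o : ℕ) (e : ℤ × ℤ) : Prop :=
  2 ≤ (e.1 - o) % B ∧ (e.1 - o) % B + 3 ≤ B ∧ 2 ≤ (e.2 - o) % B ∧ (e.2 - o) % B + 3 ≤ B

def wT (B o : ℕ) {m : ℕ} (A A' : Fin m → ℤ × ℤ) : Finset (ℤ × ℤ) :=
  univ.image fun p : Fin m × Fin m => co B o (A p.1 + A' p.2)

noncomputable def wpsi (s : ℝ) (B o : ℕ) (a : ℝ) (c0 c : ℤ × ℤ) : ℝ :=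
  ker1 a (ctr s B o c - ctr s 1 0 c0)

noncomputable def wq (s : ℝ) (B o : ℕ) (a θ : ℝ) (c0 : ℤ × ℤ) {m : ℕ} (A A' : Fin m → ℤ × ℤ)
    (c : ℤ × ℤ) : ℝ :=
  (univ.filter fun p : Fin m × Fin m => co B o (A p.1 + A' p.2) = c).card
    * (1 + θ * wpsi s B o a c0 c)
    / ∑ p : Fin m × Fin m, (1 + θ * wpsi s B o a c0 (co B o (A p.1 + A' p.2)))

theorem card_box (R : ℕ) : (box R).card = (2 * R + 1) ^ 2 := by
  have h : (Icc (-(R : ℤ)) R).card = 2 * R + 1 := by
    rw [Int.card_Icc]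
    omega
  rw [box, card_product, h, sq]

theorem c2grid_fl {s x y : ℝ} (hs : 0 < s) {R : ℕ} (hx : |x| ≤ y) (h : y / s + 1 ≤ R) :
    ⌊x / s⌋ ∈ Icc (-(R : ℤ)) R := by
  have h1 : |x / s| ≤ y / s := by
    rw [abs_div, abs_of_pos hs]
    gcongr
  obtain ⟨h2, h3⟩ := abs_le.1 h1
  rw [mem_Icc, Int.le_floor, Int.floor_le_iff]
  push_cast
  constructor <;> linarith

theorem fi_mem_box {s : ℝ} (hs : 0 < s) {w : ℂ} {R : ℕ} (h : ‖w‖ / s + 1 ≤ R) : fi s w ∈ box R :=
  mem_product.2 ⟨c2grid_fl hs (Complex.abs_re_le_norm w) h,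
    c2grid_fl hs (Complex.abs_im_le_norm w) h⟩

theorem c2grid_div {B : ℕ} (hB : 1 ≤ B) (o : ℕ) (e : ℤ) :
    (e : ℝ) - B + 1 ≤ ((e - o) / B : ℤ) * B + o ∧ (((e - o) / B : ℤ) : ℝ) * B + o ≤ e := by
  have h0 : (0 : ℤ) < B := by exact_mod_cast hB
  have h1 := Int.emod_add_ediv_mul (e - o) B
  have h2 := Int.emod_nonneg (e - o) h0.ne'
  have h3 := Int.emod_lt_of_pos (e - o) h0
  constructor
  · have : e - B + 1 ≤ (e - o) / B * B + o := by linarith
    exact_mod_cast this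
  · have : (e - o) / B * B + o ≤ e := by linarith
    exact_mod_cast this

theorem c2grid_abs {s x c K : ℝ} (hs : 0 < s) (h1 : c ≤ x / s) (h2 : x / s ≤ c + K) :
    |s * c - x| ≤ K * s := by
  rw [le_div_iff₀ hs] at h1
  rw [div_le_iff₀ hs] at h2
  rw [abs_le]
  constructor <;> nlinarith

theorem c2grid_norm {z : ℂ} {K : ℝ} (h1 : |z.re| ≤ K) (h2 : |z.im| ≤ K) : ‖z‖ ≤ 2 * K := by
  linarith [Complex.norm_le_abs_re_add_abs_im z]

theorem c2grid_one {s : ℝ} (hs : 0 < s) {B : ℕ} (hB : 1 ≤ B) (o : ℕ) (x : ℝ) :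
    |s * (((⌊x / s⌋ - o) / B : ℤ) * B + o) - x| ≤ B * s := by
  obtain ⟨h1, h2⟩ := c2grid_div hB o ⌊x / s⌋
  exact c2grid_abs hs (h2.trans (Int.floor_le _)) (by linarith [Int.lt_floor_add_one (x / s)])

theorem c2grid_two {s : ℝ} (hs : 0 < s) {B : ℕ} (hB : 1 ≤ B) (o : ℕ) (x y : ℝ) :
    |s * (((⌊x / s⌋ + ⌊y / s⌋ - o) / B : ℤ) * B + o) - (x + y)| ≤ (B + 1) * s := by
  obtain ⟨h1, h2⟩ := c2grid_div hB o (⌊x / s⌋ + ⌊y / s⌋)
  rw [Int.cast_add] at h1 h2
  refine c2grid_abs hs ?_ ?_ <;> rw [add_div]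
  · linarith [Int.floor_le (x / s), Int.floor_le (y / s)]
  · linarith [Int.lt_floor_add_one (x / s), Int.lt_floor_add_one (y / s)]

theorem ctr_co_fi {s : ℝ} (hs : 0 < s) {B : ℕ} (hB : 1 ≤ B) (o : ℕ) (w : ℂ) :
    ‖ctr s B o (co B o (fi s w)) - w‖ ≤ 2 * B * s := by
  rw [mul_assoc]
  exact c2grid_norm (c2grid_one hs hB o w.re) (c2grid_one hs hB o w.im)

theorem ctr_fi {s : ℝ} (hs : 0 < s) (w : ℂ) : ‖ctr s 1 0 (fi s w) - w‖ ≤ 2 * s := by
  simpa [co] using ctr_co_fi hs le_rfl 0 w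

theorem ctr_co_add {s : ℝ} (hs : 0 < s) {B : ℕ} (hB : 1 ≤ B) (o : ℕ) (w w' : ℂ) :
    ‖ctr s B o (co B o (fi s w + fi s w')) - (w + w')‖ ≤ 2 * (B + 1) * s := by
  rw [mul_assoc]
  exact c2grid_norm (c2grid_two hs hB o w.re w'.re) (c2grid_two hs hB o w.im w'.im)

theorem c2grid_eq {s x y t : ℝ} (hs : 0 < s) {B o : ℕ} (h1 : 2 ≤ (⌊t / s⌋ - o) % B)
    (h2 : (⌊t / s⌋ - o) % B + 3 ≤ B) (h : |x + y - t| ≤ s) :
    (⌊x / s⌋ + ⌊y / s⌋ - o) / B = (⌊t / s⌋ - o) / B := by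
  have h3 : |x / s + y / s - t / s| ≤ 1 := by
    rw [← add_div, ← sub_div, abs_div, abs_of_pos hs, div_le_one hs]
    exact h
  obtain ⟨h4, h5⟩ := abs_le.1 h3
  have a1 : ⌊x / s⌋ + ⌊y / s⌋ < ⌊t / s⌋ + 2 := by
    have : (⌊x / s⌋ : ℝ) + ⌊y / s⌋ < ⌊t / s⌋ + 2 := by
      linarith [Int.floor_le (x / s), Int.floor_le (y / s), Int.lt_floor_add_one (t / s)]
    exact_mod_cast this
  have a2 : ⌊t / s⌋ < ⌊x / s⌋ + ⌊y / s⌋ + 3 := by
    have : (⌊t / s⌋ : ℝ) < ⌊x / s⌋ + ⌊y / s⌋ + 3 := by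
      linarith [Int.floor_le (t / s), Int.lt_floor_add_one (x / s), Int.lt_floor_add_one (y / s)]
    exact_mod_cast this
  have h0 : (0 : ℤ) < B := by linarith
  have e := Int.emod_add_ediv_mul (⌊t / s⌋ - o) B
  refine ((Int.ediv_emod_unique h0 (r := (⌊t / s⌋ - o) % B + (⌊x / s⌋ + ⌊y / s⌋ - ⌊t / s⌋))).2
    ⟨?_, ?_, ?_⟩).1 <;> linarith

theorem co_eq_of_inner {s : ℝ} (hs : 0 < s) {B o : ℕ} {w w' u : ℂ} (h : Inner B o (fi s u))
    (hw : ‖w + w' - u‖ ≤ s) : co B o (fi s w + fi s w') = co B o (fi s u) :=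
  Prod.ext (c2grid_eq hs h.1 h.2.1 ((Complex.abs_re_le_norm (w + w' - u)).trans hw))
    (c2grid_eq hs h.2.2.1 h.2.2.2 ((Complex.abs_im_le_norm (w + w' - u)).trans hw))

theorem c2grid_four {B : ℕ} (x : ℤ) :
    ((range B).filter fun o : ℕ => ¬ (2 ≤ (x - o) % B ∧ (x - o) % B + 3 ≤ B)).card ≤ 4 := by
  refine (card_le_card_of_injOn (t := ({0, 1, (B : ℤ) - 2, (B : ℤ) - 1} : Finset ℤ))
    (fun o : ℕ => (x - o) % B) (fun o ho => ?_) fun o ho o' ho' h => ?_).trans card_le_four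
  · obtain ⟨h1, h2⟩ := mem_filter.1 (mem_coe.1 ho)
    have h0 : (0 : ℤ) < B := by have := mem_range.1 h1; omega
    have h3 := Int.emod_nonneg (x - o) h0.ne'
    have h4 := Int.emod_lt_of_pos (x - o) h0
    simp only [coe_insert, coe_singleton, Set.mem_insert_iff, Set.mem_singleton_iff]
    omega
  · have h1 := mem_range.1 (mem_filter.1 (mem_coe.1 ho)).1
    have h2 := mem_range.1 (mem_filter.1 (mem_coe.1 ho')).1
    have h3 : (B : ℤ) ∣ x - o' - (x - o) := Int.ModEq.dvd h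
    have h4 := Int.eq_zero_of_abs_lt_dvd h3 (by rw [abs_lt]; omega)
    omega

open Classical in
theorem offset {B : ℕ} (hB : 1 ≤ B) (e : Fin n → ℤ × ℤ) :
    ∃ o < B, (univ.filter fun i => ¬ Inner B o (e i)).card * B ≤ 8 * n := by
  have h1 : ∀ i, ((range B).filter fun o => ¬ Inner B o (e i)).card ≤ 8 := fun i => by
    refine (card_le_card (t := _ ∪ _) fun o ho => ?_).trans ((card_union_le _ _).trans
      (add_le_add (c2grid_four (B := B) (e i).1) (c2grid_four (B := B) (e i).2)))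
    obtain ⟨h1, h2⟩ := mem_filter.1 ho
    simp only [mem_union, mem_filter, Inner] at h2 ⊢
    tauto
  have h2 : ∑ o ∈ range B, (univ.filter fun i => ¬ Inner B o (e i)).card ≤ 8 * n := by
    simp only [card_filter] at h1 ⊢
    rw [sum_comm]
    refine (sum_le_sum fun i _ => h1 i).trans ?_
    simp [mul_comm]
  obtain ⟨o, ho, h⟩ := exists_le_of_sum_le (s := range B) ⟨0, mem_range.2 hB⟩
    (f := fun o => (univ.filter fun i => ¬ Inner B o (e i)).card * B) (g := fun _ => 8 * n) (by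
      rw [← sum_mul, sum_const, card_range, smul_eq_mul, mul_comm]
      exact Nat.mul_le_mul_left _ h2)
  exact ⟨o, mem_range.1 ho, h⟩

theorem c2grid_w (s : ℝ) (B o : ℕ) {a θ : ℝ} (ha : 0 ≤ a) (hθ : 0 ≤ θ) (c0 c : ℤ × ℤ) :
    0 ≤ 1 + θ * wpsi s B o a c0 c := by
  unfold wpsi ker1
  positivity

theorem wq_nonneg (s : ℝ) (B o : ℕ) {a θ : ℝ} (ha : 0 ≤ a) (hθ : 0 ≤ θ) (c0 : ℤ × ℤ) {m : ℕ}
    (A A' : Fin m → ℤ × ℤ) (c : ℤ × ℤ) : 0 ≤ wq s B o a θ c0 A A' c :=
  div_nonneg (mul_nonneg (Nat.cast_nonneg _) (c2grid_w s B o ha hθ _ _))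
    (sum_nonneg fun _ _ => c2grid_w s B o ha hθ _ _)

theorem wq_sum (s : ℝ) (B o : ℕ) {a θ : ℝ} (ha : 0 ≤ a) (hθ : 0 ≤ θ) (c0 : ℤ × ℤ) {m : ℕ}
    (A A' : Fin m → ℤ × ℤ) : ∑ c ∈ wT B o A A', wq s B o a θ c0 A A' c ≤ 1 := by
  have h := sum_comp (s := (univ : Finset (Fin m × Fin m))) (fun c => 1 + θ * wpsi s B o a c0 c)
    fun p : Fin m × Fin m => co B o (A p.1 + A' p.2)
  simp only [nsmul_eq_mul] at h
  simp only [wq, wT]
  rw [← sum_div, ← h]
  exact div_self_le_one _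

theorem c2grid_l1 {x : ℝ} (hx : 0 ≤ x) : x - x ^ 2 ≤ Real.log (1 + x) := by
  have h := Real.one_sub_inv_le_log_of_pos (x := 1 + x) (by positivity)
  have h2 : (1 + x)⁻¹ ≤ 1 - x + x ^ 2 := by
    rw [inv_le_iff_one_le_mul₀ (by positivity)]
    nlinarith [pow_nonneg hx 3]
  linarith

theorem c2grid_l2 {x : ℝ} (hx : 0 ≤ x) (hx2 : x ≤ 1 / 2) : -(2 * x) ≤ Real.log (1 - x) := by
  have h := Real.one_sub_inv_le_log_of_pos (x := 1 - x) (by linarith)
  have h2 : (1 - x)⁻¹ ≤ 1 + 2 * x := by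
    rw [inv_le_iff_one_le_mul₀ (by linarith)]
    nlinarith
  linarith

theorem c2_logs {X Y : Finset (Fin n)} (hXY : X ⊆ Y) (pS ps ψ q : Fin n → ℝ)
    {p1 u δ θ κ EQ Z : ℝ} (hp1 : 0 < p1) (hp11 : p1 ≤ 1) (hps : ∀ i, p1 ≤ ps i)
    (hpS : ∀ i, ps i ≤ pS i) (hsum : ∑ i, Real.log (pS i) ≤ ∑ i, Real.log (ps i) + u)
    (hδ : 0 ≤ δ) (hδ2 : δ ≤ 1 / 2) (hθ : 0 ≤ θ) (hθ1 : θ ≤ 1) (hψ0 : ∀ i, 0 ≤ ψ i)
    (hψ1 : ∀ i, ψ i ≤ 1) (hEQ : 0 ≤ EQ) (hZ0 : 0 < Z) (hZ : Z ≤ 1 + θ * (EQ + 2 * δ))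
    (hψ : n * (EQ + κ) - X.card - n * δ ≤ ∑ i ∈ Xᶜ, ψ i)
    (hq : ∀ i ∉ X, (1 - δ) * ps i * (1 + θ * ψ i) / Z ≤ q i) :
    ∏ i ∈ Yᶜ, pS i ≤ Real.exp (-(n * θ * κ) + n * θ ^ 2 + 5 * δ * n + X.card + u
      - Y.card * Real.log p1) * ∏ i ∈ Xᶜ, q i := by
  have ps0 : ∀ i, 0 < ps i := fun i => hp1.trans_le (hps i)
  have pS0 : ∀ i, 0 < pS i := fun i => (ps0 i).trans_le (hpS i)
  have hd : 0 < 1 - δ := by linarith
  have hw : ∀ i, 0 < 1 + θ * ψ i := fun i => by have := hψ0 i; positivity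
  have hc : 0 ≤ 2 * δ + θ ^ 2 + θ * (EQ + 2 * δ) := by positivity
  have hq' : ∀ i ∈ Xᶜ, Real.exp (Real.log (ps i) + θ * ψ i
      - (2 * δ + θ ^ 2 + θ * (EQ + 2 * δ))) ≤ q i := fun i hi => by
    refine le_trans ?_ (hq i (mem_compl.1 hi))
    have p1 := ps0 i
    have p2 := hw i
    rw [← Real.le_log_iff_exp_le (by positivity), Real.log_div (by positivity) hZ0.ne',
      Real.log_mul (by positivity) p2.ne', Real.log_mul hd.ne' p1.ne']
    have a1 := c2grid_l1 (mul_nonneg hθ (hψ0 i))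
    have a2 := c2grid_l2 hδ hδ2
    have a3 := Real.log_le_sub_one_of_pos hZ0
    have a4 : (θ * ψ i) ^ 2 ≤ θ ^ 2 :=
      pow_le_pow_left₀ (mul_nonneg hθ (hψ0 i)) (mul_le_of_le_one_right hθ (hψ1 i)) 2
    linarith
  have hprod := prod_le_prod (fun i _ => (Real.exp_pos _).le) hq'
  refine le_trans ?_ (mul_le_mul_of_nonneg_left hprod (Real.exp_pos _).le)
  rw [← Real.exp_sum, ← Real.exp_add, ← Real.log_le_iff_le_exp (prod_pos fun i _ => pS0 i),
    Real.log_prod fun i _ => (pS0 i).ne', sum_sub_distrib, sum_add_distrib, ← mul_sum, sum_const,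
    nsmul_eq_mul]
  have l1 : Real.log p1 ≤ 0 := Real.log_nonpos hp1.le hp11
  have b1 := sum_add_sum_compl Y fun i => Real.log (pS i)
  have b2 := sum_add_sum_compl X fun i => Real.log (ps i)
  have b3 := sum_sdiff hXY (f := fun i => Real.log (pS i))
  have b4 : ∑ i ∈ X, Real.log (ps i) ≤ ∑ i ∈ X, Real.log (pS i) :=
    sum_le_sum fun i _ => Real.log_le_log (ps0 i) (hpS i)
  have b5 : (Y \ X).card * Real.log p1 ≤ ∑ i ∈ Y \ X, Real.log (pS i) := by
    rw [← nsmul_eq_mul]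
    exact card_nsmul_le_sum _ _ _ fun i _ => Real.log_le_log hp1 ((hps i).trans (hpS i))
  have b6 : Y.card * Real.log p1 ≤ (Y \ X).card * Real.log p1 :=
    mul_le_mul_of_nonpos_right (Nat.cast_le.2 (card_le_card sdiff_subset)) l1
  have b7 : ((Xᶜ).card : ℝ) ≤ n := by
    exact_mod_cast (card_le_univ _).trans_eq (Fintype.card_fin n)
  have b8 := mul_le_mul_of_nonneg_right b7 hc
  have b9 := mul_le_mul_of_nonneg_left hψ hθ
  have b10 : θ * X.card ≤ X.card := mul_le_of_le_one_left (Nat.cast_nonneg _) hθ1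
  have b11 : θ * (δ * n) ≤ δ * n := mul_le_of_le_one_left (by positivity) hθ1
  linarith

end Pool.Agent.OKM

end FileC2Grid

end
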