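import Pool.Agent.MP_5d5bd1_pr.Core

-- part MP_5d5bd1_pr.KLemA
section

section FileKLin

/-!
Linear algebra for Lemma K.
`finrank_add_le`: `K` injects into functions on the complement of `F`.
`kill`: `K ⊓ ker f`, rank-nullity (`LinearMap.finrank_range_add_finrank_ker` for `f.domRestrict K`).
`zero_out`: `K' = K.map (offS L)` (a linear map, injective on `K` because
`nrm (offS L y) ≥ (1 - ε) nrm y`), `app (offS L y) = app y - app (onS L y)`, `nrm_app_le`.
`trim`: take a maximal `m` such that there is an orthonormal family `u₁..u_m` in `K` (viewed in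
`EuclideanSpace`) with `nrm (onS L u_k) > ε` (`m ≤ n`); `K' = K ⊓ (span u)ᗮ`. For each `a ∈ L`,
`A = ∑ k, ‖u_k a‖^2` satisfies `A ≤ ϑ √A` (test with `y = ∑ k, conj (u_k a) • u_k ∈ K`), so
`m ε^2 ≤ ∑_k ∑_{a ∈ L} ‖u_k a‖^2 ≤ ϑ^2 |L| ≤ ε^2 d`. An equivalent route is induction on `d` with the
quantity `∑_{a ∈ L} (norm of the functional y ↦ y a on K)^2`.
-/

open Finset

namespace Pool.Agent.OKM

variable {n r : ℕ}

theorem finrank_add_le (K : Submodule ℂ (Fin n → ℂ)) (F : Finset (Fin n))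
    (hF : ∀ y ∈ K, ∀ a ∈ F, y a = 0) : Module.finrank ℂ K + F.card ≤ n := by
  let f : (Fin n → ℂ) →ₗ[ℂ] (↥(Fᶜ) → ℂ) := LinearMap.funLeft ℂ ℂ Subtype.val
  have hinj : Function.Injective (f.domRestrict K) := by
    rw [injective_iff_map_eq_zero]
    intro y hy
    apply Subtype.ext
    funext a
    by_cases ha : a ∈ F
    · exact hF y.1 y.2 a ha
    · exact congrFun hy ⟨a, mem_compl.2 ha⟩
  have h1 := LinearMap.finrank_le_finrank_of_injective hinj
  rw [Module.finrank_fintype_fun_eq_card, Fintype.card_coe] at h1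
  have h2 := Finset.card_add_card_compl F
  rw [Fintype.card_fin] at h2
  omega

theorem kill {ι : Type} [Fintype ι] (K : Submodule ℂ (Fin n → ℂ))
    (f : (Fin n → ℂ) →ₗ[ℂ] (ι → ℂ)) :
    ∃ K' ≤ K, Module.finrank ℂ K ≤ Module.finrank ℂ K' + Fintype.card ι ∧
      ∀ y ∈ K', f y = 0 := by
  refine ⟨(LinearMap.ker (f.domRestrict K)).map K.subtype, Submodule.map_subtype_le _ _, ?_, ?_⟩
  · rw [Submodule.finrank_map_subtype_eq]
    have h1 := LinearMap.finrank_range_add_finrank_ker (f.domRestrict K)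
    have h2 := Submodule.finrank_le (LinearMap.range (f.domRestrict K))
    rw [Module.finrank_fintype_fun_eq_card] at h2
    omega
  · rintro y ⟨x, hx, rfl⟩
    exact hx

theorem kill_coords (K : Submodule ℂ (Fin n → ℂ)) (Cn : Finset (Fin n)) :
    ∃ K' ≤ K, Module.finrank ℂ K ≤ Module.finrank ℂ K' + Cn.card ∧
      ∀ y ∈ K', ∀ a ∈ Cn, y a = 0 := by
  obtain ⟨K', h1, h2, h3⟩ :=
    kill K (LinearMap.funLeft ℂ ℂ (Subtype.val : ↥Cn → Fin n))
  rw [Fintype.card_coe] at h2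
  exact ⟨K', h1, h2, fun y hy a ha => congrFun (h3 y hy) ⟨a, ha⟩⟩

/-- `offS` as a linear map -/
noncomputable def klin_off (L : Finset (Fin n)) : (Fin n → ℂ) →ₗ[ℂ] (Fin n → ℂ) where
  toFun := offS L
  map_add' := offS_add L
  map_smul' := offS_smul L

theorem zero_out (π : Cfg n r) {z : ℂ} (hz : ‖z‖ ≤ r) (J F L : Finset (Fin n))
    (K : Submodule ℂ (Fin n → ℂ)) {t ε : ℝ} (ht : 0 ≤ t) (hε : 0 ≤ ε) (hε2 : ε ≤ 1 / 2)
    (hF : ∀ y ∈ K, ∀ a ∈ F, y a = 0)
    (hK : ∀ y ∈ K, nrm (offS J (app π z y)) ≤ t * nrm y)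
    (hL : ∀ y ∈ K, nrm (onS L y) ≤ ε * nrm y) :
    KS π z J (F ∪ L) (Module.finrank ℂ K) (2 * (t + 2 * r * ε)) := by
  have hlow : ∀ y ∈ K, nrm y ≤ 2 * nrm (offS L y) := by
    intro y hy
    have h1 := nrm_add_le (onS L y) (offS L y)
    rw [onS_add_offS] at h1
    have h2 := hL y hy
    have h3 : ε * nrm y ≤ 1 / 2 * nrm y := mul_le_mul_of_nonneg_right hε2 (nrm_nonneg y)
    linarith
  have hinj : Function.Injective ((klin_off L).domRestrict K) := by
    rw [injective_iff_map_eq_zero]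
    intro y hy
    have h1 : offS L y.1 = 0 := hy
    have h2 := hlow y.1 y.2
    rw [h1, nrm_zero, mul_zero] at h2
    exact Subtype.ext (nrm_eq_zero.1 (le_antisymm h2 (nrm_nonneg _)))
  refine ⟨LinearMap.range ((klin_off L).domRestrict K),
    (LinearMap.finrank_range_of_inj hinj).ge, ?_, ?_⟩
  · rintro _ ⟨y, rfl⟩ a ha
    show offS L y.1 a = 0
    unfold offS
    split_ifs with h
    · rfl
    · exact hF y.1 y.2 a ((mem_union.1 ha).resolve_right h)
  · rintro _ ⟨⟨y, hy⟩, rfl⟩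
    show nrm (offS J (app π z (offS L y))) ≤ 2 * (t + 2 * r * ε) * nrm (offS L y)
    have h1 : offS L y = y - onS L y := by
      rw [eq_sub_iff_add_eq, add_comm, onS_add_offS]
    have h2 : nrm (offS J (app π z (offS L y))) ≤
        nrm (offS J (app π z y)) + nrm (offS J (app π z (onS L y))) := by
      rw [h1, app_sub, offS_sub]
      exact nrm_sub_le _ _
    have h3 : nrm (offS J (app π z (onS L y))) ≤ 2 * r * (ε * nrm y) := by
      refine (nrm_offS_le _ _).trans ((nrm_app_le π z _).trans ?_)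
      exact mul_le_mul (by linarith) (hL y hy) (nrm_nonneg _) (by positivity)
    have h4 : (t + 2 * r * ε) * nrm y ≤ (t + 2 * r * ε) * (2 * nrm (offS L y)) :=
      mul_le_mul_of_nonneg_left (hlow y hy) (by positivity)
    have h5 := hK y hy
    linarith

theorem KS.mono {π : Cfg n r} {z : ℂ} {J F : Finset (Fin n)} {b b' : ℕ} {t t' : ℝ}
    (h : KS π z J F b t) (hb : b' ≤ b) (ht : t ≤ t') : KS π z J F b' t' := by
  obtain ⟨K, h1, h2, h3⟩ := h
  exact ⟨K, hb.trans h1, h2, fun y hy =>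
    (h3 y hy).trans (mul_le_mul_of_nonneg_right ht (nrm_nonneg y))⟩

theorem klin_pyth {x y : Fin n → ℂ} (h : ∑ i, x i * (starRingEnd ℂ) (y i) = 0) :
    nrm (x + y) ^ 2 = nrm x ^ 2 + nrm y ^ 2 := by
  have h1 : ∑ i, (x i * (starRingEnd ℂ) (y i)).re = 0 := by
    rw [← Complex.re_sum, h, Complex.zero_re]
  simp only [nrm_sq, ← Complex.normSq_eq_norm_sq, Pi.add_apply, Complex.normSq_add,
    sum_add_distrib, ← mul_sum, h1]
  ring

/-- pairing against a fixed vector -/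
noncomputable def klin_pair (u : Fin n → ℂ) : (Fin n → ℂ) →ₗ[ℂ] (Unit → ℂ) where
  toFun y := fun _ => ∑ i, y i * (starRingEnd ℂ) (u i)
  map_add' x y := by
    funext _
    simp only [Pi.add_apply, add_mul, sum_add_distrib]
  map_smul' c y := by
    funext _
    simp only [Pi.smul_apply, smul_eq_mul, RingHom.id_apply, mul_sum, mul_assoc]

theorem klin_step {K : Submodule ℂ (Fin n → ℂ)} {a : Fin n} {c : ℝ}
    (hc : ∀ y ∈ K, ‖y a‖ ^ 2 ≤ c * nrm y ^ 2) {u y : Fin n → ℂ} (hu : u ∈ K) (hu1 : nrm u = 1)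
    (hy : y ∈ K) (h : ∑ i, y i * (starRingEnd ℂ) (u i) = 0) :
    ‖y a‖ ^ 2 ≤ (c - ‖u a‖ ^ 2) * nrm y ^ 2 := by
  have hc0 : 0 ≤ c := by
    have := hc u hu
    rw [hu1] at this
    have := sq_nonneg ‖u a‖
    linarith
  obtain ⟨N, hN⟩ : ∃ N : ℝ, N = nrm y ^ 2 := ⟨_, rfl⟩
  have hN0 : 0 ≤ N := hN ▸ sq_nonneg _
  have hw := hc _ (K.add_mem (K.smul_mem ((starRingEnd ℂ) (y a)) hy)
    (K.smul_mem ((N : ℂ) * (starRingEnd ℂ) (u a)) hu))
  have horth : ∑ i, ((starRingEnd ℂ) (y a) • y) i *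
      (starRingEnd ℂ) ((((N : ℂ) * (starRingEnd ℂ) (u a)) • u) i) = 0 := by
    have e : ∀ i, ((starRingEnd ℂ) (y a) • y) i *
        (starRingEnd ℂ) ((((N : ℂ) * (starRingEnd ℂ) (u a)) • u) i) =
        ((starRingEnd ℂ) (y a) * (starRingEnd ℂ) ((N : ℂ) * (starRingEnd ℂ) (u a))) *
          (y i * (starRingEnd ℂ) (u i)) := by
      intro i
      simp only [Pi.smul_apply, smul_eq_mul]
      rw [map_mul (starRingEnd ℂ) _ (u i)]
      ring
    simp only [e, ← mul_sum, h, mul_zero]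
  have hval : ((starRingEnd ℂ) (y a) • y + ((N : ℂ) * (starRingEnd ℂ) (u a)) • u) a =
      ((‖y a‖ ^ 2 + N * ‖u a‖ ^ 2 : ℝ) : ℂ) := by
    simp only [Pi.add_apply, Pi.smul_apply, smul_eq_mul, mul_assoc, Complex.conj_mul']
    push_cast
    ring
  rw [klin_pyth horth, hval, nrm_smul, nrm_smul, hu1, Complex.norm_real, Real.norm_eq_abs, sq_abs,
    norm_mul, Complex.norm_conj, Complex.norm_conj, Complex.norm_real, Real.norm_eq_abs,
    abs_of_nonneg hN0, mul_pow, ← hN] at hw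
  rw [← hN]
  have hp : 0 ≤ ‖y a‖ ^ 2 := sq_nonneg _
  have hq : 0 ≤ ‖u a‖ ^ 2 := sq_nonneg _
  have hw' : (‖y a‖ ^ 2 + N * ‖u a‖ ^ 2) * (‖y a‖ ^ 2 + N * ‖u a‖ ^ 2) ≤
      (‖y a‖ ^ 2 + N * ‖u a‖ ^ 2) * (c * N) := by
    calc _ = (‖y a‖ ^ 2 + N * ‖u a‖ ^ 2) ^ 2 := by ring
      _ ≤ _ := hw
      _ = _ := by ring
  generalize ‖y a‖ ^ 2 = p at hp hw' ⊢
  generalize ‖u a‖ ^ 2 = q at hq hw' ⊢
  have hS : 0 ≤ p + N * q := by positivity
  rcases hS.eq_or_lt with h0 | h0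
  · have := mul_nonneg hc0 hN0
    linarith
  · have := le_of_mul_le_mul_left hw' h0
    linarith

theorem klin_trim (L : Finset (Fin n)) {ε : ℝ} (hε : 0 < ε) (d : ℕ) :
    ∀ (K : Submodule ℂ (Fin n → ℂ)) (c : Fin n → ℝ), ∑ a ∈ L, c a ≤ ε ^ 2 * d →
      (∀ y ∈ K, ∀ a ∈ L, ‖y a‖ ^ 2 ≤ c a * nrm y ^ 2) →
      ∃ K' ≤ K, Module.finrank ℂ K ≤ Module.finrank ℂ K' + d ∧
        ∀ y ∈ K', nrm (onS L y) ≤ ε * nrm y := by
  induction d with
  | zero =>
    intro K c hd hL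
    refine ⟨K, le_rfl, le_rfl, fun y hy => ?_⟩
    have h1 : nrm (onS L y) ^ 2 ≤ (∑ a ∈ L, c a) * nrm y ^ 2 := by
      rw [nrm_onS_sq, sum_mul]
      exact sum_le_sum fun a ha => hL y hy a ha
    have h2 : (∑ a ∈ L, c a) * nrm y ^ 2 ≤ ε ^ 2 * nrm y ^ 2 := by
      refine mul_le_mul_of_nonneg_right (hd.trans ?_) (sq_nonneg _)
      rw [Nat.cast_zero, mul_zero]
      exact sq_nonneg _
    refine (pow_le_pow_iff_left₀ (nrm_nonneg _) (mul_nonneg hε.le (nrm_nonneg y))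
      two_ne_zero).1 ?_
    rw [mul_pow]
    exact h1.trans h2
  | succ d ih =>
    intro K c hd hL
    by_cases h : ∀ y ∈ K, nrm (onS L y) ≤ ε * nrm y
    · exact ⟨K, le_rfl, Nat.le_add_right _ _, h⟩
    push Not at h
    obtain ⟨v, hv, hv1⟩ := h
    have hv0 : v ≠ 0 := by
      rintro rfl
      have := nrm_onS_le L (0 : Fin n → ℂ)
      rw [nrm_zero] at this hv1
      linarith
    obtain ⟨s, hs, hs1⟩ := exists_unit hv0
    have hvp : 0 < nrm v := lt_of_le_of_ne (nrm_nonneg v) fun h => hv0 (nrm_eq_zero.1 h.symm)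
    have hu : s • v ∈ K := K.smul_mem s hv
    have hu2 : ε < nrm (onS L (s • v)) := by
      have e : onS L (s • v) = s • onS L v := by
        funext i
        simp only [onS, Pi.smul_apply]
        split_ifs
        · rfl
        · exact (smul_zero s).symm
      rw [e, nrm_smul, hs, ← div_eq_inv_mul, lt_div_iff₀ hvp]
      exact hv1
    generalize s • v = u at hu hs1 hu2
    obtain ⟨K₁, h1, h2, h3⟩ := kill K (klin_pair u)
    have h4 : ε ^ 2 ≤ ∑ a ∈ L, ‖u a‖ ^ 2 := by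
      rw [← nrm_onS_sq]
      exact pow_le_pow_left₀ hε.le hu2.le 2
    obtain ⟨K', h5, h6, h7⟩ := ih K₁ (fun a => c a - ‖u a‖ ^ 2)
      (by rw [sum_sub_distrib]; push_cast at hd; linarith)
      (fun y hy a ha => klin_step (fun x hx => hL x hx a ha) hu hs1 (h1 hy)
        (congrFun (h3 y hy) ()))
    rw [Fintype.card_unit] at h2
    exact ⟨K', h5.trans h1, by omega, h7⟩

theorem trim (K : Submodule ℂ (Fin n → ℂ)) (L : Finset (Fin n)) {ϑ ε : ℝ} (hϑ : 0 ≤ ϑ)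
    (hε : 0 < ε) (d : ℕ) (hd : ϑ ^ 2 * L.card ≤ ε ^ 2 * d)
    (hL : ∀ y ∈ K, ∀ a ∈ L, ‖y a‖ ≤ ϑ * nrm y) :
    ∃ K' ≤ K, Module.finrank ℂ K ≤ Module.finrank ℂ K' + d ∧
      ∀ y ∈ K', nrm (onS L y) ≤ ε * nrm y := by
  refine klin_trim L hε d K (fun _ => ϑ ^ 2) ?_ fun y hy a ha => ?_
  · rw [sum_const, nsmul_eq_mul, mul_comm]
    exact hd
  · rw [← mul_pow]
    exact pow_le_pow_left₀ (norm_nonneg _) (hL y hy a ha) 2

end Pool.Agent.OKM

end FileKLin

section FileKRed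

/-!
The redundancy lemma.
`redundant`: normalise `ρ i (y_i) = 1`, so `s^2 nrm y_i ^2 < 1/Q` and `∑_{i' ≠ i} ‖ρ i' y_i‖^2 < 1/Q`.
Let `W` be the space of vectors vanishing on `F` (dimension `n - |F|`), `K ≤ W`, write `y_i = k_i + m_i`
with `k_i` the orthogonal projection on `K` (`nrm k_i ≤ nrm y_i`; work in `EuclideanSpace ℂ (Fin n)`),
`m_i ∈ W ⊓ Kᗮ` (dimension `n - |F| - dim K`). The linear map
`T : (R → ℂ) → (R → ℂ)`, `c ↦ (ρ i' (∑ i, c i • m_i))_{i'}` has rank `≤ n - |F| - dim K`, so its kernel has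
an orthonormal basis of size `m ≥ |R| - (n - |F| - dim K)`. The matrix `E = 1 - T` has columns
`e_i - (ρ i' y_i)_{i'} + (ρ i' k_i)_{i'}` of squared norm `≤ 2/Q + 2/Q`. For an orthonormal family `u_k` in
`ker T`: `m = ∑_k ‖E u_k‖^2 = ∑_{i'} ∑_k |⟨row i', u_k⟩|^2 ≤ ∑_{i'} ‖row i'‖^2` (Bessel,
`Orthonormal.sum_inner_products_le`) `= ∑ columns ≤ 4|R|/Q`. `frob` isolates this last step.
`scan`: process `W` in increasing order, keeping the set `I` of removed rows: prove by induction on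
`m ≤ n` that there is `I ⊆ W ∩ {i < m}` such that every `i ∈ I` is good with respect to
`{k ∈ A | ¬ (k ∈ I ∧ k ≤ i)}` and every `i ∈ W \ I` with `i < m` is not good with respect to
`{k ∈ A | k ∉ I, k ≠ i}` (goodness is monotone in the set of known rows). If the final `I` has at least
`x` elements keep its `x` smallest ones (the sets `{k ∈ I | k ≤ i}` do not change); otherwise use the
second alternative.
-/

open Finset

namespace Pool.Agent.OKM

variable {n : ℕ}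

theorem frob {ι : Type} [Fintype ι] [DecidableEq ι] (T : Matrix ι ι ℂ) :
    (Fintype.card ι : ℝ) ≤ T.rank + ∑ i, ∑ j, ‖(1 - T) i j‖ ^ 2 := by
  let f : EuclideanSpace ℂ ι →ₗ[ℂ] (ι → ℂ) :=
    T.mulVecLin ∘ₗ (WithLp.linearEquiv 2 ℂ (ι → ℂ)).toLinearMap
  have h1 : Module.finrank ℂ (LinearMap.range f) = T.rank := by
    rw [LinearEquiv.range_comp]
    rfl
  have h2 := LinearMap.finrank_range_add_finrank_ker f
  rw [h1, finrank_euclideanSpace] at h2
  let b := stdOrthonormalBasis ℂ (LinearMap.ker f)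
  have hu : Orthonormal ℂ fun k => (b k : EuclideanSpace ℂ ι) :=
    b.orthonormal.comp_linearIsometry (LinearMap.ker f).subtypeₗᵢ
  let x : ι → EuclideanSpace ℂ ι := fun i => WithLp.toLp 2 fun j => star ((1 - T) i j)
  have h3 : ∀ k i, ‖inner ℂ (b k : EuclideanSpace ℂ ι) (x i)‖ =
      ‖(b k : EuclideanSpace ℂ ι) i‖ := fun k i => by
    have h4 : T.mulVec (b k : EuclideanSpace ℂ ι).ofLp = 0 := (b k).2
    have h5 : (1 - T).mulVec (b k : EuclideanSpace ℂ ι).ofLp i = (b k : EuclideanSpace ℂ ι) i := by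
      rw [Matrix.sub_mulVec, h4, Matrix.one_mulVec, sub_zero]
    rw [norm_inner_symm, ← h5, PiLp.inner_apply]
    simp [x, Matrix.mulVec, dotProduct, mul_comm]
  have h6 : ∀ k, (1 : ℝ) = ∑ i, ‖inner ℂ (b k : EuclideanSpace ℂ ι) (x i)‖ ^ 2 := fun k => by
    simp only [h3]
    rw [← EuclideanSpace.norm_sq_eq, hu.1 k, one_pow]
  have h7 : (Module.finrank ℂ (LinearMap.ker f) : ℝ) ≤ ∑ i, ∑ j, ‖(1 - T) i j‖ ^ 2 := by
    calc (Module.finrank ℂ (LinearMap.ker f) : ℝ)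
        = ∑ k : Fin (Module.finrank ℂ (LinearMap.ker f)), (1 : ℝ) := by simp
      _ = ∑ i, ∑ k, ‖inner ℂ (b k : EuclideanSpace ℂ ι) (x i)‖ ^ 2 := by
        rw [Finset.sum_comm]
        exact Finset.sum_congr rfl fun k _ => h6 k
      _ ≤ _ := Finset.sum_le_sum fun i _ => by
        refine (hu.sum_inner_products_le (x i)).trans (le_of_eq ?_)
        rw [EuclideanSpace.norm_sq_eq]
        simp only [x, norm_star]
  rw [← h2]
  push_cast
  linarith

theorem kred_nrm (y : Fin n → ℂ) : nrm y = ‖(WithLp.toLp 2 y : EuclideanSpace ℂ (Fin n))‖ := by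
  rw [EuclideanSpace.norm_eq]
  rfl

/-- a complement of `K` in the vectors vanishing on `F`, along the orthogonal projection -/
theorem kred_proj (F : Finset (Fin n)) (K : Submodule ℂ (Fin n → ℂ))
    (hF : ∀ y ∈ K, ∀ a ∈ F, y a = 0) :
    ∃ M : Submodule ℂ (Fin n → ℂ), F.card + Module.finrank ℂ K + Module.finrank ℂ M ≤ n ∧
      ∀ y : Fin n → ℂ, (∀ a ∈ F, y a = 0) → ∃ k ∈ K, y - k ∈ M ∧ nrm k ≤ nrm y := by
  let e := WithLp.linearEquiv 2 ℂ (Fin n → ℂ)
  let K' : Submodule ℂ (EuclideanSpace ℂ (Fin n)) := K.comap e.toLinearMap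
  let g : (Fin n → ℂ) →ₗ[ℂ] (F → ℂ) := LinearMap.funLeft ℂ ℂ Subtype.val
  have hg : ∀ y, y ∈ LinearMap.ker g ↔ ∀ a ∈ F, y a = 0 := fun y => by
    simp [g, funext_iff, LinearMap.funLeft_apply]
  have h1 := LinearMap.finrank_range_add_finrank_ker g
  rw [LinearMap.range_eq_top.2 (LinearMap.funLeft_surjective_of_injective ℂ ℂ _
    Subtype.val_injective)] at h1
  simp only [finrank_top, Module.finrank_fintype_fun_eq_card, Fintype.card_coe,
    Fintype.card_fin] at h1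
  let M : Submodule ℂ (Fin n → ℂ) := LinearMap.ker g ⊓ K'ᗮ.comap e.symm.toLinearMap
  have h2 : K ⊓ M = ⊥ := by
    rw [eq_bot_iff]
    rintro y ⟨hy, -, hy'⟩
    have h3 : e.symm y ∈ K' ⊓ K'ᗮ := ⟨hy, hy'⟩
    rw [K'.inf_orthogonal_eq_bot, Submodule.mem_bot] at h3
    simpa using h3
  have h4 := Submodule.finrank_sup_add_finrank_inf_eq K M
  rw [h2, finrank_bot] at h4
  have h5 : Module.finrank ℂ (K ⊔ M : Submodule ℂ (Fin n → ℂ)) ≤
      Module.finrank ℂ (LinearMap.ker g) :=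
    Submodule.finrank_mono (sup_le (fun y hy => (hg y).2 (hF y hy)) inf_le_left)
  refine ⟨M, by omega, fun y hy => ?_⟩
  have h6 : e (K'.starProjection (e.symm y)) ∈ K := K'.starProjection_apply_mem (e.symm y)
  refine ⟨_, h6, ⟨sub_mem ((hg y).2 hy) ((hg _).2 (hF _ h6)), ?_⟩, ?_⟩
  · exact K'.sub_starProjection_mem_orthogonal (e.symm y)
  · rw [kred_nrm, kred_nrm]
    exact K'.norm_starProjection_apply_le (e.symm y)

theorem redundant (ρ : Fin n → (Fin n → ℂ) →ₗ[ℂ] ℂ) (R F : Finset (Fin n))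
    (K : Submodule ℂ (Fin n → ℂ)) {s Q : ℝ} (hQ : 0 < Q)
    (hF : ∀ y ∈ K, ∀ a ∈ F, y a = 0)
    (hK : ∀ y ∈ K, ∑ i ∈ R, ‖ρ i y‖ ^ 2 ≤ s ^ 2 * nrm y ^ 2)
    (hbad : ∀ i ∈ R, ∃ y : Fin n → ℂ, (∀ a ∈ F, y a = 0) ∧
      Q * (s ^ 2 * nrm y ^ 2 + ∑ k ∈ R.erase i, ‖ρ k y‖ ^ 2) < ‖ρ i y‖ ^ 2) :
    (R.card : ℝ) + F.card + Module.finrank ℂ K ≤ n + 4 * R.card / Q := by
  obtain ⟨M, hM, hproj⟩ := kred_proj F K hF
  have h1 : ∀ i : R, ∃ y k : Fin n → ℂ, y - k ∈ M ∧ ρ i y = 1 ∧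
      ∑ l ∈ R.erase i, ‖ρ l y‖ ^ 2 + ∑ l ∈ R, ‖ρ l k‖ ^ 2 ≤ 1 / Q := fun i => by
    obtain ⟨y, hy, h⟩ := hbad i i.2
    have h0 : 0 < ‖ρ i y‖ ^ 2 := lt_of_le_of_lt (by positivity) h
    have hne : ρ i y ≠ 0 := by
      intro h'
      simp [h'] at h0
    obtain ⟨k, hk, hm, hn⟩ := hproj y hy
    refine ⟨(ρ i y)⁻¹ • y, (ρ i y)⁻¹ • k, by rw [← smul_sub]; exact M.smul_mem _ hm,
      by simp [hne], ?_⟩
    have h2 : s ^ 2 * nrm k ^ 2 ≤ s ^ 2 * nrm y ^ 2 :=
      mul_le_mul_of_nonneg_left (pow_le_pow_left₀ (Real.sqrt_nonneg _) hn 2) (sq_nonneg s)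
    have h3 := hK k hk
    simp only [map_smul, smul_eq_mul, norm_mul, mul_pow, norm_inv, inv_pow, ← Finset.mul_sum]
    rw [← mul_add, inv_mul_le_iff₀ h0, mul_one_div, le_div_iff₀ hQ]
    nlinarith
  choose y k hm h1 h2 using h1
  let T : Matrix R R ℂ := Matrix.of fun l i => ρ l (y i - k i)
  let g : (Fin n → ℂ) →ₗ[ℂ] (R → ℂ) := LinearMap.pi fun l => ρ l
  have h3 : T.rank ≤ Module.finrank ℂ M := by
    rw [Matrix.rank_eq_finrank_span_cols]
    refine le_trans (Submodule.finrank_mono ?_) (Submodule.finrank_map_le g M)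
    rw [Submodule.span_le]
    rintro _ ⟨i, rfl⟩
    exact ⟨y i - k i, hm i, rfl⟩
  have h4 : ∀ i : R, ∑ l : R, ‖(1 - T) l i‖ ^ 2 ≤ 2 / Q := fun i => by
    have h5 : ∀ l : R, ‖(1 - T) l i‖ ^ 2 ≤
        2 * (if (l : Fin n) = i then 0 else ‖ρ l (y i)‖ ^ 2) + 2 * ‖ρ l (k i)‖ ^ 2 := fun l => by
      simp only [Matrix.sub_apply, T, Matrix.of_apply, map_sub]
      split_ifs with h
      · obtain rfl : l = i := Subtype.ext h
        simp only [Matrix.one_apply_eq, h1, sub_sub_cancel]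
        nlinarith [sq_nonneg ‖ρ l (k l)‖]
      · rw [Matrix.one_apply_ne fun h' => h (congrArg Subtype.val h'), zero_sub, norm_neg]
        have h6 := pow_le_pow_left₀ (norm_nonneg _) (norm_sub_le (ρ l (y i)) (ρ l (k i))) 2
        nlinarith [sq_nonneg (‖ρ l (y i)‖ - ‖ρ l (k i)‖)]
    refine (Finset.sum_le_sum fun l _ => h5 l).trans ?_
    rw [Finset.sum_add_distrib, ← Finset.mul_sum, ← Finset.mul_sum,
      Finset.sum_coe_sort R fun l => if l = i then 0 else ‖ρ l (y i)‖ ^ 2,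
      Finset.sum_coe_sort R fun l => ‖ρ l (k i)‖ ^ 2, ← Finset.add_sum_erase R _ i.2, if_pos rfl,
      zero_add, Finset.sum_congr rfl fun l hl => if_neg (Finset.ne_of_mem_erase hl)]
    have h7 := h2 i
    rw [show 2 / Q = 2 * (1 / Q) by ring]
    linarith
  have h8 := frob T
  rw [Finset.sum_comm] at h8
  have h9 := Finset.sum_le_sum fun i (_ : i ∈ (univ : Finset R)) => h4 i
  simp only [Finset.sum_const, Finset.card_univ, Fintype.card_coe, nsmul_eq_mul] at h8 h9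
  have h10 : (F.card : ℝ) + Module.finrank ℂ K + T.rank ≤ n := by exact_mod_cast (by omega)
  have h11 : (R.card : ℝ) * (2 / Q) ≤ 4 * R.card / Q := by
    rw [mul_div_assoc', div_le_div_iff_of_pos_right hQ]
    linarith [Nat.cast_nonneg (α := ℝ) R.card]
  linarith

theorem scan (Good : Fin n → Finset (Fin n) → Prop)
    (hmono : ∀ i S S', S ⊆ S' → Good i S → Good i S') (A W : Finset (Fin n)) (x : ℕ) :
    (∃ I ⊆ W, I.card = x ∧ ∀ i ∈ I, Good i (A.filter fun k => ¬ (k ∈ I ∧ k ≤ i))) ∨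
    (∃ I ⊆ W, I.card < x ∧ ∀ i ∈ W \ I, ¬ Good i ((A \ I).erase i)) := by
  have key : ∀ m : ℕ,
      (∃ I ⊆ W, I.card = x ∧ ∀ i ∈ I, Good i (A.filter fun k => ¬ (k ∈ I ∧ k ≤ i))) ∨
      (∃ I ⊆ W, I.card < x ∧ (∀ i ∈ I, (i : ℕ) < m) ∧
        (∀ i ∈ I, Good i (A.filter fun k => ¬ (k ∈ I ∧ k ≤ i))) ∧
        ∀ i ∈ W \ I, (i : ℕ) < m → ¬ Good i ((A \ I).erase i)) := by
    intro m
    induction m with
    | zero =>
      rcases Nat.eq_zero_or_pos x with rfl | hx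
      · exact Or.inl ⟨∅, by simp⟩
      · exact Or.inr ⟨∅, by simpa using hx⟩
    | succ m ih =>
      rcases ih with h | ⟨I, hI, hc, hlt, hg, hb⟩
      · exact Or.inl h
      by_cases hj : ∃ j ∈ W, (j : ℕ) = m ∧ Good j ((A \ I).erase j)
      · obtain ⟨j, hjW, rfl, hj⟩ := hj
        have hjI : j ∉ I := fun h => lt_irrefl _ (hlt j h)
        have hsub : insert j I ⊆ W := Finset.insert_subset hjW hI
        have hgood : ∀ i ∈ insert j I,
            Good i (A.filter fun k => ¬ (k ∈ insert j I ∧ k ≤ i)) := by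
          intro i hi
          rcases Finset.mem_insert.1 hi with rfl | hi'
          · refine hmono _ _ _ (fun k hk => ?_) hj
            simp only [Finset.mem_erase, Finset.mem_sdiff] at hk
            simp [hk.1, hk.2.1, hk.2.2]
          · refine hmono _ _ _ (fun k hk => ?_) (hg i hi')
            simp only [Finset.mem_filter, Finset.mem_insert] at hk ⊢
            refine ⟨hk.1, ?_⟩
            rintro ⟨rfl | h, h'⟩
            · exact absurd (hlt i hi') (not_lt.2 h')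
            · exact hk.2 ⟨h, h'⟩
        have hcard : (insert j I).card ≤ x := by
          rw [Finset.card_insert_of_notMem hjI]
          exact hc
        rcases hcard.eq_or_lt with h | h
        · exact Or.inl ⟨_, hsub, h, hgood⟩
        refine Or.inr ⟨_, hsub, h, fun i hi => ?_, hgood, fun i hi hi' hG => ?_⟩
        · rcases Finset.mem_insert.1 hi with rfl | hi
          · exact Nat.lt_succ_self _
          · exact (hlt i hi).trans (Nat.lt_succ_self _)
        · simp only [Finset.mem_sdiff, Finset.mem_insert, not_or] at hi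
          have h1 : (i : ℕ) ≠ j := fun h' => hi.2.1 (Fin.ext h')
          refine hb i (Finset.mem_sdiff.2 ⟨hi.1, hi.2.2⟩) (by omega) (hmono _ _ _ ?_ hG)
          exact Finset.erase_subset_erase _
            (Finset.sdiff_subset_sdiff Subset.rfl (Finset.subset_insert _ _))
      · refine Or.inr ⟨I, hI, hc, fun i hi => (hlt i hi).trans (Nat.lt_succ_self _), hg,
          fun i hi hi' hG => ?_⟩
        rcases (Nat.lt_succ_iff.1 hi').eq_or_lt with h | h
        · exact hj ⟨i, (Finset.mem_sdiff.1 hi).1, h, hG⟩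
        · exact hb i hi h hG
  rcases key n with h | ⟨I, hI, hc, -, -, hb⟩
  · exact Or.inl h
  · exact Or.inr ⟨I, hI, hc, fun i hi => hb i hi i.2⟩

theorem clusters (close : Fin n → Fin n → Prop) [DecidableRel close] (W : Finset (Fin n)) {m : ℝ}
    (hm : 0 ≤ m) :
    ∃ L Cn : Finset (Fin n), L ⊆ W ∧ (∀ a ∈ L, ∃ c ∈ Cn, close a c) ∧ Cn.card * m ≤ L.card ∧
      ∀ c ∈ W \ L, (((W \ L).filter fun a => close a c).card : ℝ) ≤ m := by
  induction W using Finset.strongInduction with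
  | H W ih =>
    by_cases h : ∀ c ∈ W, ((W.filter fun a => close a c).card : ℝ) ≤ m
    · exact ⟨∅, ∅, by simp, by simp, by simp, by simpa using h⟩
    push Not at h
    obtain ⟨c, -, hc⟩ := h
    set B := W.filter fun a => close a c with hB
    have hBW : B ⊆ W := Finset.filter_subset _ _
    have hne : B.Nonempty := by
      rw [← Finset.card_pos]
      exact_mod_cast hm.trans_lt hc
    obtain ⟨L, Cn, h1, h2, h3, h4⟩ := ih (W \ B) (Finset.sdiff_ssubset hBW hne)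
    refine ⟨B ∪ L, insert c Cn, Finset.union_subset hBW (h1.trans Finset.sdiff_subset),
      fun a ha => ?_, ?_, ?_⟩
    · rcases Finset.mem_union.1 ha with ha | ha
      · exact ⟨c, Finset.mem_insert_self _ _, (Finset.mem_filter.1 ha).2⟩
      · obtain ⟨c', hc', h⟩ := h2 a ha
        exact ⟨c', Finset.mem_insert_of_mem hc', h⟩
    · rw [Finset.card_union_of_disjoint (Finset.disjoint_sdiff.mono_right h1)]
      have h5 : ((insert c Cn).card : ℝ) ≤ Cn.card + 1 := by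
        exact_mod_cast Finset.card_insert_le c Cn
      push_cast
      nlinarith
    · rw [show W \ (B ∪ L) = (W \ B) \ L from sdiff_sdiff_left.symm]
      exact h4

end Pool.Agent.OKM

end FileKRed

section FileKScan

/-!
The rare structure behind Lemma K.
`structK_prob`: union bound over `F, L, J` (`card_subsets_le` with `λ = x/n`: at most
`(n/x)^(C0 x) e^x`, `(n/x)^x e^x`, `(n/x)^(C0 x) e^x`) and `I` (`(n/x)^x e^x`); for fixed sets apply
`kraft_pr` with `key = Fin.val`, `O i π = optK π ...` (`owner_det` for the pool condition; `app π z y k`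
only depends on the stubs of row `k`) and `Λ = (r^2 (r x)^(r-1) m)^x`, and
`(x r)! ≥ (r x / e)^(r x)` (`pow_le_factorial`). So each row costs `r e^r m / x = e^(-6) (x/n)^(2 C0 + 2)`.
`opt_card`: map an option `t` to a position `a` with `(t a).1 ∉ F ∪ L`; for fixed `a` and fixed values
of `t` off `a` (at most `(|I| r)^(r-1)` choices, `card_pool`), any two options `t, t'` satisfy, for
`y ∈ K`, `‖y (t a).1 - y (t' a).1‖ = ‖rowv t y - rowv t' y‖ ≤ 2 √(2 Q) s nrm y ≤ ϑ nrm y`, so fixing one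
of them as centre `c`, the heads `(t a).1` lie in a set of at most `m` vertices, each with `r` in-stubs.
-/

open Finset

namespace Pool.Agent.OKM

variable {n r : ℕ}

/-- row `i`, matched to `t`, is controlled by the rows of `Kn` on vectors vanishing on `F` -/
def GoodK (π : Cfg n r) (z : ℂ) (F Kn : Finset (Fin n)) (Q s : ℝ) (i : Fin n)
    (t : Fin r → St n r) : Prop :=
  ∀ y : Fin n → ℂ, (∀ a ∈ F, y a = 0) →
    ‖rowv z t i y‖ ^ 2 ≤ Q * (s ^ 2 * nrm y ^ 2 + ∑ k ∈ Kn, ‖app π z y k‖ ^ 2)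

open Classical in
noncomputable def optK (π : Cfg n r) (z : ℂ) (F L J I : Finset (Fin n)) (Q s : ℝ) (i : Fin n) :
    Finset (Fin r → St n r) :=
  univ.filter fun t => (∀ a, (π⁻¹ (t a)).1 ∈ I) ∧ (∃ a, (t a).1 ∉ F ∪ L) ∧
    GoodK π z F (Jᶜ.filter fun k => ¬ (k ∈ I ∧ k ≤ i)) Q s i t

noncomputable def mK (r C0 n x : ℕ) : ℝ :=
  x * ((x : ℝ) / n) ^ (2 * C0 + 2) * Real.exp (-((r : ℝ) + 6)) / r

def StructK (π : Cfg n r) (z : ℂ) (C0 x : ℕ) (s : ℝ) : Prop :=
  ∃ F L J I : Finset (Fin n), F.card ≤ C0 * x ∧ L.card ≤ x ∧ J.card ≤ C0 * x ∧ I.card = x ∧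
    ∀ i ∈ I, tup π i ∈ optK π z F L J I (2 * n / x) s i ∧
      ((optK π z F L J I (2 * n / x) s i).card : ℝ)
        ≤ (r : ℝ) ^ 2 * ((r : ℝ) * x) ^ (r - 1) * mK r C0 n x

theorem kscan_mem {π : Cfg n r} {z : ℂ} {F L J I : Finset (Fin n)} {Q s : ℝ} {i : Fin n}
    {t : Fin r → St n r} : t ∈ optK π z F L J I Q s i ↔
      (∀ a, (π⁻¹ (t a)).1 ∈ I) ∧ (∃ a, (t a).1 ∉ F ∪ L) ∧
        GoodK π z F (Jᶜ.filter fun k => ¬ (k ∈ I ∧ k ≤ i)) Q s i t := by
  simp only [optK, Finset.mem_filter, Finset.mem_univ, true_and]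

theorem kscan_det (z : ℂ) (F L J I : Finset (Fin n)) (Q s : ℝ) (i : Fin n) (π π' : Cfg n r)
    (h : ∀ u : St n r, ¬ (u.1 ∈ I ∧ (u.1 : ℕ) ≤ (i : ℕ)) → π u = π' u) :
    optK π z F L J I Q s i = optK π' z F L J I Q s i := by
  have h1 : ∀ u : St n r, (π⁻¹ u).1 ∈ I ↔ (π'⁻¹ u).1 ∈ I :=
    owner_det I fun u hu => h u fun h' => hu h'.1
  have h2 : ∀ y : Fin n → ℂ, ∑ k ∈ Jᶜ.filter (fun k => ¬ (k ∈ I ∧ k ≤ i)), ‖app π z y k‖ ^ 2 =
      ∑ k ∈ Jᶜ.filter (fun k => ¬ (k ∈ I ∧ k ≤ i)), ‖app π' z y k‖ ^ 2 := by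
    intro y
    refine Finset.sum_congr rfl fun k hk => ?_
    have h3 := (Finset.mem_filter.mp hk).2
    have h4 : ∀ a : Fin r, π (k, a) = π' (k, a) := fun a => h (k, a) h3
    simp only [app, hd, h4]
  ext t
  rw [kscan_mem, kscan_mem]
  simp only [GoodK, h1, h2]

theorem kscan_fixed (z : ℂ) (F L J I : Finset (Fin n)) (Q s : ℝ) {b : ℝ} (hb : 0 ≤ b) :
    pr (fun π : Cfg n r => ∀ i ∈ I, tup π i ∈ optK π z F L J I Q s i ∧
      ((optK π z F L J I Q s i).card : ℝ) ≤ b) ≤ b ^ I.card / ((I.card * r).factorial : ℝ) := by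
  refine kraft_pr I Fin.val (fun a _ b _ hab => Fin.ext hab) _
    (fun i π => optK π z F L J I Q s i) (fun i _ π π' h => kscan_det z F L J I Q s i π π' h)
    (fun π hπ i hi => (hπ i hi).1) (pow_nonneg hb _) fun π hπ => ?_
  calc ∏ i ∈ I, ((optK π z F L J I Q s i).card : ℝ) ≤ ∏ _i ∈ I, b :=
        Finset.prod_le_prod (fun i _ => Nat.cast_nonneg _) fun i hi => (hπ i hi).2
    _ = b ^ I.card := Finset.prod_const b

theorem kscan_num (hr : 1 ≤ r) (C0 x : ℕ) (hx : 1 ≤ x) (hxn : x ≤ n) :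
    ((r : ℝ) ^ 2 * ((r : ℝ) * x) ^ (r - 1) * mK r C0 n x) ^ x / ((x * r).factorial : ℝ)
      ≤ (((x : ℝ) / n) ^ (2 * C0 + 2) * Real.exp (-6)) ^ x := by
  have hr0 : (0 : ℝ) < r := by exact_mod_cast hr
  have hx0 : (0 : ℝ) < x := by exact_mod_cast hx
  have hn0 : (0 : ℝ) < n := by exact_mod_cast lt_of_lt_of_le hx hxn
  have he := Real.exp_pos 1
  have h1 := pow_le_factorial (x * r)
  have h2 : (((x * r : ℕ) : ℝ) / Real.exp 1) ^ (x * r) = (((r : ℝ) * x / Real.exp 1) ^ r) ^ x := by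
    rw [← pow_mul, mul_comm r x]
    push_cast
    rw [mul_comm (r : ℝ)]
  rw [h2] at h1
  have h3 : (r : ℝ) ^ 2 * ((r : ℝ) * x) ^ (r - 1) * mK r C0 n x =
      ((x : ℝ) / n) ^ (2 * C0 + 2) * Real.exp (-6) * ((r : ℝ) * x / Real.exp 1) ^ r := by
    have h4 : ((r : ℝ) * x) ^ r = ((r : ℝ) * x) ^ (r - 1) * (r * x) := by
      rw [← pow_succ, Nat.sub_add_cancel hr]
    have h5 : Real.exp (-((r : ℝ) + 6)) = Real.exp (-6) / Real.exp 1 ^ r := by
      rw [← Real.exp_nat_mul, ← Real.exp_sub]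
      congr 1
      ring
    rw [mK, div_pow ((r : ℝ) * x), h4, h5]
    generalize ((x : ℝ) / n) ^ (2 * C0 + 2) = w
    generalize ((r : ℝ) * x) ^ (r - 1) = v
    field_simp
  rw [h3, mul_pow, div_le_iff₀ (by exact_mod_cast Nat.factorial_pos _)]
  exact mul_le_mul_of_nonneg_left h1 (by positivity)

theorem structK_prob (hr : 1 ≤ r) (z : ℂ) (C0 x : ℕ) (s : ℝ) (hx : 1 ≤ x) (hxn : x ≤ n) :
    pr (fun π : Cfg n r => StructK π z C0 x s) ≤ Real.exp (-(2 * (x : ℝ))) := by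
  classical
  have hr0 : (0 : ℝ) < r := by exact_mod_cast hr
  have hx0 : (0 : ℝ) < x := by exact_mod_cast hx
  have hn0 : (0 : ℝ) < n := by exact_mod_cast lt_of_lt_of_le hx hxn
  have hl0 : (0 : ℝ) < (x : ℝ) / n := by positivity
  have hl1 : (x : ℝ) / n ≤ 1 := by
    rw [div_le_one hn0]
    exact_mod_cast hxn
  have hsub : ∀ k : ℕ,
      (((univ : Finset (Finset (Fin n))).filter fun S => S.card ≤ k).card : ℝ)
        ≤ (1 / ((x : ℝ) / n)) ^ k * Real.exp x := by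
    intro k
    have h1 := card_subsets_le (α := Fin n) k hl0 hl1
    rwa [Fintype.card_fin, div_mul_cancel₀ _ hn0.ne'] at h1
  set A := (univ : Finset (Finset (Fin n))).filter fun S => S.card ≤ C0 * x with hA
  set B := (univ : Finset (Finset (Fin n))).filter fun S => S.card ≤ x with hB
  set b : ℝ := (r : ℝ) ^ 2 * ((r : ℝ) * x) ^ (r - 1) * mK r C0 n x with hb
  have hb0 : 0 ≤ b := by
    rw [hb, mK]
    positivity
  set w : ℝ := (((x : ℝ) / n) ^ (2 * C0 + 2) * Real.exp (-6)) ^ x with hw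
  have hw0 : 0 ≤ w := by positivity
  have h1 : pr (fun π : Cfg n r => StructK π z C0 x s) ≤
      pr (fun π : Cfg n r => ∃ p ∈ (A ×ˢ B) ×ˢ (A ×ˢ B), p.2.2.card = x ∧
        ∀ i ∈ p.2.2, tup π i ∈ optK π z p.1.1 p.1.2 p.2.1 p.2.2 (2 * n / x) s i ∧
          ((optK π z p.1.1 p.1.2 p.2.1 p.2.2 (2 * n / x) s i).card : ℝ) ≤ b) := by
    refine pr_mono fun π hπ => ?_
    obtain ⟨F, L, J, I, hF, hL, hJ, hI, h⟩ := hπ
    refine ⟨((F, L), (J, I)), ?_, hI, h⟩
    simp only [hA, hB, Finset.mem_product, Finset.mem_filter, Finset.mem_univ, true_and]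
    exact ⟨⟨hF, hL⟩, hJ, hI.le⟩
  have h2 := pr_exists_le_card ((A ×ˢ B) ×ˢ (A ×ˢ B))
    (fun p (π : Cfg n r) => p.2.2.card = x ∧
        ∀ i ∈ p.2.2, tup π i ∈ optK π z p.1.1 p.1.2 p.2.1 p.2.2 (2 * n / x) s i ∧
          ((optK π z p.1.1 p.1.2 p.2.1 p.2.2 (2 * n / x) s i).card : ℝ) ≤ b) (b := w) (by
    intro p _
    by_cases hp : p.2.2.card = x
    · refine le_trans (pr_mono fun π hπ => hπ.2) ?_
      refine le_trans (kscan_fixed z p.1.1 p.1.2 p.2.1 p.2.2 (2 * n / x) s hb0) ?_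
      rw [hp]
      exact kscan_num hr C0 x hx hxn
    · rw [pr_eq_zero fun π hπ => hp hπ.1]
      exact hw0)
  refine h1.trans (h2.trans ?_)
  have h3 : ((A ×ˢ B).card : ℝ) ≤
      (1 / ((x : ℝ) / n)) ^ (C0 * x) * Real.exp x * ((1 / ((x : ℝ) / n)) ^ x * Real.exp x) := by
    rw [Finset.card_product, Nat.cast_mul]
    exact mul_le_mul (hsub _) (hsub _) (Nat.cast_nonneg _) (by positivity)
  have h4 : (((A ×ˢ B) ×ˢ (A ×ˢ B)).card : ℝ) ≤
      ((1 / ((x : ℝ) / n)) ^ (C0 * x) * Real.exp x *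
        ((1 / ((x : ℝ) / n)) ^ x * Real.exp x)) ^ 2 := by
    rw [Finset.card_product, Nat.cast_mul, sq]
    exact mul_le_mul h3 h3 (Nat.cast_nonneg _) (by positivity)
  refine (mul_le_mul_of_nonneg_right h4 hw0).trans (le_of_eq ?_)
  have h5 : Real.exp (-6) ^ x = Real.exp (-(2 * (x : ℝ))) / Real.exp x ^ 4 := by
    rw [← Real.exp_nat_mul, ← Real.exp_nat_mul, ← Real.exp_sub]
    congr 1
    push_cast
    ring
  have h6 : (((x : ℝ) / n) ^ (2 * C0 + 2)) ^ x =
      (((x : ℝ) / n) ^ (C0 * x) * ((x : ℝ) / n) ^ x) ^ 2 := by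
    rw [← pow_mul, ← pow_add, ← pow_mul]
    congr 1
    ring
  have h7 : (0 : ℝ) < ((x : ℝ) / n) ^ (C0 * x) := by positivity
  have h8 : (0 : ℝ) < ((x : ℝ) / n) ^ x := by positivity
  have h9 := Real.exp_pos (x : ℝ)
  rw [hw, mul_pow _ (Real.exp (-6)), h5, h6, one_div_pow, one_div_pow]
  generalize ((x : ℝ) / n) ^ (C0 * x) = u at h7
  generalize ((x : ℝ) / n) ^ x = v at h8
  field_simp

/-- an option is small on `K` -/
theorem kscan_small {π : Cfg n r} {z : ℂ} {F L J I : Finset (Fin n)} {Q s : ℝ} (hQ : 0 ≤ Q)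
    {i : Fin n} {t : Fin r → St n r} (ht : t ∈ optK π z F L J I Q s i) {y : Fin n → ℂ}
    (hF : ∀ a ∈ F, y a = 0) (hK : nrm (offS J (app π z y)) ≤ s * nrm y) :
    ‖rowv z t i y‖ ^ 2 ≤ 2 * Q * s ^ 2 * nrm y ^ 2 := by
  classical
  simp only [optK, Finset.mem_filter, Finset.mem_univ, true_and] at ht
  have h1 := ht.2.2 y hF
  have h2 : ∑ k ∈ Jᶜ.filter (fun k => ¬ (k ∈ I ∧ k ≤ i)), ‖app π z y k‖ ^ 2 ≤
      ∑ k ∈ Jᶜ, ‖app π z y k‖ ^ 2 :=
    Finset.sum_le_sum_of_subset_of_nonneg (Finset.filter_subset _ _) fun _ _ _ => by positivity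
  rw [← nrm_offS_sq] at h2
  have h3 : nrm (offS J (app π z y)) ^ 2 ≤ (s * nrm y) ^ 2 :=
    pow_le_pow_left₀ (nrm_nonneg _) hK 2
  calc ‖rowv z t i y‖ ^ 2 ≤ _ := h1
    _ ≤ Q * (s ^ 2 * nrm y ^ 2 + (s * nrm y) ^ 2) :=
        mul_le_mul_of_nonneg_left (add_le_add le_rfl (h2.trans h3)) hQ
    _ = _ := by ring

theorem kscan_diff (z : ℂ) {t t' : Fin r → St n r} {a : Fin r} (h : ∀ b, b ≠ a → t b = t' b)
    (i : Fin n) (y : Fin n → ℂ) : rowv z t i y - rowv z t' i y = y (t a).1 - y (t' a).1 := by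
  have h1 : ∑ b, (y (t b).1 - y (t' b).1) = y (t a).1 - y (t' a).1 :=
    Finset.sum_eq_single a (fun b _ hb => by rw [h b hb, sub_self]) fun h' =>
      absurd (Finset.mem_univ a) h'
  rw [← h1, Finset.sum_sub_distrib, rowv, rowv]
  ring

theorem kscan_close {u v : ℂ} {A ϑ N : ℝ} (hϑ : 0 ≤ ϑ) (hN : 0 ≤ N) (hA : 4 * A ≤ ϑ ^ 2)
    (hu : ‖u‖ ^ 2 ≤ A * N ^ 2) (hv : ‖v‖ ^ 2 ≤ A * N ^ 2) : ‖u - v‖ ≤ ϑ * N := by
  refine (norm_sub_le u v).trans ((pow_le_pow_iff_left₀ (by positivity) (mul_nonneg hϑ hN) two_ne_zero).mp ?_)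
  have h1 : 4 * A * N ^ 2 ≤ ϑ ^ 2 * N ^ 2 := mul_le_mul_of_nonneg_right hA (sq_nonneg N)
  nlinarith [sq_nonneg (‖u‖ - ‖v‖)]

open Classical in
theorem opt_card (π : Cfg n r) (z : ℂ) (F L J I : Finset (Fin n)) {Q s ϑ m : ℝ} (hQ : 0 ≤ Q)
    (hs : 0 ≤ s) (hϑ : 0 ≤ ϑ) (hm : 0 ≤ m) (hQϑ : 8 * Q * s ^ 2 ≤ ϑ ^ 2)
    (K : Submodule ℂ (Fin n → ℂ)) (hF : ∀ y ∈ K, ∀ a ∈ F, y a = 0)
    (hK : ∀ y ∈ K, nrm (offS J (app π z y)) ≤ s * nrm y)
    (hcl : ∀ c ∉ F ∪ L, (((F ∪ L)ᶜ.filter fun a => ∀ y ∈ K, ‖y a - y c‖ ≤ ϑ * nrm y).card : ℝ) ≤ m)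
    (i : Fin n) :
    ((optK π z F L J I Q s i).card : ℝ) ≤ (r : ℝ) ^ 2 * ((r : ℝ) * I.card) ^ (r - 1) * m := by
  set P := univ.filter fun u : St n r => (π⁻¹ u).1 ∈ I with hP
  set O := optK π z F L J I Q s i with hO
  have hone : ∀ a : Fin r, ((O.filter fun t => (t a).1 ∉ F ∪ L).card : ℝ) ≤
      ((r : ℝ) * I.card) ^ (r - 1) * (m * r) := by
    intro a
    have hmaps : Set.MapsTo (fun (t : Fin r → St n r) (b : {b : Fin r // b ≠ a}) => t b)
        (O.filter fun t => (t a).1 ∉ F ∪ L : Finset _)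
        (Fintype.piFinset fun _ : {b : Fin r // b ≠ a} => P : Finset _) := by
      intro t ht
      have h1 := (Finset.mem_filter.mp (Finset.mem_coe.mp ht)).1
      simp only [hO, optK, Finset.mem_filter, Finset.mem_univ, true_and] at h1
      refine Finset.mem_coe.mpr (Fintype.mem_piFinset.mpr fun b => ?_)
      exact Finset.mem_filter.mpr ⟨Finset.mem_univ _, h1.1 b⟩
    rw [Finset.card_eq_sum_card_fiberwise hmaps, Nat.cast_sum]
    have hc : ((Fintype.piFinset fun _ : {b : Fin r // b ≠ a} => P).card : ℝ) =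
        ((r : ℝ) * I.card) ^ (r - 1) := by
      rw [Fintype.card_piFinset, Finset.prod_const, Finset.card_univ, hP, card_pool,
        Fintype.card_subtype_compl, Fintype.card_fin, Fintype.card_unique]
      push_cast
      rw [mul_comm]
    rw [← hc, ← nsmul_eq_mul]
    refine Finset.sum_le_card_nsmul _ _ _ fun g _ => ?_
    rcases Finset.eq_empty_or_nonempty ((O.filter fun t => (t a).1 ∉ F ∪ L).filter
      fun t => (fun b : {b : Fin r // b ≠ a} => t b) = g) with h0 | ⟨t₀, ht₀⟩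
    · rw [h0, Finset.card_empty, Nat.cast_zero]
      positivity
    · have hagree : ∀ t ∈ (O.filter fun t => (t a).1 ∉ F ∪ L).filter
          (fun t => (fun b : {b : Fin r // b ≠ a} => t b) = g), ∀ b (hb : b ≠ a),
          t b = g ⟨b, hb⟩ := fun t ht b hb => congrFun (Finset.mem_filter.mp ht).2 ⟨b, hb⟩
      have ht₀' := Finset.mem_filter.mp (Finset.mem_filter.mp ht₀).1
      have h2 := hcl _ ht₀'.2
      have h3 : ((O.filter fun t => (t a).1 ∉ F ∪ L).filter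
          (fun t => (fun b : {b : Fin r // b ≠ a} => t b) = g)).card ≤
          (((F ∪ L)ᶜ.filter fun c => ∀ y ∈ K, ‖y c - y (t₀ a).1‖ ≤ ϑ * nrm y) ×ˢ
            (univ : Finset (Fin r))).card := by
        refine Finset.card_le_card_of_injOn (fun t => t a) (fun t ht => ?_) fun t ht t' ht' h => ?_
        · have ht1 := Finset.mem_coe.mp ht
          have ht2 := Finset.mem_filter.mp (Finset.mem_filter.mp ht1).1
          refine Finset.mem_coe.mpr (Finset.mem_product.mpr ⟨Finset.mem_filter.mpr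
            ⟨Finset.mem_compl.mpr ht2.2, fun y hy => ?_⟩, Finset.mem_univ _⟩)
          rw [← kscan_diff z (fun b hb => (hagree t ht1 b hb).trans (hagree t₀ ht₀ b hb).symm) i y]
          exact kscan_close hϑ (nrm_nonneg y) (by linarith)
            (kscan_small hQ ht2.1 (hF y hy) (hK y hy)) (kscan_small hQ ht₀'.1 (hF y hy) (hK y hy))
        · funext b
          by_cases hb : b = a
          · rw [hb]
            exact h
          · exact (hagree t (Finset.mem_coe.mp ht) b hb).trans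
              (hagree t' (Finset.mem_coe.mp ht') b hb).symm
      rw [Finset.card_product, Finset.card_univ, Fintype.card_fin] at h3
      refine le_trans (Nat.cast_le.mpr h3) ?_
      rw [Nat.cast_mul]
      exact mul_le_mul_of_nonneg_right h2 (Nat.cast_nonneg r)
  have hcov : O ⊆ (univ : Finset (Fin r)).biUnion fun a => O.filter fun t => (t a).1 ∉ F ∪ L := by
    intro t ht
    have h1 := ht
    simp only [hO, optK, Finset.mem_filter, Finset.mem_univ, true_and] at h1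
    obtain ⟨a, ha⟩ := h1.2.1
    exact Finset.mem_biUnion.mpr ⟨a, Finset.mem_univ _, Finset.mem_filter.mpr ⟨ht, ha⟩⟩
  have h1 : (O.card : ℝ) ≤ ∑ a : Fin r, ((O.filter fun t => (t a).1 ∉ F ∪ L).card : ℝ) := by
    rw [← Nat.cast_sum]
    exact Nat.cast_le.mpr ((Finset.card_le_card hcov).trans Finset.card_biUnion_le)
  refine h1.trans ((Finset.sum_le_card_nsmul _ _ _ fun a _ => hone a).trans (le_of_eq ?_))
  rw [Finset.card_univ, Fintype.card_fin, nsmul_eq_mul]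
  ring

end Pool.Agent.OKM

end FileKScan

end

-- part MP_5d5bd1_pr.Expand
section

section FileExpA

/-!
Expansion of small sets.
If `X2` fails for `S` (`|S| = s`, `40 ≤ s ≤ φ n`), put `T' = outN π S \ S`, `|T'| ≤ k := ⌊(r - 6/5) s⌋`;
all `r s` stubs of `S` are mapped into the in-stubs of `S ∪ T'` (at most `r * r s` of them), so by
`pr_mapTo` this has probability at most `(2 r s / n)^(r s)` (needs `2 s ≤ n`). With
`card_subsets_le` (`λ = s/n`) there are at most `(n/s)^s e^s` choices of `S` and `(n/s)^k e^s` of `T'`.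
Total for given `s`: `(e^2 (2r)^r)^s (s/n)^(s/5) = (C s / n)^(s/5)`, `C = (e^2 (2r)^r)^5`.
Take `φ₀ = e^(-5) / C` (so `φ₀ ≤ 1/2`). For `s ≤ √n` the term is at most `(C/√n)^8 = C^8 n^(-4)`
(once `C ≤ √n`), for `s ≥ √n` at most `e^(-√n) ≤ n^(-4)` eventually; sum over `s ≤ n`: `≤ C' n^(-3)`.
`X3`: if it fails for `S`, `|S| = s ∈ [2,40]`, then `T = S ∪ outN π S` has `2|T| ≤ (r+1) s`, choose
`T` (at most `n^t` ways for `|T| = t`, or `card_subsets_le` with `λ = 1/n`) and `S ⊆ T` (at most `2^t`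
ways), probability `(2 t / n)^(r s)`; exponent `t - r s ≤ -(r-1) s / 2 ≤ -2`.
-/

open Finset Filter

namespace Pool.Agent.OKM

variable {r : ℕ}

theorem expa_pair {n : ℕ} (hr : 0 < r) (S T : Finset (Fin n)) (hS : 2 * S.card ≤ n) :
    pr (fun π : Cfg n r => outN π S ⊆ T) ≤ (2 * (T.card : ℝ) / n) ^ (r * S.card) := by
  have h := pr_mapTo (S ×ˢ (univ : Finset (Fin r))) (fun _ => T ×ˢ (univ : Finset (Fin r))) (by
    rw [card_product, card_univ, Fintype.card_fin, ← mul_assoc]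
    exact Nat.mul_le_mul_right r hS)
  rw [prod_const, card_product, card_product, card_univ, Fintype.card_fin, Nat.cast_mul,
    ← mul_assoc, mul_div_mul_right _ _ (Nat.cast_ne_zero.2 hr.ne'), mul_comm S.card r] at h
  refine le_trans (pr_mono fun π hπ s hs => ?_) h
  exact mem_product.2 ⟨hπ (mem_image_of_mem _ hs), mem_univ _⟩

theorem expa_level {n s : ℕ} (hr : 0 < r) (hs : 0 < s) (hn : 2 * s ≤ n) (j : ℕ) :
    pr (fun π : Cfg n r => ∃ S : Finset (Fin n), S.card = s ∧ (S ∪ outN π S).card + j ≤ r * s) ≤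
      (Real.exp 2 * (2 * r) ^ r) ^ s * ((s : ℝ) / n) ^ j := by
  rcases lt_or_ge (r * s) (s + j) with hj | hj
  · rw [pr_eq_zero]
    · positivity
    · rintro π ⟨S, h1, h2⟩
      have := card_le_card (subset_union_left (s₁ := S) (s₂ := outN π S))
      omega
  obtain ⟨k, hk⟩ : ∃ k, r * s = s + k + j := ⟨r * s - s - j, by omega⟩
  have hs0 : (0 : ℝ) < s := by exact_mod_cast hs
  have hn0 : (0 : ℝ) < n := by exact_mod_cast (show 0 < n by omega)
  have hl0 : (0 : ℝ) < s / n := by positivity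
  have hl1 : (s : ℝ) / n ≤ 1 := (div_le_one hn0).2 (by exact_mod_cast (show s ≤ n by omega))
  have hcard : ∀ m : ℕ, (((univ : Finset (Finset (Fin n))).filter fun S => S.card ≤ m).card : ℝ) ≤
      ((n : ℝ) / s) ^ m * Real.exp s := fun m => by
    have := card_subsets_le (α := Fin n) m hl0 hl1
    rwa [Fintype.card_fin, div_mul_cancel₀ _ hn0.ne', one_div_div] at this
  have h1 := pr_exists_le_card
    (((univ : Finset (Finset (Fin n))).filter fun S => S.card = s) ×ˢ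
      ((univ : Finset (Finset (Fin n))).filter fun S => S.card ≤ k))
    (fun x (π : Cfg n r) => outN π x.1 ⊆ x.1 ∪ x.2) (b := (2 * r * ((s : ℝ) / n)) ^ (r * s))
    (fun x hx => by
      have a1 := (mem_filter.1 (mem_product.1 hx).1).2
      have a2 := (mem_filter.1 (mem_product.1 hx).2).2
      refine (expa_pair hr x.1 (x.1 ∪ x.2) (by omega)).trans ?_
      rw [a1]
      refine pow_le_pow_left₀ (by positivity) ?_ _
      rw [← mul_div_assoc, mul_assoc]
      refine div_le_div_of_nonneg_right (mul_le_mul_of_nonneg_left ?_ (by norm_num)) hn0.le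
      have a3 := card_union_le x.1 x.2
      exact_mod_cast (show (x.1 ∪ x.2).card ≤ r * s by omega))
  refine le_trans (pr_mono ?_) (h1.trans ?_)
  · rintro π ⟨S, h2, h3⟩
    refine ⟨(S, outN π S \ S), mem_product.2 ⟨mem_filter.2 ⟨mem_univ _, h2⟩,
      mem_filter.2 ⟨mem_univ _, ?_⟩⟩, ?_⟩
    · have := card_sdiff_add_card (outN π S) S
      rw [union_comm] at this
      change (outN π S \ S).card ≤ k
      omega
    · change outN π S ⊆ S ∪ outN π S \ S
      rw [union_sdiff_self_eq_union]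
      exact subset_union_right
  · have a1 : (((univ : Finset (Finset (Fin n))).filter fun S => S.card = s).card : ℝ) ≤
        ((n : ℝ) / s) ^ s * Real.exp s :=
      le_trans (Nat.cast_le.2 (card_le_card fun S hS =>
        mem_filter.2 ⟨mem_univ _, (mem_filter.1 hS).2.le⟩)) (hcard s)
    rw [card_product, Nat.cast_mul]
    refine (mul_le_mul_of_nonneg_right (mul_le_mul a1 (hcard k) (by positivity) (by positivity))
      (by positivity)).trans (le_of_eq ?_)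
    have a2 : ((n : ℝ) / s) * ((s : ℝ) / n) = 1 := by field_simp
    have a3 : Real.exp 2 ^ s = Real.exp s * Real.exp s := by
      rw [← Real.exp_nat_mul, ← Real.exp_add]; congr 1; ring
    rw [mul_pow (2 * (r : ℝ)), mul_pow (Real.exp 2), a3, ← pow_mul]
    obtain ⟨D, hD⟩ : ∃ D, D = (2 * (r : ℝ)) ^ (r * s) := ⟨_, rfl⟩
    rw [← hD, hk, pow_add, pow_add]
    calc ((n : ℝ) / s) ^ s * Real.exp s * (((n : ℝ) / s) ^ k * Real.exp s) *
          (D * (((s : ℝ) / n) ^ s * ((s : ℝ) / n) ^ k * ((s : ℝ) / n) ^ j))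
        = (((n : ℝ) / s) * ((s : ℝ) / n)) ^ s * (((n : ℝ) / s) * ((s : ℝ) / n)) ^ k *
          (Real.exp s * Real.exp s * D * ((s : ℝ) / n) ^ j) := by
          rw [mul_pow, mul_pow]; ring
      _ = _ := by rw [a2, one_pow, one_pow, one_mul, one_mul]

theorem expa_one_le (hr : 0 < r) : 1 ≤ Real.exp 2 * (2 * (r : ℝ)) ^ r := by
  have h1 : (1 : ℝ) ≤ r := by exact_mod_cast hr
  exact one_le_mul_of_one_le_of_one_le (Real.one_le_exp (by norm_num))
    (one_le_pow₀ (by linarith))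

theorem expa_term {x y : ℝ} (i : ℕ) (h0 : 0 ≤ x) (h1 : x ≤ 1 / 8) (hy : 0 ≤ y)
    (h2 : x ≤ y * ((i + 3 : ℕ) : ℝ)) : x ^ (i + 3) ≤ (8 * y) ^ 3 := by
  have k1 : x ^ i ≤ ((1 / 2) ^ i) ^ 3 := by
    rw [← pow_mul, mul_comm, pow_mul]
    exact pow_le_pow_left₀ h0 (by linarith) i
  have k2 : ((i + 3 : ℕ) : ℝ) ≤ 2 ^ (i + 3) := by exact_mod_cast Nat.lt_two_pow_self.le
  have k3 : x ≤ y * 2 ^ (i + 3) := h2.trans (mul_le_mul_of_nonneg_left k2 hy)
  have k4 : (1 / 2 : ℝ) ^ i * (y * 2 ^ (i + 3)) = 8 * y := by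
    rw [pow_add, one_div, inv_pow]
    field_simp
    norm_num
  rw [pow_add, ← k4, mul_pow]
  exact mul_le_mul k1 (pow_le_pow_left₀ h0 k3 3) (by positivity) (by positivity)

theorem expa_rpow {n : ℕ} : (n : ℝ) ^ (-(2 : ℝ)) = ((n : ℝ) ^ 2)⁻¹ := by
  rw [Real.rpow_neg (Nat.cast_nonneg n), Real.rpow_two]

theorem rare_X2 (hr : 3 ≤ r) :
    ∃ φ₀ : ℝ, 0 < φ₀ ∧ ∀ φ ≤ φ₀, Rare r fun _ π => ¬ X2 φ π := by
  classical
  have hr0 : 0 < r := by omega
  obtain ⟨D, hD⟩ : ∃ D, D = Real.exp 2 * (2 * (r : ℝ)) ^ r := ⟨_, rfl⟩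
  have hD1 : 1 ≤ D := hD ▸ expa_one_le hr0
  have hC1 : 1 ≤ D ^ 6 := one_le_pow₀ hD1
  refine ⟨1 / (8 * D ^ 6), by positivity, fun φ hφ => rare_of_pow (a := 2) (by norm_num)
    (2 * (48 * D ^ 6) ^ 3) ?_⟩
  filter_upwards [eventually_ge_atTop 1] with n hn
  have hn1 : (1 : ℝ) ≤ n := by exact_mod_cast hn
  have h1 := pr_exists_le_card
    ((range (n + 1)).filter fun s : ℕ => 40 ≤ s ∧ 8 * D ^ 6 * (s : ℝ) ≤ n)
    (fun s (π : Cfg n r) => ∃ S : Finset (Fin n), S.card = s ∧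
      (S ∪ outN π S).card + s / 5 ≤ r * s) (b := (8 * (6 * D ^ 6 / n)) ^ 3)
    (fun s hs => by
      obtain ⟨a1, a2⟩ := (mem_filter.1 hs).2
      have a3 : 8 * (s : ℝ) ≤ n := by
        have := mul_le_mul_of_nonneg_right hC1 (Nat.cast_nonneg (α := ℝ) s)
        linarith
      have a4 : 8 * s ≤ n := by exact_mod_cast a3
      refine (expa_level hr0 (by omega) (by omega) _).trans ?_
      obtain ⟨i, hi⟩ : ∃ i, s / 5 = i + 3 := ⟨s / 5 - 3, by omega⟩
      have a5 : D ^ s ≤ (D ^ 6) ^ (i + 3) := by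
        rw [← pow_mul]
        exact pow_le_pow_right₀ hD1 (by omega)
      rw [← hD, hi]
      refine (mul_le_mul_of_nonneg_right a5 (by positivity)).trans ?_
      rw [← mul_pow]
      refine expa_term i (by positivity) ?_ (by positivity) ?_
      · rw [← mul_div_assoc, div_le_iff₀ (by linarith)]
        linarith
      · have a6 : (s : ℝ) ≤ 6 * ((i + 3 : ℕ) : ℝ) := by
          exact_mod_cast (show s ≤ 6 * (i + 3) by omega)
        rw [← mul_div_assoc, div_mul_eq_mul_div]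
        refine div_le_div_of_nonneg_right ?_ (by linarith)
        have := mul_le_mul_of_nonneg_left a6 (show 0 ≤ D ^ 6 by positivity)
        linarith)
  refine le_trans (pr_mono fun π hπ => ?_) (h1.trans ?_)
  · simp only [X2, not_forall, not_le] at hπ
    obtain ⟨S, a1, a2, a3⟩ := hπ
    refine ⟨S.card, mem_filter.2 ⟨mem_range.2 (Nat.lt_succ_of_le ?_), a1, ?_⟩, S, rfl, ?_⟩
    · simpa using card_le_univ S
    · have a4 := a2.trans (mul_le_mul_of_nonneg_right hφ (Nat.cast_nonneg n))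
      rwa [div_mul_eq_mul_div, one_mul, le_div_iff₀' (by positivity)] at a4
    · have a4 : ((5 * (S ∪ outN π S).card + S.card : ℕ) : ℝ) < ((5 * (r * S.card) : ℕ) : ℝ) := by
        push_cast
        linarith
      have a5 := Nat.cast_lt.1 a4
      omega
  · have a1 : (((range (n + 1)).filter fun s : ℕ => 40 ≤ s ∧ 8 * D ^ 6 * (s : ℝ) ≤ n).card : ℝ) ≤ 2 * n := by
      have := (card_filter_le (range (n + 1)) fun s : ℕ => 40 ≤ s ∧ 8 * D ^ 6 * (s : ℝ) ≤ n)
      rw [card_range] at this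
      exact_mod_cast this.trans (by omega)
    refine (mul_le_mul_of_nonneg_right a1 (by positivity)).trans (le_of_eq ?_)
    rw [expa_rpow]
    field_simp
    norm_num

theorem rare_X3 (hr : 3 ≤ r) : Rare r fun _ π => ¬ X3 π := by
  have hr0 : 0 < r := by omega
  obtain ⟨D, hD⟩ : ∃ D, D = Real.exp 2 * (2 * (r : ℝ)) ^ r := ⟨_, rfl⟩
  have hD1 : 1 ≤ D := hD ▸ expa_one_le hr0
  refine rare_of_pow (a := 2) (by norm_num) (39 * (D ^ 40 * 1600)) ?_
  filter_upwards [eventually_ge_atTop 80] with n hn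
  have hn0 : (0 : ℝ) < n := by exact_mod_cast (show 0 < n by omega)
  have h1 := pr_exists_le_card (Icc 2 40)
    (fun s (π : Cfg n r) => ∃ S : Finset (Fin n), S.card = s ∧
      (S ∪ outN π S).card + 2 ≤ r * s) (b := D ^ 40 * (40 / n) ^ 2)
    (fun s hs => by
      obtain ⟨a1, a2⟩ := mem_Icc.1 hs
      refine (expa_level hr0 (by omega) (by omega) _).trans ?_
      rw [← hD]
      refine mul_le_mul (pow_le_pow_right₀ hD1 a2) (pow_le_pow_left₀ (by positivity)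
        (div_le_div_of_nonneg_right (by exact_mod_cast a2) hn0.le) 2) (by positivity)
        (by positivity))
  refine le_trans (pr_mono fun π hπ => ?_) (h1.trans (le_of_eq ?_))
  · simp only [X3, not_forall, not_lt] at hπ
    obtain ⟨S, a1, a2, a3⟩ := hπ
    refine ⟨S.card, mem_Icc.2 ⟨a1, a2⟩, S, rfl, ?_⟩
    have a4 := Nat.mul_le_mul_right S.card hr
    rw [add_mul] at a3
    omega
  · rw [expa_rpow, Nat.card_Icc]
    field_simp
    norm_num

end Pool.Agent.OKM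

end FileExpA

section FileExpB

/-!
Expansion of large sets. If `X4` fails for `S`, `|S| = s ∈ [φ n/2, (1-φ/2) n]`, then `outN π S ⊆ T`
for a set `T` with `|T| = s + m`, `m = ⌊κ n⌋` (enlarge it; `s + m ≤ n` when `κ ≤ φ/2`; note
`|outN| < s + κ n` gives `|outN| ≤ s + m`). By `pr_mapInto` the probability is at most
`C(r(s+m), r s) / C(r n, r s)`. Use `C(r n, r s) ≥ C(n,s)^r` (Vandermonde-type product bound,
induction on `r` from `C(a+b, i+j) ≥ C(a,i) C(b,j)`, `Nat.add_choose_eq`),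
`C(n, s+m) ≤ C(n,s) (n/s)^m ≤ C(n,s) (2/φ)^m`,
`C(r(s+m), r s) = C(r(s+m), r m) ≤ (e (s+m)/m)^(r m) ≤ (2e/κ)^(r κ n)` (when `κ n ≥ 2`; or use
`card_subsets_le`-style bound `C(N,k) ≤ λ^(-k) e^(λ N)` with `λ = κ`),
`C(n,s) ≥ 2^(min s (n-s)) ≥ 2^(φ n / 2)`. With `r ≥ 3` the total for given `s` is at most
`2^(-φ n/2) (2/φ)^(κ n) (1/κ)^(r κ n) e^(r κ n)`, which is `≤ e^(-φ n / 10)` for `κ` small
(`κ log (1/κ) → 0`, e.g. `log (1/κ) ≤ 2/√κ`). Sum over `s ≤ n`.
`rare_exp` combines the three properties and their transposes (`Rare.inv`, `Rare.or`); `X4` is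
monotone in `κ`.
-/

open Finset Filter

namespace Pool.Agent.OKM

variable {r : ℕ}

theorem expb_mul_le (a b i j : ℕ) : a.choose i * b.choose j ≤ (a + b).choose (i + j) := by
  rw [Nat.add_choose_eq]
  exact Finset.single_le_sum (f := fun ij : ℕ × ℕ => a.choose ij.1 * b.choose ij.2)
    (fun _ _ => Nat.zero_le _) (a := (i, j)) (by simp)

theorem expb_pow_le (n s k : ℕ) : n.choose s ^ k ≤ (n * k).choose (s * k) := by
  induction k with
  | zero => simp
  | succ k ih =>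
    rw [pow_succ, Nat.mul_succ, Nat.mul_succ]
    exact (Nat.mul_le_mul_right _ ih).trans (expb_mul_le _ _ _ _)

theorem expb_two_pow {n s : ℕ} (h : 2 * s ≤ n) : 2 ^ s ≤ n.choose s := by
  have h1 := expb_pow_le 2 1 s
  rw [Nat.choose_one_right, one_mul] at h1
  exact h1.trans (Nat.choose_le_choose _ h)

theorem expb_choose_ge {n s : ℕ} (hs : s ≤ n) {x : ℝ} (h1 : x ≤ s) (h2 : x ≤ (n : ℝ) - s) :
    Real.exp (x * Real.log 2) ≤ n.choose s := by
  have key : ∀ k : ℕ, x ≤ k → Real.exp (x * Real.log 2) ≤ ((2 ^ k : ℕ) : ℝ) := by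
    intro k hk
    have e : ((2 ^ k : ℕ) : ℝ) = Real.exp (k * Real.log 2) := by
      rw [Real.exp_nat_mul, Real.exp_log two_pos]; push_cast; rfl
    rw [e]
    exact Real.exp_le_exp.2 (mul_le_mul_of_nonneg_right hk (Real.log_nonneg one_le_two))
  rcases le_total (2 * s) n with h | h
  · exact (key s h1).trans (Nat.cast_le.2 (expb_two_pow h))
  · rw [← Nat.choose_symm hs]
    refine (key (n - s) (by rw [Nat.cast_sub hs]; exact h2)).trans
      (Nat.cast_le.2 (expb_two_pow (by omega)))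

theorem expb_choose_le (N k : ℕ) {κ : ℝ} (h0 : 0 < κ) :
    (N.choose k : ℝ) ≤ Real.exp (κ * N - k * Real.log κ) := by
  rcases le_or_gt k N with h | h
  · have h1 : κ ^ k * (N.choose k : ℝ) ≤ (κ + 1) ^ N := by
      rw [add_pow]
      have := Finset.single_le_sum (f := fun m => κ ^ m * 1 ^ (N - m) * (N.choose m : ℝ))
        (s := Finset.range (N + 1)) (fun _ _ => by positivity)
        (Finset.mem_range.2 (Nat.lt_succ_of_le h))
      simpa using this
    have h2 : (κ + 1) ^ N ≤ Real.exp (κ * N) := by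
      rw [mul_comm, Real.exp_nat_mul]
      exact pow_le_pow_left₀ (by positivity) (Real.add_one_le_exp κ) N
    rw [Real.exp_sub, Real.exp_nat_mul, Real.exp_log h0, le_div_iff₀ (by positivity), mul_comm]
    exact h1.trans h2
  · rw [Nat.choose_eq_zero_of_lt h, Nat.cast_zero]
    exact (Real.exp_pos _).le

theorem expb_split (n s m : ℕ) : n.choose (s + m) ≤ n.choose s * n.choose m := by
  have h := Nat.choose_mul (n := n) (k := s + m) (s := s) (Nat.le_add_right s m)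
  rw [Nat.add_sub_cancel_left] at h
  calc n.choose (s + m) ≤ n.choose (s + m) * (s + m).choose s :=
        Nat.le_mul_of_pos_right _ (Nat.choose_pos (Nat.le_add_right s m))
    _ = n.choose s * (n - s).choose m := h
    _ ≤ _ := Nat.mul_le_mul_left _ (Nat.choose_le_choose _ (Nat.sub_le _ _))

theorem expb_term (hr : 3 ≤ r) {n s m : ℕ} (hsm : s + m ≤ n) {κ x : ℝ} (h0 : 0 < κ) (h1 : κ ≤ 1)
    (hm : (m : ℝ) ≤ κ * n) (hx1 : x ≤ s) (hx2 : x ≤ (n : ℝ) - s) :
    (n.choose s : ℝ) * ((n.choose (s + m) : ℝ) *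
      ((((s + m) * r).choose (s * r) : ℝ) / ((n * r).choose (s * r) : ℝ))) ≤
      Real.exp ((r + 1) * (κ * (1 - Real.log κ)) * n - x * Real.log 2) := by
  have hs : s ≤ n := by omega
  have hc : (1 : ℝ) ≤ n.choose s := by exact_mod_cast Nat.choose_pos hs
  have hl : 0 ≤ -Real.log κ := neg_nonneg.2 (Real.log_nonpos h0.le h1)
  have hml := mul_le_mul_of_nonneg_right hm hl
  have hr0 : (0 : ℝ) ≤ r := Nat.cast_nonneg r
  have a1 : (n.choose (s + m) : ℝ) ≤ n.choose s * Real.exp (κ * (1 - Real.log κ) * n) := by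
    have b1 : (n.choose (s + m) : ℝ) ≤ n.choose s * n.choose m := by
      exact_mod_cast expb_split n s m
    refine b1.trans (mul_le_mul_of_nonneg_left ((expb_choose_le n m h0).trans
      (Real.exp_le_exp.2 (by linarith))) (by linarith))
  have a2 : (((s + m) * r).choose (s * r) : ℝ) ≤ Real.exp (r * (κ * (1 - Real.log κ) * n)) := by
    rw [add_mul, Nat.choose_symm_add]
    refine (expb_choose_le _ _ h0).trans (Real.exp_le_exp.2 ?_)
    have b1 : (s : ℝ) + m ≤ n := by exact_mod_cast hsm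
    have b2 := mul_le_mul_of_nonneg_left b1 (mul_nonneg h0.le hr0)
    have b3 := mul_le_mul_of_nonneg_left hml hr0
    push_cast
    linarith
  have a3 : (n.choose s : ℝ) ^ 3 ≤ ((n * r).choose (s * r) : ℝ) :=
    (pow_le_pow_right₀ hc hr).trans (by exact_mod_cast expb_pow_le n s r)
  have a4 := expb_choose_ge hs hx1 hx2
  have hc0 : (0 : ℝ) < n.choose s := by linarith
  calc (n.choose s : ℝ) * ((n.choose (s + m) : ℝ) *
      ((((s + m) * r).choose (s * r) : ℝ) / ((n * r).choose (s * r) : ℝ)))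
      ≤ n.choose s * (n.choose s * Real.exp (κ * (1 - Real.log κ) * n) *
        (Real.exp (r * (κ * (1 - Real.log κ) * n)) / (n.choose s : ℝ) ^ 3)) := by
        gcongr
    _ = Real.exp (κ * (1 - Real.log κ) * n) * Real.exp (r * (κ * (1 - Real.log κ) * n)) /
        n.choose s := by field_simp
    _ ≤ Real.exp (κ * (1 - Real.log κ) * n) * Real.exp (r * (κ * (1 - Real.log κ) * n)) /
        Real.exp (x * Real.log 2) := by gcongr
    _ = _ := by rw [← Real.exp_add, ← Real.exp_sub]; congr 1; ring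

theorem expb_pr (hr : 3 ≤ r) {φ κ : ℝ} (h0 : 0 < κ) (hκ : κ ≤ φ / 2) (h1 : φ ≤ 1) (n : ℕ) :
    pr (fun π : Cfg n r => ¬ X4 φ κ π) ≤
      (n + 1) * Real.exp ((r + 1) * (κ * (1 - Real.log κ)) * n - φ * n / 2 * Real.log 2) := by
  classical
  have hn : (0 : ℝ) ≤ n := Nat.cast_nonneg n
  have hm : (⌊κ * n⌋₊ : ℝ) ≤ κ * n := Nat.floor_le (by positivity)
  generalize hmd : ⌊κ * n⌋₊ = m at hm
  have hκn := mul_le_mul_of_nonneg_right hκ hn
  let I : Finset ℕ := (range (n + 1)).filter fun s => φ * n / 2 ≤ s ∧ (s : ℝ) ≤ (1 - φ / 2) * n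
  have hI : ∀ s ∈ I, s + m ≤ n := by
    intro s hs
    have h2 := (mem_filter.1 hs).2.2
    have : (s : ℝ) + m ≤ n := by linarith
    exact_mod_cast this
  refine (pr_mono (F := fun π => ∃ s ∈ I, ∃ S ∈ powersetCard s (univ : Finset (Fin n)),
    ∃ T ∈ powersetCard (s + m) (univ : Finset (Fin n)),
      ∀ x ∈ S ×ˢ (univ : Finset (Fin r)), π x ∈ T ×ˢ (univ : Finset (Fin r))) ?_).trans ?_
  · intro π h
    unfold X4 at h
    push Not at h
    obtain ⟨S, k1, k2, k3⟩ := h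
    have hS : S.card ∈ I := mem_filter.2 ⟨mem_range.2 (Nat.lt_succ_of_le
      ((card_le_univ S).trans (by simp))), k1, k2⟩
    have k4 : (outN π S).card ≤ S.card + m := by
      have b1 := Nat.lt_floor_add_one (κ * n)
      rw [hmd] at b1
      have : ((outN π S).card : ℝ) < S.card + m + 1 := by linarith
      have : (outN π S).card < S.card + m + 1 := by exact_mod_cast this
      omega
    obtain ⟨T, t1, -, t3⟩ := exists_subsuperset_card_eq (subset_univ (outN π S)) k4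
      (by simpa using hI _ hS)
    refine ⟨_, hS, S, mem_powersetCard.2 ⟨subset_univ _, rfl⟩, T,
      mem_powersetCard.2 ⟨subset_univ _, t3⟩, fun x hx => mem_product.2 ⟨t1 ?_, mem_univ _⟩⟩
    exact mem_image_of_mem (hd π) hx
  refine (pr_exists_le_card I _ (b := Real.exp ((r + 1) * (κ * (1 - Real.log κ)) * n -
    φ * n / 2 * Real.log 2)) fun s hs => ?_).trans
    (mul_le_mul_of_nonneg_right ?_ (Real.exp_pos _).le)
  · obtain ⟨-, k1, k2⟩ := mem_filter.1 hs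
    refine le_trans ?_ (expb_term hr (hI s hs) h0 (by linarith) hm k1 (by linarith))
    refine (pr_exists_le_card _ _ (b := (n.choose (s + m) : ℝ) *
      ((((s + m) * r).choose (s * r) : ℝ) / ((n * r).choose (s * r) : ℝ))) fun S hS => ?_).trans
      (by simp)
    refine (pr_exists_le_card _ _
      (b := (((s + m) * r).choose (s * r) : ℝ) / ((n * r).choose (s * r) : ℝ))
      fun T hT => ?_).trans (by simp)
    refine (pr_mapInto _ _).trans (le_of_eq ?_)
    rw [card_product, card_product, (mem_powersetCard.1 hS).2, (mem_powersetCard.1 hT).2,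
      card_univ, Fintype.card_fin]
  · have : I.card ≤ n + 1 := (card_filter_le _ _).trans (by simp)
    exact_mod_cast this

theorem rare_X4 (hr : 3 ≤ r) {φ : ℝ} (h0 : 0 < φ) (h1 : φ ≤ 1) :
    ∃ κ : ℝ, 0 < κ ∧ Rare r fun _ π => ¬ X4 φ κ π := by
  have hr0 : (0 : ℝ) ≤ r := Nat.cast_nonneg r
  obtain ⟨t, ht⟩ : ∃ t : ℝ, t = φ / (30 * (r + 1)) := ⟨_, rfl⟩
  have ht0 : 0 < t := by rw [ht]; positivity
  have ht1 : 30 * (r + 1) * t = φ := by rw [ht]; field_simp
  have ht2 : 30 * t ≤ φ := by nlinarith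
  have hlog : t * t * (1 - Real.log (t * t)) ≤ 3 * t := by
    have b1 := Real.log_le_sub_one_of_pos (inv_pos.2 ht0)
    rw [Real.log_inv] at b1
    have b2 := mul_le_mul_of_nonneg_left b1 ht0.le
    rw [mul_sub, mul_inv_cancel₀ ht0.ne'] at b2
    rw [Real.log_mul ht0.ne' ht0.ne']
    nlinarith
  refine ⟨t * t, by positivity, rare_of_le (f := fun n : ℕ =>
    (n : ℝ) ^ 1 * Real.exp (-(φ / 5) * n) + (n : ℝ) ^ 0 * Real.exp (-(φ / 5) * n))
    ((Real.summable_pow_mul_exp_neg_nat_mul 1 (by positivity)).add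
      (Real.summable_pow_mul_exp_neg_nat_mul 0 (by positivity))) (Eventually.of_forall fun n => ?_)⟩
  refine (expb_pr hr (by positivity) (by nlinarith) h1 n).trans ?_
  have hn : (0 : ℝ) ≤ n := Nat.cast_nonneg n
  rw [pow_one, pow_zero, ← add_mul]
  refine mul_le_mul_of_nonneg_left (Real.exp_le_exp.2 ?_) (by positivity)
  have b1 : (r + 1) * (t * t * (1 - Real.log (t * t))) ≤ φ / 10 := by
    have := mul_le_mul_of_nonneg_left hlog (show (0 : ℝ) ≤ r + 1 by positivity)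
    linarith
  have b2 := mul_le_mul_of_nonneg_right b1 hn
  have b3 := mul_le_mul_of_nonneg_left Real.log_two_gt_d9.le
    (show (0 : ℝ) ≤ φ * n / 2 by positivity)
  have b4 : 0 ≤ φ * n := by positivity
  linarith

theorem rare_exp (hr : 3 ≤ r) :
    ∃ φ κ : ℝ, 0 < φ ∧ φ ≤ 1 / 2 ∧ 0 < κ ∧ κ ≤ φ ∧ Rare r fun _ π => ¬ Exp φ κ π := by
  obtain ⟨φ₀, h0, h2⟩ := rare_X2 hr
  have hφ : 0 < min φ₀ (1 / 2) := lt_min h0 (by norm_num)
  have hφ2 : min φ₀ (1 / 2) ≤ 1 / 2 := min_le_right _ _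
  obtain ⟨κ, hκ, h4⟩ := rare_X4 hr hφ (by linarith)
  have h2' := h2 _ (min_le_left φ₀ (1 / 2))
  generalize min φ₀ (1 / 2) = φ at *
  have hE : Rare r fun _ π => ¬ Exp1 φ (min κ φ) π := by
    refine ((h2'.or (rare_X3 hr)).or h4).mono (Eventually.of_forall fun n π h => ?_)
    by_contra hc
    push Not at hc
    refine h ⟨hc.1.1, hc.1.2, fun S k1 k2 => le_trans ?_ (hc.2 S k1 k2)⟩
    have := mul_le_mul_of_nonneg_right (min_le_left κ φ) (Nat.cast_nonneg (α := ℝ) n)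
    linarith
  refine ⟨φ, min κ φ, hφ, hφ2, lt_min hκ hφ, min_le_right _ _,
    (hE.or hE.inv).mono (Eventually.of_forall fun n π h => ?_)⟩
  exact not_and_or.1 h

end Pool.Agent.OKM

end FileExpB

section FilePeel

/-!
Consequences of expansion.
`peel_set`: `T = X ∪ outN π⁻¹ X` is the set of rows touching `X` (`mem_union_outN_inv`). The number
of pairs (row, coordinate of `X`) that touch is at most `(r+1)|X|` (`card_touch_col`), so the number
`u` of rows touching exactly one coordinate of `X` satisfies `2|T| - u ≤ (r+1)|X|`. If `|X| ≥ 40`,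
`X2` for `π⁻¹` gives `u ≥ (r - 7/5)|X| ≥ 8/5 |X|`; rows of `J` touching `X` are at most `|X|`
(`Sparse`), so `≥ 3/5 |X|` unique rows lie outside `J`, and each coordinate is touched by at most
`r+1` rows. If `J = ∅` and `2 ≤ |X| ≤ 40`, `X3` gives `u ≥ 1`; `|X| ≤ 1` is direct (row `j`).
`peel_norm`: for `j ∈ P` with its row `i`, `app π z y i = (m - z [i = j]) * y j` where `m` is the number
of stubs of `i` with head `j`; the coefficient has norm `≥ ρ` (imaginary part if `i = j`, `m ≥ 1`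
otherwise). Distinct `j` have distinct rows.
`sparse_inv`: induction on `k`: if `|X| < (1 - 1/(40 r))^(-k)` equivalently prove by strong
induction on `|X|` that `nrm y ≤ D^(k) * nrm (app y)` whenever `|X| * (1 - 1/(40r))^k < 1`, with
`D = 1/ρ + 1 + 2r/ρ`: split `y = onS P y + offS P y`, the second part is supported on `X \ P` and
`nrm (app (offS P y)) ≤ (1 + 2r/ρ) nrm (app y)`. Take `k = ⌈40 r log n⌉ + 1`.
`spread`: let `X` be the complement of the cluster; if `|X| ≤ φ' n` with `φ' = min φ (1/(2(r+1)))`,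
some row `i` does not touch `X`, so `|(r - z) ζ| ≤ a + 2 r a` (`a = n^(-C)`), and `|r - z| ≥ r - √r ≥ 1`;
hence `|v j| ≤ (2r+2) a` off `X`; apply `sparse_inv` to `onS X v`.
`cheeger`: `|outN R| ≥ |R ∪ outN R| - |R|`; for `|R| = 1` use `Simple`.
`nonusable`: if `|S| ≤ φ n` use `X2`; otherwise apply `X4` to `S` or to a subset of `S` of size
`⌊(1 - φ/2) n⌋` (which is impossible).
-/

open Finset Filter

namespace Pool.Agent.OKM

variable {n r : ℕ}

open Classical in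
/-- rows touching exactly one coordinate of `X` -/
theorem peel_count (π : Cfg n r) (X : Finset (Fin n)) :
    2 * (X ∪ outN π⁻¹ X).card ≤ (r + 1) * X.card +
      (univ.filter fun i => (X.filter fun j => Touch π i j).card = 1).card := by
  have h1 : ∑ i, (X.filter fun j => Touch π i j).card ≤ (r + 1) * X.card := by
    have e : ∑ i, (X.filter fun j => Touch π i j).card =
        ∑ j ∈ X, (univ.filter fun i => Touch π i j).card := by
      simp only [card_filter]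
      exact sum_comm
    rw [e, mul_comm]
    exact sum_le_card_nsmul _ _ _ fun j _ => card_touch_col π j
  refine le_trans ?_ (Nat.add_le_add_right h1 _)
  rw [card_filter, ← sum_add_distrib, mul_comm, ← smul_eq_mul, ← sum_const]
  refine le_trans (sum_le_sum fun i hi => ?_) (sum_le_sum_of_subset (subset_univ _))
  obtain ⟨j, hj, ht⟩ := (mem_union_outN_inv π X i).1 hi
  have : 0 < (X.filter fun j => Touch π i j).card := card_pos.2 ⟨j, mem_filter.2 ⟨hj, ht⟩⟩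
  split_ifs <;> omega

theorem peel_set (hr : 3 ≤ r) {φ κ : ℝ} {π : Cfg n r} (hE : Exp1 φ κ π⁻¹) {J X : Finset (Fin n)}
    (hJ : Sparse π J) (hX : (X.card : ℝ) ≤ φ * n) (h40 : 40 ≤ X.card ∨ J = ∅) :
    ∃ P ⊆ X, X.card ≤ 40 * r * P.card ∧
      ∀ j ∈ P, ∃ i ∉ J, Touch π i j ∧ ∀ j' ∈ X, Touch π i j' → j' = j := by
  classical
  obtain ⟨P, hP⟩ : ∃ P, P = X.filter fun j =>
    ∃ i ∉ J, Touch π i j ∧ ∀ j' ∈ X, Touch π i j' → j' = j := ⟨_, rfl⟩
  refine ⟨P, hP ▸ filter_subset _ _, ?_, fun j hj => by rw [hP, mem_filter] at hj; exact hj.2⟩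
  have h1 := peel_count π X
  obtain ⟨U, hU⟩ : ∃ U, U = univ.filter fun i => (X.filter fun j => Touch π i j).card = 1 :=
    ⟨_, rfl⟩
  rw [← hU] at h1
  have hU' : ∀ i ∈ U, ∃ j ∈ X, Touch π i j ∧ ∀ j' ∈ X, Touch π i j' → j' = j := by
    intro i hi
    rw [hU, mem_filter] at hi
    obtain ⟨j, hj⟩ := card_eq_one.1 hi.2
    have h2 : j ∈ X.filter fun j => Touch π i j := hj ▸ mem_singleton_self j
    exact ⟨j, (mem_filter.1 h2).1, (mem_filter.1 h2).2, fun j' hj' ht =>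
      mem_singleton.1 (hj ▸ mem_filter.2 ⟨hj', ht⟩)⟩
  have h2 : (U \ J).card ≤ P.card * (r + 1) := by
    refine le_trans (card_le_card fun i hi => ?_) (card_biUnion_le_card_mul P
      (fun j => univ.filter fun i => Touch π i j) _ fun j _ => card_touch_col π j)
    obtain ⟨j, hj, ht, hu⟩ := hU' i (mem_sdiff.1 hi).1
    exact mem_biUnion.2 ⟨j, hP ▸ mem_filter.2 ⟨hj, i, (mem_sdiff.1 hi).2, ht, hu⟩,
      mem_filter.2 ⟨mem_univ _, ht⟩⟩
  have h3 : (U ∩ J).card ≤ X.card * 1 := by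
    refine le_trans (card_le_card fun i hi => ?_) (card_biUnion_le_card_mul X
      (fun j => J.filter fun i => Touch π i j) _ fun j _ => card_le_one.2 fun a ha b hb =>
        hJ j a (mem_filter.1 ha).1 b (mem_filter.1 hb).1 (mem_filter.1 ha).2 (mem_filter.1 hb).2)
    obtain ⟨j, hj, ht, -⟩ := hU' i (mem_inter.1 hi).1
    exact mem_biUnion.2 ⟨j, hj, mem_filter.2 ⟨(mem_inter.1 hi).2, ht⟩⟩
  have h4 := card_sdiff_add_card_inter U J
  by_cases hc : 40 ≤ X.card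
  · have h5 := hE.1 X hc hX
    have h6 : (5 * r) * X.card ≤ 5 * (X ∪ outN π⁻¹ X).card + X.card := by
      have : ((5 * r : ℕ) : ℝ) * X.card ≤ 5 * (X ∪ outN π⁻¹ X).card + X.card := by
        push_cast; linarith
      exact_mod_cast this
    have h7 : 3 * X.card ≤ r * X.card := Nat.mul_le_mul_right _ hr
    have h8 : 3 * P.card ≤ r * P.card := Nat.mul_le_mul_right _ hr
    nlinarith
  · have hJ0 : J = ∅ := h40.resolve_left hc
    subst hJ0
    by_cases h1' : X.card ≤ 1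
    · have : X ⊆ P := fun j hj => hP ▸ mem_filter.2 ⟨hj, j, notMem_empty _, touch_refl π j,
        fun j' hj' _ => card_le_one.1 h1' j' hj' j hj⟩
      exact (card_le_card this).trans (Nat.le_mul_of_pos_left _ (by omega))
    · have h5 := hE.2.1 X (by omega) (by omega)
      rw [sdiff_empty] at h2
      have h6 : 1 ≤ P.card := by
        by_contra h0
        have : P.card = 0 := by omega
        rw [this] at h2
        omega
      nlinarith

theorem peel_norm {π : Cfg n r} {z : ℂ} {ρ : ℝ} (hρ1 : ρ ≤ 1) (hz : ρ ≤ |z.im|)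
    {J X P : Finset (Fin n)} (hPX : P ⊆ X)
    (hP : ∀ j ∈ P, ∃ i ∉ J, Touch π i j ∧ ∀ j' ∈ X, Touch π i j' → j' = j)
    {y : Fin n → ℂ} (hy : ∀ a ∉ X, y a = 0) :
    ρ * nrm (onS P y) ≤ nrm (offS J (app π z y)) := by
  classical
  rcases le_or_gt ρ 0 with hρ | hρ
  · exact (mul_nonpos_of_nonpos_of_nonneg hρ (nrm_nonneg _)).trans (nrm_nonneg _)
  choose! f hfJ hfT hfU using hP
  have hpt : ∀ j ∈ P, ρ * ‖y j‖ ≤ ‖app π z y (f j)‖ := by
    intro j hj
    have h1 : ∀ j', Touch π (f j) j' → y j' = (if j' = j then 1 else 0) * y j := by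
      intro j' ht
      split_ifs with h
      · rw [h, one_mul]
      · rw [zero_mul]
        exact hy j' fun hx => h (hfU j hj j' hx ht)
    have h2 : app π z y (f j) = (((univ.filter fun a => hd π (f j, a) = j).card : ℂ) -
        z * if f j = j then 1 else 0) * y j := by
      rw [app, sum_congr rfl fun a _ => h1 _ (Or.inr ⟨a, rfl⟩), h1 _ (touch_refl π _),
        ← sum_mul, sum_boole]
      ring
    rw [h2, norm_mul]
    refine mul_le_mul_of_nonneg_right ?_ (norm_nonneg _)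
    split_ifs with h
    · refine hz.trans (le_trans (le_of_eq ?_) (Complex.abs_im_le_norm _))
      simp
    · obtain ⟨a, ha⟩ := (hfT j hj).resolve_left h
      have : 1 ≤ (univ.filter fun a => hd π (f j, a) = j).card :=
        card_pos.2 ⟨a, mem_filter.2 ⟨mem_univ _, ha⟩⟩
      rw [mul_zero, sub_zero, Complex.norm_natCast]
      exact hρ1.trans (by exact_mod_cast this)
  have hinj : Set.InjOn f P := fun j hj j' hj' h =>
    hfU j' hj' j (hPX hj) (h ▸ hfT j hj)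
  refine le_of_sq_le_sq ?_ (nrm_nonneg _)
  rw [mul_pow, nrm_onS_sq, nrm_offS_sq, mul_sum]
  calc ∑ j ∈ P, ρ ^ 2 * ‖y j‖ ^ 2 ≤ ∑ j ∈ P, ‖app π z y (f j)‖ ^ 2 :=
        sum_le_sum fun j hj => by
          rw [← mul_pow]
          exact pow_le_pow_left₀ (by positivity) (hpt j hj) 2
    _ = ∑ i ∈ P.image f, ‖app π z y i‖ ^ 2 :=
        (sum_image (f := fun i => ‖app π z y i‖ ^ 2) hinj).symm
    _ ≤ ∑ i ∈ Jᶜ, ‖app π z y i‖ ^ 2 := by
        refine sum_le_sum_of_subset_of_nonneg (fun i hi => ?_) fun _ _ _ => by positivity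
        obtain ⟨j, hj, rfl⟩ := mem_image.1 hi
        exact mem_compl.2 (hfJ j hj)

theorem peel_app_off (π : Cfg n r) {z : ℂ} (hz : ‖z‖ ≤ r) {x x' y : Fin n → ℂ}
    (h : x + x' = y) : nrm (app π z x') ≤ nrm (app π z y) + 2 * r * nrm x := by
  have e : x' = y - x := by rw [← h]; abel
  rw [e, app_sub]
  refine (nrm_sub_le _ _).trans (add_le_add le_rfl ((nrm_app_le π z x).trans ?_))
  exact mul_le_mul_of_nonneg_right (by linarith) (nrm_nonneg _)

theorem peel_iter (hr : 3 ≤ r) {ρ : ℝ} (hρ : 0 < ρ) (hρ1 : ρ ≤ 1) {φ κ : ℝ} {π : Cfg n r}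
    (hE : Exp φ κ π) {z : ℂ} (hz : z ∈ Om r ρ) (k : ℕ) : ∀ X : Finset (Fin n),
    (X.card : ℝ) ≤ φ * n → X.card * (1 - 1 / (40 * r : ℝ)) ^ k < 1 → ∀ y : Fin n → ℂ,
      (∀ a ∉ X, y a = 0) → nrm y ≤ (1 / ρ + 1 + 2 * r / ρ) ^ k * nrm (app π z y) := by
  have hr' : (3 : ℝ) ≤ r := by exact_mod_cast hr
  have hq : (0 : ℝ) ≤ 1 - 1 / (40 * r) := by
    rw [sub_nonneg, div_le_one (by positivity)]; linarith
  induction k with
  | zero =>
    intro X _ h y hy
    have h0 : X = ∅ := by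
      rw [pow_zero, mul_one] at h
      exact card_eq_zero.1 (Nat.lt_one_iff.1 (by exact_mod_cast h))
    have : y = 0 := funext fun a => hy a (by simp [h0])
    rw [this, nrm_zero]
    exact mul_nonneg (by positivity) (nrm_nonneg _)
  | succ k ih =>
    intro X hX h y hy
    obtain ⟨P, hPX, hc, hP⟩ := peel_set hr hE.2 (sparse_empty π) hX (Or.inr rfl)
    have h1 := peel_norm hρ1 hz.2 hPX hP hy
    rw [offS_empty, ← le_div_iff₀' hρ] at h1
    have h2 := peel_app_off π (om_norm_le' hρ hz) (onS_add_offS P y)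
    have h3 : ((X \ P).card : ℝ) ≤ X.card * (1 - 1 / (40 * r)) := by
      have e1 : ((X \ P).card : ℝ) + P.card = X.card := by
        exact_mod_cast card_sdiff_add_card_eq_card hPX
      have e2 : (X.card : ℝ) ≤ 40 * r * P.card := by exact_mod_cast hc
      rw [← div_le_iff₀' (by positivity)] at e2
      rw [mul_sub, mul_one, mul_one_div]
      linarith
    have h4 := ih (X \ P) (le_trans (by exact_mod_cast card_le_card sdiff_subset) hX)
      (by
        refine lt_of_le_of_lt ?_ h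
        rw [pow_succ', ← mul_assoc]
        exact mul_le_mul_of_nonneg_right h3 (pow_nonneg hq k))
      (offS P y) fun a ha => by
        unfold offS
        split_ifs with haP
        · rfl
        · exact hy a fun hx => ha (mem_sdiff.2 ⟨hx, haP⟩)
    have h5 := nrm_add_le (onS P y) (offS P y)
    rw [onS_add_offS] at h5
    have hD : 1 ≤ (1 / ρ + 1 + 2 * r / ρ) ^ k := one_le_pow₀ (by
      have : 0 ≤ 1 / ρ := by positivity
      have : 0 ≤ 2 * r / ρ := by positivity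
      linarith)
    have ha := nrm_nonneg (app π z y)
    rw [pow_succ]
    generalize (1 / ρ + 1 + 2 * r / ρ) ^ k = B at h4 hD ⊢
    have h6 := mul_le_mul_of_nonneg_left (h2.trans (add_le_add le_rfl
      (mul_le_mul_of_nonneg_left h1 (by positivity)))) (zero_le_one.trans hD)
    have h7 : nrm (app π z y) / ρ ≤ B * (nrm (app π z y) / ρ) :=
      le_mul_of_one_le_left (by positivity) hD
    have e : B * (1 / ρ + 1 + 2 * r / ρ) * nrm (app π z y) = B * (nrm (app π z y) / ρ) +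
        B * (nrm (app π z y) + 2 * r * (nrm (app π z y) / ρ)) := by ring
    linarith

theorem sparse_inv (hr : 3 ≤ r) {ρ : ℝ} (hρ : 0 < ρ) (hρ1 : ρ ≤ 1) :
    ∃ C : ℝ, 0 < C ∧ ∀ n : ℕ, 3 ≤ n → ∀ (φ κ : ℝ) (π : Cfg n r), Exp φ κ π → ∀ z ∈ Om r ρ,
      ∀ X : Finset (Fin n), (X.card : ℝ) ≤ φ * n → ∀ y : Fin n → ℂ, (∀ a ∉ X, y a = 0) →
        nrm y ≤ (n : ℝ) ^ C * nrm (app π z y) := by
  have hr' : (3 : ℝ) ≤ r := by exact_mod_cast hr
  have hD : 1 < 1 / ρ + 1 + 2 * r / ρ := by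
    have : 0 < 1 / ρ := by positivity
    have : 0 ≤ 2 * r / ρ := by positivity
    linarith
  have hlog := Real.log_pos hD
  refine ⟨(40 * r + 2) * Real.log (1 / ρ + 1 + 2 * r / ρ), by positivity,
    fun n hn φ κ π hE z hz X hX y hy => ?_⟩
  have hn' : (3 : ℝ) ≤ n := by exact_mod_cast hn
  have hl : 1 ≤ Real.log n := by
    rw [Real.le_log_iff_exp_le (by positivity)]
    linarith [Real.exp_one_lt_d9]
  have hk1 := Nat.le_ceil (40 * r * Real.log n)
  have hk2 := (Nat.ceil_lt_add_one (show 0 ≤ 40 * r * Real.log n by positivity)).le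
  refine (peel_iter hr hρ hρ1 hE hz (⌈40 * r * Real.log n⌉₊ + 1) X hX ?_ y hy).trans
    (mul_le_mul_of_nonneg_right ?_ (nrm_nonneg _))
  · have h1 : (X.card : ℝ) ≤ n := by exact_mod_cast (card_le_univ X).trans_eq (Fintype.card_fin n)
    have hq : (0 : ℝ) ≤ 1 - 1 / (40 * r) := by
      rw [sub_nonneg, div_le_one (by positivity)]; linarith
    have h2 : (1 - 1 / (40 * r : ℝ)) ^ (⌈40 * r * Real.log n⌉₊ + 1) < 1 / n := by
      refine (pow_le_pow_left₀ hq (Real.one_sub_le_exp_neg _) _).trans_lt ?_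
      rw [← Real.exp_nat_mul, ← Real.lt_log_iff_exp_lt (by positivity), one_div (n : ℝ),
        Real.log_inv, mul_neg, neg_lt_neg_iff, mul_one_div, lt_div_iff₀ (by positivity)]
      push_cast
      linarith
    rw [lt_div_iff₀' (by positivity)] at h2
    exact (mul_le_mul_of_nonneg_right h1 (pow_nonneg hq _)).trans_lt h2
  · rw [Real.rpow_def_of_pos (by positivity), ← Real.exp_log (pow_pos (one_pos.trans hD) _),
      Real.log_pow, Real.exp_le_exp, ← mul_assoc]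
    refine mul_le_mul_of_nonneg_right ?_ hlog.le
    push_cast
    linarith

theorem spread (hr : 3 ≤ r) {ρ φ : ℝ} (hρ : 0 < ρ) (hρ1 : ρ ≤ 1) (hφ : 0 < φ) :
    ∃ C φ' : ℝ, 0 < C ∧ 0 < φ' ∧ φ' ≤ 1 ∧ ∀ᶠ n : ℕ in atTop, ∀ (κ : ℝ) (π : Cfg n r), Exp φ κ π →
      ∀ z ∈ Om r ρ, ∀ v : Fin n → ℂ, nrm v = 1 → nrm (app π z v) ≤ (n : ℝ) ^ (-C) →
        Clus v ((n : ℝ) ^ (-C)) ((1 - φ') * n) := by
  classical
  have hr' : (3 : ℝ) ≤ r := by exact_mod_cast hr
  obtain ⟨C, hC, hinv⟩ := sparse_inv hr hρ hρ1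
  refine ⟨C + 2, min φ (1 / (2 * (r + 1))), by positivity, by positivity,
    (min_le_right _ _).trans (by rw [div_le_one (by positivity)]; linarith), ?_⟩
  filter_upwards [eventually_ge_atTop 3, eventually_gt_atTop (1 + (2 * r + 1) * (2 * r + 2))]
    with n hn hnK κ π hE z hz v hv hav ζ
  have hn' : (3 : ℝ) ≤ n := by exact_mod_cast hn
  have hnK' : (1 + (2 * r + 1) * (2 * r + 2) : ℝ) < n := by exact_mod_cast hnK
  obtain ⟨a, ha⟩ : ∃ a, a = (n : ℝ) ^ (-(C + 2)) := ⟨_, rfl⟩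
  rw [← ha] at hav ⊢
  have ha0 : 0 < a := by rw [ha]; positivity
  by_contra hcon
  rw [not_le] at hcon
  obtain ⟨X, hX⟩ : ∃ X : Finset (Fin n), X = univ.filter fun j => ¬ ‖v j - ζ‖ ≤ a := ⟨_, rfl⟩
  have hXc : (X.card : ℝ) ≤ min φ (1 / (2 * (r + 1))) * n := by
    have h1 := card_filter_add_card_filter_not (s := (univ : Finset (Fin n)))
      fun j => ‖v j - ζ‖ ≤ a
    rw [← hX, card_univ, Fintype.card_fin] at h1
    have h2 : ((univ.filter fun j => ‖v j - ζ‖ ≤ a).card : ℝ) + X.card = n := by exact_mod_cast h1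
    linarith
  have hoff : ∀ j ∉ X, ‖v j - ζ‖ ≤ a := fun j hj => by
    by_contra h
    exact hj (hX ▸ mem_filter.2 ⟨mem_univ _, h⟩)
  obtain ⟨i, hi⟩ : ∃ i, i ∉ X ∪ outN π⁻¹ X := by
    by_contra h
    push Not at h
    have h1 := (card_le_card fun i (_ : i ∈ (univ : Finset (Fin n))) => h i).trans
      ((card_union_le _ _).trans (Nat.add_le_add_left (card_outN_le π⁻¹ X) _))
    rw [card_univ, Fintype.card_fin] at h1
    have h2 : (n : ℝ) ≤ X.card + r * X.card := by exact_mod_cast h1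
    have h3 := hXc.trans (mul_le_mul_of_nonneg_right (min_le_right _ _) (by positivity))
    rw [one_div, inv_mul_eq_div, le_div_iff₀ (by positivity)] at h3
    linarith
  have hit : ∀ j, Touch π i j → ‖v j - ζ‖ ≤ a := fun j ht =>
    hoff j fun hj => hi ((mem_union_outN_inv π X i).2 ⟨j, hj, ht⟩)
  have hzr := om_norm_le' hρ hz
  have hζ : ‖ζ‖ ≤ (2 * r + 1) * a := by
    have e : (r - z) * ζ = app π z v i - ∑ b, (v (hd π (i, b)) - ζ) + z * (v i - ζ) := by
      simp only [app, sum_sub_distrib, sum_const, card_univ, Fintype.card_fin, nsmul_eq_mul]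
      ring
    have h1 : ‖∑ b, (v (hd π (i, b)) - ζ)‖ ≤ r * a := by
      refine (norm_sum_le _ _).trans ((sum_le_card_nsmul _ _ a fun b _ =>
        hit _ (Or.inr ⟨b, rfl⟩)).trans_eq ?_)
      simp
    have h2 : ‖z * (v i - ζ)‖ ≤ r * a := by
      rw [norm_mul]
      exact mul_le_mul hzr (hit _ (touch_refl π i)) (norm_nonneg _) (by positivity)
    have h3 := (norm_le_nrm _ i).trans hav
    have h4 : 1 ≤ ‖(r : ℂ) - z‖ := by
      have h5 := norm_sub_norm_le (r : ℂ) z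
      have h6 : √(r : ℝ) ≤ r - 1 := Real.sqrt_le_iff.2 ⟨by linarith, by nlinarith⟩
      rw [Complex.norm_natCast] at h5
      linarith [om_norm_le hρ hz]
    have h7 : ‖(r - z) * ζ‖ ≤ a + r * a + r * a := by
      rw [e]
      exact (norm_add_le _ _).trans (add_le_add ((norm_sub_le _ _).trans (add_le_add h3 h1)) h2)
    rw [norm_mul] at h7
    nlinarith [norm_nonneg ζ]
  have hw : nrm (offS X v) ≤ n * ((2 * r + 2) * a) := by
    refine (nrm_le_of_forall (a := (2 * r + 2) * a) (by positivity) fun j => ?_).trans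
      (mul_le_mul_of_nonneg_right ?_ (by positivity))
    · unfold offS
      split_ifs with hj
      · rw [norm_zero]; positivity
      · linarith [hoff j hj, norm_le_norm_add_norm_sub' (v j) ζ]
    · rw [Fintype.card_fin]
      exact Real.sqrt_le_iff.2 ⟨by positivity, by nlinarith⟩
  have h1 := hinv n hn φ κ π hE z hz X
    (hXc.trans (mul_le_mul_of_nonneg_right (min_le_left _ _) (by positivity))) (onS X v)
    fun j hj => if_neg hj
  have h2 := peel_app_off π hzr ((add_comm _ _).trans (onS_add_offS X v))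
  have h3 := nrm_add_le (onS X v) (offS X v)
  rw [onS_add_offS, hv] at h3
  have h4 : 1 ≤ (n : ℝ) ^ C := Real.one_le_rpow (by linarith) hC.le
  have h5 : (n : ℝ) ^ C * a * n * n = 1 := by
    rw [ha, ← Real.rpow_add (by positivity), mul_assoc, ← sq, ← Real.rpow_two,
      ← Real.rpow_add (by positivity)]
    simp
  generalize (n : ℝ) ^ C = B at h1 h4 h5
  have h6 : nrm (app π z (onS X v)) ≤ n * a + 2 * r * (n * ((2 * r + 2) * a)) := by
    have : a ≤ n * a := le_mul_of_one_le_left ha0.le (by linarith)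
    have := mul_le_mul_of_nonneg_left hw (show (0 : ℝ) ≤ 2 * r by positivity)
    linarith
  have h7 := mul_le_mul_of_nonneg_left h6 (zero_le_one.trans h4)
  have h8 : n * ((2 * r + 2) * a) ≤ B * (n * ((2 * r + 2) * a)) :=
    le_mul_of_one_le_left (by positivity) h4
  have h9 := mul_lt_mul_of_pos_left hnK' (show 0 < B * a * n by positivity)
  linarith

theorem cheeger (hr : 3 ≤ r) {φ κ : ℝ} {π : Cfg n r} (hE : Exp1 φ κ π) (hS : Simple π)
    (R : Finset (Fin n)) (hR : (R.card : ℝ) ≤ φ * n) :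
    41 * R.card ≤ 40 * (outN π R).card := by
  have h1 := card_union_le R (outN π R)
  have h7 : 3 * R.card ≤ r * R.card := Nat.mul_le_mul_right _ hr
  by_cases hc : 40 ≤ R.card
  · have h5 := hE.1 R hc hR
    have h6 : (5 * r) * R.card ≤ 5 * (R ∪ outN π R).card + R.card := by
      have : ((5 * r : ℕ) : ℝ) * R.card ≤ 5 * (R ∪ outN π R).card + R.card := by
        push_cast; linarith
      exact_mod_cast this
    rw [mul_assoc] at h6
    omega
  by_cases h2 : 2 ≤ R.card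
  · have h5 := hE.2.1 R h2 (by omega)
    rw [add_mul] at h5
    omega
  by_cases h0 : R.card = 0
  · omega
  obtain ⟨i, rfl⟩ := card_eq_one.1 (show R.card = 1 by omega)
  have h3 : (univ : Finset (Fin r)).card ≤ (outN π {i}).card :=
    card_le_card_of_injOn (fun a => hd π (i, a))
      (fun a _ => mem_coe.2 ((mem_outN π _ _).2 ⟨i, mem_singleton_self i, a, rfl⟩))
      fun a _ b _ h => hS i a b h
  rw [card_univ, Fintype.card_fin] at h3
  rw [card_singleton]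
  omega

theorem nonusable (hr : 3 ≤ r) {φ κ : ℝ} (hφ : 0 < φ) (hφ1 : φ ≤ 1 / 2) (hκ : 0 < κ)
    {π : Cfg n r} (hE : Exp1 φ κ π) (hn : 4 ≤ φ * n) (S T : Finset (Fin n))
    (hST : outN π S ⊆ T) (hT : (T.card : ℝ) ≤ (1 - φ / 2) * n - 1) :
    (S.card : ℝ) ≤ 40 + 5 / 9 * T.card ∨ (S.card : ℝ) + κ * n ≤ T.card := by
  have hr' : (3 : ℝ) ≤ r := by exact_mod_cast hr
  have hT0 : (0 : ℝ) ≤ T.card := Nat.cast_nonneg _
  have hn0 : (0 : ℝ) ≤ n := Nat.cast_nonneg _
  have h1 : ((outN π S).card : ℝ) ≤ T.card := by exact_mod_cast card_le_card hST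
  by_cases hc : S.card < 40
  · have : (S.card : ℝ) ≤ 40 := by exact_mod_cast hc.le
    exact Or.inl (by linarith)
  by_cases h2 : (S.card : ℝ) ≤ φ * n
  · have h3 := hE.1 S (not_lt.1 hc) h2
    have h4 : ((S ∪ outN π S).card : ℝ) ≤ S.card + (outN π S).card := by
      exact_mod_cast card_union_le _ _
    have h5 := mul_le_mul_of_nonneg_right hr' (Nat.cast_nonneg S.card)
    exact Or.inl (by linarith)
  by_cases h3 : (S.card : ℝ) ≤ (1 - φ / 2) * n
  · exact Or.inr ((hE.2.2 S (by linarith) h3).trans h1)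
  exfalso
  have h4 : φ * n ≤ 1 / 2 * n := mul_le_mul_of_nonneg_right hφ1 hn0
  have h5 : 0 ≤ (1 - φ / 2) * n := by linarith
  obtain ⟨S', hS', hc'⟩ := exists_subset_card_eq (s := S) (n := ⌊(1 - φ / 2) * n⌋₊)
    (Nat.floor_le_of_le (not_le.1 h3).le)
  have h6 := Nat.floor_le h5
  have h7 := Nat.lt_floor_add_one ((1 - φ / 2) * n)
  rw [← hc'] at h6 h7
  have h8 := hE.2.2 S' (by linarith) h6
  have h9 : ((outN π S').card : ℝ) ≤ (outN π S).card := by
    exact Nat.cast_le.2 (card_le_card (image_subset_image (product_subset_product_left hS')))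
  have := mul_nonneg hκ.le hn0
  linarith

end Pool.Agent.OKM

end FilePeel

end

-- part MP_5d5bd1_pr.KLemB
section

section FileKStep

/-!
One step of the iteration of Lemma K.
`kstep_peel`: `X = Fᶜ`, `peel_set` (with `hE.2`), `peel_norm` gives `nrm (onS P y) ≤ (t/ρ) nrm y` on `K`,
then `zero_out` with `ε = t/ρ`.
`kstep_struct`: let `W` be the set of rows `i ∉ J` having a head outside `F ∪ L`, and `S` the set of rows with
all heads in `F ∪ L` (`nonusable` with `T = F ∪ L`). Apply `scan` with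
`Good i Kn := GoodK π z F Kn Q s i (tup π i)`, `A = Jᶜ`, `Q = 2n/x`. In the first case `StructK` holds
(`opt_card` with `ϑ = 4 s √(n/x)`). In the second case apply `redundant` to `R = W \ I` and
`ρ i = (LinearMap.proj i).comp (appL π z)` (dropping rows only helps): `|R| + |F| + b ≤ n + 2x`, while
`|R| ≥ n - |J| - |S| - x`; both alternatives of `nonusable` give `|F| + b - |J| - |S| > 3x`
(first: `40|J| ≤ |F|`, `b0 ≤ 2b`, `20 x ≤ b0 + |F|`, `|L| ≤ x/3`, `x ≥ 10`; second: `|J| ≤ κ n/2`,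
`8x ≤ κ n`), a contradiction.
`kstep_main`: `clusters` on `W = Fᶜ` with `close a c := ∀ y ∈ K, ‖y a - y c‖ ≤ ϑ nrm y`, `m = mK`. If
`r |L| < x` use `kstep_struct` at `w` (`nrm_off_app_shift`). Otherwise `kill_coords` the centres
(at most `n / m ≤ d`), so `‖y a‖ ≤ ϑ nrm y` on `L`; `trim` with this `d` and `ε`; `zero_out`.
-/

open Finset

namespace Pool.Agent.OKM

variable {n r : ℕ}

theorem kstep_peel (hr : 3 ≤ r) {φ κ ρ : ℝ} (hρ : 0 < ρ) (hρ1 : ρ ≤ 1) {π : Cfg n r}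
    (hE : Exp φ κ π) {z : ℂ} (hz : z ∈ Om r ρ) {J F : Finset (Fin n)} (hJ : Sparse π J)
    {b : ℕ} {t : ℝ} (ht : 0 ≤ t) (htρ : 2 * t ≤ ρ) (h : KS π z J F b t)
    (hF : (n : ℝ) - F.card ≤ φ * n) (h40 : F.card + 40 ≤ n) :
    ∃ F' : Finset (Fin n), F ⊆ F' ∧ (n : ℝ) - F'.card ≤ (1 - 1 / (40 * r)) * (n - F.card) ∧
      KS π z J F' b (2 * (1 + 2 * r / ρ) * t) := by
  obtain ⟨K, hb, hKF, hK⟩ := h
  have hc : (Fᶜ.card : ℝ) = n - F.card := by
    rw [card_compl, Fintype.card_fin, Nat.cast_sub (by omega)]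
  obtain ⟨P, hPX, hP1, hP⟩ := peel_set hr hE.2 hJ (X := Fᶜ) (by rw [hc]; exact hF)
    (Or.inl (by rw [card_compl, Fintype.card_fin]; omega))
  have hL : ∀ y ∈ K, nrm (onS P y) ≤ t / ρ * nrm y := fun y hy => by
    have h1 := (peel_norm hρ1 hz.2 hPX hP (y := y)
      (fun a ha => hKF y hy a (by simpa using ha))).trans (hK y hy)
    rw [div_mul_eq_mul_div, le_div_iff₀ hρ]
    linarith
  have h2 := zero_out π (om_norm_le' hρ hz) J F P K ht (div_nonneg ht hρ.le)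
    (by rw [div_le_iff₀ hρ]; linarith) hKF hK hL
  refine ⟨F ∪ P, subset_union_left, ?_, h2.mono hb (le_of_eq (by ring))⟩
  have hdis : Disjoint F P := disjoint_left.2 fun a ha hp => (mem_compl.1 (hPX hp)) ha
  have h3 : (n : ℝ) - F.card ≤ 40 * r * P.card := by rw [← hc]; exact_mod_cast hP1
  have hr0 : (0 : ℝ) < 40 * r := by
    have : (3 : ℝ) ≤ r := by exact_mod_cast hr
    linarith
  have h4 : 1 / (40 * (r : ℝ)) * (n - F.card) ≤ P.card := by
    rw [one_div, inv_mul_le_iff₀ hr0]; exact h3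
  rw [card_union_of_disjoint hdis]
  push_cast
  linarith

theorem kstep_mK_pos (hr : 3 ≤ r) {C0 x : ℕ} (hn : 0 < n) (hx : 0 < x) : 0 < mK r C0 n x := by
  have h1 : (0 : ℝ) < n := by exact_mod_cast hn
  have h2 : (0 : ℝ) < x := by exact_mod_cast hx
  have h3 : (0 : ℝ) < r := by exact_mod_cast (by omega : 0 < r)
  unfold mK
  positivity

theorem kstep_npos {φ : ℝ} (hn : 4 ≤ φ * n) : 0 < n := by
  rcases Nat.eq_zero_or_pos n with rfl | h
  · norm_num at hn
  · exact h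

theorem kstep_sq (s : ℝ) (n x : ℕ) :
    (4 * s * √((n : ℝ) / x)) ^ 2 = 16 * s ^ 2 * ((n : ℝ) / x) := by
  rw [mul_pow, Real.sq_sqrt (by positivity)]; ring

open Classical in
theorem kstep_struct (hr : 3 ≤ r) {φ κ : ℝ} (hφ : 0 < φ) (hφ1 : φ ≤ 1 / 2) (hκ : 0 < κ)
    {π : Cfg n r} (hE : Exp1 φ κ π) (hn : 4 ≤ φ * n) (z : ℂ) {J F L : Finset (Fin n)}
    {C0 x b0 : ℕ} {s : ℝ} (hs : 0 ≤ s) (K : Submodule ℂ (Fin n → ℂ))
    (hF : ∀ y ∈ K, ∀ a ∈ F, y a = 0)
    (hK : ∀ y ∈ K, nrm (offS J (app π z y)) ≤ s * nrm y)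
    (hb : b0 ≤ 2 * Module.finrank ℂ K) (hx10 : 10 ≤ x) (hx20 : 20 * x ≤ b0 + F.card)
    (hxκ : 8 * (x : ℝ) ≤ κ * n) (hJF : 40 * J.card ≤ F.card) (hJκ : 2 * (J.card : ℝ) ≤ κ * n)
    (hFC : F.card ≤ C0 * x) (hL : r * L.card ≤ x)
    (hFL : (F.card : ℝ) + L.card ≤ (1 - φ / 2) * n - 1)
    (hcl : ∀ c ∉ F ∪ L, (((F ∪ L)ᶜ.filter fun a =>
      ∀ y ∈ K, ‖y a - y c‖ ≤ 4 * s * √((n : ℝ) / x) * nrm y).card : ℝ) ≤ mK r C0 n x) :
    StructK π z C0 x s := by
  have hn0 := kstep_npos hn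
  have hn1 : (0 : ℝ) < n := by exact_mod_cast hn0
  have hx1 : (0 : ℝ) < x := by exact_mod_cast (by omega : 0 < x)
  have hQ : (0 : ℝ) < 2 * n / x := by positivity
  have hL3 : 3 * L.card ≤ x := (Nat.mul_le_mul_right _ hr).trans hL
  set W : Finset (Fin n) := univ.filter fun i => i ∉ J ∧ ∃ a, hd π (i, a) ∉ F ∪ L with hW
  set S : Finset (Fin n) := univ.filter fun i => ∀ a, hd π (i, a) ∈ F ∪ L with hS
  rcases scan (fun i Kn => GoodK π z F Kn (2 * n / x) s i (tup π i))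
    (fun i A A' hA hg y hy => (hg y hy).trans (mul_le_mul_of_nonneg_left (add_le_add le_rfl
      (sum_le_sum_of_subset_of_nonneg hA fun _ _ _ => sq_nonneg _)) hQ.le)) Jᶜ W x with
    ⟨I, hIW, hIc, hI⟩ | ⟨I, hIW, hIc, hI⟩
  · refine ⟨F, L, J, I, hFC, by omega, by omega, hIc, fun i hi => ⟨?_, ?_⟩⟩
    · refine mem_filter.2 ⟨mem_univ _, fun a => ?_, (mem_filter.1 (hIW hi)).2.2, hI i hi⟩
      simpa [tup] using hi
    · have := opt_card π z F L J I (Q := 2 * n / x) (ϑ := 4 * s * √((n : ℝ) / x)) hQ.le hs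
        (by positivity) (kstep_mK_pos hr hn0 (by omega : 0 < x)).le
        (by rw [kstep_sq]; exact le_of_eq (by ring)) K hF hK hcl i
      rwa [hIc] at this
  · exfalso
    have hRJ : W \ I ⊆ Jᶜ \ I := fun i hi => by
      rw [mem_sdiff] at hi ⊢
      exact ⟨mem_compl.2 (mem_filter.1 hi.1).2.1, hi.2⟩
    have h1 := redundant (fun i => (LinearMap.proj i).comp (appL π z)) (W \ I) F K (s := s) hQ hF
      (fun y hy => by
        have a1 := pow_le_pow_left₀ (nrm_nonneg _) (hK y hy) 2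
        rw [nrm_offS_sq, mul_pow] at a1
        exact (sum_le_sum_of_subset_of_nonneg (hRJ.trans sdiff_subset)
          fun _ _ _ => sq_nonneg _).trans a1)
      (fun i hi => by
        have a1 := hI i hi
        simp only [GoodK, not_forall, not_le] at a1
        obtain ⟨y, hy, a2⟩ := a1
        exact ⟨y, hy, lt_of_le_of_lt (mul_le_mul_of_nonneg_left (add_le_add le_rfl
          (sum_le_sum_of_subset_of_nonneg (erase_subset_erase i hRJ)
            fun _ _ _ => sq_nonneg _)) hQ.le) a2⟩)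
    have h2 : 4 * ((W \ I).card : ℝ) / (2 * n / x) ≤ 2 * x := by
      have a1 : ((W \ I).card : ℝ) ≤ n := by
        exact_mod_cast (card_le_univ _).trans (Fintype.card_fin n).le
      rw [div_le_iff₀ hQ]
      have : 2 * (x : ℝ) * (2 * n / x) = 4 * n := by field_simp; ring
      linarith
    have h3 : n ≤ W.card + J.card + S.card := by
      have a1 : (univ : Finset (Fin n)) ⊆ W ∪ J ∪ S := fun i _ => by
        by_cases b1 : i ∈ J
        · exact mem_union_left _ (mem_union_right _ b1)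
        · by_cases b2 : ∀ a, hd π (i, a) ∈ F ∪ L
          · exact mem_union_right _ (mem_filter.2 ⟨mem_univ _, b2⟩)
          · exact mem_union_left _ (mem_union_left _
              (mem_filter.2 ⟨mem_univ _, b1, not_forall.1 b2⟩))
      have a2 := card_le_card a1
      have a3 := card_union_le (W ∪ J) S
      have a4 := card_union_le W J
      rw [card_univ, Fintype.card_fin] at a2
      omega
    have h4 : W.card ≤ (W \ I).card + I.card := card_le_card_sdiff_add_card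
    have h5 : ((F ∪ L).card : ℝ) ≤ F.card + L.card := by exact_mod_cast card_union_le F L
    have h6 := nonusable hr hφ hφ1 hκ hE hn S (F ∪ L) (fun j hj => by
      obtain ⟨i, hi, a, rfl⟩ := (mem_outN π S j).1 hj
      exact (mem_filter.1 hi).2 a) (h5.trans hFL)
    have c1 : (n : ℝ) + 1 ≤ (W \ I).card + x + J.card + S.card := by
      exact_mod_cast (by omega : n + 1 ≤ (W \ I).card + x + J.card + S.card)
    have c2 : (b0 : ℝ) ≤ 2 * Module.finrank ℂ K := by exact_mod_cast hb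
    have c3 : (10 : ℝ) ≤ x := by exact_mod_cast hx10
    have c4 : 20 * (x : ℝ) ≤ b0 + F.card := by exact_mod_cast hx20
    have c5 : 40 * (J.card : ℝ) ≤ F.card := by exact_mod_cast hJF
    have c6 : 3 * (L.card : ℝ) ≤ x := by exact_mod_cast hL3
    have c7 : (0 : ℝ) ≤ Module.finrank ℂ K := Nat.cast_nonneg _
    have c8 : (0 : ℝ) ≤ b0 := Nat.cast_nonneg _
    rcases h6 with h6 | h6 <;> linarith

theorem kstep_main (hr : 3 ≤ r) {φ κ : ℝ} (hφ : 0 < φ) (hφ1 : φ ≤ 1 / 2) (hκ : 0 < κ)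
    {π : Cfg n r} (hE : Exp1 φ κ π) (hn : 4 ≤ φ * n) {z w : ℂ} (hz : ‖z‖ ≤ r)
    {J F : Finset (Fin n)} {C0 x b0 b d : ℕ} {t s ε : ℝ} (ht : 0 ≤ t) (hzw : ‖z - w‖ ≤ t)
    (hts : 2 * t ≤ s) (h : KS π z J F b t) (hno : ¬ StructK π w C0 x s)
    (hb : b0 ≤ 2 * b) (hx10 : 10 ≤ x) (hx20 : 20 * x ≤ b0 + F.card)
    (hxκ : 8 * (x : ℝ) ≤ κ * n) (hJF : 40 * J.card ≤ F.card) (hJκ : 2 * (J.card : ℝ) ≤ κ * n)
    (hFC : F.card ≤ C0 * x) (hFx : (F.card : ℝ) + x / r ≤ (1 - φ / 2) * n - 1)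
    (hd : (n : ℝ) ≤ d * mK r C0 n x) (hε : 0 < ε) (hε2 : ε ≤ 1 / 2)
    (hεd : 16 * s ^ 2 * ((n : ℝ) / x) * n ≤ ε ^ 2 * d) :
    ∃ F' : Finset (Fin n), F ⊆ F' ∧ (F.card : ℝ) + x / r ≤ F'.card ∧
      KS π z J F' (b - 2 * d) (2 * (t + 2 * r * ε)) := by
  classical
  obtain ⟨K, hbK, hF, hK⟩ := h
  have hn0 := kstep_npos hn
  have hm := kstep_mK_pos (C0 := C0) hr hn0 (by omega : 0 < x)
  have hr0 : (0 : ℝ) < r := by exact_mod_cast (by omega : 0 < r)
  have hs : 0 ≤ s := by linarith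
  obtain ⟨L, Cn, hLF, hLC, hCn, hcl⟩ := clusters
    (fun a c => ∀ y ∈ K, ‖y a - y c‖ ≤ 4 * s * √((n : ℝ) / x) * nrm y) Fᶜ hm.le
  have hLn : (L.card : ℝ) ≤ n := by
    exact_mod_cast (card_le_univ _).trans (Fintype.card_fin n).le
  rcases le_or_gt (r * L.card) x with hL | hL
  · exfalso
    have e : Fᶜ \ L = (F ∪ L)ᶜ := by
      ext a; simp
    rw [e] at hcl
    have a1 : (L.card : ℝ) ≤ x / r := by
      rw [le_div_iff₀ hr0, mul_comm]; exact_mod_cast hL
    refine hno (kstep_struct hr hφ hφ1 hκ hE hn w (L := L) hs K hF (fun y hy => ?_)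
      (by omega) hx10 hx20 hxκ hJF hJκ hFC hL (by linarith) fun c hc => hcl c (mem_compl.2 hc))
    have a2 := nrm_off_app_shift π J z w y
    have a3 := hK y hy
    have a4 := mul_le_mul_of_nonneg_right hzw (nrm_nonneg y)
    have a5 := mul_le_mul_of_nonneg_right hts (nrm_nonneg y)
    linarith
  · have a1 : (x : ℝ) / r ≤ L.card := by
      rw [div_le_iff₀ hr0, mul_comm]; exact_mod_cast hL.le
    have a2 : Cn.card ≤ d := by
      have : (Cn.card : ℝ) ≤ d := le_of_mul_le_mul_right (by linarith) hm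
      exact_mod_cast this
    obtain ⟨K', hK', hr', hz'⟩ := kill_coords K Cn
    obtain ⟨K'', hK'', hr'', hz''⟩ := trim K' L (ϑ := 4 * s * √((n : ℝ) / x)) (by positivity) hε d
      (by
        rw [kstep_sq]
        exact (mul_le_mul_of_nonneg_left hLn (by positivity)).trans hεd)
      (fun y hy a ha => by
        obtain ⟨c, hc, hac⟩ := hLC a ha
        have := hac y (hK' hy)
        rwa [hz' y hy c hc, sub_zero] at this)
    have h2 := zero_out π hz J F L K'' ht hε.le hε2 (fun y hy => hF y (hK' (hK'' hy)))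
      (fun y hy => hK y (hK' (hK'' hy))) hz''
    refine ⟨F ∪ L, subset_union_left, ?_, h2.mono (by omega) le_rfl⟩
    have hdis : Disjoint F L := disjoint_left.2 fun a ha hp => (mem_compl.1 (hLF hp)) ha
    rw [card_union_of_disjoint hdis]
    push_cast
    linarith

end Pool.Agent.OKM

end FileKStep

section FileKIter

/-!
Lemma K: iteration and constants.
`kiter_abs`: by induction on `k ≤ T` there is `F ⊇ F0` with `KS π z J F (b0 - 2 d k) (t0 Γ^k)` and
`(1+c1)^k b0 (n - |F|) ≤ n (b0 + |F|)`; always `n - |F| ≥ b0 - 2 d k ≥ b0/2 > 0` (`finrank_add_le`) and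
`b0 ≤ n`; at `k = T` this gives `(1+c1)^T b0^2 ≤ 4 n^2`.
`kall_det`: `C0 = ⌈40 + 16/κ⌉`, `c1 = 1/(r (40 + 32/κ))`, `c2 = min (1/40) (κ/16)`, `c = 0.3/(2 C0 + 3)`.
Given `b0 = b` (we may assume `b0 ≤ n`, otherwise `KS` fails by `finrank_add_le`), let
`λ = 1 + log (n/b0) ∈ [1, 1 + lg n]`, `T = ⌈2 λ / log (1+c1)⌉ + 1 ≤ CT λ`, `d = b0 / (4 T) ≥ b0/(8T)`,
`Γ = exp (C2 λ)`, `t0 = tK C n b0 = exp (-C λ^2)` with `C` large so that `t0 Γ^T Γ ≤ ρ / 100`.
Step from `(F, b, t)`: if `n - |F| ≤ φ n` use `kstep_peel` (`n - |F| ≥ b ≥ b0/2 ≥ 40`,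
`1/(1 - 1/(40 r)) ≥ 1 + c1`). Otherwise use `kstep_main` with
`x = ⌊min ((b0 + |F|)/20) (κ n/8)⌋₊` (so `x ≥ c2 n^(1-c) ≥ √n`, `x ≥ c2 b0`, `|F| ≤ C0 x`,
`b0 + |F| ≤ (40 + 32/κ) x`), `k = ⌊-log (2t)⌋₊ ≤ C (1 + lg n)^2 ≤ LL n`, `s = exp (-k) ∈ [2t, 2 e t]`,
`w ∈ Z` close to `z` (`exp (-lg n^3) ≤ t0 ≤ t`), `ε = s exp (C3 λ)` where
`16 n^2/(x d) ≤ (128 CT/c2) λ (n/b0)^2 ≤ exp (2 C3 λ)`, and
`n / mK ≤ r e^(r+6) (n^c/c2)^(2 C0+3) ≤ n^0.4/(8 CT (1 + lg n)) ≤ d` eventually (`ev_poly`).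
`rare_kall`: `net` with `R = r`, `h = exp (-lg n^3)`; union bound over `w ∈ Z`, `x ≤ n`, `k ≤ LL n` of
`structK_prob`: at most `(4 r e^(lg^3) + 3)^2 (n+1) (LL n + 1) e^(-2√n) ≤ exp (-n^(1/2))` eventually.
-/

open Finset Filter

namespace Pool.Agent.OKM

variable {n r : ℕ}

def NoStruct (π : Cfg n r) (Z : Finset ℂ) (C0 : ℕ) : Prop :=
  ∀ w ∈ Z, ∀ x k : ℕ, √(n : ℝ) ≤ x → x ≤ n → k ≤ LL n → ¬ StructK π w C0 x (Real.exp (-(k : ℝ)))

theorem kiter_abs {π : Cfg n r} {z : ℂ} {J F0 : Finset (Fin n)} {b0 d T : ℕ} {t0 Γ c1 : ℝ}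
    (hb0 : 0 < b0) (ht0 : 0 ≤ t0) (hΓ : 1 ≤ Γ) (hc1 : 0 ≤ c1) (hd : 4 * d * T ≤ b0)
    (hT : 4 * (n : ℝ) ^ 2 < (1 + c1) ^ T * (b0 : ℝ) ^ 2)
    (hstep : ∀ F, F0 ⊆ F → ∀ (b : ℕ) (t : ℝ), b0 ≤ 2 * b → t0 ≤ t → t ≤ t0 * Γ ^ T →
      KS π z J F b t → ∃ F', F ⊆ F' ∧
        (1 + c1) * ((b0 : ℝ) + F.card) * (n - F'.card) ≤ ((b0 : ℝ) + F'.card) * (n - F.card) ∧
        KS π z J F' (b - 2 * d) (Γ * t)) :
    ¬ KS π z J F0 b0 t0 := by
  intro h0
  have hb : (0 : ℝ) < b0 := by exact_mod_cast hb0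
  have hb0n : (b0 : ℝ) ≤ n := by
    obtain ⟨K, h1, h2, -⟩ := h0
    have := finrank_add_le K F0 h2
    exact_mod_cast (by omega : b0 ≤ n)
  have key : ∀ k ≤ T, ∃ F, F0 ⊆ F ∧ KS π z J F (b0 - 2 * d * k) (t0 * Γ ^ k) ∧
      (1 + c1) ^ k * b0 * (n - F.card) ≤ n * ((b0 : ℝ) + F.card) := by
    intro k
    induction k with
    | zero =>
      intro _
      refine ⟨F0, subset_rfl, by simpa using h0, ?_⟩
      have h1 : (0 : ℝ) ≤ F0.card := Nat.cast_nonneg _
      have h2 : (0 : ℝ) ≤ n := Nat.cast_nonneg _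
      rw [pow_zero, one_mul]
      linarith [mul_nonneg h1 h2, mul_nonneg h1 hb.le]
    | succ k ih =>
      intro hk
      obtain ⟨F, h1, h2, h3⟩ := ih (by omega)
      have h4 : 4 * d * k ≤ 4 * d * T := Nat.mul_le_mul_left _ (by omega)
      have h4' : 4 * d * k = 2 * (2 * d * k) := by ring
      obtain ⟨F', h5, h6, h7⟩ := hstep F h1 _ _ (by omega)
        (le_mul_of_one_le_right ht0 (one_le_pow₀ hΓ))
        (mul_le_mul_of_nonneg_left (pow_le_pow_right₀ hΓ (by omega)) ht0) h2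
      refine ⟨F', h1.trans h5, ?_, ?_⟩
      · rw [mul_add, mul_one, ← Nat.sub_sub, pow_succ', mul_left_comm]
        exact h7
      · have h8 : (0 : ℝ) < b0 + F.card := by positivity
        refine le_of_mul_le_mul_right ?_ h8
        have h9 : (0 : ℝ) ≤ (1 + c1) ^ k * b0 := by positivity
        calc (1 + c1) ^ (k + 1) * b0 * (n - F'.card) * ((b0 : ℝ) + F.card)
            = (1 + c1) ^ k * b0 * ((1 + c1) * ((b0 : ℝ) + F.card) * (n - F'.card)) := by ring
          _ ≤ (1 + c1) ^ k * b0 * (((b0 : ℝ) + F'.card) * (n - F.card)) :=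
              mul_le_mul_of_nonneg_left h6 h9
          _ = ((b0 : ℝ) + F'.card) * ((1 + c1) ^ k * b0 * (n - F.card)) := by ring
          _ ≤ ((b0 : ℝ) + F'.card) * (n * ((b0 : ℝ) + F.card)) :=
              mul_le_mul_of_nonneg_left h3 (by positivity)
          _ = _ := by ring
  obtain ⟨F, -, ⟨K, h1, h2, -⟩, h3⟩ := key T le_rfl
  have h4 := finrank_add_le K F h2
  have h4' : 4 * d * T = 2 * (2 * d * T) := by ring
  have h5 : (b0 : ℝ) + 2 * F.card ≤ 2 * n := by exact_mod_cast (by omega : b0 + 2 * F.card ≤ 2 * n)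
  have h6 : (1 + c1) ^ T * b0 * (b0 / 2) ≤ (1 + c1) ^ T * b0 * (n - F.card) :=
    mul_le_mul_of_nonneg_left (by linarith) (by positivity)
  have h7 : (n : ℝ) * ((b0 : ℝ) + F.card) ≤ n * (2 * n) :=
    mul_le_mul_of_nonneg_left (by linarith) (Nat.cast_nonneg _)
  linarith

theorem kiter_floor {y : ℝ} (hy : 1 ≤ y) : y ≤ 2 * ⌊y⌋₊ := by
  have h1 := Nat.lt_floor_add_one y
  have h2 : (1 : ℝ) ≤ ⌊y⌋₊ := by exact_mod_cast Nat.floor_pos.mpr hy
  linarith

theorem kiter_step (hr : 3 ≤ r) {φ κ ρ : ℝ} (hφ : 0 < φ) (hφ1 : φ ≤ 1 / 2) (hκ : 0 < κ)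
    (hκφ : κ ≤ φ) (hρ : 0 < ρ) (hρ1 : ρ ≤ 1) {π : Cfg n r} (hE : Exp φ κ π) {Z : Finset ℂ}
    {z w : ℂ} (hz : z ∈ Om r ρ) (hw : w ∈ Z) (hzw : ‖z - w‖ ≤ Real.exp (-(lg n ^ 3))) {C0 : ℕ}
    (hno : NoStruct π Z C0) {J F : Finset (Fin n)} (hJ : Sparse π J) {b0 b d : ℕ}
    {a B E Γ t : ℝ} (ha : 40 ≤ a) (ha' : 32 ≤ κ * a) (hC0 : a ≤ C0) (hb80 : 80 ≤ b0)
    (hb0n : b0 ≤ n) (hκn : 8 ≤ κ * n) (h100 : 100 ≤ n) (hsq : a * √(n : ℝ) ≤ b0 + F.card)
    (hJF : 40 * J.card ≤ F.card) (hJκ : 2 * (J.card : ℝ) ≤ κ * n)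
    (hmK : ∀ x : ℕ, (b0 : ℝ) + F.card ≤ a * x → (n : ℝ) ≤ d * mK r C0 n x) (hE1 : 1 ≤ E)
    (hεd : 16 * a * (n : ℝ) ^ 2 ≤ E * d * b0) (hB : 2 + 24 * (r : ℝ) ≤ B)
    (hB' : 2 * (1 + 2 * r / ρ) ≤ B) (hΓ : B * E ≤ Γ) (ht : Real.exp (-(lg n ^ 3)) ≤ t)
    (htΓ : t * Γ ≤ ρ / 100) (hb : b0 ≤ 2 * b) (h : KS π z J F b t) :
    ∃ F', F ⊆ F' ∧
      (1 + 1 / (r * a)) * ((b0 : ℝ) + F.card) * (n - F'.card) ≤
        ((b0 : ℝ) + F'.card) * (n - F.card) ∧ KS π z J F' (b - 2 * d) (Γ * t) := by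
  have hr' : (3 : ℝ) ≤ r := by exact_mod_cast hr
  have ht0 : 0 < t := (Real.exp_pos _).trans_le ht
  have hBΓ : B ≤ Γ := (le_mul_of_one_le_right (by linarith) hE1).trans hΓ
  have htB : t * (B * E) ≤ 1 / 100 := (mul_le_mul_of_nonneg_left hΓ ht0.le).trans (by linarith)
  have htE : t * E ≤ 1 / 100 := by
    have : t * E ≤ t * (B * E) :=
      mul_le_mul_of_nonneg_left (le_mul_of_one_le_left (by linarith) (by linarith)) ht0.le
    linarith
  have ht1 : t ≤ ρ / 100 := (le_mul_of_one_le_right ht0.le (by linarith)).trans htΓ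
  have hcard : ∀ G : Finset (Fin n), (G.card : ℝ) ≤ n := fun G => by
    exact_mod_cast (card_le_univ G).trans (Fintype.card_fin n).le
  have hP : (0 : ℝ) ≤ b0 + F.card := by positivity
  by_cases hF : (n : ℝ) - F.card ≤ φ * n
  · have h40 : F.card + 40 ≤ n := by
      obtain ⟨K, h1, h2, -⟩ := h
      have := finrank_add_le K F h2
      omega
    obtain ⟨F', h1, h2, h3⟩ := kstep_peel hr hρ hρ1 hE hz hJ ht0.le (by linarith) h hF h40
    refine ⟨F', h1, ?_, h3.mono (Nat.sub_le _ _)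
      (mul_le_mul_of_nonneg_right (hB'.trans hBΓ) ht0.le)⟩
    have h4 : (F.card : ℝ) ≤ F'.card := by exact_mod_cast card_le_card h1
    have h5 : 1 / (r * a) ≤ 1 / (40 * (r : ℝ)) :=
      one_div_le_one_div_of_le (by positivity)
        (by linarith [mul_le_mul_of_nonneg_left ha (Nat.cast_nonneg r)])
    have h6 : (0 : ℝ) ≤ n - F.card := by linarith [hcard F]
    have h7 : (0 : ℝ) ≤ n - F'.card := by linarith [hcard F']
    have h8 : (1 + 1 / (40 * (r : ℝ))) * (n - F'.card) ≤ n - F.card := by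
      have h9 : (0 : ℝ) ≤ 1 / (40 * (r : ℝ)) := by positivity
      generalize 1 / (40 * (r : ℝ)) = u at h2 h9
      calc (1 + u) * ((n : ℝ) - F'.card) ≤ (1 + u) * ((1 - u) * (n - F.card)) :=
            mul_le_mul_of_nonneg_left h2 (by linarith)
        _ = (n - F.card) - u ^ 2 * (n - F.card) := by ring
        _ ≤ _ := sub_le_self _ (by positivity)
    calc (1 + 1 / (r * a)) * ((b0 : ℝ) + F.card) * (n - F'.card)
        = ((b0 : ℝ) + F.card) * ((1 + 1 / (r * a)) * (n - F'.card)) := by ring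
      _ ≤ _ := mul_le_mul (by linarith)
          ((mul_le_mul_of_nonneg_right (by linarith) h7).trans h8) (by positivity)
          (by positivity)
  push Not at hF
  have hn : (100 : ℝ) ≤ n := by exact_mod_cast h100
  have hs10 : 10 ≤ √(n : ℝ) := Real.le_sqrt_of_sq_le (by linarith)
  have hb0n' : (b0 : ℝ) ≤ n := by exact_mod_cast hb0n
  have hb80' : (80 : ℝ) ≤ b0 := by exact_mod_cast hb80
  have hF0 : (0 : ℝ) ≤ F.card := Nat.cast_nonneg _
  obtain ⟨x, hx1, hx2, hx3⟩ : ∃ x : ℕ, (x : ℝ) ≤ (b0 + F.card) / 20 ∧ (x : ℝ) ≤ κ * n / 8 ∧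
      (b0 : ℝ) + F.card ≤ a * x := by
    have h1 : 1 ≤ min (((b0 : ℝ) + F.card) / 20) (κ * n / 8) := le_min (by linarith) (by linarith)
    have h2 := Nat.floor_le (zero_le_one.trans h1)
    have h3 := kiter_floor h1
    refine ⟨_, h2.trans (min_le_left _ _), h2.trans (min_le_right _ _), ?_⟩
    generalize ⌊min (((b0 : ℝ) + F.card) / 20) (κ * n / 8)⌋₊ = x at h3
    have h4 : (0 : ℝ) ≤ x := Nat.cast_nonneg _
    rcases min_le_iff.mp h3 with h5 | h5
    · linarith [mul_le_mul_of_nonneg_right ha h4]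
    · refine le_of_mul_le_mul_left ?_ hκ
      have h6 : κ * ((b0 : ℝ) + F.card) ≤ κ * (2 * n) :=
        mul_le_mul_of_nonneg_left (by linarith [hcard F]) hκ.le
      linarith [mul_le_mul_of_nonneg_right ha' h4]
  have hxs : √(n : ℝ) ≤ x := le_of_mul_le_mul_left (hsq.trans hx3) (by linarith)
  have hx0 : (0 : ℝ) < x := by linarith
  have hκn' : κ * n ≤ φ * n := mul_le_mul_of_nonneg_right hκφ (by linarith)
  have hφn : φ * n ≤ 1 / 2 * n := mul_le_mul_of_nonneg_right hφ1 (by linarith)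
  have hxn : x ≤ n := by exact_mod_cast (by linarith : (x : ℝ) ≤ n)
  have hl : 0 ≤ -Real.log (2 * t) := neg_nonneg.mpr (Real.log_nonpos (by linarith) (by linarith))
  obtain ⟨k, hk1, hk2⟩ : ∃ k : ℕ, (k : ℝ) ≤ -Real.log (2 * t) ∧ -Real.log (2 * t) < k + 1 :=
    ⟨_, Nat.floor_le hl, Nat.lt_floor_add_one _⟩
  have hkL : k ≤ LL n := by
    have h1 : -(lg n ^ 3) ≤ Real.log (2 * t) :=
      (Real.le_log_iff_exp_le (by linarith)).mpr (by linarith)
    have h2 := Nat.le_ceil (lg n ^ 3)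
    exact_mod_cast (by unfold LL; linarith : (k : ℝ) ≤ LL n)
  have hs1 : 2 * t ≤ Real.exp (-(k : ℝ)) := by
    rw [← Real.log_le_iff_le_exp (by linarith)]
    linarith
  have hs2 : Real.exp (-(k : ℝ)) ≤ 6 * t := by
    have h1 : Real.exp (-(k : ℝ)) ≤ Real.exp (Real.log (2 * t) + 1) :=
      Real.exp_le_exp.mpr (by linarith)
    rw [Real.exp_add, Real.exp_log (by linarith)] at h1
    have h2 : Real.exp 1 ≤ 3 := by linarith only [Real.exp_one_lt_d9]
    linarith [mul_le_mul_of_nonneg_left h2 ht0.le]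
  have hno' := hno w hw x k hxs hxn hkL
  generalize Real.exp (-(k : ℝ)) = s at hs1 hs2 hno'
  have hs0 : 0 < s := by linarith
  have hε : s * E ≤ 6 * (t * E) := by
    linarith [mul_le_mul_of_nonneg_right hs2 (zero_le_one.trans hE1)]
  have hxr : (x : ℝ) / r ≤ x / 3 := div_le_div_of_nonneg_left hx0.le (by norm_num) hr'
  obtain ⟨F', h1, h2, h3⟩ := kstep_main (d := d) (ε := s * E) hr hφ hφ1 hκ hE.1 (by linarith)
    (om_norm_le' hρ hz) ht0.le (hzw.trans ht) hs1 h hno' hb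
    (by exact_mod_cast (by linarith : (10 : ℝ) ≤ x))
    (by exact_mod_cast (by linarith : 20 * (x : ℝ) ≤ b0 + F.card)) (by linarith) hJF hJκ
    (by
      have : a * x ≤ C0 * x := mul_le_mul_of_nonneg_right hC0 hx0.le
      exact_mod_cast (by linarith : (F.card : ℝ) ≤ C0 * x))
    (by linarith) (hmK x hx3) (by positivity) (by linarith) (by
      have h1 : 16 * ((n : ℝ) / x) * n ≤ E * d := by
        refine le_of_mul_le_mul_right (le_trans ?_ hεd) (by linarith : (0 : ℝ) < b0)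
        calc 16 * ((n : ℝ) / x) * n * b0 ≤ 16 * ((n : ℝ) / x) * n * (a * x) :=
              mul_le_mul_of_nonneg_left (by linarith) (by positivity)
          _ = _ := by field_simp
      have h2 : E * d ≤ E ^ 2 * d :=
        mul_le_mul_of_nonneg_right (le_self_pow₀ hE1 two_ne_zero) (Nat.cast_nonneg _)
      calc 16 * s ^ 2 * ((n : ℝ) / x) * n = s ^ 2 * (16 * ((n : ℝ) / x) * n) := by ring
        _ ≤ s ^ 2 * (E ^ 2 * d) := mul_le_mul_of_nonneg_left (h1.trans h2) (by positivity)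
        _ = _ := by ring)
  have hxr0 : 0 ≤ (x : ℝ) / r := by positivity
  refine ⟨F', h1, ?_, h3.mono le_rfl ?_⟩
  · refine mul_le_mul ?_ (by linarith) (by linarith [hcard F']) (by positivity)
    have h4 : 1 / (r * a) * ((b0 : ℝ) + F.card) ≤ x / r := by
      calc 1 / (r * a) * ((b0 : ℝ) + F.card) ≤ 1 / (r * a) * (a * x) :=
            mul_le_mul_of_nonneg_left hx3 (by positivity)
        _ = _ := by field_simp
    linarith
  · have h4 : t ≤ t * E := le_mul_of_one_le_right ht0.le hE1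
    have h5 : (r : ℝ) * (s * E) ≤ r * (6 * (t * E)) := mul_le_mul_of_nonneg_left hε (by linarith)
    have h6 : (2 + 24 * (r : ℝ)) * (t * E) ≤ B * (t * E) :=
      mul_le_mul_of_nonneg_right hB (by positivity)
    have h7 : B * E * t ≤ Γ * t := mul_le_mul_of_nonneg_right hΓ ht0.le
    linarith only [h4, h5, h6, h7]

theorem kiter_le_exp {A l : ℝ} (hA : 0 ≤ A) (hl : 1 ≤ l) : A ≤ Real.exp (A * l) := by
  have h1 := Real.add_one_le_exp (A * l)
  nlinarith

theorem kiter_mK (hr : 3 ≤ r) {C0 x d : ℕ} {a c : ℝ} (hn : 1 ≤ n) (ha : 0 < a)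
    (hc : c * (2 * C0 + 3 : ℕ) = 0.3) (hx : (n : ℝ) ^ (1 - c) ≤ a * x)
    (hd : r * Real.exp (r + 6) * a ^ (2 * C0 + 3) * (n : ℝ) ^ (0.3 : ℝ) ≤ d) :
    (n : ℝ) ≤ d * mK r C0 n x := by
  have hn' : (0 : ℝ) < n := by exact_mod_cast hn
  have hr' : (0 : ℝ) < r := by exact_mod_cast (by omega : 0 < r)
  have h1 : 1 ≤ a * (x / n) * (n : ℝ) ^ c := by
    rw [Real.rpow_sub hn', Real.rpow_one, div_le_iff₀ (Real.rpow_pos_of_pos hn' c)] at hx
    rw [show a * (x / n) * (n : ℝ) ^ c = a * x * (n : ℝ) ^ c / n by ring, le_div_iff₀ hn', one_mul]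
    exact hx
  have h2 := one_le_pow₀ (n := 2 * C0 + 3) h1
  rw [mul_pow, mul_pow, ← Real.rpow_natCast ((n : ℝ) ^ c), ← Real.rpow_mul hn'.le, hc] at h2
  have h3 : mK r C0 n x = n * ((x : ℝ) / n) ^ (2 * C0 + 3) / (r * Real.exp (r + 6)) := by
    rw [mK, Real.exp_neg, pow_succ _ (2 * C0 + 2)]
    field_simp
  have h4 : 0 ≤ mK r C0 n x := by rw [h3]; positivity
  refine le_trans ?_ (mul_le_mul_of_nonneg_right hd h4)
  rw [h3]
  calc (n : ℝ) ≤ n * (a ^ (2 * C0 + 3) * ((x : ℝ) / n) ^ (2 * C0 + 3) * (n : ℝ) ^ (0.3 : ℝ)) :=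
        le_mul_of_one_le_right hn'.le h2
    _ = _ := by field_simp

theorem kiter_growth {c1 l : ℝ} {M : ℕ} (hc1 : 0 ≤ c1) (hM : 2 ≤ M * c1) :
    Real.exp (2 * l) ≤ (1 + c1) ^ (M * ⌈2 * l⌉₊) := by
  have h1 : Real.exp 1 ≤ (1 + c1) ^ M := by
    have := one_add_mul_le_pow (by linarith : -2 ≤ c1) M
    linarith [Real.exp_one_lt_d9]
  calc Real.exp (2 * l) ≤ Real.exp (⌈2 * l⌉₊ * 1) :=
        Real.exp_le_exp.mpr (by rw [mul_one]; exact Nat.le_ceil _)
    _ = Real.exp 1 ^ ⌈2 * l⌉₊ := Real.exp_nat_mul _ _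
    _ ≤ _ := by rw [pow_mul]; exact pow_le_pow_left₀ (Real.exp_pos _).le h1 _

theorem kall_det (hr : 3 ≤ r) {φ κ ρ : ℝ} (hφ : 0 < φ) (hφ1 : φ ≤ 1 / 2) (hκ : 0 < κ)
    (hκφ : κ ≤ φ) (hρ : 0 < ρ) (hρ1 : ρ ≤ 1) :
    ∃ (C0 : ℕ) (c C : ℝ), 0 < c ∧ c ≤ 1 / 2 ∧ 0 < C ∧ ∀ᶠ n : ℕ in atTop, ∀ π : Cfg n r,
      Exp φ κ π → ∀ Z : Finset ℂ, (∀ z ∈ Om r ρ, ∃ w ∈ Z, ‖z - w‖ ≤ Real.exp (-(lg n ^ 3))) →
        NoStruct π Z C0 → KAll c C ρ π := by
  have hr' : (3 : ℝ) ≤ r := by exact_mod_cast hr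
  obtain ⟨a, ha, ha'⟩ : ∃ a : ℝ, 40 ≤ a ∧ 32 ≤ κ * a := by
    refine ⟨40 + 32 / κ, le_add_of_nonneg_right (by positivity), ?_⟩
    rw [mul_add, mul_div_cancel₀ _ hκ.ne']
    linarith
  obtain ⟨C0, hC0⟩ := exists_nat_ge a
  obtain ⟨M, hM⟩ := exists_nat_ge (2 * (r * a))
  have hra : 0 < r * a := by positivity
  have hM1 : (1 : ℝ) ≤ M := by nlinarith only [hM, ha, hr']
  obtain ⟨c, hc0, hc1, hc⟩ : ∃ c : ℝ, 0 < c ∧ c ≤ 0.1 ∧ c * (2 * C0 + 3 : ℕ) = 0.3 := by
    have h1 : (3 : ℝ) ≤ (2 * C0 + 3 : ℕ) := by exact_mod_cast Nat.le_add_left _ _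
    refine ⟨0.3 / (2 * C0 + 3 : ℕ), by positivity, ?_, div_mul_cancel₀ _ (by positivity)⟩
    rw [div_le_iff₀ (by positivity)]
    linarith
  obtain ⟨B, hB, hB'⟩ : ∃ B : ℝ, 2 + 24 * (r : ℝ) ≤ B ∧ 2 * (1 + 2 * r / ρ) ≤ B :=
    ⟨_, le_max_left _ _, le_max_right _ _⟩
  obtain ⟨A, hA⟩ : ∃ A : ℝ, A = 384 * a * M := ⟨_, rfl⟩
  have hA0 : 0 ≤ A := by rw [hA]; positivity
  obtain ⟨C, hC⟩ : ∃ C : ℝ, C = (B + (A + 3)) * (3 * M + 1) + 100 / ρ := ⟨_, rfl⟩
  have hB0 : 0 ≤ B := by linarith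
  have hC0' : 0 < C := by rw [hC]; positivity
  obtain ⟨W, hW⟩ : ∃ W : ℝ, W = r * Real.exp (r + 6) * a ^ (2 * C0 + 3) := ⟨_, rfl⟩
  have hW1 : 1 ≤ W := by
    rw [hW]
    exact one_le_mul_of_one_le_of_one_le (one_le_mul_of_one_le_of_one_le (by linarith)
      (Real.one_le_exp (by positivity))) (one_le_pow₀ (by linarith))
  refine ⟨C0, c, C, hc0, by linarith, hC0', ?_⟩
  filter_upwards [eventually_ge_atTop 100, ev_le_lg 1, ev_le_lg (2 / κ),
    ev_poly (48 * M * W) 1 (by norm_num : (0.3 : ℝ) < 0.4),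
    ev_poly a 0 (by linarith : (1 / 2 : ℝ) < 1 - c), ev_poly 80 0 (by norm_num : (0 : ℝ) < 0.4),
    ev_lg_pow (4 * C) (by norm_num : 2 < 3),
    tendsto_natCast_atTop_atTop.eventually_ge_atTop (8 / κ)] with n h100 l1 l2 l3 l4 l5 l6 l7
  intro π hE Z hZ hno z hz J F0 b0 hJ hb hbF hJF hJn hKS
  have hn : (100 : ℝ) ≤ n := by exact_mod_cast h100
  simp only [pow_zero, mul_one, pow_one, Real.rpow_zero, ← Real.sqrt_eq_rpow] at l3 l4 l5
  have hb80 : (80 : ℝ) ≤ b0 := l5.trans hb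
  have hb0n : b0 ≤ n := by
    obtain ⟨K, h1, h2, -⟩ := hKS
    have := finrank_add_le K F0 h2
    omega
  have hb0n' : (b0 : ℝ) ≤ n := by exact_mod_cast hb0n
  obtain ⟨l, hl⟩ : ∃ l : ℝ, l = 1 + Real.log ((n : ℝ) / b0) := ⟨_, rfl⟩
  have hq : 1 ≤ (n : ℝ) / b0 := (one_le_div (by linarith)).mpr hb0n'
  have hl1 : 1 ≤ l := by linarith [Real.log_nonneg hq]
  have hl2 : l ≤ 2 * lg n := by
    have h1 : Real.log ((n : ℝ) / b0) ≤ lg n :=
      Real.log_le_log (by linarith) (div_le_self (by linarith) (by linarith))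
    linarith
  have hel : Real.exp l = Real.exp 1 * (n / b0) := by
    rw [hl, Real.exp_add, Real.exp_log (by linarith)]
  have htK : tK C n b0 = Real.exp (-(C * l ^ 2)) := by rw [hl, tK]
  obtain ⟨T, hT⟩ : ∃ T : ℕ, T = M * ⌈2 * l⌉₊ := ⟨_, rfl⟩
  have hT1 : (T : ℝ) ≤ 3 * M * l := by
    have h1 := (Nat.ceil_lt_add_one (by linarith : 0 ≤ 2 * l)).le
    rw [hT, Nat.cast_mul]
    nlinarith only [h1, hl1, hM1]
  have hT0 : (1 : ℝ) ≤ T := by
    have h1 := Nat.le_ceil (2 * l)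
    rw [hT, Nat.cast_mul]
    exact one_le_mul_of_one_le_of_one_le hM1 (by linarith)
  have hn3 : 1 ≤ (n : ℝ) ^ (0.3 : ℝ) := Real.one_le_rpow (by linarith) (by norm_num)
  have hTb : 8 * T * (W * (n : ℝ) ^ (0.3 : ℝ)) ≤ b0 := by
    have h1 : (T : ℝ) ≤ 6 * M * lg n := by nlinarith only [hT1, hl2, hM1]
    calc 8 * T * (W * (n : ℝ) ^ (0.3 : ℝ)) ≤ 8 * (6 * M * lg n) * (W * (n : ℝ) ^ (0.3 : ℝ)) := by
          gcongr
      _ = 48 * M * W * lg n * (n : ℝ) ^ (0.3 : ℝ) := by ring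
      _ ≤ _ := l3.trans hb
  have hWn : 1 ≤ W * (n : ℝ) ^ (0.3 : ℝ) := one_le_mul_of_one_le_of_one_le hW1 hn3
  obtain ⟨d, hd1, hd2⟩ : ∃ d : ℕ, 4 * d * T ≤ b0 ∧ (b0 : ℝ) ≤ 8 * T * d := by
    have h1 : 1 ≤ (b0 : ℝ) / (4 * T) := by
      rw [one_le_div (by linarith)]
      nlinarith only [hTb, hWn, hT0]
    have h2 := Nat.floor_le (zero_le_one.trans h1)
    have h3 := kiter_floor h1
    rw [le_div_iff₀ (by linarith)] at h2
    rw [div_le_iff₀ (by linarith)] at h3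
    generalize ⌊(b0 : ℝ) / (4 * T)⌋₊ = d at h2 h3
    exact ⟨d, by exact_mod_cast (by linarith : 4 * (d : ℝ) * T ≤ b0), by linarith⟩
  have hd3 : W * (n : ℝ) ^ (0.3 : ℝ) ≤ d :=
    le_of_mul_le_mul_left (hTb.trans hd2) (by linarith)
  have hκn : 8 ≤ κ * n := by rwa [div_le_iff₀' hκ] at l7
  have hJκ : 2 * (J.card : ℝ) ≤ κ * n := by
    rw [div_le_iff₀' hκ] at l2
    have h1 : (0 : ℝ) ≤ J.card := Nat.cast_nonneg _
    linarith only [mul_le_mul_of_nonneg_left l2 h1, mul_le_mul_of_nonneg_left hJn hκ.le]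
  have ht0 : Real.exp (-(lg n ^ 3)) ≤ Real.exp (-(C * l ^ 2)) := by
    refine Real.exp_le_exp.mpr (neg_le_neg (le_trans ?_ l6))
    have h1 : l ^ 2 ≤ (2 * lg n) ^ 2 := pow_le_pow_left₀ (by linarith) hl2 2
    linarith only [mul_le_mul_of_nonneg_left h1 hC0'.le]
  have hεd : 16 * a * (n : ℝ) ^ 2 ≤ Real.exp ((A + 3) * l) * d * b0 := by
    have h1 : (n : ℝ) ≤ Real.exp l * b0 := by
      have h2 : (n : ℝ) / b0 ≤ Real.exp l := by
        rw [hel]
        exact le_mul_of_one_le_left (by linarith) (Real.one_le_exp zero_le_one)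
      rwa [div_le_iff₀ (by linarith)] at h2
    have h3 : l ≤ Real.exp l := by linarith [Real.add_one_le_exp l]
    have h4 : (b0 : ℝ) ≤ 24 * M * Real.exp l * d := by
      refine hd2.trans (mul_le_mul_of_nonneg_right ?_ (Nat.cast_nonneg _))
      linarith only [hT1, mul_le_mul_of_nonneg_left h3 (zero_le_one.trans hM1)]
    have h5 := kiter_le_exp hA0 hl1
    calc 16 * a * (n : ℝ) ^ 2 ≤ 16 * a * (Real.exp l * b0) ^ 2 := by gcongr
      _ = 16 * a * Real.exp l ^ 2 * b0 * b0 := by ring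
      _ ≤ 16 * a * Real.exp l ^ 2 * (24 * M * Real.exp l * d) * b0 := by gcongr
      _ = A * Real.exp l ^ 3 * d * b0 := by rw [hA]; ring
      _ ≤ Real.exp (A * l) * Real.exp l ^ 3 * d * b0 := by gcongr
      _ = _ := by rw [← Real.exp_nat_mul, ← Real.exp_add]; push_cast; ring_nf
  obtain ⟨w, hw, hzw⟩ := hZ z hz
  rw [htK] at hKS
  refine kiter_abs (d := d) (T := T) (Γ := Real.exp ((B + (A + 3)) * l)) (c1 := 1 / (r * a))
    (by exact_mod_cast (by linarith : (0 : ℝ) < b0)) (Real.exp_pos _).le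
    (Real.one_le_exp (by positivity)) (by positivity) hd1 ?_ ?_ hKS
  · have h1 := kiter_growth (c1 := 1 / (r * a)) (l := l) (M := M) (by positivity) (by
      rw [mul_one_div, le_div_iff₀ hra]; exact hM)
    rw [← hT, two_mul, Real.exp_add, hel] at h1
    have h2 : (2 : ℝ) < Real.exp 1 := by linarith [Real.exp_one_gt_d9]
    calc 4 * (n : ℝ) ^ 2 < Real.exp 1 ^ 2 * (n : ℝ) ^ 2 :=
          mul_lt_mul_of_pos_right (by nlinarith only [h2]) (by positivity)
      _ = Real.exp 1 * (n / b0) * (Real.exp 1 * (n / b0)) * (b0 : ℝ) ^ 2 := by field_simp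
      _ ≤ _ := mul_le_mul_of_nonneg_right h1 (by positivity)
  · intro F hF b t h1 h2 h3 h4
    have h5 : (F0.card : ℝ) ≤ F.card := by exact_mod_cast card_le_card hF
    refine kiter_step (B := B) (E := Real.exp ((A + 3) * l)) hr hφ hφ1 hκ hκφ hρ hρ1 hE hz hw hzw
      hno hJ ha ha' hC0 (by exact_mod_cast hb80) hb0n hκn h100 (by linarith)
      (hJF.trans (card_le_card hF)) hJκ (fun x hx => ?_) (Real.one_le_exp (by positivity)) hεd
      hB hB' ?_ (ht0.trans h2) ?_ h1 h4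
    · exact kiter_mK hr (by omega) (by linarith) hc (by linarith) (hW ▸ hd3)
    · rw [add_mul B, Real.exp_add]
      exact mul_le_mul_of_nonneg_right (kiter_le_exp hB0 hl1) (Real.exp_pos _).le
    · refine (mul_le_mul_of_nonneg_right h3 (Real.exp_pos _).le).trans ?_
      rw [← Real.exp_nat_mul, ← Real.exp_add, ← Real.exp_add]
      have h6 : Real.exp (-(100 / ρ)) ≤ ρ / 100 := by
        rw [Real.exp_neg, inv_le_comm₀ (Real.exp_pos _) (by positivity), inv_div]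
        linarith [Real.add_one_le_exp (100 / ρ)]
      refine (Real.exp_le_exp.mpr ?_).trans h6
      have h7 : (0 : ℝ) ≤ B + (A + 3) := by positivity
      have h8 : (T + 1) * ((B + (A + 3)) * l) ≤ (3 * M + 1) * l * ((B + (A + 3)) * l) :=
        mul_le_mul_of_nonneg_right (by linarith) (by positivity)
      have h9 : 100 / ρ ≤ 100 / ρ * l ^ 2 :=
        le_mul_of_one_le_right (by positivity) (one_le_pow₀ hl1)
      rw [hC]
      linarith

theorem kiter_rare (hr : 3 ≤ r) (C0 : ℕ) (Z : ℕ → Finset ℂ)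
    (hZ : ∀ n, ((Z n).card : ℝ) ≤ (4 * r / Real.exp (-(lg n ^ 3)) + 3) ^ 2) :
    Rare r fun n π => ¬ NoStruct π (Z n) C0 := by
  classical
  refine rare_of_exp (δ := 1 / 2) (by norm_num) ?_
  filter_upwards [eventually_ge_atTop 1, ev_le_lg 1, ev_le_lg (8 * r + 8),
    ev_poly 5 3 (by norm_num : (0 : ℝ) < 1 / 2)] with n hn l1 l2 l3
  simp only [Real.rpow_zero, mul_one, ← Real.sqrt_eq_rpow] at l3 ⊢
  have hn' : (1 : ℝ) ≤ n := by exact_mod_cast hn
  have hs : 1 ≤ √(n : ℝ) := Real.one_le_sqrt.mpr hn'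
  have h1 := pr_exists_le_card (n := n) (r := r)
    (Z n ×ˢ ((range (n + 1)).filter fun x : ℕ => √(n : ℝ) ≤ x) ×ˢ range (LL n + 1))
    (fun p π => StructK π p.1 C0 p.2.1 (Real.exp (-(p.2.2 : ℝ)))) (b := Real.exp (-(2 * √(n : ℝ))))
    (fun p hp => by
      simp only [mem_product, mem_filter, mem_range] at hp
      refine (structK_prob (by omega) _ _ _ _ ?_ (by omega)).trans
        (Real.exp_le_exp.mpr (by linarith [hp.2.1.2]))
      exact_mod_cast hs.trans hp.2.1.2)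
  refine (pr_mono fun π hπ => ?_).trans (h1.trans ?_)
  · unfold NoStruct at hπ
    push Not at hπ
    obtain ⟨w, hw, x, k, h2, h3, h4, h5⟩ := hπ
    exact ⟨(w, x, k), by simp only [mem_product, mem_filter, mem_range]; exact
      ⟨hw, ⟨by omega, h2⟩, by omega⟩, h5⟩
  · have hL : lg n ≤ lg n ^ 3 := le_self_pow₀ l1 (by norm_num)
    have e1 : ((Z n).card : ℝ) ≤ Real.exp (2 * (4 * r + 3 + lg n ^ 3)) := by
      refine (hZ n).trans ?_
      rw [show (2 : ℝ) * (4 * r + 3 + lg n ^ 3) = (2 : ℕ) * (4 * r + 3 + lg n ^ 3) by norm_num,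
        Real.exp_nat_mul, Real.exp_neg, div_inv_eq_mul, Real.exp_add]
      have h2 : 1 ≤ Real.exp (lg n ^ 3) := Real.one_le_exp (by linarith)
      have h3 := Real.add_one_le_exp (4 * (r : ℝ) + 3)
      refine pow_le_pow_left₀ (by positivity) ?_ 2
      linarith only [h2, mul_le_mul_of_nonneg_right h3 (zero_le_one.trans h2)]
    have e2 : (((range (n + 1)).filter fun x : ℕ => √(n : ℝ) ≤ x).card : ℝ) ≤
        Real.exp (lg n + 1) := by
      have h2 := (card_filter_le (range (n + 1)) fun x : ℕ => √(n : ℝ) ≤ x).trans (card_range _).le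
      have h3 : (((range (n + 1)).filter fun x : ℕ => √(n : ℝ) ≤ x).card : ℝ) ≤ n + 1 := by
        exact_mod_cast h2
      rw [Real.exp_add, lg, Real.exp_log (by linarith)]
      nlinarith only [Real.add_one_le_exp (1 : ℝ), h3, hn']
    have e3 : ((range (LL n + 1)).card : ℝ) ≤ Real.exp (lg n ^ 3 + 1) := by
      have h2 := (Nat.ceil_lt_add_one (by linarith : 0 ≤ lg n ^ 3)).le
      have h3 := Real.add_one_le_exp (lg n ^ 3 + 1)
      rw [card_range, LL]
      push_cast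
      linarith
    rw [card_product, card_product, Nat.cast_mul, Nat.cast_mul]
    calc _ ≤ Real.exp (2 * (4 * r + 3 + lg n ^ 3)) * (Real.exp (lg n + 1) *
          Real.exp (lg n ^ 3 + 1)) * Real.exp (-(2 * √(n : ℝ))) := by gcongr
      _ ≤ _ := by
        rw [← Real.exp_add, ← Real.exp_add, ← Real.exp_add]
        exact Real.exp_le_exp.mpr (by linarith)

theorem rare_kall (hr : 3 ≤ r) {ρ : ℝ} (hρ : 0 < ρ) (hρ1 : ρ ≤ 1) :
    ∃ c C : ℝ, 0 < c ∧ c ≤ 1 / 2 ∧ 0 < C ∧ Rare r fun _ π => ¬ KAll c C ρ π := by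
  obtain ⟨φ, κ, hφ, hφ1, hκ, hκφ, hE⟩ := rare_exp hr
  obtain ⟨C0, c, C, h1, h2, h3, h4⟩ := kall_det hr hφ hφ1 hκ hκφ hρ hρ1
  choose Z _ hZ hZ' using fun n : ℕ => net (Om r ρ) (R := r) (h := Real.exp (-(lg n ^ 3)))
    (Nat.cast_nonneg r) (Real.exp_pos _) fun z hz => om_norm_le' hρ hz
  refine ⟨c, C, h1, h2, h3, (hE.or (kiter_rare hr C0 Z hZ)).mono ?_⟩
  filter_upwards [h4] with n hn π hπ
  by_contra h5
  push Not at h5
  exact hπ (hn π h5.1 (Z n) (hZ' n) h5.2)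

end Pool.Agent.OKM

end FileKIter

end
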