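import Pool.Agent.MP_5d5bd1_pr.Mg.Moment
import Pool.Agent.MP_5d5bd1_pr.Mg.KLemB
import Pool.Agent.MP_5d5bd1_pr.Mg.CaseC
import Pool.Agent.MP_5d5bd1_pr.Core

-- part MP_5d5bd1_pr.Low
section

section FileBulk

/-!
Lower bounds for determinants.
`exists_tree_per`: `ex Per ≥ e^(2nU) ≥ 1` (`ex_per_ge`, `U_nonneg`), `Per ≤ (2r)^n` (`per_le`) and `tree_prob` with
`K = log (2r) + 1`: if all tree-like `π` had `Per < e^(2nU)/2` then `ex Per ≤ e^(2nU)/2 + e^(-n) < e^(2nU)`.
`bulk`: Weierstrass (`exists_polynomial_near_of_continuousOn`) for `log (η^2 + x)` on `[0, 4 r^2]` with error `ε/4`,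
`P = ∑_{k ≤ d} a_k x^k`, `T = 2d`, `δ` with `2 δ ∑ |a_k| (2r)^(2k) ≤ ε/2`. Compare `mat π z` with `smat π' e z` from
`exists_tree_per`, `exists_signs`, using `sum_sv2_pow`, `trace_approx`, `badV_mono`, `sv2_le`, `nrm_smat_le`;
`∑ log (η^2 + sv2) ≥ log ∏ sv2 = log ‖det‖^2 ≥ 2 n U - log 2` (`prod_sv2`; all `sv2 > 0` since the product is).
`lb_det`: all `sv2 i > tau^2` (`exists_sv2_vec`), and if `b ≥ n^(1-c)` (so `b ≥ n^0.4`) values are `≤ x` then
`x > tK C n b ^ 2` (`sv2_space`, `KAll` with `J = F = ∅`). Use `sum_sorted` with `g x = log (1 + η^2/x)` and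
`G b = log 2 + 2 n^(c/2)` for `b < n^(1-c)`, `G b = log 2 + 8 C' √(n/b)` for `n^(1-c) ≤ b ≤ δ n`
(`(1 + log u)^2 ≤ 25 √u` for `u ≥ 1`, e.g. from `log u ≤ 4 u^(1/4)`), `G b = η^2 exp (50 C/√δ)` for `b > δ n`;
choose `δ` then `η ≤ 1` (`sum_inv_sqrt`).
`rare_lb`: combine with `rare_kall`, `rare_tree`.
-/

open Finset Filter Matrix

namespace Pool.Agent.OKM

variable {n r : ℕ}

theorem bulk_ex_const (K : ℝ) : ex (fun _ : Cfg n r => K) = K := by
  have h1 : pr (fun _ : Cfg n r => ¬ False) = 1 := by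
    rw [pr_not, pr_eq_zero fun _ h => h, sub_zero]
  have h2 := ex_ite (fun _ : Cfg n r => ¬ False) K
  rw [h1, mul_one] at h2
  simpa using h2

theorem exists_tree_per (hr : 3 ≤ r) (T : ℕ) {δ : ℝ} (hδ : 0 < δ) :
    ∀ᶠ n : ℕ in atTop, ∀ z : ℂ, ‖z‖ ≤ √(r : ℝ) → ∃ π : Cfg n r, Tree δ T π ∧
      Real.exp (2 * n * U r z) / 2 ≤ Per π (‖z‖ ^ 2) := by
  have hr' : (3 : ℝ) ≤ r := by exact_mod_cast hr
  filter_upwards [tree_prob (r := r) (by omega) T hδ (Real.log (2 * r) + 1), eventually_ge_atTop 1]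
    with n hT hn z hz
  by_contra hno
  have hn' : (1 : ℝ) ≤ n := by exact_mod_cast hn
  have hz2 : ‖z‖ ^ 2 ≤ r := (Real.le_sqrt (norm_nonneg _) (by linarith)).1 hz
  have hE : 1 ≤ Real.exp (2 * n * U r z) :=
    Real.one_le_exp (mul_nonneg (by positivity) (U_nonneg hr hz))
  have h1 := ex_per_ge (n := n) hr hz
  have h2 := ex_ite (fun π : Cfg n r => ¬ Tree δ T π) ((2 * r : ℝ) ^ n)
  have h3 := ex_add (fun _ : Cfg n r => Real.exp (2 * n * U r z) / 2)
    (fun π => @ite _ (¬ Tree δ T π) (Classical.propDecidable _) ((2 * r : ℝ) ^ n) 0)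
  rw [bulk_ex_const, h2] at h3
  have h4 : ex (fun π : Cfg n r => Per π (‖z‖ ^ 2)) ≤ _ := le_of_le_of_eq (ex_mono fun π => ?_) h3
  · have h5 : (2 * r : ℝ) ^ n * pr (fun π : Cfg n r => ¬ Tree δ T π) ≤ Real.exp (-1) := by
      calc _ ≤ (2 * r : ℝ) ^ n * Real.exp (-((Real.log (2 * r) + 1) * n)) := by gcongr
        _ = Real.exp (-n) := by
            rw [← Real.exp_log (show (0 : ℝ) < (2 * r) ^ n by positivity), ← Real.exp_add,
              Real.log_pow]
            congr 1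
            ring
        _ ≤ _ := Real.exp_le_exp.2 (by linarith)
    have h6 : Real.exp (-1) < 1 / 2 := Real.exp_neg_one_lt_half
    linarith
  · by_cases h : Tree δ T π
    · rw [if_neg (not_not.2 h), add_zero]
      exact (not_le.1 fun h' => hno ⟨π, h, h'⟩).le
    · rw [if_pos h]
      have h7 : Per π (‖z‖ ^ 2) ≤ (2 * r : ℝ) ^ n :=
        (per_le π (sq_nonneg _)).trans (pow_le_pow_left₀ (by positivity) (by linarith) n)
      linarith

theorem bulk_mom {τ : ℕ → ℂ → ℂ} (hτ : ∀ (k n : ℕ) (π : Cfg n r) (e : St n r → ℂ),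
    (∀ s, e s = 1 ∨ e s = -1) → ∀ z : ℂ,
      ‖(((smat π e z)ᴴ * smat π e z) ^ k).trace - n * τ k z‖
        ≤ ((r : ℝ) + ‖z‖) ^ (2 * k) * (badV π (2 * k)).card)
    {π : Cfg n r} {e : St n r → ℂ} (he : ∀ s, e s = 1 ∨ e s = -1) {z : ℂ} (hz : ‖z‖ ≤ r)
    {δ : ℝ} {d k : ℕ} (hT : Tree δ (2 * d) π) (hk : k ≤ d) :
    |∑ i, sv2 (smat π e z) i ^ k - n * (τ k z).re| ≤ (2 * r : ℝ) ^ (2 * k) * (δ * n) := by
  have h1 := hτ k n π e he z
  rw [← sum_sv2_pow] at h1
  have h2 := (Complex.abs_re_le_norm _).trans h1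
  rw [Complex.sub_re, Complex.ofReal_re, ← Complex.ofReal_natCast, Complex.re_ofReal_mul] at h2
  refine h2.trans ?_
  have h3 : ((badV π (2 * k)).card : ℝ) ≤ δ * n :=
    le_trans (by exact_mod_cast card_le_card (badV_mono π (by omega))) hT
  have h4 : (r : ℝ) + ‖z‖ ≤ 2 * r := by linarith
  gcongr

theorem bulk (hr : 3 ≤ r) {η ε : ℝ} (hη : 0 < η) (hε : 0 < ε) :
    ∃ (T : ℕ) (δ : ℝ), 0 < δ ∧ ∀ᶠ n : ℕ in atTop, ∀ π : Cfg n r, Tree δ T π → ∀ z : ℂ,
      ‖z‖ ≤ √(r : ℝ) → 2 * n * (U r z - ε) ≤ ∑ i, Real.log (η ^ 2 + sv2 (mat π z) i) := by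
  have hr' : (3 : ℝ) ≤ r := by exact_mod_cast hr
  obtain ⟨p, hp⟩ := exists_polynomial_near_of_continuousOn 0 ((2 * r : ℝ) ^ 2)
    (fun x => Real.log (η ^ 2 + x))
    (ContinuousOn.log (by fun_prop) fun x hx => by have := hx.1; positivity) (ε / 4) (by positivity)
  obtain ⟨τ, hτ⟩ := trace_approx r
  obtain ⟨B, hB⟩ : ∃ B : ℝ, B = ∑ k ∈ range (p.natDegree + 1), |p.coeff k| * (2 * r : ℝ) ^ (2 * k) :=
    ⟨_, rfl⟩
  have hB0 : 0 ≤ B := hB ▸ sum_nonneg fun k _ => by positivity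
  have hδ : 0 < ε / (4 * (B + 1)) := by positivity
  have hδB : B * (ε / (4 * (B + 1))) ≤ ε / 4 := by
    rw [← mul_div_assoc, div_le_div_iff₀ (by positivity) (by norm_num)]
    nlinarith
  refine ⟨2 * p.natDegree, _, hδ, ?_⟩
  have hev : ∀ᶠ n : ℕ in atTop, 1 / ε ≤ (n : ℝ) :=
    tendsto_natCast_atTop_atTop.eventually_ge_atTop _
  filter_upwards [exists_tree_per hr (2 * p.natDegree) hδ, hev] with n hex hn π hT z hz
  have hn0 : (0 : ℝ) ≤ n := Nat.cast_nonneg n
  have hzr : ‖z‖ ≤ r := hz.trans (Real.sqrt_le_iff.2 ⟨by linarith, by nlinarith⟩)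
  have key : ∀ (π : Cfg n r) (e : St n r → ℂ), (∀ s, e s = 1 ∨ e s = -1) →
      Tree (ε / (4 * (B + 1))) (2 * p.natDegree) π →
      |∑ i, Real.log (η ^ 2 + sv2 (smat π e z) i)
        - ∑ k ∈ range (p.natDegree + 1), p.coeff k * (n * (τ k z).re)| ≤ n * (ε / 2) := by
    intro π e he hT
    have he1 : ∀ s, ‖e s‖ ≤ 1 := fun s => by rcases he s with h | h <;> simp [h]
    have hs : ∀ i, sv2 (smat π e z) i ∈ Set.Icc (0 : ℝ) ((2 * r : ℝ) ^ 2) := fun i =>
      ⟨sv2_nonneg _ _, sv2_le _ (fun y => (nrm_smat_le π he1 z y).trans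
        (mul_le_mul_of_nonneg_right (by linarith) (nrm_nonneg y))) i⟩
    have h1 : |∑ i, Real.log (η ^ 2 + sv2 (smat π e z) i) - ∑ i, p.eval (sv2 (smat π e z) i)|
        ≤ n * (ε / 4) := by
      rw [← sum_sub_distrib]
      refine (abs_sum_le_sum_abs _ _).trans ?_
      refine (sum_le_sum fun i _ => (abs_sub_comm _ _).trans_le (hp _ (hs i)).le).trans ?_
      simp
    have h2 : |∑ i, p.eval (sv2 (smat π e z) i)
        - ∑ k ∈ range (p.natDegree + 1), p.coeff k * (n * (τ k z).re)| ≤ n * (ε / 4) := by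
      simp only [Polynomial.eval_eq_sum_range]
      rw [sum_comm, ← sum_sub_distrib]
      refine (abs_sum_le_sum_abs _ _).trans ?_
      calc _ ≤ ∑ k ∈ range (p.natDegree + 1),
            |p.coeff k| * (2 * r : ℝ) ^ (2 * k) * (ε / (4 * (B + 1)) * n) := by
            refine sum_le_sum fun k hk => ?_
            rw [← mul_sum, ← mul_sub, abs_mul, mul_assoc]
            exact mul_le_mul_of_nonneg_left
              (bulk_mom hτ he hzr hT (Nat.lt_succ_iff.1 (mem_range.1 hk))) (abs_nonneg _)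
        _ = B * (ε / (4 * (B + 1))) * n := by rw [← sum_mul, ← hB, mul_assoc]
        _ ≤ _ := by rw [mul_comm]; gcongr
    linarith [abs_sub_le (∑ i, Real.log (η ^ 2 + sv2 (smat π e z) i))
      (∑ i, p.eval (sv2 (smat π e z) i))
      (∑ k ∈ range (p.natDegree + 1), p.coeff k * (n * (τ k z).re))]
  obtain ⟨π', hT', hP⟩ := hex z hz
  obtain ⟨e, he, hd⟩ := exists_signs π' z
  have k1 := abs_le.1 (key π (fun _ => 1) (fun _ => Or.inl rfl) hT)
  have k2 := abs_le.1 (key π' e he hT')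
  have hpos : 0 < Real.exp (2 * n * U r z) / 2 := by positivity
  have h3 : Real.exp (2 * n * U r z) / 2 ≤ ∏ i, (η ^ 2 + sv2 (smat π' e z) i) := by
    refine (hP.trans hd).trans ?_
    rw [← prod_sv2]
    exact prod_le_prod (fun i _ => sv2_nonneg _ _) fun i _ => by linarith [sq_nonneg η]
  have h4 := Real.log_le_log hpos h3
  rw [Real.log_div (Real.exp_pos _).ne' two_ne_zero, Real.log_exp,
    Real.log_prod fun i _ => by have := sv2_nonneg (smat π' e z) i; positivity] at h4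
  have h5 : Real.log 2 ≤ n * ε := by
    have := (div_le_iff₀ hε).1 hn
    linarith [Real.log_two_lt_d9]
  unfold mat
  linarith [k1.1, k2.2]

theorem bulk_log {u : ℝ} (hu : 1 ≤ u) : (1 + Real.log u) ^ 2 ≤ 25 * √u := by
  have h0 : 0 ≤ u := by linarith
  have h1 : 0 < √(√u) := Real.sqrt_pos.2 (Real.sqrt_pos.2 (by linarith))
  have h2 := Real.log_le_sub_one_of_pos h1
  rw [Real.log_sqrt (Real.sqrt_nonneg _), Real.log_sqrt h0] at h2
  have h3 := Real.log_nonneg hu
  calc _ ≤ (5 * √(√u)) ^ 2 := pow_le_pow_left₀ (by linarith) (by linarith) 2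
    _ = _ := by rw [mul_pow, Real.sq_sqrt (Real.sqrt_nonneg _)]; norm_num

theorem bulk_g {η x A : ℝ} (hη1 : η ^ 2 ≤ 1) (hA : 0 ≤ A) (hx : Real.exp (-A) ≤ x) :
    Real.log (1 + η ^ 2 / x) ≤ 1 + A ∧ Real.log (1 + η ^ 2 / x) ≤ η ^ 2 * Real.exp A := by
  have hx0 : 0 < x := (Real.exp_pos _).trans_le hx
  have h1 : η ^ 2 / x ≤ η ^ 2 * Real.exp A := by
    rw [← div_inv_eq_mul, ← Real.exp_neg]
    exact div_le_div_of_nonneg_left (sq_nonneg _) (Real.exp_pos _) hx
  have h2 : 1 ≤ Real.exp A := Real.one_le_exp hA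
  have hp : 0 < 1 + η ^ 2 / x := by positivity
  constructor
  · rw [Real.log_le_iff_le_exp hp, Real.exp_add]
    have h3 := mul_le_mul_of_nonneg_right hη1 (Real.exp_pos A).le
    have h4 := mul_le_mul_of_nonneg_right Real.exp_one_gt_two.le (Real.exp_pos A).le
    linarith
  · linarith [Real.log_le_sub_one_of_pos hp]

theorem bulk_cnt (n : ℕ) {y A : ℝ} (hy : 0 ≤ y) (hA : 0 ≤ A) :
    ∑ b ∈ Icc 1 n, (if (b : ℝ) ≤ y then 1 + A / √(b : ℝ) else 0) ≤ y + 2 * A * √y := by
  rw [← sum_filter]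
  have h1 : (Icc 1 n).filter (fun b : ℕ => (b : ℝ) ≤ y) ⊆ Icc 1 ⌊y⌋₊ := by
    intro b hb
    rw [mem_filter, mem_Icc] at hb
    exact mem_Icc.2 ⟨hb.1.1, Nat.le_floor hb.2⟩
  refine (sum_le_sum_of_subset_of_nonneg h1 fun b _ _ => by positivity).trans ?_
  have h2 := Nat.floor_le hy
  have h3 := (sum_inv_sqrt ⌊y⌋₊).trans
    (mul_le_mul_of_nonneg_left (Real.sqrt_le_sqrt h2) (by norm_num))
  have h4 := mul_le_mul_of_nonneg_left h3 hA
  rw [mul_sum] at h4
  simp only [mul_one_div] at h4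
  rw [sum_add_distrib, sum_const, Nat.card_Icc, add_tsub_cancel_right, nsmul_eq_mul, mul_one]
  linarith

theorem lb_det {c C ε : ℝ} (hc : 0 < c) (hc2 : c ≤ 1 / 2) (hC : 0 < C) (hε : 0 < ε) :
    ∃ η : ℝ, 0 < η ∧ ∀ᶠ n : ℕ in atTop, ∀ (r : ℕ) (ρ : ℝ) (π : Cfg n r), KAll c C ρ π →
      ∀ z ∈ Om r ρ, ¬ Small π z (tau (c / 2) n) →
        ∑ i, Real.log (η ^ 2 + sv2 (mat π z) i) ≤ 2 * Real.log ‖(mat π z).det‖ + ε * n := by
  obtain ⟨γ, hγ, hγ1, hγε⟩ : ∃ γ : ℝ, 0 < γ ∧ γ ≤ 1 ∧ γ * (1 + 100 * C) ≤ ε / 3 :=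
    ⟨min 1 (ε / 3 / (1 + 100 * C)), lt_min one_pos (by positivity), min_le_left _ _,
      (le_div_iff₀ (by positivity)).1 (min_le_right _ _)⟩
  obtain ⟨η, hη, hη1, hηε⟩ : ∃ η : ℝ, 0 < η ∧ η ≤ 1 ∧ η * Real.exp (50 * C / γ) ≤ ε / 3 :=
    ⟨min 1 (ε / 3 / Real.exp (50 * C / γ)), lt_min one_pos (by positivity), min_le_left _ _,
      (le_div_iff₀ (by positivity)).1 (min_le_right _ _)⟩
  have hη2 : η ^ 2 ≤ η := by nlinarith
  refine ⟨η, hη, ?_⟩
  filter_upwards [eventually_ge_atTop 1, ev_poly (9 / ε) 0 (show 1 - c / 2 < 1 by linarith)]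
    with n hn hpoly r ρ π hK z hz hs
  have hn1 : (1 : ℝ) ≤ n := by exact_mod_cast hn
  have hn0 : (0 : ℝ) < n := by linarith
  have hx : ∀ i, Real.exp (-(2 * (n : ℝ) ^ (c / 2))) ≤ sv2 (mat π z) i := by
    intro i
    obtain ⟨y, hy1, hy2⟩ := exists_sv2_vec (mat π z) i
    rw [mat_mulVec] at hy2
    have h1 : tau (c / 2) n ≤ nrm (app π z y) := (not_le.1 fun h => hs ⟨y, hy1, h⟩).le
    rw [← hy2]
    refine le_trans (le_of_eq ?_) (pow_le_pow_left₀ (Real.exp_pos _).le h1 2)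
    rw [← Real.exp_nat_mul]
    congr 1
    push_cast
    ring
  have hx0 : ∀ i, 0 < sv2 (mat π z) i := fun i => (Real.exp_pos _).trans_le (hx i)
  have hlog : ∑ i, Real.log (η ^ 2 + sv2 (mat π z) i) = 2 * Real.log ‖(mat π z).det‖
      + ∑ i, Real.log (1 + η ^ 2 / sv2 (mat π z) i) := by
    have h1 := congrArg Real.log (prod_sv2 (mat π z))
    rw [Real.log_prod fun i _ => (hx0 i).ne', Real.log_pow] at h1
    push_cast at h1
    rw [← h1, ← sum_add_distrib]
    refine sum_congr rfl fun i _ => ?_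
    have := hx0 i
    rw [← Real.log_mul this.ne' (by positivity)]
    congr 1
    field_simp
    ring
  rw [hlog, add_le_add_iff_left]
  have hp1 : 1 ≤ (n : ℝ) ^ (c / 2) := Real.one_le_rpow hn1 (by linarith)
  have hp2 : 0 ≤ (n : ℝ) ^ (1 - c) := Real.rpow_nonneg hn0.le _
  refine (sum_sorted (sv2 (mat π z)) (fun x => Real.log (1 + η ^ 2 / x))
    (fun b => 3 * (n : ℝ) ^ (c / 2) * (if (b : ℝ) ≤ (n : ℝ) ^ (1 - c) then 1 + 0 / √(b : ℝ) else 0)
      + (if (b : ℝ) ≤ γ ^ 2 * n then 1 + 50 * C * √(n : ℝ) / √(b : ℝ) else 0)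
      + η ^ 2 * Real.exp (50 * C / γ)) fun i b hb1 hb => ?_).trans ?_
  · have hb0 : (0 : ℝ) < b := by exact_mod_cast hb1
    have t2 : 0 ≤ (if (b : ℝ) ≤ γ ^ 2 * n then 1 + 50 * C * √(n : ℝ) / √(b : ℝ) else 0) := by
      split_ifs <;> positivity
    have t3 : 0 ≤ η ^ 2 * Real.exp (50 * C / γ) := by positivity
    by_cases h1 : (b : ℝ) ≤ (n : ℝ) ^ (1 - c)
    · have := (bulk_g (hη2.trans hη1) (by positivity) (hx i)).1
      rw [if_pos h1, zero_div, add_zero, mul_one]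
      linarith
    · rw [if_neg h1, mul_zero, zero_add]
      have h2 := (not_le.1 h1).le
      have hbn : (b : ℝ) ≤ n := by
        have := hb.trans (card_le_univ _)
        rw [Fintype.card_fin] at this
        exact_mod_cast this
      have h3 : tK C n b ^ 2 ≤ sv2 (mat π z) i := by
        by_contra h
        obtain ⟨K, hK1, hK2⟩ := sv2_space (mat π z) (t := tK C n b) (Real.exp_pos _).le
        refine hK z hz ∅ ∅ b (sparse_empty π)
          ((Real.rpow_le_rpow_of_exponent_le hn1 (by linarith)).trans h2) (by simpa using h2)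
          (by simp) (by simp) ⟨K, hb.trans ((card_le_card fun j hj => ?_).trans hK1),
            fun y _ a ha => absurd ha (notMem_empty a), fun y hy => ?_⟩
        · rw [mem_filter] at hj ⊢
          exact ⟨hj.1, hj.2.trans (not_le.1 h).le⟩
        · rw [offS_empty, ← mat_mulVec]
          exact hK2 y hy
      have h4 : Real.exp (-(50 * C * √(n : ℝ) / √(b : ℝ))) ≤ sv2 (mat π z) i := by
        refine le_trans ?_ h3
        unfold tK
        rw [← Real.exp_nat_mul, Real.exp_le_exp, mul_div_assoc, ← Real.sqrt_div hn0.le]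
        have := mul_le_mul_of_nonneg_left (bulk_log ((one_le_div hb0).2 hbn)) hC.le
        push_cast
        linarith
      by_cases h5 : (b : ℝ) ≤ γ ^ 2 * n
      · have := (bulk_g (hη2.trans hη1) (by positivity) h4).1
        rw [if_pos h5]
        linarith
      · rw [if_neg h5, zero_add]
        refine (bulk_g (hη2.trans hη1) (by positivity) (le_trans ?_ h4)).2
        rw [Real.exp_le_exp, neg_le_neg_iff, div_le_div_iff₀ (Real.sqrt_pos.2 hb0) hγ, mul_assoc]
        refine mul_le_mul_of_nonneg_left ?_ (by positivity)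
        refine le_trans (le_of_eq ?_) (Real.sqrt_le_sqrt (not_le.1 h5).le)
        rw [Real.sqrt_mul (sq_nonneg _), Real.sqrt_sq hγ.le, mul_comm]
  · rw [sum_add_distrib, sum_add_distrib, ← mul_sum, sum_const, Nat.card_Icc,
      add_tsub_cancel_right, nsmul_eq_mul]
    have s1 := bulk_cnt n hp2 le_rfl
    have s2 := bulk_cnt n (y := γ ^ 2 * n) (A := 50 * C * √(n : ℝ)) (by positivity) (by positivity)
    rw [mul_zero, zero_mul, add_zero] at s1
    rw [Real.sqrt_mul (sq_nonneg _), Real.sqrt_sq hγ.le] at s2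
    have e1 : 2 * (50 * C * √(n : ℝ)) * (γ * √(n : ℝ)) = 100 * C * γ * n := by
      linear_combination 100 * C * γ * Real.mul_self_sqrt hn0.le
    have a1 : 3 * (n : ℝ) ^ (c / 2) * (n : ℝ) ^ (1 - c) ≤ ε / 3 * n := by
      rw [pow_zero, mul_one, Real.rpow_one, div_mul_eq_mul_div, div_le_iff₀ hε] at hpoly
      rw [mul_assoc, ← Real.rpow_add hn0, show c / 2 + (1 - c) = 1 - c / 2 by ring]
      linarith
    have a2 : γ ^ 2 * n + 100 * C * γ * n ≤ ε / 3 * n := by
      rw [← add_mul]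
      refine mul_le_mul_of_nonneg_right ?_ hn0.le
      nlinarith
    have a3 : n * (η ^ 2 * Real.exp (50 * C / γ)) ≤ ε / 3 * n := by
      rw [mul_comm]
      refine mul_le_mul_of_nonneg_right (le_trans ?_ hηε) hn0.le
      gcongr
    have a4 := mul_le_mul_of_nonneg_left s1 (show 0 ≤ 3 * (n : ℝ) ^ (c / 2) by positivity)
    linarith

theorem rare_lb (hr : 3 ≤ r) {ρ : ℝ} (hρ : 0 < ρ) (hρ1 : ρ ≤ 1) :
    ∃ c : ℝ, 0 < c ∧ ∀ ε : ℝ, 0 < ε → Rare r fun n π => ¬ LBall ρ ε (tau c n) π := by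
  obtain ⟨c, C, hc, hc2, hC, hK⟩ := rare_kall hr hρ hρ1
  refine ⟨c / 2, by positivity, fun ε hε => ?_⟩
  obtain ⟨η, hη, h1⟩ := lb_det hc hc2 hC hε
  obtain ⟨T, δ, hδ, h2⟩ := bulk hr hη (half_pos hε)
  refine Rare.mono (hK.or (rare_tree (by omega) T hδ)) ?_
  filter_upwards [h1, h2] with n h1 h2 π h
  by_contra hno
  rw [not_or, not_not, not_not] at hno
  refine h fun z hz hs => ?_
  have a1 := h1 r ρ π hno.1 z hz hs
  have a2 := h2 π hno.2 z (om_norm_le hρ hz)
  linarith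

end Pool.Agent.OKM

end FileBulk

section FileFDet

/-!
Deterministic part of the final argument. Cells have side `th n ^ 4`.
`TT_le`: `tau c n (4/th)^l ≤ exp (-n^c + (lg^8 + 2)(lg^7 + 2))`.
`classI_count`: fix `l`. For each `Q ∈ CSet π D c l` pick `z, v` and `u` (`Small.inv`); `Far` and `Coin` put
`(hd π α, hd π β)` in the set counted by `coin π v` or `(α.1, β.1)` in the one counted by `coin π⁻¹ u`; each pair
comes from at most `r^2` pairs of stubs. Double count pairs `(Q, (α, β))`.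
`fdet`: apply `fcore` (with `cheeger`) to `𝒬 = box (RF r n)`, `CS l β = CSet (sw π α β) D c l`,
`CX l i' = 𝒬.filter (∃ z ∈ D, fi h z = Q ∧ ∀ w, th ‖w α.1 - w i'‖ ≤ nrm (app π⁻¹ z w) + TT c n l * nrm w)`,
`CY l j'` likewise with `‖w (hd π α) - w j'‖` and `app π z w`, `Gd` the set of `β` that are anchored, far and not
of class I. `hX, hY`: `small_sw_left/right`; `hin`: a cell of `CSet` without `Coin` lies in `CX ∩ CY` by
`sw_left/right` (`hd_sw_left/right`); `hsupp`: pick `z_Q ∈ D` in the cell and a unit `u` with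
`nrm (app π⁻¹ z_Q u) ≤ tau`; every `i'` in the set has `‖u α.1 - u i'‖ ≤ 6 th^3` (`ctr_fi` gives `‖z - z_Q‖ ≤ 4h`,
`nrm_app_shift`), so a set of `m` such `i'` has `m (m - (r+1)^2) ≤ coin π⁻¹ u th ≤ n^0.95` (`card_conf`), whence
`m ≤ φ n`. `log |𝒬| ≤ 10 lg^7` (`card_box`). Finally `Gdᶜ ⊆ bad ∪ near`, `near_count`, `loops_le`.
-/

open Finset Filter

namespace Pool.Agent.OKM

variable {n r : ℕ}

noncomputable def LF (n : ℕ) : ℕ := ⌈lg n ^ 8⌉₊
noncomputable def RF (r n : ℕ) : ℕ := ⌈r / th n ^ 4⌉₊ + 1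
noncomputable def TT (c : ℝ) (n l : ℕ) : ℝ := tau c n * (4 / th n) ^ l

open Classical in
noncomputable def CSet (π : Cfg n r) (D : Set ℂ) (c : ℝ) (l : ℕ) : Finset (ℤ × ℤ) :=
  (box (RF r n)).filter fun Q => ∃ z ∈ D, fi (th n ^ 4) z = Q ∧ Small π z (TT c n l)

def Coin (π : Cfg n r) (D : Set ℂ) (c : ℝ) (l : ℕ) (Q : ℤ × ℤ) (α β : St n r) : Prop :=
  ∀ z ∈ D, fi (th n ^ 4) z = Q → ∀ v u : Fin n → ℂ, nrm v = 1 → nrm (app π z v) ≤ TT c n l →
    nrm u = 1 → nrm (app π⁻¹ z u) ≤ TT c n l →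
    ‖v (hd π α) - v (hd π β)‖ ≤ th n ∨ ‖u α.1 - u β.1‖ ≤ th n

open Classical in
def ClassI (π : Cfg n r) (D : Set ℂ) (c : ℝ) (α β : St n r) : Prop :=
  Far π α β ∧ ∃ l < LF n, (CSet π D c l).Nonempty ∧
    (CSet π D c l).card ≤ 2000 * r * ((CSet π D c l).filter fun Q => Coin π D c l Q α β).card

theorem fdet_th_pos (n : ℕ) : 0 < th n := Real.exp_pos _

theorem fdet_th_le_one {n : ℕ} (h : 0 ≤ lg n) : th n ≤ 1 :=
  Real.exp_le_one_iff.2 (neg_nonpos.2 (pow_nonneg h _))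

theorem fdet_TT_pos (c : ℝ) (n l : ℕ) : 0 < TT c n l := by
  unfold TT tau
  have := fdet_th_pos n
  positivity

theorem fdet_TT_succ (c : ℝ) (n l : ℕ) : TT c n (l + 1) = TT c n l * (4 / th n) := by
  unfold TT
  rw [pow_succ, mul_assoc]

theorem fdet_one_le {n : ℕ} (h : 0 ≤ lg n) : 1 ≤ 4 / th n := by
  rw [le_div_iff₀ (fdet_th_pos n)]
  linarith [fdet_th_le_one h]

theorem fdet_tau_le (c : ℝ) {n : ℕ} (h : 0 ≤ lg n) (l : ℕ) : tau c n ≤ TT c n l :=
  le_mul_of_one_le_right (Real.exp_pos _).le (one_le_pow₀ (fdet_one_le h))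

theorem TT_le {c : ℝ} (hc : 0 < c) : ∀ᶠ n : ℕ in atTop, ∀ l ≤ LF n, TT c n l ≤ th n ^ 4 := by
  filter_upwards [ev_le_lg 2, ev_poly 10 15 hc] with n h2 h10 l hl
  rw [Real.rpow_zero, mul_one] at h10
  have hl1 : 1 ≤ lg n := by linarith
  have h7 : 2 ≤ lg n ^ 7 := h2.trans (le_self_pow₀ hl1 (by norm_num))
  have h8 : 1 ≤ lg n ^ 8 := one_le_pow₀ hl1
  have hL : (l : ℝ) ≤ 2 * lg n ^ 8 := by
    have h1 : (LF n : ℝ) ≤ lg n ^ 8 + 1 := (Nat.ceil_lt_add_one (by positivity)).le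
    have h3 : (l : ℝ) ≤ LF n := by exact_mod_cast hl
    linarith
  have h4 : 4 / th n ≤ Real.exp (2 * lg n ^ 7) := by
    unfold th
    rw [Real.exp_neg, div_inv_eq_mul, two_mul, Real.exp_add]
    refine mul_le_mul_of_nonneg_right ?_ (Real.exp_pos _).le
    have h5 : Real.exp 2 ≤ Real.exp (lg n ^ 7) := Real.exp_le_exp.2 h7
    have h6 : Real.exp 2 = Real.exp 1 * Real.exp 1 := by rw [← Real.exp_add]; norm_num
    have h9 := Real.add_one_le_exp 1
    nlinarith
  have h5 : (4 / th n) ^ l ≤ Real.exp (l * (2 * lg n ^ 7)) := by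
    rw [Real.exp_nat_mul]
    exact pow_le_pow_left₀ (by have := fdet_th_pos n; positivity) h4 l
  unfold TT tau
  refine (mul_le_mul_of_nonneg_left h5 (Real.exp_pos _).le).trans ?_
  unfold th
  rw [← Real.exp_add, ← Real.exp_nat_mul, Real.exp_le_exp]
  have h6 := mul_le_mul_of_nonneg_right hL (by positivity : 0 ≤ 2 * lg n ^ 7)
  have h9 : lg n ^ 7 ≤ lg n ^ 15 := pow_le_pow_right₀ hl1 (by norm_num)
  have h11 : 0 ≤ lg n ^ 15 := by positivity
  push_cast
  linarith

theorem fdet_pairs (g : St n r → Fin n) (hg : ∀ j, (univ.filter fun s => g s = j).card ≤ r)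
    (R : Fin n × Fin n → Prop) [DecidablePred R] :
    (univ.filter fun p : St n r × St n r => R (g p.1, g p.2)).card
      ≤ r ^ 2 * (univ.filter R).card := by
  refine card_le_mul_card_image_of_maps_to (f := fun p : St n r × St n r => (g p.1, g p.2))
    (fun p hp => mem_filter.2 ⟨mem_univ _, (mem_filter.1 hp).2⟩) _ fun q _ => ?_
  have h1 : ((univ.filter fun p : St n r × St n r => R (g p.1, g p.2)).filter
      fun p => (g p.1, g p.2) = q) ⊆
      (univ.filter fun s => g s = q.1) ×ˢ (univ.filter fun s => g s = q.2) := by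
    intro p hp
    have h2 := (mem_filter.1 hp).2
    rw [mem_product, mem_filter, mem_filter, ← h2]
    exact ⟨⟨mem_univ _, rfl⟩, mem_univ _, rfl⟩
  refine (card_le_card h1).trans ?_
  rw [card_product, sq]
  exact Nat.mul_le_mul (hg _) (hg _)

theorem fdet_fst_fiber (j : Fin n) : (univ.filter fun s : St n r => s.1 = j).card ≤ r := by
  have h : (univ.filter fun s : St n r => s.1 = j) ⊆ univ.image fun a : Fin r => (j, a) := by
    intro s hs
    exact mem_image.2 ⟨s.2, mem_univ _, by rw [← (mem_filter.1 hs).2]⟩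
  refine (card_le_card h).trans (card_image_le.trans ?_)
  simp

open Classical in
theorem fdet_coin_count {ρ c : ℝ} {D : Set ℂ} (hD : D ⊆ Om r ρ) (π : Cfg n r) (h1 : CAll ρ π)
    (h2 : CAll ρ π⁻¹) {l : ℕ} (hT : TT c n l ≤ th n) {Q : ℤ × ℤ} (hQ : Q ∈ CSet π D c l) :
    ((univ.filter fun p : St n r × St n r => Far π p.1 p.2 ∧ Coin π D c l Q p.1 p.2).card : ℝ)
      ≤ 2 * (r : ℝ) ^ 2 * (n : ℝ) ^ (0.95 : ℝ) := by
  obtain ⟨z, hz, hzQ, hs⟩ := (mem_filter.1 hQ).2
  obtain ⟨u, hu, hu2⟩ := hs.inv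
  obtain ⟨v, hv, hv2⟩ := hs
  have e1 := h1 z (hD hz) v hv (hv2.trans hT)
  have e2 := h2 z (hD hz) u hu (hu2.trans hT)
  have f1 := fdet_pairs (hd π) (fun j => (card_hd_fiber π j).le)
    fun p : Fin n × Fin n => ¬ Conf π p.1 p.2 ∧ ‖v p.1 - v p.2‖ ≤ th n
  have f2 := fdet_pairs (r := r) Prod.fst fdet_fst_fiber
    fun p : Fin n × Fin n => ¬ Conf π⁻¹ p.1 p.2 ∧ ‖u p.1 - u p.2‖ ≤ th n
  have hsub : (univ.filter fun p : St n r × St n r => Far π p.1 p.2 ∧ Coin π D c l Q p.1 p.2) ⊆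
      (univ.filter fun p : St n r × St n r =>
        ¬ Conf π (hd π p.1) (hd π p.2) ∧ ‖v (hd π p.1) - v (hd π p.2)‖ ≤ th n) ∪
      (univ.filter fun p : St n r × St n r =>
        ¬ Conf π⁻¹ p.1.1 p.2.1 ∧ ‖u p.1.1 - u p.2.1‖ ≤ th n) := by
    intro p hp
    obtain ⟨hf, hc⟩ := (mem_filter.1 hp).2
    rcases hc z hz hzQ v u hv hv2 hu hu2 with h | h
    · exact mem_union_left _ (mem_filter.2 ⟨mem_univ _, hf.1, h⟩)
    · exact mem_union_right _ (mem_filter.2 ⟨mem_univ _, hf.2, h⟩)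
  have h3 : (univ.filter fun p : St n r × St n r =>
      Far π p.1 p.2 ∧ Coin π D c l Q p.1 p.2).card
      ≤ r ^ 2 * coin π v (th n) + r ^ 2 * coin π⁻¹ u (th n) :=
    (card_le_card hsub).trans ((card_union_le _ _).trans (Nat.add_le_add f1 f2))
  have h4 : ((univ.filter fun p : St n r × St n r =>
      Far π p.1 p.2 ∧ Coin π D c l Q p.1 p.2).card : ℝ)
      ≤ (r : ℝ) ^ 2 * coin π v (th n) + (r : ℝ) ^ 2 * coin π⁻¹ u (th n) := by exact_mod_cast h3
  have h5 := mul_le_mul_of_nonneg_left e1 (sq_nonneg (r : ℝ))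
  have h6 := mul_le_mul_of_nonneg_left e2 (sq_nonneg (r : ℝ))
  linarith

open Classical in
theorem classI_count {ρ c : ℝ} (hc : 0 < c) {D : Set ℂ} (hD : D ⊆ Om r ρ) :
    ∀ᶠ n : ℕ in atTop, ∀ π : Cfg n r, CAll ρ π → CAll ρ π⁻¹ →
      ((univ.filter fun p : St n r × St n r => ClassI π D c p.1 p.2).card : ℝ)
        ≤ LF n * (4000 * (r : ℝ) ^ 3 * (n : ℝ) ^ (0.95 : ℝ)) := by
  filter_upwards [TT_le hc, ev_le_lg 0] with n hT h0 π h1 h2
  have hth : th n ^ 4 ≤ th n := pow_le_of_le_one (fdet_th_pos n).le (fdet_th_le_one h0) (by norm_num)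
  set S : ℕ → Finset (St n r × St n r) := fun l => univ.filter fun p => Far π p.1 p.2 ∧
    (CSet π D c l).Nonempty ∧ (CSet π D c l).card
      ≤ 2000 * r * ((CSet π D c l).filter fun Q => Coin π D c l Q p.1 p.2).card with hS
  have hsub : (univ.filter fun p : St n r × St n r => ClassI π D c p.1 p.2)
      ⊆ (range (LF n)).biUnion S := by
    intro p hp
    obtain ⟨hf, l, hl, h3⟩ := (mem_filter.1 hp).2
    exact mem_biUnion.2 ⟨l, mem_range.2 hl, mem_filter.2 ⟨mem_univ _, hf, h3⟩⟩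
  have hone : ∀ l ∈ range (LF n), ((S l).card : ℝ) ≤ 4000 * (r : ℝ) ^ 3 * (n : ℝ) ^ (0.95 : ℝ) := by
    intro l hl
    rcases (S l).eq_empty_or_nonempty with h | ⟨p0, hp0⟩
    · rw [h, card_empty, Nat.cast_zero]
      positivity
    have hne : (0 : ℝ) < (CSet π D c l).card := by
      exact_mod_cast card_pos.2 (mem_filter.1 hp0).2.2.1
    have h3 : ((S l).card : ℝ) * (CSet π D c l).card ≤ ∑ p ∈ S l, 2000 * (r : ℝ) *
        ∑ Q ∈ CSet π D c l, if Far π p.1 p.2 ∧ Coin π D c l Q p.1 p.2 then (1 : ℝ) else 0 := by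
      rw [← nsmul_eq_mul, ← sum_const]
      refine sum_le_sum fun p hp => ?_
      obtain ⟨hf, -, h4⟩ := (mem_filter.1 hp).2
      simp only [hf, true_and]
      rw [sum_boole]
      exact_mod_cast h4
    rw [← mul_sum, sum_comm] at h3
    have h4 : ∑ Q ∈ CSet π D c l, ∑ p ∈ S l,
        (if Far π p.1 p.2 ∧ Coin π D c l Q p.1 p.2 then (1 : ℝ) else 0)
        ≤ ∑ _Q ∈ CSet π D c l, 2 * (r : ℝ) ^ 2 * (n : ℝ) ^ (0.95 : ℝ) := by
      refine sum_le_sum fun Q hQ => ?_
      rw [sum_boole]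
      refine le_trans (Nat.cast_le.2 (card_le_card (filter_subset_filter _ (subset_univ _)))) ?_
      exact fdet_coin_count hD π h1 h2 ((hT l (mem_range.1 hl).le).trans hth) hQ
    rw [sum_const, nsmul_eq_mul] at h4
    have h5 := mul_le_mul_of_nonneg_left h4 (by positivity : 0 ≤ 2000 * (r : ℝ))
    refine le_of_mul_le_mul_right ?_ hne
    linarith
  have h6 : ((univ.filter fun p : St n r × St n r => ClassI π D c p.1 p.2).card : ℝ)
      ≤ ∑ l ∈ range (LF n), ((S l).card : ℝ) := by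
    exact_mod_cast (card_le_card hsub).trans card_biUnion_le
  refine h6.trans ((sum_le_sum hone).trans ?_)
  rw [sum_const, card_range, nsmul_eq_mul]

open Classical in
theorem fdet_cluster (π : Cfg n r) (u : Fin n → ℂ) (t : ℝ) (S : Finset (Fin n))
    (hS : ∀ i ∈ S, ∀ j ∈ S, ‖u i - u j‖ ≤ t) :
    S.card * S.card ≤ coin π u t + S.card * (r + 1) ^ 2 := by
  have hsub : S ×ˢ S ⊆ (univ.filter fun p : Fin n × Fin n =>
      ¬ Conf π p.1 p.2 ∧ ‖u p.1 - u p.2‖ ≤ t) ∪
      S.biUnion fun i => (univ.filter fun j => Conf π i j).image fun j => (i, j) := by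
    intro p hp
    rw [mem_product] at hp
    by_cases h : Conf π p.1 p.2
    · exact mem_union_right _ (mem_biUnion.2 ⟨p.1, hp.1,
        mem_image.2 ⟨p.2, mem_filter.2 ⟨mem_univ _, h⟩, rfl⟩⟩)
    · exact mem_union_left _ (mem_filter.2 ⟨mem_univ _, h, hS _ hp.1 _ hp.2⟩)
  rw [← card_product]
  refine (card_le_card hsub).trans ((card_union_le _ _).trans (Nat.add_le_add_left ?_ _))
  refine card_biUnion_le.trans ?_
  rw [← smul_eq_mul, ← sum_const]
  exact sum_le_sum fun i _ => card_image_le.trans (card_conf π i)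

theorem fdet_fi_close {s : ℝ} (hs : 0 < s) {z w : ℂ} (h : fi s z = fi s w) : ‖z - w‖ ≤ 4 * s := by
  have h1 := ctr_fi hs z
  have h2 := ctr_fi hs w
  rw [h] at h1
  have h3 : z - w = (ctr s 1 0 (fi s w) - w) - (ctr s 1 0 (fi s w) - z) := by ring
  rw [h3]
  linarith [norm_sub_le (ctr s 1 0 (fi s w) - w) (ctr s 1 0 (fi s w) - z)]

theorem fdet_log_box (hr : 1 ≤ r) : ∀ᶠ n : ℕ in atTop,
    10 ^ 7 * (r : ℝ) ^ 2 * Real.log (box (RF r n)).card ≤ LF n := by
  filter_upwards [ev_le_lg 1, ev_le_lg (2 * r + 5), ev_le_lg (10 ^ 8 * (r : ℝ) ^ 2)]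
    with n h1 h2 h3
  have hr1 : (1 : ℝ) ≤ r := by exact_mod_cast hr
  have hth := fdet_th_pos n
  have h4 : (RF r n : ℝ) ≤ r / th n ^ 4 + 2 := by
    unfold RF
    push_cast
    linarith [(Nat.ceil_lt_add_one (by positivity : 0 ≤ (r : ℝ) / th n ^ 4)).le]
  have h5 : (r : ℝ) / th n ^ 4 = r * Real.exp (4 * lg n ^ 7) := by
    unfold th
    rw [← Real.exp_nat_mul, div_eq_mul_inv, ← Real.exp_neg]
    congr 2
    push_cast
    ring
  have h6 : 1 ≤ Real.exp (4 * lg n ^ 7) := Real.one_le_exp (by positivity)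
  have h7 : lg n ≤ lg n ^ 7 := le_self_pow₀ h1 (by norm_num)
  have h8 : 2 * r + 5 ≤ Real.exp (lg n ^ 7) := by linarith [Real.add_one_le_exp (lg n ^ 7)]
  have h9 : 2 * (RF r n : ℝ) + 1 ≤ Real.exp (5 * lg n ^ 7) := by
    have e : Real.exp (5 * lg n ^ 7) = Real.exp (lg n ^ 7) * Real.exp (4 * lg n ^ 7) := by
      rw [← Real.exp_add]; congr 1; ring
    have := mul_le_mul_of_nonneg_right h8 (zero_le_one.trans h6)
    rw [e]
    linarith
  have h10 : Real.log (box (RF r n)).card ≤ 10 * lg n ^ 7 := by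
    rw [card_box]
    push_cast
    rw [Real.log_pow]
    have := Real.log_le_log (by positivity) h9
    rw [Real.log_exp] at this
    push_cast
    linarith
  have h11 : lg n ^ 8 ≤ LF n := Nat.le_ceil _
  have h12 := mul_le_mul_of_nonneg_left h10 (by positivity : 0 ≤ 10 ^ 7 * (r : ℝ) ^ 2)
  have h13 := mul_le_mul_of_nonneg_right h3 (by positivity : 0 ≤ lg n ^ 7)
  linarith

theorem fdet_small_card {φ : ℝ} (hφ : 0 < φ) (r : ℕ) : ∀ᶠ n : ℕ in atTop, ∀ m : ℕ,
    (m : ℝ) * m ≤ (n : ℝ) ^ (0.95 : ℝ) + m * ((r : ℝ) + 1) ^ 2 → (m : ℝ) ≤ φ * n := by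
  filter_upwards [ev_poly (2 / φ ^ 2) 0 (by norm_num : (0.95 : ℝ) < 2),
    ev_poly (2 * ((r : ℝ) + 1) ^ 2 / φ) 0 (by norm_num : (0 : ℝ) < 1)] with n h1 h2 m hm
  rw [pow_zero, mul_one, Real.rpow_two, div_mul_eq_mul_div, div_le_iff₀ (by positivity)] at h1
  rw [pow_zero, mul_one, Real.rpow_zero, mul_one, Real.rpow_one, div_le_iff₀ hφ] at h2
  by_contra h
  have h3 : φ * n < m := not_le.1 h
  have h4 : 0 ≤ φ * n := by positivity
  have h5 : (m : ℝ) * (2 * ((r : ℝ) + 1) ^ 2) ≤ m * m :=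
    mul_le_mul_of_nonneg_left (by linarith) (Nat.cast_nonneg _)
  have h6 : φ * n * (φ * n) < m * m := mul_lt_mul'' h3 h3 h4 h4
  linarith

open Classical in
theorem fdet (hr : 3 ≤ r) {ρ φ c : ℝ} (hρ : 0 < ρ) (hφ : 0 < φ) (hc : 0 < c) {D : Set ℂ}
    (hD : D ⊆ Om r ρ) :
    ∀ᶠ n : ℕ in atTop, ∀ (κ : ℝ) (π : Cfg n r), Simple π → Exp φ κ π → CAll ρ π⁻¹ →
      Tree (1 / (2000 * r)) 1 π → (∀ z ∈ D, Small π z (tau c n)) → ∀ α : St n r, hd π α ≠ α.1 →
      n ≤ 1000 * (univ.filter fun β => (¬ ∃ z ∈ D, Small (sw π α β) z (tau c n)) ∨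
        ClassI (sw π α β) D c α β).card := by
  filter_upwards [TT_le hc, ev_le_lg 2, fdet_log_box (by omega : 1 ≤ r), fdet_small_card hφ r,
    eventually_ge_atTop (4000 * r * (r + 1) ^ 2)]
    with n hT h2 hbox hsm hn κ π hS hE hC hTr hD0 α hα
  have h0 : 0 ≤ lg n := by linarith
  have hth := fdet_th_pos n
  have hth1 := fdet_th_le_one h0
  have hth4 : 0 < th n ^ 4 := by positivity
  have hr0 : (0 : ℝ) < r := by exact_mod_cast (by omega : 0 < r)
  have hth12 : 12 * th n ^ 2 ≤ 1 := by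
    have h7 : 2 ≤ lg n ^ 7 := h2.trans (le_self_pow₀ (by linarith) (by norm_num))
    have h3 : th n ≤ Real.exp (-2) := Real.exp_le_exp.2 (by linarith)
    have h4 : Real.exp (-2) * Real.exp 2 = 1 := by rw [← Real.exp_add]; norm_num
    have h5 : Real.exp 2 = Real.exp 1 * Real.exp 1 := by rw [← Real.exp_add]; norm_num
    have h6 := Real.add_one_le_exp 1
    have h8 : 4 ≤ Real.exp 2 := by nlinarith
    have h9 : Real.exp (-2) ≤ 1 / 4 := by nlinarith [Real.exp_pos (-2)]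
    nlinarith
  set Gd : Finset (St n r) := univ.filter fun β =>
    (∃ z ∈ D, Small (sw π α β) z (tau c n)) ∧ Far (sw π α β) α β ∧ ¬ ClassI (sw π α β) D c α β
    with hGd
  have hmemb : ∀ z ∈ D, fi (th n ^ 4) z ∈ box (RF r n) := fun z hz => by
    refine fi_mem_box hth4 ?_
    unfold RF
    push_cast
    have h3 : ‖z‖ / th n ^ 4 ≤ r / th n ^ 4 :=
      div_le_div_of_nonneg_right (om_norm_le' hρ (hD hz)) hth4.le
    linarith [Nat.le_ceil ((r : ℝ) / th n ^ 4)]
  have hmono : ∀ l β, CSet (sw π α β) D c l ⊆ CSet (sw π α β) D c (l + 1) := by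
    intro l β Q hQ
    obtain ⟨hb, z, hz, hzQ, hs⟩ := mem_filter.1 hQ
    refine mem_filter.2 ⟨hb, z, hz, hzQ, hs.mono ?_⟩
    rw [fdet_TT_succ]
    exact le_mul_of_one_le_right (fdet_TT_pos c n l).le (fdet_one_le h0)
  have hne : ∀ β ∈ Gd, ∀ l, (CSet (sw π α β) D c l).Nonempty := by
    intro β hβ l
    obtain ⟨z, hz, hs⟩ := (mem_filter.1 hβ).2.1
    exact ⟨_, mem_filter.2 ⟨hmemb z hz, z, hz, rfl, hs.mono (fdet_tau_le c h0 l)⟩⟩
  have hcore := fcore (by omega : 1 ≤ r) π (cheeger hr hE.1 hS) (box (RF r n))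
    (fun l i' => (box (RF r n)).filter fun Q => ∃ z ∈ D, fi (th n ^ 4) z = Q ∧
      ∀ w : Fin n → ℂ, th n * ‖w α.1 - w i'‖ ≤ nrm (app π⁻¹ z w) + TT c n l * nrm w)
    (fun l j' => (box (RF r n)).filter fun Q => ∃ z ∈ D, fi (th n ^ 4) z = Q ∧
      ∀ w : Fin n → ℂ, th n * ‖w (hd π α) - w j'‖ ≤ nrm (app π z w) + TT c n l * nrm w)
    (fun l β => CSet (sw π α β) D c l) (LF n) Gd (fun l β => filter_subset _ _)
    (fun β hβ => hne β hβ 0) hmono
    (fun l β Q hQ => by
      obtain ⟨hb, z, hz, hzQ, hw⟩ := mem_filter.1 hQ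
      refine mem_filter.2 ⟨hb, z, hz, hzQ, ?_⟩
      rw [fdet_TT_succ]
      exact small_sw_left π α β z (hD0 z hz) (fdet_tau_le c h0 l) hth hth1 hw)
    (fun l β Q hQ => by
      obtain ⟨hb, z, hz, hzQ, hw⟩ := mem_filter.1 hQ
      refine mem_filter.2 ⟨hb, z, hz, hzQ, ?_⟩
      rw [fdet_TT_succ]
      exact small_sw_right π α β z (hD0 z hz) (fdet_tau_le c h0 l) hth hth1 hw)
    (fun β hβ l hl => by
      obtain ⟨-, hf, hcl⟩ := (mem_filter.1 hβ).2
      have h3 : ¬ ((CSet (sw π α β) D c l).card ≤ 2000 * r *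
          ((CSet (sw π α β) D c l).filter fun Q => Coin (sw π α β) D c l Q α β).card) :=
        fun h => hcl ⟨hf, l, hl, hne β hβ l, h⟩
      refine le_trans (Nat.mul_le_mul_left _ (card_le_card fun Q hQ => ?_)) (not_le.1 h3).le
      obtain ⟨hQ1, hQ2⟩ := mem_sdiff.1 hQ
      refine mem_filter.2 ⟨hQ1, fun z hz hzQ v u hv hv2 hu hu2 => ?_⟩
      by_contra hcon
      rw [not_or, not_le, not_le, hd_sw_left, hd_sw_right] at hcon
      have hb := (mem_filter.1 hQ1).1
      exact hQ2 (mem_inter.2 ⟨mem_filter.2 ⟨hb, z, hz, hzQ, sw_left π α β z hv hv2 hcon.1.le⟩,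
        mem_filter.2 ⟨hb, z, hz, hzQ, sw_right π α β z hu hu2 hcon.2.le⟩⟩))
    (fun l hl Q => by
      set S := univ.filter fun i' : Fin n => Q ∈ (box (RF r n)).filter fun Q =>
        ∃ z ∈ D, fi (th n ^ 4) z = Q ∧ ∀ w : Fin n → ℂ,
          th n * ‖w α.1 - w i'‖ ≤ nrm (app π⁻¹ z w) + TT c n l * nrm w with hSd
      rcases S.eq_empty_or_nonempty with h | ⟨i0, hi0⟩
      · rw [h, card_empty, Nat.cast_zero]
        positivity
      obtain ⟨z0, hz0, hz0Q, -⟩ := (mem_filter.1 (mem_filter.1 hi0).2).2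
      obtain ⟨u, hu, hu2⟩ := (hD0 z0 hz0).inv
      have hTl := hT l hl.le
      have hτ := (fdet_tau_le c h0 l).trans hTl
      have hcl : ∀ i ∈ S, ‖u α.1 - u i‖ ≤ 6 * th n ^ 3 := by
        intro i hi
        obtain ⟨z, hz, hzQ, hw⟩ := (mem_filter.1 (mem_filter.1 hi).2).2
        have h3 := hw u
        have h4 := nrm_app_shift π⁻¹ z0 z u
        have h5 := fdet_fi_close hth4 (hz0Q.trans hzQ.symm)
        rw [hu, mul_one] at h3 h4
        refine le_of_mul_le_mul_left ?_ hth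
        linarith
      have hcl2 : ∀ i ∈ S, ∀ j ∈ S, ‖u i - u j‖ ≤ th n := by
        intro i hi j hj
        have h3 : u i - u j = (u α.1 - u j) - (u α.1 - u i) := by ring
        have h4 := norm_sub_le (u α.1 - u j) (u α.1 - u i)
        have h5 := mul_le_mul_of_nonneg_right hth12 hth.le
        rw [h3]
        linarith [hcl i hi, hcl j hj]
      have h3 := fdet_cluster π⁻¹ u (th n) S hcl2
      have h4 := hC z0 (hD hz0) u hu
        (hu2.trans (hτ.trans (pow_le_of_le_one hth.le hth1 (by norm_num))))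
      refine hsm _ ?_
      have h5 : (S.card : ℝ) * S.card ≤ coin π⁻¹ u (th n) + S.card * ((r : ℝ) + 1) ^ 2 := by
        exact_mod_cast h3
      linarith)
    (Nat.ceil_pos.2 (by positivity)) hbox
  have hsub : Gdᶜ ⊆ (univ.filter fun β => (¬ ∃ z ∈ D, Small (sw π α β) z (tau c n)) ∨
      ClassI (sw π α β) D c α β) ∪ univ.filter fun β => ¬ Far (sw π α β) α β := by
    intro β hβ
    rw [mem_compl, hGd, mem_filter] at hβ
    rw [mem_union, mem_filter, mem_filter]
    by_contra h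
    rw [not_or] at h
    refine hβ ⟨mem_univ _, ?_, ?_, fun h3 => h.1 ⟨mem_univ _, Or.inr h3⟩⟩
    · by_contra h3
      exact h.1 ⟨mem_univ _, Or.inl h3⟩
    · by_contra h3
      exact h.2 ⟨mem_univ _, h3⟩
  have h3 := (card_le_card hsub).trans (card_union_le _ _)
  have h4 := near_count hS hα
  have h5 := loops_le π
  have h6 : 2000 * (r * (badV π 1).card) ≤ n := by
    unfold Tree at hTr
    rw [div_mul_eq_mul_div, one_mul, le_div_iff₀ (by positivity)] at hTr
    have : (2000 : ℝ) * (r * (badV π 1).card) ≤ n := by linarith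
    exact_mod_cast this
  have h7 : 4000 * r * (r + 1) ^ 2 = 2000 * (2 * r * (r + 1) ^ 2) := by ring
  omega

end Pool.Agent.OKM

end FileFDet

end

-- part MP_5d5bd1_pr.CaseA
section

section FileCStars

/-!
Extracting stars of coincidences.
`indep`: greedy (induction on `T`, remove the at most `Λ` elements in conflict with a chosen one).
`stars_greedy`: let `G j j' := ¬ Conf π j j' ∧ ‖v j - v j'‖ ≤ t` (symmetric), `Λ = (r+1)^2` (`card_conf`).
First prove by strong induction on `W : Finset (Fin n)` that there are `P, Cn` inside `W` with `Stars`,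
`G p.1 p.2` on `P`, every centre having at least one leaf, and
`card {(j,j') ∈ W × W | G j j'} ≤ 4 Λ^2 ∑_{b ∈ Cn} d_b^2` with `d_b = card {p ∈ P | p.2 = b}`: take `b ∈ W` of
maximal `G`-degree `d ≥ 1` in `W`, leaves `T'` from `indep` applied to its neighbours (`d ≤ Λ d'`), remove
from `W` the at most `Λ (d'+1) ≤ 2 Λ d'` vertices in conflict with `b` or a leaf (this destroys at most
`2 * (2 Λ d') * d ≤ 4 Λ^2 d'^2` ordered pairs) and recurse. Then pigeonhole on `Nat.log 2 d_b ∈ [0, log 2 n]`: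
for the best class `k`, with `q` centres and `g ≥ q 2^k` leaves, `∑ d_b^2 ≤ q 4^(k+1) ≤ 4 g^2 / q`.
`stars_A`: if `320 g > uu n` replace `P` by a subset `P'` with `⌊uu n / 320⌋₊` elements and `Cn` by
`P'.image Prod.snd` (then `q' ≤ g'` and `g' ≥ n^0.94`). `stars_B`: `indep` on the cluster, one centre and
`⌈n^0.7⌉₊` leaves.
-/

open Finset Filter

namespace Pool.Agent.OKM

variable {n r : ℕ}

theorem indep (Cf : Fin n → Fin n → Prop) [DecidableRel Cf] (hsymm : ∀ j j', Cf j j' → Cf j' j)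
    (hrefl : ∀ j, Cf j j) {Λ : ℕ} (hΛ : ∀ j, (univ.filter fun j' => Cf j j').card ≤ Λ)
    (T : Finset (Fin n)) :
    ∃ T' ⊆ T, T.card ≤ Λ * T'.card ∧ ∀ j ∈ T', ∀ j' ∈ T', Cf j j' → j = j' := by
  induction T using Finset.strongInduction with
  | H T ih =>
    rcases T.eq_empty_or_nonempty with rfl | ⟨a, ha⟩
    · exact ⟨∅, Subset.rfl, by simp, by simp⟩
    have hss : T.filter (fun j => ¬ Cf a j) ⊂ T :=
      filter_ssubset.2 ⟨a, ha, not_not.2 (hrefl a)⟩
    obtain ⟨T', hT', hc, hi⟩ := ih _ hss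
    have hna : ∀ j ∈ T', ¬ Cf a j := fun j hj => (mem_filter.1 (hT' hj)).2
    have haT : a ∉ T' := fun h => hna a h (hrefl a)
    refine ⟨insert a T', insert_subset ha (hT'.trans (filter_subset _ _)), ?_, ?_⟩
    · have h1 := card_filter_add_card_filter_not (s := T) (fun j => Cf a j)
      have h2 : (T.filter fun j => Cf a j).card ≤ Λ :=
        (card_le_card (filter_subset_filter _ (subset_univ T))).trans (hΛ a)
      rw [card_insert_of_notMem haT, mul_add, mul_one]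
      omega
    · intro j hj j' hj' hc
      rcases mem_insert.1 hj with h | h <;> rcases mem_insert.1 hj' with h' | h'
      · rw [h, h']
      · exact absurd (h ▸ hc) (hna j' h')
      · exact absurd (h' ▸ hsymm _ _ hc) (hna j h)
      · exact hi j h j' h' hc

theorem cstars_pairs (w : Fin n → Fin n → ℕ) (hw : ∀ j j', w j j' = w j' j) (W : Finset (Fin n))
    (Q : Fin n → Prop) [DecidablePred Q] {d : ℕ} (hd : ∀ j ∈ W, ∑ j' ∈ W, w j j' ≤ d) :
    ∑ j ∈ W, ∑ j' ∈ W, w j j' ≤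
      ∑ j ∈ W.filter (fun j => ¬ Q j), ∑ j' ∈ W.filter (fun j => ¬ Q j), w j j' +
        2 * ((W.filter Q).card * d) := by
  have h1 : ∑ j ∈ W.filter Q, ∑ j' ∈ W, w j j' ≤ (W.filter Q).card * d := by
    rw [← smul_eq_mul]
    exact sum_le_card_nsmul _ _ _ fun j hj => hd j (mem_filter.1 hj).1
  have h2 : ∑ j ∈ W.filter (fun j => ¬ Q j), ∑ j' ∈ W.filter Q, w j j' ≤
      ∑ j ∈ W.filter Q, ∑ j' ∈ W, w j j' := by
    rw [sum_comm]
    refine sum_le_sum fun j _ => ?_
    rw [sum_congr rfl fun j' _ => hw j' j]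
    exact sum_le_sum_of_subset (filter_subset _ _)
  have h3 : ∑ j ∈ W.filter (fun j => ¬ Q j), ∑ j' ∈ W, w j j' =
      ∑ j ∈ W.filter (fun j => ¬ Q j), ∑ j' ∈ W.filter Q, w j j' +
        ∑ j ∈ W.filter (fun j => ¬ Q j), ∑ j' ∈ W.filter (fun j => ¬ Q j), w j j' := by
    rw [← sum_add_distrib]
    exact sum_congr rfl fun j _ => (sum_filter_add_sum_filter_not W Q _).symm
  rw [← sum_filter_add_sum_filter_not W Q (fun j => ∑ j' ∈ W, w j j'), h3, two_mul]
  linarith

theorem cstars_core (Cf G : Fin n → Fin n → Prop) [DecidableRel Cf] [DecidableRel G]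
    (hsymm : ∀ j j', Cf j j' → Cf j' j) (hrefl : ∀ j, Cf j j) {Λ : ℕ}
    (hΛ : ∀ j, (univ.filter fun j' => Cf j j').card ≤ Λ) (hG : ∀ j j', G j j' → G j' j)
    (hGC : ∀ j j', G j j' → ¬ Cf j j') (W : Finset (Fin n)) :
    ∃ (Cn : Finset (Fin n)) (L : Fin n → Finset (Fin n)),
      (∀ b ∈ Cn, ∀ j ∈ insert b (L b), j ∈ W) ∧ (∀ b ∈ Cn, (L b).Nonempty) ∧
      (∀ b ∈ Cn, ∀ j ∈ L b, G b j) ∧
      (∀ b ∈ Cn, ∀ b' ∈ Cn, ∀ j ∈ insert b (L b), ∀ j' ∈ insert b' (L b'),
        Cf j j' → b = b' ∧ j = j') ∧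
      ∑ j ∈ W, ∑ j' ∈ W, (if G j j' then 1 else 0) ≤ 4 * Λ ^ 2 * ∑ b ∈ Cn, (L b).card ^ 2 := by
  induction W using Finset.strongInduction with
  | H W ih =>
    rcases W.eq_empty_or_nonempty with rfl | hW
    · exact ⟨∅, fun _ => ∅, by simp, by simp, by simp, by simp, by simp⟩
    obtain ⟨b, hb, hmax⟩ := exists_max_image W (fun j => (W.filter fun j' => G j j').card) hW
    have hdeg : ∀ j ∈ W, ∑ j' ∈ W, (if G j j' then 1 else 0) ≤ (W.filter fun j' => G b j').card :=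
      fun j hj => by rw [← card_filter]; exact hmax j hj
    obtain ⟨T, hT, hTc, hTi⟩ := indep Cf hsymm hrefl hΛ (W.filter fun j' => G b j')
    rcases T.eq_empty_or_nonempty with rfl | hTne
    · refine ⟨∅, fun _ => ∅, by simp, by simp, by simp, by simp, ?_⟩
      rw [card_empty, mul_zero] at hTc
      exact (sum_eq_zero fun j hj => Nat.eq_zero_of_le_zero ((hdeg j hj).trans hTc)).le.trans
        (Nat.zero_le _)
    have hss : W.filter (fun j => ¬ ∃ i ∈ insert b T, Cf i j) ⊂ W :=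
      filter_ssubset.2 ⟨b, hb, not_not.2 ⟨b, mem_insert_self _ _, hrefl b⟩⟩
    obtain ⟨Cn, L, h1, h2, h3, h4, h5⟩ := ih _ hss
    have hn : ∀ c ∈ Cn, ∀ j ∈ insert c (L c), ∀ i ∈ insert b T, ¬ Cf i j :=
      fun c hc j hj i hi h => (mem_filter.1 (h1 c hc j hj)).2 ⟨i, hi, h⟩
    have hbC : b ∉ Cn := fun h =>
      hn b h b (mem_insert_self _ _) b (mem_insert_self _ _) (hrefl b)
    have hup : ∀ c ∈ Cn, Function.update L b T c = L c := fun c hc =>
      Function.update_of_ne (ne_of_mem_of_not_mem hc hbC) _ _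
    have hTG : ∀ j ∈ T, G b j := fun j hj => (mem_filter.1 (hT hj)).2
    refine ⟨insert b Cn, Function.update L b T, ?_, ?_, ?_, ?_, ?_⟩
    · rw [forall_mem_insert, Function.update_self, forall_mem_insert]
      refine ⟨⟨hb, fun j hj => (mem_filter.1 (hT hj)).1⟩, fun c hc j hj => ?_⟩
      rw [hup c hc] at hj
      exact (mem_filter.1 (h1 c hc j hj)).1
    · rw [forall_mem_insert, Function.update_self]
      exact ⟨hTne, fun c hc => by rw [hup c hc]; exact h2 c hc⟩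
    · rw [forall_mem_insert, Function.update_self]
      exact ⟨hTG, fun c hc => by rw [hup c hc]; exact h3 c hc⟩
    · intro c hc c' hc' j hj j' hj' hcf
      rcases mem_insert.1 hc with h | h <;> rcases mem_insert.1 hc' with h' | h'
      · rw [h, Function.update_self] at hj
        rw [h', Function.update_self] at hj'
        refine ⟨h.trans h'.symm, ?_⟩
        rcases mem_insert.1 hj with e | e <;> rcases mem_insert.1 hj' with e' | e'
        · rw [e, e']
        · exact absurd (e ▸ hcf) (hGC _ _ (hTG j' e'))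
        · exact absurd (e' ▸ hsymm _ _ hcf) (hGC _ _ (hTG j e))
        · exact hTi j e j' e' hcf
      · rw [h, Function.update_self] at hj
        rw [hup c' h'] at hj'
        exact absurd hcf (hn c' h' j' hj' j hj)
      · rw [h', Function.update_self] at hj'
        rw [hup c h] at hj
        exact absurd (hsymm _ _ hcf) (hn c h j hj j' hj')
      · rw [hup c h] at hj
        rw [hup c' h'] at hj'
        exact h4 c h c' h' j hj j' hj' hcf
    · have hp := cstars_pairs (fun j j' => if G j j' then 1 else 0)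
        (fun j j' => if_congr ⟨hG j j', hG j' j⟩ rfl rfl) W (fun j => ∃ i ∈ insert b T, Cf i j) hdeg
      have hR : (W.filter fun j => ∃ i ∈ insert b T, Cf i j).card ≤ 2 * T.card * Λ := by
        have e1 : (W.filter fun j => ∃ i ∈ insert b T, Cf i j) ⊆
            (insert b T).biUnion fun i => univ.filter fun j => Cf i j := fun j hj => by
          obtain ⟨i, hi, h⟩ := (mem_filter.1 hj).2
          exact mem_biUnion.2 ⟨i, hi, mem_filter.2 ⟨mem_univ _, h⟩⟩
        refine (card_le_card e1).trans ((card_biUnion_le_card_mul _ _ _ fun i _ => hΛ i).trans ?_)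
        refine Nat.mul_le_mul_right _ ((card_insert_le _ _).trans ?_)
        have := hTne.card_pos
        omega
      have e0 : ∑ c ∈ Cn, (Function.update L b T c).card ^ 2 = ∑ c ∈ Cn, (L c).card ^ 2 :=
        sum_congr rfl fun c hc => by rw [hup c hc]
      have e2 : 4 * Λ ^ 2 * T.card ^ 2 = 2 * (2 * T.card * Λ * (Λ * T.card)) := by ring
      rw [sum_insert hbC, Function.update_self, e0, mul_add, e2, add_comm]
      exact hp.trans (Nat.add_le_add h5 (Nat.mul_le_mul_left _ (Nat.mul_le_mul hR hTc)))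

theorem cstars_mk (π : Cfg n r) (Cn : Finset (Fin n)) (L : Fin n → Finset (Fin n))
    (h1 : ∀ b ∈ Cn, b ∉ L b)
    (h2 : ∀ b ∈ Cn, ∀ b' ∈ Cn, ∀ j ∈ insert b (L b), ∀ j' ∈ insert b' (L b'),
      Conf π j j' → b = b' ∧ j = j') :
    ∃ P : Finset (Fin n × Fin n), Stars π P Cn ∧ (∀ p ∈ P, p.2 ∈ Cn ∧ p.1 ∈ L p.2) ∧
      P.card = ∑ b ∈ Cn, (L b).card := by
  have hP : ∀ p ∈ (univ.filter fun p : Fin n × Fin n => p.2 ∈ Cn ∧ p.1 ∈ L p.2),
      p.2 ∈ Cn ∧ p.1 ∈ L p.2 := fun p hp => (mem_filter.1 hp).2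
  refine ⟨univ.filter fun p : Fin n × Fin n => p.2 ∈ Cn ∧ p.1 ∈ L p.2, ⟨fun p hp => (hP p hp).1,
    fun p hp h => ?_, fun p hp p' hp' h => ?_, fun j hj j' hj' h => ?_⟩, hP, ?_⟩
  · have := (h2 _ (hP p hp).1 _ h _ (mem_insert_of_mem (hP p hp).2) _ (mem_insert_self _ _)
      (conf_refl π _)).1
    exact h1 _ (hP p hp).1 (by have h3 := (hP p hp).2; rwa [← this] at h3)
  · exact Prod.ext h (h2 _ (hP p hp).1 _ (hP p' hp').1 _ (mem_insert_of_mem (hP p hp).2) _
      (mem_insert_of_mem (hP p' hp').2) (h ▸ conf_refl π _)).1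
  · have key : ∀ i ∈ (univ.filter fun p : Fin n × Fin n => p.2 ∈ Cn ∧ p.1 ∈ L p.2).image
        Prod.fst ∪ Cn, ∃ b ∈ Cn, i ∈ insert b (L b) := fun i hi => by
      rcases mem_union.1 hi with h | h
      · obtain ⟨p, hp, rfl⟩ := mem_image.1 h
        exact ⟨p.2, (hP p hp).1, mem_insert_of_mem (hP p hp).2⟩
      · exact ⟨i, h, mem_insert_self _ _⟩
    obtain ⟨b, hb, hjb⟩ := key j hj
    obtain ⟨b', hb', hjb'⟩ := key j' hj'
    exact (h2 b hb b' hb' j hjb j' hjb' h).2
  · rw [card_eq_sum_card_fiberwise (f := Prod.snd) (t := Cn) fun p hp => (hP p hp).1]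
    refine sum_congr rfl fun b hb => ?_
    refine card_nbij' Prod.fst (fun j => (j, b)) (fun p hp => ?_) (fun j hj => ?_)
      (fun p hp => ?_) (fun j _ => rfl)
    · obtain ⟨hp1, rfl⟩ := mem_filter.1 (mem_coe.1 hp)
      exact (hP p hp1).2
    · exact mem_coe.2 (mem_filter.2 ⟨mem_filter.2 ⟨mem_univ _, hb, hj⟩, rfl⟩)
    · obtain ⟨-, rfl⟩ := mem_filter.1 (mem_coe.1 hp)
      rfl

theorem stars_greedy (π : Cfg n r) (v : Fin n → ℂ) (t : ℝ) (h : 0 < coin π v t) :
    ∃ (P : Finset (Fin n × Fin n)) (Cn : Finset (Fin n)), Stars π P Cn ∧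
      (∀ p ∈ P, ‖v p.1 - v p.2‖ ≤ t) ∧ 1 ≤ Cn.card ∧ Cn.card ≤ P.card ∧
      coin π v t * Cn.card ≤ 16 * (r + 1) ^ 4 * (Nat.log 2 n + 1) * P.card ^ 2 := by
  classical
  obtain ⟨Cn, L, -, h2, h3, h4, h5⟩ := cstars_core (Conf π)
    (fun j j' => ¬ Conf π j j' ∧ ‖v j - v j'‖ ≤ t) (fun _ _ => Conf.symm) (conf_refl π)
    (card_conf π) (fun j j' h => ⟨fun h' => h.1 h'.symm, by rw [norm_sub_rev]; exact h.2⟩)
    (fun _ _ h => h.1) univ
  have hc : coin π v t ≤ 4 * ((r + 1) ^ 2) ^ 2 * ∑ b ∈ Cn, (L b).card ^ 2 := by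
    refine le_trans (le_of_eq ?_) h5
    rw [coin, card_filter, ← univ_product_univ, sum_product]
  have hmap : ∀ b ∈ Cn, Nat.log 2 (L b).card ∈ range (Nat.log 2 n + 1) := fun b _ =>
    mem_range.2 (Nat.lt_succ_of_le (Nat.log_mono_right
      ((card_le_univ _).trans (Fintype.card_fin n).le)))
  obtain ⟨k, -, hk⟩ := exists_max_image (range (Nat.log 2 n + 1))
    (fun k => ∑ b ∈ Cn.filter (fun b => Nat.log 2 (L b).card = k), (L b).card ^ 2)
    nonempty_range_add_one
  have hs : ∑ b ∈ Cn, (L b).card ^ 2 ≤ (Nat.log 2 n + 1) *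
      ∑ b ∈ Cn.filter (fun b => Nat.log 2 (L b).card = k), (L b).card ^ 2 := by
    rw [← sum_fiberwise_of_maps_to hmap]
    have := sum_le_card_nsmul _ _ _ hk
    rwa [card_range, smul_eq_mul] at this
  generalize hC : Cn.filter (fun b => Nat.log 2 (L b).card = k) = C' at hs
  have hm : ∀ b ∈ C', b ∈ Cn ∧ Nat.log 2 (L b).card = k := fun b hb => by
    rw [← hC] at hb; exact mem_filter.1 hb
  obtain ⟨P, hP, hP', hPc⟩ := cstars_mk π C' L
    (fun b hb h => (h3 b (hm b hb).1 b h).1 (conf_refl π b))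
    (fun b hb b' hb' => h4 b (hm b hb).1 b' (hm b' hb').1)
  have hlo : C'.card * 2 ^ k ≤ P.card := by
    rw [hPc, ← smul_eq_mul]
    refine card_nsmul_le_sum _ _ _ fun b hb => ?_
    rw [← (hm b hb).2]
    exact Nat.pow_log_le_self 2 (h2 b (hm b hb).1).card_pos.ne'
  have hhi : ∑ b ∈ C', (L b).card ^ 2 ≤ C'.card * (2 ^ (k + 1)) ^ 2 := by
    rw [← smul_eq_mul]
    refine sum_le_card_nsmul _ _ _ fun b hb => Nat.pow_le_pow_left ?_ 2
    rw [← (hm b hb).2]
    exact (Nat.lt_pow_succ_log_self one_lt_two _).le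
  refine ⟨P, C', hP, fun p hp => ?_, ?_, ?_, ?_⟩
  · rw [norm_sub_rev]
    exact (h3 _ (hm _ (hP' p hp).1).1 _ (hP' p hp).2).2
  · rcases C'.eq_empty_or_nonempty with rfl | hne
    · rw [sum_empty, mul_zero] at hs
      rw [Nat.eq_zero_of_le_zero hs, mul_zero] at hc
      omega
    · exact hne.card_pos
  · exact le_trans (Nat.le_mul_of_pos_right _ (Nat.two_pow_pos k)) hlo
  · calc coin π v t * C'.card
        ≤ 4 * ((r + 1) ^ 2) ^ 2 * ((Nat.log 2 n + 1) * (C'.card * (2 ^ (k + 1)) ^ 2)) * C'.card :=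
          Nat.mul_le_mul_right _ (hc.trans (Nat.mul_le_mul_left _
            (hs.trans (Nat.mul_le_mul_left _ hhi))))
      _ = 16 * (r + 1) ^ 4 * (Nat.log 2 n + 1) * (C'.card * 2 ^ k) ^ 2 := by ring
      _ ≤ _ := Nat.mul_le_mul_left _ (Nat.pow_le_pow_left hlo 2)

theorem cstars_par {q g : ℕ} (hn : (1 : ℝ) ≤ n) (h1 : 1 ≤ q) (h2 : q ≤ g)
    (h3 : q * (n : ℝ) ^ (0.94 : ℝ) ≤ (g : ℝ) ^ 2) (h4 : 320 * (g : ℝ) ≤ uu n) :
    StarPar n q g ((n : ℝ) ^ (0.8 : ℝ)) := by
  have h0 : (0 : ℝ) < n := one_pos.trans_le hn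
  refine ⟨h1, h2, h3, h4, Real.one_le_rpow hn (by norm_num), ?_, le_trans ?_ h3⟩
  · rw [mul_comm]
    exact mul_le_mul_of_nonneg_right (Nat.cast_le.2 h2) (Real.rpow_nonneg h0.le _)
  · rw [mul_comm _ (q : ℝ), mul_assoc, ← Real.rpow_add h0]
    exact mul_le_mul_of_nonneg_left (Real.rpow_le_rpow_of_exponent_le hn (by norm_num))
      (Nat.cast_nonneg _)

theorem cstars_log (hn : 1 ≤ n) (hl : 1 ≤ lg n) : (Nat.log 2 n : ℝ) + 1 ≤ 3 * lg n := by
  have h1 : ((2 : ℝ)) ^ Nat.log 2 n ≤ n := by exact_mod_cast Nat.pow_log_le_self 2 (by omega)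
  have h2 := Real.log_le_log (by positivity) h1
  rw [Real.log_pow] at h2
  have h3 := Real.log_two_gt_d9
  have h4 : (Nat.log 2 n : ℝ) * (1 / 2) ≤ (Nat.log 2 n : ℝ) * Real.log 2 :=
    mul_le_mul_of_nonneg_left (by linarith) (Nat.cast_nonneg _)
  unfold lg at *
  linarith

theorem cstars_uu {a : ℝ} (ha : a < 1) : ∀ᶠ n : ℕ in atTop, 640 * (n : ℝ) ^ a ≤ uu n := by
  filter_upwards [ev_poly 640 2 ha, ev_le_lg 1] with n h hl
  rw [Real.rpow_one] at h
  rw [uu, le_div_iff₀ (by positivity)]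
  linarith

theorem stars_A (r : ℕ) : ∀ᶠ n : ℕ in atTop, ∀ (π : Cfg n r) (v : Fin n → ℂ) (t : ℝ),
    (n : ℝ) ^ (0.95 : ℝ) < coin π v t →
    ∃ (P : Finset (Fin n × Fin n)) (Cn : Finset (Fin n)), Stars π P Cn ∧
      (∀ p ∈ P, ‖v p.1 - v p.2‖ ≤ t) ∧ StarPar n Cn.card P.card ((n : ℝ) ^ (0.8 : ℝ)) := by
  filter_upwards [ev_poly (48 * ((r : ℝ) + 1) ^ 4) 1 (show (0.94 : ℝ) < 0.95 by norm_num),
    ev_le_lg 1, eventually_ge_atTop 1, cstars_uu (show (0.94 : ℝ) < 1 by norm_num)]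
    with n h1 hl hn hu π v t hc
  have hn' : (1 : ℝ) ≤ n := Nat.one_le_cast.2 hn
  have hp : (1 : ℝ) ≤ (n : ℝ) ^ (0.94 : ℝ) := Real.one_le_rpow hn' (by norm_num)
  have hc0 : 0 < coin π v t := Nat.cast_pos.1 ((Real.rpow_nonneg (Nat.cast_nonneg n) _).trans_lt hc)
  obtain ⟨P, Cn, hS, hP, hq, hqg, hb⟩ := stars_greedy π v t hc0
  by_cases hg : 320 * (P.card : ℝ) ≤ uu n
  · refine ⟨P, Cn, hS, hP, cstars_par hn' hq hqg ?_ hg⟩
    have hb' : (coin π v t : ℝ) * Cn.card ≤
        16 * ((r : ℝ) + 1) ^ 4 * ((Nat.log 2 n : ℝ) + 1) * (P.card : ℝ) ^ 2 := by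
      exact_mod_cast hb
    have hpos : 0 < 48 * ((r : ℝ) + 1) ^ 4 * lg n := by positivity
    refine le_of_mul_le_mul_left ?_ hpos
    calc 48 * ((r : ℝ) + 1) ^ 4 * lg n * (Cn.card * (n : ℝ) ^ (0.94 : ℝ))
        = 48 * ((r : ℝ) + 1) ^ 4 * lg n ^ 1 * (n : ℝ) ^ (0.94 : ℝ) * Cn.card := by ring
      _ ≤ (coin π v t : ℝ) * Cn.card :=
          mul_le_mul_of_nonneg_right (h1.trans hc.le) (Nat.cast_nonneg _)
      _ ≤ 16 * ((r : ℝ) + 1) ^ 4 * (3 * lg n) * (P.card : ℝ) ^ 2 :=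
          hb'.trans (mul_le_mul_of_nonneg_right (mul_le_mul_of_nonneg_left (cstars_log hn hl)
            (by positivity)) (by positivity))
      _ = _ := by ring
  · have hfl : (⌊uu n / 320⌋₊ : ℝ) ≤ uu n / 320 := Nat.floor_le (by linarith)
    have hfl' := Nat.lt_floor_add_one (uu n / 320)
    obtain ⟨P', hP', hc'⟩ := exists_subset_card_eq (s := P) (n := ⌊uu n / 320⌋₊)
      (Nat.cast_le.1 (show (⌊uu n / 320⌋₊ : ℝ) ≤ P.card by linarith [not_le.1 hg]))
    rw [← hc'] at hfl hfl'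
    have hg' : (n : ℝ) ^ (0.94 : ℝ) ≤ P'.card := by linarith
    have hsub : P'.image Prod.snd ⊆ Cn := fun b hb => by
      obtain ⟨p, hp, rfl⟩ := mem_image.1 hb
      exact hS.1 p (hP' hp)
    have hU : P'.image Prod.fst ∪ P'.image Prod.snd ⊆ P.image Prod.fst ∪ Cn :=
      union_subset_union (image_subset_image hP') hsub
    refine ⟨P', P'.image Prod.snd, ⟨fun p hp => mem_image_of_mem _ hp,
      fun p hp h => hS.2.1 p (hP' hp) (hsub h), fun p hp p' hp' => hS.2.2.1 p (hP' hp) p' (hP' hp'),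
      fun j hj j' hj' => hS.2.2.2 j (hU hj) j' (hU hj')⟩, fun p hp => hP p (hP' hp),
      cstars_par hn' ?_ card_image_le ?_ (by linarith)⟩
    · exact ((card_pos.1 (Nat.cast_pos.1 (show (0 : ℝ) < P'.card by linarith))).image _).card_pos
    · rw [sq]
      exact mul_le_mul (Nat.cast_le.2 card_image_le) hg' (by linarith) (Nat.cast_nonneg _)

theorem stars_B (r : ℕ) : ∀ᶠ n : ℕ in atTop, ∀ (π : Cfg n r) (v : Fin n → ℂ) (t : ℝ),
    ¬ Clus v t ((n : ℝ) ^ (0.8 : ℝ)) →
    ∃ (P : Finset (Fin n × Fin n)) (Cn : Finset (Fin n)), Stars π P Cn ∧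
      (∀ p ∈ P, ‖v p.1 - v p.2‖ ≤ 2 * t) ∧ StarPar n Cn.card P.card n := by
  classical
  filter_upwards [ev_poly (3 * ((r : ℝ) + 1) ^ 2) 0 (show (0.7 : ℝ) < 0.8 by norm_num),
    eventually_ge_atTop 1, cstars_uu (show (0.7 : ℝ) < 1 by norm_num)] with n h1 hn hu π v t hc
  have hn' : (1 : ℝ) ≤ n := Nat.one_le_cast.2 hn
  have h0 : (0 : ℝ) < n := one_pos.trans_le hn'
  have hp : (1 : ℝ) ≤ (n : ℝ) ^ (0.7 : ℝ) := Real.one_le_rpow hn' (by norm_num)
  obtain ⟨ζ, hζ⟩ := not_forall.1 hc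
  obtain ⟨T, hT, hTc, hTi⟩ := indep (Conf π) (fun _ _ => Conf.symm) (conf_refl π) (card_conf π)
    (univ.filter fun j => ‖v j - ζ‖ ≤ t)
  have hTc' : ((univ.filter fun j => ‖v j - ζ‖ ≤ t).card : ℝ) ≤ ((r : ℝ) + 1) ^ 2 * T.card := by
    exact_mod_cast hTc
  have hT3 : 3 * (n : ℝ) ^ (0.7 : ℝ) ≤ T.card := by
    refine le_of_mul_le_mul_left ?_ (show 0 < ((r : ℝ) + 1) ^ 2 by positivity)
    rw [pow_zero, mul_one] at h1
    linarith [not_le.1 hζ]
  have hce := Nat.le_ceil ((n : ℝ) ^ (0.7 : ℝ))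
  have hce' := Nat.ceil_lt_add_one (zero_le_one.trans hp)
  obtain ⟨b, hb⟩ := card_pos.1 (Nat.cast_pos.1 (show (0 : ℝ) < T.card by linarith))
  have hle : ⌈(n : ℝ) ^ (0.7 : ℝ)⌉₊ + 1 ≤ T.card :=
    Nat.cast_le.1 (show ((⌈(n : ℝ) ^ (0.7 : ℝ)⌉₊ + 1 : ℕ) : ℝ) ≤ T.card by push_cast; linarith)
  obtain ⟨L, hL, hLc⟩ := exists_subset_card_eq (s := T.erase b) (n := ⌈(n : ℝ) ^ (0.7 : ℝ)⌉₊)
    (by rw [card_erase_of_mem hb]; omega)
  have hin : insert b L ⊆ T := insert_subset hb (hL.trans (erase_subset _ _))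
  obtain ⟨P, hS, hP, hPc⟩ := cstars_mk π {b} (fun _ => L)
    (fun c hc h => (mem_erase.1 (hL h)).1 (mem_singleton.1 hc))
    (fun c hc c' hc' j hj j' hj' h => by
      rw [mem_singleton.1 hc] at hj
      rw [mem_singleton.1 hc'] at hj'
      exact ⟨(mem_singleton.1 hc).trans (mem_singleton.1 hc').symm, hTi j (hin hj) j' (hin hj') h⟩)
  rw [sum_singleton, hLc] at hPc
  rw [← hPc] at hce hce'
  have hsq : ∀ a : ℝ, a ≤ 1.4 → (n : ℝ) ^ a ≤ (P.card : ℝ) ^ 2 := fun a ha => by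
    refine (Real.rpow_le_rpow_of_exponent_le hn' (show a ≤ 0.7 + 0.7 by linarith)).trans ?_
    rw [Real.rpow_add h0, sq]
    exact mul_le_mul hce hce (by linarith) (Nat.cast_nonneg _)
  refine ⟨P, {b}, hS, fun p hp => ?_, ?_⟩
  · have e1 := (mem_filter.1 (hT (hin (mem_insert_of_mem (hP p hp).2)))).2
    have e2 := (mem_filter.1 (hT hb)).2
    rw [mem_singleton.1 (hP p hp).1]
    linarith [norm_sub_le_norm_sub_add_norm_sub (v p.1) ζ (v b), norm_sub_rev ζ (v b)]
  · rw [card_singleton]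
    refine ⟨le_rfl, Nat.one_le_cast.1 (hp.trans hce), ?_, by linarith, hn', ?_, ?_⟩
    · rw [Nat.cast_one, one_mul]; exact hsq _ (by norm_num)
    · rw [Nat.cast_one, mul_one]
      refine le_trans ?_ (mul_le_mul_of_nonneg_right hce (Real.rpow_nonneg h0.le _))
      rw [← Real.rpow_add h0]
      exact (Real.rpow_one (n : ℝ)).symm.le.trans
        (Real.rpow_le_rpow_of_exponent_le hn' (by norm_num))
    · rw [Nat.cast_one, mul_one, mul_comm, ← Real.rpow_add_one h0.ne']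
      exact hsq _ (by norm_num)

theorem Clus.mono {v : Fin n → ℂ} {t t' M M' : ℝ} (h : Clus v t M) (ht : t' ≤ t) (hM : M ≤ M') :
    Clus v t' M' := fun ζ =>
  le_trans (Nat.cast_le.2 (card_le_card fun _ hj =>
    mem_filter.2 ⟨mem_univ _, (mem_filter.1 hj).2.trans ht⟩)) ((h ζ).trans hM)

theorem clus_triv (v : Fin n → ℂ) (t : ℝ) : Clus v t n := fun _ =>
  Nat.cast_le.2 ((card_le_univ _).trans (Fintype.card_fin n).le)

theorem Dn_mono (z : ℂ) (v : Fin n → ℂ) (i : Fin n) {t t' : ℝ} (h : t ≤ t') :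
    Dn r z v i t ≤ Dn r z v i t' :=
  card_le_card fun _ hj => mem_filter.2 ⟨mem_univ _, (mem_filter.1 hj).2.trans h⟩

theorem Dn_le (z : ℂ) (v : Fin n → ℂ) (i : Fin n) (t : ℝ) : Dn r z v i t ≤ n ^ r :=
  (card_le_univ _).trans (by simp)

theorem one_le_Dn (π : Cfg n r) {z : ℂ} {v : Fin n → ℂ} {i : Fin n} {t : ℝ}
    (h : ‖app π z v i‖ ≤ t) : 1 ≤ Dn r z v i t :=
  card_pos.2 ⟨fun a => hd π (i, a), mem_filter.2 ⟨mem_univ _, h⟩⟩

end Pool.Agent.OKM

end FileCStars

section FileCOwn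

/-!
Owners of tuples of in-stubs, sampling and scanning lemmas.
`own1`: `own π i t` is contained in the range of some `g : Fin k → Fin n`; for fixed `g` each `t a` lies in
the pool of `insert i (range g)` (`card_pool`, at most `(k+1) r` stubs).
`own2`: if `own` has `r - 1` elements and `r ≥ 3`, some position `a` has an owner `≠ i` that no other
position has (otherwise `2 (r-1) ≤ r`). Then `t' = update t a (π (i, a))` has `|own π i t'| ≤ r - 2`, and
`t = update t' a (t a)`; so the set is covered by `⋃_a ⋃_{t'} {update t' a s | Val (update t' a s)}`.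
`card_heads`: the map `t ↦ (fun a => (t a).1)` has fibres of size `r^r`.
`samp`: choose for each `o ∈ T` a position (`T → Fin m`, at most `m^|T|` ways; positions are distinct and
different from `k`), and count functions with prescribed values on `|T| + 1` positions; or induct on `T`.
`scan_seq`: generalise to a starting set `I₀` with `|I₀| ≤ G`: let `fail m I₀` be the number of
`ω : Fin m → Fin n` for which there is no `T` with `|I₀| + |T| = G`, `ω` injective on `T`, `ω k ∉ I₀`,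
`Good (I₀ ∪ (T.filter (· < k)).image ω) (ω k)`. Prove `fail m I₀ * (q m) ≤ (G - |I₀|) n^m` by induction on `m`
(split on `ω 0` via `Fin.consEquiv`/`Fin.cons`: if `ω 0` is good and new, move to `insert (ω 0) I₀`, else stay;
with `D = G - |I₀|`: `(D - q)(m+1) ≤ D m` when `D ≤ q (m+1)`, and the bound is trivial otherwise).
`kraft_seq`: apply `kraft_pr` with `I = T.image ω` and `key i` the position in `T` mapped to `i`.
-/

open Finset

namespace Pool.Agent.OKM

variable {n r : ℕ}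

/-- the rows other than `i` owning the in-stubs of `t` -/
def own (π : Cfg n r) (i : Fin n) (t : Fin r → St n r) : Finset (Fin n) :=
  (univ.image fun a => (π⁻¹ (t a)).1).erase i

theorem own_card_le (π : Cfg n r) (i : Fin n) (t : Fin r → St n r) : (own π i t).card ≤ r :=
  card_erase_le.trans (card_image_le.trans (by simp))

theorem cown_range (i : Fin n) (S : Finset (Fin n)) {k : ℕ} (h : S.card ≤ k) :
    ∃ g : Fin k → Fin n, S ⊆ univ.image g := by
  refine ⟨fun j => if hj : j.1 < S.card then (S.equivFin.symm ⟨j.1, hj⟩ : Fin n) else i,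
    fun x hx => mem_image.2 ⟨⟨(S.equivFin ⟨x, hx⟩).1, lt_of_lt_of_le (S.equivFin ⟨x, hx⟩).2 h⟩,
      mem_univ _, ?_⟩⟩
  simp

theorem own1 (π : Cfg n r) (i : Fin n) {k : ℕ} (hk : k ≤ r) :
    (univ.filter fun t : Fin r → St n r => (own π i t).card ≤ k).card
      ≤ (r * (r + 1)) ^ r * n ^ k := by
  have sub : (univ.filter fun t : Fin r → St n r => (own π i t).card ≤ k) ⊆
      (univ : Finset (Fin k → Fin n)).biUnion fun g => Fintype.piFinset fun _ : Fin r =>
        univ.filter fun s : St n r => (π⁻¹ s).1 ∈ insert i (univ.image g) := by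
    intro t ht
    obtain ⟨g, hg⟩ := cown_range i (own π i t) (mem_filter.1 ht).2
    refine mem_biUnion.2 ⟨g, mem_univ _, Fintype.mem_piFinset.2 fun a => ?_⟩
    refine mem_filter.2 ⟨mem_univ _, ?_⟩
    by_cases h : (π⁻¹ (t a)).1 = i
    · rw [h]; exact mem_insert_self _ _
    · exact mem_insert_of_mem (hg (mem_erase.2 ⟨h, mem_image_of_mem _ (mem_univ a)⟩))
  refine (card_le_card sub).trans ((card_biUnion_le_card_mul _ _ ((r * (r + 1)) ^ r) ?_).trans ?_)
  · intro g _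
    rw [Fintype.card_piFinset, prod_const, card_univ, Fintype.card_fin, card_pool]
    refine Nat.pow_le_pow_left ?_ _
    rw [mul_comm]
    refine Nat.mul_le_mul_left _ ((card_insert_le _ _).trans ?_)
    have : (univ.image g).card ≤ k := card_image_le.trans (by simp)
    omega
  · simp [mul_comm]

theorem own2 (hr : 3 ≤ r) (π : Cfg n r) (i : Fin n) (Val : (Fin r → St n r) → Prop)
    [DecidablePred Val] {M : ℝ}
    (hM : ∀ a t, ((univ.filter fun s : St n r => Val (Function.update t a s)).card : ℝ) ≤ M) :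
    ((univ.filter fun t : Fin r → St n r => Val t ∧ (own π i t).card = r - 1).card : ℝ)
      ≤ r * ((r : ℝ) * (r + 1)) ^ r * (n : ℝ) ^ (r - 2) * M := by
  have sub : (univ.filter fun t : Fin r → St n r => Val t ∧ (own π i t).card = r - 1) ⊆
      (univ : Finset (Fin r)).biUnion fun a =>
        (univ.filter fun t : Fin r → St n r => (own π i t).card ≤ r - 2).biUnion fun t' =>
          (univ.filter fun s : St n r => Val (Function.update t' a s)).image
            (Function.update t' a) := by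
    intro t ht
    obtain ⟨hv, hc⟩ := (mem_filter.1 ht).2
    obtain ⟨a, ha, hu⟩ : ∃ a, (π⁻¹ (t a)).1 ≠ i ∧ ∀ b, b ≠ a → (π⁻¹ (t b)).1 ≠ (π⁻¹ (t a)).1 := by
      by_contra hcon
      push Not at hcon
      have h2 := mul_card_image_le_card_of_maps_to (f := fun a => (π⁻¹ (t a)).1)
        (s := univ.filter fun a => (π⁻¹ (t a)).1 ≠ i) (t := own π i t)
        (fun a ha => mem_erase.2 ⟨(mem_filter.1 ha).2, mem_image_of_mem _ (mem_univ a)⟩) 2
        (fun o ho => by
          obtain ⟨ho1, ho2⟩ := mem_erase.1 ho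
          obtain ⟨a, -, rfl⟩ := mem_image.1 ho2
          obtain ⟨b, hb, hb2⟩ := hcon a ho1
          refine one_lt_card.2 ⟨a, ?_, b, ?_, hb.symm⟩
          · exact mem_filter.2 ⟨mem_filter.2 ⟨mem_univ _, ho1⟩, rfl⟩
          · exact mem_filter.2 ⟨mem_filter.2 ⟨mem_univ _, by rw [hb2]; exact ho1⟩, hb2⟩)
      have h3 : (univ.filter fun a => (π⁻¹ (t a)).1 ≠ i).card ≤ r :=
        (card_filter_le _ _).trans (by simp)
      omega
    have e : Function.update (Function.update t a (π (i, a))) a (t a) = t := by simp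
    refine mem_biUnion.2 ⟨a, mem_univ _, mem_biUnion.2 ⟨Function.update t a (π (i, a)),
      mem_filter.2 ⟨mem_univ _, ?_⟩, mem_image.2 ⟨t a, mem_filter.2 ⟨mem_univ _, ?_⟩, e⟩⟩⟩
    · have hs : own π i (Function.update t a (π (i, a))) ⊆ (own π i t).erase (π⁻¹ (t a)).1 := by
        intro o ho
        obtain ⟨ho1, ho2⟩ := mem_erase.1 ho
        obtain ⟨b, -, rfl⟩ := mem_image.1 ho2
        by_cases hb : b = a
        · subst hb
          simp at ho1
        · rw [Function.update_of_ne hb] at ho1 ⊢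
          exact mem_erase.2 ⟨hu b hb, mem_erase.2 ⟨ho1, mem_image_of_mem _ (mem_univ b)⟩⟩
      have hm : (π⁻¹ (t a)).1 ∈ own π i t := mem_erase.2 ⟨ha, mem_image_of_mem _ (mem_univ a)⟩
      have := card_le_card hs
      rw [card_erase_of_mem hm] at this
      omega
    · rw [e]; exact hv
  have M0 : 0 ≤ M := (Nat.cast_nonneg _).trans (hM ⟨0, by omega⟩ fun a => (i, a))
  have h1 : ((univ.filter fun t : Fin r → St n r => (own π i t).card ≤ r - 2).card : ℝ)
      ≤ ((r : ℝ) * (r + 1)) ^ r * (n : ℝ) ^ (r - 2) := by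
    exact_mod_cast own1 π i (k := r - 2) (by omega)
  have h2 := (card_le_card sub).trans card_biUnion_le
  have h3 : ∀ a : Fin r, (((univ.filter fun t : Fin r → St n r =>
      (own π i t).card ≤ r - 2).biUnion fun t' =>
          (univ.filter fun s : St n r => Val (Function.update t' a s)).image
            (Function.update t' a)).card : ℝ) ≤
      ((r : ℝ) * (r + 1)) ^ r * (n : ℝ) ^ (r - 2) * M := by
    intro a
    refine (Nat.cast_le.2 card_biUnion_le).trans ?_
    rw [Nat.cast_sum]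
    refine (sum_le_card_nsmul _ _ M fun t' _ => ?_).trans ?_
    · exact (Nat.cast_le.2 card_image_le).trans (hM a t')
    · rw [nsmul_eq_mul]
      exact mul_le_mul_of_nonneg_right h1 M0
  refine (Nat.cast_le.2 h2).trans ?_
  rw [Nat.cast_sum]
  refine (sum_le_card_nsmul _ _ _ fun a _ => h3 a).trans (le_of_eq ?_)
  rw [nsmul_eq_mul, card_univ, Fintype.card_fin]
  ring

theorem card_heads (p : (Fin r → Fin n) → Prop) [DecidablePred p] :
    (univ.filter fun t : Fin r → St n r => p fun a => (t a).1).card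
      = r ^ r * (univ.filter p).card := by
  have : (univ.filter fun t : Fin r → St n r => p fun a => (t a).1).card =
      ((univ.filter p) ×ˢ (univ : Finset (Fin r → Fin r))).card := by
    refine card_nbij' (fun t => (fun a => (t a).1, fun a => (t a).2))
      (fun x a => (x.1 a, x.2 a)) ?_ ?_ ?_ ?_
    · intro t ht
      simpa using ht
    · intro x hx
      simpa using hx
    · intro t _
      rfl
    · intro x _
      rfl
  rw [this, card_product]
  simp [mul_comm]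

theorem card_head (p : Fin n → Prop) [DecidablePred p] :
    (univ.filter fun s : St n r => p s.1).card = r * (univ.filter p).card := by
  have : (univ.filter fun s : St n r => p s.1) = (univ.filter p) ×ˢ (univ : Finset (Fin r)) := by
    ext s
    simp
  rw [this, card_product]
  simp [mul_comm]

theorem cown_fix {m : ℕ} (P : Finset (Fin m)) (g : Fin m → Fin n) :
    (univ.filter fun ω : Fin m → Fin n => ∀ j ∈ P, ω j = g j).card * n ^ P.card = n ^ m := by
  have e : (univ.filter fun ω : Fin m → Fin n => ∀ j ∈ P, ω j = g j) =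
      Fintype.piFinset fun j => if j ∈ P then {g j} else univ := by
    ext ω
    simp only [mem_filter, mem_univ, true_and, Fintype.mem_piFinset]
    refine forall_congr' fun j => ?_
    by_cases h : j ∈ P <;> simp [h]
  have e2 : n ^ P.card = ∏ j : Fin m, if j ∈ P then n else 1 := by
    rw [prod_ite_mem, univ_inter, prod_const]
  rw [e, e2, Fintype.card_piFinset, ← prod_mul_distrib]
  have : ∀ j : Fin m, (if j ∈ P then ({g j} : Finset (Fin n)) else univ).card *
      (if j ∈ P then n else 1) = n := fun j => by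
    by_cases h : j ∈ P <;> simp [h]
  simp [this]

theorem samp {m : ℕ} (k : Fin m) (i : Fin n) (T : Finset (Fin n)) (hi : i ∉ T) :
    (univ.filter fun ω : Fin m → Fin n => ω k = i ∧ ∀ o ∈ T, ∃ k', ω k' = o).card * n ^ (T.card + 1)
      ≤ m ^ T.card * n ^ m := by
  have sub : (univ.filter fun ω : Fin m → Fin n => ω k = i ∧ ∀ o ∈ T, ∃ k', ω k' = o) ⊆
      (univ : Finset (T → Fin m)).biUnion fun κ =>
        univ.filter fun ω : Fin m → Fin n => ω k = i ∧ ∀ o : T, ω (κ o) = o := by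
    intro ω hω
    obtain ⟨h1, h2⟩ := (mem_filter.1 hω).2
    choose κ hκ using h2
    exact mem_biUnion.2 ⟨fun o => κ o.1 o.2, mem_univ _,
      mem_filter.2 ⟨mem_univ _, h1, fun o => hκ o.1 o.2⟩⟩
  have each : ∀ κ : T → Fin m, (univ.filter fun ω : Fin m → Fin n =>
      ω k = i ∧ ∀ o : T, ω (κ o) = o).card * n ^ (T.card + 1) ≤ n ^ m := by
    intro κ
    rcases (univ.filter fun ω : Fin m → Fin n =>
      ω k = i ∧ ∀ o : T, ω (κ o) = o).eq_empty_or_nonempty with h | ⟨g, hg⟩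
    · rw [h]; simp
    · obtain ⟨g1, g2⟩ := (mem_filter.1 hg).2
      have inj : Function.Injective κ := fun o o' h => by
        apply Subtype.ext
        rw [← g2 o, ← g2 o', h]
      have nk : k ∉ univ.image κ := fun h => by
        obtain ⟨o, -, ho⟩ := mem_image.1 h
        apply hi
        rw [← g1, ← ho, g2 o]
        exact o.2
      have hc : (insert k (univ.image κ)).card = T.card + 1 := by
        rw [card_insert_of_notMem nk, card_image_of_injective _ inj]
        simp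
      rw [← cown_fix (insert k (univ.image κ)) g, hc]
      refine Nat.mul_le_mul_right _ (card_le_card fun ω hω => ?_)
      obtain ⟨w1, w2⟩ := (mem_filter.1 hω).2
      refine mem_filter.2 ⟨mem_univ _, fun j hj => ?_⟩
      rcases mem_insert.1 hj with rfl | hj
      · rw [w1, g1]
      · obtain ⟨o, -, rfl⟩ := mem_image.1 hj
        rw [w2, g2]
  refine (Nat.mul_le_mul_right _ ((card_le_card sub).trans card_biUnion_le)).trans ?_
  rw [sum_mul]
  refine (sum_le_card_nsmul _ _ _ fun κ _ => each κ).trans (le_of_eq ?_)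
  simp

/-- a successful scan started from the set `I` -/
def cown_ok (Good : Finset (Fin n) → Fin n → Prop) (G : ℕ) (I : Finset (Fin n)) {m : ℕ}
    (ω : Fin m → Fin n) : Prop :=
  ∃ T : Finset (Fin m), I.card + T.card = G ∧ Set.InjOn ω T ∧
    ∀ k ∈ T, ω k ∉ I ∧ Good (I ∪ (T.filter fun k' => k' < k).image ω) (ω k)

open Classical in
theorem cown_zero (Good : Finset (Fin n) → Fin n → Prop) (G : ℕ) (I : Finset (Fin n))
    (h : I.card = G) {m : ℕ} :
    (univ.filter fun ω : Fin m → Fin n => ¬ cown_ok Good G I ω).card = 0 := by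
  rw [card_eq_zero, filter_eq_empty_iff]
  intro ω _ hn
  exact hn ⟨∅, by simpa using h, by simp, by simp⟩

theorem cown_img {m : ℕ} (T : Finset (Fin m)) (x : Fin n) (ω : Fin m → Fin n) (k : Fin m) :
    ((T.image Fin.succ).filter fun k' => k' < k.succ).image (Fin.cons x ω : Fin (m + 1) → Fin n) =
      (T.filter fun k' => k' < k).image ω := by
  rw [filter_image, image_image]
  simp only [Fin.succ_lt_succ_iff]
  rfl

theorem cown_inj {m : ℕ} {T : Finset (Fin m)} (x : Fin n) {ω : Fin m → Fin n}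
    (h : Set.InjOn ω T) :
    Set.InjOn (Fin.cons x ω : Fin (m + 1) → Fin n) (T.image Fin.succ : Finset (Fin (m + 1))) := by
  intro a ha b hb hab
  obtain ⟨a, ha', rfl⟩ := mem_image.1 (mem_coe.1 ha)
  obtain ⟨b, hb', rfl⟩ := mem_image.1 (mem_coe.1 hb)
  simp only [Fin.cons_succ] at hab
  rw [h ha' hb' hab]

theorem cown_stay {Good : Finset (Fin n) → Fin n → Prop} {G : ℕ} {I : Finset (Fin n)} {m : ℕ}
    {ω : Fin m → Fin n} (x : Fin n) (h : cown_ok Good G I ω) :
    cown_ok Good G I (Fin.cons x ω : Fin (m + 1) → Fin n) := by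
  obtain ⟨T, h1, h2, h3⟩ := h
  refine ⟨T.image Fin.succ, by rwa [card_image_of_injective _ (Fin.succ_injective _)],
    cown_inj x h2, fun k hk => ?_⟩
  obtain ⟨k, hk', rfl⟩ := mem_image.1 hk
  rw [cown_img, Fin.cons_succ]
  exact h3 k hk'

theorem cown_move {Good : Finset (Fin n) → Fin n → Prop} {G : ℕ} {I : Finset (Fin n)} {m : ℕ}
    {ω : Fin m → Fin n} {x : Fin n} (hx : x ∉ I) (hg : Good I x)
    (h : cown_ok Good G (insert x I) ω) :
    cown_ok Good G I (Fin.cons x ω : Fin (m + 1) → Fin n) := by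
  obtain ⟨T, h1, h2, h3⟩ := h
  have n0 : (0 : Fin (m + 1)) ∉ T.image Fin.succ := fun h => by
    obtain ⟨k, -, hk⟩ := mem_image.1 h
    exact Fin.succ_ne_zero k hk
  refine ⟨insert 0 (T.image Fin.succ), ?_, ?_, fun k hk => ?_⟩
  · rw [card_insert_of_notMem n0, card_image_of_injective _ (Fin.succ_injective _)]
    rw [card_insert_of_notMem hx] at h1
    omega
  · rw [coe_insert]
    refine (Set.injOn_insert (by simp)).2 ⟨cown_inj x h2, ?_⟩
    rintro ⟨a, ha, e⟩
    obtain ⟨a, ha', rfl⟩ := mem_image.1 (mem_coe.1 ha)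
    simp only [Fin.cons_succ, Fin.cons_zero] at e
    exact (h3 a ha').1 (by rw [e]; exact mem_insert_self _ _)
  · rcases mem_insert.1 hk with rfl | hk
    · have : ((insert (0 : Fin (m + 1)) (T.image Fin.succ)).filter fun k' => k' < 0) = ∅ := by
        simp
      rw [this]
      simpa using ⟨hx, hg⟩
    · obtain ⟨k, hk', rfl⟩ := mem_image.1 hk
      rw [filter_insert, if_pos (Fin.succ_pos k), image_insert, cown_img, Fin.cons_succ,
        Fin.cons_zero, union_insert, ← insert_union]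
      exact ⟨fun h => (h3 k hk').1 (mem_insert_of_mem h), (h3 k hk').2⟩

theorem cown_split {m : ℕ} (P : (Fin (m + 1) → Fin n) → Prop) [DecidablePred P] :
    (univ.filter P).card =
      ∑ x : Fin n, (univ.filter fun ω : Fin m → Fin n => P (Fin.cons x ω)).card := by
  simp only [card_filter]
  rw [← Fintype.sum_prod_type']
  exact (Fintype.sum_equiv (Fin.consEquiv fun _ => Fin n) _ _ fun _ => rfl).symm

open Classical in
theorem cown_scan (Good : Finset (Fin n) → Fin n → Prop) (G : ℕ) {q : ℝ} (hq : 0 < q)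
    (hgood : ∀ I : Finset (Fin n), I.card < G →
      q * n ≤ (univ.filter fun i => i ∉ I ∧ Good I i).card) (m : ℕ) :
    ∀ I : Finset (Fin n), I.card ≤ G →
      ((univ.filter fun ω : Fin m → Fin n => ¬ cown_ok Good G I ω).card : ℝ) * (q * m)
        ≤ ((G : ℝ) - I.card) * (n : ℝ) ^ m := by
  induction m with
  | zero =>
    intro I hI
    have : (I.card : ℝ) ≤ G := Nat.cast_le.2 hI
    simpa using this
  | succ m ih =>
    intro I hI
    rcases hI.eq_or_lt with h | h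
    · rw [cown_zero Good G I h, h]
      simp
    obtain ⟨f, hf⟩ : ∃ f : ℝ, f =
      ((univ.filter fun ω : Fin (m + 1) → Fin n => ¬ cown_ok Good G I ω).card : ℝ) := ⟨_, rfl⟩
    obtain ⟨D, hD⟩ : ∃ D : ℝ, D = (G : ℝ) - I.card := ⟨_, rfl⟩
    have f0 : 0 ≤ f := hf ▸ Nat.cast_nonneg _
    have f1 : f ≤ (n : ℝ) ^ (m + 1) := by
      rw [hf]
      exact_mod_cast (card_filter_le _ _).trans (by simp)
    have D1 : 1 ≤ D := by
      have : ((I.card + 1 : ℕ) : ℝ) ≤ G := Nat.cast_le.2 h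
      push_cast at this
      linarith
    have N0 : (0 : ℝ) ≤ (n : ℝ) ^ m := by positivity
    have key : f * (q * m) ≤ (D - q) * (n : ℝ) ^ (m + 1) := by
      rw [hf, cown_split, Nat.cast_sum, sum_mul]
      have each : ∀ x : Fin n, ((univ.filter fun ω : Fin m → Fin n =>
          ¬ cown_ok Good G I (Fin.cons x ω : Fin (m + 1) → Fin n)).card : ℝ) * (q * m) ≤
          (D - if x ∉ I ∧ Good I x then 1 else 0) * (n : ℝ) ^ m := by
        intro x
        have qm : 0 ≤ q * m := by positivity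
        split_ifs with hx
        · refine le_trans (mul_le_mul_of_nonneg_right (Nat.cast_le.2 (card_le_card ?_)) qm)
            ((ih (insert x I) (by rw [card_insert_of_notMem hx.1]; exact h)).trans (le_of_eq ?_))
          · intro ω hω
            rw [mem_filter] at hω ⊢
            exact ⟨mem_univ _, fun h' => hω.2 (cown_move hx.1 hx.2 h')⟩
          rw [card_insert_of_notMem hx.1, hD]
          push_cast
          ring
        · refine le_trans (mul_le_mul_of_nonneg_right (Nat.cast_le.2 (card_le_card ?_)) qm)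
            ((ih I hI).trans (le_of_eq ?_))
          · intro ω hω
            rw [mem_filter] at hω ⊢
            exact ⟨mem_univ _, fun h' => hω.2 (cown_stay x h')⟩
          rw [hD, sub_zero]
      refine (sum_le_sum fun x _ => each x).trans ?_
      rw [← sum_mul, sum_sub_distrib, sum_boole, sum_const, card_univ, Fintype.card_fin,
        nsmul_eq_mul, pow_succ]
      have := mul_le_mul_of_nonneg_right (hgood I h) N0
      nlinarith
    rw [← hf, ← hD]
    push_cast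
    obtain ⟨N, hN⟩ : ∃ N : ℝ, N = (n : ℝ) ^ (m + 1) := ⟨_, rfl⟩
    rw [← hN] at f1 key ⊢
    have m0 : (0 : ℝ) ≤ m := Nat.cast_nonneg _
    by_cases hc : q * (m + 1) ≤ D
    · have := mul_le_mul f1 hc (by positivity) (f0.trans f1)
      linarith
    · push Not at hc
      rcases Nat.eq_zero_or_pos m with rfl | hm
      · have q1 : q * n ≤ n := (hgood I h).trans (by
          exact_mod_cast (card_filter_le _ _).trans (by simp))
        have : N = n := by simp [hN]
        have f2 : f * q ≤ N * q := mul_le_mul_of_nonneg_right f1 hq.le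
        have f3 : N * 1 ≤ N * D := mul_le_mul_of_nonneg_left D1 (f0.trans f1)
        simp only [Nat.cast_zero, zero_add, mul_one] at f3 ⊢
        rw [this] at f2 f3 ⊢
        linarith
      · have mp : (0 : ℝ) < m := Nat.cast_pos.2 hm
        refine le_of_mul_le_mul_right ?_ mp
        have k1 := mul_le_mul_of_nonneg_right key (by positivity : (0 : ℝ) ≤ m + 1)
        have k2 := mul_le_mul_of_nonneg_right hc.le (f0.trans f1)
        linarith

open Classical in
theorem scan_seq (hn : 0 < n) (Good : Finset (Fin n) → Fin n → Prop) (G m : ℕ) {q : ℝ} (hq : 0 < q)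
    (hgood : ∀ I : Finset (Fin n), I.card < G →
      q * n ≤ (univ.filter fun i => i ∉ I ∧ Good I i).card)
    (hm : 4 * (G : ℝ) ≤ q * m) :
    4 * (univ.filter fun ω : Fin m → Fin n => ¬ ∃ T : Finset (Fin m), T.card = G ∧
      Set.InjOn ω T ∧ ∀ k ∈ T, Good ((T.filter fun k' => k' < k).image ω) (ω k)).card
      ≤ n ^ m := by
  have h := cown_scan Good G hq hgood m ∅ (by simp)
  have sub : (univ.filter fun ω : Fin m → Fin n => ¬ ∃ T : Finset (Fin m), T.card = G ∧
      Set.InjOn ω T ∧ ∀ k ∈ T, Good ((T.filter fun k' => k' < k).image ω) (ω k)) ⊆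
      univ.filter fun ω : Fin m → Fin n => ¬ cown_ok Good G ∅ ω := by
    intro ω hω
    refine mem_filter.2 ⟨mem_univ _, fun ⟨T, h1, h2, h3⟩ => (mem_filter.1 hω).2
      ⟨T, by simpa using h1, h2, fun k hk => by simpa using (h3 k hk).2⟩⟩
  refine (Nat.mul_le_mul_left _ (card_le_card sub)).trans ?_
  rcases Nat.eq_zero_or_pos m with rfl | hm0
  · have G0 : G = 0 := by
      have : (G : ℝ) ≤ 0 := by
        rw [Nat.cast_zero, mul_zero] at hm
        linarith
      exact_mod_cast le_antisymm this (Nat.cast_nonneg _)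
    rw [cown_zero Good G ∅ (by simp [G0])]
    simp
  · have qm : 0 < q * m := mul_pos hq (Nat.cast_pos.2 hm0)
    have n0 : (0 : ℝ) ≤ (n : ℝ) ^ m := by positivity
    simp only [card_empty, Nat.cast_zero, sub_zero] at h
    have h4 := mul_le_mul_of_nonneg_right hm n0
    have : (4 : ℝ) * ((univ.filter fun ω : Fin m → Fin n => ¬ cown_ok Good G ∅ ω).card : ℝ)
        ≤ (n : ℝ) ^ m := by
      refine le_of_mul_le_mul_right ?_ qm
      linarith
    exact_mod_cast this

theorem kraft_seq {m : ℕ} (ω : Fin m → Fin n) (T : Finset (Fin m)) (hω : Set.InjOn ω T)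
    (E : Cfg n r → Prop) (O : Fin m → Cfg n r → Finset (Fin r → St n r))
    (hdet : ∀ k ∈ T, ∀ π π' : Cfg n r,
      (∀ s : St n r, s.1 ∉ (T.filter fun k' => k' ≤ k).image ω → π s = π' s) → O k π = O k π')
    (hmem : ∀ π, E π → ∀ k ∈ T, tup π (ω k) ∈ O k π) {Λ : ℝ} (hΛ0 : 0 ≤ Λ)
    (hΛ : ∀ π, E π → ∏ k ∈ T, ((O k π).card : ℝ) ≤ Λ) :
    pr E ≤ Λ / ((T.card * r).factorial : ℝ) := by
  rcases T.eq_empty_or_nonempty with rfl | ⟨k0, -⟩
  · have := kraft_pr (∅ : Finset (Fin n)) (fun _ => 0) (by simp) E (fun _ _ => ∅) (by simp)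
      (by simp) hΛ0 (by simpa using hΛ)
    simpa using this
  have : Nonempty (Fin m) := ⟨k0⟩
  have li : ∀ k ∈ T, Function.invFunOn ω T (ω k) = k := fun k hk => hω.leftInvOn_invFunOn hk
  have hc : (T.image ω).card = T.card := card_image_of_injOn hω
  have := kraft_pr (T.image ω) (fun i => (Function.invFunOn ω T i).1) ?_ E
    (fun i π => O (Function.invFunOn ω T i) π) ?_ ?_ hΛ0 ?_
  · rwa [hc] at this
  · intro i hi j hj hij
    obtain ⟨k, hk, rfl⟩ := mem_image.1 (mem_coe.1 hi)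
    obtain ⟨l, hl, rfl⟩ := mem_image.1 (mem_coe.1 hj)
    simp only [li k hk, li l hl] at hij
    rw [Fin.ext hij]
  · intro i hi π π' h
    obtain ⟨k, hk, rfl⟩ := mem_image.1 hi
    simp only [li k hk] at h ⊢
    refine hdet k hk π π' fun s hs => h s fun ⟨h1, h2⟩ => hs ?_
    obtain ⟨l, hl, e⟩ := mem_image.1 h1
    rw [← e, li l hl] at h2
    exact mem_image.2 ⟨l, mem_filter.2 ⟨hl, h2⟩, e⟩
  · intro π hπ i hi
    obtain ⟨k, hk, rfl⟩ := mem_image.1 hi
    simp only [li k hk]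
    exact hmem π hπ k hk
  · intro π hπ
    rw [prod_image hω]
    refine le_of_eq_of_le (prod_congr rfl fun k hk => ?_) (hΛ π hπ)
    simp only [li k hk]

end Pool.Agent.OKM

end FileCOwn

section FileCEnt

/-!
Entropy bound: the probability that every row outside `Y` has its heads in a prescribed set `V i` is
at most `∏ |V i| / n^r` up to `e^(o(n))`, when the `V i` have small codegrees.
`entropy`: choose `L` with `r (1 + log L)/L ≤ ε/2`, `C' = (r(r+1))^r (1 + r^2)`, `γ` with `C' γ L^r ≤ ε/2`.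
`I = Yᶜ`, `B` the set of `π` in the event. For labels `τ : Fin n → Fin L` let `key i = τ i * n + i` and
`O τ i π = {t | heads of t ∈ V i ∧ ∀ a, owner (t a) ∈ I ∧ key (owner (t a)) ≤ key i}` (`owner_det` for the set
`{i' ∈ I | key i' ≤ key i}`). `kraft` gives `∑_{π ∈ B} ∏_{i ∈ I} 1/|O τ i π| ≤ N!/(|I| r)!` for each `τ`; average over
`τ`. For `π ∈ B`, `∏ 1/|O| = exp (-X τ)`, `X τ = ∑_i log |O τ i π|`, and `exp (-X) ≥ exp (-μ) (1 - X + μ)`, so it
suffices to bound the average of `X τ` by `μ = ∑_{i ∈ I} (log (r^r D i) - r + ε)`. With `x_b = (b+1)/L` and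
`c_b = r^r D i (x_b^r + C' γ)`: `log a ≤ log c_b + a / c_b - 1` for `b = τ i`; by `labels`, the sum of `|O τ i π|` over
the `τ` with `τ i = b` is at most `L^(n-1) ∑_{t valid} x_b^|own π i t| ≤ L^(n-1) c_b` (`card_heads`; tuples with
`|own| ≤ r - 1` number at most `C' n^(r-2) M ≤ C' γ D i` by `own1`, `own2` with `r M`). Finally
`log c_b ≤ log (r^r D i) + r log x_b + C' γ L^r`, `∑_b log x_b = log (L!/L^L) ≤ 1 + log L - L`
(`factorial_le_pow`), `(|I| r)! ≥ N!/N^(r|Y|)`, `N! ≥ (N/e)^N`.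
`case2_count`: union over labelings `c ∈ Fintype.piFinset (fun i => if i ∈ X then {0} else T)`; for each `c` pick
`D` (it does not depend on `π`); `∑_c ∏_{i ∉ X} q (c i) = (∑_T q)^(n-|X|) ≤ 1` (`Finset.prod_univ_sum`).
-/

open Finset

namespace Pool.Agent.OKM

variable {n r : ℕ}

def EntHyp (r : ℕ) (Y : Finset (Fin n)) (V : Fin n → Finset (Fin r → Fin n)) (D : Fin n → ℝ)
    (γ : ℝ) : Prop :=
  ∃ M : ℝ, 1 ≤ M ∧ ∀ i ∉ Y, ((V i).card : ℝ) ≤ D i ∧ (n : ℝ) ^ (r - 2) * M ≤ γ * D i ∧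
    ∀ (a : Fin r) (f : Fin r → Fin n),
      ((univ.filter fun j => Function.update f a j ∈ V i).card : ℝ) ≤ M

theorem labels {L : ℕ} (i : Fin n) (b : Fin L) (T : Finset (Fin n)) (hi : i ∉ T) :
    (univ.filter fun τ : Fin n → Fin L => τ i = b ∧ ∀ o ∈ T, τ o ≤ b).card * L ^ (T.card + 1)
      = (b.val + 1) ^ T.card * L ^ n := by
  have e : (univ.filter fun τ : Fin n → Fin L => τ i = b ∧ ∀ o ∈ T, τ o ≤ b) =
      Fintype.piFinset fun o => if o = i then {b} else if o ∈ T then Iic b else univ := by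
    ext τ
    simp only [mem_filter, mem_univ, true_and, Fintype.mem_piFinset]
    constructor
    · rintro ⟨h1, h2⟩ o
      split_ifs with a c
      · rw [a, h1, mem_singleton]
      · exact mem_Iic.2 (h2 o c)
      · exact mem_univ _
    · intro h
      refine ⟨by simpa using h i, fun o ho => ?_⟩
      have a : o ≠ i := fun a => hi (a ▸ ho)
      simpa [a, ho] using h o
  have c : T.card + 1 ≤ n := by
    rw [← card_insert_of_notMem hi]
    simpa using card_le_univ (insert i T)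
  rw [e, Fintype.card_piFinset, ← prod_mul_prod_compl (insert i T), prod_insert hi,
    prod_congr rfl (g := fun _ => b.val + 1), prod_congr (s₁ := (insert i T)ᶜ) rfl (g := fun _ => L),
    prod_const, prod_const, card_compl, card_insert_of_notMem hi, Fintype.card_fin, if_pos rfl,
    card_singleton, one_mul, mul_assoc, pow_sub_mul_pow _ c]
  · intro o ho
    rw [mem_compl, mem_insert, not_or] at ho
    simp [ho.1, ho.2]
  · intro o ho
    have a : o ≠ i := fun a => hi (a ▸ ho)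
    simp [a, ho]

def cent_key {L : ℕ} (τ : Fin n → Fin L) (i : Fin n) : ℕ := (τ i).val * n + i.val

theorem cent_key_le {L : ℕ} {τ : Fin n → Fin L} {o i : Fin n}
    (h : cent_key τ o ≤ cent_key τ i) : τ o ≤ τ i := by
  by_contra c
  have c' : (τ i).val + 1 ≤ (τ o).val := not_le.1 c
  have := Nat.mul_le_mul_right n c'
  have := i.isLt
  unfold cent_key at h
  rw [add_mul] at *
  omega

theorem cent_key_inj {L : ℕ} (τ : Fin n → Fin L) : Function.Injective (cent_key τ) := by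
  intro o i h
  have a : τ o = τ i := le_antisymm (cent_key_le h.le) (cent_key_le h.ge)
  unfold cent_key at h
  rw [a] at h
  exact Fin.ext (by omega)

/-- the options of row `i` when it is revealed -/
def cent_O {L : ℕ} (V : Fin n → Finset (Fin r → Fin n)) (I : Finset (Fin n)) (τ : Fin n → Fin L)
    (i : Fin n) (π : Cfg n r) : Finset (Fin r → St n r) :=
  univ.filter fun t => (fun a => (t a).1) ∈ V i ∧
    ∀ a, (π⁻¹ (t a)).1 ∈ I.filter fun o => cent_key τ o ≤ cent_key τ i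

theorem cent_mem {L : ℕ} {V : Fin n → Finset (Fin r → Fin n)} {I : Finset (Fin n)}
    (τ : Fin n → Fin L) {i : Fin n} {π : Cfg n r} (hi : i ∈ I)
    (h : (fun a => hd π (i, a)) ∈ V i) : tup π i ∈ cent_O V I τ i π := by
  refine mem_filter.2 ⟨mem_univ _, h, fun a => ?_⟩
  simp [tup, hi]

theorem cent_kraft {L : ℕ} (V : Fin n → Finset (Fin r → Fin n)) (I : Finset (Fin n))
    (τ : Fin n → Fin L) (B : Finset (Cfg n r))
    (hB : ∀ π ∈ B, ∀ i ∈ I, (fun a => hd π (i, a)) ∈ V i) :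
    ∑ π ∈ B, ∏ i ∈ I, (1 / ((cent_O V I τ i π).card : ℝ))
      ≤ ((n * r).factorial : ℝ) / ((I.card * r).factorial : ℝ) := by
  refine kraft I (cent_key τ) (cent_key_inj τ).injOn B _ (fun i _ π π' h => ?_)
    fun π hπ i hi => cent_mem τ hi (hB π hπ i hi)
  refine filter_congr fun t _ => and_congr_right fun _ => forall_congr' fun a => ?_
  exact owner_det _ (fun s hs => h s (by simpa using hs)) _

/-- the weighted number of valid tuples -/
theorem cent_cnt (hr : 3 ≤ r) (π : Cfg n r) (i : Fin n) (V : Finset (Fin r → Fin n))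
    {D M γ x : ℝ} (hM : 1 ≤ M) (hγ : 0 ≤ γ) (hD : (V.card : ℝ) ≤ D)
    (hn : (n : ℝ) ^ (r - 2) * M ≤ γ * D)
    (hV : ∀ (a : Fin r) (f : Fin r → Fin n),
      ((univ.filter fun j => Function.update f a j ∈ V).card : ℝ) ≤ M)
    (h0 : 0 ≤ x) (h1 : x ≤ 1) :
    ∑ t ∈ univ.filter fun t : Fin r → St n r => (fun a => (t a).1) ∈ V, x ^ (own π i t).card
      ≤ (r : ℝ) ^ r * D * (x ^ r + ((r : ℝ) * (r + 1)) ^ r * (1 + r ^ 2) * γ) := by
  have a1 : ((univ.filter fun t : Fin r → St n r => (fun a => (t a).1) ∈ V).card : ℝ)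
      ≤ (r : ℝ) ^ r * D := by
    rw [card_heads (fun f => f ∈ V)]
    push_cast
    refine mul_le_mul_of_nonneg_left ?_ (by positivity)
    simpa using hD
  have a2 : ((univ.filter fun t : Fin r → St n r => (own π i t).card ≤ r - 2).card : ℝ)
      ≤ ((r : ℝ) * (r + 1)) ^ r * (n : ℝ) ^ (r - 2) := by
    exact_mod_cast own1 π i (Nat.sub_le r 2)
  have a3 := own2 hr π i (fun t => (fun a => (t a).1) ∈ V) (M := r * M) fun a t => by
    have e : ∀ s : St n r, (fun c => (Function.update t a s c).1) =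
        Function.update (fun c => (t c).1) a s.1 := fun s =>
      funext fun c => Function.apply_update (fun _ (u : St n r) => u.1) t a s c
    simp only [e]
    rw [card_head (fun j => Function.update (fun c => (t c).1) a j ∈ V)]
    push_cast
    exact mul_le_mul_of_nonneg_left (hV a _) (by positivity)
  have b : ∑ t ∈ univ.filter fun t : Fin r → St n r => (fun a => (t a).1) ∈ V,
      x ^ (own π i t).card ≤ ∑ t ∈ univ.filter fun t : Fin r → St n r => (fun a => (t a).1) ∈ V,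
        (x ^ r + ((if (own π i t).card ≤ r - 2 then 1 else 0) +
          (if (own π i t).card = r - 1 then 1 else 0))) := by
    refine sum_le_sum fun t _ => ?_
    have c1 := own_card_le π i t
    have c2 : x ^ (own π i t).card ≤ 1 := pow_le_one₀ h0 h1
    have c3 : 0 ≤ x ^ r := pow_nonneg h0 r
    split_ifs with u v v
    · linarith
    · linarith
    · linarith
    · rw [show (own π i t).card = r by omega]
      linarith
  rw [sum_add_distrib, sum_add_distrib, sum_const, nsmul_eq_mul, sum_boole, sum_boole,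
    filter_filter, filter_filter] at b
  have a4 : ((univ.filter fun t : Fin r → St n r =>
      (fun a => (t a).1) ∈ V ∧ (own π i t).card ≤ r - 2).card : ℝ) ≤ _ :=
    le_trans (Nat.cast_le.2 (card_le_card (monotone_filter_right _ fun t _ h => h.2))) a2
  have r1 : (1 : ℝ) ≤ (r : ℝ) ^ r := one_le_pow₀ (by exact_mod_cast (by omega : 1 ≤ r))
  have D0 : 0 ≤ D := le_trans (Nat.cast_nonneg _) hD
  generalize hP : ((r : ℝ) * (r + 1)) ^ r = P at *
  have P0 : 0 ≤ P := by rw [← hP]; positivity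
  generalize hW : (n : ℝ) ^ (r - 2) = W at *
  have W0 : 0 ≤ W := by rw [← hW]; positivity
  have d1 : P * W ≤ P * (W * M) := mul_le_mul_of_nonneg_left (le_mul_of_one_le_right W0 hM) P0
  have d2 : P * (1 + r ^ 2) * (W * M) ≤ P * (1 + r ^ 2) * (γ * D) :=
    mul_le_mul_of_nonneg_left hn (by positivity)
  have d3 : P * (1 + r ^ 2) * (γ * D) ≤ (r : ℝ) ^ r * (P * (1 + r ^ 2) * (γ * D)) :=
    le_mul_of_one_le_left (by positivity) r1
  have d4 := mul_le_mul_of_nonneg_right a1 (pow_nonneg h0 r)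
  linarith

theorem cent_labels {L : ℕ} (i : Fin n) (b : Fin L) (T : Finset (Fin n)) (hi : i ∉ T) :
    ((univ.filter fun τ : Fin n → Fin L => τ i = b ∧ ∀ o ∈ T, τ o ≤ b).card : ℝ)
      = (L : ℝ) ^ n / L * (((b.val : ℝ) + 1) / L) ^ T.card := by
  have L0 : (L : ℝ) ≠ 0 := Nat.cast_ne_zero.2 b.pos.ne'
  have h := congrArg (Nat.cast (R := ℝ)) (labels i b T hi)
  push_cast at h
  rw [div_pow]
  field_simp
  linear_combination h

theorem cent_lab {L : ℕ} (V : Fin n → Finset (Fin r → Fin n)) (I : Finset (Fin n)) (i : Fin n)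
    (π : Cfg n r) (b : Fin L) :
    ∑ τ ∈ univ.filter fun τ : Fin n → Fin L => τ i = b, ((cent_O V I τ i π).card : ℝ) ≤
      (L : ℝ) ^ n / L * ∑ t ∈ univ.filter fun t : Fin r → St n r => (fun a => (t a).1) ∈ V i,
        (((b.val : ℝ) + 1) / L) ^ (own π i t).card := by
  have a : ∀ τ ∈ univ.filter fun τ : Fin n → Fin L => τ i = b, ((cent_O V I τ i π).card : ℝ) ≤
      ∑ t ∈ univ.filter fun t : Fin r → St n r => (fun a => (t a).1) ∈ V i,
        if ∀ o ∈ own π i t, τ o ≤ b then (1 : ℝ) else 0 := by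
    intro τ hτ
    rw [sum_boole, filter_filter]
    refine Nat.cast_le.2 (card_le_card (monotone_filter_right _ fun t _ h => ⟨h.1, fun o ho => ?_⟩))
    obtain ⟨a, -, rfl⟩ := mem_image.1 (mem_of_mem_erase ho)
    rw [← (mem_filter.1 hτ).2]
    exact cent_key_le (mem_filter.1 (h.2 a)).2
  refine (sum_le_sum a).trans (le_of_eq ?_)
  rw [sum_comm, mul_sum]
  refine sum_congr rfl fun t _ => ?_
  rw [sum_boole, filter_filter, cent_labels i b (own π i t) (notMem_erase _ _)]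

theorem cent_logs {L : ℕ} (hL : 1 ≤ L) :
    ∑ b : Fin L, Real.log (((b.val : ℝ) + 1) / L) ≤ 1 + Real.log L - L := by
  have L0 : (0 : ℝ) < L := by exact_mod_cast hL
  have e : ∑ b : Fin L, Real.log (((b.val : ℝ) + 1) / L) =
      Real.log (L.factorial : ℝ) - L * Real.log L := by
    rw [sum_congr rfl fun (b : Fin L) _ => Real.log_div (by positivity) L0.ne', sum_sub_distrib,
      ← Real.log_prod (fun _ _ => by positivity), ← Finset.prod_range_add_one_eq_factorial,
      Fin.prod_univ_eq_prod_range (fun k => (k : ℝ) + 1), sum_const, card_univ, Fintype.card_fin,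
      nsmul_eq_mul]
    push_cast
    rfl
  have h := Real.log_le_log (by positivity) (factorial_le_pow L hL)
  rw [Real.log_mul (by positivity) (by positivity), Real.log_mul (by positivity) L0.ne',
    Real.log_pow, Real.log_div L0.ne' (by positivity), Real.log_exp] at h
  linarith

theorem cent_row {L : ℕ} (hL : 1 ≤ L) (V : Fin n → Finset (Fin r → Fin n)) (I : Finset (Fin n))
    (i : Fin n) (π : Cfg n r) {A δ ε : ℝ} (hA : 0 < A) (hδ : 0 ≤ δ)
    (h1 : r * (1 + Real.log L) ≤ L * (ε / 2)) (h2 : δ * (L : ℝ) ^ r ≤ ε / 2)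
    (hne : ∀ τ : Fin n → Fin L, (cent_O V I τ i π).Nonempty)
    (hc : ∀ x : ℝ, 0 ≤ x → x ≤ 1 →
      ∑ t ∈ univ.filter fun t : Fin r → St n r => (fun a => (t a).1) ∈ V i,
        x ^ (own π i t).card ≤ A * (x ^ r + δ)) :
    ∑ τ : Fin n → Fin L, Real.log (cent_O V I τ i π).card
      ≤ (L : ℝ) ^ n * (Real.log A - r + ε) := by
  have L0 : (0 : ℝ) < L := by exact_mod_cast hL
  have W0 : 0 ≤ (L : ℝ) ^ n / L := by positivity
  have key : ∀ b : Fin L, ∑ τ ∈ univ.filter fun τ : Fin n → Fin L => τ i = b,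
      Real.log (cent_O V I τ i π).card ≤
      (L : ℝ) ^ n / L * (Real.log A + r * Real.log (((b.val : ℝ) + 1) / L) + ε / 2) := by
    intro b
    have x0 : 0 < ((b.val : ℝ) + 1) / L := by positivity
    have x1 : ((b.val : ℝ) + 1) / L ≤ 1 := by
      rw [div_le_one L0]
      exact_mod_cast b.isLt
    have x2 : 1 ≤ (L : ℝ) ^ r * (((b.val : ℝ) + 1) / L) ^ r := by
      rw [← mul_pow, mul_div_cancel₀ _ L0.ne']
      exact one_le_pow₀ (le_add_of_nonneg_left (Nat.cast_nonneg _))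
    have l := (cent_lab V I i π b).trans (mul_le_mul_of_nonneg_left (hc _ x0.le x1) W0)
    have k := cent_labels i b ∅ (notMem_empty i)
    simp only [notMem_empty, IsEmpty.forall_iff, implies_true, and_true, card_empty, pow_zero,
      mul_one] at k
    rw [← Real.log_pow]
    have y0 := pow_pos x0 r
    generalize (((b.val : ℝ) + 1) / L) ^ r = y at *
    have c0 : 0 < A * (y + δ) := by positivity
    have m : Real.log (A * (y + δ)) ≤ Real.log A + Real.log y + ε / 2 := by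
      have u := Real.log_le_sub_one_of_pos (x := (y + δ) / y) (by positivity)
      rw [Real.log_div (by positivity) y0.ne', add_div, div_self y0.ne'] at u
      have v : δ / y ≤ δ * (L : ℝ) ^ r := by
        rw [div_le_iff₀ y0, mul_assoc]
        exact le_mul_of_one_le_right hδ x2
      rw [Real.log_mul hA.ne' (by positivity)]
      linarith
    generalize A * (y + δ) = c at *
    have s1 : ∑ τ ∈ univ.filter fun τ : Fin n → Fin L => τ i = b,
        Real.log (cent_O V I τ i π).card ≤ ∑ τ ∈ univ.filter fun τ : Fin n → Fin L => τ i = b,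
          (Real.log c - 1 + ((cent_O V I τ i π).card : ℝ) / c) := by
      refine sum_le_sum fun τ _ => ?_
      have p : (0 : ℝ) < (cent_O V I τ i π).card := by exact_mod_cast (hne τ).card_pos
      have u := Real.log_le_sub_one_of_pos (div_pos p c0)
      rw [Real.log_div p.ne' c0.ne'] at u
      linarith
    rw [sum_add_distrib, sum_const, nsmul_eq_mul, k, ← sum_div] at s1
    have s2 := (div_le_iff₀ c0).2 l
    have s3 := mul_le_mul_of_nonneg_left m W0
    linarith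
  rw [← sum_fiberwise univ (fun τ : Fin n → Fin L => τ i)]
  refine (sum_le_sum fun b _ => key b).trans ?_
  rw [← mul_sum, sum_add_distrib, sum_add_distrib, ← mul_sum, sum_const, sum_const, card_univ,
    Fintype.card_fin, nsmul_eq_mul, nsmul_eq_mul]
  have g := mul_le_mul_of_nonneg_left (cent_logs hL) (Nat.cast_nonneg (α := ℝ) r)
  have e : (L : ℝ) ^ n * (Real.log A - r + ε) =
      (L : ℝ) ^ n / L * (L * (Real.log A - r + ε)) := by field_simp
  rw [e]
  exact mul_le_mul_of_nonneg_left (by linarith) W0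

theorem cent_L (r : ℕ) {ε : ℝ} (hε : 0 < ε) :
    ∃ L : ℕ, 1 ≤ L ∧ r * (1 + Real.log L) ≤ L * (ε / 2) := by
  obtain ⟨K, hK⟩ := exists_nat_ge (6 * r / ε)
  rw [div_le_iff₀ hε] at hK
  refine ⟨(K + 1) ^ 2, Nat.one_le_pow _ _ K.succ_pos, ?_⟩
  push_cast
  have K0 : (0 : ℝ) ≤ K := Nat.cast_nonneg _
  have r0 : (0 : ℝ) ≤ r := Nat.cast_nonneg _
  have u := Real.log_le_sub_one_of_pos (x := (K : ℝ) + 1) (by positivity)
  rw [Real.log_pow]
  push_cast
  have a : (r : ℝ) * (1 + 2 * Real.log (K + 1)) ≤ r * (3 * (K + 1)) :=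
    mul_le_mul_of_nonneg_left (by linarith) r0
  have b : 6 * r * ((K : ℝ) + 1) ≤ (K + 1) * ε * (K + 1) :=
    mul_le_mul_of_nonneg_right (by linarith) (by positivity)
  linarith

/-- averaging the Kraft inequality over the labels -/
theorem cent_avg {ι κ : Type} [Fintype ι] [Nonempty ι] (B : Finset κ) (X : ι → κ → ℝ) {μ K : ℝ}
    (h1 : ∀ τ, ∑ π ∈ B, Real.exp (-X τ π) ≤ K)
    (h2 : ∀ π ∈ B, ∑ τ, X τ π ≤ Fintype.card ι * μ) : (B.card : ℝ) ≤ Real.exp μ * K := by
  have W0 : (0 : ℝ) < Fintype.card ι := by exact_mod_cast Fintype.card_pos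
  have a : ∀ π ∈ B, (Fintype.card ι : ℝ) ≤ Real.exp μ * ∑ τ, Real.exp (-X τ π) := by
    intro π hπ
    have b : ∑ τ, (μ - X τ π + 1) ≤ ∑ τ, Real.exp μ * Real.exp (-X τ π) :=
      sum_le_sum fun τ _ => by
        rw [← Real.exp_add]
        exact Real.add_one_le_exp _
    rw [sum_add_distrib, sum_sub_distrib, sum_const, sum_const, card_univ, nsmul_eq_mul,
      nsmul_eq_mul, ← mul_sum] at b
    linarith [h2 π hπ]
  have c := sum_le_sum a
  rw [sum_const, nsmul_eq_mul, ← mul_sum, sum_comm] at c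
  have d := sum_le_sum fun τ (_ : τ ∈ univ) => h1 τ
  rw [sum_const, card_univ, nsmul_eq_mul] at d
  have e := mul_le_mul_of_nonneg_left d (Real.exp_pos μ).le
  exact le_of_mul_le_mul_right (by linarith) W0

theorem entropy (hr : 3 ≤ r) {ε : ℝ} (hε : 0 < ε) :
    ∃ γ : ℝ, 0 < γ ∧ ∀ n : ℕ, 1 ≤ n → ∀ (Y : Finset (Fin n))
      (V : Fin n → Finset (Fin r → Fin n)) (D : Fin n → ℝ), EntHyp r Y V D γ →
      pr (fun π : Cfg n r => ∀ i ∉ Y, (fun a => hd π (i, a)) ∈ V i)
        ≤ (∏ i ∈ Yᶜ, D i / (n : ℝ) ^ r) * Real.exp (r * Y.card + ε * n) := by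
  classical
  obtain ⟨L, hL, h1⟩ := cent_L r hε
  have L0 : (0 : ℝ) < L := by exact_mod_cast hL
  have r0 : (0 : ℝ) < r := by exact_mod_cast (by omega : 0 < r)
  obtain ⟨C, hC⟩ : ∃ C : ℝ, C = ((r : ℝ) * (r + 1)) ^ r * (1 + r ^ 2) := ⟨_, rfl⟩
  have C0 : 0 < C := by rw [hC]; positivity
  obtain ⟨γ, hγ⟩ : ∃ γ : ℝ, γ = ε / 2 / (C * (L : ℝ) ^ r) := ⟨_, rfl⟩
  have γ0 : 0 < γ := by rw [hγ]; positivity
  have h2 : C * γ * (L : ℝ) ^ r ≤ ε / 2 := by
    rw [hγ]
    exact le_of_eq (by field_simp)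
  refine ⟨γ, γ0, fun n hn Y V D ⟨M, hM, H⟩ => ?_⟩
  have n1 : (1 : ℝ) ≤ n := by exact_mod_cast hn
  have D0 : ∀ i ∈ Yᶜ, 0 < D i := fun i hi => by
    have a := (H i (mem_compl.1 hi)).2.1
    have b : 0 < (n : ℝ) ^ (r - 2) * M := by positivity
    exact (mul_pos_iff_of_pos_left γ0).1 (b.trans_le a)
  have : Nonempty (Fin n → Fin L) := ⟨fun _ => ⟨0, hL⟩⟩
  obtain ⟨B, hB⟩ : ∃ B : Finset (Cfg n r),
      B = univ.filter fun π => ∀ i ∉ Y, (fun a => hd π (i, a)) ∈ V i := ⟨_, rfl⟩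
  have mB : ∀ π ∈ B, ∀ i ∈ Yᶜ, (fun a => hd π (i, a)) ∈ V i := fun π hπ i hi => by
    rw [hB] at hπ
    exact (mem_filter.1 hπ).2 i (mem_compl.1 hi)
  have k := cent_avg B (fun (τ : Fin n → Fin L) π => ∑ i ∈ Yᶜ, Real.log (cent_O V Yᶜ τ i π).card)
    (μ := ∑ i ∈ Yᶜ, (Real.log ((r : ℝ) ^ r * D i) - r + ε))
    (fun τ => le_trans (le_of_eq (sum_congr rfl fun π hπ => by
      rw [← sum_neg_distrib, Real.exp_sum]
      refine prod_congr rfl fun i hi => ?_
      have p : (0 : ℝ) < (cent_O V Yᶜ τ i π).card := by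
        exact_mod_cast card_pos.2 ⟨_, cent_mem τ hi (mB π hπ i hi)⟩
      rw [Real.exp_neg, Real.exp_log p, one_div])) (cent_kraft V Yᶜ τ B mB))
    (fun π hπ => by
      rw [sum_comm, mul_sum]
      refine sum_le_sum fun i hi => ?_
      have a := H i (mem_compl.1 hi)
      rw [Fintype.card_fun, Fintype.card_fin, Fintype.card_fin, Nat.cast_pow]
      exact cent_row hL V Yᶜ i π (mul_pos (pow_pos r0 r) (D0 i hi)) (mul_pos C0 γ0).le h1 h2
        (fun τ => ⟨_, cent_mem τ hi (mB π hπ i hi)⟩) fun x x0 x1 => by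
          rw [hC]
          exact cent_cnt hr π i (V i) hM γ0.le a.1 a.2.1 a.2.2 x0 x1)
  have e : pr (fun π : Cfg n r => ∀ i ∉ Y, (fun a => hd π (i, a)) ∈ V i) =
      (B.card : ℝ) / ((n * r).factorial : ℝ) := by
    rw [hB, pr, cnt]
    congr
  have f0 : (0 : ℝ) < ((n * r).factorial : ℝ) := by positivity
  have g : Real.exp (∑ i ∈ Yᶜ, (Real.log ((r : ℝ) ^ r * D i) - r + ε)) =
      (∏ i ∈ Yᶜ, D i / (n : ℝ) ^ r) *
        (((n : ℝ) * r) ^ (Yᶜ.card * r) * Real.exp (Yᶜ.card * (ε - r))) := by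
    rw [Real.exp_sum, Real.exp_nat_mul, mul_comm Yᶜ.card r, pow_mul, ← mul_pow, ← prod_const,
      ← prod_mul_distrib]
    refine prod_congr rfl fun i hi => ?_
    rw [sub_add_eq_add_sub, add_sub_assoc, Real.exp_add,
      Real.exp_log (mul_pos (pow_pos r0 r) (D0 i hi)), mul_pow]
    field_simp
  have P0 : 0 ≤ ∏ i ∈ Yᶜ, D i / (n : ℝ) ^ r :=
    prod_nonneg fun i hi => div_nonneg (D0 i hi).le (by positivity)
  have cY : (Yᶜ.card : ℝ) + Y.card = n := by
    have := card_compl_add_card Y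
    rw [Fintype.card_fin] at this
    exact_mod_cast this
  have q := Real.pow_div_factorial_le_exp ((n : ℝ) * r) (by positivity) (Yᶜ.card * r)
  have q2 : Real.exp ((n : ℝ) * r) * Real.exp (Yᶜ.card * (ε - r)) ≤
      Real.exp (r * Y.card + ε * n) := by
    rw [← Real.exp_add, Real.exp_le_exp, ← cY]
    have : 0 ≤ ε * Y.card := by positivity
    linarith
  rw [e, div_le_iff₀ f0]
  refine k.trans ?_
  rw [g, mul_div_assoc', mul_div_right_comm, mul_div_assoc, mul_div_right_comm]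
  exact mul_le_mul_of_nonneg_right (mul_le_mul_of_nonneg_left
    ((mul_le_mul_of_nonneg_right q (Real.exp_pos _).le).trans q2) P0) f0.le

/-- a labelling `c` of small weight compatible with `π` -/
def Lab (π : Cfg n r) (X Y : Finset (Fin n))
    (V : (Fin n → ℤ × ℤ) → Fin n → Finset (Fin r → Fin n)) (q : ℤ × ℤ → ℝ) (T : Finset (ℤ × ℤ))
    (γ lam : ℝ) : Prop :=
  ∃ c : Fin n → ℤ × ℤ, (∀ i ∈ X, c i = 0) ∧ (∀ i ∉ X, c i ∈ T) ∧
    (∃ D : Fin n → ℝ, EntHyp r Y (V c) D γ ∧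
      ∏ i ∈ Yᶜ, D i / (n : ℝ) ^ r ≤ lam * ∏ i ∈ Xᶜ, q (c i)) ∧
    ∀ i ∉ Y, (fun a => hd π (i, a)) ∈ V c i

theorem case2_count (hr : 3 ≤ r) {ε : ℝ} (hε : 0 < ε) :
    ∃ γ : ℝ, 0 < γ ∧ ∀ n : ℕ, 1 ≤ n → ∀ (X Y : Finset (Fin n))
      (V : (Fin n → ℤ × ℤ) → Fin n → Finset (Fin r → Fin n)) (q : ℤ × ℤ → ℝ)
      (T : Finset (ℤ × ℤ)) (lam : ℝ), (∀ c, 0 ≤ q c) → ∑ c ∈ T, q c ≤ 1 → 0 ≤ lam →
      pr (fun π : Cfg n r => Lab π X Y V q T γ lam) ≤ lam * Real.exp (r * Y.card + ε * n) := by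
  obtain ⟨γ, γ0, H⟩ := entropy hr hε
  refine ⟨γ, γ0, fun n hn X Y V q T lam q0 q1 l0 => ?_⟩
  obtain ⟨S, hS⟩ : ∃ S : Fin n → Finset (ℤ × ℤ), S = fun i => if i ∈ X then {0} else T := ⟨_, rfl⟩
  have E0 := (Real.exp_pos (r * Y.card + ε * n)).le
  have a : pr (fun π : Cfg n r => Lab π X Y V q T γ lam) ≤ _ := (pr_mono (F := fun π =>
      ∃ c ∈ Fintype.piFinset S, (∃ D : Fin n → ℝ, EntHyp r Y (V c) D γ ∧
        ∏ i ∈ Yᶜ, D i / (n : ℝ) ^ r ≤ lam * ∏ i ∈ Xᶜ, q (c i)) ∧
        ∀ i ∉ Y, (fun a => hd π (i, a)) ∈ V c i) fun π ⟨c, c1, c2, c3⟩ =>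
      ⟨c, Fintype.mem_piFinset.2 fun i => by
        rw [hS]
        by_cases hi : i ∈ X
        · simp [hi, c1 i hi]
        · simp [hi, c2 i hi], c3⟩).trans (pr_exists_le _ _)
  refine a.trans ((sum_le_sum (g := fun c => lam * Real.exp (r * Y.card + ε * n) *
    ∏ i, if i ∈ X then 1 else q (c i)) fun c _ => ?_).trans ?_)
  · have e : (∏ i, if i ∈ X then 1 else q (c i)) = ∏ i ∈ Xᶜ, q (c i) := by
      rw [← prod_mul_prod_compl X, prod_congr rfl fun i hi => if_pos hi, prod_const_one, one_mul]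
      exact prod_congr rfl fun i hi => if_neg (mem_compl.1 hi)
    rw [e]
    by_cases h : ∃ D : Fin n → ℝ, EntHyp r Y (V c) D γ ∧
        ∏ i ∈ Yᶜ, D i / (n : ℝ) ^ r ≤ lam * ∏ i ∈ Xᶜ, q (c i)
    · obtain ⟨D, d1, d2⟩ := h
      refine (pr_mono fun π hπ => hπ.2).trans ((H n hn Y (V c) D d1).trans ?_)
      rw [mul_right_comm]
      exact mul_le_mul_of_nonneg_right d2 E0
    · rw [pr_eq_zero fun π hπ => h hπ.1]
      exact mul_nonneg (mul_nonneg l0 E0) (prod_nonneg fun i _ => q0 _)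
  · rw [← mul_sum, ← prod_univ_sum S fun i j => if i ∈ X then 1 else q j]
    refine mul_le_of_le_one_right (mul_nonneg l0 E0) (prod_le_one (fun i _ => ?_) fun i _ => ?_)
    · refine sum_nonneg fun j _ => ?_
      split_ifs
      · exact zero_le_one
      · exact q0 j
    · rw [hS]
      by_cases hi : i ∈ X
      · simp [hi]
      · simpa [hi] using q1

end Pool.Agent.OKM

end FileCEnt

end
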