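import Pool.Agent.MP_5d5bd1_pr.Mg.CaseA
import Pool.Agent.MP_5d5bd1_pr.Mg.KLemB
import Pool.Agent.MP_5d5bd1_pr.Mg.CaseC

-- part MP_5d5bd1_pr.CaseB
section

section FileC1Det

/-!
Case 1 of Theorem C: many rows are redundant given the star constraints.
Let `J = P.image fst ∪ Cn` (`|J| = g + q ≤ 2 g`; `Sparse π⁻¹ J` by `touch_inv` and `Stars`).
`c1_space`: `K0` is the kernel of the linear map
`w ↦ (w on I, app π⁻¹ z w on Jᶜ, (app π⁻¹ z w b + ∑_{p ∈ P, p.2 = b} app π⁻¹ z w p.1)_{b ∈ Cn})`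
(use `kill` three times from `⊤`), of dimension `≥ n - |I| - (n - g - q) - q`. For `w ∈ K0`, by `app_pair`,
`∑ k, w k * app π z y k = ∑ j, app π⁻¹ z w j * y j = ∑_{p ∈ P} app π⁻¹ z w p.1 * (y p.1 - y p.2)`.
`c1_good`: otherwise let `F = I ∪ (Us \ good)`, `|F| ≥ uu n / 2`. With `t = tK C n b`, `b = ⌈n^0.4⌉₊ ≤ g/100`
(`g^2 ≥ n^0.94`), `t ≥ exp (-C (1 + lg n)^2)`, `ε = t / (4 r √n)`: if `w ∈ K0`, `i ∈ Us \ I` and
`‖w i‖ > ε nrm w` then `‖w i‖ ‖app π z y i‖ ≤ nrm w ∑_{k ∉ insert i I} ‖app π z y k‖ + 2 r nrm w ∑_P ‖y p.1 - y p.2‖`,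
so `i` is good as `2r/ε ≤ Xi n / (2n)` eventually. Hence `‖w i‖ ≤ ε nrm w` on `L = F \ I`,
`nrm (onS L w) ≤ √n ε nrm w`, and `zero_out` (for `π⁻¹`, `t = 0`) gives `KS π⁻¹ z J F b t`, contradicting
`KAll` (`40 |J| ≤ 80 g ≤ uu n / 4`, `|J| lg n ≤ n`, `n^(1-c) ≤ uu n / 2`).
-/

open Finset Filter

namespace Pool.Agent.OKM

variable {n r : ℕ}

/-- row `i`, matched to `t`, is controlled by the rows of `Kn` and the star constraints -/
def Good1 (π : Cfg n r) (z : ℂ) (P : Finset (Fin n × Fin n)) (Kn : Finset (Fin n)) (i : Fin n)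
    (t : Fin r → St n r) : Prop :=
  ∀ y : Fin n → ℂ, ‖rowv z t i y‖
    ≤ Xi n / (2 * n) * (∑ k ∈ Kn, ‖app π z y k‖ + ∑ p ∈ P, ‖y p.1 - y p.2‖)

theorem c1det_card {π : Cfg n r} {P : Finset (Fin n × Fin n)} {Cn : Finset (Fin n)}
    (hS : Stars π P Cn) : Disjoint (P.image Prod.fst) Cn ∧
      (P.image Prod.fst ∪ Cn).card = P.card + Cn.card := by
  have hd : Disjoint (P.image Prod.fst) Cn := by
    rw [Finset.disjoint_left]
    intro a ha
    obtain ⟨p, hp, rfl⟩ := Finset.mem_image.1 ha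
    exact hS.2.1 p hp
  refine ⟨hd, ?_⟩
  rw [Finset.card_union_of_disjoint hd,
    Finset.card_image_of_injOn fun p hp p' hp' h => hS.2.2.1 p hp p' hp' h]

theorem c1_space (π : Cfg n r) (z : ℂ) {P : Finset (Fin n × Fin n)} {Cn : Finset (Fin n)}
    (hS : Stars π P Cn) (I : Finset (Fin n)) :
    ∃ K : Submodule ℂ (Fin n → ℂ), P.card ≤ Module.finrank ℂ K + I.card ∧
      (∀ w ∈ K, ∀ i ∈ I, w i = 0) ∧
      (∀ w ∈ K, ∀ j ∉ P.image Prod.fst ∪ Cn, app π⁻¹ z w j = 0) ∧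
      ∀ w ∈ K, ∀ y : Fin n → ℂ,
        ∑ k, w k * app π z y k = ∑ p ∈ P, app π⁻¹ z w p.1 * (y p.1 - y p.2) := by
  obtain ⟨hd, hJ⟩ := c1det_card hS
  obtain ⟨K1, -, d1, h1⟩ := kill_coords (⊤ : Submodule ℂ (Fin n → ℂ)) I
  obtain ⟨K2, l2, d2, h2⟩ := kill K1 (LinearMap.pi
    fun j : ((P.image Prod.fst ∪ Cn)ᶜ : Finset (Fin n)) =>
      (LinearMap.proj (j : Fin n)).comp (appL π⁻¹ z))
  obtain ⟨K3, l3, d3, h3⟩ := kill K2 (LinearMap.pi fun b : Cn =>
      (LinearMap.proj (b : Fin n)).comp (appL π⁻¹ z) +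
        ∑ p ∈ P.filter (fun p => p.2 = (b : Fin n)), (LinearMap.proj p.1).comp (appL π⁻¹ z))
  have hz : ∀ w ∈ K3, ∀ j ∉ P.image Prod.fst ∪ Cn, app π⁻¹ z w j = 0 := fun w hw j hj =>
    congrFun (h2 w (l3 hw)) ⟨j, Finset.mem_compl.2 hj⟩
  refine ⟨K3, ?_, fun w hw => h1 w (l2 (l3 hw)), hz, fun w hw y => ?_⟩
  · have hle : (P.image Prod.fst ∪ Cn).card ≤ n := by
      simpa using Finset.card_le_univ (P.image Prod.fst ∪ Cn)
    rw [finrank_top, Module.finrank_fin_fun] at d1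
    rw [Fintype.card_coe, Finset.card_compl, Fintype.card_fin] at d2
    rw [Fintype.card_coe] at d3
    omega
  · have hb : ∀ b ∈ Cn, app π⁻¹ z w b * y b
        = -∑ p ∈ P.filter (fun p => p.2 = b), app π⁻¹ z w p.1 * y p.2 := fun b hb => by
      have h := congrFun (h3 w hw) ⟨b, hb⟩
      simp only [LinearMap.pi_apply, LinearMap.add_apply, LinearMap.comp_apply,
        LinearMap.proj_apply, appL_apply, LinearMap.sum_apply, Pi.zero_apply] at h
      rw [eq_neg_of_add_eq_zero_left h, neg_mul, Finset.sum_mul]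
      congr 1
      exact Finset.sum_congr rfl fun p hp => by rw [(Finset.mem_filter.1 hp).2]
    rw [app_pair, ← Finset.sum_subset (Finset.subset_univ (P.image Prod.fst ∪ Cn))
      (fun j _ hj => by rw [hz w hw j hj, zero_mul]), Finset.sum_union hd,
      Finset.sum_image fun p hp p' hp' h => hS.2.2.1 p hp p' hp' h, Finset.sum_congr rfl hb,
      Finset.sum_neg_distrib, Finset.sum_fiberwise_of_maps_to hS.1, ← sub_eq_add_neg,
      ← Finset.sum_sub_distrib]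
    exact Finset.sum_congr rfl fun p _ => by ring

/-- a large coordinate of a vector of the left space makes the row good -/
theorem c1det_row (hr : 3 ≤ r) (π : Cfg n r) {z : ℂ} (hz : ‖z‖ ≤ r)
    {P : Finset (Fin n × Fin n)} {I : Finset (Fin n)} {w : Fin n → ℂ} (hI : ∀ i ∈ I, w i = 0)
    (hw : ∀ y : Fin n → ℂ,
      ∑ k, w k * app π z y k = ∑ p ∈ P, app π⁻¹ z w p.1 * (y p.1 - y p.2))
    {ε : ℝ} (hε : 0 < ε) (hX : 2 * r / ε ≤ Xi n / (2 * n)) {i : Fin n} (hi : i ∉ I)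
    (h : ε * nrm w < ‖w i‖) : Good1 π z P (insert i I)ᶜ i (tup π i) := by
  intro y
  rw [← app_eq_rowv]
  have hr' : (3 : ℝ) ≤ r := by exact_mod_cast hr
  have hN0 := nrm_nonneg w
  have hN : 0 < nrm w := lt_of_lt_of_le (lt_of_le_of_lt (by positivity) h) (norm_le_nrm w i)
  obtain ⟨A, hA⟩ : ∃ A, A = ∑ k ∈ (insert i I)ᶜ, ‖app π z y k‖ := ⟨_, rfl⟩
  obtain ⟨B, hB⟩ : ∃ B, B = ∑ p ∈ P, ‖y p.1 - y p.2‖ := ⟨_, rfl⟩
  have hA0 : 0 ≤ A := hA ▸ Finset.sum_nonneg fun _ _ => norm_nonneg _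
  have hB0 : 0 ≤ B := hB ▸ Finset.sum_nonneg fun _ _ => norm_nonneg _
  have e1 : w i * app π z y i = ∑ p ∈ P, app π⁻¹ z w p.1 * (y p.1 - y p.2)
      - ∑ k ∈ (insert i I)ᶜ, w k * app π z y k := by
    rw [← hw y, ← Finset.sum_add_sum_compl (insert i I), Finset.sum_insert hi,
      Finset.sum_eq_zero fun k hk => by rw [hI k hk, zero_mul]]
    ring
  have e2 : ‖∑ k ∈ (insert i I)ᶜ, w k * app π z y k‖ ≤ nrm w * A := by
    rw [hA, Finset.mul_sum]
    refine (norm_sum_le _ _).trans (Finset.sum_le_sum fun k _ => ?_)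
    rw [norm_mul]
    exact mul_le_mul_of_nonneg_right (norm_le_nrm w k) (norm_nonneg _)
  have e3 : ‖∑ p ∈ P, app π⁻¹ z w p.1 * (y p.1 - y p.2)‖ ≤ 2 * r * nrm w * B := by
    rw [hB, Finset.mul_sum]
    refine (norm_sum_le _ _).trans (Finset.sum_le_sum fun p _ => ?_)
    rw [norm_mul]
    refine mul_le_mul_of_nonneg_right ((norm_le_nrm _ _).trans ((nrm_app_le _ _ _).trans ?_))
      (norm_nonneg _)
    exact mul_le_mul_of_nonneg_right (by linarith) hN0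
  have e4 : ‖w i‖ * ‖app π z y i‖ ≤ 2 * r * nrm w * B + nrm w * A := by
    rw [← norm_mul, e1]
    exact (norm_sub_le _ _).trans (add_le_add e3 e2)
  have e5 : nrm w * A ≤ 2 * r * nrm w * A :=
    mul_le_mul_of_nonneg_right (le_mul_of_one_le_left hN0 (by linarith)) hA0
  have e6 : ε * nrm w * ‖app π z y i‖ ≤ ‖w i‖ * ‖app π z y i‖ :=
    mul_le_mul_of_nonneg_right h.le (norm_nonneg _)
  have e7 : ε * ‖app π z y i‖ ≤ 2 * r * (A + B) := by
    refine le_of_mul_le_mul_left ?_ hN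
    linarith
  have e8 : ‖app π z y i‖ ≤ 2 * r / ε * (A + B) := by
    rw [div_mul_eq_mul_div, le_div_iff₀ hε]
    linarith
  rw [← hA, ← hB]
  exact e8.trans (mul_le_mul_of_nonneg_right hX (by linarith))

/-- the numerical inequality between the threshold of Lemma K and `Xi` -/
theorem c1det_num (hr : 3 ≤ r) {C : ℝ} (hC : 0 < C) {b : ℕ} (hb : 1 ≤ b) (hbn : b ≤ n)
    (h1 : 1 ≤ lg n) (h2 : (16 * (r : ℝ) ^ 2 + 2 + 4 * C) * lg n ^ 2 ≤ lg n ^ 3) :
    2 * r / (tK C n b / (4 * r * √(n : ℝ))) ≤ Xi n / (2 * n) := by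
  have hr' : (3 : ℝ) ≤ r := by exact_mod_cast hr
  have hb' : (1 : ℝ) ≤ b := by exact_mod_cast hb
  have hbn' : (b : ℝ) ≤ n := by exact_mod_cast hbn
  have hn : (1 : ℝ) ≤ n := hb'.trans hbn'
  have l0 : 0 ≤ Real.log ((n : ℝ) / b) :=
    Real.log_nonneg ((one_le_div (by linarith)).2 hbn')
  have l1 : Real.log ((n : ℝ) / b) ≤ lg n :=
    Real.log_le_log (by positivity) (div_le_self (by linarith) hb')
  have l2 : (1 + Real.log ((n : ℝ) / b)) ^ 2 ≤ 4 * lg n ^ 2 := by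
    have : (1 + Real.log ((n : ℝ) / b)) ^ 2 ≤ (2 * lg n) ^ 2 :=
      pow_le_pow_left₀ (by linarith) (by linarith) 2
    linarith
  have hs : √(n : ℝ) ≤ n := Real.sqrt_le_iff.2 ⟨by linarith, by nlinarith⟩
  have hs0 : 0 < √(n : ℝ) := Real.sqrt_pos.2 (by linarith)
  have hexp : (n : ℝ) = Real.exp (lg n) := (Real.exp_log (by linarith)).symm
  have hl2 : lg n ≤ lg n ^ 2 := by nlinarith
  have hl3 : (1 : ℝ) ≤ lg n ^ 2 := by nlinarith
  have ht : 0 < tK C n b := Real.exp_pos _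
  have key : 16 * (r : ℝ) ^ 2 * (n * n) ≤ Xi n * tK C n b := by
    have a1 : 16 * (r : ℝ) ^ 2 ≤ Real.exp (16 * (r : ℝ) ^ 2) := by
      linarith [Real.add_one_le_exp (16 * (r : ℝ) ^ 2)]
    have a2 : (n : ℝ) * n = Real.exp (lg n + lg n) := by rw [Real.exp_add, ← hexp]
    have a3 : C * (1 + Real.log ((n : ℝ) / b)) ^ 2 ≤ C * (4 * lg n ^ 2) :=
      mul_le_mul_of_nonneg_left l2 hC.le
    have a4 : 16 * (r : ℝ) ^ 2 ≤ 16 * (r : ℝ) ^ 2 * lg n ^ 2 :=
      le_mul_of_one_le_right (by positivity) hl3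
    calc 16 * (r : ℝ) ^ 2 * (n * n)
        ≤ Real.exp (16 * (r : ℝ) ^ 2) * Real.exp (lg n + lg n) := by
          rw [a2]; exact mul_le_mul_of_nonneg_right a1 (Real.exp_pos _).le
      _ ≤ Xi n * tK C n b := by
          unfold Xi tK
          rw [← Real.exp_add, ← Real.exp_add]
          exact Real.exp_le_exp.2 (by linarith)
  rw [div_div_eq_mul_div, div_le_div_iff₀ ht (by linarith)]
  have : 2 * (r : ℝ) * (4 * r * √(n : ℝ)) * (2 * n) = 16 * r ^ 2 * (√(n : ℝ) * n) := by ring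
  rw [this]
  exact (mul_le_mul_of_nonneg_left (mul_le_mul_of_nonneg_right hs (by linarith))
    (by positivity)).trans key

open Classical in
theorem c1_good (hr : 3 ≤ r) {c C ρ : ℝ} (hc : 0 < c) (hC : 0 < C) (hρ : 0 < ρ) :
    ∀ᶠ n : ℕ in atTop, ∀ π : Cfg n r, KAll c C ρ π⁻¹ → ∀ z ∈ Om r ρ,
      ∀ (P : Finset (Fin n × Fin n)) (Cn : Finset (Fin n)) (M : ℝ), Stars π P Cn →
      StarPar n Cn.card P.card M → ∀ Us : Finset (Fin n), uu n ≤ Us.card →
      ∀ I : Finset (Fin n), 100 * I.card ≤ 99 * P.card →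
        uu n / 2 ≤ (univ.filter fun i => i ∉ I ∧
          (i ∈ Us ∧ Good1 π z P (insert i I)ᶜ i (tup π i))).card := by
  filter_upwards [eventually_ge_atTop 1, ev_le_lg 1,
    ev_lg_pow (16 * (r : ℝ) ^ 2 + 2 + 4 * C) (show 2 < 3 by norm_num),
    ev_poly 200 0 (show (0.4 : ℝ) < 0.47 by norm_num),
    ev_poly 2 2 (show 1 - c < 1 by linarith)] with n hn h1 h2 h3 h4
  intro π hK z hz P Cn M hS hP Us hUs I hI
  by_contra hcon
  rw [not_le] at hcon
  have hr' : (3 : ℝ) ≤ r := by exact_mod_cast hr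
  have hn' : (1 : ℝ) ≤ n := by exact_mod_cast hn
  have hzr := om_norm_le' hρ hz
  obtain ⟨q1, qg, hg, hgu, -⟩ := hP
  obtain ⟨-, hJ⟩ := c1det_card hS
  obtain ⟨K, hd, k1, k2, k3⟩ := c1_space π z hS I
  -- the dimension
  have hg1 : (n : ℝ) ^ (0.47 : ℝ) ≤ P.card := by
    refine (pow_le_pow_iff_left₀ (by positivity) (by positivity) two_ne_zero).1 ?_
    have q1' : (1 : ℝ) ≤ Cn.card := by exact_mod_cast q1
    have e : ((n : ℝ) ^ (0.47 : ℝ)) ^ 2 = (n : ℝ) ^ (0.94 : ℝ) := by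
      rw [← Real.rpow_natCast, ← Real.rpow_mul (by linarith)]; norm_num
    rw [e]
    exact (le_mul_of_one_le_left (by positivity) q1').trans hg
  have hp1 : (1 : ℝ) ≤ (n : ℝ) ^ (0.4 : ℝ) := Real.one_le_rpow hn' (by norm_num)
  obtain ⟨b, hb⟩ : ∃ b, b = ⌈(n : ℝ) ^ (0.4 : ℝ)⌉₊ := ⟨_, rfl⟩
  have hb0 : (n : ℝ) ^ (0.4 : ℝ) ≤ b := hb ▸ Nat.le_ceil _
  have hb1 : 1 ≤ b := by exact_mod_cast hp1.trans hb0
  have hb2 : (b : ℝ) < (n : ℝ) ^ (0.4 : ℝ) + 1 := hb ▸ Nat.ceil_lt_add_one (by positivity)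
  have hb3 : 100 * b ≤ P.card := by
    have : (100 : ℝ) * b ≤ P.card := by
      rw [pow_zero, mul_one] at h3
      linarith
    exact_mod_cast this
  have hb4 : b ≤ Module.finrank ℂ K := by omega
  have hb5 : b ≤ n := by
    have := finrank_add_le K I k1
    omega
  have hX := c1det_num hr hC hb1 hb5 h1 h2
  have ht : 0 < tK C n b := Real.exp_pos _
  have ht1 : tK C n b ≤ 1 := Real.exp_le_one_iff.2 (neg_nonpos.2 (by positivity))
  have hs0 : 0 < √(n : ℝ) := Real.sqrt_pos.2 (by linarith)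
  -- the bad rows
  let L : Finset (Fin n) := univ.filter fun i => i ∉ I ∧
    (i ∈ Us ∧ ¬ Good1 π z P (insert i I)ᶜ i (tup π i))
  have hL : ∀ w ∈ K, nrm (onS L w) ≤ tK C n b / (4 * r) * nrm w := fun w hw => by
    have hN := nrm_nonneg w
    have : nrm (onS L w) ≤ √(Fintype.card (Fin n) : ℝ) *
        (tK C n b / (4 * r * √(n : ℝ)) * nrm w) := by
      refine nrm_le_of_forall (by positivity) fun i => ?_
      unfold onS
      split_ifs with hi
      · obtain ⟨-, i1, -, i2⟩ := Finset.mem_filter.1 hi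
        by_contra hlt
        exact i2 (c1det_row hr π hzr (k1 w hw) (k3 w hw) (by positivity) hX i1 (not_le.1 hlt))
      · rw [norm_zero]; positivity
    rw [Fintype.card_fin] at this
    refine this.trans (le_of_eq ?_)
    field_simp
  have hKS := zero_out π⁻¹ hzr (P.image Prod.fst ∪ Cn) I L K (t := 0)
    (ε := tK C n b / (4 * r)) le_rfl (by positivity)
    (by rw [div_le_iff₀ (by positivity)]; linarith) k1
    (fun w hw => by
      have : offS (P.image Prod.fst ∪ Cn) (app π⁻¹ z w) = 0 := by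
        funext j
        unfold offS
        split_ifs with hj
        · rfl
        · exact k2 w hw j hj
      rw [this, nrm_zero, zero_mul]) hL
  have hF : uu n / 2 ≤ ((I ∪ L).card : ℝ) := by
    have hsub : Us ⊆ (I ∪ L) ∪ univ.filter fun i => i ∉ I ∧
        (i ∈ Us ∧ Good1 π z P (insert i I)ᶜ i (tup π i)) := by
      intro i hi
      simp only [L, Finset.mem_union, Finset.mem_filter, Finset.mem_univ, true_and]
      tauto
    have h5 := (Finset.card_le_card hsub).trans (Finset.card_union_le _ _)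
    have h6 : (Us.card : ℝ) ≤ (I ∪ L).card + (univ.filter fun i => i ∉ I ∧
        (i ∈ Us ∧ Good1 π z P (insert i I)ᶜ i (tup π i))).card := by exact_mod_cast h5
    linarith
  have hl0 : 0 < lg n ^ 2 := by positivity
  have huu : uu n * lg n ^ 2 = n := by unfold uu; field_simp
  have hu0 : 0 ≤ uu n := by unfold uu; positivity
  have hJ2 : ((P.image Prod.fst ∪ Cn).card : ℝ) ≤ 2 * P.card := by
    have : (P.image Prod.fst ∪ Cn).card ≤ 2 * P.card := by omega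
    exact_mod_cast this
  refine hK z hz (P.image Prod.fst ∪ Cn) (I ∪ L) b ?_ hb0 ?_ ?_ ?_ (hKS.mono hb4 (le_of_eq ?_))
  · intro j i hi i' hi' t1 t2
    exact hS.2.2.2 i hi i' hi' ⟨j, (touch_inv π j i).1 t1, (touch_inv π j i').1 t2⟩
  · rw [Real.rpow_one] at h4
    have : (n : ℝ) ^ (1 - c) ≤ uu n / 2 := by
      refine le_of_mul_le_mul_right ?_ hl0
      linarith
    have hb' : (0 : ℝ) ≤ b := Nat.cast_nonneg b
    linarith
  · have : (40 : ℝ) * (P.image Prod.fst ∪ Cn).card ≤ (I ∪ L).card := by linarith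
    exact_mod_cast this
  · have a1 : ((P.image Prod.fst ∪ Cn).card : ℝ) ≤ uu n := by
      have : (0 : ℝ) ≤ P.card := Nat.cast_nonneg _
      linarith
    have a2 : lg n ≤ lg n ^ 2 := by nlinarith
    calc ((P.image Prod.fst ∪ Cn).card : ℝ) * lg n ≤ uu n * lg n ^ 2 :=
          mul_le_mul a1 a2 (by linarith) hu0
      _ = n := huu
  · field_simp
    ring

end Pool.Agent.OKM

end FileC1Det

section FileC1Many

/-!
Case 1 of Theorem C: for a fixed configuration at least half of the samples are good.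
`val_avg`: `∑_ω [ω k ∈ Us] Val ω (ω k) = ∑_{i ∈ Us} ∑_{t valid for i} card {ω | ω k = i, owners of t in range ω}`
and `samp` with `T = own π i t` bounds the last card by `n^m (1/n) (m/n)^|own|`. Split the valid `t` according
to `|own| = r` (at most `r^r Dn ≤ r^r p n^r`, `card_heads`), `= r - 1` (`own2` with `r M`, by `Clus` and
`card_head`: `rowv z (update t a s) i v = v s.1 - ζ`), `= κ ≤ r - 2` (`own1`, `(m/n)^κ n^κ ≤ m^(r-2)`).
`c1_many`: `G = GG g`, `m = mm1 n g`, `q = 1/(2 lg n^2)`. `scan_seq` with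
`Good I i := i ∈ Us ∧ Good1 π z P (insert i I)ᶜ i (tup π i)` and `hgood` from the hypothesis; Markov for
`∑_k [ω k ∈ Us] Val ω (ω k) > 4 m V` (at most a quarter of the `ω`). For `ω` in neither bad set, `opt1 ⊆ Val`
(`Good1` applied to `y = v` gives `≤ Xi/(2n) (n s + g s) ≤ Xi s`), and AM-GM
`∏_{k ∈ T} x_k ≤ (∑_{k ∈ T} x_k / G)^G` (`inner_le_nnorm_mul_nnorm` is not needed; see
`Real.geom_mean_le_arith_mean_weighted`, or use `x ≤ a exp (x/a - 1)` with `a = 4 m V / G`).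
-/

open Finset Filter

namespace Pool.Agent.OKM

variable {n r : ℕ}

def GG (g : ℕ) : ℕ := 99 * g / 100

noncomputable def mm1 (n g : ℕ) : ℕ := ⌈8 * (GG g : ℝ) * lg n ^ 2⌉₊

noncomputable def V1 (r n m : ℕ) (p M : ℝ) : ℝ :=
  (r : ℝ) ^ r * p * (m : ℝ) ^ r + (r : ℝ) ^ 2 * ((r : ℝ) * (r + 1)) ^ r * M * (m : ℝ) ^ (r - 1) / n
    + r * ((r : ℝ) * (r + 1)) ^ r * (m : ℝ) ^ (r - 2)

open Classical in
noncomputable def val1 (π : Cfg n r) (z : ℂ) (v : Fin n → ℂ) (S : ℝ) {m : ℕ} (ω : Fin m → Fin n)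
    (i : Fin n) : ℕ :=
  (univ.filter fun t : Fin r → St n r =>
    (∀ a, ∃ k', ω k' = (π⁻¹ (t a)).1) ∧ ‖rowv z t i v‖ ≤ S).card

open Classical in
noncomputable def opt1 (π : Cfg n r) (z : ℂ) (P : Finset (Fin n × Fin n)) {m : ℕ}
    (ω : Fin m → Fin n) (T : Finset (Fin m)) (k : Fin m) : Finset (Fin r → St n r) :=
  univ.filter fun t => (∀ a, (π⁻¹ (t a)).1 ∈ T.image ω) ∧
    Good1 π z P ((T.filter fun k' => k' ≤ k).image ω)ᶜ (ω k) t

/-- the sample `ω` contains a good removal sequence with few options -/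
def Str1 (π : Cfg n r) (z : ℂ) (P : Finset (Fin n × Fin n)) {m : ℕ} (ω : Fin m → Fin n)
    (T : Finset (Fin m)) (Λ : ℝ) : Prop :=
  Set.InjOn ω T ∧ (∀ k ∈ T, tup π (ω k) ∈ opt1 π z P ω T k) ∧
    ∏ k ∈ T, ((opt1 π z P ω T k).card : ℝ) ≤ Λ

theorem c1many_swap (π : Cfg n r) (z : ℂ) (v : Fin n → ℂ) (S : ℝ) (Us : Finset (Fin n)) {m : ℕ}
    (k : Fin m) :
    ∑ ω : Fin m → Fin n, (if ω k ∈ Us then (val1 π z v S ω (ω k) : ℝ) else 0)
      ≤ ∑ i ∈ Us, ∑ t ∈ univ.filter (fun t : Fin r → St n r => ‖rowv z t i v‖ ≤ S),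
        ((univ.filter fun ω : Fin m → Fin n =>
          ω k = i ∧ ∀ o ∈ own π i t, ∃ k', ω k' = o).card : ℝ) := by
  simp only [card_filter, Nat.cast_sum]
  have hc : ∀ i ∈ Us, (∑ t ∈ univ.filter (fun t : Fin r → St n r => ‖rowv z t i v‖ ≤ S),
      ∑ ω : Fin m → Fin n, ((if ω k = i ∧ ∀ o ∈ own π i t, ∃ k', ω k' = o then 1 else 0 : ℕ) : ℝ))
      = ∑ ω : Fin m → Fin n, ∑ t ∈ univ.filter (fun t : Fin r → St n r => ‖rowv z t i v‖ ≤ S),
        ((if ω k = i ∧ ∀ o ∈ own π i t, ∃ k', ω k' = o then 1 else 0 : ℕ) : ℝ) :=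
    fun i _ => sum_comm
  rw [sum_congr rfl hc, sum_comm]
  refine sum_le_sum fun ω _ => ?_
  split_ifs with hω
  · refine le_trans ?_ (single_le_sum (f := fun i => ∑ t ∈ univ.filter
      (fun t : Fin r → St n r => ‖rowv z t i v‖ ≤ S),
        ((if ω k = i ∧ ∀ o ∈ own π i t, ∃ k', ω k' = o then 1 else 0 : ℕ) : ℝ))
      (fun i _ => sum_nonneg fun t _ => Nat.cast_nonneg _) hω)
    rw [← Nat.cast_sum, ← card_filter, Nat.cast_le]
    refine card_le_card fun t ht => ?_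
    simp only [mem_filter, mem_univ, true_and] at ht ⊢
    refine ⟨ht.2, fun o ho => ?_⟩
    obtain ⟨a, -, rfl⟩ := mem_image.mp (mem_of_mem_erase ho)
    exact ht.1 a
  · exact sum_nonneg fun i _ => sum_nonneg fun t _ => Nat.cast_nonneg _

theorem c1many_samp {m : ℕ} (hn : 0 < n) (k : Fin m) (π : Cfg n r) (i : Fin n)
    (t : Fin r → St n r) :
    ((univ.filter fun ω : Fin m → Fin n =>
      ω k = i ∧ ∀ o ∈ own π i t, ∃ k', ω k' = o).card : ℝ)
      ≤ (n : ℝ) ^ m / n * ((m : ℝ) / n) ^ (own π i t).card := by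
  have h := samp k i (own π i t) (notMem_erase _ _)
  have h' : ((univ.filter fun ω : Fin m → Fin n =>
      ω k = i ∧ ∀ o ∈ own π i t, ∃ k', ω k' = o).card : ℝ) * (n : ℝ) ^ ((own π i t).card + 1)
      ≤ (m : ℝ) ^ (own π i t).card * (n : ℝ) ^ m := by exact_mod_cast h
  have hn' : (0 : ℝ) < n := by exact_mod_cast hn
  rw [← le_div_iff₀ (by positivity)] at h'
  refine h'.trans (le_of_eq ?_)
  rw [div_pow, pow_succ]
  field_simp

theorem c1many_fib (π : Cfg n r) (i : Fin n) (A : Finset (Fin r → St n r)) (w : ℕ → ℝ) :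
    ∑ t ∈ A, w (own π i t).card
      = ∑ κ ∈ range (r + 1), ((A.filter fun t => (own π i t).card = κ).card : ℝ) * w κ := by
  rw [← sum_fiberwise_of_maps_to (g := fun t => (own π i t).card) (t := range (r + 1))
    (fun t _ => mem_range.mpr (Nat.lt_succ_of_le (own_card_le π i t)))]
  refine sum_congr rfl fun κ _ => ?_
  rw [sum_congr rfl (g := fun _ => w κ) (fun t ht => by rw [(mem_filter.mp ht).2]), sum_const,
    nsmul_eq_mul]

theorem c1many_upd (z : ℂ) (v : Fin n → ℂ) {S M : ℝ} (hM : Clus v S M) (i : Fin n) (a : Fin r)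
    (t : Fin r → St n r) :
    ((univ.filter fun s : St n r => ‖rowv z (Function.update t a s) i v‖ ≤ S).card : ℝ)
      ≤ r * M := by
  have e : ∀ s : St n r, rowv z (Function.update t a s) i v
      = v s.1 - (z * v i - ∑ b ∈ univ.erase a, v (t b).1) := by
    intro s
    unfold rowv
    rw [← add_sum_erase univ _ (mem_univ a), Function.update_self,
      sum_congr rfl (g := fun b => v (t b).1)
        (fun b hb => by rw [Function.update_of_ne (ne_of_mem_erase hb)])]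
    ring
  simp only [e]
  rw [card_head (r := r) fun j => ‖v j - (z * v i - ∑ b ∈ univ.erase a, v (t b).1)‖ ≤ S]
  push_cast
  exact mul_le_mul_of_nonneg_left (hM _) (Nat.cast_nonneg _)

theorem c1many_row (hr : 3 ≤ r) (π : Cfg n r) (z : ℂ) (v : Fin n → ℂ) {S p M : ℝ}
    (hM : Clus v S M) {m : ℕ} (hm : 1 ≤ m) (hn : 0 < n) (i : Fin n) (hi : i ∈ unpop r z v S p) :
    ∑ t ∈ univ.filter (fun t : Fin r → St n r => ‖rowv z t i v‖ ≤ S),
      ((m : ℝ) / n) ^ (own π i t).card ≤ V1 r n m p M := by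
  have hn' : (0 : ℝ) < n := by exact_mod_cast hn
  have hm' : (1 : ℝ) ≤ m := by exact_mod_cast hm
  rw [c1many_fib π i _ fun κ => ((m : ℝ) / n) ^ κ]
  obtain ⟨u, rfl⟩ : ∃ u, r = u + 2 := ⟨r - 2, by omega⟩
  rw [sum_range_succ, sum_range_succ]
  have hD : (Dn (u + 2) z v i S : ℝ) ≤ p * (n : ℝ) ^ (u + 2) := (mem_filter.mp hi).2
  have t1 : ((((univ.filter fun t : Fin (u + 2) → St n (u + 2) => ‖rowv z t i v‖ ≤ S).filter
      fun t => (own π i t).card = u + 2).card : ℕ) : ℝ) * ((m : ℝ) / n) ^ (u + 2)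
      ≤ ((u + 2 : ℕ) : ℝ) ^ (u + 2) * p * (m : ℝ) ^ (u + 2) := by
    have h1 := card_heads (n := n) (r := u + 2) fun f => ‖∑ a, v (f a) - z * v i‖ ≤ S
    have h2 : (((univ.filter fun t : Fin (u + 2) → St n (u + 2) => ‖rowv z t i v‖ ≤ S).filter
      fun t => (own π i t).card = u + 2).card : ℕ) ≤ (u + 2) ^ (u + 2) * Dn (u + 2) z v i S :=
      (card_filter_le _ _).trans h1.le
    have h3 : ((((univ.filter fun t : Fin (u + 2) → St n (u + 2) => ‖rowv z t i v‖ ≤ S).filter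
      fun t => (own π i t).card = u + 2).card : ℕ) : ℝ)
      ≤ ((u + 2 : ℕ) : ℝ) ^ (u + 2) * (p * (n : ℝ) ^ (u + 2)) := by
      refine le_trans ?_ (mul_le_mul_of_nonneg_left hD (by positivity))
      exact_mod_cast h2
    refine (mul_le_mul_of_nonneg_right h3 (by positivity)).trans (le_of_eq ?_)
    rw [div_pow]
    field_simp
  have t2 : ((((univ.filter fun t : Fin (u + 2) → St n (u + 2) => ‖rowv z t i v‖ ≤ S).filter
      fun t => (own π i t).card = u + 1).card : ℕ) : ℝ) * ((m : ℝ) / n) ^ (u + 1)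
      ≤ ((u + 2 : ℕ) : ℝ) ^ 2 * (((u + 2 : ℕ) : ℝ) * (((u + 2 : ℕ) : ℝ) + 1)) ^ (u + 2) * M *
        (m : ℝ) ^ (u + 1) / n := by
    have h1 := own2 hr π i (fun t => ‖rowv z t i v‖ ≤ S) (c1many_upd z v hM i)
    rw [filter_filter]
    refine (mul_le_mul_of_nonneg_right h1 (by positivity)).trans (le_of_eq ?_)
    rw [div_pow, show u + 2 - 2 = u from rfl, pow_succ (n : ℝ) u]
    field_simp
  have t3 : ∑ κ ∈ range (u + 1), ((((univ.filter fun t : Fin (u + 2) → St n (u + 2) =>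
      ‖rowv z t i v‖ ≤ S).filter fun t => (own π i t).card = κ).card : ℕ) : ℝ) * ((m : ℝ) / n) ^ κ
      ≤ ((u + 2 : ℕ) : ℝ) * (((u + 2 : ℕ) : ℝ) * (((u + 2 : ℕ) : ℝ) + 1)) ^ (u + 2) *
        (m : ℝ) ^ u := by
    have hb : ∀ κ ∈ range (u + 1), ((((univ.filter fun t : Fin (u + 2) → St n (u + 2) =>
      ‖rowv z t i v‖ ≤ S).filter fun t => (own π i t).card = κ).card : ℕ) : ℝ) * ((m : ℝ) / n) ^ κ
      ≤ (((u + 2 : ℕ) : ℝ) * (((u + 2 : ℕ) : ℝ) + 1)) ^ (u + 2) * (m : ℝ) ^ u := by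
      intro κ hκ
      have hκ' : κ ≤ u := Nat.lt_succ_iff.mp (mem_range.mp hκ)
      have h1 := own1 π i (k := κ) (by omega)
      have h2 : (((univ.filter fun t : Fin (u + 2) → St n (u + 2) =>
        ‖rowv z t i v‖ ≤ S).filter fun t => (own π i t).card = κ).card : ℕ)
        ≤ ((u + 2) * (u + 2 + 1)) ^ (u + 2) * n ^ κ :=
        (card_le_card fun t ht => mem_filter.mpr ⟨mem_univ _, (mem_filter.mp ht).2.le⟩).trans h1
      have h3 : ((((univ.filter fun t : Fin (u + 2) → St n (u + 2) =>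
        ‖rowv z t i v‖ ≤ S).filter fun t => (own π i t).card = κ).card : ℕ) : ℝ)
        ≤ (((u + 2 : ℕ) : ℝ) * (((u + 2 : ℕ) : ℝ) + 1)) ^ (u + 2) * (n : ℝ) ^ κ := by
        exact_mod_cast h2
      refine (mul_le_mul_of_nonneg_right h3 (by positivity)).trans ?_
      rw [mul_assoc, ← mul_pow, mul_div_cancel₀ _ hn'.ne']
      exact mul_le_mul_of_nonneg_left (pow_le_pow_right₀ hm' hκ') (by positivity)
    refine (sum_le_card_nsmul _ _ _ hb).trans ?_
    rw [card_range, nsmul_eq_mul, mul_assoc]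
    refine mul_le_mul_of_nonneg_right ?_ (by positivity)
    exact_mod_cast Nat.le_succ _
  unfold V1
  rw [show u + 2 - 1 = u + 1 from rfl, show u + 2 - 2 = u from rfl]
  linarith

theorem c1many_V_pos (hr : 3 ≤ r) {m : ℕ} (hm : 1 ≤ m) {p M : ℝ} (hp : 0 ≤ p) (hM : 0 ≤ M) :
    0 < V1 r n m p M := by
  have hr' : (0 : ℝ) < r := by exact_mod_cast (by omega : 0 < r)
  have hm' : (0 : ℝ) < m := by exact_mod_cast hm
  unfold V1
  positivity

theorem val_avg (hr : 3 ≤ r) (π : Cfg n r) (z : ℂ) (v : Fin n → ℂ) {S p M : ℝ} (hp : 0 ≤ p)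
    (hM : Clus v S M) {m : ℕ} (hmn : m ≤ n) (k : Fin m) :
    ∑ ω : Fin m → Fin n, (if ω k ∈ unpop r z v S p then (val1 π z v S ω (ω k) : ℝ) else 0)
      ≤ (n : ℝ) ^ m * V1 r n m p M := by
  have hm : 1 ≤ m := k.pos
  have hn : 0 < n := by omega
  have hn' : (0 : ℝ) < n := by exact_mod_cast hn
  have hM0 : 0 ≤ M := (Nat.cast_nonneg _).trans (hM 0)
  have hV := (c1many_V_pos (n := n) hr hm hp hM0).le
  refine (c1many_swap π z v S _ k).trans ?_
  have hb : ∀ i ∈ unpop r z v S p,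
      ∑ t ∈ univ.filter (fun t : Fin r → St n r => ‖rowv z t i v‖ ≤ S),
        ((univ.filter fun ω : Fin m → Fin n =>
          ω k = i ∧ ∀ o ∈ own π i t, ∃ k', ω k' = o).card : ℝ)
      ≤ (n : ℝ) ^ m / n * V1 r n m p M := by
    intro i hi
    refine (sum_le_sum fun t _ => c1many_samp hn k π i t).trans ?_
    rw [← mul_sum]
    exact mul_le_mul_of_nonneg_left (c1many_row hr π z v hM hm hn i hi) (by positivity)
  refine (sum_le_card_nsmul _ _ _ hb).trans ?_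
  have hc : ((unpop r z v S p).card : ℝ) ≤ n := by
    exact_mod_cast (card_le_univ _).trans (Fintype.card_fin n).le
  rw [nsmul_eq_mul]
  refine (mul_le_mul_of_nonneg_right hc (by positivity)).trans (le_of_eq ?_)
  field_simp

theorem c1many_amgm {ι : Type} (T : Finset ι) (x : ι → ℝ) (hx : ∀ k, 0 ≤ x k) {a : ℝ} (ha : 0 < a)
    (h : ∑ k ∈ T, x k ≤ T.card * a) : ∏ k ∈ T, x k ≤ a ^ T.card := by
  have h1 : ∏ k ∈ T, x k ≤ ∏ k ∈ T, (a * Real.exp (x k / a - 1)) := by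
    refine prod_le_prod (fun k _ => hx k) fun k _ => ?_
    have := Real.add_one_le_exp (x k / a - 1)
    rw [sub_add_cancel, div_le_iff₀ ha] at this
    linarith
  rw [prod_mul_distrib, prod_const, ← Real.exp_sum] at h1
  refine h1.trans (mul_le_of_le_one_right (by positivity) (Real.exp_le_one_iff.mpr ?_))
  rw [sum_sub_distrib, ← sum_div, sum_const, nsmul_eq_mul, mul_one, sub_nonpos, div_le_iff₀ ha]
  exact h

theorem c1many_opt (hn : 0 < n) (π : Cfg n r) (z : ℂ) (v : Fin n → ℂ) {s : ℝ}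
    (P : Finset (Fin n × Fin n)) (hs : 0 ≤ s) (hv : ∀ i, ‖app π z v i‖ ≤ s)
    (hP : ∀ x ∈ P, ‖v x.1 - v x.2‖ ≤ s) (hPn : P.card ≤ n) {m : ℕ} (ω : Fin m → Fin n)
    (T : Finset (Fin m)) (k : Fin m) :
    (opt1 π z P ω T k).card ≤ val1 π z v (Xi n * s) ω (ω k) := by
  refine card_le_card fun t ht => ?_
  simp only [opt1, mem_filter, mem_univ, true_and] at ht ⊢
  refine ⟨fun a => ?_, (ht.2 v).trans ?_⟩
  · obtain ⟨k', -, hk'⟩ := mem_image.mp (ht.1 a)
    exact ⟨k', hk'⟩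
  · have hn' : (0 : ℝ) < n := by exact_mod_cast hn
    have hX : 0 < Xi n := Real.exp_pos _
    have h1 : ∀ K : Finset (Fin n), ∑ k ∈ K, ‖app π z v k‖ ≤ n * s := fun K => by
      refine (sum_le_card_nsmul _ _ _ fun i _ => hv i).trans ?_
      rw [nsmul_eq_mul]
      refine mul_le_mul_of_nonneg_right ?_ hs
      exact_mod_cast (card_le_univ _).trans (Fintype.card_fin n).le
    have h2 : ∑ x ∈ P, ‖v x.1 - v x.2‖ ≤ n * s := by
      refine (sum_le_card_nsmul _ _ _ hP).trans ?_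
      rw [nsmul_eq_mul]
      refine mul_le_mul_of_nonneg_right ?_ hs
      exact_mod_cast hPn
    refine (mul_le_mul_of_nonneg_left (add_le_add (h1 _) h2) (by positivity)).trans (le_of_eq ?_)
    field_simp
    ring

theorem c1many_ins {m : ℕ} (ω : Fin m → Fin n) (T : Finset (Fin m)) {k : Fin m} (hk : k ∈ T) :
    insert (ω k) ((T.filter fun k' => k' < k).image ω) = (T.filter fun k' => k' ≤ k).image ω := by
  rw [← image_insert]
  congr 1
  ext j
  simp only [mem_insert, mem_filter]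
  constructor
  · rintro (rfl | ⟨h1, h2⟩)
    · exact ⟨hk, le_rfl⟩
    · exact ⟨h1, h2.le⟩
  · rintro ⟨h1, h2⟩
    rcases h2.eq_or_lt with h | h
    · exact Or.inl h
    · exact Or.inr ⟨h1, h⟩

theorem c1many_markov {ι : Type} [Fintype ι] (f : ι → ℝ) (hf : ∀ ω, 0 ≤ f ω) {a : ℝ} {N : ℕ}
    (ha : 0 < a) (h : ∑ ω, f ω ≤ N * a) : 4 * (univ.filter fun ω => 4 * a < f ω).card ≤ N := by
  have h1 : ((univ.filter fun ω => 4 * a < f ω).card : ℝ) * (4 * a) ≤ ∑ ω, f ω := by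
    rw [← nsmul_eq_mul]
    refine (card_nsmul_le_sum _ _ _ fun ω hω => (mem_filter.mp hω).2.le).trans ?_
    exact sum_le_sum_of_subset_of_nonneg (filter_subset _ _) fun ω _ _ => hf ω
  have h2 : (4 * ((univ.filter fun ω => 4 * a < f ω).card : ℝ)) * a ≤ N * a := by linarith
  exact_mod_cast le_of_mul_le_mul_right h2 ha

theorem c1many_cov {ι : Type} [Fintype ι] (A B C : Finset ι) {N : ℕ} (hN : Fintype.card ι = N)
    (hB : 4 * B.card ≤ N) (hC : 4 * C.card ≤ N) (h : ∀ ω, ω ∈ A ∨ ω ∈ B ∨ ω ∈ C) :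
    N ≤ 2 * A.card := by
  classical
  have h1 : (univ : Finset ι) ⊆ A ∪ (B ∪ C) := fun ω _ => by simpa using h ω
  have hc := (card_le_card h1).trans ((card_union_le _ _).trans
    (Nat.add_le_add_left (card_union_le _ _) _))
  rw [card_univ, hN] at hc
  omega

open Classical in
theorem c1_many (hr : 3 ≤ r) (hn : 3 ≤ n) (π : Cfg n r) (z : ℂ) (v : Fin n → ℂ) {s p M : ℝ}
    (P : Finset (Fin n × Fin n)) (hs : 0 ≤ s) (hp : 0 ≤ p) (hM0 : 0 ≤ M)
    (hv : ∀ i, ‖app π z v i‖ ≤ s) (hP : ∀ x ∈ P, ‖v x.1 - v x.2‖ ≤ s) (hPn : P.card ≤ n)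
    (hG : 1 ≤ GG P.card) (hm : mm1 n P.card ≤ n) (hM : Clus v (Xi n * s) M)
    (hgood : ∀ I : Finset (Fin n), 100 * I.card ≤ 99 * P.card →
      uu n / 2 ≤ (univ.filter fun i => i ∉ I ∧
        (i ∈ unpop r z v (Xi n * s) p ∧ Good1 π z P (insert i I)ᶜ i (tup π i))).card) :
    n ^ mm1 n P.card ≤ 2 * (univ.filter fun ω : Fin (mm1 n P.card) → Fin n =>
      ∃ T : Finset (Fin (mm1 n P.card)), T.card = GG P.card ∧ Str1 π z P ω T
        ((4 * mm1 n P.card * V1 r n (mm1 n P.card) p M / GG P.card) ^ GG P.card)).card := by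
  have hn0 : 0 < n := by omega
  have hlg : 0 < lg n := Real.log_pos (by exact_mod_cast (by omega : 1 < n))
  have hG' : (0 : ℝ) < GG P.card := by exact_mod_cast hG
  have hm8 : 8 * (GG P.card : ℝ) * lg n ^ 2 ≤ mm1 n P.card := Nat.le_ceil _
  have hm0 : (0 : ℝ) < mm1 n P.card := lt_of_lt_of_le (by positivity) hm8
  have hm1 : 1 ≤ mm1 n P.card := by exact_mod_cast hm0
  have hV := c1many_V_pos (n := n) hr hm1 hp hM0
  have hscan := scan_seq hn0
    (fun I i => i ∈ unpop r z v (Xi n * s) p ∧ Good1 π z P (insert i I)ᶜ i (tup π i))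
    (GG P.card) (mm1 n P.card) (q := 1 / (2 * lg n ^ 2)) (by positivity)
    (fun I hI => by
      have h1 := hgood I (by unfold GG at hI; omega)
      refine le_trans (le_of_eq ?_) (h1.trans (le_of_eq ?_))
      · unfold uu; field_simp
      · exact congrArg _ (congrArg _ (filter_congr_decidable _ _ _).symm))
    (by
      rw [one_div_mul_eq_div, le_div_iff₀ (by positivity)]
      linarith)
  generalize mm1 n P.card = m at *
  generalize GG P.card = G at *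
  set F : Fin m → (Fin m → Fin n) → ℝ := fun k ω =>
    if ω k ∈ unpop r z v (Xi n * s) p then (val1 π z v (Xi n * s) ω (ω k) : ℝ) else 0 with hF
  have hF0 : ∀ k ω, 0 ≤ F k ω := fun k ω => by
    simp only [hF]; split_ifs
    · exact Nat.cast_nonneg _
    · exact le_rfl
  have hmk := c1many_markov (fun ω : Fin m → Fin n => ∑ k, F k ω)
    (fun ω => sum_nonneg fun k _ => hF0 k ω) (a := m * V1 r n m p M) (N := n ^ m) (by positivity)
    (by
      rw [sum_comm]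
      refine (sum_le_card_nsmul _ _ _ fun k _ => val_avg hr π z v hp hM hm k).trans (le_of_eq ?_)
      rw [card_univ, Fintype.card_fin, nsmul_eq_mul]
      push_cast
      ring)
  refine c1many_cov _ _ _ (by rw [Fintype.card_fun, Fintype.card_fin, Fintype.card_fin]) hscan hmk
    fun ω => ?_
  · by_contra hc
    simp only [mem_filter, mem_univ, true_and, not_or, not_not, not_lt] at hc
    obtain ⟨hc1, ⟨T, hT, hinj, hgd⟩, hc3⟩ := hc
    refine hc1 ⟨T, hT, hinj, fun k hk => ?_, ?_⟩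
    · simp only [opt1, mem_filter, mem_univ, true_and]
      refine ⟨fun a => ?_, ?_⟩
      · simp only [tup, Equiv.Perm.coe_inv, Equiv.symm_apply_apply]
        exact mem_image_of_mem _ hk
      · rw [← c1many_ins ω T hk]
        exact (hgd k hk).2
    · rw [← hT]
      refine c1many_amgm T _ (fun k => Nat.cast_nonneg _) (by rw [hT]; positivity) ?_
      rw [hT, mul_div_cancel₀ _ hG'.ne', mul_assoc]
      refine le_trans ?_ hc3
      refine le_trans (sum_le_sum fun k hk => ?_)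
        (sum_le_sum_of_subset_of_nonneg (subset_univ T) fun k _ _ => hF0 k ω)
      simp only [hF, if_pos (hgd k hk).1]
      exact_mod_cast c1many_opt hn0 π z v P hs hv hP hPn ω T k

end Pool.Agent.OKM

end FileC1Many

section FileC1Prob

/-!
Case 1 of Theorem C: the union bound.
`str1_pr`: `kraft_seq` with `O k π = opt1 π z P ω T k` (`owner_det` with `I = T.image ω`; `app π z y k`
depends only on the stubs of row `k`); if `ω` is not injective on `T` the event is empty.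
`avg_pr`: double counting `∑_π ∑_ω`.
`c1_fixed`: for fixed `P` with `g = |P|`, `G = GG g`, `m = mm1 n g`, combine `avg_pr`, `pr_exists_le_card` over
`powersetCard G univ` (`C(m, G)` sets) and `str1_pr`.
`c1_num`: `s = g/q ≥ 1`; `C(n,q) C(n q, g) ≤ (e n/q)^q (e n/s)^g ≤ κ^g` with `κ = e^3 n^1.06 / s`
(`n/q ≤ s^2 n^0.06`, `s^(2q) ≤ e^g` since `2 log s ≤ s`); `g ≥ n^0.47`, `g/2 ≤ G ≤ m ≤ 9 G lg^2`,
`g - G ≤ 0.0115 G`, `κ ≤ n^1.1`, so `κ^g ≤ (κ n^0.013)^G`; `C(m,G) ≤ (e m/G)^G`; `(G r)! ≥ (G r/e)^(G r)`;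
`V1 / m^r = r^r p + C M/(n m) + C/m^2` with `κ p = e^3 n^(-0.04)`, `κ M/(n m) ≤ 2 e^3 n^(-0.06)`,
`κ / m^2 ≤ 4 e^3 n^1.06 q / g^3 ≤ 4 e^3 n^(-0.35)`. So everything is at most
`2 (C lg^(2r+4) n^(-0.027))^G ≤ 2 e^(-G)`.
`c1_prob`: in `E1` replace `M` by `g^2 / (q n^0.12)` (`Clus.mono`-like monotonicity of `Str1` in `Λ`, or of
`Clus` in `M`), use `c1_good`, `c1_many` (`mm1 ≤ n` since `320 g ≤ uu n`), and the union bound over
`q, g ≤ n`, `Cn ∈ powersetCard q univ`, `P ∈ powersetCard g (univ ×ˢ Cn)`;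
`(n+1)^2 * 2 exp (-n^0.47/2) ≤ exp (-n^0.4)`.
-/

open Finset Filter

namespace Pool.Agent.OKM

variable {n r : ℕ}

theorem str1_pr (z : ℂ) (P : Finset (Fin n × Fin n)) {m : ℕ} (ω : Fin m → Fin n)
    (T : Finset (Fin m)) {Λ : ℝ} (hΛ : 0 ≤ Λ) :
    pr (fun π : Cfg n r => Str1 π z P ω T Λ) ≤ Λ / ((T.card * r).factorial : ℝ) := by
  by_cases hω : Set.InjOn ω T
  · refine kraft_seq ω T hω _ (fun k π => opt1 π z P ω T k) (fun k _ π π' h => ?_)
      (fun π hπ => hπ.2.1) hΛ fun π hπ => hπ.2.2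
    have h1 : ∀ s : St n r, s.1 ∉ T.image ω → π s = π' s := fun s hs =>
      h s fun h' => hs (image_subset_image (filter_subset _ _) h')
    have h2 : ∀ y : Fin n → ℂ, ∑ i ∈ ((T.filter fun k' => k' ≤ k).image ω)ᶜ, ‖app π z y i‖ =
        ∑ i ∈ ((T.filter fun k' => k' ≤ k).image ω)ᶜ, ‖app π' z y i‖ := fun y =>
      sum_congr rfl fun i hi => by
        have h3 : ∀ a, π (i, a) = π' (i, a) := fun a => h (i, a) (mem_compl.mp hi)
        simp only [app, hd, h3]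
    classical
    ext t
    unfold opt1
    rw [mem_filter, mem_filter]
    simp only [Good1, h2, owner_det (T.image ω) h1]
  · rw [pr_eq_zero fun π hπ => hω hπ.1]
    positivity

open Classical in
theorem avg_pr {W : Type} [Fintype W] [Nonempty W] (E : Cfg n r → Prop) (F : W → Cfg n r → Prop)
    {b : ℝ} (h : ∀ π, E π → Fintype.card W ≤ 2 * (univ.filter fun ω => F ω π).card)
    (hb : ∀ ω, pr (F ω) ≤ b) : pr E ≤ 2 * b := by
  have hW : (0 : ℝ) < Fintype.card W := by exact_mod_cast Fintype.card_pos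
  have hN : (0 : ℝ) < (n * r).factorial := by exact_mod_cast Nat.factorial_pos _
  have h1 : cnt E * Fintype.card W ≤ 2 * ∑ ω, cnt (F ω) := by
    calc cnt E * Fintype.card W = ∑ _π ∈ univ.filter E, Fintype.card W := by
          rw [sum_const, smul_eq_mul, cnt]
      _ ≤ ∑ π ∈ univ.filter E, 2 * (univ.filter fun ω => F ω π).card :=
          sum_le_sum fun π hπ => h π (mem_filter.mp hπ).2
      _ ≤ ∑ π, 2 * (univ.filter fun ω => F ω π).card :=
          sum_le_sum_of_subset (filter_subset _ _)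
      _ = 2 * ∑ ω, cnt (F ω) := by
          rw [← mul_sum]
          simp only [cnt, card_filter]
          rw [sum_comm]
  have h2 : ∑ ω, (cnt (F ω) : ℝ) ≤ Fintype.card W * (b * (n * r).factorial) := by
    refine (sum_le_card_nsmul _ _ (b * (n * r).factorial) fun ω _ => ?_).trans_eq ?_
    · exact (div_le_iff₀ hN).mp (hb ω)
    · rw [nsmul_eq_mul, card_univ]
  have h3 : (cnt E : ℝ) * Fintype.card W ≤ 2 * ∑ ω, (cnt (F ω) : ℝ) := by exact_mod_cast h1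
  rw [pr, div_le_iff₀ hN]
  refine le_of_mul_le_mul_right ?_ hW
  linarith

theorem c1prob_sq_le_exp {s : ℝ} (hs : 0 ≤ s) : s ^ 2 ≤ Real.exp s := by
  have h1 := Real.add_one_le_exp (s / 2 - 1)
  have h2 : Real.exp s = (Real.exp (s / 2 - 1) * Real.exp 1) ^ 2 := by
    rw [← Real.exp_add, ← Real.exp_nat_mul]
    congr 1
    push_cast
    ring
  have h3 : (2 : ℝ) ≤ Real.exp 1 := by linarith [Real.add_one_le_exp (1 : ℝ)]
  rw [h2]
  refine pow_le_pow_left₀ hs ?_ 2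
  have h4 := mul_le_mul h1 h3 (by norm_num) (Real.exp_pos _).le
  linarith

theorem c1prob_choose {q g : ℕ} (hn : 1 ≤ n) (hq : 1 ≤ q) (hqg : q ≤ g)
    (h : q * (n : ℝ) ^ (0.94 : ℝ) ≤ (g : ℝ) ^ 2) :
    (n.choose q : ℝ) * ((n * q).choose g : ℝ) ≤
      (Real.exp 3 * (n : ℝ) ^ (1.06 : ℝ) * q / g) ^ g := by
  have hn0 : (0 : ℝ) < n := by exact_mod_cast hn
  have hn1 : (1 : ℝ) ≤ n := by exact_mod_cast hn
  have hq0 : (0 : ℝ) < q := by exact_mod_cast hq
  have e1 : (n : ℝ) = (n : ℝ) ^ (0.06 : ℝ) * (n : ℝ) ^ (0.94 : ℝ) := by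
    rw [← Real.rpow_add hn0]
    norm_num
  have e2 : (n : ℝ) ^ (1.06 : ℝ) = (n : ℝ) ^ (0.06 : ℝ) * n := by
    rw [← Real.rpow_add_one hn0.ne']
    norm_num
  have ha : (1 : ℝ) ≤ (n : ℝ) ^ (0.06 : ℝ) := Real.one_le_rpow hn1 (by norm_num)
  have he : (1 : ℝ) ≤ Real.exp 1 := Real.one_le_exp zero_le_one
  have h1 : (n : ℝ) ^ (0.94 : ℝ) / q ≤ Real.exp (g / q) := by
    refine le_trans ?_ (c1prob_sq_le_exp (by positivity))
    rw [div_pow, div_le_div_iff₀ hq0 (by positivity)]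
    have := mul_le_mul_of_nonneg_right h hq0.le
    linarith
  have h2 : Real.exp 1 * n / q ≤ Real.exp 1 * (n : ℝ) ^ (0.06 : ℝ) * Real.exp (g / q) := by
    have h3 := mul_le_mul_of_nonneg_left h1
      (by positivity : 0 ≤ Real.exp 1 * (n : ℝ) ^ (0.06 : ℝ))
    refine le_of_eq_of_le ?_ h3
    conv_lhs => rw [e1]
    ring
  have h3 : (n.choose q : ℝ) ≤ (Real.exp 1 * (n : ℝ) ^ (0.06 : ℝ)) ^ g * Real.exp 1 ^ g := by
    refine (choose_le_exp n q).trans ((pow_le_pow_left₀ (by positivity) h2 q).trans ?_)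
    rw [mul_pow _ (Real.exp _), ← Real.exp_nat_mul, ← Real.exp_nat_mul, mul_div_cancel₀ _ hq0.ne',
      mul_one]
    exact mul_le_mul_of_nonneg_right (pow_le_pow_right₀ (one_le_mul_of_one_le_of_one_le he ha) hqg)
      (Real.exp_pos _).le
  refine (mul_le_mul h3 (choose_le_exp (n * q) g) (by positivity) (by positivity)).trans_eq ?_
  have e3 : Real.exp 3 = Real.exp 1 * Real.exp 1 * Real.exp 1 := by
    rw [← Real.exp_add, ← Real.exp_add]
    norm_num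
  rw [← mul_pow, ← mul_pow, e2, e3]
  congr 1
  push_cast
  ring

theorem c1prob_g {q g : ℕ} (hq : 1 ≤ q) (h : q * (n : ℝ) ^ (0.94 : ℝ) ≤ (g : ℝ) ^ 2) :
    (n : ℝ) ^ (0.47 : ℝ) ≤ g := by
  have hq1 : (1 : ℝ) ≤ q := by exact_mod_cast hq
  have e1 : ((n : ℝ) ^ (0.47 : ℝ)) ^ 2 = (n : ℝ) ^ (0.94 : ℝ) := by
    rw [← Real.rpow_natCast, ← Real.rpow_mul (Nat.cast_nonneg n)]
    norm_num
  refine (pow_le_pow_iff_left₀ (by positivity) (by positivity) two_ne_zero).mp ?_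
  rw [e1]
  exact (le_mul_of_one_le_left (by positivity) hq1).trans h

/-- the constant in the bound for `V1` -/
noncomputable def c1prob_C (r : ℕ) : ℝ :=
  (r : ℝ) ^ r + 2 * ((r : ℝ) ^ 2 * ((r : ℝ) * (r + 1)) ^ r) + 4 * (r * ((r : ℝ) * (r + 1)) ^ r)

theorem c1prob_V (hr : 3 ≤ r) {q g m : ℕ} (hn : 1 ≤ n) (hq : 1 ≤ q) (hqg : q ≤ g)
    (h : q * (n : ℝ) ^ (0.94 : ℝ) ≤ (g : ℝ) ^ 2) (hm : (g : ℝ) ≤ 2 * m) :
    (n : ℝ) ^ (1.06 : ℝ) * q / g * V1 r n m (g / q * (n : ℝ) ^ (-1.1 : ℝ))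
      ((g : ℝ) ^ 2 / (q * (n : ℝ) ^ (0.12 : ℝ))) ≤
      (m : ℝ) ^ r * (c1prob_C r * (n : ℝ) ^ (-0.04 : ℝ)) := by
  have hn0 : (0 : ℝ) < n := by exact_mod_cast hn
  have hn1 : (1 : ℝ) ≤ n := by exact_mod_cast hn
  have hq0 : (0 : ℝ) < q := by exact_mod_cast hq
  have hg0 : (0 : ℝ) < g := by exact_mod_cast hq.trans hqg
  have hm0 : (0 : ℝ) < m := by linarith
  have hg := c1prob_g hq h
  obtain ⟨k, rfl⟩ : ∃ k, r = k + 2 := ⟨r - 2, by omega⟩
  have e1 : (n : ℝ) ^ (1.06 : ℝ) * (n : ℝ) ^ (-1.1 : ℝ) = (n : ℝ) ^ (-0.04 : ℝ) := by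
    rw [← Real.rpow_add hn0]
    norm_num
  have e2 : (n : ℝ) ^ (1.06 : ℝ) ≤ (n : ℝ) ^ (-0.04 : ℝ) * ((n : ℝ) ^ (0.12 : ℝ) * n) := by
    rw [← Real.rpow_add_one hn0.ne', ← Real.rpow_add hn0]
    exact Real.rpow_le_rpow_of_exponent_le hn1 (by norm_num)
  have e3 : (n : ℝ) ^ (1.06 : ℝ) ≤
      (n : ℝ) ^ (-0.04 : ℝ) * ((n : ℝ) ^ (0.94 : ℝ) * (n : ℝ) ^ (0.47 : ℝ)) := by
    rw [← Real.rpow_add hn0, ← Real.rpow_add hn0]
    exact Real.rpow_le_rpow_of_exponent_le hn1 (by norm_num)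
  have p1 : 0 < (n : ℝ) ^ (1.06 : ℝ) := by positivity
  have p2 : 0 < (n : ℝ) ^ (-0.04 : ℝ) := by positivity
  have p3 : 0 < (n : ℝ) ^ (0.12 : ℝ) := by positivity
  have p4 : 0 < (n : ℝ) ^ (0.94 : ℝ) := by positivity
  have p5 : 0 < (n : ℝ) ^ (0.47 : ℝ) := by positivity
  unfold V1 c1prob_C
  rw [show k + 2 - 1 = k + 1 from rfl, show k + 2 - 2 = k from rfl]
  generalize (n : ℝ) ^ (1.06 : ℝ) = a at *
  generalize (n : ℝ) ^ (-0.04 : ℝ) = b at *
  generalize (n : ℝ) ^ (0.12 : ℝ) = c at *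
  generalize (n : ℝ) ^ (0.94 : ℝ) = d at *
  generalize (n : ℝ) ^ (0.47 : ℝ) = f at *
  generalize (n : ℝ) ^ (-1.1 : ℝ) = p at *
  have c1 : 0 ≤ ((k + 2 : ℕ) : ℝ) ^ (k + 2) := by positivity
  have c2 : 0 ≤ ((k + 2 : ℕ) : ℝ) ^ 2 * (((k + 2 : ℕ) : ℝ) * ((k + 2 : ℕ) + 1)) ^ (k + 2) := by
    positivity
  have c3 : 0 ≤ ((k + 2 : ℕ) : ℝ) * (((k + 2 : ℕ) : ℝ) * ((k + 2 : ℕ) + 1)) ^ (k + 2) := by
    positivity
  generalize ((k + 2 : ℕ) : ℝ) ^ 2 * (((k + 2 : ℕ) : ℝ) * ((k + 2 : ℕ) + 1)) ^ (k + 2) = C2 at *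
  generalize ((k + 2 : ℕ) : ℝ) * (((k + 2 : ℕ) : ℝ) * ((k + 2 : ℕ) + 1)) ^ (k + 2) = C3 at *
  generalize ((k + 2 : ℕ) : ℝ) ^ (k + 2) = C1 at *
  have t2 : a * g / (c * n) ≤ 2 * m * b := by
    rw [div_le_iff₀ (by positivity)]
    have := mul_le_mul e2 hm hg0.le (by positivity)
    linarith
  have t3 : a * q / g ≤ 4 * m ^ 2 * b := by
    rw [div_le_iff₀ hg0]
    have h1 := mul_le_mul_of_nonneg_right e3 hq0.le
    have h2 := mul_le_mul h hg p5.le (by positivity)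
    have h3 := mul_le_mul_of_nonneg_left h2 p2.le
    have h4 : (g : ℝ) ^ 2 ≤ (2 * m) ^ 2 := pow_le_pow_left₀ hg0.le hm 2
    have h5 := mul_le_mul_of_nonneg_right h4 (by positivity : 0 ≤ b * g)
    linarith
  have e4 : a * q / g * (C1 * (g / q * p) * (m : ℝ) ^ (k + 2) +
      C2 * ((g : ℝ) ^ 2 / (q * c)) * (m : ℝ) ^ (k + 1) / n + C3 * (m : ℝ) ^ k) =
      (m : ℝ) ^ k * (C1 * (a * p) * m ^ 2 + C2 * m * (a * g / (c * n)) + C3 * (a * q / g)) := by
    field_simp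
    ring
  rw [e4, e1, pow_add, mul_assoc ((m : ℝ) ^ k)]
  refine mul_le_mul_of_nonneg_left ?_ (by positivity)
  have u2 := mul_le_mul_of_nonneg_left t2 (mul_nonneg c2 hm0.le)
  have u3 := mul_le_mul_of_nonneg_left t3 c3
  linarith

theorem c1prob_GG {g : ℕ} (hg : 800 ≤ g) :
    1 ≤ GG g ∧ GG g ≤ g ∧ g ≤ 2 * GG g ∧ 87 * (g - GG g) ≤ GG g := by
  unfold GG
  omega

theorem c1_num (hr : 3 ≤ r) : ∀ᶠ n : ℕ in atTop, ∀ (q g : ℕ) (M : ℝ), StarPar n q g M →
    (n.choose q : ℝ) * ((n * q).choose g : ℝ) * (2 * (((mm1 n g).choose (GG g) : ℝ) *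
      ((4 * mm1 n g * V1 r n (mm1 n g) (g / q * (n : ℝ) ^ (-1.1 : ℝ))
        ((g : ℝ) ^ 2 / (q * (n : ℝ) ^ (0.12 : ℝ))) / GG g) ^ GG g / ((GG g * r).factorial : ℝ))))
      ≤ 2 * Real.exp (-((n : ℝ) ^ (0.47 : ℝ) / 2)) := by
  filter_upwards [eventually_ge_atTop 1, ev_le_lg 1, ev_poly 800 0 (show (0 : ℝ) < 0.47 by norm_num),
    ev_poly (Real.exp 3) 0 (show (1.06 : ℝ) < 1.1 by norm_num),
    ev_poly (Real.exp 1 * (4 * Real.exp 1 * 9 ^ (r + 2) * Real.exp 1 ^ r * Real.exp 3 * c1prob_C r))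
      (2 * (r + 2)) (show (0.013 : ℝ) < 0.04 by norm_num)] with n hn hL a1 a2 a3 q g M hS
  obtain ⟨hq, hqg, h94, -⟩ := hS
  have hn0 : (0 : ℝ) < n := by exact_mod_cast hn
  have hn1 : (1 : ℝ) ≤ n := by exact_mod_cast hn
  have hq0 : (0 : ℝ) < q := by exact_mod_cast hq
  have hg := c1prob_g hq h94
  rw [pow_zero, Real.rpow_zero] at a1
  rw [pow_zero, mul_one] at a2
  have hg800 : 800 ≤ g := by
    have : (800 : ℝ) ≤ g := by linarith
    exact_mod_cast this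
  obtain ⟨g1, g2, g3, g4⟩ := c1prob_GG hg800
  have hg0 : (0 : ℝ) < g := by exact_mod_cast hq.trans hqg
  have hG1 : (1 : ℝ) ≤ GG g := by exact_mod_cast g1
  have hG2 : (g : ℝ) ≤ 2 * GG g := by exact_mod_cast g3
  have hL2 : 1 ≤ lg n ^ 2 := one_le_pow₀ hL
  have hGL : (GG g : ℝ) ≤ GG g * lg n ^ 2 := le_mul_of_one_le_right (by linarith) hL2
  have m1 : 8 * (GG g : ℝ) * lg n ^ 2 ≤ mm1 n g := Nat.le_ceil _
  have m2 : (mm1 n g : ℝ) < 8 * (GG g : ℝ) * lg n ^ 2 + 1 := Nat.ceil_lt_add_one (by positivity)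
  have hV := c1prob_V hr (m := mm1 n g) hn hq hqg h94 (by linarith)
  have hC := c1prob_choose hn hq hqg h94
  have hV0 : 0 ≤ V1 r n (mm1 n g) (g / q * (n : ℝ) ^ (-1.1 : ℝ))
      ((g : ℝ) ^ 2 / (q * (n : ℝ) ^ (0.12 : ℝ))) := by
    unfold V1
    positivity
  have hC0 : 0 ≤ c1prob_C r := by
    unfold c1prob_C
    positivity
  have hmG : (mm1 n g : ℝ) / GG g ≤ 9 * lg n ^ 2 := by
    rw [div_le_iff₀ (by linarith)]
    linarith
  generalize V1 r n (mm1 n g) (g / q * (n : ℝ) ^ (-1.1 : ℝ))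
      ((g : ℝ) ^ 2 / (q * (n : ℝ) ^ (0.12 : ℝ))) = V at *
  generalize mm1 n g = m at *
  generalize GG g = G at *
  have hκ : (Real.exp 3 * (n : ℝ) ^ (1.06 : ℝ) * q / g) ^ g ≤
      (Real.exp 3 * (n : ℝ) ^ (1.06 : ℝ) * q / g * (n : ℝ) ^ (0.013 : ℝ)) ^ G := by
    have k1 : Real.exp 3 * (n : ℝ) ^ (1.06 : ℝ) * q / g ≤ (n : ℝ) ^ (1.1 : ℝ) := by
      rw [mul_div_assoc]
      refine le_trans (mul_le_of_le_one_right (by positivity) ?_) a2
      rw [div_le_one hg0]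
      exact_mod_cast hqg
    have k2 : ((n : ℝ) ^ (1.1 : ℝ)) ^ (g - G) ≤ ((n : ℝ) ^ (0.013 : ℝ)) ^ G := by
      rw [← Real.rpow_natCast, ← Real.rpow_natCast, ← Real.rpow_mul hn0.le, ← Real.rpow_mul hn0.le]
      refine Real.rpow_le_rpow_of_exponent_le hn1 ?_
      have k3 : (87 : ℝ) * (g - G : ℕ) ≤ G := by exact_mod_cast g4
      linarith
    rw [mul_pow _ ((n : ℝ) ^ (0.013 : ℝ)), ← pow_mul_pow_sub _ g2]
    exact mul_le_mul_of_nonneg_left ((pow_le_pow_left₀ (by positivity) k1 _).trans k2)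
      (by positivity)
  have hr1 : (1 : ℝ) ≤ r := by exact_mod_cast (by omega : 1 ≤ r)
  have hG0 : (0 : ℝ) < G := by linarith
  have hF : 1 / ((G * r).factorial : ℝ) ≤ ((Real.exp 1 / G) ^ r) ^ G := by
    rw [← pow_mul, mul_comm r G]
    refine (one_div_le_one_div_of_le (by positivity) ((pow_le_pow_left₀ (by positivity)
      (?_ : (G : ℝ) / Real.exp 1 ≤ _) _).trans (pow_le_factorial (G * r)))).trans_eq ?_
    · push_cast
      exact div_le_div_of_nonneg_right (le_mul_of_one_le_right hG0.le hr1) (Real.exp_pos _).le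
    · rw [one_div, ← inv_pow, inv_div]
  have hX : Real.exp 3 * (n : ℝ) ^ (1.06 : ℝ) * q / g * (n : ℝ) ^ (0.013 : ℝ) *
      (Real.exp 1 * m / G * (4 * m * V / G * (Real.exp 1 / G) ^ r)) ≤ Real.exp (-1) := by
    have e1 : Real.exp 3 * (n : ℝ) ^ (1.06 : ℝ) * q / g * (n : ℝ) ^ (0.013 : ℝ) *
        (Real.exp 1 * m / G * (4 * m * V / G * (Real.exp 1 / G) ^ r)) =
        4 * Real.exp 1 * Real.exp 1 ^ r * Real.exp 3 * (n : ℝ) ^ (0.013 : ℝ) * ((m : ℝ) / G) ^ 2 /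
          (G : ℝ) ^ r * ((n : ℝ) ^ (1.06 : ℝ) * q / g * V) := by
      rw [div_pow (Real.exp 1)]
      ring
    have e2 : 4 * Real.exp 1 * Real.exp 1 ^ r * Real.exp 3 * (n : ℝ) ^ (0.013 : ℝ) *
        ((m : ℝ) / G) ^ 2 / (G : ℝ) ^ r * ((m : ℝ) ^ r * (c1prob_C r * (n : ℝ) ^ (-0.04 : ℝ))) =
        4 * Real.exp 1 * Real.exp 1 ^ r * Real.exp 3 * c1prob_C r * (n : ℝ) ^ (0.013 : ℝ) *
          (n : ℝ) ^ (-0.04 : ℝ) * ((m : ℝ) / G) ^ (r + 2) := by
      rw [pow_add, div_pow (m : ℝ) G r]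
      ring
    have e3 : (n : ℝ) ^ (0.04 : ℝ) * (n : ℝ) ^ (-0.04 : ℝ) = 1 := by
      rw [← Real.rpow_add hn0]
      norm_num
    have e4 : Real.exp 1 * Real.exp (-1) = 1 := by
      rw [← Real.exp_add]
      norm_num
    rw [e1]
    refine (mul_le_mul_of_nonneg_left hV (by positivity)).trans ?_
    rw [e2]
    refine (mul_le_mul_of_nonneg_left (pow_le_pow_left₀ (by positivity) hmG _)
      (by positivity)).trans (le_of_mul_le_mul_left ?_ (Real.exp_pos 1))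
    rw [e4]
    refine le_of_eq_of_le ?_ ((mul_le_mul_of_nonneg_right a3 (by positivity)).trans_eq e3)
    rw [mul_pow, ← pow_mul]
    ring
  have hE : Real.exp (-1) ^ G ≤ Real.exp (-((n : ℝ) ^ (0.47 : ℝ) / 2)) := by
    rw [← Real.exp_nat_mul]
    exact Real.exp_le_exp.mpr (by linarith)
  have hY : (m.choose G : ℝ) * ((4 * m * V / G) ^ G / ((G * r).factorial : ℝ)) ≤
      (Real.exp 1 * m / G * (4 * m * V / G * (Real.exp 1 / G) ^ r)) ^ G := by
    rw [mul_pow, mul_pow, div_eq_mul_one_div _ ((G * r).factorial : ℝ)]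
    exact mul_le_mul (choose_le_exp m G) (mul_le_mul_of_nonneg_left hF (by positivity))
      (by positivity) (by positivity)
  have hZ := mul_le_mul (hC.trans hκ) hY (by positivity) (by positivity)
  rw [← mul_pow] at hZ
  have hW := hZ.trans ((pow_le_pow_left₀ (by positivity) hX G).trans hE)
  linarith

open Classical in
/-- at least half of the samples contain a good removal sequence -/
def c1prob_Ev (z : ℂ) (q g : ℕ) (P : Finset (Fin n × Fin n)) (π : Cfg n r) : Prop :=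
  n ^ mm1 n g ≤ 2 * (univ.filter fun ω : Fin (mm1 n g) → Fin n =>
    ∃ T ∈ powersetCard (GG g) (univ : Finset (Fin (mm1 n g))), Str1 π z P ω T
      ((4 * mm1 n g * V1 r n (mm1 n g) (g / q * (n : ℝ) ^ (-1.1 : ℝ))
        ((g : ℝ) ^ 2 / (q * (n : ℝ) ^ (0.12 : ℝ))) / GG g) ^ GG g)).card

theorem c1prob_fixed (hn : 1 ≤ n) (z : ℂ) (q g : ℕ) (P : Finset (Fin n × Fin n)) :
    pr (fun π : Cfg n r => c1prob_Ev z q g P π) ≤ 2 * (((mm1 n g).choose (GG g) : ℝ) *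
      ((4 * mm1 n g * V1 r n (mm1 n g) (g / q * (n : ℝ) ^ (-1.1 : ℝ))
        ((g : ℝ) ^ 2 / (q * (n : ℝ) ^ (0.12 : ℝ))) / GG g) ^ GG g /
          ((GG g * r).factorial : ℝ))) := by
  have : Nonempty (Fin n) := ⟨⟨0, hn⟩⟩
  refine avg_pr (W := Fin (mm1 n g) → Fin n) _
    (fun ω π => ∃ T ∈ powersetCard (GG g) (univ : Finset (Fin (mm1 n g))), Str1 π z P ω T
      ((4 * mm1 n g * V1 r n (mm1 n g) (g / q * (n : ℝ) ^ (-1.1 : ℝ))
        ((g : ℝ) ^ 2 / (q * (n : ℝ) ^ (0.12 : ℝ))) / GG g) ^ GG g)) (fun π hπ => ?_) fun ω => ?_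
  · rw [Fintype.card_fun, Fintype.card_fin, Fintype.card_fin]
    refine le_trans hπ (Nat.mul_le_mul_left 2 (card_le_card fun ω hω => ?_))
    simp only [mem_filter] at hω ⊢
    exact hω
  · refine (pr_exists_le_card _ _ fun T hT => ?_).trans_eq (by
      rw [card_powersetCard, card_univ, Fintype.card_fin])
    rw [← (mem_powersetCard.mp hT).2]
    refine str1_pr z P ω T ?_
    unfold V1
    positivity

theorem c1_prob (hr : 3 ≤ r) {c C ρ : ℝ} (hc : 0 < c) (hC : 0 < C) (hρ : 0 < ρ) :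
    ∀ᶠ n : ℕ in atTop, ∀ z ∈ Om r ρ,
      pr (fun π : Cfg n r => E1 π z ∧ KAll c C ρ π⁻¹) ≤ Real.exp (-((n : ℝ) ^ (0.4 : ℝ))) := by
  filter_upwards [eventually_ge_atTop 8, ev_le_lg 1, c1_num hr, c1_good hr hc hC hρ,
    ev_poly 800 0 (show (0 : ℝ) < 0.47 by norm_num), ev_poly 12 1 (show (0 : ℝ) < 0.47 by norm_num),
    ev_poly 4 0 (show (0.4 : ℝ) < 0.47 by norm_num)] with n hn hL hnum hgood a1 a2 a3 z hz
  have hn0 : (0 : ℝ) < n := by exact_mod_cast (by omega : 0 < n)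
  have hL2 : 1 ≤ lg n ^ 2 := one_le_pow₀ hL
  have h1 : ∀ π : Cfg n r, E1 π z ∧ KAll c C ρ π⁻¹ → ∃ x ∈ range (n + 1) ×ˢ range (n + 1),
      (∃ M, StarPar n x.1 x.2 M) ∧ ∃ Cn ∈ powersetCard x.1 (univ : Finset (Fin n)),
        ∃ P ∈ powersetCard x.2 ((univ : Finset (Fin n)) ×ˢ Cn), c1prob_Ev z x.1 x.2 P π := by
    rintro π ⟨⟨v, s, M, P, Cn, hs, hv, hP, hSt, hS, hM, hU⟩, hK⟩
    have hg := hgood π hK z hz P Cn M hSt hS _ hU
    have hS' := hS
    obtain ⟨hq, hqg, h94, h320, -, -, h12⟩ := hS'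
    have hq0 : (0 : ℝ) < Cn.card := by exact_mod_cast hq
    rw [uu, le_div_iff₀ (by linarith)] at h320
    have hg0 : (0 : ℝ) ≤ P.card := Nat.cast_nonneg _
    have h2 : (P.card : ℝ) ≤ P.card * lg n ^ 2 := le_mul_of_one_le_right hg0 hL2
    have hPn : P.card ≤ n := by
      have : (P.card : ℝ) ≤ n := by linarith
      exact_mod_cast this
    have hg800 : 800 ≤ P.card := by
      have h3 := c1prob_g hq h94
      rw [pow_zero, Real.rpow_zero] at a1
      have : (800 : ℝ) ≤ P.card := by linarith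
      exact_mod_cast this
    obtain ⟨g1, g2, -, -⟩ := c1prob_GG hg800
    have hm : mm1 n P.card ≤ n := by
      refine Nat.ceil_le.mpr ?_
      have h3 : (GG P.card : ℝ) ≤ P.card := by exact_mod_cast g2
      have h4 := mul_le_mul_of_nonneg_right h3 (by linarith : 0 ≤ lg n ^ 2)
      linarith
    have hM' : M ≤ (P.card : ℝ) ^ 2 / (Cn.card * (n : ℝ) ^ (0.12 : ℝ)) := by
      rw [le_div_iff₀ (by positivity), ← mul_assoc]
      exact h12
    have h3 := c1_many hr (by omega) π z v P hs (by positivity) (by positivity) hv hP hPn g1 hm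
      (hM.mono le_rfl hM') hg
    refine ⟨(Cn.card, P.card), mem_product.mpr ⟨mem_range.mpr (by omega), mem_range.mpr (by omega)⟩,
      ⟨M, hS⟩, Cn, mem_powersetCard.mpr ⟨subset_univ _, rfl⟩, P,
      mem_powersetCard.mpr ⟨fun x hx => mem_product.mpr ⟨mem_univ _, hSt.1 x hx⟩, rfl⟩,
      le_trans h3 (Nat.mul_le_mul_left 2 (card_le_card fun ω hω => ?_))⟩
    simp only [mem_filter, mem_powersetCard, subset_univ, true_and] at hω ⊢
    exact hω
  refine (pr_mono h1).trans ((pr_exists_le_card _ _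
    (b := 2 * Real.exp (-((n : ℝ) ^ (0.47 : ℝ) / 2))) fun x _ => ?_).trans ?_)
  · by_cases hx : ∃ M, StarPar n x.1 x.2 M
    · obtain ⟨M, hM⟩ := hx
      refine (pr_mono fun π hπ => hπ.2).trans ((pr_exists_le_card _ _ fun Cn hCn =>
        (pr_exists_le_card _ _ fun P _ => c1prob_fixed (by omega) z x.1 x.2 P).trans_eq (by
          rw [card_powersetCard, card_product, card_univ, Fintype.card_fin,
            (mem_powersetCard.mp hCn).2])).trans ?_)
      rw [card_powersetCard, card_univ, Fintype.card_fin, ← mul_assoc]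
      exact hnum x.1 x.2 M hM
    · rw [pr_eq_zero fun π hπ => hx hπ.1]
      positivity
  · rw [card_product, card_range]
    have hn8 : (8 : ℝ) ≤ n := by exact_mod_cast hn
    have e1 : Real.exp (3 * lg n) = n * n * n := by
      rw [lg, show 3 * Real.log n = Real.log n + Real.log n + Real.log n by ring, Real.exp_add,
        Real.exp_add, Real.exp_log hn0]
    have e2 : (((n + 1) * (n + 1) : ℕ) : ℝ) * 2 ≤ Real.exp (3 * lg n) := by
      rw [e1]
      push_cast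
      have h2 : ((n : ℝ) + 1) * (n + 1) ≤ (2 * n) * (2 * n) :=
        mul_self_le_mul_self (by linarith) (by linarith)
      have h3 := mul_le_mul_of_nonneg_left hn8 (by positivity : (0 : ℝ) ≤ n * n)
      linarith
    rw [← mul_assoc]
    refine (mul_le_mul_of_nonneg_right e2 (Real.exp_pos _).le).trans ?_
    rw [← Real.exp_add]
    rw [pow_one, Real.rpow_zero] at a2
    rw [pow_zero] at a3
    exact Real.exp_le_exp.mpr (by linarith)

end Pool.Agent.OKM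

end FileC1Prob

end

-- part MP_5d5bd1_pr.ThmC
section

section FileC2Det

/-!
Case 2 of Theorem C: encoding an approximate null vector.
`c2_det`: take `C, φ'` from `spread`, `κ` from `tilt` with `δ₀ = ρ` (`om_sq_le`), `θ = κ/2`, `κ₂ = κ^2/8`,
`CX = (r+1)(2r+10)`. Given `E2` put `s = 2 th Xi^l`, `S = Xi s`, `u = uu n`, `δ = 1/lg n`, `B = BB n`, `m = mm2 n`,
`a = 4^k`. `Us = unpop .. S p`, `Un = {i | 2 Dn s < Dn S}` has `|Un| log 2 ≤ r u` (all terms
`log Dn S - log Dn s` are `≥ 0`, `one_le_Dn`, `Dn_mono`). `seeds` with `W = (Us ∪ Un)ᶜ`, `p0 = p/2`,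
`g = ker1 a (· - ζ)`; the failing set has at most `u` elements eventually (`M ≤ p n^1.9`, `p ≥ n^(-1.1)`,
`m ≥ n^0.95/2`). `offset` with `e i = fi s (z v i)`. `X = Us ∪ Un ∪ Fail ∪ {not Inner}`,
`Y = X ∪ outN π⁻¹ X` (rows touching `X`), `c i = co B o (fi s (z v i))` off `X`, `A' = fi s ∘ A` etc.,
`c0 = fi s ζ`, `D i = Dn r z v i S`. For `i ∉ X` the number of pairs with `co (..) = c i` is at least
`(1-δ) m^2 Dn s / n^r > 0` (`co_eq_of_inner`). All kernel errors are at most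
`√a (2B+4) s ≤ n^C (2B+4) s ≤ δ` eventually (`ker1_lip`, `s ≤ 2 exp (-lg^7 + (2 lg^3 + 4) lg^3)`).
`‖ctr (c j)/z - v j‖ ≤ 2 B s/ρ`. `|V2 i| ≤ Dn S` and the codegree bound use `2 R1 ≤ S`. Conclude with `c2_logs`
(`p1 = n^(-r)`, `Z` the denominator of `wq` divided by `m^2`).
-/

open Finset Filter

namespace Pool.Agent.OKM

variable {n r : ℕ}

noncomputable def BB (n : ℕ) : ℕ := ⌈lg n ^ 2⌉₊
noncomputable def mm2 (n : ℕ) : ℕ := ⌊(n : ℝ) ^ (0.95 : ℝ)⌋₊
noncomputable def RR (r n : ℕ) : ℕ := ⌈r / th n⌉₊ + 1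

open Classical in
noncomputable def V2 (r : ℕ) (z : ℂ) (s : ℝ) (B o : ℕ) (R1 : ℝ) (X : Finset (Fin n))
    (c : Fin n → ℤ × ℤ) (i : Fin n) : Finset (Fin r → Fin n) :=
  univ.filter fun f => (∀ a, f a ∉ X) ∧ ‖∑ a, ctr s B o (c (f a)) / z - ctr s B o (c i)‖ ≤ R1

/-- existence of a short description -/
def D2 (π : Cfg n r) (z : ℂ) (ρ θ κ₂ CX γ : ℝ) : Prop :=
  ∃ l ≤ 2 * LL n + 2, ∃ o < BB n, ∃ k ≤ BB n, ∃ c0 ∈ box (RR r n),
    ∃ A A' : Fin (mm2 n) → ℤ × ℤ, (∀ x, A x ∈ box (RR r n)) ∧ (∀ x, A' x ∈ box (RR r n)) ∧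
    ∃ X Y : Finset (Fin n), (X.card : ℝ) ≤ CX * uu n ∧ (Y.card : ℝ) ≤ CX * uu n ∧
      Lab π X Y
        (V2 r z (2 * th n * Xi n ^ l) (BB n) o
          (2 * th n * Xi n ^ l * (1 + 2 * BB n * (1 + r / ρ))) X)
        (wq (2 * th n * Xi n ^ l) (BB n) o (4 ^ k) θ c0 A A') (wT (BB n) o A A') γ
        (Real.exp (-(κ₂ * n)))

theorem c2det_unstable (x y : Fin n → ℕ) {w : ℝ} (h1 : ∀ i, 1 ≤ x i) (hxy : ∀ i, x i ≤ y i)
    (hsum : ∑ i, Real.log (y i) ≤ ∑ i, Real.log (x i) + w) :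
    ((univ.filter fun i => 2 * x i < y i).card : ℝ) ≤ 2 * w := by
  have hpos : ∀ i, (0 : ℝ) < x i := fun i => by exact_mod_cast h1 i
  have hd : ∀ i, 0 ≤ Real.log (y i) - Real.log (x i) := fun i =>
    sub_nonneg.2 (Real.log_le_log (hpos i) (by exact_mod_cast hxy i))
  have h2 : ∑ i ∈ univ.filter fun i => 2 * x i < y i, (1 / 2 : ℝ)
      ≤ ∑ i ∈ univ.filter fun i => 2 * x i < y i, (Real.log (y i) - Real.log (x i)) := by
    refine sum_le_sum fun i hi => ?_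
    have hi' : (2 : ℝ) * x i ≤ y i := by exact_mod_cast (mem_filter.1 hi).2.le
    have h3 : Real.log (2 * x i) ≤ Real.log (y i) :=
      Real.log_le_log (by have := hpos i; positivity) hi'
    rw [Real.log_mul (by norm_num) (hpos i).ne'] at h3
    have := Real.log_two_gt_d9
    linarith
  have h3 : ∑ i ∈ univ.filter fun i => 2 * x i < y i, (Real.log (y i) - Real.log (x i))
      ≤ ∑ i, (Real.log (y i) - Real.log (x i)) :=
    sum_le_sum_of_subset_of_nonneg (subset_univ _) fun i _ _ => hd i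
  have h4 : ∑ i, (Real.log (y i) - Real.log (x i)) ≤ w := by
    rw [sum_sub_distrib]
    linarith
  rw [sum_const, nsmul_eq_mul] at h2
  linarith

theorem c2det_close {z : ℂ} {ρ e : ℝ} (hρ : 0 < ρ) (hz : ρ ≤ ‖z‖) {w x : ℂ}
    (h : ‖w - z * x‖ ≤ e) : ‖w / z - x‖ ≤ e / ρ := by
  have hz0 : z ≠ 0 := by
    intro h0
    rw [h0, norm_zero] at hz
    linarith
  have he : 0 ≤ e := (norm_nonneg _).trans h
  have : w / z - x = (w - z * x) / z := by field_simp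
  rw [this, norm_div]
  exact div_le_div₀ he h hρ hz

theorem c2det_sum_close {ι : Type} [Fintype ι] (f g : ι → ℂ) {e : ℝ} (h : ∀ a, ‖f a - g a‖ ≤ e) :
    ‖∑ a, f a - ∑ a, g a‖ ≤ Fintype.card ι * e := by
  rw [← sum_sub_distrib]
  refine (norm_sum_le _ _).trans ?_
  refine (sum_le_sum fun a _ => h a).trans ?_
  simp

section V2facts
variable {z : ℂ} {ρ s : ℝ} {B o : ℕ} {X : Finset (Fin n)} {c : Fin n → ℤ × ℤ} {v : Fin n → ℂ}

theorem c2det_cmp (hρ : 0 < ρ) (hz : ρ ≤ ‖z‖)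
    (hc : ∀ j ∉ X, ‖ctr s B o (c j) - z * v j‖ ≤ 2 * B * s) {i : Fin n} (hi : i ∉ X)
    {f : Fin r → Fin n} (hf : ∀ a, f a ∉ X) :
    ‖(∑ a, ctr s B o (c (f a)) / z - ctr s B o (c i)) - (∑ a, v (f a) - z * v i)‖
      ≤ s * (2 * B * (1 + r / ρ)) := by
  have h1 := c2det_sum_close (fun a => ctr s B o (c (f a)) / z) (fun a => v (f a))
    (fun a => c2det_close hρ hz (hc _ (hf a)))
  have h2 := hc i hi
  have h3 : (∑ a, ctr s B o (c (f a)) / z - ctr s B o (c i)) - (∑ a, v (f a) - z * v i)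
      = (∑ a, ctr s B o (c (f a)) / z - ∑ a, v (f a)) - (ctr s B o (c i) - z * v i) := by ring
  rw [h3]
  refine (norm_sub_le _ _).trans ?_
  rw [Fintype.card_fin] at h1
  have h4 : s * (2 * B * (1 + r / ρ)) = r * (2 * B * s / ρ) + 2 * B * s := by ring
  linarith

theorem c2det_V2_card (hρ : 0 < ρ) (hz : ρ ≤ ‖z‖) (hs : 0 ≤ s)
    (hc : ∀ j ∉ X, ‖ctr s B o (c j) - z * v j‖ ≤ 2 * B * s) {S : ℝ}
    (hS : 2 * (s * (1 + 2 * B * (1 + r / ρ))) ≤ S) {i : Fin n} (hi : i ∉ X) :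
    (V2 r z s B o (s * (1 + 2 * B * (1 + r / ρ))) X c i).card ≤ Dn r z v i S := by
  classical
  unfold V2 Dn
  refine card_le_card fun f hf => ?_
  rw [mem_filter] at hf ⊢
  refine ⟨mem_univ _, ?_⟩
  have h1 := c2det_cmp hρ hz hc hi hf.2.1
  have h2 := hf.2.2
  have h3 := norm_sub_norm_le (∑ a, v (f a) - z * v i)
    (∑ a, ctr s B o (c (f a)) / z - ctr s B o (c i))
  rw [norm_sub_rev] at h1
  rw [mul_add, mul_one] at hS h2
  linarith

theorem c2det_V2_codeg (hρ : 0 < ρ) (hz : ρ ≤ ‖z‖) (hs : 0 ≤ s) (hr : 1 ≤ r)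
    (hc : ∀ j ∉ X, ‖ctr s B o (c j) - z * v j‖ ≤ 2 * B * s) {S M : ℝ}
    (hS : 2 * (s * (1 + 2 * B * (1 + r / ρ))) ≤ S) (hM : Clus v S M) (i : Fin n) (a : Fin r)
    (f : Fin r → Fin n) :
    ((univ.filter fun j => Function.update f a j ∈
      V2 r z s B o (s * (1 + 2 * B * (1 + r / ρ))) X c i).card : ℝ) ≤ M := by
  classical
  refine le_trans ?_ (hM (ctr s B o (c i) - ∑ b ∈ univ.erase a, ctr s B o (c (f b)) / z))
  refine Nat.cast_le.2 (card_le_card fun j hj => ?_)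
  rw [mem_filter] at hj ⊢
  refine ⟨mem_univ _, ?_⟩
  have hj2 := hj.2
  unfold V2 at hj2
  rw [mem_filter] at hj2
  have hjX : j ∉ X := by
    have := hj2.2.1 a
    rwa [Function.update_self] at this
  have h1 := c2det_close hρ hz (hc j hjX)
  have h2 := hj2.2.2
  rw [← add_sum_erase _ _ (mem_univ a), Function.update_self] at h2
  have h3 : ∑ b ∈ univ.erase a, ctr s B o (c (Function.update f a j b)) / z
      = ∑ b ∈ univ.erase a, ctr s B o (c (f b)) / z :=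
    sum_congr rfl fun b hb => by rw [Function.update_of_ne (ne_of_mem_erase hb)]
  rw [h3] at h2
  have h4 : v j - (ctr s B o (c i) - ∑ b ∈ univ.erase a, ctr s B o (c (f b)) / z)
      = (ctr s B o (c j) / z + ∑ b ∈ univ.erase a, ctr s B o (c (f b)) / z - ctr s B o (c i))
        - (ctr s B o (c j) / z - v j) := by ring
  rw [h4]
  refine (norm_sub_le _ _).trans ?_
  have hr1 : (1 : ℝ) ≤ r := by exact_mod_cast hr
  have h5 : 2 * B * s / ρ ≤ r * (2 * B * s / ρ) := le_mul_of_one_le_left (by positivity) hr1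
  have h6 : s * (1 + 2 * B * (1 + r / ρ)) = s + r * (2 * B * s / ρ) + 2 * B * s := by ring
  have h7 : 0 ≤ 2 * B * s := by positivity
  linarith

theorem c2det_V2_mem (hρ : 0 < ρ) (hz : ρ ≤ ‖z‖) (π : Cfg n r)
    (hc : ∀ j ∉ X, ‖ctr s B o (c j) - z * v j‖ ≤ 2 * B * s) {i : Fin n}
    (hv : ‖app π z v i‖ ≤ s) (hi : i ∉ X ∪ outN π⁻¹ X) :
    (fun a => hd π (i, a)) ∈ V2 r z s B o (s * (1 + 2 * B * (1 + r / ρ))) X c i := by
  classical
  rw [mem_union_outN_inv] at hi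
  have hiX : i ∉ X := fun h => hi ⟨i, h, touch_refl π i⟩
  have hf : ∀ a, hd π (i, a) ∉ X := fun a h => hi ⟨_, h, Or.inr ⟨a, rfl⟩⟩
  unfold V2
  rw [mem_filter]
  refine ⟨mem_univ _, hf, ?_⟩
  have h1 := c2det_cmp hρ hz hc hiX hf
  have h2 : ‖∑ a, v (hd π (i, a)) - z * v i‖ ≤ s := hv
  have h3 := norm_sub_norm_le (∑ a, ctr s B o (c (hd π (i, a))) / z - ctr s B o (c i))
    (∑ a, v (hd π (i, a)) - z * v i)
  rw [mul_add, mul_one]
  linarith

end V2facts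

theorem c2det_psi {s : ℝ} (hs : 0 < s) {B o : ℕ} {a δ e : ℝ} (ha : 0 ≤ a) (ζ w : ℂ) (c : ℤ × ℤ)
    (h : ‖ctr s B o c - w‖ ≤ e) (hδ : √a * (e + 2 * s) ≤ δ) :
    |wpsi s B o a (fi s ζ) c - ker1 a (w - ζ)| ≤ δ := by
  unfold wpsi
  refine (ker1_lip ha _ _).trans (le_trans ?_ hδ)
  refine mul_le_mul_of_nonneg_left ?_ (Real.sqrt_nonneg _)
  have h1 := ctr_fi hs ζ
  have h2 : ctr s B o c - ctr s 1 0 (fi s ζ) - (w - ζ)
      = (ctr s B o c - w) - (ctr s 1 0 (fi s ζ) - ζ) := by ring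
  rw [h2]
  exact (norm_sub_le _ _).trans (add_le_add h h1)

theorem c2det_core (hr : 3 ≤ r) (hn : 1 ≤ n) (π : Cfg n r) {z ζ : ℂ} {v : Fin n → ℂ}
    {ρ s S M p u δ a θ κ γ lam : ℝ} {B m R : ℕ} (hρ : 0 < ρ) (hz : ρ ≤ ‖z‖) (hs : 0 < s)
    (hv : nrm v = 1) (hres : ∀ i, ‖app π z v i‖ ≤ s) (hM : Clus v S M) (hM1 : 1 ≤ M)
    (hS : 2 * (s * (1 + 2 * B * (1 + r / ρ))) ≤ S)
    (hsum : ∑ i, Real.log (Dn r z v i S) ≤ ∑ i, Real.log (Dn r z v i s) + r * u)
    (hU : ((unpop r z v S p).card : ℝ) ≤ u) (hp : 0 < p)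
    (hfail : 2 * n * (2 * M / (n * m) + 1 / (m : ℝ) ^ 2) / (δ ^ 2 * (p / 2)) ≤ u)
    (hm : 6 < m * δ ^ 2) (hδ : 0 < δ) (hδ2 : δ ≤ 1 / 2) (hB : 1 ≤ B) (hBu : (n : ℝ) ≤ u * B)
    (ha : 0 ≤ a) (hlip : √a * (2 * (B + 1) * s + 2 * s) ≤ δ) (hθ : 0 ≤ θ) (hθ1 : θ ≤ 1)
    (htilt : (∑ f : Fin r → Fin n, ker1 a (∑ b, v (f b) - ζ)) / (n : ℝ) ^ r + κ
      ≤ (∑ i, ker1 a (z * v i - ζ)) / n)
    (hζ : ‖ζ‖ ≤ r) (hR : r / s + 1 ≤ R) (hγ : (n : ℝ) ^ (r - 2) * M ≤ γ * (p * (n : ℝ) ^ r))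
    (hγ0 : 0 < γ)
    (hlam : Real.exp (-(n * θ * κ) + n * θ ^ 2 + 5 * δ * n + (r + 1) * (2 * r + 10) * u + r * u
      + (r + 1) * (2 * r + 10) * u * (r * Real.log n)) ≤ lam) :
    ∃ o < B, ∃ c0 ∈ box R, ∃ A A' : Fin m → ℤ × ℤ, (∀ x, A x ∈ box R) ∧ (∀ x, A' x ∈ box R) ∧
      ∃ X Y : Finset (Fin n), (X.card : ℝ) ≤ (r + 1) * (2 * r + 10) * u ∧
        (Y.card : ℝ) ≤ (r + 1) * (2 * r + 10) * u ∧
        Lab π X Y (V2 r z s B o (s * (1 + 2 * B * (1 + r / ρ))) X) (wq s B o a θ c0 A A')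
          (wT B o A A') γ lam := by
  classical
  have hn0 : (0 : ℝ) < n := by exact_mod_cast hn
  have hn1 : (1 : ℝ) ≤ n := by exact_mod_cast hn
  have hr1 : (1 : ℝ) ≤ r := by exact_mod_cast (by omega : 1 ≤ r)
  have hu0 : 0 ≤ u := (Nat.cast_nonneg _).trans hU
  have hnr : (0 : ℝ) < (n : ℝ) ^ r := by positivity
  have hsS : s ≤ S := by
    have : 0 ≤ s * (2 * B * (1 + r / ρ)) := by positivity
    rw [mul_add, mul_one] at hS
    linarith only [this, hS, hs]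
  have hD1 : ∀ i, 1 ≤ Dn r z v i s := fun i => one_le_Dn π (hres i)
  have hDm : ∀ i, Dn r z v i s ≤ Dn r z v i S := fun i => Dn_mono z v i hsS
  have hUn := c2det_unstable _ _ hD1 hDm hsum
  set Us := unpop r z v S p with hUs
  set Un := univ.filter fun i => 2 * Dn r z v i s < Dn r z v i S with hUndef
  have hW : ∀ i ∈ (Us ∪ Un)ᶜ, p / 2 * (n : ℝ) ^ r ≤ Dn r z v i s := by
    intro i hi
    rw [mem_compl, mem_union, not_or] at hi
    have h1 : ¬ ((Dn r z v i S : ℝ) ≤ p * (n : ℝ) ^ r) := fun h =>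
      hi.1 (by rw [hUs]; unfold unpop; exact mem_filter.2 ⟨mem_univ _, h⟩)
    have h2 : ¬ (2 * Dn r z v i s < Dn r z v i S) := fun h =>
      hi.2 (mem_filter.2 ⟨mem_univ _, h⟩)
    have h3 : (Dn r z v i S : ℝ) ≤ 2 * Dn r z v i s := by exact_mod_cast not_lt.1 h2
    linarith only [not_le.1 h1, h3]
  obtain ⟨A, A', hA, hA', hF, hg⟩ := seeds (by omega : 2 ≤ r) hn v
    (fun j => (norm_le_nrm v j).trans hv.le) z (by positivity : 0 < p / 2) hδ
    (hM.mono hsS le_rfl) _ hW (fun w => ker1 a (w - ζ)) (fun w => (ker1_pos ha _).le)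
    (fun w => ker1_le_one ha _) m hm
  set Fl := (Us ∪ Un)ᶜ.filter fun i => ((univ.filter fun p : Fin m × Fin m =>
    ‖A p.1 + A' p.2 - z * v i‖ ≤ s).card : ℝ)
      < (1 - δ) * (m : ℝ) ^ 2 * (Dn r z v i s / (n : ℝ) ^ r) with hFl
  obtain ⟨o, ho, hbd⟩ := offset hB fun i => fi s (z * v i)
  set Bd := univ.filter fun i => ¬ Inner B o (fi s (z * v i)) with hBd
  have hB0 : (0 : ℝ) < B := by exact_mod_cast hB
  have hBd8 : (Bd.card : ℝ) ≤ 8 * u := by
    have h1 : (Bd.card : ℝ) * B ≤ 8 * n := by exact_mod_cast hbd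
    have h2 : (Bd.card : ℝ) * B ≤ 8 * u * B := by linarith only [h1, hBu]
    exact le_of_mul_le_mul_right h2 hB0
  set X := Us ∪ Un ∪ Fl ∪ Bd with hX
  have hXc : (X.card : ℝ) ≤ (2 * r + 10) * u := by
    have h1 : X.card ≤ Us.card + Un.card + Fl.card + Bd.card :=
      (card_union_le _ _).trans (Nat.add_le_add_right ((card_union_le _ _).trans
        (Nat.add_le_add_right (card_union_le _ _) _)) _)
    have h2 : (X.card : ℝ) ≤ Us.card + Un.card + Fl.card + Bd.card := by exact_mod_cast h1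
    linarith only [h2, hU, hUn, hF, hfail, hBd8]
  set Y := X ∪ outN π⁻¹ X with hY
  have hYc : (Y.card : ℝ) ≤ (r + 1) * (2 * r + 10) * u := by
    have h1 : Y.card ≤ X.card + r * X.card :=
      (card_union_le _ _).trans (Nat.add_le_add_left (card_outN_le _ _) _)
    have h2 : (Y.card : ℝ) ≤ X.card + r * X.card := by exact_mod_cast h1
    have h3 := mul_le_mul_of_nonneg_left hXc (Nat.cast_nonneg (α := ℝ) r)
    linarith only [h2, h3, hXc]
  have hXc' : (X.card : ℝ) ≤ (r + 1) * (2 * r + 10) * u :=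
    (Nat.cast_le.2 (card_le_card subset_union_left)).trans hYc
  have hbox : ∀ w : ℂ, ‖w‖ ≤ r → fi s w ∈ box R := fun w hw =>
    fi_mem_box hs (le_trans (by gcongr) hR)
  refine ⟨o, ho, fi s ζ, hbox ζ hζ, fun x => fi s (A x), fun x => fi s (A' x),
    fun x => hbox _ ((hA x).trans hr1), fun x => hbox _ (hA' x), X, Y, hXc', hYc, ?_⟩
  set c : Fin n → ℤ × ℤ := fun i => if i ∈ X then 0 else co B o (fi s (z * v i)) with hc
  have hcX : ∀ i ∉ X, c i = co B o (fi s (z * v i)) := fun i hi => by simp only [hc, if_neg hi]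
  have hclose : ∀ j ∉ X, ‖ctr s B o (c j) - z * v j‖ ≤ 2 * B * s := fun j hj => by
    rw [hcX j hj]; exact ctr_co_fi hs hB o _
  have hm0 : (0 : ℝ) < m := by
    rcases Nat.eq_zero_or_pos m with h | h
    · rw [h] at hm; norm_num at hm
    · exact_mod_cast h
  have hcount : ∀ i ∉ X, (1 - δ) * (m : ℝ) ^ 2 * (Dn r z v i s / (n : ℝ) ^ r)
      ≤ (univ.filter fun q : Fin m × Fin m =>
        co B o (fi s (A q.1) + fi s (A' q.2)) = c i).card := by
    intro i hi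
    have hi' := hi
    rw [hX, mem_union, mem_union, not_or, not_or] at hi'
    have h1 : ¬ (((univ.filter fun p : Fin m × Fin m =>
        ‖A p.1 + A' p.2 - z * v i‖ ≤ s).card : ℝ)
          < (1 - δ) * (m : ℝ) ^ 2 * (Dn r z v i s / (n : ℝ) ^ r)) := fun h =>
      hi'.1.2 (mem_filter.2 ⟨mem_compl.2 hi'.1.1, h⟩)
    have h2 : Inner B o (fi s (z * v i)) := by
      by_contra h
      exact hi'.2 (mem_filter.2 ⟨mem_univ _, h⟩)
    refine (not_lt.1 h1).trans (Nat.cast_le.2 (card_le_card fun q hq => ?_))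
    rw [mem_filter] at hq ⊢
    exact ⟨mem_univ _, by rw [hcX i hi]; exact co_eq_of_inner hs h2 hq.2⟩
  have hXY : X ⊆ Y := subset_union_left
  refine ⟨c, fun i hi => by simp only [hc, if_pos hi], fun i hi => ?_,
    ⟨fun i => Dn r z v i S, ⟨M, hM1, fun i hi => ⟨?_, ?_, fun a f => ?_⟩⟩, ?_⟩, fun i hi => ?_⟩
  · have h1 := hcount i hi
    have h2 : (0 : ℝ) < (1 - δ) * (m : ℝ) ^ 2 * (Dn r z v i s / (n : ℝ) ^ r) := by
      have : (0 : ℝ) < Dn r z v i s := by exact_mod_cast hD1 i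
      have : 0 < 1 - δ := by linarith only [hδ2]
      positivity
    obtain ⟨q, hq⟩ := card_pos.1 (Nat.cast_pos.1 (h2.trans_le h1))
    unfold wT
    exact mem_image.2 ⟨q, mem_univ _, (mem_filter.1 hq).2⟩
  · exact Nat.cast_le.2 (c2det_V2_card hρ hz hs.le hclose hS fun h => hi (hXY h))
  · have h1 : ¬ ((Dn r z v i S : ℝ) ≤ p * (n : ℝ) ^ r) := fun h => hi (hXY (by
      rw [hX]
      refine mem_union_left _ (mem_union_left _ (mem_union_left _ ?_))
      rw [hUs]; unfold unpop; exact mem_filter.2 ⟨mem_univ _, h⟩))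
    exact hγ.trans (mul_le_mul_of_nonneg_left (not_le.1 h1).le hγ0.le)
  · exact c2det_V2_codeg hρ hz hs.le (by omega) hclose hS hM i a f
  · set EQ := (∑ f : Fin r → Fin n, ker1 a (∑ b, v (f b) - ζ)) / (n : ℝ) ^ r with hEQ
    set ψ : Fin n → ℝ := fun i => wpsi s B o a (fi s ζ) (c i) with hψ
    set ZZ := ∑ q : Fin m × Fin m,
      (1 + θ * wpsi s B o a (fi s ζ) (co B o (fi s (A q.1) + fi s (A' q.2)))) with hZZ
    have hEQ0 : 0 ≤ EQ :=
      div_nonneg (sum_nonneg fun f _ => (ker1_pos ha _).le) hnr.le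
    have hψ0 : ∀ c', 0 ≤ wpsi s B o a (fi s ζ) c' := fun c' => (ker1_pos ha _).le
    have hψ1 : ∀ c', wpsi s B o a (fi s ζ) c' ≤ 1 := fun c' => ker1_le_one ha _
    have hm2 : (0 : ℝ) < (m : ℝ) ^ 2 := by positivity
    have hcm : ∑ _q : Fin m × Fin m, (1 : ℝ) = (m : ℝ) ^ 2 := by
      simp [sq]
    have hZ0 : (m : ℝ) ^ 2 ≤ ZZ := by
      rw [← hcm]
      exact sum_le_sum fun q _ => le_add_of_nonneg_right (mul_nonneg hθ (hψ0 _))
    have hZ1 : ZZ ≤ (m : ℝ) ^ 2 * (1 + θ * (EQ + 2 * δ)) := by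
      have h1 : ∀ q : Fin m × Fin m, wpsi s B o a (fi s ζ) (co B o (fi s (A q.1) + fi s (A' q.2)))
          ≤ ker1 a (A q.1 + A' q.2 - ζ) + δ := fun q => by
        have := c2det_psi hs ha ζ (A q.1 + A' q.2) _ (ctr_co_add hs hB o (A q.1) (A' q.2)) hlip
        linarith only [(abs_le.1 this).2]
      have h2 : ∑ q : Fin m × Fin m, wpsi s B o a (fi s ζ) (co B o (fi s (A q.1) + fi s (A' q.2)))
          ≤ (m : ℝ) ^ 2 * (EQ + 2 * δ) := by
        refine (sum_le_sum fun q _ => h1 q).trans ?_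
        rw [sum_add_distrib]
        have h3 : ∑ _q : Fin m × Fin m, δ = (m : ℝ) ^ 2 * δ := by simp [sq]
        rw [h3]
        linarith only [hg]
      rw [hZZ, sum_add_distrib, hcm, ← mul_sum]
      have h3 := mul_le_mul_of_nonneg_left h2 hθ
      linarith only [h3]
    have hψs : n * (EQ + κ) - X.card - n * δ ≤ ∑ i ∈ Xᶜ, ψ i := by
      have h1 : ∀ i ∈ Xᶜ, ker1 a (z * v i - ζ) - δ ≤ ψ i := fun i hi => by
        have h0 : √a * (2 * B * s + 2 * s) ≤ δ := by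
          refine le_trans (mul_le_mul_of_nonneg_left ?_ (Real.sqrt_nonneg _)) hlip
          linarith only [hs]
        have := c2det_psi hs ha ζ (z * v i) _ (hclose i (mem_compl.1 hi)) h0
        linarith only [(abs_le.1 this).1]
      have h2 := sum_le_sum h1
      rw [sum_sub_distrib, sum_const, nsmul_eq_mul] at h2
      have h3 : ∑ i ∈ X, ker1 a (z * v i - ζ) ≤ X.card := by
        refine (sum_le_sum fun i _ => ker1_le_one ha _).trans ?_
        simp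
      have h4 := sum_add_sum_compl X fun i => ker1 a (z * v i - ζ)
      have h5 : (Xᶜ.card : ℝ) ≤ n := by
        have := card_le_univ Xᶜ
        rw [Fintype.card_fin] at this
        exact_mod_cast this
      have h6 : n * (EQ + κ) ≤ ∑ i, ker1 a (z * v i - ζ) := by
        rw [le_div_iff₀ hn0] at htilt
        linarith only [htilt]
      have h7 := mul_le_mul_of_nonneg_right h5 hδ.le
      linarith only [h2, h3, h4, h6, h7]
    have hlog := c2_logs hXY (fun i => Dn r z v i S / (n : ℝ) ^ r)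
      (fun i => Dn r z v i s / (n : ℝ) ^ r) ψ
      (fun i => wq s B o a θ (fi s ζ) (fun x => fi s (A x)) (fun x => fi s (A' x)) (c i))
      (p1 := 1 / (n : ℝ) ^ r) (u := r * u) (δ := δ) (θ := θ) (κ := κ) (EQ := EQ)
      (Z := ZZ / (m : ℝ) ^ 2) (by positivity)
      ((div_le_one hnr).2 (one_le_pow₀ hn1))
      (fun i => div_le_div_of_nonneg_right (by exact_mod_cast hD1 i) hnr.le)
      (fun i => div_le_div_of_nonneg_right (by exact_mod_cast hDm i) hnr.le)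
      (by
        have h1 : ∀ (t : ℝ), s ≤ t → ∑ i, Real.log (Dn r z v i t / (n : ℝ) ^ r)
            = ∑ i, Real.log (Dn r z v i t) - ∑ _i : Fin n, Real.log ((n : ℝ) ^ r) := by
          intro t ht
          rw [← sum_sub_distrib]
          refine sum_congr rfl fun i _ => Real.log_div ?_ hnr.ne'
          have := (hD1 i).trans (Dn_mono (r := r) z v i ht)
          positivity
        rw [h1 S hsS, h1 s le_rfl]
        linarith only [hsum])
      hδ.le hδ2 hθ hθ1 (fun i => hψ0 _) (fun i => hψ1 _) hEQ0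
      (div_pos (hm2.trans_le hZ0) hm2) (by rw [div_le_iff₀ hm2]; linarith only [hZ1]) hψs
      (fun i hi => by
        have h1 := hcount i hi
        have h2 : 0 ≤ 1 + θ * ψ i := add_nonneg zero_le_one (mul_nonneg hθ (hψ0 _))
        have h3 : (1 - δ) * (Dn r z v i s / (n : ℝ) ^ r) * (1 + θ * ψ i) / (ZZ / (m : ℝ) ^ 2)
            = (1 - δ) * (m : ℝ) ^ 2 * (Dn r z v i s / (n : ℝ) ^ r) * (1 + θ * ψ i) / ZZ := by
          have := (hm2.trans_le hZ0).ne'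
          field_simp
        rw [h3]
        unfold wq
        exact div_le_div_of_nonneg_right (mul_le_mul_of_nonneg_right h1 h2)
          (hm2.le.trans hZ0))
    refine hlog.trans (mul_le_mul_of_nonneg_right (le_trans (Real.exp_le_exp.2 ?_) hlam)
      (prod_nonneg fun i _ => wq_nonneg s B o ha hθ _ _ _ _))
    rw [one_div, Real.log_inv, Real.log_pow]
    have h1 : 0 ≤ (r : ℝ) * Real.log n := mul_nonneg (Nat.cast_nonneg _) (Real.log_nonneg hn1)
    have h2 := mul_le_mul_of_nonneg_right hYc h1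
    linarith only [h2, hXc']
  · exact c2det_V2_mem hρ hz π hclose (hres i) hi

theorem c2det_fail {N x l M p m : ℝ} (hx : 1 ≤ x) (hN : N = x ^ 20) (hl : 0 < l)
    (hxl : 32 * l ^ 4 ≤ x) (hm : x ^ 19 / 2 ≤ m) (hM : M ≤ p * x ^ 38) (hp : 1 / x ^ 22 ≤ p) :
    2 * N * (2 * M / (N * m) + 1 / m ^ 2) / ((1 / l) ^ 2 * (p / 2)) ≤ N / l ^ 2 := by
  have hx0 : 0 < x := by linarith
  have hp0 : 0 < p := lt_of_lt_of_le (by positivity) hp
  have hm0 : 0 < m := lt_of_lt_of_le (by positivity) hm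
  have hN0 : 0 < N := by rw [hN]; positivity
  have h1 : 2 * M / (N * m) ≤ 4 * p / x := by
    rw [div_le_div_iff₀ (by positivity) hx0, hN]
    have h2 : 4 * p * (x ^ 20 * (x ^ 19 / 2)) ≤ 4 * p * (x ^ 20 * m) := by gcongr
    have h3 := mul_le_mul_of_nonneg_right hM hx0.le
    linarith only [h2, h3]
  have h2 : 1 / m ^ 2 ≤ 4 * p / x := by
    rw [div_le_div_iff₀ (by positivity) hx0]
    rw [div_le_iff₀ (by positivity)] at hp
    have h3 : (x ^ 19 / 2) ^ 2 ≤ m ^ 2 := by gcongr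
    have h4 : 4 * p * (x ^ 19 / 2) ^ 2 ≤ 4 * p * m ^ 2 := by gcongr
    have h5 : x ≤ x ^ 16 := le_self_pow₀ hx (by norm_num)
    have h6 : 1 * x ^ 16 ≤ p * x ^ 22 * x ^ 16 := by gcongr
    linarith only [h4, h5, h6]
  rw [div_le_div_iff₀ (by positivity) (by positivity)]
  have h3 : 2 * N * (2 * M / (N * m) + 1 / m ^ 2) * l ^ 2 ≤ 2 * N * (8 * p / x) * l ^ 2 := by
    have : 2 * M / (N * m) + 1 / m ^ 2 ≤ 8 * p / x := by
      have : 8 * p / x = 4 * p / x + 4 * p / x := by ring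
      linarith only [this, h1, h2]
    gcongr
  refine h3.trans ?_
  have h4 : 2 * N * (8 * p / x) * l ^ 2 = N * p / (2 * l ^ 2) * (32 * l ^ 4 / x) := by
    field_simp
    ring
  have h5 : N * ((1 / l) ^ 2 * (p / 2)) = N * p / (2 * l ^ 2) := by field_simp
  rw [h4, h5]
  exact mul_le_of_le_one_right (by positivity) ((div_le_one hx0).2 hxl)

theorem c2det_lip {l C sa B L : ℝ} {k : ℕ} (hl : 2 ≤ l) (hC : 0 < C) (hlC : 12 + C ≤ l)
    (hsa : sa ≤ Real.exp (C * l)) (hB0 : 0 ≤ B) (hB : B ≤ l ^ 2 + 1) (hL : L ≤ l ^ 3 + 1)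
    (hk : (k : ℝ) ≤ 2 * L + 2) :
    sa * (2 * (B + 1) * (2 * Real.exp (-(l ^ 7)) * Real.exp (l ^ 3) ^ k)
      + 2 * (2 * Real.exp (-(l ^ 7)) * Real.exp (l ^ 3) ^ k)) ≤ 1 / l := by
  have hl0 : 0 < l := by linarith
  have hl1 : 1 ≤ l := by linarith
  have h2 : 4 ≤ l ^ 2 := by nlinarith
  have h3 : 8 ≤ l ^ 3 := by nlinarith
  have h13 : l ≤ l ^ 6 := le_self_pow₀ hl1 (by norm_num)
  have h36 : l ^ 3 ≤ l ^ 6 := pow_le_pow_right₀ hl1 (by norm_num)
  have hk2 : (k : ℝ) * l ^ 3 ≤ 4 * l ^ 6 := by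
    have : (k : ℝ) ≤ 4 * l ^ 3 := by linarith
    have h := mul_le_mul_of_nonneg_right this (by positivity : 0 ≤ l ^ 3)
    linarith only [h]
  have e1 : Real.exp (l ^ 3) ^ k ≤ Real.exp (4 * l ^ 6) := by
    rw [← Real.exp_nat_mul]
    exact Real.exp_le_exp.2 hk2
  have e2 : 8 * l ^ 3 ≤ Real.exp (8 * l ^ 6) := by
    have := Real.add_one_le_exp (8 * l ^ 6)
    linarith
  rw [le_div_iff₀ hl0]
  have e3 : sa * (2 * (B + 1) * (2 * Real.exp (-(l ^ 7)) * Real.exp (l ^ 3) ^ k)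
      + 2 * (2 * Real.exp (-(l ^ 7)) * Real.exp (l ^ 3) ^ k)) * l
      = sa * ((4 * B + 8) * l) * Real.exp (-(l ^ 7)) * Real.exp (l ^ 3) ^ k := by ring
  have e4 : (4 * B + 8) * l ≤ 8 * l ^ 3 := by
    have : 4 * B + 8 ≤ 8 * l ^ 2 := by linarith
    have h := mul_le_mul_of_nonneg_right this hl0.le
    linarith only [h]
  rw [e3]
  calc sa * ((4 * B + 8) * l) * Real.exp (-(l ^ 7)) * Real.exp (l ^ 3) ^ k
      ≤ Real.exp (C * l) * Real.exp (8 * l ^ 6) * Real.exp (-(l ^ 7)) * Real.exp (4 * l ^ 6) := by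
        gcongr
        exact e4.trans e2
    _ = Real.exp (C * l + 8 * l ^ 6 + -(l ^ 7) + 4 * l ^ 6) := by
        rw [Real.exp_add, Real.exp_add, Real.exp_add]
    _ ≤ 1 := by
        rw [Real.exp_le_one_iff]
        have h5 := mul_le_mul_of_nonneg_left h13 hC.le
        have h6 := mul_le_mul_of_nonneg_right hlC (by positivity : 0 ≤ l ^ 6)
        linarith only [h5, h6]

theorem c2det_lam {N l κ X r : ℝ} (hN : 0 ≤ N) (hl : 1 ≤ l) (hκ : 0 < κ) (hX : 0 ≤ X) (hr : 0 ≤ r)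
    (h : 8 * (5 + X * r + X + r) / κ ^ 2 ≤ l) :
    -(N * (κ / 2) * κ) + N * (κ / 2) ^ 2 + 5 * (1 / l) * N + X * (N / l ^ 2) + r * (N / l ^ 2)
      + X * (N / l ^ 2) * (r * l) ≤ -(κ ^ 2 / 8 * N) := by
  have hl0 : 0 < l := by linarith
  have h1 : N / l ^ 2 ≤ N / l := by
    refine div_le_div_of_nonneg_left hN hl0 ?_
    nlinarith
  have h2 : X * (N / l ^ 2) * (r * l) = X * r * (N / l) := by field_simp
  have h3 : (5 + X * r + X + r) * (N / l) ≤ κ ^ 2 / 8 * N := by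
    rw [div_le_iff₀ (by positivity)] at h
    rw [← mul_div_assoc, div_le_iff₀ hl0]
    have := mul_le_mul_of_nonneg_right h hN
    linarith only [this]
  have h4 := mul_le_mul_of_nonneg_left h1 hX
  have h5 := mul_le_mul_of_nonneg_left h1 hr
  have h6 : 5 * (1 / l) * N = 5 * (N / l) := by ring
  rw [h2, h6]
  linarith only [h3, h4, h5]

theorem c2_det (hr : 3 ≤ r) {ρ φ : ℝ} (hρ : 0 < ρ) (hρ1 : ρ ≤ 1) (hφ : 0 < φ) :
    ∃ θ κ₂ CX : ℝ, 0 ≤ θ ∧ 0 < κ₂ ∧ 0 < CX ∧ ∀ γ : ℝ, 0 < γ → ∀ᶠ n : ℕ in atTop,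
      ∀ (κ : ℝ) (π : Cfg n r), Exp φ κ π → ∀ z ∈ Om r ρ, E2 π z → D2 π z ρ θ κ₂ CX γ := by
  obtain ⟨C, φ', hC, hφ', -, hspread⟩ := spread hr hρ hρ1 hφ
  obtain ⟨κ, hκ, hκ1, htilt⟩ := tilt hr hρ hφ' hC
  refine ⟨κ / 2, κ ^ 2 / 8, (r + 1) * (2 * r + 10), by positivity, by positivity, by positivity,
    fun γ hγ => ?_⟩
  filter_upwards [hspread, htilt, eventually_ge_atTop 1, ev_le_lg 2, ev_le_lg (12 + C),
    ev_le_lg (2 * C), ev_le_lg (2 + 8 * (1 + r / ρ)),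
    ev_le_lg (8 * (5 + (r + 1) * (2 * r + 10) * r + (r + 1) * (2 * r + 10) + r) / κ ^ 2),
    ev_poly 32 4 (by norm_num : (0 : ℝ) < 0.05), ev_poly 13 2 (by norm_num : (0 : ℝ) < 0.95),
    ev_poly (1 / γ) 0 (by norm_num : (1.9 : ℝ) < 2)]
    with n hsp hti hn h2 h12 h2C hΞ hlam hx h13 hγn κ' π hE z hz hE2
  obtain ⟨v, l, M, p, hl, hv, hres, hM, hM1, hMp, hp, hsum, hU⟩ := hE2
  have hn0 : (0 : ℝ) < n := by exact_mod_cast hn
  have hn1 : (1 : ℝ) ≤ n := by exact_mod_cast hn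
  have hl0 : 0 < lg n := by linarith only [h2]
  have hl1 : 1 ≤ lg n := by linarith only [h2]
  have hth : 0 < th n := Real.exp_pos _
  have hXi : 1 ≤ Xi n := Real.one_le_exp (by positivity)
  have hXl : 1 ≤ Xi n ^ l := one_le_pow₀ hXi
  have hs2 : 2 * th n ≤ 2 * th n * Xi n ^ l := le_mul_of_one_le_right (by positivity) hXl
  have hs : 0 < 2 * th n * Xi n ^ l := by positivity
  rw [Real.rpow_zero, mul_one] at hx h13
  have hsm : 2 * th n ≤ (n : ℝ) ^ (-C) := by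
    rw [rpow_eq_exp_lg hn]
    unfold th
    have h1 : (2 : ℝ) ≤ Real.exp 1 := by
      have := Real.add_one_le_exp 1
      linarith only [this]
    refine (mul_le_mul_of_nonneg_right h1 (Real.exp_pos _).le).trans ?_
    rw [← Real.exp_add, Real.exp_le_exp]
    have h3 : lg n ^ 2 ≤ lg n ^ 7 := pow_le_pow_right₀ hl1 (by norm_num)
    have h4 := mul_le_mul_of_nonneg_right h12 hl0.le
    nlinarith only [h3, h4, hl1]
  obtain ⟨k, ζ, hk, hζ, hgap⟩ := hti v z hv (om_sq_le (by omega) hρ hρ1 hz)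
    (hsp κ' π hE z hz v hv (hres.trans hsm))
  have hB2 : lg n ^ 2 ≤ BB n := Nat.le_ceil _
  have hB3 : (BB n : ℝ) ≤ lg n ^ 2 + 1 := (Nat.ceil_lt_add_one (by positivity)).le
  have hl2 : 1 ≤ lg n ^ 2 := one_le_pow₀ hl1
  have hB1 : 1 ≤ BB n := by exact_mod_cast hl2.trans hB2
  rw [rpow_eq_exp_lg hn] at hk
  have hkB : k ≤ BB n := by
    have h1 : Real.exp 1 ≤ 4 := Real.exp_one_lt_d9.le.trans (by norm_num)
    have h3 : Real.exp (k * 1) ≤ Real.exp (2 * C * lg n) := by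
      rw [Real.exp_nat_mul]
      exact (pow_le_pow_left₀ (Real.exp_pos _).le h1 k).trans hk
    rw [Real.exp_le_exp] at h3
    have h4 := mul_le_mul_of_nonneg_right h2C hl0.le
    have h5 : (k : ℝ) ≤ BB n := by linarith only [h3, h4, hB2]
    exact_mod_cast h5
  have hxx : 1 ≤ (n : ℝ) ^ (0.05 : ℝ) := Real.one_le_rpow hn1 (by norm_num)
  have hpw : ∀ (j : ℕ) (t : ℝ), t = 0.05 * j → (n : ℝ) ^ t = ((n : ℝ) ^ (0.05 : ℝ)) ^ j := by
    intro j t ht
    rw [ht, Real.rpow_mul_natCast hn0.le]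
  have h95 := hpw 19 0.95 (by norm_num)
  have hm1 : (n : ℝ) ^ (0.95 : ℝ) / 2 ≤ mm2 n := by
    have h1 := Nat.lt_floor_add_one ((n : ℝ) ^ (0.95 : ℝ))
    unfold mm2
    linarith only [h1, h13, hl2]
  have hp0 : 0 < p := lt_of_lt_of_le (Real.rpow_pos_of_pos hn0 _) hp
  obtain ⟨o, ho, c0, hc0, A, A', hA, hA', X, Y, hX, hY, hLab⟩ :=
    c2det_core (u := uu n) (δ := 1 / lg n) (θ := κ / 2) (B := BB n) (m := mm2 n) (R := RR r n)
      (lam := Real.exp (-(κ ^ 2 / 8 * n))) hr hn π hρ (om_le_norm hz) hs hv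
      (fun i => (norm_le_nrm _ i).trans (hres.trans hs2)) hM hM1
      (by
        have h1 : lg n ^ 3 ≤ Xi n := by
          have := Real.add_one_le_exp (lg n ^ 3)
          unfold Xi
          linarith only [this]
        have h3 : 0 ≤ 1 + r / ρ := by positivity
        have h4 : (BB n : ℝ) * (1 + r / ρ) ≤ 2 * lg n ^ 2 * (1 + r / ρ) :=
          mul_le_mul_of_nonneg_right (by linarith only [hB3, hl2]) h3
        have h5 := mul_le_mul_of_nonneg_right hΞ (by positivity : 0 ≤ lg n ^ 2)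
        have h6 : 2 * (1 + 2 * BB n * (1 + r / ρ)) ≤ Xi n := by
          linarith only [h1, h4, h5, hl2]
        have h7 := mul_le_mul_of_nonneg_right h6 hs.le
        linarith only [h7])
      hsum hU hp0
      (c2det_fail hxx (by rw [← hpw 20 1 (by norm_num), Real.rpow_one]) hl0 hx
        (by rw [← h95]; exact hm1) (by rw [← hpw 38 1.9 (by norm_num)]; exact hMp)
        (by
          rw [← hpw 22 1.1 (by norm_num), one_div, ← Real.rpow_neg hn0.le]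
          exact hp))
      (by
        rw [one_div, inv_pow, ← div_eq_mul_inv, lt_div_iff₀ (by positivity)]
        linarith only [hm1, h13, hl2])
      (by positivity) (one_div_le_one_div_of_le (by norm_num) h2) hB1
      (by
        unfold uu
        rw [div_mul_eq_mul_div, le_div_iff₀ (by positivity)]
        exact mul_le_mul_of_nonneg_left hB2 hn0.le)
      (by positivity)
      (c2det_lip (L := LL n) h2 hC h12
        (by
          rw [Real.sqrt_le_left (Real.exp_pos _).le, ← Real.exp_nat_mul]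
          refine hk.trans (le_of_eq ?_)
          congr 1
          push_cast
          ring)
        (Nat.cast_nonneg _) hB3 (Nat.ceil_lt_add_one (by positivity)).le (by exact_mod_cast hl))
      (by positivity) (by linarith only [hκ1]) hgap hζ
      (by
        unfold RR
        push_cast
        have h1 : (r : ℝ) / (2 * th n * Xi n ^ l) ≤ r / th n :=
          div_le_div_of_nonneg_left (Nat.cast_nonneg _) hth (by linarith only [hs2, hth])
        linarith only [h1, Nat.le_ceil ((r : ℝ) / th n)])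
      (by
        rw [pow_zero, mul_one, Real.rpow_two, one_div, inv_mul_le_iff₀ hγ] at hγn
        have h1 : (n : ℝ) ^ r = (n : ℝ) ^ (r - 2) * (n : ℝ) ^ 2 := by
          rw [← pow_add]
          congr 1
          omega
        have h3 : M ≤ p * (γ * (n : ℝ) ^ 2) := hMp.trans (mul_le_mul_of_nonneg_left hγn hp0.le)
        have h4 := mul_le_mul_of_nonneg_left h3 (by positivity : 0 ≤ (n : ℝ) ^ (r - 2))
        rw [h1]
        linarith only [h4])
      hγ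
      (Real.exp_le_exp.2 (c2det_lam hn0.le hl1 hκ (by positivity) (Nat.cast_nonneg _) hlam))
  exact ⟨l, hl, o, ho, k, hkB, c0, hc0, A, A', hA, hA', X, Y, hX, hY, hLab⟩

end Pool.Agent.OKM

end FileC2Det

section FileCMain

/-!
Theorem C.
`d2_prob`: `case2_count` with `ε = κ₂/4`; union bound over `l, o, k, c0, A, A', X, Y`
(`card_box`, `Fintype.card_piFinset`, `card_subsets_le` with `λ = 1/lg^2` and `k = ⌊CX uu⌋₊`): the number of
descriptions is `exp (o(n))`: `(2 RR + 1)^2 ≤ exp (3 lg^7)`, `mm2 lg^7 = o(n)`,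
`(lg^2)^(CX uu) ≤ exp (2 CX n / lg)`; finally `exp (-κ₂ n/2) ≤ exp (-n^0.4)`.
`call_det`: take `w ∈ Z` close to `z`, so `nrm (app π w v) ≤ 2 th` (`nrm_app_shift`). If
`Clus v (2 th Xi^LL) n^0.8` use `stars_A` (tolerance `th`), `l₀ = 0`, `M = n^0.8`; otherwise `stars_B`
(tolerance `4 th Xi^LL ≤ 2 th Xi^(LL+1)`), `l₀ = LL + 1`, `M = n` (`clus_triv`). The sequence
`a l = ∑ i, log (Dn r w v i (2 th Xi^l))` is in `[0, n r lg n]` (`one_le_Dn`, `Dn_le`), so some `l ∈ [l₀, l₀ + LL)` has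
`a (l+1) - a l ≤ n r lg / LL ≤ r uu n`. With `p = g/q n^(-1.1)`, either `E1` or `E2` holds.
`rare_call`: `net` with `h = th n`, `|Z| ≤ (4 r/th + 3)^2 ≤ exp (3 lg^7)`; `rare_exp`, `rare_kall` (`Rare.inv`),
`c1_prob`, `c2_det`, `d2_prob`; `2 exp (3 lg^7 - n^0.4) ≤ exp (-n^0.3)`.
-/

open Finset Filter

namespace Pool.Agent.OKM

variable {n r : ℕ}

theorem cmain_union {ι : Type} (s : Finset ι) (E : ι → Cfg n r → Prop) {w b : ℝ}
    (hs : (s.card : ℝ) ≤ Real.exp w) (h : ∀ x ∈ s, pr (E x) ≤ Real.exp b) :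
    pr (fun π => ∃ x ∈ s, E x π) ≤ Real.exp (w + b) := by
  refine (pr_exists_le_card s E h).trans ?_
  rw [Real.exp_add]
  gcongr

theorem cmain_sq (hr : 3 ≤ r) (hlg : 49 * (r : ℝ) ^ 2 ≤ lg n) {x : ℝ} (hx0 : 0 ≤ x)
    (hx : x ≤ 4 * r / th n + 5) : x ^ 2 ≤ Real.exp (3 * lg n ^ 7) := by
  have hr' : (3 : ℝ) ≤ r := by exact_mod_cast hr
  have h1 : 1 ≤ lg n := by nlinarith
  have h2 : lg n ≤ lg n ^ 7 := le_self_pow₀ h1 (by norm_num)
  have h3 : 1 ≤ Real.exp (lg n ^ 7) := Real.one_le_exp (by linarith)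
  have h4 : x ≤ 7 * r * Real.exp (lg n ^ 7) := by
    unfold th at hx
    rw [Real.exp_neg, div_inv_eq_mul] at hx
    have := mul_le_mul hr' h3 zero_le_one (by linarith)
    linarith
  have h5 : 49 * (r : ℝ) ^ 2 ≤ Real.exp (lg n ^ 7) := by
    linarith [Real.add_one_le_exp (lg n ^ 7)]
  calc _ ≤ (7 * r * Real.exp (lg n ^ 7)) ^ 2 := pow_le_pow_left₀ hx0 h4 2
    _ = 49 * (r : ℝ) ^ 2 * Real.exp (lg n ^ 7) ^ 2 := by ring
    _ ≤ Real.exp (lg n ^ 7) * Real.exp (lg n ^ 7) ^ 2 := by gcongr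
    _ = _ := by
        rw [← pow_succ', ← Real.exp_nat_mul]
        norm_num

theorem cmain_sub {CX w : ℝ} (hCX : 0 < CX) (h1 : 1 ≤ lg n) (hw : (2 * CX + 1) * n / lg n ≤ w) :
    (((univ : Finset (Finset (Fin n))).filter fun S => S.card ≤ ⌊CX * uu n⌋₊).card : ℝ)
      ≤ Real.exp w := by
  have h0 : 0 < lg n := by linarith
  have hn : (0 : ℝ) ≤ n := Nat.cast_nonneg n
  have h2 : 1 ≤ lg n ^ 2 := one_le_pow₀ h1
  have h3 := card_subsets_le (α := Fin n) ⌊CX * uu n⌋₊ (lam := 1 / lg n ^ 2) (by positivity)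
    ((div_le_one (by positivity)).2 h2)
  refine h3.trans ?_
  rw [one_div_one_div, Fintype.card_fin, ← pow_mul]
  have h4 : lg n ^ (2 * ⌊CX * uu n⌋₊) ≤ Real.exp (2 * CX * n / lg n) := by
    calc _ ≤ Real.exp (lg n) ^ (2 * ⌊CX * uu n⌋₊) :=
          pow_le_pow_left₀ h0.le (by linarith [Real.add_one_le_exp (lg n)]) _
      _ = Real.exp (2 * (⌊CX * uu n⌋₊ : ℝ) * lg n) := by
          rw [← Real.exp_nat_mul]
          push_cast
          rfl
      _ ≤ Real.exp (2 * (CX * uu n) * lg n) := by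
          have : (⌊CX * uu n⌋₊ : ℝ) ≤ CX * uu n :=
            Nat.floor_le (by unfold uu; positivity)
          gcongr
      _ = _ := by
          unfold uu
          congr 1
          field_simp
  have h5 : 1 / lg n ^ 2 * n ≤ n / lg n := by
    rw [one_div_mul_eq_div]
    exact div_le_div_of_nonneg_left hn h0 (le_self_pow₀ h1 (by norm_num))
  calc _ ≤ Real.exp (2 * CX * n / lg n) * Real.exp (n / lg n) := by gcongr
    _ ≤ _ := by
        rw [← Real.exp_add, Real.exp_le_exp]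
        refine le_trans (le_of_eq ?_) hw
        ring

theorem d2_prob (hr : 3 ≤ r) (ρ : ℝ) {θ κ₂ CX : ℝ} (hθ : 0 ≤ θ) (hκ : 0 < κ₂) (hCX : 0 < CX) :
    ∃ γ : ℝ, 0 < γ ∧ ∀ᶠ n : ℕ in atTop, ∀ z : ℂ,
      pr (fun π : Cfg n r => D2 π z ρ θ κ₂ CX γ) ≤ Real.exp (-((n : ℝ) ^ (0.4 : ℝ))) := by
  obtain ⟨γ, hγ, H⟩ := case2_count hr (ε := κ₂ / 4) (by positivity)
  refine ⟨γ, hγ, ?_⟩
  filter_upwards [eventually_ge_atTop 1, ev_le_lg 1, ev_le_lg (49 * (r : ℝ) ^ 2),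
    ev_le_lg (32 * (2 * CX + 1) / κ₂), ev_le_lg (4 * r * CX / κ₂),
    ev_poly (7 * 32 / κ₂) 3 (show (0 : ℝ) < 1 by norm_num),
    ev_poly (3 * 32 / κ₂) 7 (show (0.95 : ℝ) < 1 by norm_num),
    ev_poly (4 / κ₂) 0 (show (0.4 : ℝ) < 1 by norm_num)] with n hn l1 l2 l3 l4 p1 p2 p3 z
  have hn1 : (1 : ℝ) ≤ n := by exact_mod_cast hn
  have hn0 : (0 : ℝ) < n := by linarith
  have l0 : 0 < lg n := by linarith
  rw [Real.rpow_one] at p1 p2 p3
  obtain ⟨w, hw⟩ : ∃ w : ℝ, w = κ₂ * n / 32 := ⟨_, rfl⟩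
  have q1 : 7 * lg n ^ 3 ≤ w := by
    rw [Real.rpow_zero, mul_one, div_mul_eq_mul_div, div_le_iff₀ hκ] at p1
    linarith
  have q2 : 3 * lg n ^ 7 * (n : ℝ) ^ (0.95 : ℝ) ≤ w := by
    rw [mul_assoc, div_mul_eq_mul_div, div_le_iff₀ hκ] at p2
    linarith
  have q3 : (n : ℝ) ^ (0.4 : ℝ) ≤ 8 * w := by
    rw [pow_zero, mul_one, div_mul_eq_mul_div, div_le_iff₀ hκ] at p3
    linarith
  have q4 : (2 * CX + 1) * n / lg n ≤ w := by
    rw [div_le_iff₀ hκ] at l3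
    rw [div_le_iff₀ l0, hw]
    have := mul_le_mul_of_nonneg_right l3 hn0.le
    linarith
  have q5 : r * (CX * uu n) ≤ 8 * w := by
    rw [div_le_iff₀ hκ] at l4
    have h1 : uu n ≤ n / lg n :=
      div_le_div_of_nonneg_left hn0.le l0 (le_self_pow₀ l1 (by norm_num))
    have h2 : r * (CX * (n / lg n)) ≤ 8 * w := by
      rw [← mul_div_assoc, ← mul_div_assoc, div_le_iff₀ l0, hw]
      have := mul_le_mul_of_nonneg_right l4 hn0.le
      linarith
    refine le_trans ?_ h2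
    gcongr
  have c3 : 1 ≤ lg n ^ 3 := one_le_pow₀ l1
  have ew := Real.add_one_le_exp w
  have b1 : ((range (2 * LL n + 3)).card : ℝ) ≤ Real.exp w := by
    have := Nat.ceil_lt_add_one (show 0 ≤ lg n ^ 3 by linarith)
    rw [card_range]
    unfold LL
    push_cast
    linarith
  have hB : (BB n : ℝ) + 1 ≤ Real.exp w := by
    have h1 := Nat.ceil_lt_add_one (show 0 ≤ lg n ^ 2 by positivity)
    have h2 : lg n ^ 2 ≤ lg n ^ 3 := pow_le_pow_right₀ l1 (by norm_num)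
    unfold BB
    linarith
  have b2 : ((range (BB n)).card : ℝ) ≤ Real.exp w := by
    rw [card_range]
    linarith
  have b3 : ((range (BB n + 1)).card : ℝ) ≤ Real.exp w := by
    rw [card_range]
    exact_mod_cast hB
  have hbox : ((box (RR r n)).card : ℝ) ≤ Real.exp (3 * lg n ^ 7) := by
    rw [card_box]
    push_cast
    refine cmain_sq hr l2 (by positivity) ?_
    have h0 : 0 ≤ r / th n := div_nonneg (Nat.cast_nonneg r) (Real.exp_pos _).le
    have h1 := Nat.ceil_lt_add_one h0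
    unfold RR
    rw [mul_div_assoc]
    push_cast
    linarith
  have hp : 1 ≤ (n : ℝ) ^ (0.95 : ℝ) := Real.one_le_rpow hn1 (by norm_num)
  have h7 : 0 ≤ 3 * lg n ^ 7 := by positivity
  have b4 : ((box (RR r n)).card : ℝ) ≤ Real.exp w :=
    hbox.trans (Real.exp_le_exp.2 ((le_mul_of_one_le_right h7 hp).trans q2))
  have b5 : ((Fintype.piFinset fun _ : Fin (mm2 n) => box (RR r n)).card : ℝ) ≤ Real.exp w := by
    rw [Fintype.card_piFinset, prod_const, card_univ, Fintype.card_fin, Nat.cast_pow]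
    refine (pow_le_pow_left₀ (Nat.cast_nonneg _) hbox _).trans ?_
    rw [← Real.exp_nat_mul, Real.exp_le_exp, mul_comm]
    exact (mul_le_mul_of_nonneg_left (Nat.floor_le (by linarith)) h7).trans q2
  have b6 := cmain_sub hCX l1 q4
  refine le_trans (pr_mono (F := fun π : Cfg n r => ∃ l ∈ range (2 * LL n + 3),
    ∃ o ∈ range (BB n), ∃ k ∈ range (BB n + 1), ∃ c0 ∈ box (RR r n),
    ∃ A ∈ Fintype.piFinset fun _ : Fin (mm2 n) => box (RR r n),
    ∃ A' ∈ Fintype.piFinset fun _ : Fin (mm2 n) => box (RR r n),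
    ∃ X ∈ (univ : Finset (Finset (Fin n))).filter fun S => S.card ≤ ⌊CX * uu n⌋₊,
    ∃ Y ∈ (univ : Finset (Finset (Fin n))).filter fun S => S.card ≤ ⌊CX * uu n⌋₊,
      Lab π X Y
        (V2 r z (2 * th n * Xi n ^ l) (BB n) o
          (2 * th n * Xi n ^ l * (1 + 2 * BB n * (1 + r / ρ))) X)
        (wq (2 * th n * Xi n ^ l) (BB n) o (4 ^ k) θ c0 A A') (wT (BB n) o A A') γ
        (Real.exp (-(κ₂ * n)))) ?_) ?_
  · rintro π ⟨l, hl, o, ho, k, hk, c0, hc0, A, A', hA, hA', X, Y, hX, hY, h⟩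
    exact ⟨l, mem_range.2 (by omega), o, mem_range.2 ho, k, mem_range.2 (by omega), c0, hc0,
      A, Fintype.mem_piFinset.2 hA, A', Fintype.mem_piFinset.2 hA',
      X, mem_filter.2 ⟨mem_univ _, Nat.le_floor hX⟩, Y, mem_filter.2 ⟨mem_univ _, Nat.le_floor hY⟩, h⟩
  refine le_trans (cmain_union _ _ b1 fun l _ => cmain_union _ _ b2 fun o _ =>
    cmain_union _ _ b3 fun k _ => cmain_union _ _ b4 fun c0 _ => cmain_union _ _ b5 fun A _ =>
    cmain_union _ _ b5 fun A' _ => cmain_union _ _ b6 fun X _ => cmain_union _ _ b6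
      (b := -(16 * w)) fun Y hY => ?_) (Real.exp_le_exp.2 (by linarith))
  refine (H n hn X Y _ _ _ _ (wq_nonneg _ _ _ (by positivity) hθ _ _ _)
    (wq_sum _ _ _ (by positivity) hθ _ _ _) (Real.exp_pos _).le).trans ?_
  rw [← Real.exp_add, Real.exp_le_exp]
  have h1 : (Y.card : ℝ) ≤ CX * uu n :=
    (Nat.le_floor_iff (by unfold uu; positivity)).1 (mem_filter.1 hY).2
  have h2 := mul_le_mul_of_nonneg_left h1 (Nat.cast_nonneg r : (0 : ℝ) ≤ r)
  linarith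

theorem cmain_xi (h1 : 1 ≤ lg n) : 2 ≤ Xi n :=
  Real.exp_one_gt_two.le.trans (Real.exp_le_exp.2 (one_le_pow₀ h1))

theorem cmain_core (hn : 1 ≤ n) (h1 : 1 ≤ lg n) {π : Cfg n r} {w : ℂ} {v : Fin n → ℂ}
    (hv : nrm v = 1) (hw : nrm (app π w v) ≤ 2 * th n) {l₀ : ℕ} (hl₀ : l₀ ≤ LL n + 1)
    {P : Finset (Fin n × Fin n)} {Cn : Finset (Fin n)} {M : ℝ} (hS : Stars π P Cn)
    (hP : ∀ p ∈ P, ‖v p.1 - v p.2‖ ≤ 2 * th n * Xi n ^ l₀) (hpar : StarPar n Cn.card P.card M)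
    (hC : Clus v (2 * th n * Xi n ^ (l₀ + LL n)) M) : E1 π w ∨ E2 π w := by
  have hn1 : (1 : ℝ) ≤ n := by exact_mod_cast hn
  have hn0 : (0 : ℝ) < n := by linarith
  have l0 : 0 < lg n := by linarith
  have hth : 0 < th n := Real.exp_pos _
  have hX : 1 ≤ Xi n := one_le_two.trans (cmain_xi h1)
  have hmono : ∀ {l l' : ℕ}, l ≤ l' → 2 * th n * Xi n ^ l ≤ 2 * th n * Xi n ^ l' := fun h =>
    mul_le_mul_of_nonneg_left (pow_le_pow_right₀ hX h) (by positivity)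
  have happ : ∀ l i, ‖app π w v i‖ ≤ 2 * th n * Xi n ^ l := fun l i =>
    ((norm_le_nrm _ i).trans hw).trans
      (le_mul_of_one_le_right (by positivity) (one_le_pow₀ hX))
  let a : ℕ → ℝ := fun l => ∑ i, Real.log (Dn r w v i (2 * th n * Xi n ^ l))
  have a0 : ∀ l, 0 ≤ a l := fun l => sum_nonneg fun i _ => Real.log_natCast_nonneg _
  have a1 : ∀ l, a l ≤ n * (r * lg n) := by
    intro l
    refine (sum_le_sum (g := fun _ => r * lg n) fun i _ => ?_).trans (by simp)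
    have h2 : (0 : ℝ) < Dn r w v i (2 * th n * Xi n ^ l) := by
      exact_mod_cast one_le_Dn π (happ l i)
    have h3 : (Dn r w v i (2 * th n * Xi n ^ l) : ℝ) ≤ (n : ℝ) ^ r := by
      exact_mod_cast Dn_le w v i _
    exact (Real.log_le_log h2 h3).trans_eq (Real.log_pow _ _)
  have hL : lg n ^ 3 ≤ LL n := Nat.le_ceil _
  have hL0 : 0 < LL n := by
    have : (0 : ℝ) < LL n := lt_of_lt_of_le (by positivity) hL
    exact_mod_cast this
  obtain ⟨i, hi, hia⟩ := exists_le_of_sum_le (s := range (LL n))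
    (f := fun i => a (l₀ + (i + 1)) - a (l₀ + i)) (g := fun _ => r * uu n)
    (nonempty_range_iff.2 hL0.ne') (by
      rw [sum_range_sub (fun i => a (l₀ + i)), sum_const, card_range, nsmul_eq_mul]
      have e : lg n ^ 3 * (r * uu n) = n * (r * lg n) := by
        unfold uu
        field_simp
      have h2 : lg n ^ 3 * (r * uu n) ≤ LL n * (r * uu n) :=
        mul_le_mul_of_nonneg_right hL (by unfold uu; positivity)
      linarith [a0 (l₀ + 0), a1 (l₀ + LL n)])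
  have hi' := mem_range.1 hi
  have e : Xi n * (2 * th n * Xi n ^ (l₀ + i)) = 2 * th n * Xi n ^ (l₀ + (i + 1)) := by ring
  have hC' : Clus v (Xi n * (2 * th n * Xi n ^ (l₀ + i))) M :=
    hC.mono (e.trans_le (hmono (by omega))) le_rfl
  by_cases hu : uu n ≤ (unpop r w v (Xi n * (2 * th n * Xi n ^ (l₀ + i)))
      (P.card / Cn.card * (n : ℝ) ^ (-1.1 : ℝ))).card
  · exact Or.inl ⟨v, _, M, P, Cn, by positivity, happ _,
      fun p hp => (hP p hp).trans (hmono (Nat.le_add_right _ _)), hS, hpar, hC', hu⟩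
  · obtain ⟨g1, g2, -, -, g3, g4, -⟩ := hpar
    have hq : (0 : ℝ) < Cn.card := by exact_mod_cast g1
    have hg : (Cn.card : ℝ) ≤ P.card := by exact_mod_cast g2
    refine Or.inr ⟨v, l₀ + i, M, _, by omega, hv, hw, hC', g3, ?_, ?_, ?_, (not_le.1 hu).le⟩
    · rw [mul_assoc, ← Real.rpow_add hn0, div_mul_eq_mul_div, le_div_iff₀ hq]
      refine g4.trans_eq ?_
      norm_num
    · exact le_mul_of_one_le_left (Real.rpow_nonneg hn0.le _) ((one_le_div hq).2 hg)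
    · rw [e]
      exact sub_le_iff_le_add'.1 hia

theorem call_det (r : ℕ) (ρ : ℝ) : ∀ᶠ n : ℕ in atTop, ∀ (π : Cfg n r) (Z : Finset ℂ),
    (∀ z ∈ Om r ρ, ∃ w ∈ Z, ‖z - w‖ ≤ th n) → ¬ CAll ρ π → ∃ w ∈ Z, E1 π w ∨ E2 π w := by
  filter_upwards [eventually_ge_atTop 1, ev_le_lg 1, stars_A r, stars_B r]
    with n hn h1 hA hB π Z hZ hC
  simp only [CAll, not_forall, not_le] at hC
  obtain ⟨z, hz, v, hv, ha, hc⟩ := hC
  obtain ⟨w, hw, hzw⟩ := hZ z hz
  have hth : 0 < th n := Real.exp_pos _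
  have hX := cmain_xi h1
  have h2 : nrm (app π w v) ≤ 2 * th n := by
    have := nrm_app_shift π z w v
    rw [hv, mul_one] at this
    linarith
  refine ⟨w, hw, ?_⟩
  by_cases hcl : Clus v (2 * th n * Xi n ^ LL n) ((n : ℝ) ^ (0.8 : ℝ))
  · obtain ⟨P, Cn, hS, hP, hpar⟩ := hA π v _ hc
    refine cmain_core hn h1 hv h2 (Nat.zero_le _) hS (fun p hp => (hP p hp).trans ?_) hpar
      (by rwa [zero_add])
    rw [pow_zero]
    linarith
  · obtain ⟨P, Cn, hS, hP, hpar⟩ := hB π v _ hcl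
    refine cmain_core hn h1 hv h2 le_rfl hS (fun p hp => (hP p hp).trans ?_) hpar (clus_triv _ _)
    rw [pow_succ, ← mul_assoc (2 * th n), mul_comm]
    have : 0 < Xi n := by linarith
    gcongr

theorem rare_call (hr : 3 ≤ r) {ρ : ℝ} (hρ : 0 < ρ) (hρ1 : ρ ≤ 1) :
    Rare r fun _ π => ¬ CAll ρ π := by
  obtain ⟨φ, κ, hφ, -, -, -, hE⟩ := rare_exp hr
  obtain ⟨c, C, hc, -, hC, hK⟩ := rare_kall hr hρ hρ1
  obtain ⟨θ, κ₂, CX, hθ, hκ, hCX, h2⟩ := c2_det hr hρ hρ1 hφ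
  obtain ⟨γ, hγ, hD⟩ := d2_prob hr ρ hθ hκ hCX
  have hmain : Rare r fun n π => ¬ CAll ρ π ∧ Exp φ κ π ∧ KAll c C ρ π⁻¹ := by
    refine rare_of_exp (δ := 0.3) (by norm_num) ?_
    filter_upwards [call_det r ρ, c1_prob hr hc hC hρ, h2 γ hγ, hD, eventually_ge_atTop 1,
      ev_le_lg 1, ev_le_lg (49 * (r : ℝ) ^ 2), ev_poly 5 7 (show (0.3 : ℝ) < 0.4 by norm_num)]
      with n h1 h2 h3 h4 hn l1 l2 p1
    have hn1 : (1 : ℝ) ≤ n := by exact_mod_cast hn
    have hth : 0 < th n := Real.exp_pos _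
    obtain ⟨Z, hZ, hZc, hZn⟩ := net (Om r ρ) (Nat.cast_nonneg r) hth fun z hz => om_norm_le' hρ hz
    have b1 : (Z.card : ℝ) ≤ Real.exp (3 * lg n ^ 7) :=
      hZc.trans (cmain_sq hr l2 (by positivity) (by linarith))
    refine le_trans (pr_mono (F := fun π : Cfg n r => ∃ w ∈ Z,
      (E1 π w ∧ KAll c C ρ π⁻¹) ∨ D2 π w ρ θ κ₂ CX γ) ?_) ?_
    · rintro π ⟨a1, a2, a3⟩
      obtain ⟨w, hw, h⟩ := h1 π Z hZn a1
      exact ⟨w, hw, h.imp (fun h => ⟨h, a3⟩) (h3 κ π a2 w (hZ w hw))⟩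
    refine le_trans (cmain_union _ _ b1 (b := 1 - (n : ℝ) ^ (0.4 : ℝ)) fun w hw => ?_) ?_
    · refine (pr_or_le _ _).trans ?_
      have a1 := h2 w (hZ w hw)
      have a2 := h4 w
      have a3 := mul_le_mul_of_nonneg_right Real.exp_one_gt_two.le
        (Real.exp_pos (-((n : ℝ) ^ (0.4 : ℝ)))).le
      rw [sub_eq_add_neg, Real.exp_add]
      linarith
    · rw [Real.exp_le_exp]
      have a1 : 1 ≤ lg n ^ 7 := one_le_pow₀ l1
      have a2 : 1 ≤ (n : ℝ) ^ (0.3 : ℝ) := Real.one_le_rpow hn1 (by norm_num)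
      nlinarith
  refine Rare.mono ((hmain.or hE).or hK.inv) (Eventually.of_forall fun n π h => ?_)
  tauto

end Pool.Agent.OKM

end FileCMain

end
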