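import Pool.Agent.MP_5d5bd1_pr.Mg.Moment
import Pool.Agent.MP_5d5bd1_pr.Mg.CaseA
import Pool.Agent.MP_5d5bd1_pr.Mg.ThmC

-- part MP_5d5bd1_pr.Pot
section

section FilePotB

/-!
Convergence of circle averages of the logarithmic potentials.
`le_mlog`: `V z = ∑_{x ∈ Λ} log (p^2 + ‖z - x‖^2)/2` is `|Λ|/p`-Lipschitz, and `log ‖z - x‖ ≤ log (p^2 + ‖z-x‖^2)/2` for `z ≠ x`. So
on the circle `V w ≥ |Λ| (U w - ε - ρ - ρ/p)` (`U_lip`); average (`circleAverage_mono`) and use `avg_log_reg`.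
`pot_lim`: upper bound from `hUp` at a rational point close to `a` (`mlog_lip`, `cU_lip`; `Adm` is open in `a`). Lower bound:
take a finite `net` of the circle with `h = ρ/4`, rational points within `ρ/4` of the net points, and `hLow` for the discs of
rational radius `ρ/2` around them (`Filter.eventually_all_finset`); choose `p`, then `ρ`, `ε`.
-/

open Finset Filter Topology

namespace Pool.Agent.OKM

variable {r : ℕ}

def qc (p : ℚ × ℚ) : ℂ := ⟨p.1, p.2⟩

theorem exists_qc (a : ℂ) {δ : ℝ} (hδ : 0 < δ) : ∃ p : ℚ × ℚ, ‖qc p - a‖ < δ := by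
  obtain ⟨x, hx⟩ := exists_rat_near a.re (half_pos hδ)
  obtain ⟨y, hy⟩ := exists_rat_near a.im (half_pos hδ)
  refine ⟨(x, y), (Complex.norm_le_abs_re_add_abs_im _).trans_lt ?_⟩
  rw [abs_sub_comm] at hx hy
  simp only [qc, Complex.sub_re, Complex.sub_im]
  linarith

theorem potb_key {z w x : ℂ} {p ρ : ℝ} (hp : 0 < p) (hx : x ≠ z) (h : ‖z - w‖ ≤ ρ) :
    Real.log ‖z - x‖ ≤ Real.log (p ^ 2 + ‖w - x‖ ^ 2) / 2 + ρ / p := by
  have hρ : 0 ≤ ρ := (norm_nonneg _).trans h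
  have h0 : 0 < ‖z - x‖ := norm_pos_iff.2 (sub_ne_zero.2 hx.symm)
  rw [← Real.log_sqrt (by positivity)]
  have h1 : p ≤ √(p ^ 2 + ‖w - x‖ ^ 2) := Real.le_sqrt_of_sq_le (by nlinarith [sq_nonneg ‖w - x‖])
  have h2 : ‖w - x‖ ≤ √(p ^ 2 + ‖w - x‖ ^ 2) := Real.le_sqrt_of_sq_le (by nlinarith [sq_nonneg p])
  generalize √(p ^ 2 + ‖w - x‖ ^ 2) = b at h1 h2
  have hb : 0 < b := hp.trans_le h1
  have h3 : ‖z - x‖ ≤ ‖z - w‖ + ‖w - x‖ := norm_sub_le_norm_sub_add_norm_sub _ _ _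
  have h4 : ρ ≤ b * (ρ / p) := by
    rw [mul_div_assoc', le_div_iff₀ hp, mul_comm]
    exact mul_le_mul_of_nonneg_right h1 hρ
  have h5 : ‖z - x‖ / b ≤ 1 + ρ / p := by
    rw [div_le_iff₀ hb]
    linarith
  have h6 := Real.log_le_sub_one_of_pos (div_pos h0 hb)
  rw [Real.log_div h0.ne' hb.ne'] at h6
  linarith

theorem potb_cont (x : ℂ) {p : ℝ} (hp : 0 < p) :
    Continuous fun z : ℂ => Real.log (p ^ 2 + ‖z - x‖ ^ 2) / 2 :=
  (Continuous.log (by fun_prop) fun z => by positivity).div_const 2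

theorem potb_avg (Λ : Multiset ℂ) (a : ℂ) {s p : ℝ} (hs : 0 < s) (hp : 0 < p) :
    Real.circleAverage (fun z => (Λ.map fun x => Real.log (p ^ 2 + ‖z - x‖ ^ 2) / 2).sum) a s
      ≤ mlog Λ a s + Multiset.card Λ * (p / s) := by
  induction Λ using Multiset.induction_on with
  | empty => simp [mlog, Real.circleAverage_const]
  | cons x Λ ih =>
    simp only [mlog, Multiset.map_cons, Multiset.sum_cons, Multiset.card_cons] at ih ⊢
    rw [Real.circleAverage_fun_add ((potb_cont x hp).continuousOn.circleIntegrable hs.le)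
      ((continuous_multiset_sum Λ fun y _ => potb_cont y hp).continuousOn.circleIntegrable hs.le)]
    have := avg_log_reg x a hs hp
    push_cast
    linarith

theorem potb_small {c δ m : ℝ} (hc : 0 ≤ c) (hδ : 0 < δ) (hm : 0 < m) :
    ∃ q : ℚ, 0 < (q : ℝ) ∧ (q : ℝ) < m ∧ q * c < δ := by
  obtain ⟨q, h0, h1⟩ := exists_rat_btwn (show 0 < min m (δ / (c + 1)) by positivity)
  refine ⟨q, h0, h1.trans_le (min_le_left _ _), ?_⟩
  have := (lt_div_iff₀ (by positivity)).1 (h1.trans_le (min_le_right _ _))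
  linarith

theorem potb_adm {a w : ℂ} {t u : ℝ} (hu : 0 < u) (hw : ‖w - a‖ ≤ t)
    (h1 : ‖a‖ + t + u < √(r : ℝ)) (h2 : t + u < |a.im|) : Adm r w u := by
  have h3 : ‖w‖ ≤ ‖a‖ + ‖w - a‖ := norm_le_norm_add_norm_sub' _ _
  have h4 : |a.im| - |w.im| ≤ ‖w - a‖ := by
    rw [norm_sub_rev]
    exact (abs_sub_abs_le_abs_sub _ _).trans
      (by rw [← Complex.sub_im]; exact Complex.abs_im_le_norm _)
  exact ⟨hu, by linarith, by linarith⟩

theorem le_mlog (hr : 3 ≤ r) (Λ : Multiset ℂ) {a : ℂ} {s p ρ ε : ℝ} (hs : 0 < s)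
    (h : ‖a‖ + s ≤ √(r : ℝ)) (hp : 0 < p)
    (hz : ∀ w ∈ Metric.sphere a s, ∃ z : ℂ, ‖z - w‖ ≤ ρ ∧ ‖z‖ ≤ √(r : ℝ) ∧ (∀ x ∈ Λ, x ≠ z) ∧
      Multiset.card Λ * (U r z - ε) ≤ (Λ.map fun x => Real.log ‖z - x‖).sum) :
    Multiset.card Λ * (cU r a s - ε - ρ - ρ / p - p / s) ≤ mlog Λ a s := by
  have hU := U_circleIntegrable hr hs.le h
  have h1 : Real.circleAverage (fun w => (Multiset.card Λ : ℝ) • (U r w - (ε + ρ + ρ / p))) a s
      ≤ Real.circleAverage
        (fun z => (Λ.map fun x => Real.log (p ^ 2 + ‖z - x‖ ^ 2) / 2).sum) a s := by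
    refine Real.circleAverage_mono (hU.sub (circleIntegrable_const _ _ _)).const_smul
      ((continuous_multiset_sum Λ fun y _ => potb_cont y hp).continuousOn.circleIntegrable hs.le)
      fun w hw => ?_
    rw [abs_of_pos hs] at hw
    obtain ⟨z, k1, k2, k3, k4⟩ := hz w hw
    have k5 : ‖w‖ ≤ √(r : ℝ) := by
      have := norm_le_norm_add_norm_sub' w a
      rw [mem_sphere_iff_norm.1 hw] at this
      linarith
    have k6 := (abs_le.1 ((U_lip hr k2 k5).trans k1)).1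
    have k7 := Multiset.sum_map_le_sum_map (s := Λ) _ _ fun x hx => potb_key hp (k3 x hx) k1
    rw [Multiset.sum_map_add, Multiset.map_const', Multiset.sum_replicate, nsmul_eq_mul] at k7
    have k8 := mul_le_mul_of_nonneg_left k6 (Nat.cast_nonneg (α := ℝ) (Multiset.card Λ))
    rw [smul_eq_mul]
    linarith
  rw [Real.circleAverage_fun_smul, Real.circleAverage_fun_sub hU (circleIntegrable_const _ _ _),
    Real.circleAverage_const, smul_eq_mul] at h1
  have h2 := potb_avg Λ a hs hp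
  unfold cU
  linarith

theorem pot_lim (hr : 3 ≤ r) (Λ : ℕ → Multiset ℂ) (hcard : ∀ n, Multiset.card (Λ n) = n)
    (hUp : ∀ (p : ℚ × ℚ) (s ε : ℚ), Adm r (qc p) s → 0 < ε →
      ∀ᶠ n : ℕ in atTop, mlog (Λ n) (qc p) s ≤ n * (cU r (qc p) s + ε))
    (hLow : ∀ (p : ℚ × ℚ) (s ε : ℚ), Adm r (qc p) s → 0 < ε →
      ∀ᶠ n : ℕ in atTop, ∃ z ∈ Metric.closedBall (qc p) (s : ℝ), (∀ w ∈ Λ n, w ≠ z) ∧
        n * (U r z - ε) ≤ ((Λ n).map fun w => Real.log ‖z - w‖).sum)
    (a : ℂ) (s : ℚ) (hadm : Adm r a s) :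
    Tendsto (fun n : ℕ => mlog (Λ n) a s / n) atTop (𝓝 (cU r a s)) := by
  obtain ⟨hs, ha1, ha2⟩ := hadm
  have hm : 0 < min (√(r : ℝ) - ‖a‖ - s) (|a.im| - s) := lt_min (by linarith) (by linarith)
  have hm1 := min_le_left (√(r : ℝ) - ‖a‖ - s) (|a.im| - s)
  have hm2 := min_le_right (√(r : ℝ) - ‖a‖ - s) (|a.im| - s)
  generalize min (√(r : ℝ) - ‖a‖ - s) (|a.im| - s) = m at hm hm1 hm2
  refine tendsto_order.2 ⟨fun b hb => ?_, fun b hb => ?_⟩
  · have hδ : 0 < (cU r a s - b) / 3 := by linarith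
    obtain ⟨p, p0, -, p1⟩ := potb_small (c := 1 / s) (by positivity) hδ hm
    obtain ⟨q, q0, q1, q2⟩ := potb_small (c := 2 + 2 / p) (by positivity) hδ (half_pos hm)
    obtain ⟨ε, e0, e1, -⟩ := potb_small (c := 0) le_rfl hδ hδ
    obtain ⟨Z, hZ, -, hnet⟩ := net (Metric.sphere a s) (R := √(r : ℝ)) (h := q / 2)
      (Real.sqrt_nonneg _) (half_pos q0) fun w hw => by
        have := norm_le_norm_add_norm_sub' w a
        rw [mem_sphere_iff_norm.1 hw] at this
        linarith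
    choose c hc using fun z : ℂ => exists_qc z (half_pos q0)
    have had : ∀ z ∈ Z, Adm r (qc (c z)) q := fun z hz => by
      refine potb_adm (a := a) (t := s + q / 2) q0 ?_ (by linarith) (by linarith)
      have := norm_sub_le_norm_sub_add_norm_sub (qc (c z)) z a
      rw [mem_sphere_iff_norm.1 (hZ z hz)] at this
      linarith [hc z]
    have hev := (eventually_all_finset Z).2 fun z hz =>
      hLow (c z) q ε (had z hz) (by exact_mod_cast e0)
    filter_upwards [hev, eventually_gt_atTop 0] with n hn h0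
    have hn0 : (0 : ℝ) < n := by exact_mod_cast h0
    have key := le_mlog hr (Λ n) (a := a) (p := p) (ρ := 2 * q) (ε := ε) hs ha1.le p0
      fun w hw => by
        obtain ⟨z, hz, h1⟩ := hnet w hw
        obtain ⟨y, hy, h2, h3⟩ := hn z hz
        rw [mem_closedBall_iff_norm] at hy
        have h4 := norm_sub_le_norm_sub_add_norm_sub y (qc (c z)) z
        have h5 := norm_sub_le_norm_sub_add_norm_sub y z w
        have h6 := norm_le_norm_add_norm_sub' y (qc (c z))
        rw [norm_sub_rev] at h1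
        exact ⟨y, by linarith [hc z], by linarith [(had z hz).2.1], h2, by rwa [hcard]⟩
    rw [hcard] at key
    rw [lt_div_iff₀ hn0, mul_comm]
    refine lt_of_lt_of_le (mul_lt_mul_of_pos_left ?_ hn0) key
    have e2 : (p : ℝ) * (1 / s) = p / s := by ring
    have e3 : (q : ℝ) * (2 + 2 / p) = 2 * q + 2 * q / p := by ring
    linarith
  · have hδ : 0 < (b - cU r a s) / 2 := by linarith
    obtain ⟨q, q0, q1, q2⟩ := potb_small (c := 1 + 1 / s) (by positivity) hδ hm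
    obtain ⟨ε, e0, e1, -⟩ := potb_small (c := 0) le_rfl hδ hδ
    obtain ⟨c, hc⟩ := exists_qc a q0
    have had : Adm r (qc c) s := potb_adm hs hc.le (by linarith) (by linarith)
    filter_upwards [hUp c s ε had (by exact_mod_cast e0), eventually_gt_atTop 0] with n hn h0
    have hn0 : (0 : ℝ) < n := by exact_mod_cast h0
    have h1 := (abs_le.1 (mlog_lip (Λ n) (qc c) a hs)).1
    have h2 := (abs_le.1 (cU_lip hr hs.le had.2.1.le ha1.le)).2
    rw [hcard] at h1
    have h3 : ‖qc c - a‖ / s ≤ q / s := by gcongr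
    have e2 : (q : ℝ) * (1 + 1 / s) = q + q / s := by ring
    have h5 : cU r (qc c) s + ε + ‖qc c - a‖ / s < b := by linarith
    have h6 := mul_lt_mul_of_pos_left h5 hn0
    rw [div_lt_iff₀ hn0]
    linarith

end Pool.Agent.OKM

end FilePotB

section FilePotC

/-!
The density and the test functions `psi`.
`integral_psi`, `dens_mass`: polar coordinates (`Complex.integral_comp_polarCoord_symm`, or
`MeasureTheory.integral_fun_norm_addHaar` with `Complex.volume_ball`), then one-dimensional integrals: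
`∫_0^δ ρ log 2 + ∫_δ^{2δ} ρ log (2δ/ρ) = 3 δ^2/4`, and `d/dρ (r^2 - ρ^2)⁻¹ = 2ρ/(r^2-ρ^2)^2`.
`cU_taylor`: `A = r^2 - ‖a‖^2 ∈ [r^2 - r, r^2]`; for `z = a + s e^(iθ)`, `r^2 - ‖z‖^2 = A (1 - u)`, `u = t/A`,
`t = s^2 + 2 s re (conj a e^(iθ))`, `|u| ≤ 1/2`, `|t| ≤ 2 r s`; `Real.abs_log_sub_add_sum_range_le` with two terms;
the averages of `t` and `t^2` are `s^2` and `s^4 + 2 s^2 ‖a‖^2` (`integral_cos`, `integral_cos_sq`, ...), and
`1/A + ‖a‖^2/A^2 = r^2/A^2`.
-/

open Finset Filter MeasureTheory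

namespace Pool.Agent.OKM

variable {r : ℕ}

noncomputable def dens (r : ℕ) (z : ℂ) : ℝ :=
  (r : ℝ) ^ 2 * ((r : ℝ) - 1) / (Real.pi * ((r : ℝ) ^ 2 - ‖z‖ ^ 2) ^ 2)

noncomputable def psi (δ : ℝ) (x : ℂ) : ℝ := Real.log (max (2 * δ) ‖x‖) - Real.log (max δ ‖x‖)

theorem potc_radial (g : ℝ → ℝ) {R : ℝ} (hR : 0 ≤ R) (h0 : ∀ y, R < y → g y = 0) :
    ∫ x : ℂ, g ‖x‖ = 2 * Real.pi * ∫ y in (0 : ℝ)..R, y * g y := by
  have e1 : (volume : Measure ℂ).real (Metric.ball 0 1) = Real.pi := by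
    simp [Measure.real, Complex.volume_ball]
  have e2 : ∫ y in Set.Ioi (0 : ℝ), y * g y = ∫ y in Set.Ioc (0 : ℝ) R, y * g y :=
    setIntegral_eq_of_subset_of_forall_sdiff_eq_zero measurableSet_Ioi Set.Ioc_subset_Ioi_self
      fun y hy => by
        have : R < y := lt_of_not_ge fun h => hy.2 ⟨hy.1, h⟩
        rw [h0 y this, mul_zero]
  rw [integral_fun_norm_addHaar, e1, intervalIntegral.integral_of_le hR, ← e2]
  simp [mul_assoc]

theorem psi_nonneg {δ : ℝ} (hδ : 0 < δ) (x : ℂ) : 0 ≤ psi δ x :=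
  sub_nonneg.2 (Real.log_le_log (lt_max_of_lt_left hδ) (max_le_max (by linarith) le_rfl))

theorem psi_le {δ : ℝ} (hδ : 0 < δ) (x : ℂ) : psi δ x ≤ Real.log 2 := by
  have h1 : 0 < max δ ‖x‖ := lt_max_of_lt_left hδ
  have h2 : max (2 * δ) ‖x‖ ≤ 2 * max δ ‖x‖ :=
    max_le (by linarith [le_max_left δ ‖x‖]) (by linarith [le_max_right δ ‖x‖])
  have h3 := Real.log_le_log (lt_max_of_lt_left (by linarith)) h2
  rw [Real.log_mul two_ne_zero h1.ne'] at h3
  unfold psi
  linarith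

theorem psi_eq_zero {δ : ℝ} (hδ : 0 < δ) {x : ℂ} (hx : 2 * δ ≤ ‖x‖) : psi δ x = 0 := by
  unfold psi
  rw [max_eq_right hx, max_eq_right (by linarith), sub_self]

theorem potc_cont {δ : ℝ} (hδ : 0 < δ) :
    Continuous fun y : ℝ => Real.log (max (2 * δ) y) - Real.log (max δ y) := by
  refine Continuous.sub (Continuous.log (by fun_prop) fun y => ?_)
    (Continuous.log (by fun_prop) fun y => ?_)
  · exact (lt_max_of_lt_left (by linarith)).ne'
  · exact (lt_max_of_lt_left hδ).ne'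

theorem psi_continuous {δ : ℝ} (hδ : 0 < δ) : Continuous (psi δ) :=
  (potc_cont hδ).comp continuous_norm

theorem psi_integrable {δ : ℝ} (hδ : 0 < δ) : Integrable (psi δ) := by
  refine (psi_continuous hδ).integrable_of_hasCompactSupport ?_
  refine HasCompactSupport.intro (isCompact_closedBall (0 : ℂ) (2 * δ)) fun x hx => ?_
  rw [mem_closedBall_zero_iff, not_le] at hx
  exact psi_eq_zero hδ hx.le

theorem integral_psi {δ : ℝ} (hδ : 0 < δ) : ∫ x, psi δ x = 3 * Real.pi * δ ^ 2 / 2 := by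
  have hc : Continuous fun y : ℝ => y * (Real.log (max (2 * δ) y) - Real.log (max δ y)) :=
    continuous_id.mul (potc_cont hδ)
  have h := potc_radial (fun y => Real.log (max (2 * δ) y) - Real.log (max δ y)) (R := 2 * δ)
    (by linarith) fun y hy => by rw [max_eq_right hy.le, max_eq_right (by linarith), sub_self]
  have i1 : ∫ y in (0 : ℝ)..δ, y * (Real.log (max (2 * δ) y) - Real.log (max δ y))
      = δ ^ 2 / 2 * Real.log 2 := by
    rw [intervalIntegral.integral_congr (g := fun y => y * Real.log 2) fun y hy => by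
      rw [Set.uIcc_of_le hδ.le] at hy
      simp only
      rw [max_eq_left (by linarith [hy.2]), max_eq_left hy.2, Real.log_mul two_ne_zero hδ.ne']
      ring]
    rw [intervalIntegral.integral_mul_const, integral_id]
    ring
  have i2 : ∫ y in δ..(2 * δ), y * (Real.log (max (2 * δ) y) - Real.log (max δ y))
      = 3 * δ ^ 2 / 4 - δ ^ 2 / 2 * Real.log 2 := by
    have hle : δ ≤ 2 * δ := by linarith
    rw [intervalIntegral.integral_eq_sub_of_hasDerivAt
      (f := fun y => y ^ 2 / 2 * (Real.log (2 * δ) - Real.log y) + y ^ 2 / 4)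
      (fun y hy => ?_) (hc.intervalIntegrable _ _)]
    · rw [Real.log_mul two_ne_zero hδ.ne']
      ring
    · rw [Set.uIcc_of_le hle] at hy
      have hy0 : y ≠ 0 := (hδ.trans_le hy.1).ne'
      rw [max_eq_left hy.2, max_eq_right hy.1]
      have := (((hasDerivAt_pow 2 y).div_const 2).mul
        ((Real.hasDerivAt_log hy0).const_sub (Real.log (2 * δ)))).add
        ((hasDerivAt_pow 2 y).div_const 4)
      refine this.congr_deriv ?_
      simp only [Nat.cast_ofNat, Nat.add_one_sub_one, pow_one]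
      field_simp
      ring
  rw [← intervalIntegral.integral_add_adjacent_intervals (hc.intervalIntegrable 0 δ)
    (hc.intervalIntegrable δ (2 * δ)), i1, i2] at h
  refine Eq.trans h ?_
  ring

theorem dens_nonneg (hr : 3 ≤ r) (z : ℂ) : 0 ≤ dens r z := by
  have h : (3 : ℝ) ≤ r := by exact_mod_cast hr
  have h1 : (0 : ℝ) ≤ (r : ℝ) - 1 := by linarith
  have := Real.pi_pos
  unfold dens
  positivity

theorem potc_gap (hr : 3 ≤ r) {y : ℝ} (h0 : 0 ≤ y) (hy : y ≤ √(r : ℝ)) :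
    y ^ 2 ≤ r ∧ 2 * (r : ℝ) ≤ (r : ℝ) ^ 2 - y ^ 2 := by
  have h : (3 : ℝ) ≤ r := by exact_mod_cast hr
  have h1 : y ^ 2 ≤ r := by
    have := pow_le_pow_left₀ h0 hy 2
    rwa [Real.sq_sqrt (by linarith)] at this
  exact ⟨h1, by nlinarith⟩

theorem dens_continuousOn (hr : 3 ≤ r) :
    ContinuousOn (dens r) (Metric.closedBall 0 √(r : ℝ)) := by
  have h : (3 : ℝ) ≤ r := by exact_mod_cast hr
  unfold dens
  refine ContinuousOn.div continuousOn_const (by fun_prop) fun z hz => ?_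
  have := (potc_gap hr (norm_nonneg z) (mem_closedBall_zero_iff.1 hz)).2
  exact mul_ne_zero Real.pi_ne_zero (pow_ne_zero 2 (by linarith))

theorem dens_mass (hr : 3 ≤ r) : ∫ z in Metric.ball (0 : ℂ) √(r : ℝ), dens r z = 1 := by
  have h3 : (3 : ℝ) ≤ r := by exact_mod_cast hr
  have hπ := Real.pi_pos
  have hR := Real.sqrt_nonneg (r : ℝ)
  let g : ℝ → ℝ := fun y => (r : ℝ) ^ 2 * ((r : ℝ) - 1) / (Real.pi * ((r : ℝ) ^ 2 - y ^ 2) ^ 2)
  have h := potc_radial ((Set.Iio √(r : ℝ)).indicator g) hR fun y hy =>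
    Set.indicator_of_notMem (by simpa using hy.le) _
  have e1 : ∫ z in Metric.ball (0 : ℂ) √(r : ℝ), dens r z
      = ∫ z : ℂ, (Set.Iio √(r : ℝ)).indicator g ‖z‖ := by
    rw [← integral_indicator measurableSet_ball]
    congr 1
    funext z
    by_cases hz : ‖z‖ < √(r : ℝ)
    · rw [Set.indicator_of_mem (mem_ball_zero_iff.2 hz), Set.indicator_of_mem (by exact hz)]
      rfl
    · rw [Set.indicator_of_notMem (by simpa using hz), Set.indicator_of_notMem (by exact hz)]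
  have e2 : ∫ y in (0 : ℝ)..√(r : ℝ), y * (Set.Iio √(r : ℝ)).indicator g y
      = ∫ y in (0 : ℝ)..√(r : ℝ), y * g y := by
    rw [intervalIntegral.integral_of_le hR, intervalIntegral.integral_of_le hR,
      integral_Ioc_eq_integral_Ioo, integral_Ioc_eq_integral_Ioo]
    exact setIntegral_congr_fun measurableSet_Ioo fun y hy => by
      rw [Set.indicator_of_mem (s := Set.Iio √(r : ℝ)) hy.2]
  have hne : ∀ y ∈ Set.uIcc (0 : ℝ) √(r : ℝ), (r : ℝ) ^ 2 - y ^ 2 ≠ 0 := by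
    intro y hy
    rw [Set.uIcc_of_le hR] at hy
    have := (potc_gap hr hy.1 hy.2).2
    linarith
  have hi : IntervalIntegrable (fun y => y * g y) volume 0 √(r : ℝ) := by
    refine ContinuousOn.intervalIntegrable (continuousOn_id.mul ?_)
    exact ContinuousOn.div continuousOn_const (by fun_prop) fun y hy =>
      mul_ne_zero hπ.ne' (pow_ne_zero 2 (hne y hy))
  have e3 : ∫ y in (0 : ℝ)..√(r : ℝ), y * g y = 1 / (2 * Real.pi) := by
    rw [intervalIntegral.integral_eq_sub_of_hasDerivAt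
      (f := fun y => (r : ℝ) ^ 2 * ((r : ℝ) - 1) / (2 * Real.pi) * ((r : ℝ) ^ 2 - y ^ 2)⁻¹)
      (fun y hy => ?_) hi]
    · have a1 : (r : ℝ) ≠ 0 := by linarith
      have a2 : (r : ℝ) - 1 ≠ 0 := by linarith
      rw [Real.sq_sqrt (by linarith), show (r : ℝ) ^ 2 - r = r * (r - 1) by ring]
      simp only [ne_eq, OfNat.ofNat_ne_zero, not_false_eq_true, zero_pow, sub_zero]
      field_simp
      ring
    · have := (((hasDerivAt_pow 2 y).const_sub ((r : ℝ) ^ 2)).inv (hne y hy)).const_mul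
        ((r : ℝ) ^ 2 * ((r : ℝ) - 1) / (2 * Real.pi))
      refine this.congr_deriv ?_
      have := hne y hy
      simp only [g, Nat.cast_ofNat, Nat.add_one_sub_one, pow_one]
      field_simp
  rw [e1, h, e2, e3]
  field_simp

theorem potc_trig (c₀ c₁ c₂ c₃ c₄ c₅ : ℝ) :
    ∫ θ in (0 : ℝ)..2 * Real.pi, (c₀ + c₁ * Real.cos θ + c₂ * Real.sin θ + c₃ * Real.cos θ ^ 2
      + c₄ * Real.sin θ ^ 2 + c₅ * (Real.sin θ * Real.cos θ))
      = 2 * Real.pi * (c₀ + c₃ / 2 + c₄ / 2) := by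
  rw [intervalIntegral.integral_eq_sub_of_hasDerivAt
    (f := fun θ => (c₀ + c₃ / 2 + c₄ / 2) * θ + c₁ * Real.sin θ - c₂ * Real.cos θ
      + (c₃ - c₄) / 2 * (Real.sin θ * Real.cos θ) + c₅ / 2 * Real.sin θ ^ 2)
    (fun θ _ => ?_) (Continuous.intervalIntegrable (by fun_prop) _ _)]
  · simp
    ring
  · have hs := Real.hasDerivAt_sin θ
    have hc := Real.hasDerivAt_cos θ
    have := (((((hasDerivAt_id θ).const_mul (c₀ + c₃ / 2 + c₄ / 2)).add (hs.const_mul c₁)).sub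
      (hc.const_mul c₂)).add ((hs.mul hc).const_mul ((c₃ - c₄) / 2))).add
      ((hs.pow 2).const_mul (c₅ / 2))
    refine this.congr_deriv ?_
    simp only [Nat.cast_ofNat, Nat.add_one_sub_one, pow_one]
    linear_combination (-(c₃ + c₄) / 2) * Real.sin_sq_add_cos_sq θ

theorem potc_norm (a : ℂ) (s θ : ℝ) : ‖circleMap a s θ‖ ^ 2 =
    ‖a‖ ^ 2 + (s ^ 2 + 2 * s * (a.re * Real.cos θ + a.im * Real.sin θ)) := by
  rw [Complex.sq_norm, Complex.sq_norm, Complex.normSq_apply, Complex.normSq_apply]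
  simp only [circleMap, Complex.add_re, Complex.add_im, Complex.re_ofReal_mul,
    Complex.im_ofReal_mul, Complex.exp_ofReal_mul_I_re, Complex.exp_ofReal_mul_I_im]
  linear_combination s ^ 2 * Real.sin_sq_add_cos_sq θ

theorem potc_log {u s : ℝ} (h1 : |u| ≤ 1 / 2) (h2 : |u| ≤ s) :
    |Real.log (1 - u) + (u + u ^ 2 / 2)| ≤ 2 * s ^ 3 := by
  have h := Real.abs_log_sub_add_sum_range_le (x := u) (by linarith) 2
  simp only [Finset.sum_range_succ, Finset.range_zero, Finset.sum_empty] at h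
  have e : Real.log (1 - u) + (u + u ^ 2 / 2) = 0 + u ^ (0 + 1) / (((0 : ℕ) : ℝ) + 1)
      + u ^ (1 + 1) / (((1 : ℕ) : ℝ) + 1) + Real.log (1 - u) := by
    push_cast
    ring
  rw [e]
  refine h.trans ?_
  have h3 : |u| ^ (2 + 1) ≤ s ^ 3 := pow_le_pow_left₀ (abs_nonneg u) h2 3
  rw [div_le_iff₀ (by linarith)]
  have h4 : 0 ≤ s ^ 3 := pow_nonneg ((abs_nonneg u).trans h2) 3
  nlinarith

theorem potc_point (hr : 3 ≤ r) {a z : ℂ} {s : ℝ} (ha : ‖a‖ ≤ √(r : ℝ)) (hz : ‖z‖ ≤ √(r : ℝ))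
    (hs : |‖z‖ - ‖a‖| ≤ s) {u : ℝ} (hu : u = (‖z‖ ^ 2 - ‖a‖ ^ 2) / ((r : ℝ) ^ 2 - ‖a‖ ^ 2)) :
    |U r z - (U r a + ((r : ℝ) - 1) / 2 * (u + u ^ 2 / 2))| ≤ ((r : ℝ) - 1) * s ^ 3 := by
  have h3 : (3 : ℝ) ≤ r := by exact_mod_cast hr
  obtain ⟨a1, a2⟩ := potc_gap hr (norm_nonneg a) ha
  obtain ⟨z1, -⟩ := potc_gap hr (norm_nonneg z) hz
  have hA : 0 < (r : ℝ) ^ 2 - ‖a‖ ^ 2 := by linarith
  have hs0 : 0 ≤ s := (abs_nonneg _).trans hs
  have hR : √(r : ℝ) ≤ r := Real.sqrt_le_iff.2 ⟨by linarith, by nlinarith⟩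
  have u1 : |u| ≤ 1 / 2 := by
    rw [hu, abs_div, abs_of_pos hA, div_le_iff₀ hA, abs_le]
    have := sq_nonneg ‖a‖
    have := sq_nonneg ‖z‖
    constructor <;> linarith
  have u2 : |u| ≤ s := by
    rw [hu, abs_div, abs_of_pos hA, div_le_iff₀ hA, sq_sub_sq, abs_mul, mul_comm,
      abs_of_nonneg (add_nonneg (norm_nonneg z) (norm_nonneg a))]
    exact mul_le_mul hs (by linarith) (add_nonneg (norm_nonneg z) (norm_nonneg a)) hs0
  have u3 : 0 < 1 - u := by linarith [le_abs_self u]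
  have e1 : (r : ℝ) ^ 2 - ‖z‖ ^ 2 = ((r : ℝ) ^ 2 - ‖a‖ ^ 2) * (1 - u) := by
    rw [hu]
    field_simp
    ring
  have e2 : U r z - (U r a + ((r : ℝ) - 1) / 2 * (u + u ^ 2 / 2))
      = -(((r : ℝ) - 1) / 2 * (Real.log (1 - u) + (u + u ^ 2 / 2))) := by
    unfold U
    rw [e1, Real.log_mul hA.ne' u3.ne']
    ring
  rw [e2, abs_neg, abs_mul, abs_of_nonneg (by linarith : (0 : ℝ) ≤ ((r : ℝ) - 1) / 2)]
  calc ((r : ℝ) - 1) / 2 * |Real.log (1 - u) + (u + u ^ 2 / 2)|
      ≤ ((r : ℝ) - 1) / 2 * (2 * s ^ 3) :=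
        mul_le_mul_of_nonneg_left (potc_log u1 u2) (by linarith)
    _ = _ := by ring

theorem cU_taylor (hr : 3 ≤ r) : ∃ C : ℝ, 0 ≤ C ∧ ∀ (a : ℂ) (s : ℝ), 0 < s → ‖a‖ + s ≤ √(r : ℝ) →
    |cU r a s - U r a - Real.pi / 2 * dens r a * s ^ 2| ≤ C * s ^ 3 := by
  have h3 : (3 : ℝ) ≤ r := by exact_mod_cast hr
  have hπ := Real.pi_pos
  refine ⟨2 * ((r : ℝ) - 1), by linarith, fun a s hs h => ?_⟩
  have ha : ‖a‖ ≤ √(r : ℝ) := by linarith
  obtain ⟨a1, a2⟩ := potc_gap hr (norm_nonneg a) ha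
  obtain ⟨A, hAe⟩ : ∃ A, A = (r : ℝ) ^ 2 - ‖a‖ ^ 2 := ⟨_, rfl⟩
  have hA : 0 < A := by linarith
  obtain ⟨k, hk⟩ : ∃ k, k = ((r : ℝ) - 1) / 2 := ⟨_, rfl⟩
  let u : ℝ → ℝ := fun θ => (s ^ 2 + 2 * s * (a.re * Real.cos θ + a.im * Real.sin θ)) / A
  let P : ℝ → ℝ := fun θ => U r a + k * (u θ + u θ ^ 2 / 2)
  have hP : Continuous P := by fun_prop
  have n2 : ‖a‖ ^ 2 = a.re ^ 2 + a.im ^ 2 := by
    rw [Complex.sq_norm, Complex.normSq_apply]
    ring
  have iP : ∫ θ in (0 : ℝ)..2 * Real.pi, P θ = 2 * Real.pi *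
      (U r a + Real.pi / 2 * dens r a * s ^ 2 + k * (s ^ 4 / (2 * A ^ 2))) := by
    have e := potc_trig (U r a + k * (s ^ 2 / A + s ^ 4 / (2 * A ^ 2)))
      (k * (2 * s * a.re / A + 2 * s ^ 3 * a.re / A ^ 2))
      (k * (2 * s * a.im / A + 2 * s ^ 3 * a.im / A ^ 2))
      (k * (2 * s ^ 2 * a.re ^ 2 / A ^ 2)) (k * (2 * s ^ 2 * a.im ^ 2 / A ^ 2))
      (k * (4 * s ^ 2 * a.re * a.im / A ^ 2))
    have e' : (r : ℝ) ^ 2 = A + a.re ^ 2 + a.im ^ 2 := by linarith
    refine (intervalIntegral.integral_congr fun θ _ => ?_).trans (e.trans ?_)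
    · simp only [P, u]
      field_simp
      ring
    · unfold dens
      rw [← hAe, show (r : ℝ) - 1 = 2 * k by rw [hk]; ring, e']
      field_simp
      ring
  have hI : IntervalIntegrable (fun θ => U r (circleMap a s θ)) volume 0 (2 * Real.pi) :=
    U_circleIntegrable hr hs.le h
  have hb : ‖∫ θ in (0 : ℝ)..2 * Real.pi, (U r (circleMap a s θ) - P θ)‖
      ≤ ((r : ℝ) - 1) * s ^ 3 * |2 * Real.pi - 0| := by
    refine intervalIntegral.norm_integral_le_of_norm_le_const fun θ _ => ?_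
    have d : ‖circleMap a s θ - a‖ = s := by simp [abs_of_pos hs]
    have d1 : |‖circleMap a s θ‖ - ‖a‖| ≤ s := (abs_norm_sub_norm_le _ _).trans_eq d
    have := potc_point hr ha (z := circleMap a s θ)
      (by linarith [le_abs_self (‖circleMap a s θ‖ - ‖a‖)]) d1 (u := u θ) (by rw [potc_norm, ← hAe, add_sub_cancel_left])
    rwa [← hk] at this
  rw [intervalIntegral.integral_sub hI (hP.intervalIntegrable _ _), iP, sub_zero,
    abs_of_pos (by positivity), Real.norm_eq_abs] at hb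
  have e1 : (∫ θ in (0 : ℝ)..2 * Real.pi, U r (circleMap a s θ)) = 2 * Real.pi * cU r a s := by
    rw [cU, Real.circleAverage_def, smul_eq_mul]
    field_simp
  rw [e1, ← mul_sub, abs_mul, abs_of_pos (by positivity), mul_comm] at hb
  have hb' := le_of_mul_le_mul_right hb (by positivity)
  have hR : √(r : ℝ) ≤ r := Real.sqrt_le_iff.2 ⟨by linarith, by nlinarith⟩
  have hsA : s ≤ A := by linarith [norm_nonneg a]
  have t1 : s ^ 4 / (2 * A ^ 2) ≤ s ^ 3 := by
    rw [div_le_iff₀ (by positivity), show s ^ 4 = s ^ 3 * s by ring]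
    exact mul_le_mul_of_nonneg_left (by nlinarith) (by positivity)
  have t0 : 0 ≤ s ^ 4 / (2 * A ^ 2) := by positivity
  have k0 : 0 ≤ k := by linarith
  have t2 : k * (s ^ 4 / (2 * A ^ 2)) ≤ k * s ^ 3 := mul_le_mul_of_nonneg_left t1 k0
  have t3 : 0 ≤ k * (s ^ 4 / (2 * A ^ 2)) := mul_nonneg k0 t0
  have t4 : 0 ≤ k * s ^ 3 := by positivity
  have t5 : ((r : ℝ) - 1) * s ^ 3 = 2 * (k * s ^ 3) := by rw [hk]; ring
  have t6 : 2 * ((r : ℝ) - 1) * s ^ 3 = 4 * (k * s ^ 3) := by rw [hk]; ring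
  rw [t5, abs_le] at hb'
  rw [t6, abs_le]
  constructor <;> linarith [hb'.1, hb'.2]

end Pool.Agent.OKM

end FilePotC

section FilePotD

/-!
From circle averages to weak convergence.
`vague`: by compactness there is `δ₀ > 0` with `Adm r a (2δ)` for all `a ∈ tsupport f`, `0 < δ ≤ δ₀`. For rational `δ`,
`F n a = (mlog (Λ n) a (2δ) - mlog (Λ n) a δ)/n = (∑_{w ∈ Λ n} psi δ (w - a))/n ∈ [0, log 2]` is continuous in `a`. Dominated
convergence (`tendsto_integral_of_dominated_convergence`, bound `|f| log 2`): `∫ f F n → ∫ f a (cU a (2δ) - cU a δ)`. With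
`c = 3 π δ^2/2`: `|∫ f a psi δ (w - a) da - c f w| ≤ c ω` where `ω` bounds the oscillation of `f` at scale `2δ` (uniform continuity,
`integral_psi`, `integral_sub_left_eq_self`), and `|∫ f (cU (2δ) - cU δ) - c ∫ f dens| ≤ 9 C δ^3 ∫ |f|` (`cU_taylor`).
-/

open Finset Filter MeasureTheory Topology
open scoped ENNReal BoundedContinuousFunction

namespace Pool.Agent.OKM

variable {r : ℕ}

def Om0 (r : ℕ) : Set ℂ := {z | ‖z‖ < √(r : ℝ) ∧ z.im ≠ 0}

theorem potd_adm {K : Set ℂ} (hK : IsCompact K) (hs : K ⊆ Om0 r) :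
    ∃ δ₀ : ℝ, 0 < δ₀ ∧ ∀ a ∈ K, ∀ s : ℝ, 0 < s → s ≤ δ₀ → Adm r a s := by
  have hc : Continuous fun a : ℂ => min (√(r : ℝ) - ‖a‖) |a.im| := by fun_prop
  obtain ⟨m, hm, h⟩ := hK.exists_forall_le' hc.continuousOn (a := 0)
    fun b hb => lt_min (sub_pos.2 (hs hb).1) (abs_pos.2 (hs hb).2)
  refine ⟨m / 2, half_pos hm, fun a ha s h0 h1 => ⟨h0, ?_, ?_⟩⟩
  · have := (h a ha).trans (min_le_left _ _)
    linarith
  · have := (h a ha).trans (min_le_right _ _)
    linarith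

noncomputable def potd_P (δ : ℝ) (Λ : Multiset ℂ) (a : ℂ) : ℝ :=
  (Λ.map fun w => psi δ (w - a)).sum

theorem potd_P_cons (δ : ℝ) (w : ℂ) (Λ : Multiset ℂ) (a : ℂ) :
    potd_P δ (w ::ₘ Λ) a = psi δ (w - a) + potd_P δ Λ a := by
  simp [potd_P]

theorem potd_P_eq (δ : ℝ) (Λ : Multiset ℂ) (a : ℂ) :
    potd_P δ Λ a = mlog Λ a (2 * δ) - mlog Λ a δ := by
  simp only [potd_P, mlog, psi, Multiset.sum_map_sub]

theorem potd_P_cont {δ : ℝ} (hδ : 0 < δ) (Λ : Multiset ℂ) : Continuous (potd_P δ Λ) := by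
  induction Λ using Multiset.induction_on with
  | empty => exact continuous_const.congr fun a => by simp [potd_P]; rfl
  | cons w Λ ih =>
    exact (((psi_continuous hδ).comp (continuous_const.sub continuous_id)).add ih).congr
      fun a => (potd_P_cons δ w Λ a).symm

theorem potd_P_bd {δ : ℝ} (hδ : 0 < δ) (Λ : Multiset ℂ) (a : ℂ) :
    |potd_P δ Λ a| ≤ Multiset.card Λ * Real.log 2 := by
  induction Λ using Multiset.induction_on with
  | empty => simp [potd_P]
  | cons w Λ ih =>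
    rw [potd_P_cons, Multiset.card_cons]
    refine (abs_add_le _ _).trans ?_
    rw [abs_of_nonneg (psi_nonneg hδ _)]
    push_cast
    linarith [psi_le hδ (w - a)]

theorem potd_one {δ ω : ℝ} (hδ : 0 < δ) {f : ℂ → ℝ} (hf : Continuous f) (hc : HasCompactSupport f)
    (hω : ∀ x y, ‖x - y‖ ≤ 2 * δ → |f x - f y| ≤ ω) (w : ℂ) :
    |(∫ a, f a * psi δ (w - a)) - 3 * Real.pi * δ ^ 2 / 2 * f w| ≤
      3 * Real.pi * δ ^ 2 / 2 * ω := by
  have hi : Integrable fun a => psi δ (w - a) := (psi_integrable hδ).comp_sub_left w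
  have he : ∫ a, psi δ (w - a) = 3 * Real.pi * δ ^ 2 / 2 := by
    rw [integral_sub_left_eq_self, integral_psi hδ]
  have h1 : Integrable fun a => f a * psi δ (w - a) :=
    (hf.mul ((psi_continuous hδ).comp
      (continuous_const.sub continuous_id))).integrable_of_hasCompactSupport hc.mul_right
  rw [← he, ← integral_mul_const, ← integral_mul_const, ← integral_sub h1 (hi.mul_const _)]
  rw [← Real.norm_eq_abs]
  refine norm_integral_le_of_norm_le (hi.mul_const ω) (Eventually.of_forall fun a => ?_)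
  rcases le_total (2 * δ) ‖w - a‖ with h | h
  · simp [psi_eq_zero hδ h]
  · have e : f a * psi δ (w - a) - psi δ (w - a) * f w = psi δ (w - a) * (f a - f w) := by ring
    rw [e, Real.norm_eq_abs, abs_mul, abs_of_nonneg (psi_nonneg hδ _)]
    exact mul_le_mul_of_nonneg_left (hω a w (by rwa [norm_sub_rev])) (psi_nonneg hδ _)

theorem potd_sum {δ ω : ℝ} (hδ : 0 < δ) {f : ℂ → ℝ} (hf : Continuous f) (hc : HasCompactSupport f)
    (hω : ∀ x y, ‖x - y‖ ≤ 2 * δ → |f x - f y| ≤ ω) (Λ : Multiset ℂ) :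
    |(∫ a, f a * potd_P δ Λ a) - 3 * Real.pi * δ ^ 2 / 2 * (Λ.map f).sum| ≤
      Multiset.card Λ * (3 * Real.pi * δ ^ 2 / 2 * ω) := by
  induction Λ using Multiset.induction_on with
  | empty => simp [potd_P]
  | cons w Λ ih =>
    have h1 : Integrable fun a => f a * psi δ (w - a) :=
      (hf.mul ((psi_continuous hδ).comp
        (continuous_const.sub continuous_id))).integrable_of_hasCompactSupport hc.mul_right
    have h2 : Integrable fun a => f a * potd_P δ Λ a :=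
      (hf.mul (potd_P_cont hδ Λ)).integrable_of_hasCompactSupport hc.mul_right
    have h3 := abs_le.1 (potd_one hδ hf hc hω w)
    have h4 := abs_le.1 ih
    simp only [potd_P_cons, mul_add]
    rw [integral_add h1 h2, Multiset.map_cons, Multiset.sum_cons, Multiset.card_cons, abs_le]
    push_cast
    constructor <;> linarith [h3.1, h3.2, h4.1, h4.2]

theorem vague (hr : 3 ≤ r) (Λ : ℕ → Multiset ℂ) (hcard : ∀ n, Multiset.card (Λ n) = n)
    (hlim : ∀ (a : ℂ) (s : ℚ), Adm r a s →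
      Tendsto (fun n : ℕ => mlog (Λ n) a s / n) atTop (𝓝 (cU r a s)))
    (f : ℂ → ℝ) (hf : Continuous f) (hc : HasCompactSupport f) (hs : tsupport f ⊆ Om0 r) :
    Tendsto (fun n : ℕ => ((Λ n).map f).sum / n) atTop (𝓝 (∫ z, f z * dens r z)) := by
  obtain ⟨δ₀, hδ₀, hadm⟩ := potd_adm hc.isCompact hs
  obtain ⟨C, hC, htay⟩ := cU_taylor hr
  have hz : ∀ a, a ∉ tsupport f → f a = 0 := fun a ha => image_eq_zero_of_notMem_tsupport ha
  have hfi : Integrable f := hf.integrable_of_hasCompactSupport hc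
  have hdi : Integrable fun a => f a * dens r a := by
    refine IntegrableOn.integrable_of_forall_notMem_eq_zero (s := tsupport f) ?_
      fun a ha => by rw [hz a ha, zero_mul]
    refine (hf.continuousOn.mul ((dens_continuousOn hr).mono fun a ha => ?_)).integrableOn_compact
      hc.isCompact
    exact mem_closedBall_zero_iff.2 (hs ha).1.le
  set N : ℝ := ∫ a, |f a| with hN
  have hN0 : 0 ≤ N := integral_nonneg fun a => abs_nonneg _
  rw [Metric.tendsto_nhds]
  intro ε hε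
  obtain ⟨δ₁, hδ₁, hu⟩ := Metric.uniformContinuous_iff.1
    (hf.uniformContinuous_of_tendsto_cocompact hc.is_zero_at_infty) (ε / 4) (by positivity)
  have hm : 0 < min (min (δ₀ / 2) (δ₁ / 2)) (ε / (8 * (C * N + 1))) := by positivity
  obtain ⟨q, hq0, hq⟩ := exists_rat_btwn hm
  have hq1 : 2 * (q : ℝ) ≤ δ₀ := by
    linarith [(hq.le.trans (min_le_left _ _)).trans (min_le_left _ _)]
  have hq2 : 2 * (q : ℝ) < δ₁ := by
    linarith [(hq.trans_le (min_le_left _ _)).trans_le (min_le_right _ _)]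
  have hq3 : (q : ℝ) * (8 * (C * N + 1)) ≤ ε :=
    (le_div_iff₀ (by positivity)).1 (hq.le.trans (min_le_right _ _))
  have hω : ∀ x y, ‖x - y‖ ≤ 2 * (q : ℝ) → |f x - f y| ≤ ε / 4 := fun x y h => by
    have := hu (a := x) (b := y) (by rw [dist_eq_norm]; linarith)
    rw [Real.dist_eq] at this
    exact this.le
  set c : ℝ := 3 * Real.pi * (q : ℝ) ^ 2 / 2 with hcdef
  have hc0 : 0 < c := by have := Real.pi_pos; positivity
  have hPi : ∀ n : ℕ, Integrable fun a => f a * potd_P q (Λ n) a / n := fun n =>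
    ((hf.mul (potd_P_cont hq0 _)).integrable_of_hasCompactSupport hc.mul_right).div_const _
  have hdct := tendsto_integral_of_dominated_convergence
    (F := fun (n : ℕ) a => f a * potd_P q (Λ n) a / n - c * (f a * dens r a))
    (f := fun a => f a * (cU r a (2 * q) - cU r a q) - c * (f a * dens r a))
    (fun a => |f a| * Real.log 2 + ‖c * (f a * dens r a)‖)
    (fun n => ((hPi n).sub (hdi.const_mul c)).aestronglyMeasurable)
    ((hfi.abs.mul_const _).add (hdi.const_mul c).norm)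
    (fun n => Eventually.of_forall fun a => by
      refine (norm_sub_le _ _).trans (add_le_add_left ?_ _)
      rw [mul_div_assoc, Real.norm_eq_abs, abs_mul]
      refine mul_le_mul_of_nonneg_left ?_ (abs_nonneg _)
      rw [abs_div, Nat.abs_cast]
      refine div_le_of_le_mul₀ (Nat.cast_nonneg n) (Real.log_nonneg one_le_two) ?_
      have := potd_P_bd hq0 (Λ n) a
      rw [hcard] at this
      linarith)
    (Eventually.of_forall fun a => by
      refine Tendsto.sub_const ?_ _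
      by_cases ha : a ∈ tsupport f
      · have h1 := hlim a (2 * q) (by push_cast; exact hadm a ha _ (by linarith) hq1)
        have h2 := hlim a q (hadm a ha _ hq0 (by linarith))
        push_cast at h1
        simp only [potd_P_eq, mul_div_assoc, sub_div]
        exact (h1.sub h2).const_mul _
      · simp [hz a ha])
  have hg : ‖∫ a, (f a * (cU r a (2 * q) - cU r a q) - c * (f a * dens r a))‖ ≤
      9 * C * (q : ℝ) ^ 3 * N := by
    rw [hN, ← integral_const_mul]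
    refine norm_integral_le_of_norm_le (hfi.abs.const_mul _) (Eventually.of_forall fun a => ?_)
    by_cases ha : a ∈ tsupport f
    · have h1 := abs_le.1 (htay a (2 * q) (by linarith) (hadm a ha _ (by linarith) hq1).2.1.le)
      have h2 := abs_le.1 (htay a q hq0 (hadm a ha _ hq0 (by linarith)).2.1.le)
      have e : f a * (cU r a (2 * q) - cU r a q) - c * (f a * dens r a) =
          (cU r a (2 * q) - cU r a q - c * dens r a) * f a := by ring
      rw [e, Real.norm_eq_abs, abs_mul]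
      refine mul_le_mul_of_nonneg_right (abs_le.2 ⟨?_, ?_⟩) (abs_nonneg _)
      · rw [hcdef]; linarith [h1.1, h2.2]
      · rw [hcdef]; linarith [h1.2, h2.1]
    · simp [hz a ha]
  have hg' : 9 * C * (q : ℝ) ^ 3 * N ≤ c * (ε / 4) := by
    have h1 : 9 / 2 * (q : ℝ) ^ 2 ≤ c := by
      have := mul_le_mul_of_nonneg_right Real.pi_gt_three.le (sq_nonneg (q : ℝ))
      rw [hcdef]; linarith
    have h2 : 2 * (q * (C * N)) ≤ ε / 4 := by linarith
    calc 9 * C * (q : ℝ) ^ 3 * N = 9 / 2 * (q : ℝ) ^ 2 * (2 * (q * (C * N))) := by ring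
      _ ≤ c * (ε / 4) := mul_le_mul h1 h2 (by positivity) hc0.le
  filter_upwards [Metric.tendsto_nhds.1 hdct (c * (ε / 4)) (by positivity),
    eventually_gt_atTop 0] with n h1 hn
  have hn' : (0 : ℝ) < n := by exact_mod_cast hn
  rw [integral_sub (hPi n) (hdi.const_mul c), integral_div, integral_const_mul, Real.dist_eq] at h1
  have h2 := potd_sum hq0 hf hc hω (Λ n)
  rw [hcard, ← hcdef] at h2
  have h3 : |(∫ a, f a * potd_P q (Λ n) a) / n - c * (((Λ n).map f).sum / n)| ≤ c * (ε / 4) := by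
    rw [← mul_div_assoc, ← sub_div, abs_div, abs_of_pos hn', div_le_iff₀ hn']
    linarith
  have h4 := abs_le.1 (hg.trans hg')
  have h5 := abs_lt.1 h1
  have h6 := abs_le.1 h3
  have h7 : 0 < c * ε := by positivity
  rw [Real.dist_eq, abs_lt]
  constructor
  · refine lt_of_mul_lt_mul_left ?_ hc0.le
    linarith [h4.1, h4.2, h5.1, h5.2, h6.1, h6.2]
  · refine lt_of_mul_lt_mul_left ?_ hc0.le
    linarith [h4.1, h4.2, h5.1, h5.2, h6.1, h6.2]

end Pool.Agent.OKM

end FilePotD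

section FilePotE

/-!
From vague convergence to weak convergence.
`weak`: cut-offs `χ k z = clamp (k (√r - ‖z‖) - 1) * clamp (k |im z| - 1)` with `clamp t = max 0 (min 1 t)`: continuous, compactly
supported in `Om0`, `0 ≤ χ ≤ 1`, `χ k → 1` on `Om0`, which is the ball up to a null set (the real axis:
`Measure.addHaar_submodule` or `Complex.volume_preserving_equiv_real_prod`); so `∫ χ k dens → 1` (`dens_mass`, dominated
convergence, `dens_continuousOn`), and `|avg f - avg (f χ)| ≤ ‖f‖ (1 - avg χ)`.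
`integral_emp`: `integral_smul_measure`, induction on the multiset (`integral_add_measure`, `integral_dirac`; the sum of the
Dirac masses is a finite measure).
-/

open Finset Filter MeasureTheory Topology
open scoped ENNReal BoundedContinuousFunction

namespace Pool.Agent.OKM

variable {r : ℕ}

/-- the cut-off functions -/
noncomputable def pote_chi (R : ℝ) (k : ℕ) (z : ℂ) : ℝ :=
  max 0 (min 1 (k * (R - ‖z‖) - 1)) * max 0 (min 1 (k * |z.im| - 1))

theorem pote_cont (R : ℝ) (k : ℕ) : Continuous (pote_chi R k) := by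
  unfold pote_chi; fun_prop

theorem pote_nonneg (R : ℝ) (k : ℕ) (z : ℂ) : 0 ≤ pote_chi R k z :=
  mul_nonneg (le_max_left _ _) (le_max_left _ _)

theorem pote_le (R : ℝ) (k : ℕ) (z : ℂ) : pote_chi R k z ≤ 1 :=
  mul_le_one₀ (max_le zero_le_one (min_le_left _ _)) (le_max_left _ _)
    (max_le zero_le_one (min_le_left _ _))

theorem pote_supp (k : ℕ) (g : ℂ → ℝ) :
    tsupport (fun z => g z * pote_chi √(r : ℝ) k z) ⊆
      {z | 1 ≤ k * (√(r : ℝ) - ‖z‖) ∧ 1 ≤ k * |z.im|} := by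
  have c1 : IsClosed {z : ℂ | 1 ≤ k * (√(r : ℝ) - ‖z‖)} := isClosed_le continuous_const (by fun_prop)
  have c2 : IsClosed {z : ℂ | 1 ≤ k * |z.im|} := isClosed_le continuous_const (by fun_prop)
  refine closure_minimal (fun z hz => ?_) (c1.inter c2)
  have h := right_ne_zero_of_mul hz
  constructor
  · by_contra h1
    exact left_ne_zero_of_mul h (max_eq_left ((min_le_right _ _).trans (by linarith [not_le.1 h1])))
  · by_contra h1
    exact right_ne_zero_of_mul h (max_eq_left ((min_le_right _ _).trans (by linarith [not_le.1 h1])))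

theorem pote_sub (k : ℕ) (g : ℂ → ℝ) : tsupport (fun z => g z * pote_chi √(r : ℝ) k z) ⊆ Om0 r := by
  intro z hz
  obtain ⟨h1, h2⟩ := pote_supp k g hz
  have hk : (0 : ℝ) ≤ k := Nat.cast_nonneg k
  constructor
  · by_contra h
    have := mul_nonpos_of_nonneg_of_nonpos hk (sub_nonpos.2 (not_lt.1 h))
    linarith
  · intro h
    rw [h, abs_zero, mul_zero] at h2
    linarith

theorem pote_ball : Om0 r ⊆ Metric.ball (0 : ℂ) √(r : ℝ) := fun _ hz => mem_ball_zero_iff.2 hz.1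

theorem pote_cpt (k : ℕ) (g : ℂ → ℝ) : HasCompactSupport fun z => g z * pote_chi √(r : ℝ) k z :=
  (isCompact_closedBall (0 : ℂ) √(r : ℝ)).of_isClosed_subset (isClosed_tsupport _)
    (((pote_sub k g).trans pote_ball).trans Metric.ball_subset_closedBall)

theorem pote_int (k : ℕ) (g : ℂ → ℝ) : ∫ z, g z * pote_chi √(r : ℝ) k z * dens r z =
    ∫ z in Metric.ball (0 : ℂ) √(r : ℝ), g z * pote_chi √(r : ℝ) k z * dens r z := by
  refine (setIntegral_eq_integral_of_forall_compl_eq_zero fun z hz => ?_).symm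
  have : g z * pote_chi √(r : ℝ) k z = 0 := by
    by_contra h
    exact hz (pote_ball (pote_sub k g (subset_tsupport _ h)))
  rw [this, zero_mul]

theorem pote_null : ∀ᵐ z : ℂ, z.im ≠ 0 := by
  have h := Measure.addHaar_submodule (volume : Measure ℂ) (LinearMap.ker Complex.imLm) (by
    intro h
    have h1 : Complex.I ∈ LinearMap.ker Complex.imLm := by rw [h]; trivial
    simp at h1)
  rw [ae_iff]
  refine measure_mono_null (fun z hz => ?_) h
  simpa using hz

theorem pote_dens (hr : 3 ≤ r) : IntegrableOn (dens r) (Metric.ball (0 : ℂ) √(r : ℝ)) :=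
  ((dens_continuousOn hr).integrableOn_compact (isCompact_closedBall _ _)).mono_set
    Metric.ball_subset_closedBall

theorem pote_clamp {t : ℝ} (ht : 0 < t) : ∀ᶠ k : ℕ in atTop, max 0 (min 1 (k * t - 1)) = 1 := by
  filter_upwards [(tendsto_natCast_atTop_atTop.atTop_mul_const ht).eventually_ge_atTop 2] with k hk
  rw [min_eq_left (by linarith), max_eq_right zero_le_one]

theorem pote_lim (hr : 3 ≤ r) : Tendsto (fun k : ℕ =>
    ∫ z in Metric.ball (0 : ℂ) √(r : ℝ), pote_chi √(r : ℝ) k z * dens r z) atTop (𝓝 1) := by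
  rw [← dens_mass hr]
  refine tendsto_integral_of_dominated_convergence (dens r)
    (fun k => (pote_cont _ k).aestronglyMeasurable.mul (pote_dens hr).aestronglyMeasurable)
    (pote_dens hr) (fun k => Eventually.of_forall fun z => ?_) ?_
  · rw [Real.norm_of_nonneg (mul_nonneg (pote_nonneg _ _ _) (dens_nonneg hr z))]
    exact mul_le_of_le_one_left (dens_nonneg hr z) (pote_le _ _ _)
  · filter_upwards [ae_restrict_mem Metric.isOpen_ball.measurableSet, ae_restrict_of_ae pote_null]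
      with z h1 h2
    refine tendsto_const_nhds.congr' ?_
    filter_upwards [pote_clamp (sub_pos.2 (mem_ball_zero_iff.1 h1)), pote_clamp (abs_pos.2 h2)]
      with k h3 h4
    rw [pote_chi, h3, h4, one_mul, one_mul]

theorem pote_pt (f : ℂ →ᵇ ℝ) (R : ℝ) (k : ℕ) (z : ℂ) :
    |f z - f z * pote_chi R k z| ≤ ‖f‖ * (1 - pote_chi R k z) := by
  have h := sub_nonneg.2 (pote_le R k z)
  rw [← mul_one_sub, abs_mul, abs_of_nonneg h]
  exact mul_le_mul_of_nonneg_right (f.norm_coe_le_norm z) h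

theorem pote_sum (f : ℂ →ᵇ ℝ) (R : ℝ) (k : ℕ) (Λ : Multiset ℂ) :
    |(Λ.map f).sum - (Λ.map fun z => f z * pote_chi R k z).sum| ≤
      ‖f‖ * (Multiset.card Λ - (Λ.map fun z => 1 * pote_chi R k z).sum) := by
  induction Λ using Multiset.induction_on with
  | empty => simp
  | cons a Λ ih =>
    simp only [Multiset.map_cons, Multiset.sum_cons, Multiset.card_cons, Nat.cast_add, Nat.cast_one]
    have h1 := pote_pt f R k a
    rw [abs_le] at h1 ih ⊢
    constructor <;> linarith [h1.1, h1.2, ih.1, ih.2]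

theorem pote_diff (hr : 3 ≤ r) (f : ℂ →ᵇ ℝ) (k : ℕ) :
    |(∫ z in Metric.ball (0 : ℂ) √(r : ℝ), f z * dens r z) -
      ∫ z in Metric.ball (0 : ℂ) √(r : ℝ), f z * pote_chi √(r : ℝ) k z * dens r z| ≤
      ‖f‖ * (1 - ∫ z in Metric.ball (0 : ℂ) √(r : ℝ), pote_chi √(r : ℝ) k z * dens r z) := by
  have hd := pote_dens hr
  have h1 : IntegrableOn (fun z => f z * dens r z) (Metric.ball (0 : ℂ) √(r : ℝ)) :=
    hd.bdd_mul f.continuous.aestronglyMeasurable (Eventually.of_forall f.norm_coe_le_norm)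
  have h2 : IntegrableOn (fun z => pote_chi √(r : ℝ) k z * dens r z)
      (Metric.ball (0 : ℂ) √(r : ℝ)) :=
    hd.bdd_mul (c := 1) (pote_cont _ k).aestronglyMeasurable (Eventually.of_forall fun z => by
      rw [Real.norm_of_nonneg (pote_nonneg _ _ _)]; exact pote_le _ _ _)
  have h3 : IntegrableOn (fun z => f z * pote_chi √(r : ℝ) k z * dens r z)
      (Metric.ball (0 : ℂ) √(r : ℝ)) := by
    simp only [mul_assoc]
    exact h2.bdd_mul f.continuous.aestronglyMeasurable (Eventually.of_forall f.norm_coe_le_norm)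
  rw [← integral_sub h1 h3, ← dens_mass hr, ← integral_sub hd h2, ← integral_const_mul,
    ← Real.norm_eq_abs]
  refine norm_integral_le_of_norm_le ((hd.sub h2).const_mul _) (Eventually.of_forall fun z => ?_)
  rw [← sub_mul, ← one_sub_mul, ← mul_assoc, Real.norm_eq_abs, abs_mul,
    abs_of_nonneg (dens_nonneg hr z)]
  exact mul_le_mul_of_nonneg_right (pote_pt f _ k z) (dens_nonneg hr z)

theorem weak (hr : 3 ≤ r) (Λ : ℕ → Multiset ℂ) (hcard : ∀ n, Multiset.card (Λ n) = n)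
    (hv : ∀ f : ℂ → ℝ, Continuous f → HasCompactSupport f → tsupport f ⊆ Om0 r →
      Tendsto (fun n : ℕ => ((Λ n).map f).sum / n) atTop (𝓝 (∫ z, f z * dens r z)))
    (f : ℂ →ᵇ ℝ) :
    Tendsto (fun n : ℕ => ((Λ n).map f).sum / n) atTop
      (𝓝 (∫ z in Metric.ball (0 : ℂ) √(r : ℝ), f z * dens r z)) := by
  rw [Metric.tendsto_nhds]
  intro ε hε
  have h0 : Tendsto (fun k : ℕ => ‖f‖ *
      (1 - ∫ z in Metric.ball (0 : ℂ) √(r : ℝ), pote_chi √(r : ℝ) k z * dens r z)) atTop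
      (𝓝 (‖f‖ * (1 - 1))) := (tendsto_const_nhds.sub (pote_lim hr)).const_mul _
  rw [sub_self, mul_zero] at h0
  obtain ⟨k, hk⟩ := (h0.eventually_lt_const (show 0 < ε / 4 by positivity)).exists
  have h1 := hv (fun z => f z * pote_chi √(r : ℝ) k z) (f.continuous.mul (pote_cont _ k))
    (pote_cpt k f) (pote_sub k f)
  have h2 := hv (fun z => 1 * pote_chi √(r : ℝ) k z) (continuous_const.mul (pote_cont _ k))
    (pote_cpt k fun _ => 1) (pote_sub k fun _ => 1)
  rw [pote_int k f] at h1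
  rw [pote_int k fun _ => 1] at h2
  have h3 := (tendsto_const_nhds (x := (1 : ℝ)).sub h2).const_mul ‖f‖
  simp only [one_mul (pote_chi _ _ _ )] at h3
  have h4 := pote_diff hr f k
  filter_upwards [Metric.tendsto_nhds.1 h1 (ε / 4) (by positivity), h3.eventually_lt_const hk,
    eventually_gt_atTop 0] with n h5 h6 hn
  have hn' : (0 : ℝ) < n := Nat.cast_pos.2 hn
  have h7 := div_le_div_of_nonneg_right (pote_sum f √(r : ℝ) k (Λ n)) hn'.le
  rw [hcard, mul_div_assoc, sub_div, div_self hn'.ne', ← abs_of_pos hn', ← abs_div, abs_of_pos hn',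
    sub_div] at h7
  simp only [one_mul (pote_chi _ _ _ )] at h7
  rw [Real.dist_eq] at h5 ⊢
  rw [abs_lt] at h5 ⊢
  rw [abs_le] at h4 h7
  constructor <;> linarith [h4.1, h4.2, h5.1, h5.2, h7.1, h7.2]

theorem pote_fin (Λ : Multiset ℂ) :
    IsFiniteMeasure ((Λ.map fun z : ℂ => Measure.dirac z).sum) := by
  induction Λ using Multiset.induction_on with
  | empty => rw [Multiset.map_zero, Multiset.sum_zero]; infer_instance
  | cons a Λ ih => rw [Multiset.map_cons, Multiset.sum_cons]; infer_instance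

theorem integral_emp (Λ : Multiset ℂ) (n : ℕ) (f : ℂ →ᵇ ℝ) :
    ∫ z, f z ∂(((n : ℝ≥0∞)⁻¹) • ((Λ.map fun z : ℂ => Measure.dirac z).sum))
      = (Λ.map f).sum / n := by
  have h : ∫ z, f z ∂((Λ.map fun z : ℂ => Measure.dirac z).sum) = (Λ.map f).sum := by
    induction Λ using Multiset.induction_on with
    | empty => simp
    | cons a Λ ih =>
      have := pote_fin Λ
      rw [Multiset.map_cons, Multiset.sum_cons, Multiset.map_cons, Multiset.sum_cons,
        integral_add_measure (f.integrable _) (f.integrable _), ih, integral_dirac]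
  rw [integral_smul_measure, h, ENNReal.toReal_inv, ENNReal.toReal_natCast, smul_eq_mul,
    div_eq_inv_mul]

end Pool.Agent.OKM

end FilePotE

end

-- part MP_5d5bd1_pr.Final
section

section FileFMain

/-!
The least singular value is not tiny on a whole disc.
`stepA`: `s₁ = min s 1`, `ρ' = s₁^2 / r`, `ε = (r-1) ρ'^2/(16 r^2)`, points `z_l = a + ρ' I^l` (`l < 4`). If no point of the disc is
`Small`, all determinants there are nonzero (`small_of_det`), so all roots `w` have `‖w - a‖ > s` (`det_mat_eq`);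
`∏_l (z_l - w) = (a-w)^4 - ρ'^4` up to sign gives `∑_l log ‖z_l - w‖ ≤ 4 log ‖a - w‖ + (ρ'/s₁)^4`; `log_det_mat`;
`∑_l U z_l ≥ 4 U a + 2 (r-1) ρ'^2/r^2` (`∑_l ‖z_l‖^2 = 4 ‖a‖^2 + 4 ρ'^2`, `log x - log y ≤ (x - y)/y` with
`y = r^2 - ‖a‖^2 ≤ r^2`); and `(ρ'/s₁)^4 = ρ'^2/r^2`.
`rare_bad`: `ρ` from `adm_om`, `c` from `rare_lb`, `φ, κ` from `rare_exp`, `ε` from `stepA`.
`G' π := LBall ∧ upper bound at a ∧ CAll ρ π ∧ CAll ρ π⁻¹`, `G'' π := Exp ∧ CAll ρ π⁻¹ ∧ Tree (1/(2000 r)) 1`. For `π` in the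
event and `G''`, at least `(n r / 2) (n/1000)` pairs `(α, β)` have `¬ G' (sw π α β)` or (`G'` and `ClassI (sw π α β) α β`)
(`fdet`, `stepA`, `loops_le`). Summing over `π` and using `pr_mul_right` for each pair, and `classI_count`:
`pr ≤ (2000/(r n^2)) (r^2 n^2 pr (¬ G') + LF n * 4000 r^3 n^0.95)`, and `LF n * n^(-1.05) ≤ n^(-1.02)` eventually.
`rare_low`: if no point of the disc has the lower bound and `LBall` holds then every point is `Small`.
-/

open Finset Filter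

namespace Pool.Agent.OKM

variable {n r : ℕ}

theorem fmain_four {x : ℂ} {t q : ℝ} (ht : 0 < t) (hq : 0 < q) (htq : t ≤ q) (hx : q < ‖x‖) :
    Real.log ‖x + t‖ + Real.log ‖x - t‖ + Real.log ‖x + t * Complex.I‖
      + Real.log ‖x - t * Complex.I‖ ≤ 4 * Real.log ‖x‖ + (t / q) ^ 4 := by
  have hx0 : 0 < ‖x‖ := hq.trans hx
  have hn : ∀ u : ℂ, ‖u‖ = t → ‖x + u‖ ≠ 0 := by
    intro u hu h
    have h1 : x = -u := eq_neg_of_add_eq_zero_left (norm_eq_zero.1 h)
    rw [h1, norm_neg, hu] at hx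
    linarith
  have e1 : ‖(t : ℂ)‖ = t := by rw [Complex.norm_real, Real.norm_of_nonneg ht.le]
  have e2 : ‖(t : ℂ) * Complex.I‖ = t := by rw [norm_mul, e1, Complex.norm_I, mul_one]
  have h1 := hn _ e1
  have h2 : ‖x - t‖ ≠ 0 := by
    rw [sub_eq_add_neg]; exact hn _ (by rw [norm_neg, e1])
  have h3 := hn _ e2
  have h4 : ‖x - t * Complex.I‖ ≠ 0 := by
    rw [sub_eq_add_neg]; exact hn _ (by rw [norm_neg, e2])
  rw [← Real.log_mul h1 h2, ← Real.log_mul (mul_ne_zero h1 h2) h3,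
    ← Real.log_mul (mul_ne_zero (mul_ne_zero h1 h2) h3) h4]
  have hpos : 0 < ‖x + t‖ * ‖x - t‖ * ‖x + t * Complex.I‖ * ‖x - t * Complex.I‖ := by positivity
  have e3 : (x + t) * (x - t) * (x + t * Complex.I) * (x - t * Complex.I) = x ^ 4 - (t : ℂ) ^ 4 := by
    linear_combination (-(x ^ 2 - (t : ℂ) ^ 2) * (t : ℂ) ^ 2) * Complex.I_sq
  have h5 : ‖x + t‖ * ‖x - t‖ * ‖x + t * Complex.I‖ * ‖x - t * Complex.I‖
      ≤ ‖x‖ ^ 4 * (1 + (t / q) ^ 4) := by
    rw [← norm_mul, ← norm_mul, ← norm_mul, e3]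
    refine (norm_sub_le _ _).trans ?_
    rw [norm_pow, norm_pow, e1, mul_add, mul_one, ← mul_pow]
    have : t ≤ ‖x‖ * (t / q) := by
      rw [← mul_div_assoc, le_div_iff₀ hq, mul_comm]
      gcongr
    gcongr
  refine (Real.log_le_log hpos h5).trans ?_
  rw [Real.log_mul (by positivity) (by positivity), Real.log_pow]
  have := Real.log_le_sub_one_of_pos (x := 1 + (t / q) ^ 4) (by positivity)
  push_cast
  linarith

theorem fmain_U (hr : 3 ≤ r) {a z : ℂ} (ha : ‖a‖ ≤ √(r : ℝ)) (hz : ‖z‖ ≤ √(r : ℝ)) :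
    U r a + ((r : ℝ) - 1) / 2 * ((‖z‖ ^ 2 - ‖a‖ ^ 2) / ((r : ℝ) ^ 2 - ‖a‖ ^ 2)) ≤ U r z := by
  have hr' : (3 : ℝ) ≤ r := by exact_mod_cast hr
  have key : ∀ w : ℂ, ‖w‖ ≤ √(r : ℝ) → 0 < (r : ℝ) ^ 2 - ‖w‖ ^ 2 := by
    intro w hw
    have : ‖w‖ ^ 2 ≤ r := (Real.le_sqrt (norm_nonneg _) (by linarith)).1 hw
    nlinarith
  have hy := key a ha
  have hx := key z hz
  have h1 := Real.log_le_sub_one_of_pos (div_pos hx hy)
  rw [Real.log_div hx.ne' hy.ne'] at h1
  have h2 : ((r : ℝ) ^ 2 - ‖z‖ ^ 2) / ((r : ℝ) ^ 2 - ‖a‖ ^ 2) - 1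
      = -((‖z‖ ^ 2 - ‖a‖ ^ 2) / ((r : ℝ) ^ 2 - ‖a‖ ^ 2)) := by
    field_simp
    ring
  rw [h2] at h1
  unfold U
  have h3 := mul_le_mul_of_nonneg_left h1 (show (0 : ℝ) ≤ (r : ℝ) - 1 by linarith)
  linarith

theorem fmain_U4 (hr : 3 ≤ r) {a : ℂ} {t : ℝ} (ha : ‖a‖ ≤ √(r : ℝ))
    (h1 : ‖a + t‖ ≤ √(r : ℝ)) (h2 : ‖a - t‖ ≤ √(r : ℝ)) (h3 : ‖a + t * Complex.I‖ ≤ √(r : ℝ))
    (h4 : ‖a - t * Complex.I‖ ≤ √(r : ℝ)) :
    4 * U r a + 2 * ((r : ℝ) - 1) * (t ^ 2 / (r : ℝ) ^ 2) ≤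
      U r (a + t) + U r (a - t) + U r (a + t * Complex.I) + U r (a - t * Complex.I) := by
  have hr' : (3 : ℝ) ≤ r := by exact_mod_cast hr
  have b1 := fmain_U hr ha h1
  have b2 := fmain_U hr ha h2
  have b3 := fmain_U hr ha h3
  have b4 := fmain_U hr ha h4
  have hy : 0 < (r : ℝ) ^ 2 - ‖a‖ ^ 2 := by
    have : ‖a‖ ^ 2 ≤ r := (Real.le_sqrt (norm_nonneg _) (by linarith)).1 ha
    nlinarith
  have e : (‖a + t‖ ^ 2 - ‖a‖ ^ 2) + (‖a - t‖ ^ 2 - ‖a‖ ^ 2) + (‖a + t * Complex.I‖ ^ 2 - ‖a‖ ^ 2)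
      + (‖a - t * Complex.I‖ ^ 2 - ‖a‖ ^ 2) = 4 * t ^ 2 := by
    simp only [Complex.sq_norm, Complex.normSq_apply, Complex.add_re, Complex.add_im,
      Complex.sub_re, Complex.sub_im, Complex.mul_re, Complex.mul_im, Complex.ofReal_re,
      Complex.ofReal_im, Complex.I_re, Complex.I_im]
    ring
  have e2 : (‖a + t‖ ^ 2 - ‖a‖ ^ 2) / ((r : ℝ) ^ 2 - ‖a‖ ^ 2)
      + (‖a - t‖ ^ 2 - ‖a‖ ^ 2) / ((r : ℝ) ^ 2 - ‖a‖ ^ 2)
      + (‖a + t * Complex.I‖ ^ 2 - ‖a‖ ^ 2) / ((r : ℝ) ^ 2 - ‖a‖ ^ 2)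
      + (‖a - t * Complex.I‖ ^ 2 - ‖a‖ ^ 2) / ((r : ℝ) ^ 2 - ‖a‖ ^ 2)
      = 4 * (t ^ 2 / ((r : ℝ) ^ 2 - ‖a‖ ^ 2)) := by
    rw [← add_div, ← add_div, ← add_div, e, mul_div_assoc]
  have h5 : t ^ 2 / (r : ℝ) ^ 2 ≤ t ^ 2 / ((r : ℝ) ^ 2 - ‖a‖ ^ 2) :=
    div_le_div_of_nonneg_left (sq_nonneg _) hy (by linarith [sq_nonneg ‖a‖])
  have h6 := mul_le_mul_of_nonneg_left h5 (show (0 : ℝ) ≤ (r : ℝ) - 1 by linarith)
  have h7 := congrArg (fun x => ((r : ℝ) - 1) / 2 * x) e2
  simp only [mul_add] at h7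
  linarith

theorem stepA (hr : 3 ≤ r) {a : ℂ} {s : ℝ} (hadm : Adm r a s) :
    ∃ ε : ℝ, 0 < ε ∧ ∀ (n : ℕ) (π : Cfg n r) (ρ T : ℝ), 1 ≤ n → 0 ≤ T →
      Metric.closedBall a s ⊆ Om r ρ → LBall ρ ε T π →
      ‖(mat π a).det‖ ^ 2 ≤ Real.exp (2 * n * (U r a + ε)) →
      ∃ z ∈ Metric.closedBall a s, Small π z T := by
  obtain ⟨hs, hs2, -⟩ := hadm
  have hr' : (3 : ℝ) ≤ r := by exact_mod_cast hr
  obtain ⟨q, hq0, hqs, hq1⟩ : ∃ q : ℝ, 0 < q ∧ q ≤ s ∧ q ≤ 1 :=
    ⟨min s 1, lt_min hs one_pos, min_le_left _ _, min_le_right _ _⟩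
  obtain ⟨t, ht⟩ : ∃ t : ℝ, t = q ^ 2 / r := ⟨_, rfl⟩
  have ht0 : 0 < t := by rw [ht]; positivity
  have htq : t ≤ q := by
    rw [ht, div_le_iff₀ (by linarith)]
    nlinarith
  have ht4 : (t / q) ^ 4 = t ^ 2 / (r : ℝ) ^ 2 := by
    rw [ht]
    field_simp
  obtain ⟨m, hm⟩ : ∃ m : ℝ, m = t ^ 2 / (r : ℝ) ^ 2 := ⟨_, rfl⟩
  have hm0 : 0 < m := by rw [hm]; positivity
  refine ⟨((r : ℝ) - 1) * m / 16, div_pos (mul_pos (by linarith) hm0) (by norm_num),
    fun n π ρ T hn hT hD hLB hup => ?_⟩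
  by_contra hno
  have hns : ∀ z ∈ Metric.closedBall a s, ¬ Small π z T := fun z hz h => hno ⟨z, hz, h⟩
  have hdet : ∀ z ∈ Metric.closedBall a s, (mat π z).det ≠ 0 :=
    fun z hz h => hns z hz (small_of_det hT h)
  have hroot : ∀ w ∈ (adj π).charpoly.roots, q < ‖a - w‖ := by
    intro w hw
    by_contra h
    have h1 : w ∈ Metric.closedBall a s := by
      rw [mem_closedBall_iff_norm']
      linarith [not_lt.1 h]
    exact (log_det_mat π w (hdet w h1)).1 w hw rfl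
  have hb : ∀ z ∈ Metric.closedBall a s, ‖z‖ ≤ √(r : ℝ) := by
    intro z hz
    have h1 := mem_closedBall_iff_norm.1 hz
    have h2 := norm_le_norm_add_norm_sub' z a
    linarith
  have hl : ∀ z ∈ Metric.closedBall a s, n * (U r z - ((r : ℝ) - 1) * m / 16) ≤
      ((adj π).charpoly.roots.map fun w => Real.log ‖z - w‖).sum := by
    intro z hz
    rw [← (log_det_mat π z (hdet z hz)).2]
    exact hLB z (hD hz) (hns z hz)
  have e1 : ‖(t : ℂ)‖ = t := by rw [Complex.norm_real, Real.norm_of_nonneg ht0.le]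
  have e2 : ‖(t : ℂ) * Complex.I‖ = t := by rw [norm_mul, e1, Complex.norm_I, mul_one]
  have m0 : a ∈ Metric.closedBall a s := Metric.mem_closedBall_self hs.le
  have m1 : a + t ∈ Metric.closedBall a s := by
    rw [mem_closedBall_iff_norm, add_sub_cancel_left, e1]; linarith
  have m2 : a - t ∈ Metric.closedBall a s := by
    rw [mem_closedBall_iff_norm, sub_sub_cancel_left, norm_neg, e1]; linarith
  have m3 : a + t * Complex.I ∈ Metric.closedBall a s := by
    rw [mem_closedBall_iff_norm, add_sub_cancel_left, e2]; linarith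
  have m4 : a - t * Complex.I ∈ Metric.closedBall a s := by
    rw [mem_closedBall_iff_norm, sub_sub_cancel_left, norm_neg, e2]; linarith
  have hU := fmain_U4 hr (hb _ m0) (hb _ m1) (hb _ m2) (hb _ m3) (hb _ m4)
  have hsum : ((adj π).charpoly.roots.map fun w => Real.log ‖a + t - w‖ + Real.log ‖a - t - w‖ +
      Real.log ‖a + t * Complex.I - w‖ + Real.log ‖a - t * Complex.I - w‖).sum ≤
      ((adj π).charpoly.roots.map fun w => 4 * Real.log ‖a - w‖ + m).sum := by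
    refine Multiset.sum_map_le_sum_map _ _ fun w hw => ?_
    have h := fmain_four ht0 hq0 htq (hroot w hw)
    rw [ht4, ← hm] at h
    rwa [add_sub_right_comm, sub_right_comm a (t : ℂ), add_sub_right_comm,
      sub_right_comm a ((t : ℂ) * Complex.I)]
  rw [Multiset.sum_map_add, Multiset.sum_map_add, Multiset.sum_map_add, Multiset.sum_map_add,
    Multiset.sum_map_mul_left, Multiset.map_const', Multiset.sum_replicate, card_roots_adj,
    nsmul_eq_mul, ← (log_det_mat π a (hdet a m0)).2] at hsum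
  have hu : 2 * Real.log ‖(mat π a).det‖ ≤ 2 * n * (U r a + ((r : ℝ) - 1) * m / 16) := by
    have h0 : 0 < ‖(mat π a).det‖ := norm_pos_iff.2 (hdet a m0)
    have h := Real.log_le_log (by positivity) hup
    rw [Real.log_pow, Real.log_exp] at h
    exact_mod_cast h
  have hn' : (1 : ℝ) ≤ n := by exact_mod_cast hn
  have l1 := hl _ m1
  have l2 := hl _ m2
  have l3 := hl _ m3
  have l4 := hl _ m4
  rw [← hm] at hU
  have hU' := mul_le_mul_of_nonneg_left hU (show (0 : ℝ) ≤ n by linarith)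
  have hp : 0 < (n : ℝ) * m := by positivity
  have hp2 := mul_le_mul_of_nonneg_left hr' hp.le
  linarith

theorem fmain_ex_const (K : ℝ) : ex (fun _ : Cfg n r => K) = K := by
  have h1 : pr (fun _ : Cfg n r => ¬ False) = 1 := by
    rw [pr_not, pr_eq_zero fun _ h => h, sub_zero]
  have h2 := ex_ite (fun _ : Cfg n r => ¬ False) K
  rw [h1, mul_one] at h2
  simpa using h2

theorem fmain_ex_ite (E : Cfg n r → Prop) [DecidablePred E] :
    ex (fun π => if E π then (1 : ℝ) else 0) = pr E := by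
  have h := ex_ite E 1
  rw [one_mul] at h
  rw [← h]
  congr 1
  funext π
  congr

open Classical in
/-- double counting over switchings -/
theorem fmain_count {E G : Cfg n r → Prop} {C : Cfg n r → St n r → St n r → Prop} {a K : ℝ}
    (ha : 0 < a) (hK : 0 ≤ K)
    (h1 : ∀ π, E π → a ≤ ((univ.filter fun p : St n r × St n r =>
      ¬ G (sw π p.1 p.2) ∨ (G (sw π p.1 p.2) ∧ C (sw π p.1 p.2) p.1 p.2)).card : ℝ))
    (h2 : ∀ π, G π → ((univ.filter fun p : St n r × St n r => C π p.1 p.2).card : ℝ) ≤ K) :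
    pr E ≤ (((n : ℝ) * r) ^ 2 * pr (fun π => ¬ G π) + K) / a := by
  have hm := markov (f := fun π : Cfg n r => ∑ p : St n r × St n r,
    if ¬ G (sw π p.1 p.2) ∨ (G (sw π p.1 p.2) ∧ C (sw π p.1 p.2) p.1 p.2) then (1 : ℝ) else 0)
    (fun π => sum_nonneg fun p _ => by split_ifs <;> norm_num) ha
  refine le_trans (pr_mono fun π h => ?_) (hm.trans ?_)
  · rw [sum_boole]
    exact h1 π h
  gcongr
  rw [ex_sum]
  have h3 : ∀ p : St n r × St n r, ex (fun π : Cfg n r =>
      if ¬ G (sw π p.1 p.2) ∨ (G (sw π p.1 p.2) ∧ C (sw π p.1 p.2) p.1 p.2) then (1 : ℝ) else 0)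
      ≤ pr (fun π => ¬ G π) + ex (fun π : Cfg n r => if G π ∧ C π p.1 p.2 then (1 : ℝ) else 0) := by
    intro p
    have e3 := pr_mul_right (fun π : Cfg n r => ¬ G π ∨ (G π ∧ C π p.1 p.2)) (Equiv.swap p.1 p.2)
    have e4 := pr_or_le (fun π : Cfg n r => ¬ G π) (fun π => G π ∧ C π p.1 p.2)
    rw [fmain_ex_ite, fmain_ex_ite]
    exact e3.trans_le e4
  refine (sum_le_sum fun p _ => h3 p).trans ?_
  rw [sum_add_distrib, sum_const, nsmul_eq_mul, ← ex_sum]
  refine add_le_add (le_of_eq ?_) ?_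
  · simp [sq]
  · rw [← fmain_ex_const (n := n) (r := r) K]
    refine ex_mono fun π => ?_
    by_cases hG : G π
    · simp only [hG, true_and]
      rw [sum_boole]
      exact h2 π hG
    · simpa [hG] using hK

open Classical in
theorem fmain_pairs (hr : 3 ≤ r) {π : Cfg n r} (hT : Tree (1 / (2000 * r)) 1 π)
    {P : St n r → St n r → Prop}
    (h : ∀ α : St n r, hd π α ≠ α.1 → n ≤ 1000 * (univ.filter fun β => P α β).card) :
    (n : ℝ) ^ 2 * r / 2000 ≤ ((univ.filter fun p : St n r × St n r => P p.1 p.2).card : ℝ) := by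
  have hr' : (3 : ℝ) ≤ r := by exact_mod_cast hr
  have h1 : (univ.filter fun p : St n r × St n r => P p.1 p.2).card
      = ∑ α : St n r, (univ.filter fun β => P α β).card := by
    simp only [card_filter]
    rw [Fintype.sum_prod_type]
  have h2 : (univ.filter fun α : St n r => ¬ hd π α = α.1).card * n
      ≤ 1000 * (univ.filter fun p : St n r × St n r => P p.1 p.2).card := by
    rw [h1, mul_sum]
    calc _ = ∑ _α ∈ univ.filter fun α : St n r => ¬ hd π α = α.1, n := by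
          rw [sum_const, smul_eq_mul]
      _ ≤ ∑ α ∈ univ.filter fun α : St n r => ¬ hd π α = α.1,
            1000 * (univ.filter fun β => P α β).card :=
          sum_le_sum fun α hα => h α (mem_filter.1 hα).2
      _ ≤ _ := sum_le_sum_of_subset (filter_subset _ _)
  have h3 := card_filter_add_card_filter_not (s := (univ : Finset (St n r)))
    (fun α : St n r => hd π α = α.1)
  rw [card_univ, Fintype.card_prod, Fintype.card_fin, Fintype.card_fin] at h3
  have h4 : ((univ.filter fun β : St n r => hd π β = β.1).card : ℝ) ≤ r * (badV π 1).card := by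
    exact_mod_cast loops_le π
  have h5 : (r : ℝ) * (badV π 1).card ≤ n / 2000 := by
    calc _ ≤ (r : ℝ) * (1 / (2000 * r) * n) := mul_le_mul_of_nonneg_left hT (by linarith)
      _ = _ := by field_simp
  have h3' : ((univ.filter fun β : St n r => hd π β = β.1).card : ℝ)
      + (univ.filter fun α : St n r => ¬ hd π α = α.1).card = n * r := by exact_mod_cast h3
  have h2' : ((univ.filter fun α : St n r => ¬ hd π α = α.1).card : ℝ) * n
      ≤ 1000 * (univ.filter fun p : St n r × St n r => P p.1 p.2).card := by exact_mod_cast h2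
  have hn : (0 : ℝ) ≤ n := Nat.cast_nonneg n
  have h6 : (n : ℝ) * r / 2 ≤ (univ.filter fun α : St n r => ¬ hd π α = α.1).card := by
    have := mul_le_mul_of_nonneg_left hr' hn
    linarith
  have h7 := mul_le_mul_of_nonneg_right h6 hn
  nlinarith

theorem rare_bad (hr : 3 ≤ r) {a : ℂ} {s ρ c : ℝ} (hadm : Adm r a s) (hρ : 0 < ρ) (hρ1 : ρ ≤ 1)
    (hD : Metric.closedBall a s ⊆ Om r ρ) (hc : 0 < c)
    (hLB : ∀ ε : ℝ, 0 < ε → Rare r fun n π => ¬ LBall ρ ε (tau c n) π) :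
    Rare r fun n π => Simple π ∧ ∀ z ∈ Metric.closedBall a s, Small π z (tau c n) := by
  classical
  have hr' : (3 : ℝ) ≤ r := by exact_mod_cast hr
  obtain ⟨φ, κ, hφ, -, -, -, hE⟩ := rare_exp hr
  obtain ⟨ε, hε, hA⟩ := stepA hr hadm
  have ha : ‖a‖ ≤ √(r : ℝ) := om_norm_le hρ (hD (Metric.mem_closedBall_self hadm.1.le))
  have hC := rare_call hr hρ hρ1
  let G : ∀ n, Cfg n r → Prop := fun n π => LBall ρ ε (tau c n) π ∧
    ‖(mat π a).det‖ ^ 2 ≤ Real.exp (2 * n * (U r a + ε)) ∧ CAll ρ π ∧ CAll ρ π⁻¹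
  have hG : Rare r fun n π => ¬ G n π := by
    refine Rare.mono ((((hLB ε hε).or (rare_upper hr ha hε)).or hC).or hC.inv)
      (Eventually.of_forall fun n π h => ?_)
    simp only [G] at h
    tauto
  have hT := rare_tree (r := r) (by omega) 1 (δ := 1 / (2000 * r)) (by positivity)
  have hmain : Rare r fun n π => (Simple π ∧ ∀ z ∈ Metric.closedBall a s, Small π z (tau c n)) ∧
      Exp φ κ π ∧ CAll ρ π⁻¹ ∧ Tree (1 / (2000 * r)) 1 π := by
    have hs : Summable fun n : ℕ => 2000 * r * pr (fun π => ¬ G n π) + (n : ℝ) ^ (-1.02 : ℝ) :=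
      (Summable.mul_left _ hG).add (Real.summable_nat_rpow.2 (by norm_num))
    refine rare_of_le hs ?_
    filter_upwards [fdet hr hρ hφ hc hD, classI_count hc hD, eventually_ge_atTop 1, ev_le_lg 1,
      ev_poly (16000000 * (r : ℝ) ^ 2) 8 (show (-1.05 : ℝ) < -1.02 by norm_num)]
      with n hf hcl hn hlg hpoly
    have hn' : (0 : ℝ) < n := by exact_mod_cast hn
    have hτ : 0 ≤ tau c n := (Real.exp_pos _).le
    have key := fmain_count (E := fun π : Cfg n r => (Simple π ∧ ∀ z ∈ Metric.closedBall a s,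
        Small π z (tau c n)) ∧ Exp φ κ π ∧ CAll ρ π⁻¹ ∧ Tree (1 / (2000 * r)) 1 π) (G := G n)
      (C := fun π α β => ClassI π (Metric.closedBall a s) c α β) (a := (n : ℝ) ^ 2 * r / 2000)
      (K := LF n * (4000 * (r : ℝ) ^ 3 * (n : ℝ) ^ (0.95 : ℝ))) (by positivity) (by positivity)
      (fun π h => ?_) (fun π h => hcl π h.2.2.1 h.2.2.2)
    · refine key.trans ?_
      have hL : (LF n : ℝ) ≤ 2 * lg n ^ 8 := by
        have h1 : 1 ≤ lg n ^ 8 := one_le_pow₀ hlg
        have h2 := Nat.ceil_lt_add_one (show 0 ≤ lg n ^ 8 by linarith)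
        unfold LF
        linarith
      have e : (n : ℝ) ^ (0.95 : ℝ) = (n : ℝ) ^ (-1.05 : ℝ) * (n : ℝ) ^ 2 := by
        rw [← Real.rpow_two, ← Real.rpow_add hn']
        norm_num
      have hp : 0 ≤ (n : ℝ) ^ (-1.05 : ℝ) := Real.rpow_nonneg hn'.le _
      rw [add_div]
      refine add_le_add (le_of_eq ?_) (le_trans ?_ hpoly)
      · field_simp
      · calc _ = 8000000 * (r : ℝ) ^ 2 * LF n * (n : ℝ) ^ (-1.05 : ℝ) := by
              rw [e]
              field_simp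
              ring
          _ ≤ 8000000 * (r : ℝ) ^ 2 * (2 * lg n ^ 8) * (n : ℝ) ^ (-1.05 : ℝ) := by gcongr
          _ = _ := by ring
    · obtain ⟨⟨hS, hsm⟩, hX, hCi, hTr⟩ := h
      have h1 := fmain_pairs hr hTr (P := fun α β => ¬ G n (sw π α β) ∨
        (G n (sw π α β) ∧ ClassI (sw π α β) (Metric.closedBall a s) c α β)) fun α hα => ?_
      · refine h1.trans (le_of_eq ?_)
        congr
      · refine (hf κ π hS hX hCi hTr hsm α hα).trans (Nat.mul_le_mul_left _ (card_le_card ?_))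
        intro β hβ
        simp only [mem_filter, mem_univ, true_and] at hβ ⊢
        by_cases hg : G n (sw π α β)
        · exact Or.inr ⟨hg, hβ.resolve_left
            (not_not.2 (hA n _ ρ _ hn hτ hD hg.1 hg.2.1))⟩
        · exact Or.inl hg
  refine Rare.mono (((hmain.or hE).or hC.inv).or hT) (Eventually.of_forall fun n π h => ?_)
  tauto

theorem rare_low (hr : 3 ≤ r) {a : ℂ} {s ε : ℝ} (hadm : Adm r a s) (hε : 0 < ε) :
    Rare r fun n π => Simple π ∧ ¬ ∃ z ∈ Metric.closedBall a s,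
      (∀ w ∈ (adj π).charpoly.roots, w ≠ z) ∧
      n * (U r z - ε) ≤ ((adj π).charpoly.roots.map fun w => Real.log ‖z - w‖).sum := by
  obtain ⟨ρ, hρ, hρ1, hD⟩ := adm_om hadm
  obtain ⟨c, hc, hLB⟩ := rare_lb hr hρ hρ1
  refine Rare.mono ((rare_bad hr hadm hρ hρ1 hD hc hLB).or (hLB ε hε))
    (Eventually.of_forall fun n π h => ?_)
  by_cases hL : LBall ρ ε (tau c n) π
  · refine Or.inl ⟨h.1, fun z hz => ?_⟩
    by_contra hs
    have hd : (mat π z).det ≠ 0 := fun h0 => hs (small_of_det (Real.exp_pos _).le h0)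
    obtain ⟨h1, h2⟩ := log_det_mat π z hd
    exact h.2 ⟨z, hz, h1, h2 ▸ hL z (hD hz) hs⟩
  · exact Or.inr hL

end Pool.Agent.OKM

end FileFMain

section FileFinal

/-!
The almost sure oriented Kesten-McKay law.
-/

open Finset Filter MeasureTheory Topology
open scoped ENNReal BoundedContinuousFunction

namespace Pool.Agent.OKM

theorem main (r : ℕ) (hr : 3 ≤ r) (Ω : Type) [MeasurableSpace Ω] (P : Measure Ω)
    [IsProbabilityMeasure P] (A : (n : ℕ) → Ω → Matrix (Fin n) (Fin n) (Fin 2))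
    (hA : ∀ n, r ≤ n → ∀ M : Matrix (Fin n) (Fin n) (Fin 2),
      P {ω | A n ω = M} = if M ∈ regs n r then ((regs n r).card : ℝ≥0∞)⁻¹ else 0) :
    ∀ᵐ ω ∂P, ∀ f : ℂ →ᵇ ℝ,
      Tendsto (fun n : ℕ => ∫ z, f z ∂(((n : ℝ≥0∞)⁻¹) •
          (((toC (A n ω)).charpoly.roots.map (fun z : ℂ => Measure.dirac z)).sum)))
        atTop (𝓝 (∫ z in Metric.ball (0 : ℂ) √(r : ℝ), f z * dens r z)) := by
  have hup : ∀ᵐ ω ∂P, ∀ x : (ℚ × ℚ) × ℚ × ℚ, Adm r (qc x.1) x.2.1 → 0 < x.2.2 →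
      ∀ᶠ n : ℕ in atTop, mlog (toC (A n ω)).charpoly.roots (qc x.1) x.2.1
        ≤ n * (cU r (qc x.1) x.2.1 + x.2.2) := by
    rw [ae_all_iff]
    intro x
    by_cases h : Adm r (qc x.1) x.2.1 ∧ 0 < x.2.2
    · have h2 : (0 : ℝ) < x.2.2 := by exact_mod_cast h.2
      have := bc hr P A hA
        (fun n M => ¬ mlog M.charpoly.roots (qc x.1) x.2.1 ≤ n * (cU r (qc x.1) x.2.1 + x.2.2))
        ((rare_up hr h.1 h2).mono (Eventually.of_forall fun _ _ hh => hh.2))
      filter_upwards [this] with ω hω _ _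
      filter_upwards [hω] with n hn
      exact not_not.mp hn
    · exact Eventually.of_forall fun ω h1 h2 => absurd ⟨h1, h2⟩ h
  have hlow : ∀ᵐ ω ∂P, ∀ x : (ℚ × ℚ) × ℚ × ℚ, Adm r (qc x.1) x.2.1 → 0 < x.2.2 →
      ∀ᶠ n : ℕ in atTop, ∃ z ∈ Metric.closedBall (qc x.1) (x.2.1 : ℝ),
        (∀ w ∈ (toC (A n ω)).charpoly.roots, w ≠ z) ∧
        n * (U r z - x.2.2) ≤ ((toC (A n ω)).charpoly.roots.map fun w => Real.log ‖z - w‖).sum := by
    rw [ae_all_iff]
    intro x
    by_cases h : Adm r (qc x.1) x.2.1 ∧ 0 < x.2.2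
    · have h2 : (0 : ℝ) < x.2.2 := by exact_mod_cast h.2
      have := bc hr P A hA
        (fun n M => ¬ ∃ z ∈ Metric.closedBall (qc x.1) (x.2.1 : ℝ),
          (∀ w ∈ M.charpoly.roots, w ≠ z) ∧
          n * (U r z - x.2.2) ≤ (M.charpoly.roots.map fun w => Real.log ‖z - w‖).sum)
        (rare_low hr h.1 h2)
      filter_upwards [this] with ω hω _ _
      filter_upwards [hω] with n hn
      exact not_not.mp hn
    · exact Eventually.of_forall fun ω h1 h2 => absurd ⟨h1, h2⟩ h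
  filter_upwards [hup, hlow] with ω h1 h2 f
  have hcard : ∀ n, Multiset.card (toC (A n ω)).charpoly.roots = n := by
    intro n
    rw [IsAlgClosed.card_roots_eq_natDegree, Matrix.charpoly_natDegree_eq_dim, Fintype.card_fin]
  simp only [integral_emp]
  exact weak hr (fun n => (toC (A n ω)).charpoly.roots) hcard
    (vague hr _ hcard (pot_lim hr _ hcard (fun p s ε => h1 (p, s, ε)) (fun p s ε => h2 (p, s, ε)))) f

end Pool.Agent.OKM

end FileFinal

end
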