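import Pool.Agent.MP_5d5bd1_pr.Core

-- part MP_5d5bd1_pr.Walks
section

section FileDense

/-!
Short cycles are superexponentially unlikely to be numerous.
`card_ball`: each vertex has at most `2r+2` neighbours including itself (`card_touch_row/col`).
`ball_symm`: first show `j' ∈ ball π j k`, `Touch i j ∨ Touch j i` imply `j' ∈ ball π i (k+1)`.
`many_thick`: take a maximal family of pairwise disjoint thick sets of size `≤ T` (or build greedily); a bad
vertex `i` has a thick `V ⊆ ball π i T` meeting a member at some `u`, so `i ∈ ball π u T`.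
`thick_prob`: choose a representative `u` in each member (a set `R` of `s` vertices) and for each `u` data
`(V, W)` with `u ∈ V`, `|V| ≤ T`, `W ⊆ V ×ˢ univ`, `|W| = |V|`, all heads of `W` in `V`. For disjoint data
`pr_mapTo` (with `A = ⋃ W`, `B s = V_u ×ˢ univ` for the `u` with `s.1 ∈ V_u`) gives `∏_u (2T/n)^|V_u|`. Sum over all data
(`Finset.prod_sum`/`Finset.prod_univ_sum`): for each `u`, `∑_{(V,W)} (2T/n)^|V| ≤ ∑_{t=1}^T n^(t-1) 2^(rT) (2T/n)^t ≤ C/n`,
`C = T 2^(rT) (2T)^T`; and `C(n,s) ≤ n^s / s!`.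
`tree_prob`: `s = ⌊δ' n⌋₊` with `δ' = min (δ/(T (2r+2)^T)) (1/(2T))`, `C^s/s! ≤ (e C/s)^s ≤ exp (-K n)`.
For `T = 0` the set `badV` is empty.
-/

open Finset Filter

namespace Pool.Agent.OKM

variable {n r : ℕ}

theorem dense_mem_succ (π : Cfg n r) (i j : Fin n) (k : ℕ) :
    j ∈ ball π i (k + 1) ↔ ∃ j' ∈ ball π i k, Touch π j' j ∨ Touch π j j' := by
  simp [ball]

theorem dense_mem_zero (π : Cfg n r) (i j : Fin n) : j ∈ ball π i 0 ↔ j = i := by
  simp [ball]

theorem dense_mem_bad (π : Cfg n r) (T : ℕ) (i : Fin n) :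
    i ∈ badV π T ↔ ∃ V, Thick π V ∧ V.card ≤ T ∧ V ⊆ ball π i T := by
  simp [badV]

theorem ball_mono (π : Cfg n r) (i : Fin n) {k k' : ℕ} (h : k ≤ k') : ball π i k ⊆ ball π i k' :=
  monotone_nat_of_le_succ (f := ball π i) (fun k j hj =>
    (dense_mem_succ π i j k).2 ⟨j, hj, Or.inl (touch_refl π j)⟩) h

theorem card_ball (π : Cfg n r) (i : Fin n) (k : ℕ) : (ball π i k).card ≤ (2 * r + 2) ^ k := by
  classical
  induction k with
  | zero => simp [ball]
  | succ k ih =>
    have h : ball π i (k + 1) ⊆ (ball π i k).biUnion fun j' =>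
        (univ.filter fun j => Touch π j' j) ∪ univ.filter fun j => Touch π j j' := fun j hj => by
      obtain ⟨j', h1, h2⟩ := (dense_mem_succ π i j k).1 hj
      exact mem_biUnion.2 ⟨j', h1, by simpa using h2⟩
    refine (card_le_card h).trans ((card_biUnion_le_card_mul _ _ (2 * r + 2) fun j' _ => ?_).trans
      ?_)
    · have h1 := card_touch_row π j'
      have h2 := card_touch_col π j'
      refine (card_union_le _ _).trans ?_
      omega
    · rw [pow_succ]
      exact Nat.mul_le_mul_right _ ih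

theorem dense_step (π : Cfg n r) {i j : Fin n} (h : Touch π i j ∨ Touch π j i) (k : ℕ) :
    ∀ j' ∈ ball π j k, j' ∈ ball π i (k + 1) := by
  induction k with
  | zero =>
    intro j' hj
    rw [(dense_mem_zero π j j').1 hj]
    exact (dense_mem_succ π i j 0).2 ⟨i, (dense_mem_zero π i i).2 rfl, h⟩
  | succ k ih =>
    intro j' hj
    obtain ⟨j'', h1, h2⟩ := (dense_mem_succ π j j' k).1 hj
    exact (dense_mem_succ π i j' (k + 1)).2 ⟨j'', ih _ h1, h2⟩

theorem ball_symm (π : Cfg n r) {i j : Fin n} {k : ℕ} (h : j ∈ ball π i k) : i ∈ ball π j k := by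
  induction k generalizing j with
  | zero => exact (dense_mem_zero π j i).2 ((dense_mem_zero π i j).1 h).symm
  | succ k ih =>
    obtain ⟨j', h1, h2⟩ := (dense_mem_succ π i j k).1 h
    exact dense_step π h2.symm k i (ih h1)

theorem badV_mono (π : Cfg n r) {T T' : ℕ} (h : T ≤ T') : badV π T ⊆ badV π T' := fun i hi => by
  obtain ⟨V, h1, h2, h3⟩ := (dense_mem_bad π T i).1 hi
  exact (dense_mem_bad π T' i).2 ⟨V, h1, h2.trans h, h3.trans (ball_mono π i h)⟩

theorem loops_le (π : Cfg n r) :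
    (univ.filter fun β : St n r => hd π β = β.1).card ≤ r * (badV π 1).card := by
  have h : (univ.filter fun β : St n r => hd π β = β.1) ⊆ badV π 1 ×ˢ univ := fun β hβ => by
    refine mem_product.2 ⟨(dense_mem_bad π 1 _).2 ⟨{β.1}, ⟨singleton_nonempty _, ?_⟩, by simp,
      singleton_subset_iff.2 (ball_mono π _ zero_le_one ((dense_mem_zero π _ _).2 rfl))⟩,
      mem_univ _⟩
    rw [card_singleton]
    exact card_pos.2 ⟨β, by simpa using hβ⟩
  simpa [mul_comm] using card_le_card h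

theorem many_thick (π : Cfg n r) (T s : ℕ) (h : s * (T * (2 * r + 2) ^ T) ≤ (badV π T).card) (hT : 1 ≤ T) :
    ∃ 𝒱 : Finset (Finset (Fin n)), 𝒱.card = s ∧ (∀ V ∈ 𝒱, Thick π V ∧ V.card ≤ T) ∧
      (𝒱 : Set (Finset (Fin n))).PairwiseDisjoint id := by
  induction s with
  | zero => exact ⟨∅, rfl, by simp, by simp⟩
  | succ s ih =>
    have hq : 0 < T * (2 * r + 2) ^ T := by positivity
    rw [add_mul, one_mul] at h
    obtain ⟨𝒱, h1, h2, h3⟩ := ih (by omega)
    have hc : ((𝒱.biUnion id).biUnion fun u => ball π u T).card ≤ s * (T * (2 * r + 2) ^ T) := by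
      refine (card_biUnion_le_card_mul _ _ _ fun u _ => card_ball π u T).trans ?_
      rw [← mul_assoc, ← h1]
      exact Nat.mul_le_mul_right _ (card_biUnion_le_card_mul _ _ _ fun V hV => (h2 V hV).2)
    obtain ⟨i, hi, hi'⟩ := exists_mem_notMem_of_card_lt_card (s := (𝒱.biUnion id).biUnion
      fun u => ball π u T) (t := badV π T) (by omega)
    obtain ⟨V, a1, a2, a3⟩ := (dense_mem_bad π T i).1 hi
    have hd : ∀ V' ∈ 𝒱, Disjoint V V' := fun V' hV' => disjoint_left.2 fun u hu hu' =>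
      hi' (mem_biUnion.2 ⟨u, mem_biUnion.2 ⟨V', hV', hu'⟩, ball_symm π (a3 hu)⟩)
    have hn : V ∉ 𝒱 := fun hV => a1.1.ne_empty (disjoint_self.1 (hd V hV))
    refine ⟨insert V 𝒱, by rw [card_insert_of_notMem hn, h1], fun V' hV' => ?_, ?_⟩
    · rcases mem_insert.1 hV' with rfl | h'
      · exact ⟨a1, a2⟩
      · exact h2 V' h'
    · rw [coe_insert]
      exact h3.insert fun V' hV' _ => hd V' hV'

theorem dense_esymm {α : Type} [DecidableEq α] {w : α → ℝ} (hw : ∀ a, 0 ≤ w a) (D : Finset α) :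
    ∀ s : ℕ, ∑ A ∈ D.powersetCard s, ∏ a ∈ A, w a ≤ (∑ a ∈ D, w a) ^ s / (s.factorial : ℝ) := by
  induction D using Finset.induction_on with
  | empty =>
    intro s
    cases s with
    | zero => simp
    | succ s =>
      rw [powersetCard_eq_empty.2 (by simp)]
      simp
  | insert a D ha ih =>
    intro s
    cases s with
    | zero => simp
    | succ s =>
      have hS : 0 ≤ ∑ a ∈ D, w a := sum_nonneg fun a _ => hw a
      have hdis : Disjoint (D.powersetCard (s + 1)) ((D.powersetCard s).image (insert a)) :=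
        disjoint_left.2 fun A hA hA' => by
          obtain ⟨B, -, rfl⟩ := mem_image.1 hA'
          exact ha ((mem_powersetCard.1 hA).1 (mem_insert_self _ _))
      have hnot : ∀ A ∈ D.powersetCard s, a ∉ A := fun A hA h => ha ((mem_powersetCard.1 hA).1 h)
      rw [powersetCard_succ_insert ha, sum_union hdis, sum_image fun A hA B hB h => by
        rw [← erase_insert (hnot A hA), h, erase_insert (hnot B hB)],
        sum_congr rfl fun A hA => prod_insert (hnot A hA), ← mul_sum, sum_insert ha]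
      have h1 := pow_add_mul_le_add_pow hS (b := w a) (by linarith [hw a]) (s + 1)
      have h2 : (0 : ℝ) < s.factorial := by positivity
      refine (add_le_add (ih (s + 1)) (mul_le_mul_of_nonneg_left (ih s) (hw a))).trans ?_
      rw [add_comm (w a)]
      refine le_trans (le_of_eq ?_) (div_le_div_of_nonneg_right h1 (by positivity))
      rw [Nat.factorial_succ, Nat.add_sub_cancel]
      push_cast
      field_simp

/-- patterns: a small vertex set with as many stubs -/
def densePat (n r T : ℕ) : Finset (Finset (Fin n) × Finset (St n r)) :=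
  ((univ.filter fun V : Finset (Fin n) => V.card ∈ Icc 1 T) ×ˢ univ).filter fun d =>
    d.2 ⊆ d.1 ×ˢ univ ∧ d.2.card = d.1.card

theorem dense_mem_pat {T : ℕ} (d : Finset (Fin n) × Finset (St n r)) : d ∈ densePat n r T ↔
    (1 ≤ d.1.card ∧ d.1.card ≤ T) ∧ d.2 ⊆ d.1 ×ˢ univ ∧ d.2.card = d.1.card := by
  simp [densePat]

theorem dense_sum (T : ℕ) : ∑ d ∈ densePat n r T, (2 * (T : ℝ) / n) ^ d.1.card ≤
    (T : ℝ) * 2 ^ (r * T) * (2 * T) ^ T := by
  have hq : 0 ≤ 2 * (T : ℝ) / n := by positivity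
  have h1 : ∑ d ∈ densePat n r T, (2 * (T : ℝ) / n) ^ d.1.card ≤
      ∑ V ∈ univ.filter fun V : Finset (Fin n) => V.card ∈ Icc 1 T,
        2 ^ (r * T) * (2 * (T : ℝ) / n) ^ V.card := by
    rw [densePat, sum_filter, sum_product]
    refine sum_le_sum fun V hV => ?_
    rw [← sum_filter]
    simp only [sum_const, nsmul_eq_mul]
    refine mul_le_mul_of_nonneg_right ?_ (by positivity)
    have h2 : (univ.filter fun W : Finset (St n r) => W ⊆ V ×ˢ univ ∧ W.card = V.card) ⊆
        (V ×ˢ univ).powerset := fun W hW => mem_powerset.2 (mem_filter.1 hW).2.1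
    have h3 := card_le_card h2
    rw [card_powerset, card_product, card_univ, Fintype.card_fin] at h3
    have h4 : V.card * r ≤ r * T := by
      rw [mul_comm]
      exact Nat.mul_le_mul_left _ (mem_Icc.1 (mem_filter.1 hV).2).2
    exact_mod_cast h3.trans (Nat.pow_le_pow_right two_pos h4)
  refine h1.trans ?_
  rw [← mul_sum, mul_right_comm, mul_comm]
  refine mul_le_mul_of_nonneg_right ?_ (by positivity)
  rw [← sum_fiberwise_of_maps_to (g := card) (t := Icc 1 T) fun V hV => (mem_filter.1 hV).2]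
  refine (sum_le_card_nsmul _ _ ((2 * T : ℝ) ^ T) fun t ht => ?_).trans (by simp)
  obtain ⟨t1, t2⟩ := mem_Icc.1 ht
  rw [sum_congr rfl fun V hV => by rw [(mem_filter.1 hV).2], sum_const, nsmul_eq_mul]
  have h2 : ((univ.filter fun V : Finset (Fin n) => V.card ∈ Icc 1 T).filter
      fun V => V.card = t) ⊆ powersetCard t univ := fun V hV =>
    mem_powersetCard.2 ⟨subset_univ _, (mem_filter.1 hV).2⟩
  have h3 := card_le_card h2
  rw [card_powersetCard, card_univ, Fintype.card_fin] at h3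
  have h4 : ((((univ.filter fun V : Finset (Fin n) => V.card ∈ Icc 1 T).filter
      fun V => V.card = t).card : ℕ) : ℝ) ≤ (n : ℝ) ^ t := by
    exact_mod_cast h3.trans (Nat.choose_le_pow n t)
  have hT : (1 : ℝ) ≤ T := by exact_mod_cast t1.trans t2
  refine (mul_le_mul_of_nonneg_right h4 (by positivity)).trans ?_
  rw [← mul_pow]
  refine le_trans (pow_le_pow_left₀ (by positivity) ?_ t) (pow_le_pow_right₀ (by linarith) t2)
  rcases eq_or_ne (n : ℝ) 0 with h | h
  · rw [h, zero_mul]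
    positivity
  · rw [mul_div_cancel₀ _ h]

theorem dense_pr (hr : 1 ≤ r) {T s : ℕ} (h : 2 * (s * T) ≤ n)
    {𝒟 : Finset (Finset (Fin n) × Finset (St n r))} (h𝒟 : 𝒟 ∈ (densePat n r T).powersetCard s) :
    pr (fun π : Cfg n r => (𝒟 : Set (Finset (Fin n) × Finset (St n r))).PairwiseDisjoint Prod.fst ∧
      ∀ d ∈ 𝒟, ∀ x ∈ d.2, hd π x ∈ d.1) ≤ ∏ d ∈ 𝒟, (2 * (T : ℝ) / n) ^ d.1.card := by
  classical
  obtain ⟨hsub, hcard⟩ := mem_powersetCard.1 h𝒟
  by_cases hdis : (𝒟 : Set (Finset (Fin n) × Finset (St n r))).PairwiseDisjoint Prod.fst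
  swap
  · rw [pr_eq_zero fun π h' => hdis h'.1]
    positivity
  have hp := fun d (hd : d ∈ 𝒟) => (dense_mem_pat d).1 (hsub hd)
  have h1 : ∀ d ∈ 𝒟, ∀ x ∈ d.2, x.1 ∈ d.1 := fun d hd x hx =>
    (mem_product.1 ((hp d hd).2.1 hx)).1
  have huniq : ∀ d ∈ 𝒟, ∀ d' ∈ 𝒟, ∀ x, x ∈ d.2 → x ∈ d'.2 → d = d' := fun d hd d' hd' x hx hx' =>
    not_not.1 fun hne => disjoint_left.1 (hdis hd hd' hne) (h1 d hd x hx) (h1 d' hd' x hx')
  have hA : (𝒟.biUnion Prod.snd).card = ∑ d ∈ 𝒟, d.1.card := by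
    rw [card_biUnion fun d hd d' hd' hne => disjoint_left.2 fun x hx hx' =>
      hne (huniq d hd d' hd' x hx hx')]
    exact sum_congr rfl fun d hd => (hp d hd).2.2
  have hA' : 2 * (𝒟.biUnion Prod.snd).card ≤ n * r := by
    have := sum_le_card_nsmul 𝒟 (fun d => d.1.card) T fun d hd => (hp d hd).1.2
    rw [hcard, smul_eq_mul] at this
    rw [hA]
    exact le_trans (by omega) (Nat.le_mul_of_pos_right n hr)
  refine (pr_mono fun π hπ x hx => ?_).trans ((pr_mapTo (𝒟.biUnion Prod.snd)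
    (fun x => univ.filter fun y => ∃ d ∈ 𝒟, x ∈ d.2 ∧ y.1 ∈ d.1) hA').trans ?_)
  · obtain ⟨d, hd, hx⟩ := mem_biUnion.1 hx
    exact mem_filter.2 ⟨mem_univ _, d, hd, hx, hπ.2 d hd x hx⟩
  rw [prod_pow_eq_pow_sum, ← hA, ← prod_const]
  refine prod_le_prod (fun x _ => by positivity) fun x hx => ?_
  obtain ⟨d, hd, hx⟩ := mem_biUnion.1 hx
  have h2 : (univ.filter fun y : St n r => ∃ d ∈ 𝒟, x ∈ d.2 ∧ y.1 ∈ d.1) ⊆ d.1 ×ˢ univ :=
    fun y hy => by
      obtain ⟨d', hd', a1, a2⟩ := (mem_filter.1 hy).2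
      exact mem_product.2 ⟨huniq d' hd' d hd x a1 hx ▸ a2, mem_univ _⟩
  have h3 := card_le_card h2
  rw [card_product, card_univ, Fintype.card_fin] at h3
  have h4 : (((univ.filter fun y : St n r => ∃ d ∈ 𝒟, x ∈ d.2 ∧ y.1 ∈ d.1).card : ℕ) : ℝ) ≤
      T * r := by exact_mod_cast h3.trans (Nat.mul_le_mul_right _ (hp d hd).1.2)
  have hr' : (r : ℝ) ≠ 0 := by positivity
  rw [← mul_div_mul_right (2 * (T : ℝ)) n hr']
  exact div_le_div_of_nonneg_right (by linarith) (by positivity)

theorem thick_prob (hr : 1 ≤ r) (T s : ℕ) (h : 2 * (s * T) ≤ n) :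
    pr (fun π : Cfg n r => ∃ 𝒱 : Finset (Finset (Fin n)), 𝒱.card = s ∧
      (∀ V ∈ 𝒱, Thick π V ∧ V.card ≤ T) ∧ (𝒱 : Set (Finset (Fin n))).PairwiseDisjoint id)
      ≤ ((T : ℝ) * 2 ^ (r * T) * (2 * T) ^ T) ^ s / (s.factorial : ℝ) := by
  classical
  refine (pr_mono fun π hπ => ?_).trans ((pr_exists_le ((densePat n r T).powersetCard s)
    fun 𝒟 π => (𝒟 : Set (Finset (Fin n) × Finset (St n r))).PairwiseDisjoint Prod.fst ∧
      ∀ d ∈ 𝒟, ∀ x ∈ d.2, hd π x ∈ d.1).trans ((sum_le_sum fun 𝒟 h𝒟 => dense_pr hr h h𝒟).trans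
        ((dense_esymm (fun d => by positivity) _ s).trans ?_)))
  · obtain ⟨𝒱, h1, h2, h3⟩ := hπ
    have hW : ∀ V : Finset (Fin n), ∃ W : Finset (St n r), V ∈ 𝒱 →
        W ⊆ (univ.filter fun s : St n r => s.1 ∈ V ∧ hd π s ∈ V) ∧ W.card = V.card := fun V => by
      by_cases hV : V ∈ 𝒱
      · obtain ⟨W, hW⟩ := exists_subset_card_eq (h2 V hV).1.2
        exact ⟨W, fun _ => hW⟩
      · exact ⟨∅, fun h => absurd h hV⟩
    choose W hW using hW
    refine ⟨𝒱.image fun V => (V, W V), mem_powersetCard.2 ⟨fun d hd => ?_, ?_⟩, ?_, fun d hd => ?_⟩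
    · obtain ⟨V, hV, rfl⟩ := mem_image.1 hd
      exact (dense_mem_pat _).2 ⟨⟨card_pos.2 (h2 V hV).1.1, (h2 V hV).2⟩, fun x hx =>
        mem_product.2 ⟨(mem_filter.1 ((hW V hV).1 hx)).2.1, mem_univ _⟩, (hW V hV).2⟩
    · rw [card_image_of_injective _ fun V V' e => (Prod.ext_iff.1 e).1, h1]
    · intro d hd d' hd' hne
      obtain ⟨V, hV, rfl⟩ := mem_image.1 hd
      obtain ⟨V', hV', rfl⟩ := mem_image.1 hd'
      exact h3 hV hV' fun e => hne (by rw [e])
    · obtain ⟨V, hV, rfl⟩ := mem_image.1 hd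
      exact fun x hx => (mem_filter.1 ((hW V hV).1 hx)).2.2
  · exact div_le_div_of_nonneg_right
      (pow_le_pow_left₀ (sum_nonneg fun d _ => by positivity) (dense_sum T) s) (by positivity)

theorem dense_num {C d K x : ℝ} {s : ℕ} (hC : 0 ≤ C) (hd : 0 < d)
    (h1 : C * Real.exp 1 * Real.exp (2 * |K| / d) + 1 ≤ s) (h2 : d * x ≤ 2 * s) (hx : 0 ≤ x) :
    C ^ s / (s.factorial : ℝ) ≤ Real.exp (-(K * x)) := by
  have e1 := Real.exp_pos 1
  have e2 := Real.exp_pos (2 * |K| / d)
  have hs : (0 : ℝ) < s := lt_of_lt_of_le (by positivity) h1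
  have h3 : C / (s / Real.exp 1) ≤ Real.exp (-(2 * |K| / d)) := by
    rw [Real.exp_neg, div_div_eq_mul_div, div_le_iff₀ hs, le_inv_mul_iff₀' e2]
    linarith
  refine (div_le_div_of_nonneg_left (by positivity) (by positivity) (pow_le_factorial s)).trans ?_
  rw [← div_pow]
  refine (pow_le_pow_left₀ (by positivity) h3 s).trans ?_
  rw [← Real.exp_nat_mul, Real.exp_le_exp, mul_neg, neg_le_neg_iff]
  have h4 : x ≤ 2 * s / d := by rw [le_div_iff₀' hd]; exact h2
  calc K * x ≤ |K| * (2 * s / d) := mul_le_mul (le_abs_self K) h4 hx (abs_nonneg K)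
    _ = s * (2 * |K| / d) := by ring

theorem tree_prob (hr : 1 ≤ r) (T : ℕ) {δ : ℝ} (hδ : 0 < δ) (K : ℝ) :
    ∀ᶠ n : ℕ in atTop, pr (fun π : Cfg n r => ¬ Tree δ T π) ≤ Real.exp (-(K * n)) := by
  rcases Nat.eq_zero_or_pos T with rfl | hT
  · refine .of_forall fun n => ?_
    refine (pr_eq_zero fun π h => h ?_).trans_le (Real.exp_pos _).le
    have : badV π 0 = ∅ := eq_empty_of_forall_notMem fun i hi => by
      obtain ⟨V, h1, h2, -⟩ := (dense_mem_bad π 0 i).1 hi
      have := card_pos.2 h1.1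
      omega
    rw [Tree, this, card_empty, Nat.cast_zero]
    exact mul_nonneg hδ.le (Nat.cast_nonneg n)
  obtain ⟨Q, hQ⟩ : ∃ Q : ℕ, Q = T * (2 * r + 2) ^ T := ⟨_, rfl⟩
  have hQ0 : (0 : ℝ) < Q := by rw [hQ]; positivity
  have hT0 : (0 : ℝ) < T := by positivity
  obtain ⟨d, hd, d1, d2⟩ : ∃ d : ℝ, 0 < d ∧ d * Q ≤ δ ∧ d * (2 * T) ≤ 1 :=
    ⟨min (δ / Q) (1 / (2 * T)), by positivity, (le_div_iff₀ hQ0).1 (min_le_left _ _),
      (le_div_iff₀ (by positivity)).1 (min_le_right _ _)⟩
  obtain ⟨C, hC⟩ : ∃ C : ℝ, C = (T : ℝ) * 2 ^ (r * T) * (2 * T) ^ T := ⟨_, rfl⟩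
  have hC0 : 0 ≤ C := by rw [hC]; positivity
  filter_upwards [(tendsto_natCast_atTop_atTop.const_mul_atTop hd).eventually_ge_atTop
    (C * Real.exp 1 * Real.exp (2 * |K| / d) + 2)] with n hn
  have hM : 0 ≤ C * Real.exp 1 * Real.exp (2 * |K| / d) := by positivity
  have hn0 : (0 : ℝ) ≤ n := Nat.cast_nonneg n
  have f1 : (⌊d * n⌋₊ : ℝ) ≤ d * n := Nat.floor_le (by positivity)
  have f2 := Nat.lt_floor_add_one (d * n)
  have h2 : 2 * (⌊d * n⌋₊ * T) ≤ n := by
    have : (2 : ℝ) * (⌊d * n⌋₊ * T) ≤ n := by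
      have a1 := mul_le_mul_of_nonneg_right f1 hT0.le
      have a2 := mul_le_mul_of_nonneg_right d2 hn0
      linarith
    exact_mod_cast this
  refine (pr_mono fun π hπ => many_thick π T ⌊d * n⌋₊ ?_ hT).trans
    ((thick_prob hr T _ h2).trans ?_)
  · have : (⌊d * n⌋₊ : ℝ) * Q ≤ (badV π T).card := by
      have a1 := mul_le_mul_of_nonneg_right f1 hQ0.le
      have a2 := mul_le_mul_of_nonneg_right d1 hn0
      have a3 := not_le.1 hπ
      linarith
    rw [← hQ]
    exact_mod_cast this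
  · rw [← hC]
    exact dense_num hC0 hd (by linarith) (by linarith) hn0

theorem rare_tree (hr : 1 ≤ r) (T : ℕ) {δ : ℝ} (hδ : 0 < δ) :
    Rare r fun _ π => ¬ Tree δ T π :=
  rare_of_exp one_pos ((tree_prob hr T hδ 1).mono fun n h => by simpa using h)

end Pool.Agent.OKM

end FileDense

section FileWordsB

/-!
Edge colouring and closed non-backtracking walks.
`konig_aux`: induction on `r`. Hall (`Finset.all_card_le_biUnion_card_iff_exists_injective`) for the sets
`{h (i,a) | a}`: `r |S| ≤ r |N(S)|` by counting stubs. The injective choice `f i = h (i, a i)` is a permutation;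
continue with `h' (i, b) = h (i, (a i).succAbove b)`, and assemble `τ i` from `finSuccEquiv'` / `Fin.cons`.
`closed_bad`: let `x t` (`t ≤ m = |w|`) be the index after `t` steps, on side `t % 2` (side `0` = column, side `1` = row),
`x 0 = x m = j`. Step `t` uses the edge `(row index, letter) : Fin n × Option (Fin r)` joining the row vertex `i` to the
column vertex `perm σ ℓ i`. Let `E` be the set of edges used, `H ⊆ Fin n × Bool` the set of visited (index, side) pairs.
Every visited pair other than the start lies on two different edges of `E` (consecutive letters differ) and the start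
on at least one, each edge has two ends, so `2|H| - 1 ≤ 2|E|`, `|H| ≤ |E|`. Let `V = H.image fst`, `d` the number of edges
of `E` with letter `none`; such an edge `(i, none)` has both `(i, row)`, `(i, column)` in `H`, so `|V| ≤ |H| - d`, while the
edges `(i, some a) ∈ E` give `|E| - d` different stubs `(i, τ i a)` with row and head in `V`. Also `|V| ≤ m` and
`x t ∈ ball π j t`.
-/

open Finset

namespace Pool.Agent.OKM

variable {n r : ℕ}

theorem wordsb_hall {r : ℕ} (h : Fin n × Fin (r + 1) → Fin n)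
    (hh : ∀ j, (univ.filter fun s => h s = j).card = r + 1) :
    ∃ (f : Equiv.Perm (Fin n)) (a : Fin n → Fin (r + 1)), ∀ i, h (i, a i) = f i := by
  have H : ∀ S : Finset (Fin n),
      S.card ≤ (S.biUnion fun i => univ.image fun a => h (i, a)).card := by
    intro S
    refine Nat.le_of_mul_le_mul_right ?_ (Nat.succ_pos r)
    have h1 : (S ×ˢ (univ : Finset (Fin (r + 1)))).card =
        ∑ j ∈ S.biUnion fun i => univ.image fun a => h (i, a),
          ((S ×ˢ (univ : Finset (Fin (r + 1)))).filter fun s => h s = j).card := by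
      refine card_eq_sum_card_fiberwise fun s hs => ?_
      exact mem_coe.2 (mem_biUnion.2 ⟨s.1, (mem_product.1 hs).1, mem_image.2 ⟨s.2, mem_univ _, rfl⟩⟩)
    rw [card_product, card_univ, Fintype.card_fin] at h1
    rw [h1, ← smul_eq_mul]
    refine sum_le_card_nsmul _ _ _ fun j _ => ?_
    exact (card_le_card (filter_subset_filter _ (subset_univ _))).trans (hh j).le
  obtain ⟨f, hf, hm⟩ := (all_card_le_biUnion_card_iff_exists_injective _).1 H
  choose a _ ha using fun i => mem_image.1 (hm i)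
  exact ⟨Equiv.ofBijective f (Finite.injective_iff_bijective.1 hf), a, ha⟩

theorem konig_aux (r : ℕ) (h : Fin n × Fin r → Fin n)
    (hh : ∀ j, (univ.filter fun s => h s = j).card = r) :
    ∃ (σ : Fin r → Equiv.Perm (Fin n)) (τ : Fin n → Equiv.Perm (Fin r)),
      ∀ i a, h (i, τ i a) = σ a i := by
  induction r with
  | zero => exact ⟨Fin.elim0, fun _ => 1, fun _ a => a.elim0⟩
  | succ r ih =>
    obtain ⟨f, a, ha⟩ := wordsb_hall h hh
    have hc : ∀ j, (univ.filter fun s : Fin n × Fin r => h (s.1, (a s.1).succAbove s.2) = j).card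
        = r := by
      intro j
      have inj : Function.Injective fun s : Fin n × Fin r => (s.1, (a s.1).succAbove s.2) := by
        rintro ⟨i, b⟩ ⟨i', b'⟩ e
        obtain ⟨rfl, e2⟩ := Prod.mk.inj e
        exact Prod.ext rfl (Fin.succAbove_right_injective e2)
      have h1 : (univ.filter fun s : Fin n × Fin r => h (s.1, (a s.1).succAbove s.2) = j).image
          (fun s : Fin n × Fin r => (s.1, (a s.1).succAbove s.2)) =
          (univ.filter fun s => h s = j).erase (f.symm j, a (f.symm j)) := by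
        ext ⟨i, b⟩
        simp only [mem_image, mem_filter, mem_univ, true_and, mem_erase]
        constructor
        · rintro ⟨⟨i', b'⟩, h2, h3⟩
          obtain ⟨rfl, rfl⟩ := Prod.mk.inj h3
          refine ⟨fun e => ?_, h2⟩
          obtain ⟨e1, e2⟩ := Prod.mk.inj e
          rw [← e1] at e2
          exact Fin.succAbove_ne _ _ e2
        · rintro ⟨h2, h3⟩
          have h4 : b ≠ a i := by
            rintro rfl
            rw [ha] at h3
            exact h2 (by rw [← h3, f.symm_apply_apply])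
          obtain ⟨b', rfl⟩ := Fin.exists_succAbove_eq h4
          exact ⟨(i, b'), h3, rfl⟩
      rw [← card_image_of_injective _ inj, h1, card_erase_of_mem, hh, Nat.add_sub_cancel]
      simp [ha]
    obtain ⟨σ, τ, H⟩ := ih (fun s => h (s.1, (a s.1).succAbove s.2)) hc
    refine ⟨Fin.cons f σ, fun i => (finSuccEquiv r).trans
      ((τ i).optionCongr.trans (finSuccEquiv' (a i)).symm), fun i b => ?_⟩
    refine Fin.cases ?_ (fun b => ?_) b
    · simpa using ha i
    · simpa using H i b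

theorem konig (π : Cfg n r) :
    ∃ (σ : Fin r → Equiv.Perm (Fin n)) (τ : Fin n → Equiv.Perm (Fin r)),
      ∀ i a, hd π (i, τ i a) = σ a i := konig_aux r (hd π) (card_hd_fiber π)

/-- the permutation of a letter -/
def lperm (σ : Fin r → Equiv.Perm (Fin n)) (l : Option (Fin r)) : Equiv.Perm (Fin n) := l.elim 1 σ

/-- alternating walk; `true` means that the next step goes from a column to a row -/
def walk (σ : Fin r → Equiv.Perm (Fin n)) : Bool → List (Option (Fin r)) → Fin n → Fin n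
  | _, [], j => j
  | true, l :: w, j => walk σ false w ((lperm σ l)⁻¹ j)
  | false, l :: w, j => walk σ true w (lperm σ l j)

/-- the index after `t` steps -/
def wordsb_x (σ : Fin r → Equiv.Perm (Fin n)) (f : ℕ → Option (Fin r)) (j : Fin n) : ℕ → Fin n
  | 0 => j
  | t + 1 => if t % 2 = 0 then (lperm σ (f t))⁻¹ (wordsb_x σ f j t)
      else lperm σ (f t) (wordsb_x σ f j t)

theorem wordsb_walk (σ : Fin r → Equiv.Perm (Fin n)) (w : List (Option (Fin r))) (j : Fin n)
    (t : ℕ) (ht : t ≤ w.length) :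
    walk σ (decide (t % 2 = 0)) (w.drop t) (wordsb_x σ (fun u => w.getD u none) j t) =
      walk σ true w j := by
  induction t with
  | zero => rfl
  | succ t ih =>
    rw [← ih (by omega), List.drop_eq_getElem_cons (show t < w.length by omega), wordsb_x,
      List.getD_eq_getElem _ _ (show t < w.length by omega)]
    by_cases h : t % 2 = 0
    · have h' : ¬ (t + 1) % 2 = 0 := by omega
      simp only [h, h', decide_true, decide_false, if_true, walk]
    · have h' : (t + 1) % 2 = 0 := by omega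
      simp only [h, h', decide_true, decide_false, if_false, walk]

theorem wordsb_touch (π : Cfg n r) {σ : Fin r → Equiv.Perm (Fin n)}
    {τ : Fin n → Equiv.Perm (Fin r)} (hστ : ∀ i a, hd π (i, τ i a) = σ a i)
    (l : Option (Fin r)) (i : Fin n) : Touch π i (lperm σ l i) := by
  cases l with
  | none => exact Or.inl rfl
  | some a => exact Or.inr ⟨τ i a, hστ i a⟩

theorem wordsb_ball (π : Cfg n r) {σ : Fin r → Equiv.Perm (Fin n)}
    {τ : Fin n → Equiv.Perm (Fin r)} (hστ : ∀ i a, hd π (i, τ i a) = σ a i)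
    (f : ℕ → Option (Fin r)) (j : Fin n) (t : ℕ) : wordsb_x σ f j t ∈ ball π j t := by
  induction t with
  | zero => simp [wordsb_x, ball]
  | succ t ih =>
    simp only [ball, mem_filter, mem_univ, true_and]
    refine ⟨_, ih, ?_⟩
    rw [wordsb_x]
    split_ifs
    · right
      have := wordsb_touch π hστ (f t) ((lperm σ (f t))⁻¹ (wordsb_x σ f j t))
      rwa [Equiv.Perm.inv_def, Equiv.apply_symm_apply, ← Equiv.Perm.inv_def] at this
    · exact Or.inl (wordsb_touch π hστ _ _)

theorem wordsb_two {α β : Type} [DecidableEq α] [DecidableEq β] {E : Finset α} {g : α → β} {b : β}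
    {e e' : α} (he : e ∈ E) (he' : e' ∈ E) (hne : e ≠ e') (h : g e = b) (h' : g e' = b) :
    2 ≤ (E.filter fun a => g a = b).card :=
  one_lt_card.2 ⟨e, mem_filter.2 ⟨he, h⟩, e', mem_filter.2 ⟨he', h'⟩, hne⟩

theorem wordsb_count {α β : Type} [DecidableEq α] [DecidableEq β] (E : Finset α) (g : α → β)
    (j : β) (h : ∀ b ∈ E.image g, b ≠ j → 2 ≤ (E.filter fun a => g a = b).card) :
    2 * (E.image g).card ≤ E.card + 1 := by
  have h1 : ∑ b ∈ E.image g, 2 ≤
      ∑ b ∈ E.image g, ((E.filter fun a => g a = b).card + if b = j then 1 else 0) := by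
    refine sum_le_sum fun b hb => ?_
    split_ifs with hj
    · obtain ⟨a, ha, e⟩ := mem_image.1 hb
      have : 0 < (E.filter fun a => g a = b).card := card_pos.2 ⟨a, mem_filter.2 ⟨ha, e⟩⟩
      omega
    · exact h b hb hj
  rw [sum_add_distrib, ← card_eq_sum_card_image, sum_const, smul_eq_mul, sum_ite_eq'] at h1
  split_ifs at h1 <;> omega

theorem wordsb_main (π : Cfg n r) {σ : Fin r → Equiv.Perm (Fin n)} {τ : Fin n → Equiv.Perm (Fin r)}
    (hστ : ∀ i a, hd π (i, τ i a) = σ a i) {m : ℕ} (hm : 0 < m) (hev : m % 2 = 0)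
    (f : ℕ → Option (Fin r)) (hf : ∀ t, t + 1 < m → f t ≠ f (t + 1)) (x : ℕ → Fin n)
    (h0 : ∀ t, t % 2 = 0 → lperm σ (f t) (x (t + 1)) = x t)
    (h1 : ∀ t, ¬ t % 2 = 0 → lperm σ (f t) (x t) = x (t + 1)) (hx : x m = x 0) :
    ∃ V, Thick π V ∧ V ⊆ (range m).image x := by
  obtain ⟨e, he⟩ : ∃ e : ℕ → Fin n × Option (Fin r),
      ∀ t, e t = (if t % 2 = 0 then x (t + 1) else x t, f t) := ⟨_, fun _ => rfl⟩
  obtain ⟨c, hc⟩ : ∃ c : Fin n × Option (Fin r) → Fin n, ∀ y, c y = lperm σ y.2 y.1 :=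
    ⟨_, fun _ => rfl⟩
  have r0 : ∀ t, t % 2 = 0 → (e t).1 = x (t + 1) := fun t h => by rw [he, if_pos h]
  have r1 : ∀ t, ¬ t % 2 = 0 → (e t).1 = x t := fun t h => by rw [he, if_neg h]
  have l0 : ∀ t, (e t).2 = f t := fun t => by rw [he]
  have c0 : ∀ t, t % 2 = 0 → c (e t) = x t := fun t h => by rw [hc, r0 t h, l0, h0 t h]
  have c1 : ∀ t, ¬ t % 2 = 0 → c (e t) = x (t + 1) := fun t h => by rw [hc, r1 t h, l0, h1 t h]
  have ne : ∀ t, t + 1 < m → e t ≠ e (t + 1) := fun t h e1 =>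
    hf t h (by rw [← l0, ← l0, e1])
  obtain ⟨E, hE⟩ : ∃ E, E = (range m).image e := ⟨_, rfl⟩
  have mE : ∀ t, t < m → e t ∈ E := fun t h => hE ▸ mem_image_of_mem _ (mem_range.2 h)
  have oE : ∀ y ∈ E, ∃ t, t < m ∧ e t = y := fun y hy => by
    rw [hE] at hy
    obtain ⟨t, ht, e1⟩ := mem_image.1 hy
    exact ⟨t, mem_range.1 ht, e1⟩
  have hR : 2 * (E.image Prod.fst).card ≤ E.card := by
    refine mul_card_image_le_card _ _ fun b hb => ?_
    obtain ⟨y, hy, rfl⟩ := mem_image.1 hb
    obtain ⟨t, ht, rfl⟩ := oE y hy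
    by_cases h : t % 2 = 0
    · exact wordsb_two (mE t ht) (mE (t + 1) (by omega)) (ne t (by omega)) rfl
        (by rw [r0 t h, r1 (t + 1) (by omega)])
    · obtain ⟨u, rfl⟩ : ∃ u, t = u + 1 := ⟨t - 1, by omega⟩
      exact wordsb_two (mE u (by omega)) (mE _ ht) (ne u ht)
        (by rw [r0 u (by omega), r1 (u + 1) h]) rfl
  have hC : 2 * (E.image c).card ≤ E.card + 1 := by
    refine wordsb_count E c (x 0) fun b hb hj => ?_
    obtain ⟨y, hy, rfl⟩ := mem_image.1 hb
    obtain ⟨t, ht, rfl⟩ := oE y hy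
    by_cases h : t % 2 = 0
    · have : t ≠ 0 := by
        rintro rfl
        exact hj (c0 0 h)
      obtain ⟨u, rfl⟩ : ∃ u, t = u + 1 := ⟨t - 1, by omega⟩
      exact wordsb_two (mE u (by omega)) (mE _ ht) (ne u ht)
        (by rw [c1 u (by omega), c0 (u + 1) h]) rfl
    · have : t + 1 ≠ m := fun e1 => hj (by rw [c1 t h, e1, hx])
      exact wordsb_two (mE t ht) (mE (t + 1) (by omega)) (ne t (by omega)) rfl
        (by rw [c1 t h, c0 (t + 1) (by omega)])
  have mx : ∀ t, t ≤ m → x t ∈ (range m).image x := fun t h => by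
    rcases h.eq_or_lt with rfl | h
    · exact hx ▸ mem_image_of_mem _ (mem_range.2 hm)
    · exact mem_image_of_mem _ (mem_range.2 h)
  refine ⟨E.image Prod.fst ∪ E.image c, ⟨⟨_, mem_union_left _ (mem_image_of_mem _ (mE 0 hm))⟩, ?_⟩,
    union_subset ?_ ?_⟩
  · obtain ⟨S, hS⟩ : ∃ S, S = univ.filter fun s : St n r =>
        s.1 ∈ E.image Prod.fst ∪ E.image c ∧ hd π s ∈ E.image Prod.fst ∪ E.image c := ⟨_, rfl⟩
    rw [← hS]
    have h2 : E ⊆ S.image (fun s => (s.1, some ((τ s.1).symm s.2))) ∪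
        (E.image Prod.fst ∩ E.image c).image fun i => (i, none) := by
      rintro ⟨i, l⟩ hy
      cases l with
      | none =>
        refine mem_union_right _ (mem_image.2 ⟨i, mem_inter.2 ⟨mem_image.2 ⟨_, hy, rfl⟩,
          mem_image.2 ⟨_, hy, ?_⟩⟩, rfl⟩)
        rw [hc]
        rfl
      | some a =>
        refine mem_union_left _ (mem_image.2 ⟨(i, τ i a), ?_, by simp⟩)
        rw [hS, mem_filter]
        refine ⟨mem_univ _, mem_union_left _ (mem_image.2 ⟨_, hy, rfl⟩),
          mem_union_right _ (mem_image.2 ⟨_, hy, ?_⟩)⟩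
        rw [hc, hστ]
        rfl
    have h3 := (card_le_card h2).trans ((card_union_le _ _).trans
      (add_le_add card_image_le card_image_le))
    have h4 := card_union_add_card_inter (E.image Prod.fst) (E.image c)
    omega
  · intro b hb
    obtain ⟨y, hy, rfl⟩ := mem_image.1 hb
    obtain ⟨t, ht, rfl⟩ := oE y hy
    by_cases h : t % 2 = 0
    · rw [r0 t h]; exact mx _ ht
    · rw [r1 t h]; exact mx _ ht.le
  · intro b hb
    obtain ⟨y, hy, rfl⟩ := mem_image.1 hb
    obtain ⟨t, ht, rfl⟩ := oE y hy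
    by_cases h : t % 2 = 0
    · rw [c0 t h]; exact mx _ ht.le
    · rw [c1 t h]; exact mx _ ht

theorem closed_bad (π : Cfg n r) {σ : Fin r → Equiv.Perm (Fin n)} {τ : Fin n → Equiv.Perm (Fin r)}
    (hστ : ∀ i a, hd π (i, τ i a) = σ a i) (w : List (Option (Fin r))) (hw : w ≠ [])
    (hchain : w.IsChain (· ≠ ·)) (heven : Even w.length) {T : ℕ} (hT : w.length ≤ T) {j : Fin n}
    (hj : walk σ true w j = j) : j ∈ badV π T := by
  have h1 := wordsb_walk σ w j w.length le_rfl
  rw [List.drop_length, hj, walk] at h1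
  obtain ⟨V, hV, hs⟩ := wordsb_main π hστ (List.length_pos_iff.2 hw) (Nat.even_iff.1 heven)
    (fun u => w.getD u none) (fun t ht => by
      rw [List.getD_eq_getElem _ _ ht, List.getD_eq_getElem _ _ (show t < w.length by omega)]
      exact List.isChain_iff_getElem.1 hchain t ht)
    (wordsb_x σ (fun u => w.getD u none) j)
    (fun t h => by rw [wordsb_x, if_pos h, Equiv.Perm.inv_def, Equiv.apply_symm_apply])
    (fun t h => by rw [wordsb_x, if_neg h]) h1
  simp only [badV, mem_filter, mem_univ, true_and]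
  refine ⟨V, hV, ((card_le_card hs).trans card_image_le).trans (by rwa [card_range]),
    hs.trans fun b hb => ?_⟩
  obtain ⟨t, ht, rfl⟩ := mem_image.1 hb
  exact ball_mono π j ((mem_range.1 ht).le.trans hT) (wordsb_ball π hστ _ j t)

end Pool.Agent.OKM

end FileWordsB

section FileWordsA

/-!
Traces of `(Mᴴ M)^k` on locally tree-like graphs do not depend on the graph nor on the signs.
With `σ, τ` from `konig`, `Bm l i j = if lperm σ l i = j then ε l i else 0` (`ε none i = 1`,
`ε (some a) i = e (i, τ i a)`), `smat π e z = ∑ l, wt l • Bm l` (`wt none = -z`, `wt (some a) = 1`),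
`(Bm l)ᴴ * Bm l = 1 = Bm l * (Bm l)ᴴ`. Define for a list of letters `pw true (l :: w) = (Bm l)ᴴ * pw false w`,
`pw false (l :: w) = Bm l * pw true w`, and weights `ww true (l :: w) = conj (wt l) * ww false w` etc. Then
`(Mᴴ M)^k = ∑_{w : Fin (2k) → Option (Fin r)} ww true (ofFn w) • pw true (ofFn w)` (induction on the length `m` for both
parities of `Pm true (m+1) = Mᴴ * Pm false m`, `Pm false (m+1) = M * Pm true m`), `∑_w ‖ww‖ = (r + ‖z‖)^(2k)`.
`pw b w = pw b (red w)`; entries of `pw b w` have norm `≤ 1` and `pw b w j j' ≠ 0 → j' = walk σ b w j`.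
If `red w = []` the trace is `n`; otherwise the diagonal entries vanish outside `badV π (2k)` (`closed_bad`).
So `τ k z = ∑_{w, red (ofFn w) = []} ww true (ofFn w)`.
-/

open Finset Matrix

namespace Pool.Agent.OKM

variable {n r : ℕ}

/-- cancel adjacent equal letters -/
def red : List (Option (Fin r)) → List (Option (Fin r))
  | [] => []
  | l :: w => match red w with
    | [] => [l]
    | l' :: w' => if l = l' then w' else l :: l' :: w'

theorem wordsa_red_nil {l : Option (Fin r)} {w : List (Option (Fin r))} (h : red w = []) :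
    red (l :: w) = [l] := by
  simp only [red, h]

theorem wordsa_red_eq {l : Option (Fin r)} {w w' : List (Option (Fin r))} (h : red w = l :: w') :
    red (l :: w) = w' := by
  simp only [red, h, if_true]

theorem wordsa_red_ne {l l' : Option (Fin r)} {w w' : List (Option (Fin r))}
    (h : red w = l' :: w') (hl : l ≠ l') : red (l :: w) = l :: l' :: w' := by
  simp only [red, h, if_neg hl]

theorem red_chain (w : List (Option (Fin r))) : (red w).IsChain (· ≠ ·) := by
  induction w with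
  | nil => exact List.isChain_nil
  | cons l w ih =>
    rcases h : red w with _ | ⟨l', w'⟩
    · rw [wordsa_red_nil h]
      exact List.isChain_singleton _
    · rw [h] at ih
      by_cases hl : l = l'
      · subst hl
        rw [wordsa_red_eq h]
        exact ih.tail
      · rw [wordsa_red_ne h hl]
        exact List.isChain_cons_cons.2 ⟨hl, ih⟩

theorem red_length_le (w : List (Option (Fin r))) : (red w).length ≤ w.length := by
  induction w with
  | nil => exact le_rfl
  | cons l w ih =>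
    rcases h : red w with _ | ⟨l', w'⟩
    · rw [wordsa_red_nil h]
      simp
    · rw [h] at ih
      by_cases hl : l = l'
      · subst hl
        rw [wordsa_red_eq h]
        simp only [List.length_cons] at ih ⊢
        omega
      · rw [wordsa_red_ne h hl]
        simp only [List.length_cons] at ih ⊢
        omega

theorem red_even (w : List (Option (Fin r))) : Even (red w).length ↔ Even w.length := by
  induction w with
  | nil => exact Iff.rfl
  | cons l w ih =>
    rcases h : red w with _ | ⟨l', w'⟩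
    · rw [h] at ih
      rw [wordsa_red_nil h]
      have h1 : Even w.length := ih.1 Even.zero
      simp only [List.length_cons, List.length_nil, Nat.even_iff] at h1 ⊢
      omega
    · rw [h] at ih
      by_cases hl : l = l'
      · subst hl
        rw [wordsa_red_eq h]
        simp only [List.length_cons, Nat.even_iff] at ih ⊢
        omega
      · rw [wordsa_red_ne h hl]
        simp only [List.length_cons, Nat.even_iff] at ih ⊢
        omega

theorem wordsa_sum_succ {A : Type} [AddCommMonoid A] (m : ℕ) (f : List (Option (Fin r)) → A) :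
    ∑ w : Fin (m + 1) → Option (Fin r), f (List.ofFn w)
      = ∑ l, ∑ w : Fin m → Option (Fin r), f (l :: List.ofFn w) := by
  rw [← (Fin.consEquiv fun _ => Option (Fin r)).sum_comp, Fintype.sum_prod_type]
  refine sum_congr rfl fun l _ => sum_congr rfl fun w _ => ?_
  rw [List.ofFn_succ]
  rfl

section Words
variable (σ : Fin r → Equiv.Perm (Fin n)) (ε : Option (Fin r) → Fin n → ℂ)

/-- signed permutation matrix of a letter -/
def wordsaB (l : Option (Fin r)) : Matrix (Fin n) (Fin n) ℂ :=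
  Matrix.of fun i j => if lperm σ l i = j then ε l i else 0

/-- alternating product of a word -/
noncomputable def wordsaP : Bool → List (Option (Fin r)) → Matrix (Fin n) (Fin n) ℂ
  | _, [] => 1
  | true, l :: w => (wordsaB σ ε l)ᴴ * wordsaP false w
  | false, l :: w => wordsaB σ ε l * wordsaP true w

theorem wordsa_B_mul (l : Option (Fin r)) (X : Matrix (Fin n) (Fin n) ℂ) (i j : Fin n) :
    (wordsaB σ ε l * X) i j = ε l i * X (lperm σ l i) j := by
  rw [Matrix.mul_apply, sum_eq_single (lperm σ l i)]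
  · simp [wordsaB]
  · intro k _ hk
    simp [wordsaB, hk.symm]
  · simp

theorem wordsa_BH_mul (l : Option (Fin r)) (X : Matrix (Fin n) (Fin n) ℂ) (i j : Fin n) :
    ((wordsaB σ ε l)ᴴ * X) i j = star (ε l ((lperm σ l)⁻¹ i)) * X ((lperm σ l)⁻¹ i) j := by
  rw [Matrix.mul_apply, sum_eq_single ((lperm σ l)⁻¹ i)]
  · simp [wordsaB, Matrix.conjTranspose_apply]
  · intro k _ hk
    have : ¬ lperm σ l k = i := fun h => hk (by rw [← h]; simp)
    simp [wordsaB, Matrix.conjTranspose_apply, this]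
  · simp

variable {ε}

theorem wordsa_cancel1 (hε : ∀ l i, ε l i = 1 ∨ ε l i = -1) (l : Option (Fin r))
    (X : Matrix (Fin n) (Fin n) ℂ) : (wordsaB σ ε l)ᴴ * (wordsaB σ ε l * X) = X := by
  ext i j
  rw [wordsa_BH_mul, wordsa_B_mul]
  rcases hε l ((lperm σ l)⁻¹ i) with h | h <;> rw [h] <;> simp

theorem wordsa_cancel2 (hε : ∀ l i, ε l i = 1 ∨ ε l i = -1) (l : Option (Fin r))
    (X : Matrix (Fin n) (Fin n) ℂ) : wordsaB σ ε l * ((wordsaB σ ε l)ᴴ * X) = X := by
  ext i j
  rw [wordsa_B_mul, wordsa_BH_mul]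
  rcases hε l i with h | h <;> simp [h]

theorem wordsa_P_red (hε : ∀ l i, ε l i = 1 ∨ ε l i = -1) (w : List (Option (Fin r))) :
    ∀ b, wordsaP σ ε b w = wordsaP σ ε b (red w) := by
  induction w with
  | nil => exact fun _ => rfl
  | cons l w ih =>
    intro b
    rcases h : red w with _ | ⟨l', w'⟩
    · rw [wordsa_red_nil h]
      cases b <;> simp only [wordsaP, ih, h]
    · by_cases hl : l = l'
      · subst hl
        rw [wordsa_red_eq h]
        cases b
        · simp only [wordsaP, ih, h, wordsa_cancel2 σ hε]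
        · simp only [wordsaP, ih, h, wordsa_cancel1 σ hε]
      · rw [wordsa_red_ne h hl]
        cases b <;> simp only [wordsaP, ih, h]

theorem wordsa_P_entry (hε : ∀ l i, ε l i = 1 ∨ ε l i = -1) (w : List (Option (Fin r))) :
    ∀ b i j, ‖wordsaP σ ε b w i j‖ ≤ if walk σ b w i = j then 1 else 0 := by
  have hn : ∀ l i, ‖ε l i‖ = 1 := fun l i => by rcases hε l i with h | h <;> simp [h]
  induction w with
  | nil =>
    intro b i j
    have h1 : wordsaP σ ε b [] = 1 := by cases b <;> rfl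
    have h2 : walk σ b [] i = i := by cases b <;> rfl
    rw [h1, h2, Matrix.one_apply]
    split_ifs <;> simp
  | cons l w ih =>
    intro b i j
    cases b
    · simp only [wordsaP, walk]
      rw [wordsa_B_mul, norm_mul, hn, one_mul]
      exact ih _ _ _
    · simp only [wordsaP, walk]
      rw [wordsa_BH_mul, norm_mul, norm_star, hn, one_mul]
      exact ih _ _ _

end Words

/-- weight of a letter -/
def wordsaWt (z : ℂ) (l : Option (Fin r)) : ℂ := l.elim (-z) fun _ => 1

/-- weight of a word -/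
noncomputable def wordsaW (z : ℂ) : Bool → List (Option (Fin r)) → ℂ
  | _, [] => 1
  | true, l :: w => star (wordsaWt z l) * wordsaW z false w
  | false, l :: w => wordsaWt z l * wordsaW z true w

/-- alternating power -/
noncomputable def wordsaM (M : Matrix (Fin n) (Fin n) ℂ) : Bool → ℕ → Matrix (Fin n) (Fin n) ℂ
  | _, 0 => 1
  | true, m + 1 => Mᴴ * wordsaM M false m
  | false, m + 1 => M * wordsaM M true m

theorem wordsa_M_even (M : Matrix (Fin n) (Fin n) ℂ) (k : ℕ) :
    wordsaM M true (2 * k) = (Mᴴ * M) ^ k := by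
  induction k with
  | zero => rfl
  | succ k ih =>
    rw [show 2 * (k + 1) = 2 * k + 1 + 1 by ring]
    simp only [wordsaM]
    rw [ih, pow_succ', Matrix.mul_assoc]

theorem wordsa_W_sum (z : ℂ) (m : ℕ) :
    ∀ b, ∑ w : Fin m → Option (Fin r), ‖wordsaW z b (List.ofFn w)‖ = ((r : ℝ) + ‖z‖) ^ m := by
  have h0 : ∑ l : Option (Fin r), ‖wordsaWt z l‖ = (r : ℝ) + ‖z‖ := by
    rw [Fintype.sum_option]
    simp [wordsaWt, add_comm]
  induction m with
  | zero => intro b; cases b <;> simp [wordsaW]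
  | succ m ih =>
    intro b
    rw [wordsa_sum_succ m fun w => ‖wordsaW z b w‖, pow_succ', ← h0, sum_mul]
    refine sum_congr rfl fun l _ => ?_
    cases b
    · simp only [wordsaW, norm_mul]
      rw [← mul_sum, ih, h0]
    · simp only [wordsaW, norm_mul, norm_star]
      rw [← mul_sum, ih, h0]

theorem wordsa_M_expand (σ : Fin r → Equiv.Perm (Fin n)) (ε : Option (Fin r) → Fin n → ℂ) (z : ℂ)
    (M : Matrix (Fin n) (Fin n) ℂ) (hM : M = ∑ l, wordsaWt z l • wordsaB σ ε l) (m : ℕ) :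
    ∀ b, wordsaM M b m = ∑ w : Fin m → Option (Fin r),
      wordsaW z b (List.ofFn w) • wordsaP σ ε b (List.ofFn w) := by
  induction m with
  | zero => intro b; cases b <;> simp [wordsaM, wordsaW, wordsaP]
  | succ m ih =>
    intro b
    rw [wordsa_sum_succ m fun w => wordsaW z b w • wordsaP σ ε b w]
    cases b
    · simp only [wordsaM, wordsaW, wordsaP]
      rw [ih, hM, Matrix.sum_mul]
      refine sum_congr rfl fun l _ => ?_
      rw [Matrix.mul_sum]
      refine sum_congr rfl fun w _ => ?_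
      rw [Matrix.smul_mul, Matrix.mul_smul, smul_smul]
    · simp only [wordsaM, wordsaW, wordsaP]
      rw [ih, hM, Matrix.conjTranspose_sum, Matrix.sum_mul]
      refine sum_congr rfl fun l _ => ?_
      rw [Matrix.mul_sum]
      refine sum_congr rfl fun w _ => ?_
      rw [Matrix.conjTranspose_smul, Matrix.smul_mul, Matrix.mul_smul, smul_smul]

theorem wordsa_smat (π : Cfg n r) {σ : Fin r → Equiv.Perm (Fin n)}
    {τ : Fin n → Equiv.Perm (Fin r)} (hστ : ∀ i a, hd π (i, τ i a) = σ a i) (e : St n r → ℂ)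
    (z : ℂ) :
    smat π e z = ∑ l, wordsaWt z l •
      wordsaB σ (fun l i => l.elim 1 fun a => e (i, τ i a)) l := by
  ext i j
  rw [Matrix.sum_apply, Fintype.sum_option]
  simp only [smat, sadj, wordsaWt, wordsaB, lperm, Matrix.sub_apply, Matrix.smul_apply,
    Matrix.of_apply, Matrix.one_apply, Option.elim, Equiv.Perm.one_apply, smul_eq_mul, one_mul]
  rw [← Equiv.sum_comp (τ i)]
  simp only [hστ]
  ring

theorem trace_approx (r : ℕ) : ∃ τ : ℕ → ℂ → ℂ, ∀ (k n : ℕ) (π : Cfg n r) (e : St n r → ℂ),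
    (∀ s, e s = 1 ∨ e s = -1) → ∀ z : ℂ,
      ‖(((smat π e z)ᴴ * smat π e z) ^ k).trace - n * τ k z‖
        ≤ ((r : ℝ) + ‖z‖) ^ (2 * k) * (badV π (2 * k)).card := by
  refine ⟨fun k z => ∑ w : Fin (2 * k) → Option (Fin r),
    if red (List.ofFn w) = [] then wordsaW z true (List.ofFn w) else 0, fun k n π e he z => ?_⟩
  obtain ⟨σ, τ, hστ⟩ := konig π
  set ε : Option (Fin r) → Fin n → ℂ := fun l i => l.elim 1 fun a => e (i, τ i a) with hεd
  have hε : ∀ l i, ε l i = 1 ∨ ε l i = -1 := by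
    intro l i
    cases l with
    | none => exact Or.inl rfl
    | some a => exact he _
  rw [← wordsa_M_even, wordsa_M_expand σ ε z _ (wordsa_smat π hστ e z), Matrix.trace_sum,
    mul_sum, ← sum_sub_distrib, ← wordsa_W_sum (r := r) z (2 * k) true, sum_mul]
  refine (norm_sum_le _ _).trans (sum_le_sum fun w _ => ?_)
  rw [Matrix.trace_smul, wordsa_P_red σ hε]
  split_ifs with h
  · rw [h]
    simp only [wordsaP, Matrix.trace_one, Fintype.card_fin, smul_eq_mul]
    rw [mul_comm, sub_self, norm_zero]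
    positivity
  · rw [mul_zero, sub_zero, norm_smul]
    refine mul_le_mul_of_nonneg_left ?_ (norm_nonneg _)
    unfold Matrix.trace
    refine (norm_sum_le _ _).trans ?_
    refine (sum_le_sum fun j _ => wordsa_P_entry σ hε _ true j j).trans ?_
    rw [sum_boole]
    refine Nat.cast_le.2 (card_le_card fun j hj => ?_)
    refine closed_bad π hστ _ h (red_chain _) ((red_even _).2 ?_) ((red_length_le _).trans ?_)
      (mem_filter.1 hj).2
    · rw [List.length_ofFn]
      exact even_two_mul k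
    · rw [List.length_ofFn]

end Pool.Agent.OKM

end FileWordsA

section FileSpec

/-!
Squared singular values. Use `Matrix.IsHermitian.spectral_theorem`, `det_eq_prod_eigenvalues`,
`eigenvectorBasis` (an orthonormal basis of `EuclideanSpace`), `mulVec_eigenvectorBasis`.
For `y = ∑ c_i u_i`: `nrm (M y)^2 = re ⟨y, MᴴM y⟩ = ∑ sv2 i |c_i|^2`.
`sv2_space`: the span of the eigenvectors with `sv2 i ≤ t^2`.
`sum_sorted` is a purely real statement: sort with `Tuple.sort` (`Tuple.monotone_sort`), the `b`-th smallest value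
(`b = 1..n`) has at least `b` values below it.
-/

open Finset Matrix

namespace Pool.Agent.OKM

variable {n r : ℕ}

theorem spec_dot (y : Fin n → ℂ) : ((nrm y ^ 2 : ℝ) : ℂ) = star y ⬝ᵥ y := by
  rw [nrm_sq, dotProduct]
  push_cast
  refine sum_congr rfl fun i _ => ?_
  rw [Pi.star_apply, Complex.star_def, Complex.conj_mul']

theorem spec_quad (N : Matrix (Fin n) (Fin n) ℂ) (d : Fin n → ℝ)
    (h : Nᴴ * N = diagonal fun i => (d i : ℂ)) (c : Fin n → ℂ) :
    nrm (N.mulVec c) ^ 2 = ∑ i, d i * ‖c i‖ ^ 2 := by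
  apply Complex.ofReal_injective
  rw [spec_dot, star_mulVec, ← dotProduct_mulVec, mulVec_mulVec, h, dotProduct]
  push_cast
  refine sum_congr rfl fun i _ => ?_
  rw [mulVec_diagonal, Pi.star_apply, Complex.star_def, ← Complex.conj_mul']
  ring

theorem spec_exists (M : Matrix (Fin n) (Fin n) ℂ) : ∃ V : Matrix (Fin n) (Fin n) ℂ,
    Vᴴ * V = 1 ∧ V * Vᴴ = 1 ∧ Mᴴ * M = V * diagonal (fun i => (sv2 M i : ℂ)) * Vᴴ := by
  have hA := Matrix.isHermitian_conjTranspose_mul_self M
  refine ⟨hA.eigenvectorUnitary, ?_, ?_, ?_⟩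
  · exact Unitary.coe_star_mul_self hA.eigenvectorUnitary
  · exact Unitary.coe_mul_star_self hA.eigenvectorUnitary
  · have h := hA.spectral_theorem
    rw [Unitary.conjStarAlgAut_apply] at h
    exact h

theorem spec_main (M : Matrix (Fin n) (Fin n) ℂ) : ∃ V : Matrix (Fin n) (Fin n) ℂ,
    (∀ c, nrm (V.mulVec c) ^ 2 = ∑ i, ‖c i‖ ^ 2) ∧
      ∀ c, nrm (M.mulVec (V.mulVec c)) ^ 2 = ∑ i, sv2 M i * ‖c i‖ ^ 2 := by
  obtain ⟨V, h1, -, h3⟩ := spec_exists M
  refine ⟨V, fun c => ?_, fun c => ?_⟩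
  · have h := spec_quad V (fun _ => 1) (by rw [h1]; simp) c
    simpa using h
  · rw [mulVec_mulVec]
    refine spec_quad (M * V) (sv2 M) ?_ c
    have e : (M * V)ᴴ * (M * V) = Vᴴ * (Mᴴ * M) * V := by
      rw [conjTranspose_mul]
      simp only [Matrix.mul_assoc]
    rw [e, h3]
    simp only [← Matrix.mul_assoc]
    rw [h1, Matrix.one_mul, Matrix.mul_assoc, h1, Matrix.mul_one]

theorem spec_vec (M : Matrix (Fin n) (Fin n) ℂ) (i : Fin n) :
    ∃ y : Fin n → ℂ, nrm y = 1 ∧ nrm (M.mulVec y) ^ 2 = sv2 M i := by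
  obtain ⟨V, h1, h2⟩ := spec_main M
  have e : ∀ d : Fin n → ℝ, ∑ j, d j * ‖(Pi.single i 1 : Fin n → ℂ) j‖ ^ 2 = d i := by
    intro d
    rw [sum_eq_single i]
    · simp
    · intro j _ hj
      simp [hj]
    · simp
  refine ⟨V.mulVec (Pi.single i 1), ?_, by rw [h2, e]⟩
  have h3 := h1 (Pi.single i 1)
  have h4 := e fun _ => 1
  simp only [one_mul] at h4
  rw [h4] at h3
  exact (pow_eq_one_iff_of_nonneg (nrm_nonneg _) two_ne_zero).mp h3

theorem sv2_nonneg (M : Matrix (Fin n) (Fin n) ℂ) (i : Fin n) : 0 ≤ sv2 M i := by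
  obtain ⟨y, -, h⟩ := spec_vec M i
  rw [← h]
  exact sq_nonneg _

theorem prod_sv2 (M : Matrix (Fin n) (Fin n) ℂ) : ∏ i, sv2 M i = ‖M.det‖ ^ 2 := by
  apply Complex.ofReal_injective
  have h := (Matrix.isHermitian_conjTranspose_mul_self M).det_eq_prod_eigenvalues
  rw [det_mul, det_conjTranspose, Complex.star_def, Complex.conj_mul'] at h
  push_cast
  exact h.symm

theorem sum_sv2_pow (M : Matrix (Fin n) (Fin n) ℂ) (k : ℕ) :
    ((∑ i, sv2 M i ^ k : ℝ) : ℂ) = ((Mᴴ * M) ^ k).trace := by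
  obtain ⟨V, h1, h2, h3⟩ := spec_exists M
  have e : (Mᴴ * M) ^ k = V * diagonal (fun i => (sv2 M i : ℂ)) ^ k * Vᴴ := by
    induction k with
    | zero => simp [h2]
    | succ k ih =>
      rw [pow_succ, ih, h3, pow_succ]
      simp only [Matrix.mul_assoc]
      rw [← Matrix.mul_assoc Vᴴ V, h1, Matrix.one_mul]
  rw [e, trace_mul_comm, ← Matrix.mul_assoc, h1, Matrix.one_mul, diagonal_pow, trace_diagonal]
  push_cast
  rfl

theorem exists_sv2_vec (M : Matrix (Fin n) (Fin n) ℂ) (i : Fin n) :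
    ∃ y : Fin n → ℂ, nrm y = 1 ∧ nrm (M.mulVec y) ^ 2 = sv2 M i := spec_vec M i

theorem sv2_le (M : Matrix (Fin n) (Fin n) ℂ) {R : ℝ} (h : ∀ y, nrm (M.mulVec y) ≤ R * nrm y)
    (i : Fin n) : sv2 M i ≤ R ^ 2 := by
  obtain ⟨y, h1, h2⟩ := spec_vec M i
  have h3 := h y
  rw [h1, mul_one] at h3
  rw [← h2]
  exact pow_le_pow_left₀ (nrm_nonneg _) h3 2

theorem sv2_space (M : Matrix (Fin n) (Fin n) ℂ) {t : ℝ} (ht : 0 ≤ t) :
    ∃ K : Submodule ℂ (Fin n → ℂ),
      (univ.filter fun i => sv2 M i ≤ t ^ 2).card ≤ Module.finrank ℂ K ∧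
      ∀ y ∈ K, nrm (M.mulVec y) ≤ t * nrm y := by
  obtain ⟨V, h1, h2⟩ := spec_main M
  have hS : ∀ i ∈ (univ.filter fun i => sv2 M i ≤ t ^ 2), sv2 M i ≤ t ^ 2 :=
    fun i hi => (mem_filter.mp hi).2
  generalize (univ.filter fun i => sv2 M i ≤ t ^ 2) = S at hS ⊢
  let E : (S → ℂ) →ₗ[ℂ] (Fin n → ℂ) :=
    LinearMap.pi fun i => if h : i ∈ S then LinearMap.proj (⟨i, h⟩ : S) else 0
  have hE1 : ∀ (c : S → ℂ) (i : S), E c i = c i := fun c i => by simp [E, i.2]
  have hE2 : ∀ (c : S → ℂ) (i : Fin n), i ∉ S → E c i = 0 := fun c i hi => by simp [E, hi]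
  have hinj : Function.Injective (V.mulVecLin ∘ₗ E) := by
    rw [injective_iff_map_eq_zero]
    intro c hc
    have h3 := h1 (E c)
    have h4 : V.mulVec (E c) = 0 := hc
    rw [h4, nrm_zero, ← nrm_sq] at h3
    have h5 : nrm (E c) = 0 := by
      have h6 : nrm (E c) ^ 2 = 0 := by rw [← h3]; norm_num
      exact pow_eq_zero_iff two_ne_zero |>.mp h6
    funext i
    rw [← hE1 c i, nrm_eq_zero.mp h5]
    rfl
  refine ⟨LinearMap.range (V.mulVecLin ∘ₗ E), ?_, ?_⟩
  · rw [LinearMap.finrank_range_of_inj hinj]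
    simp
  · rintro _ ⟨c, rfl⟩
    have h4 : (V.mulVecLin ∘ₗ E) c = V.mulVec (E c) := rfl
    rw [h4]
    refine (pow_le_pow_iff_left₀ (nrm_nonneg _) (mul_nonneg ht (nrm_nonneg _)) two_ne_zero).mp ?_
    rw [mul_pow, h1, h2, mul_sum]
    refine sum_le_sum fun i _ => ?_
    by_cases hi : i ∈ S
    · exact mul_le_mul_of_nonneg_right (hS i hi) (sq_nonneg _)
    · rw [hE2 c i hi]
      simp

theorem sum_sorted (x : Fin n → ℝ) (g : ℝ → ℝ) (G : ℕ → ℝ)
    (h : ∀ (i : Fin n) (b : ℕ), 1 ≤ b → b ≤ (univ.filter fun j => x j ≤ x i).card → g (x i) ≤ G b) :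
    ∑ i, g (x i) ≤ ∑ b ∈ Icc 1 n, G b := by
  have e1 : ∑ i, g (x i) = ∑ i, g (x (Tuple.sort x i)) :=
    (Equiv.sum_comp (Tuple.sort x) fun i => g (x i)).symm
  have e2 : ∑ b ∈ Icc 1 n, G b = ∑ i : Fin n, G (i + 1) := by
    rw [Fin.sum_univ_eq_sum_range (fun i => G (i + 1)) n, range_eq_Ico, sum_Ico_add' G 0 n 1]
    rfl
  rw [e1, e2]
  refine sum_le_sum fun i _ => h _ _ (Nat.le_add_left 1 i) ?_
  rw [← Fin.card_Iic i]
  refine card_le_card_of_injOn (Tuple.sort x) ?_ (Tuple.sort x).injective.injOn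
  intro j hj
  exact mem_coe.mpr (mem_filter.mpr ⟨mem_univ _, Tuple.monotone_sort x (mem_Iic.mp hj)⟩)

theorem sum_inv_sqrt (m : ℕ) : ∑ b ∈ Icc 1 m, 1 / √(b : ℝ) ≤ 2 * √(m : ℝ) := by
  induction m with
  | zero => simp
  | succ m ih =>
    rw [sum_Icc_succ_top (Nat.le_add_left 1 m)]
    have h0 : (0 : ℝ) ≤ m := Nat.cast_nonneg m
    have h1 : 0 < √((m + 1 : ℕ) : ℝ) := Real.sqrt_pos.mpr (by positivity)
    have h2 : √((m + 1 : ℕ) : ℝ) * √((m + 1 : ℕ) : ℝ) = m + 1 := by
      rw [Real.mul_self_sqrt (Nat.cast_nonneg _)]; push_cast; ring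
    have h3 : √(m : ℝ) * √(m : ℝ) = m := Real.mul_self_sqrt h0
    have h4 : 1 / √((m + 1 : ℕ) : ℝ) ≤ 2 * √((m + 1 : ℕ) : ℝ) - 2 * √(m : ℝ) := by
      rw [div_le_iff₀ h1]
      nlinarith [sq_nonneg (√((m + 1 : ℕ) : ℝ) - √(m : ℝ))]
    linarith

end Pool.Agent.OKM

end FileSpec

end

-- part MP_5d5bd1_pr.Moment
section

section FileDet

/-!
Expansion of the determinant over choices `c` of one entry per row.
`det_expand`: row `i` of `smat π e z` is `∑ o : Option (Fin r), w i o • Pi.single (target) 1`; use multilinearity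
(`Matrix.detRowAlternating`, `MultilinearMap.map_sum`, `MultilinearMap.map_smul_univ`).
`dl_sq`: a bijective target gives a permutation matrix (`Matrix.det_permutation` or `det_permute`), otherwise two
rows coincide (`Matrix.det_zero_of_row_eq`; injective iff bijective on `Fin n`); `dl` is real.
`exists_signs`: average `‖det‖^2 = det * conj det` over `e ∈ {±1}^St` (index by `St n r → Bool` or `ℤˣ`); for
`c ≠ c'` some stub is used by exactly one of them and flipping its sign is an involution that negates the term.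
`ex_dl_mul`: with `σ = swap (i₁,a₁) (i₂,a₂)`, `tgt (π * σ) c = tgt π c ∘ swap i₁ i₂` and `tgt (π * σ) c' = tgt π c'`.
`ex_det_sq`: the surviving pairs `(c, c')` differ in at most two rows; `|w w' d d'| ≤ (|w d|^2 + |w' d'|^2)/2`; each `c`
has at most `(n (r+1) + 1)^2` partners.
-/

open Finset

namespace Pool.Agent.OKM

variable {n r : ℕ}

noncomputable def dl (π : Cfg n r) (c : Fin n → Option (Fin r)) : ℂ :=
  (Matrix.of fun i j => if tgt π c i = j then (1 : ℂ) else 0).det

theorem det_expand (π : Cfg n r) (e : St n r → ℂ) (z : ℂ) :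
    (smat π e z).det = ∑ c : Fin n → Option (Fin r),
      (∏ i, (c i).elim (-z) fun a => e (i, a)) * dl π c := by
  have h : smat π e z = fun i => ∑ o : Option (Fin r), (o.elim (-z) fun a => e (i, a)) •
      fun j => if (o.elim i fun a => hd π (i, a)) = j then (1 : ℂ) else 0 := by
    ext i j
    simp only [smat, sadj, Matrix.sub_apply, Matrix.of_apply, Matrix.smul_apply, Matrix.one_apply,
      Finset.sum_apply, Pi.smul_apply, smul_eq_mul, Fintype.sum_option, Option.elim, mul_ite,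
      mul_one, mul_zero]
    split_ifs <;> ring
  rw [h]
  refine ((Matrix.detRowAlternating (R := ℂ) (n := Fin n)).toMultilinearMap.map_sum _).trans ?_
  refine Finset.sum_congr rfl fun c _ => ?_
  exact (Matrix.detRowAlternating (R := ℂ) (n := Fin n)).toMultilinearMap.map_smul_univ _ _

open Classical in
theorem dl_sq (π : Cfg n r) (c : Fin n → Option (Fin r)) :
    ‖dl π c‖ ^ 2 = if Function.Bijective (tgt π c) then 1 else 0 := by
  split_ifs with h
  · have h1 : dl π c = ((1 : Matrix (Fin n) (Fin n) ℂ).submatrix (Equiv.ofBijective _ h) id).det := by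
      unfold dl
      congr 1
    rw [h1, Matrix.det_permute, Matrix.det_one, mul_one]
    rcases Int.units_eq_one_or (Equiv.Perm.sign (Equiv.ofBijective _ h)) with h2 | h2 <;>
      simp [h2]
  · rw [← Finite.injective_iff_bijective, Function.not_injective_iff] at h
    obtain ⟨i, i', h1, h2⟩ := h
    rw [dl, Matrix.det_zero_of_row_eq h2 (by ext j; simp only [Matrix.of_apply, h1])]
    simp

theorem dl_conj (π : Cfg n r) (c : Fin n → Option (Fin r)) : (starRingEnd ℂ) (dl π c) = dl π c := by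
  rw [dl, RingHom.map_det]
  congr 1
  ext i j
  simp only [RingHom.mapMatrix_apply, Matrix.map_apply, Matrix.of_apply]
  split_ifs <;> simp

/-- the weight of a choice -/
noncomputable def det_w (e : St n r → ℂ) (z : ℂ) (c : Fin n → Option (Fin r)) : ℂ :=
  ∏ i, (c i).elim (-z) fun a => e (i, a)

theorem det_per (π : Cfg n r) {e : St n r → ℂ} (he : ∀ s, ‖e s‖ = 1) (z : ℂ) :
    Per π (‖z‖ ^ 2) = ∑ c, ‖det_w e z c * dl π c‖ ^ 2 := by
  refine Finset.sum_congr rfl fun c _ => ?_
  rw [norm_mul, mul_pow, dl_sq]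
  split_ifs
  · rw [mul_one, det_w, norm_prod, ← Finset.prod_pow, ← Finset.prod_const, Finset.prod_filter]
    refine Finset.prod_congr rfl fun i _ => ?_
    cases c i <;> simp [he]
  · rw [mul_zero]

theorem det_neg {Ω : Type} [Fintype Ω] {F : Ω → ℂ} (σ : Ω ≃ Ω) (h : ∀ ω, F (σ ω) = -F ω) :
    ∑ ω, F ω = 0 := by
  have h1 := σ.sum_comp F
  simp only [h, Finset.sum_neg_distrib] at h1
  linear_combination (-1 / 2 : ℂ) * h1

theorem det_sum_sq {Ω C : Type} [Fintype Ω] [Fintype C] (f : Ω → C → ℂ) :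
    ((∑ ω, ‖∑ c, f ω c‖ ^ 2 : ℝ) : ℂ) = ∑ c, ∑ c', ∑ ω, f ω c * (starRingEnd ℂ) (f ω c') := by
  push_cast
  simp only [← Complex.mul_conj', map_sum, Finset.sum_mul_sum]
  rw [Finset.sum_comm]
  exact Finset.sum_congr rfl fun c _ => Finset.sum_comm

theorem det_w_flip (e : St n r → ℤˣ) (z : ℂ) (c : Fin n → Option (Fin r)) (i : Fin n) (a : Fin r) :
    det_w (fun s => (((((fun s => if s = (i, a) then -1 else 1) * e : St n r → ℤˣ) s : ℤˣ) : ℤ) : ℂ))
      z c = (if c i = some a then -1 else 1) * det_w (fun s => ((e s : ℤ) : ℂ)) z c := by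
  have h : (if c i = some a then (-1 : ℂ) else 1) =
      ∏ j, if j = i then (if c i = some a then (-1 : ℂ) else 1) else 1 := by
    rw [Finset.prod_ite_eq' univ i, if_pos (Finset.mem_univ i)]
  rw [h, det_w, det_w, ← Finset.prod_mul_distrib]
  refine Finset.prod_congr rfl fun j _ => ?_
  by_cases hj : j = i
  · subst hj
    cases c j with
    | none => simp
    | some b => by_cases hb : b = a <;> simp [hb]
  · cases c j <;> simp [hj]

theorem exists_signs (π : Cfg n r) (z : ℂ) :
    ∃ e : St n r → ℂ, (∀ s, e s = 1 ∨ e s = -1) ∧ Per π (‖z‖ ^ 2) ≤ ‖(smat π e z).det‖ ^ 2 := by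
  classical
  set f : (St n r → ℤˣ) → (Fin n → Option (Fin r)) → ℂ := fun e c =>
    det_w (fun s => ((e s : ℤ) : ℂ)) z c * dl π c with hf
  have hs : ∀ (e : St n r → ℤˣ) s, ((e s : ℤ) : ℂ) = 1 ∨ ((e s : ℤ) : ℂ) = -1 := fun e s => by
    rcases Int.units_eq_one_or (e s) with h | h <;> simp [h]
  have hn : ∀ (e : St n r → ℤˣ) s, ‖((e s : ℤ) : ℂ)‖ = 1 := fun e s => by
    rcases hs e s with h | h <;> simp [h]
  have h0 : ∀ c c', c ≠ c' → ∑ e, f e c * (starRingEnd ℂ) (f e c') = 0 := by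
    intro c c' hc
    obtain ⟨i, hi⟩ := Function.ne_iff.1 hc
    have : ∃ a, ¬ (c i = some a ↔ c' i = some a) := by
      by_contra h
      push Not at h
      exact hi (Option.ext h)
    obtain ⟨a, ha⟩ := this
    refine det_neg (Equiv.mulLeft fun s => if s = (i, a) then -1 else 1) fun e => ?_
    simp only [hf, Equiv.coe_mulLeft, det_w_flip, map_mul]
    by_cases h1 : c i = some a
    · rw [if_pos h1, if_neg fun h2 => ha (iff_of_true h1 h2), map_one]
      ring
    · rw [if_neg h1, if_pos (by tauto), map_neg, map_one]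
      ring
  have h1 : ∑ e, ‖∑ c, f e c‖ ^ 2 = ∑ e, ∑ c, ‖f e c‖ ^ 2 := by
    refine Complex.ofReal_injective ?_
    rw [det_sum_sq, Finset.sum_comm (f := fun e c => ‖f e c‖ ^ 2)]
    push_cast
    refine Finset.sum_congr rfl fun c _ => ?_
    rw [Finset.sum_eq_single c (fun c' _ h => h0 c c' h.symm) (by simp)]
    exact Finset.sum_congr rfl fun e _ => Complex.mul_conj' _
  obtain ⟨e, -, he⟩ := Finset.exists_le_of_sum_le Finset.univ_nonempty h1.ge
  refine ⟨fun s => ((e s : ℤ) : ℂ), hs e, ?_⟩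
  rw [det_expand, det_per π (hn e)]
  exact he

theorem ex_dl_mul {c c' : Fin n → Option (Fin r)} {i₁ i₂ : Fin n} {a₁ a₂ : Fin r} (hi : i₁ ≠ i₂)
    (h1 : c i₁ = some a₁) (h2 : c i₂ = some a₂) (h1' : c' i₁ ≠ some a₁) (h2' : c' i₂ ≠ some a₂) :
    ∑ π : Cfg n r, dl π c * dl π c' = 0 := by
  refine det_neg (Equiv.mulRight (Equiv.swap (i₁, a₁) (i₂, a₂))) fun π => ?_
  have e1 : ∀ i, tgt (π * Equiv.swap (i₁, a₁) (i₂, a₂)) c i = tgt π c (Equiv.swap i₁ i₂ i) := by
    intro i
    by_cases k1 : i = i₁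
    · subst k1
      simp [tgt, hd, h1, h2]
    · by_cases k2 : i = i₂
      · subst k2
        simp [tgt, hd, h1, h2]
      · rw [Equiv.swap_apply_of_ne_of_ne k1 k2]
        unfold tgt
        cases c i with
        | none => rfl
        | some a =>
          simp only [Option.elim, hd, Equiv.Perm.mul_apply]
          rw [Equiv.swap_apply_of_ne_of_ne (by simp [k1]) (by simp [k2])]
  have e2 : tgt (π * Equiv.swap (i₁, a₁) (i₂, a₂)) c' = tgt π c' := by
    funext i
    unfold tgt
    cases hc : c' i with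
    | none => rfl
    | some a =>
      simp only [Option.elim, hd, Equiv.Perm.mul_apply]
      rw [Equiv.swap_apply_of_ne_of_ne]
      · intro h
        obtain ⟨rfl, rfl⟩ := Prod.ext_iff.1 h
        exact h1' hc
      · intro h
        obtain ⟨rfl, rfl⟩ := Prod.ext_iff.1 h
        exact h2' hc
  have e3 : dl (π * Equiv.swap (i₁, a₁) (i₂, a₂)) c = -dl π c := by
    have : dl (π * Equiv.swap (i₁, a₁) (i₂, a₂)) c = ((Matrix.of fun i j =>
        if tgt π c i = j then (1 : ℂ) else 0).submatrix (Equiv.swap i₁ i₂) id).det := by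
      unfold dl
      congr 1
      ext i j
      simp only [Matrix.of_apply, Matrix.submatrix_apply, id, e1]
    rw [this, Matrix.det_permute, Equiv.Perm.sign_swap hi, dl]
    simp
  simp only [Equiv.coe_mulRight]
  rw [e3, dl, dl, dl, e2, neg_mul]

theorem det_abs {Ω C : Type} [Fintype Ω] [Fintype C] (f : Ω → C → ℂ) (N : C → C → Prop)
    [DecidableRel N] (hs : ∀ c c', N c c' → N c' c)
    (h0 : ∀ c c', ¬ N c c' → ∑ ω, f ω c * (starRingEnd ℂ) (f ω c') = 0) {K : ℝ}
    (hK : ∀ c, ((univ.filter (N c)).card : ℝ) ≤ K) :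
    ∑ ω, ‖∑ c, f ω c‖ ^ 2 ≤ K * ∑ ω, ∑ c, ‖f ω c‖ ^ 2 := by
  set g : C → ℝ := fun c => ∑ ω, ‖f ω c‖ ^ 2 with hg
  have hg0 : ∀ c, 0 ≤ g c := fun c => Finset.sum_nonneg fun ω _ => sq_nonneg _
  have h1 : ∀ c c', ‖∑ ω, f ω c * (starRingEnd ℂ) (f ω c')‖ ≤
      (if N c c' then g c / 2 else 0) + if N c' c then g c' / 2 else 0 := by
    intro c c'
    by_cases h : N c c'
    · rw [if_pos h, if_pos (hs _ _ h), hg, ← add_div, ← Finset.sum_add_distrib, Finset.sum_div]
      refine norm_sum_le_of_le _ fun ω _ => ?_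
      rw [norm_mul, RCLike.norm_conj]
      linarith [two_mul_le_add_sq ‖f ω c‖ ‖f ω c'‖]
    · rw [h0 c c' h, if_neg h, if_neg fun h' => h (hs _ _ h'), norm_zero, add_zero]
  have h2 : ∑ c, ∑ c', (if N c c' then g c / 2 else 0) ≤ K * (∑ c, g c) / 2 := by
    rw [Finset.mul_sum, Finset.sum_div]
    refine Finset.sum_le_sum fun c _ => ?_
    rw [← Finset.sum_filter, Finset.sum_const, nsmul_eq_mul, mul_div_assoc]
    exact mul_le_mul_of_nonneg_right (hK c) (by linarith [hg0 c])
  have h3 : ∑ ω, ‖∑ c, f ω c‖ ^ 2 ≤ ‖((∑ ω, ‖∑ c, f ω c‖ ^ 2 : ℝ) : ℂ)‖ := by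
    rw [Complex.norm_real]
    exact le_abs_self _
  rw [det_sum_sq] at h3
  have h4 := h3.trans (norm_sum_le_of_le _ fun c _ => norm_sum_le_of_le _ fun c' _ => h1 c c')
  simp only [Finset.sum_add_distrib] at h4
  rw [Finset.sum_comm (f := fun c c' => if N c' c then g c' / 2 else 0)] at h4
  rw [Finset.sum_comm (f := fun ω c => ‖f ω c‖ ^ 2)]
  linarith

theorem det_two {c c' : Fin n → Option (Fin r)}
    (h : 1 < (univ.filter fun i => c i ≠ none ∧ c i ≠ c' i).card) :
    ∑ π : Cfg n r, dl π c * dl π c' = 0 := by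
  obtain ⟨i₁, k1, i₂, k2, hi⟩ := Finset.one_lt_card.1 h
  obtain ⟨k1, k1'⟩ := (Finset.mem_filter.1 k1).2
  obtain ⟨k2, k2'⟩ := (Finset.mem_filter.1 k2).2
  obtain ⟨a₁, h1⟩ := Option.ne_none_iff_exists'.1 k1
  obtain ⟨a₂, h2⟩ := Option.ne_none_iff_exists'.1 k2
  exact ex_dl_mul hi h1 h2 (fun h => k1' (h1.trans h.symm)) fun h => k2' (h2.trans h.symm)

theorem det_far {c c' : Fin n → Option (Fin r)}
    (h : ¬ (univ.filter fun i => c i ≠ c' i).card ≤ 2) :
    ∑ π : Cfg n r, dl π c * dl π c' = 0 := by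
  have h1 : (univ.filter fun i => c i ≠ c' i) ⊆ (univ.filter fun i => c i ≠ none ∧ c i ≠ c' i) ∪
      univ.filter fun i => c' i ≠ none ∧ c' i ≠ c i := by
    intro i hi
    simp only [Finset.mem_filter, Finset.mem_univ, true_and, Finset.mem_union] at hi ⊢
    by_cases h0 : c i = none
    · exact Or.inr ⟨fun h' => hi (h0.trans h'.symm), hi.symm⟩
    · exact Or.inl ⟨h0, hi⟩
  have h2 := (Finset.card_le_card h1).trans (Finset.card_union_le _ _)
  by_cases h3 : 1 < (univ.filter fun i => c i ≠ none ∧ c i ≠ c' i).card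
  · exact det_two h3
  · simp only [mul_comm (dl _ c)]
    exact det_two (by omega)

/-- change at most one row -/
def det_upd (c : Fin n → Option (Fin r)) (p : Option (Fin n × Option (Fin r))) :
    Fin n → Option (Fin r) :=
  p.elim c fun q => Function.update c q.1 q.2

theorem det_step (c c' : Fin n → Option (Fin r)) : ∃ p,
    (univ.filter fun i => det_upd c p i ≠ c' i).card =
      (univ.filter fun i => c i ≠ c' i).card - 1 := by
  rcases (univ.filter fun i => c i ≠ c' i).eq_empty_or_nonempty with h | ⟨i, hi⟩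
  · exact ⟨none, by rw [h]; exact congrArg Finset.card h⟩
  · refine ⟨some (i, c' i), ?_⟩
    rw [← Finset.card_erase_of_mem hi]
    congr 1
    ext j
    by_cases hj : j = i
    · subst hj
      simp [det_upd]
    · simp [det_upd, hj]

theorem det_near (c : Fin n → Option (Fin r)) :
    (univ.filter fun c' : Fin n → Option (Fin r) =>
      (univ.filter fun i => c i ≠ c' i).card ≤ 2).card ≤ (n * (r + 1) + 1) ^ 2 := by
  have h : (univ.filter fun c' : Fin n → Option (Fin r) =>
      (univ.filter fun i => c i ≠ c' i).card ≤ 2) ⊆ univ.image fun p :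
        Option (Fin n × Option (Fin r)) × Option (Fin n × Option (Fin r)) =>
          det_upd (det_upd c p.1) p.2 := by
    intro c' hc
    have hc := (Finset.mem_filter.1 hc).2
    obtain ⟨p, hp⟩ := det_step c c'
    obtain ⟨q, hq⟩ := det_step (det_upd c p) c'
    have h0 : (univ.filter fun i => det_upd (det_upd c p) q i ≠ c' i).card = 0 := by omega
    refine Finset.mem_image.2 ⟨(p, q), Finset.mem_univ _, funext fun i => ?_⟩
    by_contra hi
    exact Finset.card_ne_zero_of_mem (Finset.mem_filter.2 ⟨Finset.mem_univ i, hi⟩) h0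
  refine (Finset.card_le_card h).trans (Finset.card_image_le.trans ?_)
  simp [sq]

theorem ex_det_sq (z : ℂ) :
    ex (fun π : Cfg n r => ‖(mat π z).det‖ ^ 2)
      ≤ ((n : ℝ) * (r + 1) + 1) ^ 2 * ex (fun π : Cfg n r => Per π (‖z‖ ^ 2)) := by
  classical
  have h := det_abs (fun (π : Cfg n r) c => det_w (fun _ => 1) z c * dl π c)
    (fun c c' => (univ.filter fun i => c i ≠ c' i).card ≤ 2)
    (fun c c' h => by simpa only [ne_comm] using h) (fun c c' h => by
      have := congrArg (det_w (fun _ => 1) z c * (starRingEnd ℂ) (det_w (fun _ => 1) z c') * ·)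
        (det_far h)
      simp only [mul_zero, Finset.mul_sum] at this
      rw [← this]
      refine Finset.sum_congr rfl fun π _ => ?_
      rw [map_mul, dl_conj]
      ring) (K := ((n : ℝ) * (r + 1) + 1) ^ 2) (fun c => by exact_mod_cast det_near c)
  unfold ex
  rw [← mul_div_assoc]
  refine div_le_div_of_nonneg_right ?_ (Nat.cast_nonneg _)
  simp only [mat, det_expand, det_per _ (e := fun _ => 1) (fun _ => norm_one)]
  exact h

end Pool.Agent.OKM

end FileDet

section FilePerE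

/-!
The expected permanent.
`cnt_fix_eq`: extend `g` on `A` to a permutation `π₀` (`Equiv.Perm.exists_extending_pair` or
`Finset.exists_equiv_extend_of_card_eq`), then count the permutations fixing `A` pointwise.
`pr_bij`: with `R = {i | c i ≠ none}`, `k = |R|`, `tgt π c` is bijective iff the chosen stubs are sent to in-stubs
whose vertices form a bijection `R → R`; there are `k! r^k` such images, each of probability `(N-k)!/N!`.
`ex_per`: group `c` by `R` (`r^k` choices for each `R`).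
With `y = ‖z‖^2 ∈ [0, r]`, `∑_k C(n,k) (r^2 ξ)^k (y (1-ξ))^(n-k) (1-ξ)^(n r - n) = ((r^2 ξ + y(1-ξ)) (1-ξ)^(r-1))^n`.
`ex_per_ge`: `1/C(N,k) ≥ ξ^k (1-ξ)^(N-k)` (one term of the binomial expansion of `1`), `ξ = (r-y)/(r^2-y)`, for which
`r^2 ξ + y (1-ξ) = r`, `1 - ξ = r(r-1)/(r^2-y)`; `exp_two_U`.
`inv_choose_le`: `ξ = k/N` is a mode of the binomial weights `C(N,j) ξ^j (1-ξ)^(N-j)`, which sum to `1`
(or use the Beta integral `1/C(N,k) = (N+1) ∫ ξ^k (1-ξ)^(N-k)`).
`amgm_U`: with `a = r^2 ξ + y (1-ξ)`, `(r^2-y)(1-ξ) = r^2 - a` and `a (r^2-a)^(r-1) ≤ r (r^2-r)^(r-1)` by AM-GM (or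
`x ≤ exp (x-1)` applied to `a/r` and `(r^2-a)/(r^2-r)`).
-/

open Finset Filter

namespace Pool.Agent.OKM

variable {n r : ℕ}

theorem cnt_fix_eq (A : Finset (St n r)) (g : St n r → St n r) (hg : Set.InjOn g A) :
    cnt (fun π : Cfg n r => ∀ s ∈ A, π s = g s) = (n * r - A.card).factorial := by
  classical
  obtain ⟨π₀, h₀⟩ := Equiv.Perm.exists_extending_pair (fun x : A => (x : St n r))
    (fun x : A => g x) Subtype.val_injective fun x y h => Subtype.ext (hg x.2 y.2 h)
  have e1 : {π : Cfg n r // ∀ s ∈ A, π s = g s} ≃ {σ : Cfg n r // ∀ s, ¬ (s ∉ A) → σ s = s} := by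
    refine (Equiv.mulLeft π₀⁻¹).subtypeEquiv fun π => ?_
    refine forall_congr' fun s => ?_
    rw [not_not]
    refine forall_congr' fun hs => ?_
    have h1 : π₀ s = g s := h₀ ⟨s, hs⟩
    rw [Equiv.coe_mulLeft, Equiv.Perm.mul_apply, Equiv.Perm.inv_eq_iff_eq, h1]
  have e2 := e1.trans (Equiv.Perm.subtypeEquivSubtypePerm fun s : St n r => s ∉ A).symm
  have h2 := Fintype.card_congr e2
  rw [Fintype.card_perm, Fintype.card_subtype_compl, Fintype.card_coe, Fintype.card_prod,
    Fintype.card_fin, Fintype.card_fin, Fintype.card_subtype] at h2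
  rw [← h2]
  unfold cnt
  congr

/-- rows that choose a stub -/
abbrev PereI (c : Fin n → Option (Fin r)) : Type := {i : Fin n // c i ≠ none}

def pereS (c : Fin n → Option (Fin r)) (i : PereI c) : St n r :=
  (i.1, (c i.1).get (Option.ne_none_iff_isSome.mp i.2))

def pereG (c : Fin n → Option (Fin r)) (h : Equiv.Perm (PereI c) × (PereI c → Fin r))
    (s : St n r) : St n r :=
  if hs : c s.1 ≠ none then ((h.1 ⟨s.1, hs⟩).1, h.2 ⟨s.1, hs⟩) else s

theorem pere_G_S (c : Fin n → Option (Fin r)) (h : Equiv.Perm (PereI c) × (PereI c → Fin r))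
    (i : PereI c) : pereG c h (pereS c i) = ((h.1 i).1, h.2 i) := by
  have hs : c (pereS c i).1 ≠ none := i.2
  unfold pereG
  rw [dif_pos hs]
  rfl

theorem pere_S_inj (c : Fin n → Option (Fin r)) : Function.Injective (pereS c) :=
  fun _ _ h => Subtype.ext (congrArg Prod.fst h)

theorem pere_tgt (π : Cfg n r) (c : Fin n → Option (Fin r)) (i : PereI c) :
    tgt π c i.1 = (π (pereS c i)).1 := by
  obtain ⟨a, ha⟩ := Option.ne_none_iff_exists'.mp i.2
  have h1 : pereS c i = (i.1, a) := by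
    unfold pereS
    simp only [ha, Option.get_some]
  rw [h1]
  unfold tgt hd
  rw [ha]
  rfl

theorem pere_tgt_none (π : Cfg n r) (c : Fin n → Option (Fin r)) {i : Fin n} (hi : ¬ c i ≠ none) :
    tgt π c i = i := by
  unfold tgt
  rw [not_not.mp hi]
  rfl

theorem pere_bij_iff (π : Cfg n r) (c : Fin n → Option (Fin r)) :
    Function.Bijective (tgt π c) ↔ ∃ h : Equiv.Perm (PereI c) × (PereI c → Fin r),
      ∀ i, π (pereS c i) = ((h.1 i).1, h.2 i) := by
  constructor
  · intro hb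
    let σ := (Equiv.Perm.subtypeEquivSubtypePerm fun i : Fin n => c i ≠ none).symm
      ⟨Equiv.ofBijective _ hb, fun i hi => pere_tgt_none π c hi⟩
    refine ⟨(σ, fun i => (π (pereS c i)).2), fun i => ?_⟩
    have h1 : (σ i).1 = tgt π c i.1 := rfl
    exact Prod.ext ((pere_tgt π c i).symm.trans h1.symm) rfl
  · rintro ⟨h, hh⟩
    have h1 : tgt π c = Equiv.Perm.ofSubtype h.1 := by
      funext i
      by_cases hi : c i ≠ none
      · rw [Equiv.Perm.ofSubtype_apply_of_mem h.1 hi, pere_tgt π c ⟨i, hi⟩, hh]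
      · rw [Equiv.Perm.ofSubtype_apply_of_not_mem h.1 hi, pere_tgt_none π c hi]
    rw [h1]
    exact (Equiv.Perm.ofSubtype h.1).bijective

theorem pere_cnt_one (c : Fin n → Option (Fin r)) (h : Equiv.Perm (PereI c) × (PereI c → Fin r)) :
    cnt (fun π : Cfg n r => ∀ i, π (pereS c i) = ((h.1 i).1, h.2 i))
      = (n * r - Fintype.card (PereI c)).factorial := by
  have hA : (univ.image (pereS c)).card = Fintype.card (PereI c) := by
    rw [card_image_of_injective _ (pere_S_inj c), card_univ]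
  rw [← hA, ← cnt_fix_eq (univ.image (pereS c)) (pereG c h)]
  · congr 1
    funext π
    simp only [mem_image, mem_univ, true_and, forall_exists_index, forall_apply_eq_imp_iff,
      pere_G_S]
  · intro s hs t ht hst
    obtain ⟨i, -, rfl⟩ := mem_image.mp (mem_coe.mp hs)
    obtain ⟨j, -, rfl⟩ := mem_image.mp (mem_coe.mp ht)
    rw [pere_G_S, pere_G_S] at hst
    rw [h.1.injective (Subtype.ext (congrArg Prod.fst hst))]

theorem pere_cnt_bij (c : Fin n → Option (Fin r)) :
    cnt (fun π : Cfg n r => Function.Bijective (tgt π c))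
      = (Fintype.card (PereI c)).factorial * r ^ Fintype.card (PereI c)
        * (n * r - Fintype.card (PereI c)).factorial := by
  classical
  have h1 : (univ.filter fun π : Cfg n r => Function.Bijective (tgt π c))
      = univ.biUnion fun h : Equiv.Perm (PereI c) × (PereI c → Fin r) =>
        univ.filter fun π : Cfg n r => ∀ i, π (pereS c i) = ((h.1 i).1, h.2 i) := by
    ext π
    simp only [mem_filter, mem_univ, true_and, mem_biUnion, pere_bij_iff]
  have h2 : ∀ h : Equiv.Perm (PereI c) × (PereI c → Fin r),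
      (univ.filter fun π : Cfg n r => ∀ i, π (pereS c i) = ((h.1 i).1, h.2 i)).card
        = (n * r - Fintype.card (PereI c)).factorial := by
    intro h
    rw [← pere_cnt_one c h]
    unfold cnt
    congr
  have h3 : cnt (fun π : Cfg n r => Function.Bijective (tgt π c))
      = (univ.filter fun π : Cfg n r => Function.Bijective (tgt π c)).card := by
    unfold cnt
    congr
  rw [h3, h1, card_biUnion, sum_congr rfl fun h _ => h2 h, sum_const, card_univ,
    Fintype.card_prod, Fintype.card_perm, Fintype.card_fun, Fintype.card_fin, smul_eq_mul]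
  intro h _ h' _ hne
  refine disjoint_left.mpr fun π hπ hπ' => hne ?_
  have a1 := (mem_filter.mp hπ).2
  have a2 := (mem_filter.mp hπ').2
  refine Prod.ext (Equiv.ext fun i => Subtype.ext ?_) (funext fun i => ?_)
  · exact congrArg Prod.fst ((a1 i).symm.trans (a2 i))
  · exact congrArg Prod.snd ((a1 i).symm.trans (a2 i))

theorem pr_bij (c : Fin n → Option (Fin r)) :
    pr (fun π : Cfg n r => Function.Bijective (tgt π c))
      = (r : ℝ) ^ (univ.filter fun i => c i ≠ none).card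
        / ((n * r).choose (univ.filter fun i => c i ≠ none).card : ℝ) := by
  have hk : (univ.filter fun i => c i ≠ none).card = Fintype.card (PereI c) :=
    (Fintype.card_subtype _).symm
  have hle : Fintype.card (PereI c) ≤ n * r := by
    have := Fintype.card_le_of_injective _ (pere_S_inj c)
    rwa [Fintype.card_prod, Fintype.card_fin, Fintype.card_fin] at this
  unfold pr
  rw [pere_cnt_bij, hk, ← Nat.choose_mul_factorial_mul_factorial hle]
  have h1 : ((n * r).choose (Fintype.card (PereI c)) : ℝ) ≠ 0 :=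
    Nat.cast_ne_zero.mpr (Nat.choose_pos hle).ne'
  have h2 : ((Fintype.card (PereI c)).factorial : ℝ) ≠ 0 :=
    Nat.cast_ne_zero.mpr (Nat.factorial_ne_zero _)
  have h3 : ((n * r - Fintype.card (PereI c)).factorial : ℝ) ≠ 0 :=
    Nat.cast_ne_zero.mpr (Nat.factorial_ne_zero _)
  push_cast
  field_simp

theorem pere_fibre (R : Finset (Fin n)) :
    (univ.filter fun c : Fin n → Option (Fin r) => (univ.filter fun i => c i ≠ none) = R).card
      = r ^ R.card := by
  have h1 : (univ.filter fun c : Fin n → Option (Fin r) => (univ.filter fun i => c i ≠ none) = R)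
      = Fintype.piFinset fun i => if i ∈ R then univ.image some else {none} := by
    ext c
    simp only [mem_filter, mem_univ, true_and, Fintype.mem_piFinset, Finset.ext_iff]
    refine forall_congr' fun i => ?_
    by_cases hi : i ∈ R
    · simp only [hi, iff_true, if_true, mem_image, mem_univ, true_and]
      exact Option.ne_none_iff_exists
    · simp only [hi, iff_false, if_false, mem_singleton, not_not]
  rw [h1, Fintype.card_piFinset]
  have h2 : ∀ i : Fin n, (if i ∈ R then univ.image some else {none} : Finset (Option (Fin r))).card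
      = if i ∈ R then r else 1 := by
    intro i
    split_ifs
    · rw [card_image_of_injective _ (Option.some_injective _), card_univ, Fintype.card_fin]
    · rfl
  simp only [h2]
  rw [prod_ite_mem_eq, prod_const]

theorem pere_group (F : ℕ → ℝ) :
    ∑ c : Fin n → Option (Fin r), F (univ.filter fun i => c i ≠ none).card
      = ∑ k ∈ range (n + 1), (n.choose k : ℝ) * ((r : ℝ) ^ k * F k) := by
  have h1 := sum_powerset_apply_card (fun k => (r : ℝ) ^ k * F k) (x := (univ : Finset (Fin n)))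
  rw [card_univ, Fintype.card_fin, powerset_univ] at h1
  simp only [nsmul_eq_mul] at h1
  rw [← h1, ← sum_fiberwise univ fun c : Fin n → Option (Fin r) => univ.filter fun i => c i ≠ none]
  refine sum_congr rfl fun R _ => ?_
  rw [sum_congr rfl fun c hc => by rw [(mem_filter.mp hc).2], sum_const, pere_fibre, nsmul_eq_mul,
    Nat.cast_pow]

theorem pere_none (c : Fin n → Option (Fin r)) :
    (univ.filter fun i => c i = none).card = n - (univ.filter fun i => c i ≠ none).card := by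
  have h := card_filter_add_card_filter_not (s := (univ : Finset (Fin n))) fun i => c i = none
  rw [card_univ, Fintype.card_fin] at h
  exact Nat.eq_sub_of_add_eq h

theorem ex_per (y : ℝ) :
    ex (fun π : Cfg n r => Per π y) = ∑ k ∈ range (n + 1),
      (n.choose k : ℝ) * (r : ℝ) ^ (2 * k) * y ^ (n - k) / ((n * r).choose k : ℝ) := by
  unfold Per
  rw [ex_sum]
  have h1 := pere_group (n := n) (r := r)
    fun k => y ^ (n - k) * ((r : ℝ) ^ k / ((n * r).choose k : ℝ))
  refine Eq.trans (sum_congr rfl fun c _ => ?_) (h1.trans (sum_congr rfl fun k _ => by ring))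
  rw [← pr_bij, ← pere_none, ← ex_ite]
  congr 1
  funext π
  congr

theorem per_nonneg (π : Cfg n r) {y : ℝ} (hy : 0 ≤ y) : 0 ≤ Per π y := by
  unfold Per
  refine sum_nonneg fun c _ => ?_
  split_ifs
  · exact pow_nonneg hy _
  · exact le_rfl

theorem per_le (π : Cfg n r) {y : ℝ} (hy : 0 ≤ y) : Per π y ≤ (r + y) ^ n := by
  have h1 := pere_group (n := n) (r := r) fun k => y ^ (n - k)
  rw [add_pow]
  refine le_trans ?_ (le_of_eq (h1.trans (sum_congr rfl fun k _ => by ring)))
  unfold Per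
  refine sum_le_sum fun c _ => ?_
  rw [← pere_none]
  split_ifs
  · exact le_rfl
  · exact pow_nonneg hy _

theorem pere_ratio (k m j : ℕ) (hj : j < k + m) :
    (k + m).choose (j + 1) * (k ^ (j + 1) * m ^ (k + m - (j + 1))) * ((j + 1) * m)
      = (k + m).choose j * (k ^ j * m ^ (k + m - j)) * ((k + m - j) * k) := by
  have h1 := Nat.choose_succ_right_eq (k + m) j
  have h2 : k + m - j = k + m - (j + 1) + 1 := by omega
  calc _ = ((k + m).choose (j + 1) * (j + 1)) * (k ^ (j + 1) * m ^ (k + m - (j + 1) + 1)) := by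
        ring
    _ = _ := by
        rw [h1, ← h2]
        ring

theorem pere_mode (k m j : ℕ) (hj : j ≤ k + m) :
    (k + m).choose j * (k ^ j * m ^ (k + m - j)) ≤ (k + m).choose k * (k ^ k * m ^ (k + m - k)) := by
  rcases le_total j k with h | h
  · induction h using Nat.decreasingInduction with
    | self => exact le_rfl
    | of_succ j hjk ih =>
      refine le_trans ?_ (ih (by omega))
      rcases Nat.eq_zero_or_pos m with hm | hm
      · subst hm
        rw [zero_pow (by omega : k + 0 - j ≠ 0), mul_zero, mul_zero]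
        exact Nat.zero_le _
      · refine Nat.le_of_mul_le_mul_right ?_ (Nat.mul_pos (Nat.succ_pos j) hm)
        rw [Nat.succ_eq_add_one, pere_ratio k m j (by omega)]
        refine Nat.mul_le_mul_left _ ?_
        rw [mul_comm (k + m - j) k]
        exact Nat.mul_le_mul (by omega) (by omega)
  · induction j, h using Nat.le_induction with
    | base => exact le_rfl
    | succ j hkj ih =>
      refine le_trans ?_ (ih (by omega))
      have hm : 0 < m := by omega
      refine Nat.le_of_mul_le_mul_right ?_ (Nat.mul_pos (Nat.succ_pos j) hm)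
      rw [Nat.succ_eq_add_one, pere_ratio k m j (by omega)]
      refine Nat.mul_le_mul_left _ ?_
      rw [mul_comm (k + m - j) k]
      exact Nat.mul_le_mul (by omega) (by omega)

theorem pere_pow_le (k m : ℕ) :
    (k + m) ^ (k + m) ≤ (k + m + 1) * ((k + m).choose k * (k ^ k * m ^ m)) := by
  rw [add_pow k m (k + m)]
  have h := sum_le_card_nsmul (range (k + m + 1))
    (fun j => k ^ j * m ^ (k + m - j) * ((k + m).choose j : ℕ))
    ((k + m).choose k * (k ^ k * m ^ (k + m - k))) fun j hj => by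
      rw [mul_comm]
      exact pere_mode k m j (Nat.lt_succ_iff.mp (mem_range.mp hj))
  rw [card_range, smul_eq_mul, Nat.add_sub_cancel_left] at h
  exact h

theorem inv_choose_le {N k : ℕ} (hk : k ≤ N) :
    ∃ ξ : ℝ, 0 ≤ ξ ∧ ξ ≤ 1 ∧ 1 / (N.choose k : ℝ) ≤ (N + 1) * (ξ ^ k * (1 - ξ) ^ (N - k)) := by
  obtain ⟨m, rfl⟩ := Nat.exists_eq_add_of_le hk
  rcases Nat.eq_zero_or_pos (k + m) with h0 | h0
  · obtain ⟨rfl, rfl⟩ : k = 0 ∧ m = 0 := by omega
    exact ⟨0, le_rfl, zero_le_one, by simp⟩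
  have hN : (0 : ℝ) < (k : ℝ) + m := by exact_mod_cast h0
  have hm : (0 : ℝ) ≤ m := Nat.cast_nonneg m
  have hc : (0 : ℝ) < ((k + m).choose k : ℝ) := Nat.cast_pos.mpr (Nat.choose_pos hk)
  refine ⟨k / (k + m), by positivity, (div_le_one hN).mpr (by linarith), ?_⟩
  have h1 : 1 - (k : ℝ) / (k + m) = m / (k + m) := by
    field_simp
    ring
  have h2 : ((k : ℝ) + m) ^ (k + m) ≤ (k + m + 1) * (((k + m).choose k : ℝ) * (k ^ k * m ^ m)) := by
    exact_mod_cast pere_pow_le k m
  rw [h1, Nat.add_sub_cancel_left, div_pow, div_pow, div_mul_div_comm, ← pow_add, Nat.cast_add,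
    ← mul_div_assoc, div_le_div_iff₀ hc (pow_pos hN _)]
  linarith

theorem pere_sq (hr : 3 ≤ r) {z : ℂ} (hz : ‖z‖ ≤ √(r : ℝ)) : ‖z‖ ^ 2 ≤ r := by
  have h := pow_le_pow_left₀ (norm_nonneg z) hz 2
  rwa [Real.sq_sqrt (Nat.cast_nonneg r)] at h

theorem pere_amgm {R a : ℝ} {q : ℕ} (hR : 3 ≤ R) (hq : (q : ℝ) = R - 1) (ha : 0 ≤ a)
    (ha' : a ≤ R ^ 2) : a * (R ^ 2 - a) ^ q ≤ R * (R * (R - 1)) ^ q := by
  have hR0 : 0 < R := by linarith
  have hR1 : 0 < R - 1 := by linarith
  have hp : 0 < R * (R - 1) := mul_pos hR0 hR1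
  have h1 : a / R ≤ Real.exp (a / R - 1) := by linarith [Real.add_one_le_exp (a / R - 1)]
  have h2 : (R ^ 2 - a) / (R * (R - 1)) ≤ Real.exp ((R ^ 2 - a) / (R * (R - 1)) - 1) := by
    linarith [Real.add_one_le_exp ((R ^ 2 - a) / (R * (R - 1)) - 1)]
  have h3 := pow_le_pow_left₀ (div_nonneg (by linarith) hp.le) h2 q
  rw [← Real.exp_nat_mul, hq] at h3
  have h4 := mul_le_mul h1 h3 (pow_nonneg (div_nonneg (by linarith) hp.le) _) (Real.exp_pos _).le
  have h5 : a / R - 1 + (R - 1) * ((R ^ 2 - a) / (R * (R - 1)) - 1) = 0 := by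
    field_simp
    ring
  rw [← Real.exp_add, h5, Real.exp_zero, div_pow, div_mul_div_comm,
    div_le_one (mul_pos hR0 (pow_pos hp _))] at h4
  exact h4

theorem pere_two_U (hr : 3 ≤ r) {z : ℂ} (hz : ‖z‖ ≤ √(r : ℝ)) :
    Real.exp (2 * U r z) =
      (r : ℝ) * ((r : ℝ) * ((r : ℝ) - 1)) ^ (r - 1) / ((r : ℝ) ^ 2 - ‖z‖ ^ 2) ^ (r - 1) := by
  rw [exp_two_U hr hz, mul_pow, ← mul_assoc, ← pow_succ', Nat.sub_add_cancel (by omega)]

theorem amgm_U (hr : 3 ≤ r) {z : ℂ} (hz : ‖z‖ ≤ √(r : ℝ)) {ξ : ℝ} (h0 : 0 ≤ ξ) (h1 : ξ ≤ 1) :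
    ((r : ℝ) ^ 2 * ξ + ‖z‖ ^ 2 * (1 - ξ)) * (1 - ξ) ^ (r - 1) ≤ Real.exp (2 * U r z) := by
  have hy := pere_sq hr hz
  have hR : (3 : ℝ) ≤ r := by exact_mod_cast hr
  have hy0 : 0 ≤ ‖z‖ ^ 2 := sq_nonneg _
  have hq : ((r - 1 : ℕ) : ℝ) = r - 1 := by rw [Nat.cast_sub (by omega), Nat.cast_one]
  rw [pere_two_U hr hz]
  generalize ‖z‖ ^ 2 = y at hy hy0 ⊢
  have hd : 0 < (r : ℝ) ^ 2 - y := by nlinarith
  have h2 : 0 ≤ 1 - ξ := by linarith
  have h3 : ((r : ℝ) ^ 2 - y) * (1 - ξ) = r ^ 2 - (r ^ 2 * ξ + y * (1 - ξ)) := by ring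
  have h4 : 0 ≤ ((r : ℝ) ^ 2 - y) * (1 - ξ) := mul_nonneg hd.le h2
  have h5 := pere_amgm (a := (r : ℝ) ^ 2 * ξ + y * (1 - ξ)) hR hq (by positivity) (by linarith)
  rw [← h3, mul_pow] at h5
  rw [le_div_iff₀ (pow_pos hd _)]
  linarith

theorem pere_term (hr : 3 ≤ r) (y ξ : ℝ) {k : ℕ} (hk : k ≤ n) :
    (n.choose k : ℝ) * (r : ℝ) ^ (2 * k) * y ^ (n - k) * (ξ ^ k * (1 - ξ) ^ (n * r - k))
      = ((r : ℝ) ^ 2 * ξ) ^ k * (y * (1 - ξ)) ^ (n - k) * (n.choose k : ℝ)
        * ((1 - ξ) ^ (r - 1)) ^ n := by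
  have h1 : n * r - k = (n - k) + (r - 1) * n := by
    obtain ⟨q, rfl⟩ : ∃ q, r = q + 1 := ⟨r - 1, by omega⟩
    rw [Nat.add_sub_cancel, Nat.mul_succ, mul_comm n q]
    omega
  rw [h1, pow_add, pow_mul, pow_mul, mul_pow, mul_pow]
  ring

theorem pere_binom {N k : ℕ} (hk : k ≤ N) {ξ : ℝ} (h0 : 0 ≤ ξ) (h1 : ξ ≤ 1) :
    ξ ^ k * (1 - ξ) ^ (N - k) ≤ 1 / (N.choose k : ℝ) := by
  have hc : (0 : ℝ) < (N.choose k : ℝ) := Nat.cast_pos.mpr (Nat.choose_pos hk)
  have h2 : 0 ≤ 1 - ξ := by linarith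
  have h3 := add_pow ξ (1 - ξ) N
  rw [add_sub_cancel, one_pow] at h3
  rw [le_div_iff₀ hc]
  refine le_of_le_of_eq ?_ h3.symm
  exact single_le_sum (f := fun m => ξ ^ m * (1 - ξ) ^ (N - m) * (N.choose m : ℝ))
    (fun m _ => by positivity) (mem_range.mpr (Nat.lt_succ_of_le hk))

theorem pere_exp_n (n : ℕ) (u : ℝ) : Real.exp (2 * n * u) = Real.exp (2 * u) ^ n := by
  rw [← Real.exp_nat_mul]
  congr 1
  ring

theorem ex_per_ge (hr : 3 ≤ r) {z : ℂ} (hz : ‖z‖ ≤ √(r : ℝ)) :
    Real.exp (2 * n * U r z) ≤ ex (fun π : Cfg n r => Per π (‖z‖ ^ 2)) := by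
  have hy := pere_sq hr hz
  have hR : (3 : ℝ) ≤ r := by exact_mod_cast hr
  have hy0 : 0 ≤ ‖z‖ ^ 2 := sq_nonneg _
  rw [ex_per, pere_exp_n, pere_two_U hr hz]
  generalize ‖z‖ ^ 2 = y at hy hy0 ⊢
  have hd : 0 < (r : ℝ) ^ 2 - y := by nlinarith
  have h0 : 0 ≤ (r - y) / ((r : ℝ) ^ 2 - y) := div_nonneg (by linarith) hd.le
  have h1 : (r - y) / ((r : ℝ) ^ 2 - y) ≤ 1 := (div_le_one hd).mpr (by nlinarith)
  have e1 : 1 - (r - y) / ((r : ℝ) ^ 2 - y) = r * (r - 1) / ((r : ℝ) ^ 2 - y) := by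
    field_simp
    ring
  have e2 : (r : ℝ) ^ 2 * ((r - y) / ((r : ℝ) ^ 2 - y)) + y * (1 - (r - y) / ((r : ℝ) ^ 2 - y))
      = r := by
    field_simp
    ring
  have e3 : (r : ℝ) * ((r : ℝ) * ((r : ℝ) - 1)) ^ (r - 1) / ((r : ℝ) ^ 2 - y) ^ (r - 1)
      = ((r : ℝ) ^ 2 * ((r - y) / ((r : ℝ) ^ 2 - y)) + y * (1 - (r - y) / ((r : ℝ) ^ 2 - y)))
        * (1 - (r - y) / ((r : ℝ) ^ 2 - y)) ^ (r - 1) := by
    rw [e2, e1, div_pow, mul_div_assoc]
  rw [e3]
  generalize (r - y) / ((r : ℝ) ^ 2 - y) = ξ at h0 h1 ⊢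
  rw [mul_pow, add_pow, sum_mul]
  refine sum_le_sum fun k hk => ?_
  have hkn : k ≤ n := Nat.lt_succ_iff.mp (mem_range.mp hk)
  have hkN : k ≤ n * r := hkn.trans (Nat.le_mul_of_pos_right n (by omega))
  rw [← pere_term hr y ξ hkn, div_eq_mul_one_div]
  exact mul_le_mul_of_nonneg_left (pere_binom hkN h0 h1) (by positivity)

theorem ex_per_le (hr : 3 ≤ r) {z : ℂ} (hz : ‖z‖ ≤ √(r : ℝ)) :
    ex (fun π : Cfg n r => Per π (‖z‖ ^ 2))
      ≤ ((n : ℝ) + 1) * (n * r + 1) * Real.exp (2 * n * U r z) := by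
  have hy0 : 0 ≤ ‖z‖ ^ 2 := sq_nonneg _
  rw [ex_per, pere_exp_n]
  refine (sum_le_card_nsmul _ _ (((n : ℝ) * r + 1) * Real.exp (2 * U r z) ^ n)
    fun k hk => ?_).trans (le_of_eq ?_)
  · have hkn : k ≤ n := Nat.lt_succ_iff.mp (mem_range.mp hk)
    have hkN : k ≤ n * r := hkn.trans (Nat.le_mul_of_pos_right n (by omega))
    obtain ⟨ξ, h0, h1, hξ⟩ := inv_choose_le hkN
    have h2 : 0 ≤ 1 - ξ := by linarith
    have h3 := amgm_U hr hz h0 h1
    generalize ‖z‖ ^ 2 = y at hy0 h3 ⊢
    rw [div_eq_mul_one_div]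
    refine (mul_le_mul_of_nonneg_left hξ (by positivity)).trans ?_
    rw [mul_left_comm, pere_term hr y ξ hkn, Nat.cast_mul]
    refine mul_le_mul_of_nonneg_left ?_ (by positivity)
    refine le_trans ?_ (pow_le_pow_left₀ (by positivity) h3 n)
    rw [mul_pow _ _ n, add_pow]
    refine mul_le_mul_of_nonneg_right ?_ (by positivity)
    exact single_le_sum
      (f := fun m => ((r : ℝ) ^ 2 * ξ) ^ m * (y * (1 - ξ)) ^ (n - m) * (n.choose m : ℝ))
      (fun m _ => by positivity) hk
  · rw [card_range, nsmul_eq_mul, Nat.cast_add, Nat.cast_one, mul_assoc]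

theorem ex_det_le (hr : 3 ≤ r) {z : ℂ} (hz : ‖z‖ ≤ √(r : ℝ)) :
    ex (fun π : Cfg n r => ‖(mat π z).det‖ ^ 2)
      ≤ ((n : ℝ) * (r + 1) + 1) ^ 4 * Real.exp (2 * n * U r z) := by
  refine (ex_det_sq z).trans ((mul_le_mul_of_nonneg_left (ex_per_le hr hz) (sq_nonneg _)).trans ?_)
  rw [← mul_assoc]
  refine mul_le_mul_of_nonneg_right ?_ (Real.exp_pos _).le
  have hn : (0 : ℝ) ≤ n := Nat.cast_nonneg n
  have hnr : (0 : ℝ) ≤ n * r := by positivity
  have h1 : ((n : ℝ) + 1) * (n * r + 1) ≤ (n * (r + 1) + 1) * (n * (r + 1) + 1) :=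
    mul_le_mul (by linarith) (by linarith) (by linarith) (by linarith)
  calc _ ≤ ((n : ℝ) * (r + 1) + 1) ^ 2 * ((n * (r + 1) + 1) * (n * (r + 1) + 1)) :=
        mul_le_mul_of_nonneg_left h1 (sq_nonneg _)
    _ = _ := by ring

theorem rare_upper (hr : 3 ≤ r) {z : ℂ} (hz : ‖z‖ ≤ √(r : ℝ)) {ε : ℝ} (hε : 0 < ε) :
    Rare r fun n π => ¬ ‖(mat π z).det‖ ^ 2 ≤ Real.exp (2 * n * (U r z + ε)) := by
  have hs := (Real.summable_pow_mul_exp_neg_nat_mul 4 (r := 2 * ε) (by linarith)).mul_left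
    (((r : ℝ) + 2) ^ 4)
  refine rare_of_le hs ((eventually_ge_atTop 1).mono fun n hn => ?_)
  have hn1 : (1 : ℝ) ≤ n := by exact_mod_cast hn
  have hr0 : (0 : ℝ) ≤ r := Nat.cast_nonneg r
  refine (pr_mono fun π h => (not_le.mp h).le).trans ?_
  refine (markov (f := fun π : Cfg n r => ‖(mat π z).det‖ ^ 2) (fun π => sq_nonneg _)
    (Real.exp_pos _)).trans ?_
  refine (div_le_div_of_nonneg_right (ex_det_le hr hz) (Real.exp_pos _).le).trans ?_
  rw [mul_div_assoc, ← Real.exp_sub, ← mul_assoc, ← mul_pow]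
  have e : 2 * n * U r z - 2 * n * (U r z + ε) = -(2 * ε) * n := by ring
  rw [e]
  refine mul_le_mul_of_nonneg_right (pow_le_pow_left₀ (by positivity) ?_ 4) (Real.exp_pos _).le
  linarith

end Pool.Agent.OKM

end FilePerE

section FilePotA

/-!
Circle averages and the upper bound.
`avg_log`: `circleAverage_log_norm_sub_const_eq_log_radius_add_posLog`.
`avg_log_reg`: `x = w - a`, `α = (√(p^2 + (|x|-s)^2) + √(p^2 + (|x|+s)^2))/2`, so `α^4 + s^2|x|^2 = α^2 (p^2 + s^2 + |x|^2)`,
`α^2 ≥ s |x|`, `0 < α ≤ max s |x| + p`. With `w' = a + (s^2/α^2) x` (in the closed disc) one has on the circle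
`p^2 + ‖z - w‖^2 = (α/s)^2 ‖z - w'‖^2`; so the average is `log (α/s) + log s = log α`
(`circleAverage_congr_sphere`, `circleAverage_log_norm_sub_const_of_mem_closedBall`).
`mlog_le`: off the finitely many roots, `2 ∑ log ‖z - w‖ = log h + 2 m U z ≤ log H + (h/H - 1) + 2 m U z` where `h` is the
averaged function; compare averages almost everywhere (`intervalIntegral.integral_mono_ae`, the exceptional set of
angles is countable: `Set.Countable.preimage_circleMap`), `circleAverage_fun_sum`-type additivity by induction on the multiset.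
`rare_up`: `markov` for `f π = circleAverage (‖det (mat π z)‖^2 exp (-2 n U z))`; `ex f ≤ (n(r+1)+1)^4` by exchanging the finite
sum with the average (`circleAverage_fun_sum`) and `ex_det_le`; `H = exp (2 ε n)`; `det_mat_eq`.
-/

open Finset Filter

namespace Pool.Agent.OKM

variable {n r : ℕ}

noncomputable def cU (r : ℕ) (a : ℂ) (s : ℝ) : ℝ := Real.circleAverage (U r) a s

theorem avg_log (w a : ℂ) {s : ℝ} (hs : 0 < s) :
    Real.circleAverage (fun z => Real.log ‖z - w‖) a s = Real.log (max s ‖w - a‖) := by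
  rw [circleAverage_log_norm_sub_const_eq_log_radius_add_posLog hs.ne', norm_sub_rev a w]
  rcases le_total ‖w - a‖ s with h | h
  · rw [max_eq_left h, (Real.posLog_eq_zero_iff _).mpr, add_zero]
    rw [abs_of_nonneg (by positivity)]
    exact inv_mul_le_one_of_le₀ h hs.le
  · have h1 : 1 ≤ s⁻¹ * ‖w - a‖ := by rw [le_inv_mul_iff₀ hs, mul_one]; exact h
    rw [max_eq_right h, Real.posLog_eq_log (by rwa [abs_of_nonneg (by positivity)]),
      Real.log_mul (by positivity) (by linarith), Real.log_inv]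
    ring

theorem avg_log_reg (w a : ℂ) {s p : ℝ} (hs : 0 < s) (hp : 0 < p) :
    Real.circleAverage (fun z => Real.log (p ^ 2 + ‖z - w‖ ^ 2) / 2) a s
      ≤ Real.log (max s ‖w - a‖) + p / s := by
  obtain ⟨d, hd⟩ : ∃ d, d = ‖w - a‖ := ⟨_, rfl⟩
  have d0 : 0 ≤ d := hd ▸ norm_nonneg _
  obtain ⟨A, hA⟩ : ∃ A, A = √(p ^ 2 + (d - s) ^ 2) := ⟨_, rfl⟩
  obtain ⟨B, hB⟩ : ∃ B, B = √(p ^ 2 + (d + s) ^ 2) := ⟨_, rfl⟩
  have A0 : 0 < A := hA ▸ Real.sqrt_pos.mpr (by positivity)
  have B0 : 0 < B := hB ▸ Real.sqrt_pos.mpr (by positivity)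
  have A2 : A ^ 2 = p ^ 2 + (d - s) ^ 2 := hA ▸ Real.sq_sqrt (by positivity)
  have B2 : B ^ 2 = p ^ 2 + (d + s) ^ 2 := hB ▸ Real.sq_sqrt (by positivity)
  obtain ⟨α, hα⟩ : ∃ α, α = (A + B) / 2 := ⟨_, rfl⟩
  have α0 : 0 < α := by rw [hα]; positivity
  have α2 : α ^ 2 = (p ^ 2 + s ^ 2 + d ^ 2 + A * B) / 2 := by
    rw [hα]; linear_combination (A2 + B2) / 4
  have AB : (A * B) ^ 2 = (p ^ 2 + s ^ 2 + d ^ 2) ^ 2 - 4 * d ^ 2 * s ^ 2 := by
    rw [mul_pow, A2, B2]; ring
  have α4 : (α ^ 2) ^ 2 + s ^ 2 * d ^ 2 = α ^ 2 * (p ^ 2 + s ^ 2 + d ^ 2) := by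
    rw [α2]; linear_combination AB / 4
  have α5 : s * d ≤ α ^ 2 := by
    have := mul_pos A0 B0
    have := sq_nonneg (s - d)
    have := sq_nonneg p
    rw [α2]; linarith
  have α6 : α ≤ max s d + p := by
    have h1 : A ≤ p + |d - s| := by
      refine le_of_pow_le_pow_left₀ two_ne_zero (by positivity) ?_
      have := mul_nonneg hp.le (abs_nonneg (d - s))
      rw [A2, add_sq, sq_abs]; linarith
    have h2 : B ≤ p + (d + s) := by
      refine le_of_pow_le_pow_left₀ two_ne_zero (by positivity) ?_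
      have := mul_nonneg hp.le (show 0 ≤ d + s by positivity)
      rw [B2, add_sq p]; linarith
    have h3 := le_max_left s d
    have h4 := le_max_right s d
    have h5 : |d - s| ≤ 2 * max s d - (d + s) := abs_le.mpr ⟨by linarith, by linarith⟩
    rw [hα]; linarith
  have hw' : a + ((s ^ 2 / α ^ 2 : ℝ) : ℂ) * (w - a) ∈ Metric.closedBall a |s| := by
    rw [mem_closedBall_iff_norm, add_sub_cancel_left, norm_mul, Complex.norm_real, ← hd, abs_of_pos hs,
      Real.norm_of_nonneg (by positivity), div_mul_eq_mul_div, div_le_iff₀ (by positivity), sq s,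
      mul_assoc]
    exact mul_le_mul_of_nonneg_left α5 hs.le
  have key : Set.EqOn (fun z => Real.log (p ^ 2 + ‖z - w‖ ^ 2) / 2)
      (fun z => Real.log (α / s) + Real.log ‖z - (a + ((s ^ 2 / α ^ 2 : ℝ) : ℂ) * (w - a))‖)
      (Metric.sphere a |s|) := by
    intro z hz
    rw [mem_sphere_iff_norm, abs_of_pos hs] at hz
    have e : p ^ 2 + ‖z - w‖ ^ 2 =
        (α / s * ‖z - (a + ((s ^ 2 / α ^ 2 : ℝ) : ℂ) * (w - a))‖) ^ 2 := by
      have e1 : s ^ 2 = ‖z - a‖ ^ 2 := by rw [hz]
      have e2 : d ^ 2 = ‖w - a‖ ^ 2 := by rw [hd]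
      rw [mul_pow, show z - w = (z - a) - (w - a) by ring, ← sub_sub]
      generalize z - a = u at e1 ⊢
      generalize w - a = x at e2 ⊢
      simp only [Complex.sq_norm, Complex.normSq_apply, Complex.sub_re, Complex.sub_im,
        Complex.re_ofReal_mul, Complex.im_ofReal_mul] at e1 e2 ⊢
      field_simp
      linear_combination (-s ^ 2) * α4 + (α ^ 4 - s ^ 2 * α ^ 2) * e1 + (s ^ 4 - s ^ 2 * α ^ 2) * e2
    have e0 : ‖z - (a + ((s ^ 2 / α ^ 2 : ℝ) : ℂ) * (w - a))‖ ≠ 0 := by
      intro h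
      rw [h, mul_zero] at e
      have : 0 < p ^ 2 + ‖z - w‖ ^ 2 := by positivity
      linarith
    simp only
    rw [e, Real.log_pow, Real.log_mul (by positivity) e0]
    push_cast
    ring
  rw [Real.circleAverage_congr_sphere key, Real.circleAverage_fun_add (circleIntegrable_const _ _ _)
    (circleIntegrable_log_norm_sub_const _), Real.circleAverage_const,
    circleAverage_log_norm_sub_const_of_mem_closedBall hw', Real.log_div α0.ne' hs.ne', sub_add_cancel,
    ← hd]
  have m0 : 0 < max s d := lt_max_of_lt_left hs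
  have h1 := Real.log_le_sub_one_of_pos (div_pos α0 m0)
  rw [Real.log_div α0.ne' m0.ne'] at h1
  have h2 : α / max s d ≤ 1 + p / s := by
    rw [div_le_iff₀ m0, add_mul, one_mul]
    refine α6.trans (add_le_add le_rfl ?_)
    rw [div_mul_eq_mul_div, le_div_iff₀ hs]
    exact mul_le_mul_of_nonneg_left (le_max_left _ _) hp.le
  linarith

theorem U_continuousOn (hr : 3 ≤ r) : ContinuousOn (U r) (Metric.closedBall 0 √(r : ℝ)) :=
  (LipschitzOnWith.of_dist_le_mul (K := 1) fun z hz w hw => by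
    rw [NNReal.coe_one, one_mul, Real.dist_eq, dist_eq_norm]
    exact U_lip hr (mem_closedBall_zero_iff.mp hz) (mem_closedBall_zero_iff.mp hw)).continuousOn

theorem pota_sphere {a z : ℂ} {s R : ℝ} (h : ‖a‖ + s ≤ R) (hz : z ∈ Metric.sphere a s) : ‖z‖ ≤ R := by
  rw [mem_sphere_iff_norm] at hz
  have := norm_add_le a (z - a)
  rw [add_sub_cancel] at this
  linarith

theorem U_circleIntegrable (hr : 3 ≤ r) {a : ℂ} {s : ℝ} (hs : 0 ≤ s) (h : ‖a‖ + s ≤ √(r : ℝ)) :
    CircleIntegrable (U r) a s :=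
  ContinuousOn.circleIntegrable hs ((U_continuousOn hr).mono fun _ hz =>
    mem_closedBall_zero_iff.mpr (pota_sphere h hz))

theorem cU_lip (hr : 3 ≤ r) {a a' : ℂ} {s : ℝ} (hs : 0 ≤ s) (h : ‖a‖ + s ≤ √(r : ℝ))
    (h' : ‖a'‖ + s ≤ √(r : ℝ)) : |cU r a s - cU r a' s| ≤ ‖a - a'‖ := by
  have i1 : ∀ {b : ℂ}, ‖b‖ + s ≤ √(r : ℝ) → CircleIntegrable (fun z => U r (z + b)) 0 s := by
    intro b hb
    have := U_circleIntegrable hr hs hb
    unfold CircleIntegrable at this ⊢
    simpa only [circleMap, zero_add, add_comm b] using this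
  unfold cU
  rw [← Real.circleAverage_map_add_const (c := a), ← Real.circleAverage_map_add_const (c := a'),
    ← Real.circleAverage_fun_sub (i1 h) (i1 h')]
  refine Real.abs_circleAverage_le_circleAverage_abs.trans
    (Real.circleAverage_mono_on_of_le_circle ((i1 h).sub (i1 h')).abs fun z hz => ?_)
  rw [abs_of_nonneg hs, mem_sphere_zero_iff_norm] at hz
  have := U_lip hr (z := z + a) (w := z + a') ((norm_add_le _ _).trans (by linarith))
    ((norm_add_le _ _).trans (by linarith))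
  rwa [add_sub_add_left_eq_sub] at this

theorem mlog_lip (Λ : Multiset ℂ) (a a' : ℂ) {s : ℝ} (hs : 0 < s) :
    |mlog Λ a s - mlog Λ a' s| ≤ Multiset.card Λ * (‖a - a'‖ / s) := by
  have one : ∀ w b b' : ℂ, Real.log (max s ‖w - b‖) - Real.log (max s ‖w - b'‖) ≤ ‖b - b'‖ / s := by
    intro w b b'
    have m0 : 0 < max s ‖w - b‖ := lt_max_of_lt_left hs
    have m1 : 0 < max s ‖w - b'‖ := lt_max_of_lt_left hs
    have h1 := Real.log_le_sub_one_of_pos (div_pos m0 m1)
    rw [Real.log_div m0.ne' m1.ne'] at h1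
    refine h1.trans ?_
    rw [sub_le_iff_le_add, div_le_iff₀ m1, add_mul, one_mul]
    have h2 : ‖b - b'‖ ≤ ‖b - b'‖ / s * max s ‖w - b'‖ := by
      rw [div_mul_eq_mul_div, le_div_iff₀ hs]
      exact mul_le_mul_of_nonneg_left (le_max_left _ _) (norm_nonneg _)
    have h3 := norm_sub_le (w - b') (b - b')
    rw [sub_sub_sub_cancel_right] at h3
    have h4 := le_max_left s ‖w - b'‖
    have h5 := le_max_right s ‖w - b'‖
    have h6 := norm_nonneg (b - b')
    exact max_le (by linarith) (by linarith)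
  unfold mlog
  induction Λ using Multiset.induction_on with
  | empty => simp
  | cons w Λ ih =>
    simp only [Multiset.map_cons, Multiset.sum_cons, Multiset.card_cons]
    have h1 := one w a a'
    have h2 := one w a' a
    rw [norm_sub_rev a' a] at h2
    rw [abs_le] at ih ⊢
    push_cast
    constructor <;> linarith [ih.1, ih.2]

theorem pota_avg (Λ : Multiset ℂ) (a : ℂ) {s : ℝ} (hs : 0 < s) :
    CircleIntegrable (fun z => (Λ.map fun w => Real.log ‖z - w‖).sum) a s ∧
      Real.circleAverage (fun z => (Λ.map fun w => Real.log ‖z - w‖).sum) a s = mlog Λ a s := by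
  unfold mlog
  induction Λ using Multiset.induction_on with
  | empty => simpa using Real.circleAverage_const (0 : ℝ) a s
  | cons w Λ ih =>
    simp only [Multiset.map_cons, Multiset.sum_cons]
    exact ⟨(circleIntegrable_log_norm_sub_const s).add ih.1, by
      rw [Real.circleAverage_fun_add (circleIntegrable_log_norm_sub_const s) ih.1, ih.2, avg_log w a hs]⟩

theorem pota_log (Λ : Multiset ℂ) {z : ℂ} (hz : z ∉ Λ) : 0 < ‖(Λ.map fun w => w - z).prod‖ ∧
    Real.log ‖(Λ.map fun w => w - z).prod‖ = (Λ.map fun w => Real.log ‖z - w‖).sum := by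
  induction Λ using Multiset.induction_on with
  | empty => simp
  | cons w Λ ih =>
    rw [Multiset.mem_cons, not_or] at hz
    obtain ⟨h1, h2⟩ := ih hz.2
    have h3 : 0 < ‖w - z‖ := norm_pos_iff.mpr (sub_ne_zero.mpr (Ne.symm hz.1))
    simp only [Multiset.map_cons, Multiset.sum_cons, Multiset.prod_cons, norm_mul]
    exact ⟨mul_pos h3 h1, by rw [Real.log_mul h3.ne' h1.ne', h2, norm_sub_rev]⟩

theorem pota_int (hr : 3 ≤ r) (Λ : Multiset ℂ) {a : ℂ} {s : ℝ} (m : ℝ) (hs : 0 ≤ s)
    (h : ‖a‖ + s ≤ √(r : ℝ)) : CircleIntegrable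
      (fun z => ‖(Λ.map fun w => w - z).prod‖ ^ 2 * Real.exp (-(2 * m * U r z))) a s := by
  have c1 : Continuous fun z : ℂ => (Λ.map fun w => w - z).prod :=
    continuous_multiset_prod _ fun w _ => continuous_const.sub continuous_id
  have c2 : ContinuousOn (U r) (Metric.sphere a s) := (U_continuousOn hr).mono fun _ hz =>
    mem_closedBall_zero_iff.mpr (pota_sphere h hz)
  exact ContinuousOn.circleIntegrable hs
    ((c1.norm.pow 2).continuousOn.mul (continuousOn_const.mul c2).neg.rexp)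

theorem mlog_le (hr : 3 ≤ r) (Λ : Multiset ℂ) {a : ℂ} {s m H : ℝ} (hs : 0 < s)
    (h : ‖a‖ + s ≤ √(r : ℝ)) (hH : 0 < H)
    (hav : Real.circleAverage
      (fun z => ‖(Λ.map fun w => w - z).prod‖ ^ 2 * Real.exp (-(2 * m * U r z)))
      a s ≤ H) :
    2 * mlog Λ a s ≤ 2 * m * cU r a s + Real.log H := by
  obtain ⟨i1, e1⟩ := pota_avg Λ a hs
  have i2 := pota_int hr Λ m hs.le h
  have i3 := U_circleIntegrable hr hs.le h
  have i4 := (i2.const_smul (a := H⁻¹)).add (i3.const_smul (a := 2 * m))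
  have i5 := i4.add (circleIntegrable_const (Real.log H - 1) a s)
  have key : Real.circleAverage ((2 : ℝ) • fun z => (Λ.map fun w => Real.log ‖z - w‖).sum) a s ≤
      Real.circleAverage ((H⁻¹ • (fun z => ‖(Λ.map fun w => w - z).prod‖ ^ 2 *
        Real.exp (-(2 * m * U r z))) + (2 * m) • U r) + fun _ => Real.log H - 1) a s := by
    refine mul_le_mul_of_nonneg_left (intervalIntegral.integral_mono_ae Real.two_pi_pos.le
      (i1.const_smul (a := 2)) i5 ?_) (by positivity)
    have hc : (circleMap a s ⁻¹' {w | w ∈ Λ}).Countable :=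
      (Multiset.finite_toSet Λ).countable.preimage_circleMap a hs.ne'
    filter_upwards [hc.ae_notMem MeasureTheory.volume] with θ hθ
    obtain ⟨h1, h2⟩ := pota_log Λ (z := circleMap a s θ) hθ
    simp only [Pi.add_apply, Pi.smul_apply, smul_eq_mul]
    have h3 := Real.log_le_sub_one_of_pos (show 0 < H⁻¹ * (‖(Λ.map fun w => w - circleMap a s θ).prod‖ ^ 2 *
      Real.exp (-(2 * m * U r (circleMap a s θ)))) by positivity)
    rw [Real.log_mul (by positivity) (by positivity), Real.log_mul (by positivity) (by positivity),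
      Real.log_exp, Real.log_pow, Real.log_inv, h2] at h3
    push_cast at h3
    linarith
  rw [Real.circleAverage_add i4 (circleIntegrable_const _ _ _),
    Real.circleAverage_add i2.const_smul i3.const_smul, Real.circleAverage_smul,
    Real.circleAverage_smul, Real.circleAverage_smul, Real.circleAverage_const, e1] at key
  have h1 := inv_mul_le_one_of_le₀ hav hH.le
  simp only [smul_eq_mul] at key
  unfold cU
  linarith

theorem rare_up (hr : 3 ≤ r) {a : ℂ} {s ε : ℝ} (hadm : Adm r a s) (hε : 0 < ε) :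
    Rare r fun n π => ¬ mlog (adj π).charpoly.roots a s ≤ n * (cU r a s + ε) := by
  obtain ⟨hs, h, -⟩ := hadm
  have sm : Summable fun n : ℕ => ((r : ℝ) + 2) ^ 4 * ((n : ℝ) ^ 4 * Real.exp (-(2 * ε) * n)) :=
    (Real.summable_pow_mul_exp_neg_nat_mul 4 (by positivity)).mul_left _
  refine rare_of_le sm ((eventually_ge_atTop 1).mono fun n hn => ?_)
  have n1 : (1 : ℝ) ≤ n := by exact_mod_cast hn
  have ii := fun π : Cfg n r => pota_int hr (adj π).charpoly.roots n hs.le h.le
  have mk := markov (f := fun π : Cfg n r => Real.circleAverage (fun z =>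
    ‖((adj π).charpoly.roots.map fun w => w - z).prod‖ ^ 2 * Real.exp (-(2 * n * U r z))) a s)
    (fun π => Real.circleAverage_nonneg_of_nonneg fun z _ => by positivity)
    (Real.exp_pos (2 * ε * n))
  refine (pr_mono fun π hπ => ?_).trans (mk.trans ?_)
  · by_contra hc
    have := mlog_le hr _ hs h.le (Real.exp_pos _) (not_le.mp hc).le
    rw [Real.log_exp] at this
    exact hπ (by linarith)
  · rw [div_eq_mul_inv, ← Real.exp_neg, neg_mul, ← mul_assoc, ← mul_pow]
    refine mul_le_mul_of_nonneg_right ?_ (Real.exp_pos _).le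
    unfold ex
    rw [← Real.circleAverage_fun_sum fun π _ => ii π, div_eq_inv_mul, ← smul_eq_mul,
      ← Real.circleAverage_smul]
    have i6 : CircleIntegrable (fun z => ∑ π : Cfg n r, ‖((adj π).charpoly.roots.map fun w => w - z).prod‖ ^ 2 *
        Real.exp (-(2 * n * U r z))) a s := by
      have := CircleIntegrable.sum univ fun π _ => ii π
      rwa [Finset.sum_fn] at this
    refine Real.circleAverage_mono_on_of_le_circle i6.const_smul fun z hz => ?_
    rw [abs_of_pos hs] at hz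
    have h1 := ex_det_le (n := n) hr (pota_sphere h.le hz)
    unfold ex at h1
    simp only [det_mat_eq] at h1
    simp only [Pi.smul_apply, smul_eq_mul]
    rw [← Finset.sum_mul, ← mul_assoc, ← div_eq_inv_mul, Real.exp_neg, ← div_eq_mul_inv,
      div_le_iff₀ (Real.exp_pos _)]
    refine h1.trans (mul_le_mul_of_nonneg_right (pow_le_pow_left₀ (by positivity) ?_ 4)
      (Real.exp_pos _).le)
    linarith

end Pool.Agent.OKM

end FilePotA

end
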